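import Pool.Agent.BSQ.StB

/-!
# BSQ/AEC (helper52): almost everywhere comparison of the sectors and a strip
-/

set_option autoImplicit false

namespace Pool.Agent.BSQ

open Finset MeasureTheory Filter Topology
open scoped BigOperators
open Classical

private theorem aec_meas {X : Type} [MeasurableSpace X] (T : X ≃ᵐ X) (f g : X → ℝ)
    (hf : Measurable f) (hg : Measurable g) (k : ℕ) : Measurable (fun x => FT T f g x k) := by
  unfold FT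
  exact (hf.comp (T.measurable.iterate k)).mul (hg.comp (T.symm.measurable.iterate k))

private theorem aec_measW {X : Type} [MeasurableSpace X] (T : X ≃ᵐ X) (f g : X → ℝ)
    (hf : Measurable f) (hg : Measurable g) (N M : ℕ) :
    Measurable (fun x => WF (FT T f g x) N M) := by
  unfold WF
  exact (Finset.measurable_sum _ fun n _ => Finset.measurable_sum _ fun m _ =>
    (aec_meas T f g hf hg _).const_mul _).const_mul _

private theorem aec_measS {X : Type} [MeasurableSpace X] (T : X ≃ᵐ X) (f g : X → ℝ)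
    (hf : Measurable f) (hg : Measurable g) (R j N : ℕ) :
    Measurable (fun x => SF (FT T f g x) R j N) := by
  unfold SF
  exact (Finset.measurable_sum _ fun p _ => aec_meas T f g hf hg _).const_mul _

private theorem aec_bound {X : Type} [MeasurableSpace X] (T : X ≃ᵐ X) (f g : X → ℝ)
    (hf : ∀ x, |f x| ≤ 1) (hg : ∀ x, |g x| ≤ 1) (x : X) (k : ℕ) : |FT T f g x k| ≤ 1 := by
  unfold FT
  rw [abs_mul]
  exact mul_le_one₀ (hf _) (abs_nonneg _) (hg _)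

/-- summable second moments give convergence to `0` almost everywhere -/
private theorem aec_ae {X : Type} [MeasurableSpace X] (μ : Measure X) [IsProbabilityMeasure μ]
    (D : ℕ → X → ℝ) (hD : ∀ i, Measurable (D i)) (B : ℝ) (hB : ∀ i x, |D i x| ≤ B)
    (a : ℕ → ℝ) (ha : Summable a) (hi : ∀ i, ∫ x, (D i x) ^ 2 ∂μ ≤ a i) :
    ∀ᵐ x ∂μ, Tendsto (fun i => D i x) atTop (𝓝 0) := by
  have h1 : ∀ i, Integrable (fun x => (D i x) ^ 2) μ := by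
    intro i
    refine Integrable.of_bound ((hD i).pow_const 2).aestronglyMeasurable (B ^ 2)
      (ae_of_all _ fun x => ?_)
    rw [Real.norm_eq_abs, abs_pow]
    exact pow_le_pow_left₀ (abs_nonneg _) (hB i x) 2
  have hm : ∀ i, Measurable (fun x => ENNReal.ofReal ((D i x) ^ 2)) :=
    fun i => ((hD i).pow_const 2).ennreal_ofReal
  have h2 : ∑' i, ∫⁻ x, ENNReal.ofReal ((D i x) ^ 2) ∂μ ≠ ⊤ := by
    have h3 : ∀ i, ∫⁻ x, ENNReal.ofReal ((D i x) ^ 2) ∂μ ≤ ENNReal.ofReal (a i) := by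
      intro i
      rw [← ofReal_integral_eq_lintegral_ofReal (h1 i) (ae_of_all _ fun x => sq_nonneg _)]
      exact ENNReal.ofReal_le_ofReal (hi i)
    exact ne_top_of_le_ne_top ha.tsum_ofReal_ne_top (ENNReal.tsum_le_tsum h3)
  rw [← lintegral_tsum fun i => (hm i).aemeasurable] at h2
  filter_upwards [ae_lt_top (Measurable.ennreal_tsum hm) h2] with x hx
  have h3 := ENNReal.tendsto_atTop_zero_of_tsum_ne_top hx.ne
  have h4 : Tendsto (fun i => (D i x) ^ 2) atTop (𝓝 0) := by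
    have h5 := (ENNReal.tendsto_toReal ENNReal.zero_ne_top).comp h3
    have h6 : (ENNReal.toReal ∘ fun i => ENNReal.ofReal ((D i x) ^ 2)) =
        fun i => (D i x) ^ 2 := by
      funext i
      exact ENNReal.toReal_ofReal (sq_nonneg _)
    rw [h6] at h5
    simpa using h5
  have h5 := (Real.continuous_sqrt.tendsto 0).comp h4
  have h6 : (Real.sqrt ∘ fun i => (D i x) ^ 2) = fun i => |D i x| := by
    funext i
    exact Real.sqrt_sq_eq_abs _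
  rw [h6, Real.sqrt_zero] at h5
  exact (tendsto_zero_iff_abs_tendsto_zero _).2 h5

private noncomputable def aec_D (F : ℕ → ℝ) (R j N : ℕ) : ℝ :=
  SF F R j N - WF F N ⌊(N : ℝ) ^ (7 / 8 : ℝ)⌋₊

private theorem aec_osc (hINT : St_INT) (F : ℕ → ℝ) (hF : ∀ k, |F k| ≤ 1) (R j : ℕ)
    (hR : 1 ≤ R) (hj : j < R) (q : ℝ) (hq : 0 < q) (N₁ N : ℕ) (h1 : 1 ≤ N₁) (h2 : N₁ ≤ N)
    (h3 : (N : ℝ) ≤ (1 + q) * N₁) :
    |aec_D F R j N - aec_D F R j N₁| ≤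
      (16 * R + 12) * q + (48 * R / N + 4 * (N : ℝ) ^ (-(7 / 8) : ℝ)) := by
  obtain ⟨i1, i2, -, -⟩ := hINT F hF
  have hN1 : (0 : ℝ) < N₁ := by exact_mod_cast h1
  have hN : (0 : ℝ) < N := by exact_mod_cast (lt_of_lt_of_le h1 h2)
  have hN1' : (1 : ℝ) ≤ N₁ := by exact_mod_cast h1
  have hNN : (N₁ : ℝ) ≤ N := by exact_mod_cast h2
  set ρ : ℝ := (N₁ : ℝ) / N with hρ
  have hρ0 : 0 < ρ := div_pos hN1 hN
  have hρ1 : ρ ≤ 1 := (div_le_one hN).2 hNN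
  have hρq : 1 - ρ ≤ q := by
    have h4 : 1 ≤ (1 + q) * ρ := by
      rw [hρ, ← mul_div_assoc, le_div_iff₀ hN]
      linarith
    have h5 : q * ρ ≤ q * 1 := mul_le_mul_of_nonneg_left hρ1 hq.le
    linarith
  have hRR : (0 : ℝ) < R := by exact_mod_cast hR
  -- sector part
  have hs := i2 R j N₁ N hR hj h1 h2
  have hs' : |SF F R j N₁ - SF F R j N| ≤ 16 * R * q + 48 * R / N := by
    refine hs.trans ?_
    have h4 : (N₁ : ℝ) ^ 2 / (N : ℝ) ^ 2 = ρ ^ 2 := by rw [hρ, div_pow]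
    rw [h4]
    have h5 : 1 - ρ ^ 2 ≤ 2 * q := by nlinarith
    have h6 : 8 * (R : ℝ) * (1 - ρ ^ 2) ≤ 8 * R * (2 * q) :=
      mul_le_mul_of_nonneg_left h5 (by positivity)
    linarith
  -- strip part
  have e78 : (0 : ℝ) ≤ 7 / 8 := by norm_num
  have hM1 : 1 ≤ ⌊(N₁ : ℝ) ^ (7 / 8 : ℝ)⌋₊ := by
    refine Nat.le_floor ?_
    rw [Nat.cast_one]
    exact Real.one_le_rpow hN1' e78
  have hMM : ⌊(N₁ : ℝ) ^ (7 / 8 : ℝ)⌋₊ ≤ ⌊(N : ℝ) ^ (7 / 8 : ℝ)⌋₊ :=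
    Nat.floor_mono (Real.rpow_le_rpow hN1.le hNN e78)
  have hw := i1 N₁ N _ _ h1 h2 hM1 hMM
  set M₁ : ℕ := ⌊(N₁ : ℝ) ^ (7 / 8 : ℝ)⌋₊ with hM₁
  set M : ℕ := ⌊(N : ℝ) ^ (7 / 8 : ℝ)⌋₊ with hM
  have hMpos : (0 : ℝ) < M := by exact_mod_cast (lt_of_lt_of_le hM1 hMM)
  have hp : (0 : ℝ) < (N : ℝ) ^ (7 / 8 : ℝ) := Real.rpow_pos_of_pos hN _
  have hMle : (M : ℝ) ≤ (N : ℝ) ^ (7 / 8 : ℝ) := Nat.floor_le hp.le
  have hM1ge : (N₁ : ℝ) ^ (7 / 8 : ℝ) - 1 ≤ M₁ := by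
    have := Nat.lt_floor_add_one ((N₁ : ℝ) ^ (7 / 8 : ℝ))
    rw [← hM₁] at this
    linarith
  have hneg : (N : ℝ) ^ (-(7 / 8) : ℝ) = 1 / (N : ℝ) ^ (7 / 8 : ℝ) := by
    rw [Real.rpow_neg hN.le, one_div]
  have hnn : 0 ≤ (N : ℝ) ^ (-(7 / 8) : ℝ) := Real.rpow_nonneg hN.le _
  have hratio : ρ - (N : ℝ) ^ (-(7 / 8) : ℝ) ≤ (M₁ : ℝ) / M := by
    have h4 : ρ ≤ ρ ^ (7 / 8 : ℝ) := by
      have := Real.rpow_le_rpow_of_exponent_ge hρ0 hρ1 (by norm_num : (7 / 8 : ℝ) ≤ 1)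
      rwa [Real.rpow_one] at this
    have h5 : ρ ^ (7 / 8 : ℝ) = (N₁ : ℝ) ^ (7 / 8 : ℝ) / (N : ℝ) ^ (7 / 8 : ℝ) :=
      Real.div_rpow hN1.le hN.le _
    calc ρ - (N : ℝ) ^ (-(7 / 8) : ℝ)
        ≤ (N₁ : ℝ) ^ (7 / 8 : ℝ) / (N : ℝ) ^ (7 / 8 : ℝ) - 1 / (N : ℝ) ^ (7 / 8 : ℝ) := by
          rw [← h5, hneg]; linarith
      _ = ((N₁ : ℝ) ^ (7 / 8 : ℝ) - 1) / (N : ℝ) ^ (7 / 8 : ℝ) := by ring
      _ ≤ (M₁ : ℝ) / (N : ℝ) ^ (7 / 8 : ℝ) := div_le_div_of_nonneg_right hM1ge hp.le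
      _ ≤ (M₁ : ℝ) / M := div_le_div_of_nonneg_left (by positivity) hMpos hMle
  have hw' : |WF F N₁ M₁ - WF F N M| ≤ 12 * q + 4 * (N : ℝ) ^ (-(7 / 8) : ℝ) := by
    refine hw.trans ?_
    have h4 : (N₁ : ℝ) ^ 2 * M₁ / ((N : ℝ) ^ 2 * M) = ρ ^ 2 * ((M₁ : ℝ) / M) := by
      rw [hρ, div_pow, div_mul_div_comm]
    rw [h4]
    have h5 : ρ ^ 2 * (ρ - (N : ℝ) ^ (-(7 / 8) : ℝ)) ≤ ρ ^ 2 * ((M₁ : ℝ) / M) :=
      mul_le_mul_of_nonneg_left hratio (by positivity)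
    have h6 : ρ ^ 2 * (N : ℝ) ^ (-(7 / 8) : ℝ) ≤ 1 * (N : ℝ) ^ (-(7 / 8) : ℝ) :=
      mul_le_mul_of_nonneg_right (by nlinarith) hnn
    have h7 : 1 - ρ ^ 3 ≤ 3 * q := by
      have h8 : 1 - ρ ^ 3 = (1 - ρ) * (1 + ρ + ρ ^ 2) := by ring
      have h9 : 1 + ρ + ρ ^ 2 ≤ 3 := by nlinarith
      rw [h8]
      calc (1 - ρ) * (1 + ρ + ρ ^ 2) ≤ (1 - ρ) * 3 :=
            mul_le_mul_of_nonneg_left h9 (by linarith)
        _ ≤ 3 * q := by linarith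
    nlinarith
  have heq : aec_D F R j N - aec_D F R j N₁ =
      (WF F N₁ M₁ - WF F N M) - (SF F R j N₁ - SF F R j N) := by
    unfold aec_D
    rw [← hM₁, ← hM]
    ring
  rw [heq]
  refine (abs_sub _ _).trans ?_
  linarith

private theorem aec_det (hINT : St_INT) (F : ℕ → ℝ) (hF : ∀ k, |F k| ≤ 1) (R j : ℕ)
    (hR : 1 ≤ R) (hj : j < R)
    (h : ∀ m : ℕ, Tendsto (fun i : ℕ => aec_D F R j ⌈(1 + 1 / ((m : ℝ) + 1)) ^ i⌉₊) atTop (𝓝 0)) :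
    Tendsto (fun N : ℕ => aec_D F R j N) atTop (𝓝 0) := by
  rw [Metric.tendsto_atTop]
  intro ε hε
  obtain ⟨m, hm⟩ := exists_nat_gt ((16 * (R : ℝ) + 12) / (ε / 3))
  have hm1 : (0 : ℝ) < (m : ℝ) + 1 := by positivity
  set q : ℝ := 1 / ((m : ℝ) + 1) with hq
  have hq0 : 0 < q := by positivity
  have hqs : (16 * (R : ℝ) + 12) * q < ε / 3 := by
    rw [div_lt_iff₀ (by positivity)] at hm
    rw [hq, mul_one_div, div_lt_iff₀ hm1]
    nlinarith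
  obtain ⟨I, hI⟩ := (Metric.tendsto_atTop.1 (h m)) (ε / 3) (by positivity)
  have hlim : Tendsto (fun N : ℕ => 48 * (R : ℝ) / (N : ℝ) + 4 * (N : ℝ) ^ (-(7 / 8) : ℝ)) atTop
      (𝓝 0) := by
    have h1 : Tendsto (fun N : ℕ => 48 * (R : ℝ) / (N : ℝ)) atTop (𝓝 0) :=
      tendsto_const_nhds.div_atTop tendsto_natCast_atTop_atTop
    have h2 : Tendsto (fun N : ℕ => (N : ℝ) ^ (-(7 / 8) : ℝ)) atTop (𝓝 0) :=
      (tendsto_rpow_neg_atTop (by norm_num : (0 : ℝ) < 7 / 8)).comp tendsto_natCast_atTop_atTop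
    simpa using h1.add (h2.const_mul 4)
  obtain ⟨N2, hN2⟩ := (Metric.tendsto_atTop.1 hlim) (ε / 3) (by positivity)
  refine ⟨max (max N2 1) ⌈(1 + q) ^ I⌉₊, fun N hN => ?_⟩
  have hNa : N2 ≤ N := (le_max_left _ _).trans ((le_max_left _ _).trans hN)
  have hNb : 1 ≤ N := (le_max_right _ _).trans ((le_max_left _ _).trans hN)
  have hNc : ⌈(1 + q) ^ I⌉₊ ≤ N := (le_max_right _ _).trans hN
  have hNb' : (1 : ℝ) ≤ N := by exact_mod_cast hNb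
  obtain ⟨i, hi1, hi2⟩ := exists_nat_pow_near hNb' (by linarith : (1 : ℝ) < 1 + q)
  have hiI : I ≤ i := by
    by_contra hcon
    rw [not_le] at hcon
    have h1 : (1 + q) ^ (i + 1) ≤ (1 + q) ^ I :=
      pow_le_pow_right₀ (by linarith) hcon
    have h2 : (1 + q) ^ I ≤ (N : ℝ) := Nat.ceil_le.1 hNc
    linarith
  have hg1 : ⌈(1 + q) ^ i⌉₊ ≤ N := Nat.ceil_le.2 hi1
  have hg0 : 1 ≤ ⌈(1 + q) ^ i⌉₊ := Nat.ceil_pos.2 (by positivity)
  have hg2 : (N : ℝ) ≤ (1 + q) * (⌈(1 + q) ^ i⌉₊ : ℕ) := by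
    have h1 : (1 + q) ^ i ≤ (⌈(1 + q) ^ i⌉₊ : ℕ) := Nat.le_ceil _
    have h2 : (1 + q) ^ (i + 1) = (1 + q) * (1 + q) ^ i := by ring
    rw [h2] at hi2
    have h3 : (1 + q) * (1 + q) ^ i ≤ (1 + q) * (⌈(1 + q) ^ i⌉₊ : ℕ) :=
      mul_le_mul_of_nonneg_left h1 (by linarith)
    linarith
  have hosc := aec_osc hINT F hF R j hR hj q hq0 _ N hg0 hg1 hg2
  have ha := hI i hiI
  have hb := hN2 N hNa
  rw [Real.dist_eq, sub_zero] at ha hb ⊢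
  have hb' := (abs_lt.1 hb).2
  have hc : aec_D F R j N = (aec_D F R j N - aec_D F R j ⌈(1 + q) ^ i⌉₊) +
      aec_D F R j ⌈(1 + q) ^ i⌉₊ := by ring
  rw [hc]
  refine (abs_add_le _ _).trans_lt ?_
  linarith

theorem thm_AEC (hPWC : St_PWC) (hINT : St_INT) : St_AEC := by
  intro X _ μ _ T hT f g hf hg hf1 hg1
  rw [ae_all_iff]
  intro R
  rw [ae_all_iff]
  intro j
  by_cases hR : 1 ≤ R
  swap
  · exact ae_of_all _ fun x h => absurd h hR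
  by_cases hj : j < R
  swap
  · exact ae_of_all _ fun x _ h => absurd h hj
  obtain ⟨κ, C, hκ, hC, hPW⟩ := hPWC R hR
  have key : ∀ m : ℕ, ∀ᵐ x ∂μ, Tendsto (fun i : ℕ =>
      aec_D (FT T f g x) R j ⌈(1 + 1 / ((m : ℝ) + 1)) ^ i⌉₊) atTop (𝓝 0) := by
    intro m
    have hm1 : (0 : ℝ) < (m : ℝ) + 1 := by positivity
    set q : ℝ := 1 / ((m : ℝ) + 1) with hq
    have hq0 : 0 < q := by positivity
    have hq1 : 1 < 1 + q := by linarith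
    refine aec_ae μ (fun i x => aec_D (FT T f g x) R j ⌈(1 + q) ^ i⌉₊) ?_ (4 * R + 2) ?_
      (fun i => C * ((1 + q) ^ (-κ)) ^ i) ?_ ?_
    · intro i
      exact (aec_measS T f g hf hg R j _).sub (aec_measW T f g hf hg _ _)
    · intro i x
      obtain ⟨-, -, i3, i4⟩ := hINT (FT T f g x) (aec_bound T f g hf1 hg1 x)
      refine (abs_sub _ _).trans ?_
      exact add_le_add (i4 R j _ hR hj) (i3 _ _)
    · refine (summable_geometric_of_lt_one (by positivity) ?_).mul_left C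
      exact Real.rpow_lt_one_of_one_lt_of_neg hq1 (by linarith)
    · intro i
      have hg0 : 1 ≤ ⌈(1 + q) ^ i⌉₊ := Nat.ceil_pos.2 (by positivity)
      refine (hPW X μ T hT f g hf hg hf1 hg1 j _ hj hg0).trans ?_
      refine mul_le_mul_of_nonneg_left ?_ hC.le
      have h1 : (1 + q) ^ i ≤ (⌈(1 + q) ^ i⌉₊ : ℕ) := Nat.le_ceil _
      have h2 : ((⌈(1 + q) ^ i⌉₊ : ℕ) : ℝ) ^ (-κ) ≤ ((1 + q) ^ i) ^ (-κ) :=
        Real.rpow_le_rpow_of_nonpos (by positivity) h1 (by linarith)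
      refine h2.trans (le_of_eq ?_)
      rw [← Real.rpow_natCast, ← Real.rpow_natCast, ← Real.rpow_mul (by linarith),
        ← Real.rpow_mul (by linarith), mul_comm]
  rw [← ae_all_iff] at key
  filter_upwards [key] with x hx _ _
  exact aec_det hINT (FT T f g x) (aec_bound T f g hf1 hg1 x) R j hR hj hx

end Pool.Agent.BSQ
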