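import Pool.Agent.BSQ.StB

/-!
# BSQ, AES (helper69): almost everywhere uniform comparison of strips (Borel-Cantelli on grids)
-/

set_option autoImplicit false

namespace Pool.Agent.BSQ

open Finset MeasureTheory Filter Topology
open scoped BigOperators
open Classical

/-- the grid -/
noncomputable def aes_G (q : ℝ) (i : ℕ) : ℕ := ⌈(1 + q) ^ i⌉₊

theorem aes_G_mono {q : ℝ} (hq : 0 < q) : Monotone (aes_G q) := by
  intro i j hij
  exact Nat.ceil_mono (pow_le_pow_right₀ (by linarith) hij)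

theorem aes_le_G (q : ℝ) (i : ℕ) : (1 + q) ^ i ≤ (aes_G q i : ℝ) := Nat.le_ceil _

theorem aes_G_pos {q : ℝ} (hq : 0 < q) (i : ℕ) : 1 ≤ aes_G q i := by
  have h1 : (1 : ℝ) ≤ (1 + q) ^ i := one_le_pow₀ (by linarith)
  have h2 : (1 : ℝ) ≤ (aes_G q i : ℝ) := h1.trans (aes_le_G q i)
  exact_mod_cast h2

/-- the element of the grid below an integer -/
theorem aes_near {q : ℝ} (hq : 0 < q) (N : ℕ) (hN : 1 ≤ N) :
    ∃ i : ℕ, aes_G q i ≤ N ∧ (N : ℝ) < (1 + q) * aes_G q i ∧ (N : ℝ) < (1 + q) ^ (i + 1) := by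
  obtain ⟨i, h1, h2⟩ := exists_nat_pow_near (x := (N : ℝ)) (y := 1 + q) (by exact_mod_cast hN)
    (by linarith)
  refine ⟨i, Nat.ceil_le.2 h1, ?_, h2⟩
  calc (N : ℝ) < (1 + q) ^ (i + 1) := h2
    _ = (1 + q) * (1 + q) ^ i := by ring
    _ ≤ (1 + q) * aes_G q i := mul_le_mul_of_nonneg_left (aes_le_G q i) (by linarith)

/-- admissible -/
def aes_V (q c1 c2 : ℝ) (i j : ℕ) : Prop :=
  (aes_G q i : ℝ) ^ c1 ≤ aes_G q j ∧ (aes_G q j : ℝ) ≤ (aes_G q i : ℝ) ^ c2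

/-- the sum over the admissible pairs -/
noncomputable def aes_Phi (F : ℕ → ℝ) (q c1 c2 : ℝ) (i : ℕ) : ℝ :=
  ∑ p ∈ (range i ×ˢ range i).filter (fun p => aes_V q c1 c2 i p.1 ∧ aes_V q c1 c2 i p.2),
    (WF F (aes_G q i) (aes_G q p.1) - WF F (aes_G q i) (aes_G q p.2)) ^ 2

theorem aes_rho {q N N1 M M1 : ℝ} (hq : 0 < q) (hN1 : 0 < N1) (hM1 : 0 < M1) (hN : N1 ≤ N)
    (hM : M1 ≤ M) (h1 : N < (1 + q) * N1) (h2 : M < (1 + q) * M1) :
    4 * (1 - N1 ^ 2 * M1 / (N ^ 2 * M)) ≤ 12 * q := by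
  have hN0 : 0 < N := hN1.trans_le hN
  have hM0 : 0 < M := hM1.trans_le hM
  have h3 : 1 - 3 * q ≤ N1 ^ 2 * M1 / (N ^ 2 * M) := by
    rw [le_div_iff₀ (by positivity)]
    have h4 : N ^ 2 * M ≤ (1 + q) ^ 3 * (N1 ^ 2 * M1) := by
      have h5 : N ^ 2 ≤ ((1 + q) * N1) ^ 2 := pow_le_pow_left₀ hN0.le h1.le 2
      calc N ^ 2 * M ≤ ((1 + q) * N1) ^ 2 * ((1 + q) * M1) :=
            mul_le_mul h5 h2.le hM0.le (by positivity)
        _ = _ := by ring
    by_cases h6 : 1 - 3 * q ≤ 0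
    · have h7 : (1 - 3 * q) * (N ^ 2 * M) ≤ 0 := mul_nonpos_of_nonpos_of_nonneg h6 (by positivity)
      have h8 : 0 ≤ N1 ^ 2 * M1 := by positivity
      linarith
    · push Not at h6
      have h9 : (1 - 3 * q) * (1 + q) ^ 3 ≤ 1 := by
        have h10 : 0 < q ^ 2 := by positivity
        have h11 : 0 < q ^ 3 := by positivity
        have h12 : 0 < q ^ 4 := by positivity
        nlinarith
      calc (1 - 3 * q) * (N ^ 2 * M) ≤ (1 - 3 * q) * ((1 + q) ^ 3 * (N1 ^ 2 * M1)) :=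
            mul_le_mul_of_nonneg_left h4 h6.le
        _ = ((1 - 3 * q) * (1 + q) ^ 3) * (N1 ^ 2 * M1) := by ring
        _ ≤ 1 * (N1 ^ 2 * M1) := mul_le_mul_of_nonneg_right h9 (by positivity)
        _ = _ := by ring
  linarith

/-- the deterministic part -/
theorem aes_det (hINT : St_INT) (F : ℕ → ℝ) (hF : ∀ k, |F k| ≤ 1) (c1 c2 d1 d2 : ℝ)
    (h0 : 0 < d1) (h1 : d1 < c1) (h12 : c1 ≤ c2) (h2 : c2 < d2) (h3 : d2 < 1)
    (hlim : ∀ l : ℕ, Tendsto (aes_Phi F (1 / ((l : ℝ) + 1)) d1 d2) atTop (𝓝 0)) :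
    UnifW F c1 c2 := by
  intro ε hε
  obtain ⟨l, hl⟩ := exists_nat_one_div_lt (show (0 : ℝ) < ε / 48 by positivity)
  set q : ℝ := 1 / ((l : ℝ) + 1) with hq
  have hq0 : 0 < q := by positivity
  have hq1 : q ≤ 1 := by
    rw [hq, div_le_one (by positivity)]
    linarith [(Nat.cast_nonneg l : (0 : ℝ) ≤ l)]
  obtain ⟨i0, hi0⟩ := (Metric.tendsto_atTop.1 (hlim l)) ((ε / 2) ^ 2) (by positivity)
  -- `x ^ (c1 - d1)` and `x ^ (d2 - c2)` are at least two for large `x`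
  have ht1 : ∀ᶠ x : ℝ in atTop, 2 ≤ x ^ (c1 - d1) :=
    (tendsto_rpow_atTop (by linarith)).eventually_ge_atTop 2
  have ht2 : ∀ᶠ x : ℝ in atTop, 2 ≤ x ^ (d2 - c2) :=
    (tendsto_rpow_atTop (by linarith)).eventually_ge_atTop 2
  obtain ⟨R, hR⟩ := eventually_atTop.1 (ht1.and (ht2.and (eventually_gt_atTop (1 : ℝ))))
  refine ⟨max 1 (⌈max ((1 + q) ^ i0) (2 * R)⌉₊), ?_⟩
  intro N hN M M' hM1 hM2 hM1' hM2'
  have hN1 : 1 ≤ N := (le_max_left _ _).trans hN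
  have hNR : max ((1 + q) ^ i0) (2 * R) ≤ (N : ℝ) :=
    (Nat.le_ceil _).trans (by exact_mod_cast (le_max_right _ _).trans hN)
  have hNi : (1 + q) ^ i0 ≤ (N : ℝ) := (le_max_left _ _).trans hNR
  have hN2R : 2 * R ≤ (N : ℝ) := (le_max_right _ _).trans hNR
  obtain ⟨i, hi1, hi2, hi3⟩ := aes_near hq0 N hN1
  have hGi : 1 ≤ aes_G q i := aes_G_pos hq0 i
  have hGi' : (1 : ℝ) ≤ (aes_G q i : ℝ) := by exact_mod_cast hGi
  have hGR : R ≤ (aes_G q i : ℝ) := by nlinarith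
  obtain ⟨hR1, hR2, hR3⟩ := hR _ hGR
  have hii : i0 ≤ i := by
    by_contra hcon
    push Not at hcon
    have h4 : (1 + q) ^ (i + 1) ≤ (1 + q) ^ i0 := pow_le_pow_right₀ (by linarith) hcon
    linarith
  have hGN : (aes_G q i : ℝ) ≤ N := by exact_mod_cast hi1
  have hNpos : (0 : ℝ) < N := by exact_mod_cast hN1
  have hGpos : (0 : ℝ) < (aes_G q i : ℝ) := by linarith
  -- approximation of one value
  have key : ∀ M : ℕ, (N : ℝ) ^ c1 ≤ M → (M : ℝ) ≤ (N : ℝ) ^ c2 → ∃ j < i, aes_V q d1 d2 i j ∧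
      |WF F N M - WF F (aes_G q i) (aes_G q j)| ≤ 12 * q := by
    intro M hMa hMb
    have hM0 : (1 : ℝ) ≤ M :=
      le_trans (Real.one_le_rpow (by exact_mod_cast hN1) (by linarith)) hMa
    have hM0' : 1 ≤ M := by exact_mod_cast hM0
    obtain ⟨j, hj1, hj2, _⟩ := aes_near hq0 M hM0'
    have hGj : 1 ≤ aes_G q j := aes_G_pos hq0 j
    have hGj' : (1 : ℝ) ≤ (aes_G q j : ℝ) := by exact_mod_cast hGj
    have hGM : (aes_G q j : ℝ) ≤ M := by exact_mod_cast hj1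
    have hV1 : (aes_G q i : ℝ) ^ d1 ≤ aes_G q j := by
      have h4 : (aes_G q i : ℝ) ^ d1 * 2 ≤ (aes_G q i : ℝ) ^ c1 := by
        have h5 : (aes_G q i : ℝ) ^ c1 = (aes_G q i : ℝ) ^ d1 * (aes_G q i : ℝ) ^ (c1 - d1) := by
          rw [← Real.rpow_add hGpos]
          congr 1
          ring
        rw [h5]
        exact mul_le_mul_of_nonneg_left hR1 (Real.rpow_nonneg hGpos.le _)
      have h6 : (aes_G q i : ℝ) ^ c1 ≤ (N : ℝ) ^ c1 :=
        Real.rpow_le_rpow hGpos.le hGN (by linarith)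
      nlinarith
    have hV2 : (aes_G q j : ℝ) ≤ (aes_G q i : ℝ) ^ d2 := by
      have h5 : (aes_G q i : ℝ) ^ d2 = (aes_G q i : ℝ) ^ c2 * (aes_G q i : ℝ) ^ (d2 - c2) := by
        rw [← Real.rpow_add hGpos]
        congr 1
        ring
      have h6 : (N : ℝ) ^ c2 ≤ ((1 + q) * aes_G q i) ^ c2 :=
        Real.rpow_le_rpow hNpos.le hi2.le (by linarith)
      have h7 : ((1 + q) * (aes_G q i : ℝ)) ^ c2 = (1 + q) ^ c2 * (aes_G q i : ℝ) ^ c2 :=
        Real.mul_rpow (by linarith) hGpos.le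
      have h8 : (1 + q) ^ c2 ≤ 1 + q := by
        calc (1 + q) ^ c2 ≤ (1 + q) ^ (1 : ℝ) :=
              Real.rpow_le_rpow_of_exponent_le (by linarith) (by linarith)
          _ = 1 + q := Real.rpow_one _
      have h9 : 0 ≤ (aes_G q i : ℝ) ^ c2 := Real.rpow_nonneg hGpos.le _
      have h10 : (1 + q) ^ c2 * (aes_G q i : ℝ) ^ c2 ≤ 2 * (aes_G q i : ℝ) ^ c2 :=
        mul_le_mul_of_nonneg_right (by linarith) h9
      have h11 : (aes_G q i : ℝ) ^ c2 * 2 ≤ (aes_G q i : ℝ) ^ c2 * (aes_G q i : ℝ) ^ (d2 - c2) :=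
        mul_le_mul_of_nonneg_left hR2 h9
      rw [h5]
      linarith
    have hji : j < i := by
      by_contra hcon
      push Not at hcon
      have h4 : (aes_G q i : ℝ) ≤ (aes_G q j : ℝ) := by exact_mod_cast aes_G_mono hq0 hcon
      have h5 : (aes_G q i : ℝ) ^ d2 < (aes_G q i : ℝ) ^ (1 : ℝ) :=
        Real.rpow_lt_rpow_of_exponent_lt hR3 h3
      rw [Real.rpow_one] at h5
      linarith
    refine ⟨j, hji, ⟨hV1, hV2⟩, ?_⟩
    have h4 := (hINT F hF).1 (aes_G q i) N (aes_G q j) M hGi hi1 hGj hj1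
    rw [abs_sub_comm]
    exact h4.trans (aes_rho hq0 hGpos (by linarith) hGN hGM hi2 hj2)
  obtain ⟨j, hj, hjV, hjW⟩ := key M hM1 hM2
  obtain ⟨j', hj', hjV', hjW'⟩ := key M' hM1' hM2'
  have hmem : (j, j') ∈ (range i ×ˢ range i).filter
      (fun p => aes_V q d1 d2 i p.1 ∧ aes_V q d1 d2 i p.2) :=
    Finset.mem_filter.2 ⟨Finset.mem_product.2 ⟨Finset.mem_range.2 hj, Finset.mem_range.2 hj'⟩,
      hjV, hjV'⟩
  have hPhi : (WF F (aes_G q i) (aes_G q j) - WF F (aes_G q i) (aes_G q j')) ^ 2 ≤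
      aes_Phi F q d1 d2 i := by
    have h := Finset.single_le_sum (s := (range i ×ˢ range i).filter
      (fun p => aes_V q d1 d2 i p.1 ∧ aes_V q d1 d2 i p.2)) (f := fun p : ℕ × ℕ =>
      (WF F (aes_G q i) (aes_G q p.1) - WF F (aes_G q i) (aes_G q p.2)) ^ 2)
      (fun p _ => sq_nonneg _) hmem
    exact h
  have hP := hi0 i hii
  rw [Real.dist_eq, sub_zero] at hP
  have h5 : (WF F (aes_G q i) (aes_G q j) - WF F (aes_G q i) (aes_G q j')) ^ 2 ≤ (ε / 2) ^ 2 :=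
    hPhi.trans ((le_abs_self _).trans hP.le)
  have h6 : |WF F (aes_G q i) (aes_G q j) - WF F (aes_G q i) (aes_G q j')| ≤ ε / 2 :=
    abs_le_of_sq_le_sq h5 (by positivity)
  have h7 : WF F N M - WF F N M' = (WF F N M - WF F (aes_G q i) (aes_G q j)) +
      (WF F (aes_G q i) (aes_G q j) - WF F (aes_G q i) (aes_G q j')) -
      (WF F N M' - WF F (aes_G q i) (aes_G q j')) := by ring
  rw [h7]
  have h8 := abs_sub ((WF F N M - WF F (aes_G q i) (aes_G q j)) +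
      (WF F (aes_G q i) (aes_G q j) - WF F (aes_G q i) (aes_G q j')))
      (WF F N M' - WF F (aes_G q i) (aes_G q j'))
  have h9 := abs_add_le (WF F N M - WF F (aes_G q i) (aes_G q j))
      (WF F (aes_G q i) (aes_G q j) - WF F (aes_G q i) (aes_G q j'))
  linarith

section ae

variable {X : Type} [MeasurableSpace X] (μ : Measure X) [IsProbabilityMeasure μ] (T : X ≃ᵐ X)
  (f g : X → ℝ)

theorem aes_FT_meas (hf : Measurable f) (hg : Measurable g) (k : ℕ) :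
    Measurable (fun x => FT T f g x k) :=
  (hf.comp (T.measurable.iterate k)).mul (hg.comp (T.symm.measurable.iterate k))

theorem aes_FT_le (hf : ∀ x, |f x| ≤ 1) (hg : ∀ x, |g x| ≤ 1) (x : X) (k : ℕ) :
    |FT T f g x k| ≤ 1 := by
  unfold FT
  rw [abs_mul]
  exact mul_le_one₀ (hf _) (abs_nonneg _) (hg _)

theorem aes_WF_meas (hf : Measurable f) (hg : Measurable g) (N M : ℕ) :
    Measurable (fun x => WF (FT T f g x) N M) := by
  unfold WF
  refine measurable_const.mul ?_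
  refine Finset.measurable_fun_sum _ fun n _ => ?_
  refine Finset.measurable_fun_sum _ fun m _ => ?_
  exact measurable_const.mul (aes_FT_meas T f g hf hg _)

theorem aes_ae (hINT : St_INT) (hf : Measurable f) (hg : Measurable g) (hf1 : ∀ x, |f x| ≤ 1)
    (hg1 : ∀ x, |g x| ≤ 1) (d1 d2 κ C : ℝ) (hκ : 0 < κ) (hC : 0 < C)
    (hPW : ∀ N M M' : ℕ, 1 ≤ N → (N : ℝ) ^ d1 ≤ M → (M : ℝ) ≤ (N : ℝ) ^ d2 →
      (N : ℝ) ^ d1 ≤ M' → (M' : ℝ) ≤ (N : ℝ) ^ d2 →
      ∫ x, (WF (FT T f g x) N M - WF (FT T f g x) N M') ^ 2 ∂μ ≤ C * (N : ℝ) ^ (-κ))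
    (q : ℝ) (hq : 0 < q) :
    ∀ᵐ x ∂μ, Tendsto (aes_Phi (FT T f g x) q d1 d2) atTop (𝓝 0) := by
  have hWm := aes_WF_meas T f g hf hg
  have hWb : ∀ N M x, |WF (FT T f g x) N M| ≤ 2 := fun N M x =>
    (hINT (FT T f g x) (aes_FT_le T f g hf1 hg1 x)).2.2.1 N M
  have hsm : ∀ N M M' : ℕ, Measurable
      (fun x => (WF (FT T f g x) N M - WF (FT T f g x) N M') ^ 2) := fun N M M' =>
    ((hWm N M).sub (hWm N M')).pow_const 2
  have hsi : ∀ N M M' : ℕ, Integrable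
      (fun x => (WF (FT T f g x) N M - WF (FT T f g x) N M') ^ 2) μ := by
    intro N M M'
    refine Integrable.of_bound (hsm N M M').aestronglyMeasurable 16 (ae_of_all _ fun x => ?_)
    rw [Real.norm_eq_abs, abs_of_nonneg (sq_nonneg _)]
    have h1 := abs_le.1 (hWb N M x)
    have h2 := abs_le.1 (hWb N M' x)
    nlinarith
  have hPm : ∀ i, Measurable (fun x => aes_Phi (FT T f g x) q d1 d2 i) := by
    intro i
    unfold aes_Phi
    exact Finset.measurable_fun_sum _ fun p _ => hsm _ _ _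
  have hPi : ∀ i, Integrable (fun x => aes_Phi (FT T f g x) q d1 d2 i) μ := by
    intro i
    unfold aes_Phi
    exact integrable_finsetSum _ fun p _ => hsi _ _ _
  have hP0 : ∀ i x, 0 ≤ aes_Phi (FT T f g x) q d1 d2 i := fun i x =>
    Finset.sum_nonneg fun p _ => sq_nonneg _
  set r : ℝ := (1 + q) ^ (-κ) with hr
  have hr0 : 0 < r := Real.rpow_pos_of_pos (by linarith) _
  have hr1 : r < 1 := Real.rpow_lt_one_of_one_lt_of_neg (by linarith) (by linarith)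
  have hint : ∀ i, ∫ x, aes_Phi (FT T f g x) q d1 d2 i ∂μ ≤ C * ((i : ℝ) ^ 2 * r ^ i) := by
    intro i
    unfold aes_Phi
    rw [integral_finsetSum _ fun p _ => hsi _ _ _]
    have h1 : ∀ p ∈ (range i ×ˢ range i).filter
        (fun p => aes_V q d1 d2 i p.1 ∧ aes_V q d1 d2 i p.2),
        ∫ x, (WF (FT T f g x) (aes_G q i) (aes_G q p.1) -
          WF (FT T f g x) (aes_G q i) (aes_G q p.2)) ^ 2 ∂μ ≤ C * r ^ i := by
      intro p hp
      obtain ⟨_, hV1, hV2⟩ := Finset.mem_filter.1 hp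
      refine (hPW _ _ _ (aes_G_pos hq i) hV1.1 hV1.2 hV2.1 hV2.2).trans ?_
      refine mul_le_mul_of_nonneg_left ?_ hC.le
      have h2 : (aes_G q i : ℝ) ^ (-κ) ≤ ((1 + q) ^ i) ^ (-κ) :=
        Real.rpow_le_rpow_of_nonpos (by positivity) (aes_le_G q i) (by linarith)
      refine h2.trans (le_of_eq ?_)
      rw [hr, ← Real.rpow_natCast, ← Real.rpow_natCast, ← Real.rpow_mul (by linarith),
        ← Real.rpow_mul (by linarith), mul_comm]
    refine (Finset.sum_le_sum h1).trans ?_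
    rw [Finset.sum_const, nsmul_eq_mul]
    have h2 : (((range i ×ˢ range i).filter
        (fun p => aes_V q d1 d2 i p.1 ∧ aes_V q d1 d2 i p.2)).card : ℝ) ≤ (i : ℝ) ^ 2 := by
      have h3 := Finset.card_filter_le (range i ×ˢ range i)
        (fun p => aes_V q d1 d2 i p.1 ∧ aes_V q d1 d2 i p.2)
      rw [Finset.card_product, Finset.card_range] at h3
      calc _ ≤ ((i * i : ℕ) : ℝ) := by exact_mod_cast h3
        _ = (i : ℝ) ^ 2 := by push_cast; ring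
    calc _ ≤ (i : ℝ) ^ 2 * (C * r ^ i) := mul_le_mul_of_nonneg_right h2 (by positivity)
      _ = _ := by ring
  have hsum : Summable (fun i : ℕ => C * ((i : ℝ) ^ 2 * r ^ i)) :=
    (summable_pow_mul_geometric_of_norm_lt_one 2
      (by rw [Real.norm_eq_abs, abs_of_pos hr0]; exact hr1)).mul_left C
  have hlt : ∫⁻ x, ∑' i, ENNReal.ofReal (aes_Phi (FT T f g x) q d1 d2 i) ∂μ ≠ ⊤ := by
    rw [lintegral_tsum fun i => (hPm i).ennreal_ofReal.aemeasurable]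
    have h1 : ∀ i, ∫⁻ x, ENNReal.ofReal (aes_Phi (FT T f g x) q d1 d2 i) ∂μ ≤
        ENNReal.ofReal (C * ((i : ℝ) ^ 2 * r ^ i)) := by
      intro i
      rw [← ofReal_integral_eq_lintegral_ofReal (hPi i) (ae_of_all _ fun x => hP0 i x)]
      exact ENNReal.ofReal_le_ofReal (hint i)
    refine ne_top_of_le_ne_top ?_ (ENNReal.tsum_le_tsum h1)
    rw [← ENNReal.ofReal_tsum_of_nonneg (fun i => by positivity) hsum]
    exact ENNReal.ofReal_ne_top
  have hae := ae_lt_top (Measurable.tsum fun i => (hPm i).ennreal_ofReal) hlt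
  filter_upwards [hae] with x hx
  have h1 := ENNReal.tendsto_atTop_zero_of_tsum_ne_top hx.ne
  have h2 := (ENNReal.tendsto_toReal ENNReal.zero_ne_top).comp h1
  have h3 : (ENNReal.toReal ∘ fun i => ENNReal.ofReal (aes_Phi (FT T f g x) q d1 d2 i)) =
      aes_Phi (FT T f g x) q d1 d2 := by
    funext i
    exact ENNReal.toReal_ofReal (hP0 i x)
  rw [h3, ENNReal.toReal_zero] at h2
  exact h2

end ae

theorem thm_AES (hPWS : St_PWS) (hINT : St_INT) : St_AES := by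
  intro X _ μ _ T hT f g hf hg hf1 hg1 c1 c2 h1 h12 h2 h3
  obtain ⟨δ, hδ0, hδ1, hδ2, hδ3⟩ : ∃ δ : ℝ, 0 < δ ∧ 1 / 2 < c1 - δ ∧ c2 + δ < 1 ∧
      1 < 4 * (c1 - δ) - 2 * (c2 + δ) := by
    refine ⟨min (c1 - 1 / 2) (min (1 - c2) ((4 * c1 - 2 * c2 - 1) / 6)) / 2, ?_, ?_, ?_, ?_⟩
    · have : 0 < min (c1 - 1 / 2) (min (1 - c2) ((4 * c1 - 2 * c2 - 1) / 6)) :=
        lt_min (by linarith) (lt_min (by linarith) (by linarith))
      linarith
    · have := min_le_left (c1 - 1 / 2) (min (1 - c2) ((4 * c1 - 2 * c2 - 1) / 6))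
      linarith
    · have h4 := min_le_right (c1 - 1 / 2) (min (1 - c2) ((4 * c1 - 2 * c2 - 1) / 6))
      have h5 := min_le_left (1 - c2) ((4 * c1 - 2 * c2 - 1) / 6)
      linarith
    · have h4 := min_le_right (c1 - 1 / 2) (min (1 - c2) ((4 * c1 - 2 * c2 - 1) / 6))
      have h5 := min_le_right (1 - c2) ((4 * c1 - 2 * c2 - 1) / 6)
      linarith
  obtain ⟨κ, C, hκ, hC, hPW⟩ := hPWS (c1 - δ) (c2 + δ) hδ1 (by linarith) hδ2 hδ3
  have hall : ∀ᵐ x ∂μ, ∀ l : ℕ, Tendsto (aes_Phi (FT T f g x) (1 / ((l : ℝ) + 1)) (c1 - δ)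
      (c2 + δ)) atTop (𝓝 0) := by
    rw [ae_all_iff]
    intro l
    exact aes_ae μ T f g hINT hf hg hf1 hg1 _ _ κ C hκ hC
      (fun N M M' => hPW X μ T hT f g hf hg hf1 hg1 N M M') _ (by positivity)
  filter_upwards [hall] with x hx
  exact aes_det hINT _ (aes_FT_le T f g hf1 hg1 x) c1 c2 (c1 - δ) (c2 + δ) (by linarith)
    (by linarith) h12 (by linarith) hδ2 hx

end Pool.Agent.BSQ
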