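import Pool.Agent.BSQ.StA

/-!
# BSQ, module AJ: bounds for the area `a_j`
-/

set_option autoImplicit false

namespace Pool.Agent.BSQ

open MeasureTheory Set

private theorem aj_cont (R j : ℕ) : Continuous (hj R j) := by
  unfold hj
  fun_prop

private theorem aj_int (R j : ℕ) (a b : ℝ) : IntervalIntegrable (hj R j) volume a b :=
  (aj_cont R j).intervalIntegrable a b

private theorem aj_lin (R : ℕ) (c : ℝ) : ∫ x in (0 : ℝ)..c, x / (R : ℝ) = c ^ 2 / (2 * R) := by
  rw [intervalIntegral.integral_div, integral_id]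
  ring

private theorem aj_point (t : ℝ) : 0 ≤ 1 / Real.sqrt (1 + t ^ 2) ∧ 1 / Real.sqrt (1 + t ^ 2) ≤ 1 ∧
    (1 / Real.sqrt (1 + t ^ 2)) ^ 2 = 1 / (1 + t ^ 2) := by
  have h1 : 0 < 1 + t ^ 2 := by positivity
  have h2 : 1 ≤ Real.sqrt (1 + t ^ 2) := by
    rw [Real.one_le_sqrt]
    nlinarith [sq_nonneg t]
  refine ⟨by positivity, ?_, ?_⟩
  · rw [div_le_one (by linarith)]
    exact h2
  · rw [div_pow, Real.sq_sqrt h1.le, one_pow]

private theorem aj_up (R j : ℕ) (hR : 1 ≤ R) :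
    aj R j ≤ 1 / (2 * R * (1 + ((j : ℝ) / R) ^ 2)) := by
  have hR' : (0 : ℝ) < R := by exact_mod_cast hR
  obtain ⟨h0, h1, h2⟩ := aj_point ((j : ℝ) / R)
  set c : ℝ := 1 / Real.sqrt (1 + ((j : ℝ) / R) ^ 2) with hc
  have hα : 0 ≤ (j : ℝ) / R := by positivity
  unfold aj
  rw [← intervalIntegral.integral_add_adjacent_intervals (aj_int R j 0 c) (aj_int R j c 1)]
  have e1 : ∫ x in (0 : ℝ)..c, hj R j x ≤ ∫ x in (0 : ℝ)..c, x / (R : ℝ) := by
    refine intervalIntegral.integral_mono_on h0 (aj_int R j 0 c)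
      ((continuous_id.div_const _).intervalIntegrable 0 c) fun x hx => ?_
    unfold hj
    refine max_le (div_nonneg hx.1 hR'.le) ?_
    have : min (((j : ℝ) + 1) * x / R) (Real.sqrt (1 - x ^ 2)) ≤ ((j : ℝ) + 1) * x / R :=
      min_le_left _ _
    have e : ((j : ℝ) + 1) * x / R - (j : ℝ) * x / R = x / R := by ring
    linarith
  have e2 : ∫ x in c..(1 : ℝ), hj R j x ≤ ∫ x in c..(1 : ℝ), (0 : ℝ) := by
    refine intervalIntegral.integral_mono_on h1 (aj_int R j c 1)
      (continuous_const.intervalIntegrable c 1) fun x hx => ?_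
    unfold hj
    refine max_le (le_refl _) ?_
    have hx0 : 0 ≤ x := h0.trans hx.1
    have h3 : Real.sqrt (1 - x ^ 2) ≤ (j : ℝ) * x / R := by
      have h4 : 0 ≤ (j : ℝ) * x / R := by positivity
      rw [Real.sqrt_le_left h4]
      have h5 : c ^ 2 ≤ x ^ 2 := by
        have := hx.1
        gcongr
      rw [h2, div_le_iff₀ (by positivity)] at h5
      have e : ((j : ℝ) * x / R) ^ 2 = ((j : ℝ) / R) ^ 2 * x ^ 2 := by ring
      rw [e]
      linarith
    have : min (((j : ℝ) + 1) * x / R) (Real.sqrt (1 - x ^ 2)) ≤ Real.sqrt (1 - x ^ 2) :=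
      min_le_right _ _
    linarith
  rw [aj_lin, h2] at e1
  rw [intervalIntegral.integral_zero] at e2
  have e3 : 1 / (1 + ((j : ℝ) / R) ^ 2) / (2 * R) = 1 / (2 * R * (1 + ((j : ℝ) / R) ^ 2)) := by
    rw [div_div]
    ring_nf
  rw [← e3]
  linarith

private theorem aj_low (R j : ℕ) (hR : 1 ≤ R) :
    1 / (2 * R * (1 + (((j : ℝ) + 1) / R) ^ 2)) ≤ aj R j := by
  have hR' : (0 : ℝ) < R := by exact_mod_cast hR
  obtain ⟨h0, h1, h2⟩ := aj_point (((j : ℝ) + 1) / R)
  set c : ℝ := 1 / Real.sqrt (1 + (((j : ℝ) + 1) / R) ^ 2) with hc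
  unfold aj
  rw [← intervalIntegral.integral_add_adjacent_intervals (aj_int R j 0 c) (aj_int R j c 1)]
  have e1 : ∫ x in (0 : ℝ)..c, x / (R : ℝ) ≤ ∫ x in (0 : ℝ)..c, hj R j x := by
    refine intervalIntegral.integral_mono_on h0
      ((continuous_id.div_const _).intervalIntegrable 0 c) (aj_int R j 0 c) fun x hx => ?_
    unfold hj
    refine le_trans ?_ (le_max_right _ _)
    have h3 : ((j : ℝ) + 1) * x / R ≤ Real.sqrt (1 - x ^ 2) := by
      apply Real.le_sqrt_of_sq_le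
      have h5 : x ^ 2 ≤ c ^ 2 := by
        have := hx.1
        have := hx.2
        gcongr
      rw [h2, le_div_iff₀ (by positivity)] at h5
      have e : (((j : ℝ) + 1) * x / R) ^ 2 = (((j : ℝ) + 1) / R) ^ 2 * x ^ 2 := by ring
      rw [e]
      linarith
    rw [min_eq_left h3]
    have e : ((j : ℝ) + 1) * x / R - (j : ℝ) * x / R = x / R := by ring
    rw [e]
  have e2 : 0 ≤ ∫ x in c..(1 : ℝ), hj R j x :=
    intervalIntegral.integral_nonneg h1 fun x _ => le_max_left _ _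
  rw [aj_lin, h2] at e1
  have e3 : 1 / (1 + (((j : ℝ) + 1) / R) ^ 2) / (2 * R) =
      1 / (2 * R * (1 + (((j : ℝ) + 1) / R) ^ 2)) := by
    rw [div_div]
    ring_nf
  rw [← e3]
  linarith

theorem thm_AJ : St_AJ := by
  intro R j hR hj
  have hR' : (0 : ℝ) < R := by exact_mod_cast hR
  have h1 := aj_low R j hR
  refine ⟨h1, aj_up R j hR, le_trans ?_ h1⟩
  have h2 : ((j : ℝ) + 1) / R ≤ 1 := by
    rw [div_le_one hR']
    exact_mod_cast hj
  have h3 : 0 ≤ ((j : ℝ) + 1) / R := by positivity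
  have h4 : (((j : ℝ) + 1) / R) ^ 2 ≤ 1 := by nlinarith
  apply one_div_le_one_div_of_le (by positivity)
  nlinarith

end Pool.Agent.BSQ
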