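import Pool.Agent.BSQ.StA

/-!
# BSQ, module AUTOC (helper55): autocorrelations of flat functions
-/

set_option autoImplicit false

namespace Pool.Agent.BSQ

open Finset
open scoped BigOperators
open Classical

section autoc

variable {P : ℕ} [NeZero P]

theorem autoc_tl_lt {H M : ℕ} (hP : P = H * M) (u : ZMod P) : tl H u < M := by
  unfold tl
  apply Nat.div_lt_of_lt_mul
  rw [← hP]
  exact ZMod.val_lt u

theorem autoc_step {H B T : ℕ} (hP : P = H * (B * T)) (hH : 1 ≤ H)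
    (h2 : 2 * H + 1 ≤ P) {k : ℕ} (hk : k ≤ H) (v : ZMod P)
    (hne : tl H v / B ≠ tl H (v + (k : ZMod P)) / B) :
    B ∣ tl H v + 1 ∧ B ∣ tl H (v + (k : ZMod P)) := by
  have hkP : k < P := by omega
  have hval : (v + (k : ZMod P)).val = (v.val + k) % P := by
    rw [ZMod.val_add, ZMod.val_natCast, Nat.mod_eq_of_lt hkP]
  have hv : v.val < P := ZMod.val_lt v
  unfold tl at hne ⊢
  rw [hval] at hne ⊢
  by_cases hlt : v.val + k < P
  · rw [Nat.mod_eq_of_lt hlt] at hne ⊢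
    have h3 : v.val / H ≤ (v.val + k) / H := Nat.div_le_div_right (Nat.le_add_right _ _)
    have h4 : (v.val + k) / H ≤ v.val / H + 1 := by
      calc (v.val + k) / H ≤ (v.val + H) / H := Nat.div_le_div_right (by omega)
        _ = v.val / H + 1 := Nat.add_div_right _ (by omega)
    have h5 : (v.val + k) / H = v.val / H + 1 := by
      rcases Nat.lt_or_ge (v.val / H) ((v.val + k) / H) with h | h
      · omega
      · exfalso
        apply hne
        rw [le_antisymm h3 h]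
    rw [h5] at hne ⊢
    have h6 : B ∣ v.val / H + 1 := by
      by_contra hc
      apply hne
      rw [Nat.succ_div_of_not_dvd hc]
    exact ⟨h6, h6⟩
  · have h3 : (v.val + k) % P = v.val + k - P := by
      rw [Nat.mod_eq_sub_mod (by omega), Nat.mod_eq_of_lt (by omega)]
    rw [h3]
    have h4 : (v.val + k - P) / H = 0 := Nat.div_eq_of_lt (by omega)
    have h5 : v.val / H < B * T := by
      apply Nat.div_lt_of_lt_mul
      rw [← hP]
      exact hv
    have h6 : B * T - 1 ≤ v.val / H := by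
      rw [Nat.le_div_iff_mul_le (by omega), Nat.sub_mul, one_mul, mul_comm (B * T) H, ← hP]
      omega
    have h7 : v.val / H + 1 = B * T := by omega
    rw [h4, h7]
    exact ⟨Dvd.intro _ rfl, dvd_zero _⟩

theorem autoc_edge {H B T : ℕ} (hP : P = H * (B * T)) (hH : 1 ≤ H)
    (h2 : 2 * H + 1 ≤ P) {l : ℤ} (hl : l ∈ Icc (-(H : ℤ)) (H : ℤ)) (v : ZMod P)
    (hne : tl H v / B ≠ tl H (v + (l : ZMod P)) / B) :
    (B ∣ tl H v ∨ B ∣ tl H v + 1) ∧
      (B ∣ tl H (v + (l : ZMod P)) ∨ B ∣ tl H (v + (l : ZMod P)) + 1) := by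
  rw [mem_Icc] at hl
  rcases le_or_gt 0 l with h0 | h0
  · obtain ⟨k, rfl⟩ := Int.eq_ofNat_of_zero_le h0
    rw [Int.cast_natCast] at hne ⊢
    obtain ⟨h3, h4⟩ := autoc_step hP hH h2 (k := k) (by omega) v hne
    exact ⟨Or.inr h3, Or.inl h4⟩
  · obtain ⟨k, hk⟩ := Int.eq_ofNat_of_zero_le (show 0 ≤ -l by omega)
    have h3 : v = v + (l : ZMod P) + (k : ZMod P) := by
      have h4 : (l : ZMod P) + (k : ZMod P) = ((l + k : ℤ) : ZMod P) := by push_cast; ring
      rw [add_assoc, h4, ← hk, add_neg_cancel, Int.cast_zero, add_zero]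
    have h5 : tl H (v + (l : ZMod P)) / B ≠ tl H (v + (l : ZMod P) + (k : ZMod P)) / B := by
      rw [← h3]
      exact hne.symm
    obtain ⟨h6, h7⟩ := autoc_step hP hH h2 (k := k) (by omega) (v + (l : ZMod P)) h5
    rw [← h3] at h7
    exact ⟨Or.inl h7, Or.inr h6⟩

/-- Energy of the tiles with the property `p`. -/
theorem autoc_energy {H M : ℕ} (hP : P = H * M) {f : ZMod P → ℂ} (hf : TileE H f)
    (p : ℕ → Prop) [DecidablePred p] :
    ∑ u : ZMod P, (if p (tl H u) then ‖f u‖ ^ 2 else 0) ≤ (((range M).filter p).card : ℝ) * H := by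
  rw [← sum_fiberwise_of_maps_to (s := univ) (t := range M) (g := fun u : ZMod P => tl H u)
    (fun u _ => mem_range.2 (autoc_tl_lt hP u))]
  have h1 : ∀ t ∈ range M, ∑ u ∈ univ.filter (fun u : ZMod P => tl H u = t),
      (if p (tl H u) then ‖f u‖ ^ 2 else 0) ≤ if p t then (H : ℝ) else 0 := by
    intro t _
    by_cases hp : p t
    · rw [if_pos hp]
      refine le_trans (sum_le_sum fun u _ => ?_) (hf t)
      split_ifs
      · exact le_rfl
      · positivity
    · rw [if_neg hp]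
      refine le_of_eq (sum_eq_zero fun u hu => ?_)
      rw [(mem_filter.1 hu).2, if_neg hp]
  refine (sum_le_sum h1).trans (le_of_eq ?_)
  rw [← sum_filter, sum_const, nsmul_eq_mul]

theorem autoc_total {H M : ℕ} (hP : P = H * M) {f : ZMod P → ℂ} (hf : TileE H f) :
    ∑ u : ZMod P, ‖f u‖ ^ 2 ≤ P := by
  rw [← sum_fiberwise_of_maps_to (s := univ) (t := range M) (g := fun u : ZMod P => tl H u)
    (fun u _ => mem_range.2 (autoc_tl_lt hP u))]
  refine (sum_le_sum fun t _ => hf t).trans (le_of_eq ?_)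
  rw [sum_const, card_range, nsmul_eq_mul]
  have h1 : M * H = P := by rw [mul_comm]; exact hP.symm
  exact_mod_cast h1

theorem autoc_card1 {B T : ℕ} :
    (((range (B * T)).filter (fun t => B ∣ t)).card : ℝ) ≤ T := by
  have h1 : (range (B * T)).filter (fun t => B ∣ t) ⊆ (range T).image (fun c => B * c) := by
    intro t ht
    rw [mem_filter, mem_range] at ht
    obtain ⟨c, rfl⟩ := ht.2
    exact mem_image.2 ⟨c, mem_range.2 (lt_of_mul_lt_mul_left ht.1 (Nat.zero_le B)), rfl⟩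
  have h2 := (card_le_card h1).trans card_image_le
  rw [card_range] at h2
  exact_mod_cast h2

theorem autoc_card2 {B T : ℕ} (hB : 1 ≤ B) :
    (((range (B * T)).filter (fun t => B ∣ t + 1)).card : ℝ) ≤ T := by
  have h1 : (range (B * T)).filter (fun t => B ∣ t + 1) ⊆
      (range T).image (fun c => B * (c + 1) - 1) := by
    intro t ht
    rw [mem_filter, mem_range] at ht
    obtain ⟨c, hc⟩ := ht.2
    have hc0 : c ≠ 0 := by
      rintro rfl
      omega
    have hcT : c ≤ T := by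
      have h3 : B * c ≤ B * T := by omega
      exact Nat.le_of_mul_le_mul_left h3 (by omega)
    refine mem_image.2 ⟨c - 1, mem_range.2 (by omega), ?_⟩
    have h4 : c - 1 + 1 = c := by omega
    simp only [h4]
    omega
  have h2 := (card_le_card h1).trans card_image_le
  rw [card_range] at h2
  exact_mod_cast h2

/-- Energy of the edge tiles. -/
theorem autoc_edgeE {H B T : ℕ} (hP : P = H * (B * T)) (hB : 1 ≤ B) {f : ZMod P → ℂ}
    (hf : TileE H f) :
    ∑ u : ZMod P, (if B ∣ tl H u ∨ B ∣ tl H u + 1 then ‖f u‖ ^ 2 else 0) ≤ 2 * (T * H) := by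
  have h1 := autoc_energy hP hf (fun t => B ∣ t)
  have h2 := autoc_energy hP hf (fun t => B ∣ t + 1)
  have h3 : ∀ u : ZMod P, (if B ∣ tl H u ∨ B ∣ tl H u + 1 then ‖f u‖ ^ 2 else 0) ≤
      (if B ∣ tl H u then ‖f u‖ ^ 2 else 0) + (if B ∣ tl H u + 1 then ‖f u‖ ^ 2 else 0) := by
    intro u
    have h0 : 0 ≤ ‖f u‖ ^ 2 := by positivity
    split_ifs with a b c <;> first | linarith | skip
    · tauto
  have h4 := sum_le_sum fun u (_ : u ∈ (univ : Finset (ZMod P))) => h3 u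
  rw [sum_add_distrib] at h4
  have h5 : (((range (B * T)).filter (fun t => B ∣ t)).card : ℝ) * H ≤ T * H :=
    mul_le_mul_of_nonneg_right autoc_card1 (Nat.cast_nonneg H)
  have h6 : (((range (B * T)).filter (fun t => B ∣ t + 1)).card : ℝ) * H ≤ T * H :=
    mul_le_mul_of_nonneg_right (autoc_card2 hB) (Nat.cast_nonneg H)
  linarith

/-- The Fourier transform of the restriction to a super-tile. -/
theorem autoc_ftW {H B T : ℕ} (hP : P = H * (B * T)) (f : ZMod P → ℂ) (z : ZMod P) (W : ℕ) :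
    ft (fun u => if tl H u / B = W then f u else 0) z =
      ∑ t ∈ (range (B * T)).filter (fun t => t / B = W), fh H f z t := by
  unfold ft
  rw [← sum_fiberwise_of_maps_to (s := univ) (t := range (B * T))
    (g := fun u : ZMod P => tl H u) (fun u _ => mem_range.2 (autoc_tl_lt hP u)), sum_filter]
  refine sum_congr rfl fun t _ => ?_
  unfold fh
  split_ifs with h
  · refine sum_congr rfl fun u hu => ?_
    change (if tl H u / B = W then f u else 0) * ch (-z) u = f u * ch (-z) u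
    rw [(mem_filter.1 hu).2, if_pos h]
  · refine sum_eq_zero fun u hu => ?_
    change (if tl H u / B = W then f u else 0) * ch (-z) u = 0
    rw [(mem_filter.1 hu).2, if_neg h, zero_mul]

theorem autoc_flat {H B T : ℕ} (hP : P = H * (B * T)) (hB : 1 ≤ B) (f : ZMod P → ℂ)
    (z : ZMod P) :
    ∑ W ∈ range T, ‖ft (fun u => if tl H u / B = W then f u else 0) z‖ ^ 2 ≤
      B * ∑ t ∈ range (B * T), ‖fh H f z t‖ ^ 2 := by
  have h1 : ∀ W, ‖ft (fun u => if tl H u / B = W then f u else 0) z‖ ^ 2 ≤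
      B * ∑ t ∈ (range (B * T)).filter (fun t => t / B = W), ‖fh H f z t‖ ^ 2 := by
    intro W
    rw [autoc_ftW hP]
    have h2 : ((range (B * T)).filter (fun t => t / B = W)).card ≤ B := by
      have h3 : (range (B * T)).filter (fun t => t / B = W) ⊆ Ico (B * W) (B * W + B) := by
        intro t ht
        have h4 := (mem_filter.1 ht).2
        rw [mem_Ico]
        have h5 := Nat.div_add_mod t B
        have h6 := Nat.mod_lt t (show 0 < B by omega)
        rw [h4] at h5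
        omega
      have h4 := card_le_card h3
      rw [Nat.card_Ico] at h4
      omega
    have h3 : ‖∑ t ∈ (range (B * T)).filter (fun t => t / B = W), fh H f z t‖ ^ 2 ≤
        (∑ t ∈ (range (B * T)).filter (fun t => t / B = W), ‖fh H f z t‖) ^ 2 :=
      pow_le_pow_left₀ (norm_nonneg _) (norm_sum_le _ _) 2
    refine h3.trans (sq_sum_le_card_mul_sum_sq.trans ?_)
    refine mul_le_mul_of_nonneg_right (by exact_mod_cast h2) ?_
    exact sum_nonneg fun t _ => by positivity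
  refine (sum_le_sum fun W _ => h1 W).trans (le_of_eq ?_)
  rw [← mul_sum]
  congr 1
  refine sum_fiberwise_of_maps_to (fun t ht => ?_) _
  rw [mem_range] at ht ⊢
  exact Nat.div_lt_of_lt_mul ht

/-- The main part of the autocorrelation. -/
noncomputable def autoc_A (H B : ℕ) (f : ZMod P → ℂ) (b l : ZMod P) : ℂ :=
  ∑ v : ZMod P, if tl H v / B = tl H (v + l) / B then
    f v * (starRingEnd ℂ) (f (v + l)) * ch (-b) v else 0

theorem autoc_A_eq {H B T : ℕ} (hP : P = H * (B * T)) (f : ZMod P → ℂ) (b l : ZMod P) :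
    autoc_A H B f b l = ∑ W ∈ range T, ∑ v : ZMod P,
      (if tl H v / B = W then f v * ch (-b) v else 0) *
        (starRingEnd ℂ) (if tl H (v + l) / B = W then f (v + l) else 0) := by
  unfold autoc_A
  rw [sum_comm]
  refine sum_congr rfl fun v _ => ?_
  have hv : tl H v / B ∈ range T := mem_range.2 (Nat.div_lt_of_lt_mul (autoc_tl_lt hP v))
  rw [sum_eq_single_of_mem (tl H v / B) hv]
  · rw [if_pos rfl]
    by_cases h : tl H v / B = tl H (v + l) / B
    · rw [if_pos h, if_pos h.symm]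
      ring
    · rw [if_neg h, if_neg (Ne.symm h), map_zero, mul_zero]
  · intro W _ hW
    rw [if_neg (Ne.symm hW), zero_mul]

theorem autoc_ch_sub (ζ u v : ZMod P) : ch (-ζ) (u - v) = ch (-ζ) u * ch ζ v := by
  unfold ch
  rw [← AddChar.map_add_eq_mul]
  congr 1
  ring

theorem autoc_conv (h5 : ∀ b u : ZMod P, ch (-b) u = (starRingEnd ℂ) (ch b u))
    (φ g : ZMod P → ℂ) (ζ : ZMod P) :
    ∑ l : ZMod P, (∑ v : ZMod P, φ v * (starRingEnd ℂ) (g (v + l))) * ch (-ζ) l =
      ft φ (-ζ) * (starRingEnd ℂ) (ft g (-ζ)) := by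
  have h1 : ∀ v : ZMod P, ∑ l : ZMod P, (starRingEnd ℂ) (g (v + l)) * ch (-ζ) l =
      ch ζ v * (starRingEnd ℂ) (ft g (-ζ)) := by
    intro v
    rw [Fintype.sum_equiv (Equiv.addLeft v) (fun l => (starRingEnd ℂ) (g (v + l)) * ch (-ζ) l)
      (fun u => (starRingEnd ℂ) (g u) * ch (-ζ) (u - v)) (fun l => by
        rw [Equiv.coe_addLeft, add_sub_cancel_left])]
    unfold ft
    rw [map_sum, mul_sum]
    refine sum_congr rfl fun u _ => ?_
    rw [autoc_ch_sub, map_mul, neg_neg, h5]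
    ring
  calc ∑ l : ZMod P, (∑ v : ZMod P, φ v * (starRingEnd ℂ) (g (v + l))) * ch (-ζ) l
      = ∑ l : ZMod P, ∑ v : ZMod P, φ v * ((starRingEnd ℂ) (g (v + l)) * ch (-ζ) l) := by
        refine sum_congr rfl fun l _ => ?_
        rw [sum_mul]
        refine sum_congr rfl fun v _ => ?_
        rw [mul_assoc]
    _ = ∑ v : ZMod P, φ v * ∑ l : ZMod P, (starRingEnd ℂ) (g (v + l)) * ch (-ζ) l := by
        rw [sum_comm]
        refine sum_congr rfl fun v _ => ?_
        rw [mul_sum]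
    _ = ∑ v : ZMod P, φ v * ch ζ v * (starRingEnd ℂ) (ft g (-ζ)) := by
        refine sum_congr rfl fun v _ => ?_
        rw [h1, mul_assoc]
    _ = _ := by
        rw [← sum_mul]
        unfold ft
        rw [neg_neg]

theorem autoc_ftA (h5 : ∀ b u : ZMod P, ch (-b) u = (starRingEnd ℂ) (ch b u)) {H B T : ℕ}
    (hP : P = H * (B * T)) (f : ZMod P → ℂ) (b ζ : ZMod P) :
    ft (autoc_A H B f b) ζ = ∑ W ∈ range T,
      ft (fun v => if tl H v / B = W then f v * ch (-b) v else 0) (-ζ) *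
        (starRingEnd ℂ) (ft (fun v => if tl H v / B = W then f v else 0) (-ζ)) := by
  have h1 : ft (autoc_A H B f b) ζ = ∑ l : ZMod P, ∑ W ∈ range T, (∑ v : ZMod P,
      (if tl H v / B = W then f v * ch (-b) v else 0) *
        (starRingEnd ℂ) (if tl H (v + l) / B = W then f (v + l) else 0)) * ch (-ζ) l := by
    unfold ft
    refine sum_congr rfl fun l _ => ?_
    rw [autoc_A_eq hP, sum_mul]
  rw [h1, sum_comm]
  refine sum_congr rfl fun W _ => ?_
  exact autoc_conv h5 (fun v => if tl H v / B = W then f v * ch (-b) v else 0)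
    (fun v => if tl H v / B = W then f v else 0) ζ

/-- The sum of the main parts. -/
theorem autoc_sumA (h4 : ∀ b u : ZMod P, ‖ch b u‖ = 1)
    (h5 : ∀ b u : ZMod P, ch (-b) u = (starRingEnd ℂ) (ch b u))
    (h6 : ∀ F : ZMod P → ℂ, ∑ b : ZMod P, ‖ft F b‖ ^ 2 = P * ∑ u : ZMod P, ‖F u‖ ^ 2)
    {H B T : ℕ} (hP : P = H * (B * T)) (hB : 1 ≤ B) (η : ℝ) (f : ZMod P → ℂ)
    (hf : Flat H (B * T) η f) (b : ZMod P) :
    ∑ l : ZMod P, ‖autoc_A H B f b l‖ ^ 2 ≤ B * H * η ^ 2 * P ^ 2 := by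
  have hP0 : (0 : ℝ) < P := by
    have : 0 < P := NeZero.pos P
    exact_mod_cast this
  have hcs : ∀ ζ : ZMod P, ‖ft (autoc_A H B f b) ζ‖ ^ 2 ≤
      (∑ W ∈ range T, ‖ft (fun v => if tl H v / B = W then f v * ch (-b) v else 0) (-ζ)‖ ^ 2) *
        (B * (η ^ 2 * H ^ 2 * (B * T : ℕ))) := by
    intro ζ
    rw [autoc_ftA h5 hP]
    have k1 : ‖∑ W ∈ range T, ft (fun v => if tl H v / B = W then f v * ch (-b) v else 0) (-ζ) *
        (starRingEnd ℂ) (ft (fun v => if tl H v / B = W then f v else 0) (-ζ))‖ ^ 2 ≤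
        (∑ W ∈ range T, ‖ft (fun v => if tl H v / B = W then f v * ch (-b) v else 0) (-ζ)‖ *
          ‖ft (fun v => if tl H v / B = W then f v else 0) (-ζ)‖) ^ 2 := by
      refine pow_le_pow_left₀ (norm_nonneg _) ((norm_sum_le _ _).trans (le_of_eq ?_)) 2
      refine sum_congr rfl fun W _ => ?_
      rw [norm_mul, RCLike.norm_conj]
    refine k1.trans ((sum_mul_sq_le_sq_mul_sq _ _ _).trans ?_)
    refine mul_le_mul_of_nonneg_left ?_ (sum_nonneg fun W _ => by positivity)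
    refine (autoc_flat hP hB f (-ζ)).trans ?_
    exact mul_le_mul_of_nonneg_left (hf.2 (-ζ)) (Nat.cast_nonneg B)
  have hsum : ∑ ζ : ZMod P, ∑ W ∈ range T,
      ‖ft (fun v => if tl H v / B = W then f v * ch (-b) v else 0) (-ζ)‖ ^ 2 ≤ P * P := by
    rw [sum_comm]
    have k1 : ∀ W ∈ range T, ∑ ζ : ZMod P,
        ‖ft (fun v => if tl H v / B = W then f v * ch (-b) v else 0) (-ζ)‖ ^ 2 =
        P * ∑ v : ZMod P, if tl H v / B = W then ‖f v‖ ^ 2 else 0 := by
      intro W _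
      rw [Fintype.sum_equiv (Equiv.neg (ZMod P))
        (fun ζ => ‖ft (fun v => if tl H v / B = W then f v * ch (-b) v else 0) (-ζ)‖ ^ 2)
        (fun ζ => ‖ft (fun v => if tl H v / B = W then f v * ch (-b) v else 0) ζ‖ ^ 2)
        (fun ζ => rfl), h6]
      congr 1
      refine sum_congr rfl fun v _ => ?_
      split_ifs
      · rw [norm_mul, h4, mul_one]
      · rw [norm_zero]
        norm_num
    rw [sum_congr rfl k1, ← mul_sum, sum_comm]
    refine mul_le_mul_of_nonneg_left ?_ hP0.le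
    refine le_trans (le_of_eq ?_) (autoc_total hP hf.1)
    refine sum_congr rfl fun v _ => ?_
    have hv : tl H v / B ∈ range T := mem_range.2 (Nat.div_lt_of_lt_mul (autoc_tl_lt hP v))
    rw [sum_ite_eq, if_pos hv]
  have h7 : P * ∑ l : ZMod P, ‖autoc_A H B f b l‖ ^ 2 ≤
      P * (B * H * η ^ 2 * P ^ 2) := by
    rw [← h6]
    refine (sum_le_sum fun ζ _ => hcs ζ).trans ?_
    rw [← sum_mul]
    have h8 : (0 : ℝ) ≤ B * (η ^ 2 * H ^ 2 * (B * T : ℕ)) := by positivity
    refine (mul_le_mul_of_nonneg_right hsum h8).trans (le_of_eq ?_)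
    have h9 : (P : ℝ) = H * (B * T : ℕ) := by exact_mod_cast hP
    generalize ((B * T : ℕ) : ℝ) = M at h9 ⊢
    rw [h9]
    ring
  exact le_of_mul_le_mul_left h7 hP0

/-- The remaining part of the autocorrelation. -/
theorem autoc_E {H B T : ℕ} (h4 : ∀ b u : ZMod P, ‖ch b u‖ = 1) (hP : P = H * (B * T))
    (hB : 1 ≤ B) (hH : 1 ≤ H) (h2 : 2 * H + 1 ≤ P) {f : ZMod P → ℂ} (hf : TileE H f)
    (b : ZMod P) {l : ℤ} (hl : l ∈ Icc (-(H : ℤ)) (H : ℤ)) :
    ‖ft (Fl f l) b - autoc_A H B f b (l : ZMod P)‖ ≤ 2 * (T * H) := by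
  have h1 : ft (Fl f l) b - autoc_A H B f b (l : ZMod P) = ∑ v : ZMod P,
      if tl H v / B = tl H (v + (l : ZMod P)) / B then 0 else
        f v * (starRingEnd ℂ) (f (v + (l : ZMod P))) * ch (-b) v := by
    unfold ft autoc_A Fl
    rw [← sum_sub_distrib]
    refine sum_congr rfl fun v _ => ?_
    split_ifs
    · exact sub_self _
    · exact sub_zero _
  rw [h1]
  have h3 : ∀ v : ZMod P, ‖if tl H v / B = tl H (v + (l : ZMod P)) / B then (0 : ℂ) else
      f v * (starRingEnd ℂ) (f (v + (l : ZMod P))) * ch (-b) v‖ ≤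
      ((if B ∣ tl H v ∨ B ∣ tl H v + 1 then ‖f v‖ ^ 2 else 0) +
        (if B ∣ tl H (v + (l : ZMod P)) ∨ B ∣ tl H (v + (l : ZMod P)) + 1 then
          ‖f (v + (l : ZMod P))‖ ^ 2 else 0)) / 2 := by
    intro v
    by_cases h : tl H v / B = tl H (v + (l : ZMod P)) / B
    · rw [if_pos h, norm_zero]
      have k1 : 0 ≤ ‖f v‖ ^ 2 := by positivity
      have k2 : 0 ≤ ‖f (v + (l : ZMod P))‖ ^ 2 := by positivity
      split_ifs <;> linarith
    · obtain ⟨k1, k2⟩ := autoc_edge hP hH h2 hl v h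
      rw [if_neg h, if_pos k1, if_pos k2, norm_mul, norm_mul, h4, RCLike.norm_conj, mul_one]
      have := sq_nonneg (‖f v‖ - ‖f (v + (l : ZMod P))‖)
      nlinarith
  refine (norm_sum_le _ _).trans ((sum_le_sum fun v _ => h3 v).trans ?_)
  rw [← sum_div, sum_add_distrib]
  have h5 : ∑ v : ZMod P, (if B ∣ tl H (v + (l : ZMod P)) ∨ B ∣ tl H (v + (l : ZMod P)) + 1 then
      ‖f (v + (l : ZMod P))‖ ^ 2 else 0) =
      ∑ v : ZMod P, (if B ∣ tl H v ∨ B ∣ tl H v + 1 then ‖f v‖ ^ 2 else 0) :=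
    Fintype.sum_equiv (Equiv.addRight (l : ZMod P)) _ _ fun _ => rfl
  rw [h5]
  have h6 := autoc_edgeE hP hB hf
  linarith

omit [NeZero P] in
theorem autoc_inj {H : ℕ} (h2 : 2 * H + 1 ≤ P) {l l' : ℤ} (hl : l ∈ Icc (-(H : ℤ)) (H : ℤ))
    (hl' : l' ∈ Icc (-(H : ℤ)) (H : ℤ)) (h : (l : ZMod P) = (l' : ZMod P)) : l = l' := by
  rw [ZMod.intCast_eq_intCast_iff_dvd_sub] at h
  rw [mem_Icc] at hl hl'
  have h1 : |l' - l| < (P : ℤ) := by
    rw [abs_lt]
    omega
  have h3 := Int.eq_zero_of_abs_lt_dvd h h1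
  omega

end autoc

theorem thm_AUTOC (hFB : St_FB) : St_AUTOC := by
  intro P H B T _ η f hP hB hH h2 hf b
  obtain ⟨-, -, -, h4, h5, h6, -, -⟩ := hFB P
  have hP0 : (0 : ℝ) < P := by
    have : 0 < P := NeZero.pos P
    exact_mod_cast this
  have hA : ∑ l ∈ Icc (-(H : ℤ)) (H : ℤ), ‖autoc_A H B f b (l : ZMod P)‖ ^ 2 ≤
      B * H * η ^ 2 * P ^ 2 := by
    refine le_trans ?_ (autoc_sumA h4 h5 h6 hP hB η f hf b)
    rw [← sum_image (s := Icc (-(H : ℤ)) (H : ℤ)) (g := fun l : ℤ => (l : ZMod P))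
      (f := fun l : ZMod P => ‖autoc_A H B f b l‖ ^ 2)
      (fun l hl l' hl' h => autoc_inj h2 hl hl' h)]
    exact sum_le_univ_sum_of_nonneg fun l => by positivity
  have hterm : ∀ l ∈ Icc (-(H : ℤ)) (H : ℤ), ‖ft (Fl f l) b‖ ^ 2 ≤
      2 * ‖autoc_A H B f b (l : ZMod P)‖ ^ 2 + 2 * (2 * (T * H)) ^ 2 := by
    intro l hl
    have k1 := autoc_E h4 hP hB hH h2 hf.1 b hl
    have k2 : ‖ft (Fl f l) b‖ ≤ ‖autoc_A H B f b (l : ZMod P)‖ + 2 * (T * H) := by
      have := norm_add_le (autoc_A H B f b (l : ZMod P))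
        (ft (Fl f l) b - autoc_A H B f b (l : ZMod P))
      rw [add_sub_cancel] at this
      linarith
    have k3 := norm_nonneg (ft (Fl f l) b)
    have k4 : ‖ft (Fl f l) b‖ ^ 2 ≤ (‖autoc_A H B f b (l : ZMod P)‖ + 2 * (T * H)) ^ 2 :=
      pow_le_pow_left₀ k3 k2 2
    nlinarith [sq_nonneg (‖autoc_A H B f b (l : ZMod P)‖ - 2 * (T * H))]
  refine (sum_le_sum hterm).trans ?_
  rw [sum_add_distrib, ← mul_sum, sum_const, nsmul_eq_mul, Int.card_Icc]
  have hcard : ((((H : ℤ) + 1 - -(H : ℤ)).toNat : ℕ) : ℝ) ≤ 3 * H := by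
    have k1 : ((H : ℤ) + 1 - -(H : ℤ)).toNat ≤ 3 * H := by omega
    exact_mod_cast k1
  have hTH : (T : ℝ) * H = P / B := by
    have hB0 : (B : ℝ) ≠ 0 := by
      have : B ≠ 0 := by omega
      exact_mod_cast this
    rw [eq_div_iff hB0]
    have h9 : (P : ℝ) = H * (B * T) := by exact_mod_cast hP
    rw [h9]
    ring
  rw [hTH]
  have k5 : ((((H : ℤ) + 1 - -(H : ℤ)).toNat : ℕ) : ℝ) * (2 * (2 * ((P : ℝ) / B)) ^ 2) ≤
      3 * H * (2 * (2 * ((P : ℝ) / B)) ^ 2) :=
    mul_le_mul_of_nonneg_right hcard (by positivity)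
  have k6 : (H : ℝ) * (P : ℝ) ^ 2 * (2 * B * η ^ 2 + 24 / (B : ℝ) ^ 2) =
      2 * (B * H * η ^ 2 * P ^ 2) + 3 * H * (2 * (2 * ((P : ℝ) / B)) ^ 2) := by
    rw [mul_add]
    have : (2 * ((P : ℝ) / B)) ^ 2 = 4 * (P ^ 2 / B ^ 2) := by
      rw [mul_pow, div_pow]
      norm_num
    rw [this]
    ring
  rw [k6]
  linarith

end Pool.Agent.BSQ
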