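import Pool.Agent.BSQ.StA

set_option autoImplicit false

namespace Pool.Agent.BSQ

open Finset MeasureTheory Filter Topology
open scoped BigOperators
open Classical

private theorem comb_tileE {P : ℕ} [NeZero P] {H : ℕ} (hH : 1 ≤ H) {f : ZMod P → ℂ}
    (hf : ∀ u, ‖f u‖ ≤ 1) : TileE H f := by
  intro t
  have hcard : (univ.filter (fun u : ZMod P => tl H u = t)).card ≤ H := by
    have h1 : (univ.filter (fun u : ZMod P => tl H u = t)).card ≤ (Ico (t * H) (t * H + H)).card := by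
      apply Finset.card_le_card_of_injOn (fun u : ZMod P => u.val)
      · intro u hu
        have hu' : u.val / H = t := by
          have := (Finset.mem_filter.mp (Finset.mem_coe.mp hu)).2
          exact this
        rw [Finset.mem_coe, Finset.mem_Ico]
        have h2 := Nat.div_add_mod u.val H
        have h3 := Nat.mod_lt u.val (show 0 < H by omega)
        rw [hu'] at h2
        have h4 : t * H = H * t := Nat.mul_comm t H
        beta_reduce
        constructor <;> omega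
      · intro u _ v _ huv
        exact ZMod.val_injective P huv
    rw [Nat.card_Ico] at h1
    omega
  calc ∑ u ∈ univ.filter (fun u : ZMod P => tl H u = t), ‖f u‖ ^ 2
      ≤ ∑ u ∈ univ.filter (fun u : ZMod P => tl H u = t), (1 : ℝ) := by
        apply Finset.sum_le_sum
        intro u _
        have h1 := hf u
        have h2 := norm_nonneg (f u)
        nlinarith
    _ = ((univ.filter (fun u : ZMod P => tl H u = t)).card : ℝ) := by
        rw [Finset.sum_const, nsmul_eq_mul, mul_one]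
    _ ≤ H := by exact_mod_cast hcard

private theorem comb_energy {P : ℕ} [NeZero P] {H T : ℕ} (hP : P = H * T) {f : ZMod P → ℂ}
    (hf : TileE H f) : ∑ u : ZMod P, ‖f u‖ ^ 2 ≤ (P : ℝ) := by
  have hmaps : ∀ u ∈ (univ : Finset (ZMod P)), tl H u ∈ range T := by
    intro u _
    rw [Finset.mem_range]
    have h1 : u.val < H * T := lt_of_lt_of_eq (ZMod.val_lt u) hP
    exact Nat.div_lt_of_lt_mul h1
  rw [← Finset.sum_fiberwise_of_maps_to hmaps]
  calc ∑ t ∈ range T, ∑ u ∈ univ.filter (fun u : ZMod P => tl H u = t), ‖f u‖ ^ 2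
      ≤ ∑ t ∈ range T, (H : ℝ) := Finset.sum_le_sum fun t _ => hf t
    _ = (P : ℝ) := by
        rw [Finset.sum_const, Finset.card_range, nsmul_eq_mul]
        have h2 : (P : ℝ) = (H : ℝ) * T := by exact_mod_cast hP
        rw [h2, mul_comm]

private theorem comb_blocks {M : Type} [AddCommMonoid M] (F : ℕ → M) (H' i0 i1 : ℕ) (h : i0 ≤ i1) :
    ∑ j ∈ Ico i0 i1, ∑ k ∈ Ico (j * H') ((j + 1) * H'), F k = ∑ k ∈ Ico (i0 * H') (i1 * H'), F k := by
  induction i1, h using Nat.le_induction with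
  | base => rw [Finset.Ico_self, Finset.Ico_self, Finset.sum_empty, Finset.sum_empty]
  | succ n hn ih =>
    rw [Finset.sum_Ico_succ_top hn, ih]
    exact Finset.sum_Ico_consecutive F (Nat.mul_le_mul_right _ hn)
      (Nat.mul_le_mul_right _ (Nat.le_succ n))

theorem thm_COMB (hSTRUCT : St_STRUCT) (hSTR : St_STR) (hNRM : St_NRM) : St_COMB := by
  intro P H T H' i0 i1 X N _ ρ1 ρ2 η υ ω σ f g hP hH1 hHH hN hη hη1 hσ hi01 hi1N hi1X hρ1 hρ2 hs1 hs2
    ht1 ht2 hU1 hU2 hE hf hg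
  obtain ⟨nadd, nsub, nsum, -, -, -, nsq, none1, nTr⟩ := hNRM P
  have hH : 1 ≤ H := le_trans hH1 hHH
  obtain ⟨I, z, c, f', hI, hc, hflat, hdec⟩ := hSTRUCT P H T η f hP hH hη (comb_tileE hH hf)
  -- norms
  have hPpos : (0 : ℝ) < P := by
    have : 0 < P := Nat.pos_of_ne_zero (NeZero.ne P)
    exact_mod_cast this
  have hn2nn : ∀ φ : ZMod P → ℂ, 0 ≤ n2 φ := fun φ => Real.sqrt_nonneg _
  have hf1 : n2 f ≤ 1 := none1 f hf
  have hf'1 : n2 f' ≤ 1 := by
    have h1 := nsq f'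
    have h2 := comb_energy hP hflat.1
    have h3 : (∑ y : ZMod P, ‖f' y‖ ^ 2) / P ≤ 1 := by
      rw [div_le_one hPpos]
      exact h2
    have h4 := hn2nn f'
    nlinarith
  -- the measures
  let ρ : ℕ → ℝ := fun k => ρ1 k - ρ2 k
  let ρr : ℕ → ℝ := fun k => if k ∈ Ico (i0 * H') (i1 * H') then 0 else ρ k
  have hi : i0 * H' ≤ i1 * H' := Nat.mul_le_mul_right _ hi01
  have habs : ∀ k, |ρ k| ≤ ρ1 k + ρ2 k := by
    intro k
    rw [abs_le]
    constructor
    · change -(ρ1 k + ρ2 k) ≤ ρ1 k - ρ2 k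
      linarith [hρ1 k, hρ2 k]
    · change ρ1 k - ρ2 k ≤ ρ1 k + ρ2 k
      linarith [hρ1 k, hρ2 k]
  have hsplit : ∀ F : ℕ → ℝ, ∑ k ∈ range X, F k = ∑ k ∈ range (i0 * H'), F k +
      ∑ k ∈ Ico (i0 * H') (i1 * H'), F k + ∑ k ∈ Ico (i1 * H') X, F k := by
    intro F
    rw [Finset.range_eq_Ico, Finset.range_eq_Ico,
      Finset.sum_Ico_consecutive F (Nat.zero_le _) hi,
      Finset.sum_Ico_consecutive F (Nat.zero_le _) hi1X]
  have hrsum : ∑ k ∈ range X, |ρr k| ≤ 2 * ω := by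
    rw [hsplit]
    have e1 : ∑ k ∈ range (i0 * H'), |ρr k| ≤ ∑ k ∈ range (i0 * H'), (ρ1 k + ρ2 k) := by
      apply Finset.sum_le_sum
      intro k hk
      have h1 : k ∉ Ico (i0 * H') (i1 * H') := by
        rw [Finset.mem_Ico]
        rw [Finset.mem_range] at hk
        omega
      change |if k ∈ Ico (i0 * H') (i1 * H') then (0 : ℝ) else ρ k| ≤ _
      rw [if_neg h1]
      exact habs k
    have e2 : ∑ k ∈ Ico (i0 * H') (i1 * H'), |ρr k| = 0 := by
      apply Finset.sum_eq_zero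
      intro k hk
      change |if k ∈ Ico (i0 * H') (i1 * H') then (0 : ℝ) else ρ k| = 0
      rw [if_pos hk, abs_zero]
    have e3 : ∑ k ∈ Ico (i1 * H') X, |ρr k| ≤ ∑ k ∈ Ico (i1 * H') X, (ρ1 k + ρ2 k) := by
      apply Finset.sum_le_sum
      intro k hk
      have h1 : k ∉ Ico (i0 * H') (i1 * H') := by
        rw [Finset.mem_Ico]
        rw [Finset.mem_Ico] at hk
        omega
      change |if k ∈ Ico (i0 * H') (i1 * H') then (0 : ℝ) else ρ k| ≤ _
      rw [if_neg h1]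
      exact habs k
    rw [Finset.sum_add_distrib] at e1 e3
    linarith
  have hmsum : ∑ k ∈ Ico (i0 * H') (i1 * H'), |ρ k| ≤ 4 := by
    have e1 : ∑ k ∈ Ico (i0 * H') (i1 * H'), |ρ k| ≤ ∑ k ∈ Ico (i0 * H') (i1 * H'), (ρ1 k + ρ2 k) :=
      Finset.sum_le_sum fun k _ => habs k
    have e2 : ∑ k ∈ Ico (i0 * H') (i1 * H'), (ρ1 k + ρ2 k) ≤ ∑ k ∈ range X, (ρ1 k + ρ2 k) := by
      apply Finset.sum_le_sum_of_subset_of_nonneg
      · intro k hk
        rw [Finset.mem_Ico] at hk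
        rw [Finset.mem_range]
        omega
      · intro k _ _
        exact add_nonneg (hρ1 k) (hρ2 k)
    rw [Finset.sum_add_distrib] at e2
    rw [Finset.sum_add_distrib] at e1
    linarith [Finset.sum_add_distrib (s := range X) (f := ρ1) (g := ρ2)]
  -- the structured part
  let Φ : ℕ → ZMod P → ℂ := fun i y => ∑ j ∈ Ico i0 i1, ∑ k ∈ Ico (j * H') ((j + 1) * H'),
    (ρ k : ℂ) * ((c i (tl H (y + (k : ZMod P))) * ch (z i) (y + (k : ZMod P))) * g (y - (k : ZMod P)))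
  have hsq : 0 ≤ Real.sqrt ((H' : ℝ) / H) := Real.sqrt_nonneg _
  have hNpos : (0 : ℝ) < (N : ℝ) ^ 2 := by
    have : (0 : ℝ) < N := by exact_mod_cast hN
    positivity
  have hΦ : ∀ i, n2 (Φ i) ≤ σ + 4 * Real.sqrt ((H' : ℝ) / H) := by
    intro i
    have h1 := hSTR P H T H' (z i) (c i) g ρ (Ico i0 i1) (fun _ => σ * H' / (N : ℝ) ^ 2) hP hH1 hHH
      (hc i) hg (by
        intro j hj θ
        rw [Finset.mem_Ico] at hj
        exact hE j hj.1 hj.2 θ)
    refine le_trans h1 ?_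
    rw [Finset.sum_add_distrib, Finset.sum_const, Nat.card_Ico, nsmul_eq_mul, ← Finset.mul_sum,
      comb_blocks (fun k => |ρ k|) H' i0 i1 hi01]
    have h2 : ((i1 - i0 : ℕ) : ℝ) * (σ * H' / (N : ℝ) ^ 2) ≤ σ := by
      have h3 : ((i1 - i0 : ℕ) : ℝ) * H' ≤ (N : ℝ) ^ 2 := by
        have h4 : (i1 - i0) * H' ≤ N ^ 2 :=
          le_trans (Nat.mul_le_mul_right _ (Nat.sub_le _ _)) hi1N
        exact_mod_cast h4
      have h5 : ((i1 - i0 : ℕ) : ℝ) * (σ * H' / (N : ℝ) ^ 2) =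
          σ * (((i1 - i0 : ℕ) : ℝ) * H') / (N : ℝ) ^ 2 := by ring
      rw [h5, div_le_iff₀ hNpos]
      exact mul_le_mul_of_nonneg_left h3 hσ
    have h3 : Real.sqrt ((H' : ℝ) / H) * ∑ k ∈ Ico (i0 * H') (i1 * H'), |ρ k| ≤
        4 * Real.sqrt ((H' : ℝ) / H) := by
      rw [mul_comm]
      exact mul_le_mul_of_nonneg_right hmsum hsq
    linarith
  -- the identity
  have hid : ∀ y, Tr X (fun k => ρ1 k - ρ2 k) f g y =
      (Tr X ρr f g y + ((Tr X ρ1 f' g y - Tr X ρ2 f' g y) - Tr X ρr f' g y)) +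
        ∑ i ∈ range I, Φ i y := by
    intro y
    have hΦy : ∑ i ∈ range I, Φ i y = ∑ k ∈ range X,
        (((ρ1 k - ρ2 k : ℝ) : ℂ) - (ρr k : ℂ)) * (f (y + (k : ZMod P)) * g (y - (k : ZMod P)) -
          f' (y + (k : ZMod P)) * g (y - (k : ZMod P))) := by
      have h1 : ∀ i, Φ i y = ∑ k ∈ Ico (i0 * H') (i1 * H'), (ρ k : ℂ) *
          ((c i (tl H (y + (k : ZMod P))) * ch (z i) (y + (k : ZMod P))) * g (y - (k : ZMod P))) :=
        fun i => comb_blocks (fun k => (ρ k : ℂ) *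
          ((c i (tl H (y + (k : ZMod P))) * ch (z i) (y + (k : ZMod P))) * g (y - (k : ZMod P))))
          H' i0 i1 hi01
      simp only [h1]
      rw [Finset.sum_comm]
      have h2 : Ico (i0 * H') (i1 * H') ⊆ range X := by
        intro k hk
        rw [Finset.mem_Ico] at hk
        rw [Finset.mem_range]
        omega
      rw [← Finset.sum_subset h2]
      · apply Finset.sum_congr rfl
        intro k hk
        have h3 : ρr k = 0 := if_pos hk
        rw [h3, ← Finset.mul_sum, hdec (y + (k : ZMod P)), ← Finset.sum_mul]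
        change ((ρ1 k - ρ2 k : ℝ) : ℂ) * _ = _
        push_cast
        ring
      · intro k _ hk
        have h3 : ρr k = ρ1 k - ρ2 k := if_neg hk
        rw [h3, sub_self, zero_mul]
    rw [hΦy]
    unfold Tr
    rw [← Finset.sum_sub_distrib, ← Finset.sum_sub_distrib, ← Finset.sum_add_distrib,
      ← Finset.sum_add_distrib]
    apply Finset.sum_congr rfl
    intro k _
    push_cast
    ring
  have hfun : Tr X (fun k => ρ1 k - ρ2 k) f g = fun y =>
      (Tr X ρr f g y + ((Tr X ρ1 f' g y - Tr X ρ2 f' g y) - Tr X ρr f' g y)) +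
        ∑ i ∈ range I, Φ i y := funext hid
  rw [hfun]
  have b1 := nadd (fun y => Tr X ρr f g y + ((Tr X ρ1 f' g y - Tr X ρ2 f' g y) - Tr X ρr f' g y))
    (fun y => ∑ i ∈ range I, Φ i y)
  have b2 := nadd (Tr X ρr f g) (fun y => (Tr X ρ1 f' g y - Tr X ρ2 f' g y) - Tr X ρr f' g y)
  have b3 := nsub (fun y => Tr X ρ1 f' g y - Tr X ρ2 f' g y) (Tr X ρr f' g)
  have b4 := nsub (Tr X ρ1 f' g) (Tr X ρ2 f' g)
  have b5 := nsum ℕ (range I) Φ
  have b6 := nTr X ρr f g hg
  have b7 := nTr X ρr f' g hg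
  have b8 := hU1 f' g hflat hg
  have b9 := hU2 f' g hflat hg
  have hr0 : 0 ≤ ∑ k ∈ range X, |ρr k| := Finset.sum_nonneg fun k _ => abs_nonneg _
  have b6' : n2 (Tr X ρr f g) ≤ 2 * ω := by
    refine le_trans b6 (le_trans (mul_le_of_le_one_right hr0 hf1) hrsum)
  have b7' : n2 (Tr X ρr f' g) ≤ 2 * ω := by
    refine le_trans b7 (le_trans (mul_le_of_le_one_right hr0 hf'1) hrsum)
  have b5' : n2 (fun y => ∑ i ∈ range I, Φ i y) ≤
      1 / η ^ 2 * (σ + 4 * Real.sqrt ((H' : ℝ) / H)) := by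
    refine le_trans b5 ?_
    calc ∑ i ∈ range I, n2 (Φ i) ≤ ∑ i ∈ range I, (σ + 4 * Real.sqrt ((H' : ℝ) / H)) :=
          Finset.sum_le_sum fun i _ => hΦ i
      _ = (I : ℝ) * (σ + 4 * Real.sqrt ((H' : ℝ) / H)) := by
          rw [Finset.sum_const, Finset.card_range, nsmul_eq_mul]
      _ ≤ 1 / η ^ 2 * (σ + 4 * Real.sqrt ((H' : ℝ) / H)) :=
          mul_le_mul_of_nonneg_right hI (by linarith)
  linarith

end Pool.Agent.BSQ
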