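import Pool.Agent.BSQ.Conv2

/-!
# BSQ, module DAB: Abel summation (helper44)
-/

set_option autoImplicit false

namespace Pool.Agent.BSQ

open Finset MeasureTheory Filter Topology
open scoped BigOperators
open Classical

private theorem dab_two (F : ℕ → ℝ) (hF : ∀ k, |F k| ≤ 1)
    (hW : ∀ c1 c2 : ℝ, 1 / 2 < c1 → c1 ≤ c2 → c2 < 1 → UnifW F c1 c2) (L : ℝ)
    (hL : Tendsto (fun N : ℕ => WF F N ⌊(N : ℝ) ^ (7 / 8 : ℝ)⌋₊) atTop (𝓝 L))
    (c : ℝ) (hc : 1 / 2 < c) (hc1 : c < 1) :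
    Tendsto (fun N : ℕ => UF F N ⌊(N : ℝ) ^ c⌋₊) atTop (𝓝 L) := by
  set d1 := (1 / 2 + min c (7 / 8)) / 2 with hd1
  set d2 := max c (7 / 8) with hd2
  set d3 := (d2 + 1) / 2 with hd3
  have m1 : 1 / 2 < min c (7 / 8) := lt_min hc (by norm_num)
  have m2 : min c (7 / 8) ≤ c := min_le_left _ _
  have m3 : min c (7 / 8) ≤ 7 / 8 := min_le_right _ _
  have m4 : c ≤ d2 := le_max_left _ _
  have m5 : (7 / 8 : ℝ) ≤ d2 := le_max_right _ _
  have m6 : d2 < 1 := max_lt hc1 (by norm_num)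
  have e1 : 1 / 2 < d1 := by rw [hd1]; linarith
  have e2 : d1 < c := by rw [hd1]; linarith
  have e3 : d1 < 7 / 8 := by rw [hd1]; linarith
  have e4 : d2 < d3 := by rw [hd3]; linarith
  have e5 : d3 < 1 := by rw [hd3]; linarith
  obtain ⟨Nf, hNf⟩ := c2_fl d1 (7 / 8) d3 (by linarith) e3 (by linarith)
  obtain ⟨Ng, hNg⟩ := c2_fl d1 c d2 (by linarith) e2 m4
  have hUU := hW d1 d3 e1 (by linarith) e5
  set u : ℕ → ℕ → ℝ := fun N k => ((k : ℝ) + 1) / ((k : ℝ) + 2) *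
    WF F (k + 1) ⌊((N : ℝ) + 1) ^ c⌋₊ - L with hu
  have hM1 : ∀ N : ℕ, 1 ≤ ⌊((N : ℝ) + 1) ^ c⌋₊ := fun N => Nat.le_floor (by
    rw [Nat.cast_one]
    exact Real.one_le_rpow (by linarith [show (0 : ℝ) ≤ N by positivity]) (by linarith))
  have hfr : ∀ k : ℕ, 0 ≤ ((k : ℝ) + 1) / ((k : ℝ) + 2) ∧ ((k : ℝ) + 1) / ((k : ℝ) + 2) ≤ 1 := by
    intro k
    refine ⟨by positivity, ?_⟩
    rw [div_le_one (by positivity)]
    linarith
  have hub : ∀ N k, |u N k| ≤ 4 + |L| := fun N k => by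
    refine (abs_sub _ _).trans (add_le_add ?_ le_rfl)
    rw [abs_mul, abs_of_nonneg (hfr k).1]
    calc ((k : ℝ) + 1) / ((k : ℝ) + 2) * |WF F (k + 1) ⌊((N : ℝ) + 1) ^ c⌋₊| ≤ 1 * 4 :=
          mul_le_mul (hfr k).2 (cv_Wb F hF _ _ (hM1 N)) (abs_nonneg _) (by norm_num)
      _ = 4 := by norm_num
  have key : ∀ ε' δ : ℝ, 0 < ε' → 0 < δ → ∃ N0 : ℕ, ∀ N : ℕ, N0 ≤ N → ∀ k : ℕ, k ≤ N →
      δ * ((N : ℝ) + 1) ≤ (k : ℝ) + 1 → |u N k| ≤ ε' := by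
    intro ε' δ hε' hδ
    obtain ⟨N1, hN1⟩ := hUU (ε' / 3) (by positivity)
    obtain ⟨N2, hN2⟩ := Metric.tendsto_atTop.1 hL (ε' / 3) (by positivity)
    obtain ⟨N3, hN3⟩ := exists_nat_gt (|L| / (ε' / 3))
    obtain ⟨N0, hN0⟩ := cv_exp' d1 d2 d3 δ (by linarith) (by linarith) e4 hδ
      (max N1 (max N2 (max Nf N3)))
    refine ⟨max N0 Ng, fun N hN k hk hδk => ?_⟩
    have hg := hNg (N + 1) (by have := le_max_right N0 Ng; omega)
    obtain ⟨f1, f2⟩ := hN0 (N + 1) (by have := le_max_left N0 Ng; omega) (k + 1) (by omega)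
      (by push_cast; exact hδk)
    obtain ⟨g1, g2⟩ := f2 ⌊(((N + 1 : ℕ)) : ℝ) ^ c⌋₊ hg.1 hg.2
    have a1 : N1 ≤ k + 1 := (le_max_left _ _).trans f1
    have a2 : N2 ≤ k + 1 := ((le_max_left _ _).trans (le_max_right _ _)).trans f1
    have a3 : Nf ≤ k + 1 := (((le_max_left _ _).trans (le_max_right _ _)).trans
      (le_max_right _ _)).trans f1
    have a4 : N3 ≤ k + 1 := (((le_max_right _ _).trans (le_max_right _ _)).trans
      (le_max_right _ _)).trans f1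
    have b1 := hN1 (k + 1) a1 _ _ g1 g2 (hNf (k + 1) a3).1 (hNf (k + 1) a3).2
    have b2 := hN2 (k + 1) a2
    rw [Real.dist_eq] at b2
    have b5 : |L| / ((k : ℝ) + 2) ≤ ε' / 3 := by
      rw [div_le_iff₀ (by positivity)]
      rw [div_lt_iff₀ (by positivity)] at hN3
      have : (N3 : ℝ) ≤ (k : ℝ) + 1 := by exact_mod_cast a4
      nlinarith
    simp only [hu]
    push_cast at b1 b2 g1 g2
    have b6 : ((k : ℝ) + 1) / ((k : ℝ) + 2) * WF F (k + 1) ⌊((N : ℝ) + 1) ^ c⌋₊ - L =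
        ((k : ℝ) + 1) / ((k : ℝ) + 2) * ((WF F (k + 1) ⌊((N : ℝ) + 1) ^ c⌋₊ -
          WF F (k + 1) ⌊((k : ℝ) + 1) ^ (7 / 8 : ℝ)⌋₊) +
          (WF F (k + 1) ⌊((k : ℝ) + 1) ^ (7 / 8 : ℝ)⌋₊ - L)) + (- (L / ((k : ℝ) + 2))) := by
      have : (k : ℝ) + 2 ≠ 0 := by positivity
      field_simp
      ring
    rw [b6]
    refine (abs_add_le _ _).trans ?_
    rw [abs_neg, abs_div, abs_of_pos (by positivity : (0 : ℝ) < (k : ℝ) + 2), abs_mul,
      abs_of_nonneg (hfr k).1]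
    have b7 := abs_add_le (WF F (k + 1) ⌊((N : ℝ) + 1) ^ c⌋₊ -
          WF F (k + 1) ⌊((k : ℝ) + 1) ^ (7 / 8 : ℝ)⌋₊)
          (WF F (k + 1) ⌊((k : ℝ) + 1) ^ (7 / 8 : ℝ)⌋₊ - L)
    have b8 : ((k : ℝ) + 1) / ((k : ℝ) + 2) * |(WF F (k + 1) ⌊((N : ℝ) + 1) ^ c⌋₊ -
          WF F (k + 1) ⌊((k : ℝ) + 1) ^ (7 / 8 : ℝ)⌋₊) +
          (WF F (k + 1) ⌊((k : ℝ) + 1) ^ (7 / 8 : ℝ)⌋₊ - L)| ≤ 1 * (ε' / 3 + ε' / 3) :=
      mul_le_mul (hfr k).2 (b7.trans (add_le_add b1 b2.le)) (abs_nonneg _) (by norm_num)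
    linarith
  rw [Metric.tendsto_atTop]
  intro ε hε
  obtain ⟨Na, hNa⟩ := cv_tail' u (4 + |L|) (by positivity) hub
    (fun a b ha hb => by
      obtain ⟨N0, hN0⟩ := key a b ha hb
      exact ⟨N0, fun N hN k hk => hN0 N hN k hk.le⟩) (ε / 4) (by positivity)
  obtain ⟨Nb, hNb⟩ := key (ε / 4) 1 (by positivity) one_pos
  refine ⟨max Na Nb + 1, fun N hN => ?_⟩
  obtain ⟨K, rfl⟩ : ∃ K, N = K + 1 := ⟨N - 1, by omega⟩
  have q1 := hNa K (by have := le_max_left Na Nb; omega)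
  have q2 := hNb K (by have := le_max_right Na Nb; omega) K le_rfl (by simp)
  rw [Real.dist_eq]
  push_cast
  have hid : UF F (K + 1) ⌊((K : ℝ) + 1) ^ c⌋₊ - L = (((K : ℝ) + 2) / ((K : ℝ) + 1)) / 2 * u K K +
      1 / ((K : ℝ) + 1) * ∑ k ∈ range K, u K k / 2 := by
    rw [cv_U F K _ (hM1 K)]
    have hs : ∑ k ∈ range K, u K k / 2 = ∑ k ∈ range K, ((k : ℝ) + 1) / ((k : ℝ) + 2) *
        (WF F (k + 1) ⌊((K : ℝ) + 1) ^ c⌋₊ / 2) - (K : ℝ) * (L / 2) := by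
      have : (K : ℝ) * (L / 2) = ∑ k ∈ range K, L / 2 := by simp
      rw [this, ← sum_sub_distrib]
      refine sum_congr rfl fun k _ => ?_
      simp only [hu]
      ring
    rw [hs]
    simp only [hu]
    have h1 : (K : ℝ) + 1 ≠ 0 := by positivity
    have h2 : (K : ℝ) + 2 ≠ 0 := by positivity
    field_simp
    ring
  rw [hid]
  have t1 : |1 / ((K : ℝ) + 1) * ∑ k ∈ range K, u K k / 2| ≤ ε / 4 := by
    refine le_trans ?_ q1
    rw [abs_mul, abs_of_nonneg (by positivity)]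
    refine mul_le_mul_of_nonneg_left ?_ (by positivity)
    refine (abs_sum_le_sum_abs _ _).trans (sum_le_sum fun k _ => ?_)
    rw [abs_div, abs_of_pos (by norm_num : (0 : ℝ) < 2)]
    linarith [abs_nonneg (u K k)]
  have t2 : |(((K : ℝ) + 2) / ((K : ℝ) + 1)) / 2 * u K K| ≤ ε / 4 := by
    rw [abs_mul, abs_of_nonneg (by positivity)]
    have h3 : (((K : ℝ) + 2) / ((K : ℝ) + 1)) / 2 ≤ 1 := by
      rw [div_div, div_le_one (by positivity)]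
      linarith [show (0 : ℝ) ≤ K by positivity]
    calc (((K : ℝ) + 2) / ((K : ℝ) + 1)) / 2 * |u K K| ≤ 1 * (ε / 4) :=
          mul_le_mul h3 q2 (abs_nonneg _) (by norm_num)
      _ = ε / 4 := one_mul _
  have t3 := abs_add_le ((((K : ℝ) + 2) / ((K : ℝ) + 1)) / 2 * u K K)
    (1 / ((K : ℝ) + 1) * ∑ k ∈ range K, u K k / 2)
  linarith

/-- **DAB**. -/
theorem thm_DAB (_hINT : St_INT) : St_DAB := by
  intro F hF hW
  have hU := cv_unifU F hF hW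
  refine ⟨?_, fun L hL c hc hc1 => (c2_iff F c (by linarith) L).2 (dab_two F hF hW L hL c hc hc1)⟩
  intro c c' hc hc1 hc' hc1'
  -- differences of the unweighted averages
  have hd : Tendsto (fun N : ℕ => UF F N ⌊(N : ℝ) ^ c⌋₊ - UF F N ⌊(N : ℝ) ^ c'⌋₊) atTop (𝓝 0) := by
    set d1 := (1 / 2 + min c c') / 2 with hd1
    set d2 := max c c' with hd2
    have m1 : 1 / 2 < min c c' := lt_min hc hc'
    have m2 : min c c' ≤ c := min_le_left _ _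
    have m3 : min c c' ≤ c' := min_le_right _ _
    have m4 : c ≤ d2 := le_max_left _ _
    have m5 : c' ≤ d2 := le_max_right _ _
    have m6 : d2 < 1 := max_lt hc1 hc1'
    have e1 : 1 / 2 < d1 := by rw [hd1]; linarith
    have e2 : d1 < c := by rw [hd1]; linarith
    have e3 : d1 < c' := by rw [hd1]; linarith
    obtain ⟨Nf, hNf⟩ := c2_fl d1 c d2 (by linarith) e2 m4
    obtain ⟨Ng, hNg⟩ := c2_fl d1 c' d2 (by linarith) e3 m5
    rw [Metric.tendsto_atTop]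
    intro ε hε
    obtain ⟨N1, hN1⟩ := hU d1 d2 e1 (by linarith) m6 (ε / 2) (by positivity)
    refine ⟨max N1 (max Nf Ng), fun N hN => ?_⟩
    have a1 : N1 ≤ N := (le_max_left _ _).trans hN
    have a2 : Nf ≤ N := ((le_max_left _ _).trans (le_max_right _ _)).trans hN
    have a3 : Ng ≤ N := ((le_max_right _ _).trans (le_max_right _ _)).trans hN
    have := hN1 N a1 _ _ (hNf N a2).1 (hNf N a2).2 (hNg N a3).1 (hNg N a3).2
    rw [Real.dist_eq, sub_zero]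
    linarith
  -- AF - UF → 0
  have hr : ∀ b : ℝ, 0 < b → Tendsto (fun N : ℕ => AF F b N - UF F N ⌊(N : ℝ) ^ b⌋₊) atTop (𝓝 0) := by
    intro b hb
    have h1 : Tendsto (fun N : ℕ => (⌊(N : ℝ) ^ b⌋₊ : ℝ) / (N : ℝ) ^ b) atTop (𝓝 1) :=
      (tendsto_nat_floor_div_atTop (R := ℝ)).comp
        ((tendsto_rpow_atTop hb).comp tendsto_natCast_atTop_atTop)
    have h2 : Tendsto (fun N : ℕ => ((⌊(N : ℝ) ^ b⌋₊ : ℝ) / (N : ℝ) ^ b - 1)) atTop (𝓝 0) := by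
      have := h1.sub_const 1
      simpa using this
    have h3 : Tendsto (fun N : ℕ => ((⌊(N : ℝ) ^ b⌋₊ : ℝ) / (N : ℝ) ^ b - 1) *
        UF F N ⌊(N : ℝ) ^ b⌋₊) atTop (𝓝 0) := by
      have h2' : Tendsto (fun N : ℕ => ‖(⌊(N : ℝ) ^ b⌋₊ : ℝ) / (N : ℝ) ^ b - 1‖) atTop (𝓝 0) := by
        have := h2.norm
        rwa [norm_zero] at this
      refine squeeze_zero_norm (fun N => ?_) h2'
      · rw [norm_mul]
        calc ‖(⌊(N : ℝ) ^ b⌋₊ : ℝ) / (N : ℝ) ^ b - 1‖ * ‖UF F N ⌊(N : ℝ) ^ b⌋₊‖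
            ≤ ‖(⌊(N : ℝ) ^ b⌋₊ : ℝ) / (N : ℝ) ^ b - 1‖ * 1 :=
              mul_le_mul_of_nonneg_left (cv_Ub F hF _ _) (norm_nonneg _)
          _ = _ := mul_one _
    refine h3.congr' ?_
    filter_upwards [eventually_ge_atTop 1] with N hN
    rw [c2_AF' F b hb N hN]
    ring
  have h4 := ((hr c (by linarith)).add hd).sub (hr c' (by linarith))
  simp only [add_zero, sub_zero] at h4
  refine h4.congr fun N => ?_
  ring

end Pool.Agent.BSQ
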