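import Pool.Agent.BSQ.Defs

/-!
# BSQ, statements, part B (systems, almost everywhere, Tauberian part)

Every proof is in the docstring.  Paper: team store, `bsq_paper_helper44.md`.
-/

set_option autoImplicit false

namespace Pool.Agent.BSQ

open Finset MeasureTheory Filter Topology
open scoped BigOperators
open Classical

/-- **TRF** (transference).
Proof.  Fix `x`.  For `u ∈ ℤ/P` put `f'(u) = f(T^{u.val - 2N²} x)`, `g'(u) = g(T^{u.val - 2N²} x)` (negative powers by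
`T.symm`).  For `y = 2N² + a`, `a < N²`, `k ≤ 2N²`: `y + k < 5N² ≤ P`, `y - k ≥ 0`, no wrap-around, so
`Tr (2N²+1) D f' g' y = ∑_k D(k) F_{T^a x}(k)`.  Hence `∑_{a<N²} (∑_k D k FT T f g (T^a x) k)² ≤ P β² ≤ 16N²β²` for every
`x`; integrate, `T` preserves `μ`. -/
def St_TRF : Prop := ∀ (X : Type) [MeasurableSpace X] (μ : Measure X) [IsProbabilityMeasure μ]
  (T : X ≃ᵐ X), MeasurePreserving (⇑T) μ μ → ∀ f g : X → ℝ, Measurable f → Measurable g →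
  (∀ x, |f x| ≤ 1) → (∀ x, |g x| ≤ 1) → ∀ (N P : ℕ) [NeZero P] (D : ℕ → ℝ) (β : ℝ), 1 ≤ N →
  5 * N ^ 2 ≤ P → P ≤ 16 * N ^ 2 → 0 ≤ β →
  (∀ f' g' : ZMod P → ℂ, (∀ u, ‖f' u‖ ≤ 1) → (∀ u, ‖g' u‖ ≤ 1) →
    n2 (Tr (P := P) (2 * N ^ 2 + 1) D f' g') ≤ β) →
  ∫ x, (∑ k ∈ range (2 * N ^ 2 + 1), D k * FT T f g x k) ^ 2 ∂μ ≤ 16 * β ^ 2

/-- **RWF** (regrouping).  `∑_{k ≤ 2N²} rhoS N M k F k = WF F N M` (`M ≤ N`) and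
`∑_{k ≤ 2N²} sigS R j N k F k = SF F R j N`. -/
def St_RWF : Prop := ∀ F : ℕ → ℝ,
  (∀ N M : ℕ, M ≤ N → ∑ k ∈ range (2 * N ^ 2 + 1), rhoS N M k * F k = WF F N M) ∧
  (∀ R j N : ℕ, ∑ k ∈ range (2 * N ^ 2 + 1), sigS R j N k * F k = SF F R j N)

/-- **PWS** (power saving for strips); uses `St_FSS`, `St_TRF`, `St_RWF` (and the divisor bound
`Pool.Agent.Helper88.MD.divisorBound`).
Proof.  Wlog `M ≤ M'`.  `κ₀ > 0` with `1200κ₀ + 1 + 2c2 ≤ 4c1`, `100κ₀ + c2 ≤ 1`; `L = ⌊N^{κ₀}⌋`.  For `N ≥ N₀`: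
`L ≥ L0`, `L¹²⁰⁰ N M'² ≤ M⁴`, `L¹⁰⁰M' ≤ N`, `d(l) ≤ C l^{κ₀/4} ≤ L` for `l ≤ N²`; `St_FSS` and `St_TRF` give
`16(8192/L)² ≤ C N^{-2κ₀}`.  For `N < N₀` use `|WF| ≤ 2`. -/
def St_PWS : Prop := ∀ c1 c2 : ℝ, 1 / 2 < c1 → c1 ≤ c2 → c2 < 1 → 1 < 4 * c1 - 2 * c2 →
  ∃ κ C : ℝ, 0 < κ ∧ 0 < C ∧ ∀ (X : Type) [MeasurableSpace X] (μ : Measure X)
    [IsProbabilityMeasure μ] (T : X ≃ᵐ X), MeasurePreserving (⇑T) μ μ → ∀ f g : X → ℝ,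
    Measurable f → Measurable g → (∀ x, |f x| ≤ 1) → (∀ x, |g x| ≤ 1) → ∀ N M M' : ℕ, 1 ≤ N →
    (N : ℝ) ^ c1 ≤ M → (M : ℝ) ≤ (N : ℝ) ^ c2 → (N : ℝ) ^ c1 ≤ M' → (M' : ℝ) ≤ (N : ℝ) ^ c2 →
    ∫ x, (WF (FT T f g x) N M - WF (FT T f g x) N M') ^ 2 ∂μ ≤ C * (N : ℝ) ^ (-κ)

/-- **PWC** (power saving for a strip, `c = 7/8`, and a sector); uses `St_FSC`, `St_TRF`, `St_RWF`.
Proof.  `M = ⌊N^{7/8}⌋`, `M⁴ ≥ N^{7/2}/16`; `κ₀ = 1/4000`, `L = ⌊N^{κ₀}⌋`: `L¹²⁰⁰N³ ≤ N^{3.3} ≤ M⁴`,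
`L¹⁰⁰M ≤ N`.  For small `N`: `|SF| ≤ 4R`, `|WF| ≤ 2`. -/
def St_PWC : Prop := ∀ R : ℕ, 1 ≤ R → ∃ κ C : ℝ, 0 < κ ∧ 0 < C ∧ ∀ (X : Type) [MeasurableSpace X]
    (μ : Measure X) [IsProbabilityMeasure μ] (T : X ≃ᵐ X), MeasurePreserving (⇑T) μ μ →
    ∀ f g : X → ℝ, Measurable f → Measurable g → (∀ x, |f x| ≤ 1) → (∀ x, |g x| ≤ 1) →
    ∀ j N : ℕ, j < R → 1 ≤ N →
    ∫ x, (SF (FT T f g x) R j N - WF (FT T f g x) N ⌊(N : ℝ) ^ (7 / 8 : ℝ)⌋₊) ^ 2 ∂μ ≤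
      C * (N : ℝ) ^ (-κ)

/-- **INT** (interpolation).
Proof.  `S(N,M) = ∑_{n≤N,m≤M} n F`, `|S(N',M') - S(N,M)| ≤ M'N'(N'+1)/2 - MN(N+1)/2`, `|S(N,M)| ≤ MN(N+1)/2`.  So the
difference is at most `(N+1)/N (1 - N²M/(N'²M')) + (N'+1)/N' (1 - MN(N+1)/(M'N'(N'+1)))
≤ 2(1-ρ) + 2(1-ρ)`, `ρ = N²M/(N'²M')` (`(N+1)/(N'+1) ≥ N/N'`).
Second part: `1 ≤ N ≤ N'`: `SecX R j N² ⊆ SecX R j N'²`; `#SecX R j N² ≤ N²`, and with `A = #SecX R j N²`,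
`A' = #SecX R j N'²`: `|SF(N) - SF(N')| ≤ A/(aj N²) - A/(aj N'²) + (A'-A)/(aj N'²)`
`≤ 4R(1 - N²/N'²) + 4R(A'-A)/N'²` (`1/aj ≤ 4R`); `A' - A` (the number of points with `N² ≤ n²+m² < N'²`) is
`≤ aj(N'²-N²) + 8N' + 4` by `St_SECT` (`q = 1`), `aj ≤ 1/(2R)`.  Third part: trivial bounds. -/
def St_INT : Prop := ∀ F : ℕ → ℝ, (∀ k, |F k| ≤ 1) →
  (∀ N N' M M' : ℕ, 1 ≤ N → N ≤ N' → 1 ≤ M → M ≤ M' →
    |WF F N M - WF F N' M'| ≤ 4 * (1 - (N : ℝ) ^ 2 * M / ((N' : ℝ) ^ 2 * M'))) ∧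
  (∀ R j N N' : ℕ, 1 ≤ R → j < R → 1 ≤ N → N ≤ N' →
    |SF F R j N - SF F R j N'| ≤ 8 * R * (1 - (N : ℝ) ^ 2 / (N' : ℝ) ^ 2) + 48 * R / N') ∧
  (∀ N M : ℕ, |WF F N M| ≤ 2) ∧ (∀ R j N : ℕ, 1 ≤ R → j < R → |SF F R j N| ≤ 4 * R)

/-- **AES** (almost everywhere, strips); uses `St_PWS`, `St_INT`.
Proof.  Take `c1' < c1`, `c2' > c2` with `1/2 < c1'`, `c2' < 1`, `4c1' - 2c2' > 1` and `St_PWS` for them.  Fix `q ∈ (0,1/10]`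
(a rational, `q → 0` at the end) and the grid `𝒢 = {⌈(1+q)^i⌉}`.  The triples `(N, M, M') ∈ 𝒢³` with
`N^{c1'} ≤ M, M' ≤ N^{c2'}`: for `N = ⌈(1+q)^i⌉` at most `C i²` of them, so the sum of the integrals of
`(WF N M - WF N M')²` over all triples is `≤ ∑_i C i² (1+q)^{-κi} < ∞`.  So for a.e. `x` the sum of the squares is finite and
the terms tend to `0`.  For general `N, M` (`N^{c1} ≤ M ≤ N^{c2}`, `N` large) let `N₁ ≤ N`, `M₁ ≤ M` be the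
previous elements of the grid: `N < (1+2q)N₁`, `M < (1+2q)M₁` and `N₁^{c1'} ≤ M₁ ≤ N₁^{c2'}`; by `St_INT`
`|WF N M - WF N₁ M₁| ≤ 4(1-(1+2q)^{-3}) ≤ 24q`.  So the limsup of the uniform difference is `≤ 48q`. -/
def St_AES : Prop := ∀ (X : Type) [MeasurableSpace X] (μ : Measure X) [IsProbabilityMeasure μ]
  (T : X ≃ᵐ X), MeasurePreserving (⇑T) μ μ → ∀ f g : X → ℝ, Measurable f → Measurable g →
  (∀ x, |f x| ≤ 1) → (∀ x, |g x| ≤ 1) → ∀ c1 c2 : ℝ, 1 / 2 < c1 → c1 ≤ c2 → c2 < 1 →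
  1 < 4 * c1 - 2 * c2 → ∀ᵐ x ∂μ, UnifW (FT T f g x) c1 c2

/-- **CHN** (chain; deterministic).
Proof.  `UnifW F a b` gives `UnifW F a' b'` for `a ≤ a' ≤ b' ≤ b` (`N ≥ 1`).  If `a < b' ≤ ..`: let
`UnifW F a b`, `UnifW F a' b'` with `a ≤ a' < b ≤ b'`; then `UnifW F a b'`: for `N` large there is an integer `M₀` with
`N^{a'} ≤ M₀ ≤ N^b`; every `M ∈ [N^a, N^{b'}]` is in `[N^a, N^b]` or in `[N^{a'}, N^{b'}]`, so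
`|WF N M - WF N M₀| ≤ ε`.  Start from `[c1, c1 + δ]`, `δ = (2c1-1)/4` (`4c - 2(c+δ) - 1 ≥ 2c1 - 1 - 2δ > 0` for
`c ≥ c1`), and extend by steps `δ/2` (finitely many) up to `c2`. -/
def St_CHN : Prop := ∀ F : ℕ → ℝ,
  (∀ q1 q2 : ℚ, (1 / 2 : ℝ) < q1 → (q1 : ℝ) ≤ q2 → (q2 : ℝ) < 1 → (1 : ℝ) < 4 * q1 - 2 * q2 →
    UnifW F q1 q2) →
  ∀ c1 c2 : ℝ, 1 / 2 < c1 → c1 ≤ c2 → c2 < 1 → UnifW F c1 c2

/-- **AEC** (almost everywhere, sectors); uses `St_PWC`, `St_INT`.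
Proof.  As `St_AES`: grid `𝒢 = {⌈(1+q)^i⌉}`, the integrals over `N ∈ 𝒢` are summable; between two grid points `SF` moves
by at most `8R(1-(1+2q)^{-2}) + o(1) ≤ 32Rq + o(1)`, `WF N ⌊N^{7/8}⌋` by at most `4(1-(1+2q)^{-3}(1-o(1)))`.
(`R, j` countably many.) -/
def St_AEC : Prop := ∀ (X : Type) [MeasurableSpace X] (μ : Measure X) [IsProbabilityMeasure μ]
  (T : X ≃ᵐ X), MeasurePreserving (⇑T) μ μ → ∀ f g : X → ℝ, Measurable f → Measurable g →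
  (∀ x, |f x| ≤ 1) → (∀ x, |g x| ≤ 1) → ∀ᵐ x ∂μ, ∀ R j : ℕ, 1 ≤ R → j < R →
  Tendsto (fun N : ℕ => SF (FT T f g x) R j N -
    WF (FT T f g x) N ⌊(N : ℝ) ^ (7 / 8 : ℝ)⌋₊) atTop (𝓝 0)

/-- **DAB** (Abel summation; deterministic); uses `St_INT` (third part).
Proof.  `M ≥ 1`, `V_n = ∑_{n'≤n} n' ∑_{m≤M} F = n²M WF F n M/2`.  `∑_{n≤N,m≤M} F = ∑_n (V_n - V_{n-1})/n
= V_N/N + ∑_{n<N} V_n/(n(n+1))`, so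
`(1/(NM)) ∑ F = WF F N M/2 + (1/N) ∑_{n<N} (n/(n+1)) WF F n M/2`.  Let `M = ⌊N^c⌋` and `1/2 < c1 < c, 7/8 < c2 < 1` (also
`c1 < c' < c2`).  Let `ε > 0`.  For `N` large and `εN ≤ n ≤ N`: `n^{c1} ≤ M ≤ n^{c2}`, so
`|WF F n M - WF F n ⌊n^{7/8}⌋| ≤ ε` by `UnifW F c1 c2`.  The `n < εN` contribute at most `ε`.
If `WF F n ⌊n^{7/8}⌋ → L` the right-hand side tends to `L/2 + L/2`.  And `NM/N^{1+c} → 1`.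
First part: the same identity for `c` and `c'` and `|WF F n M - WF F n M'| ≤ ε` for `εN ≤ n ≤ N`. -/
def St_DAB : Prop := ∀ F : ℕ → ℝ, (∀ k, |F k| ≤ 1) →
  (∀ c1 c2 : ℝ, 1 / 2 < c1 → c1 ≤ c2 → c2 < 1 → UnifW F c1 c2) →
  (∀ c c' : ℝ, 1 / 2 < c → c < 1 → 1 / 2 < c' → c' < 1 →
    Tendsto (fun N : ℕ => AF F c N - AF F c' N) atTop (𝓝 0)) ∧
  (∀ L : ℝ, Tendsto (fun N : ℕ => WF F N ⌊(N : ℝ) ^ (7 / 8 : ℝ)⌋₊) atTop (𝓝 L) →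
    ∀ c : ℝ, 1 / 2 < c → c < 1 → Tendsto (fun N : ℕ => AF F c N) atTop (𝓝 L))

/-- **DBR** (the square as a union of sectors; deterministic); uses `St_AJ`, `St_SECT`.
Proof.  `s_j = √(1+(j/R)²)`, `N_j = ⌊s_j N⌋`.  The pairs `1 ≤ m < n ≤ N` are the disjoint union over `j < R` of
`Sec_j ∩ {n ≤ N}` (`j = ⌊Rm/n⌋`), and `BF F N = N⁻²(2∑_{m<n≤N} F + ∑_n F(2n²))`.  `SecX R j (N_j²) ⊆ {n ≤ N}`
(`n² s_j² ≤ n²+m² < s_j²N²`), and the points of `Sec_j`, `n ≤ N`, with `n²+m² ≥ N_j²` have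
`n² s_{j+1}² > n²+m² ≥ N_j² ≥ (s_jN-1)²`, so `n ≥ (s_jN-1)/s_{j+1}`: at most `N(1-s_j/s_{j+1}) + 2 ≤ N/R + 2` values of
`n` (`s_{j+1}² - s_j² ≤ 2/R`, `s ≥ 1`), each with at most `N/R + 1` values of `m`.  So
`|BF F N - ∑_j 2 aj (N_j²/N²) SF F R j N_j| ≤ 2R(N/R+2)(N/R+1)/N² + 1/N = 2/R + o(1)`.  `N_j²/N² → s_j²`,
`2 aj s_j² ∈ [s_j²/(s_{j+1}² R), 1/R] ⊆ [(1-2/R)/R, 1/R]` (`St_AJ`) and `|SF F R j N| ≤ #SecX/(aj N²) ≤ 2` for `N` large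
(`St_SECT`).  Total `≤ 2/R + 4/R + o(1)`. -/
def St_DBR : Prop := ∀ F : ℕ → ℝ, (∀ k, |F k| ≤ 1) → ∀ R : ℕ, 1 ≤ R → ∃ N0 : ℕ, ∀ N : ℕ, N0 ≤ N →
  |BF F N - (1 / (R : ℝ)) * ∑ j ∈ range R,
    SF F R j ⌊Real.sqrt (1 + ((j : ℝ) / R) ^ 2) * N⌋₊| ≤ 8 / R

/-- **SYM** (the symbol has no zero).
Proof.  `t = 0`: the integral is `1`.  `t ≠ 0`: with `G(r) = 1 - cos(t log(1+r²)) ≥ 0`, `G'(r) = sin(t log(1+r²)) 2tr/(1+r²)`,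
so `∫_0^1 sin(t log(1+r²)) dr = ∫_0^1 G'(r) (1+r²)/(2tr) dr = [G(r)(1+r²)/(2tr)]_0^1 + ∫_0^1 G(r)(1/r² - 1) dr/(2t)
= (1/(2t)) (2G(1) + ∫_0^1 G(r)(1/r²-1) dr)` (`G(r) = O(r⁴)` at `0`), and `∫_0^1 G(r)(1/r²-1) dr > 0` (continuous,
non-negative, not identically zero).  So the imaginary part is not zero. -/
def St_SYM : Prop := ∀ t : ℝ,
  ∫ r in (0 : ℝ)..1, Complex.exp ((t * Real.log (1 + r ^ 2) : ℝ) * Complex.I) ≠ 0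

/-- **SCH** (division by the symbol); uses `St_SYM`.
Proof.  `a(r) = log(1+r²)/2`, `K(τ) = ∫_0^1 e(τ a(r)) dr` is smooth (all derivatives under the integral) and has no zero
(`St_SYM`, `t = πτ`).  Let `χ` be a smooth bump function on `ℝ`, `χ(0) = 1`, compact support; `g = 𝓕⁻¹χ` (Schwartz,
`∫ g = χ(0) = 1`).  For `l ≥ 1`, `w ↦ l g(l w)` has Fourier transform `τ ↦ χ(τ/l)`; `τ ↦ χ(τ/l)/K(τ)` is smooth with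
compact support, let `h` be its inverse Fourier transform (Schwartz).  Fubini:
`∫_0^1 h(w + a(r)) dr = ∫ χ(τ/l)/K(τ) e(τw) ∫_0^1 e(τa(r)) dr dτ = ∫ χ(τ/l) e(τw) dτ = l g(lw)`. -/
def St_SCH : Prop := ∃ g : ℝ → ℂ, Continuous g ∧ Integrable g ∧ Integrable (fun w : ℝ => |w| * ‖g w‖) ∧
  ∫ w, g w = 1 ∧ ∀ l : ℝ, 1 ≤ l → ∃ h : ℝ → ℂ, Continuous h ∧ Integrable h ∧
    ∀ w : ℝ, (l : ℂ) * g (l * w) = ∫ r in (0 : ℝ)..1, h (w + Real.log (1 + r ^ 2) / 2)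

/-- **TAU** (Tauberian theorem); uses `St_SCH`.
Proof.  Replace `ψ` by `ψ - L`, so `L = 0` (`∫_0^1 1 = 1`).  Let `l ≥ 1`, `g`, `h` from `St_SCH`,
`Ψ(v) = ∫_0^1 ψ(v + a(r)) dr → 0`, bounded.  `∫ ψ(v-w) l g(lw) dw = ∫ ψ(v-w) ∫_0^1 h(w+a(r)) dr dw
= ∫ h(w') Ψ(v-w') dw'` (Fubini, `w' = w + a(r)`) `→ 0` as `v → ∞` (dominated convergence).  On the other hand
`|∫ ψ(v-w) l g(lw) dw - ψ(v)| ≤ ∫ l|g(lw)| |ψ(v-w) - ψ(v)| dw`, and for fixed `w` the slow variation gives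
`limsup_v |ψ(v-w) - ψ(v)| ≤ C1|w|` (cut `|w|` in steps `≤ 1`), so (dominated, `2C0` bound) the limsup is at most
`∫ l|g(lw)| C1|w| dw = (C1/l) ∫|w||g(w)| dw`.  Hence `limsup|ψ| ≤ C/l` for all `l ≥ 1`. -/
def St_TAU : Prop := ∀ (ψ : ℝ → ℝ) (C0 C1 L : ℝ), Measurable ψ → (∀ v, |ψ v| ≤ C0) →
  (∀ δ : ℝ, 0 < δ → ∃ V : ℝ, ∀ v h : ℝ, V ≤ v → 0 ≤ h → h ≤ 1 → |ψ (v + h) - ψ v| ≤ C1 * h + δ) →
  Tendsto (fun v : ℝ => ∫ r in (0 : ℝ)..1, ψ (v + Real.log (1 + r ^ 2) / 2)) atTop (𝓝 L) →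
  Tendsto ψ atTop (𝓝 L)

/-- **DFN** (from squares to strips; deterministic); uses `St_DBR`, `St_TAU`, `St_INT`.
Proof.  `w(N) = WF F N ⌊N^{7/8}⌋`, `ψ(v) = w(⌊e^v⌋)` for `v ≥ 0` (`0` otherwise): measurable (step function), `|ψ| ≤ 2`.
Slow variation: `N = ⌊e^v⌋`, `N' = ⌊e^{v+h}⌋`: `N²M/(N'²M') ≥ e^{-3h}(1-o(1))`, so `|ψ(v+h)-ψ(v)| ≤ 12h + o(1)`
(`St_INT`).  `⌊s_jN⌋ = ⌊e^{log N + log s_j}⌋`, so `St_DBR` and `SF - w → 0`: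
`limsup_N |BF F N - (1/R)∑_j ψ(log N + log(1+(j/R)²)/2)| ≤ 8/R`; the Riemann sum differs from
`∫_0^1 ψ(log N + log(1+r²)/2) dr` by at most `12·(1/R) + o(1)` (on `[j/R, (j+1)/R]` the argument moves by at most
`1/R`).  `R → ∞`: `∫_0^1 ψ(log N + log(1+r²)/2) dr → L` along `N ∈ ℕ`, and along real `v → ∞` because
`v - log⌊e^v⌋ → 0` and slow variation.  `St_TAU`: `ψ → L`; `w(N) = ψ(log N)` (`⌊e^{log N}⌋ = N` up to rounding: use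
`w(N) = ψ(log(N + 1/2))`). -/
def St_DFN : Prop := ∀ F : ℕ → ℝ, (∀ k, |F k| ≤ 1) →
  (∀ R j : ℕ, 1 ≤ R → j < R → Tendsto (fun N : ℕ => SF F R j N -
    WF F N ⌊(N : ℝ) ^ (7 / 8 : ℝ)⌋₊) atTop (𝓝 0)) →
  ∀ L : ℝ, Tendsto (fun N : ℕ => BF F N) atTop (𝓝 L) →
    Tendsto (fun N : ℕ => WF F N ⌊(N : ℝ) ^ (7 / 8 : ℝ)⌋₊) atTop (𝓝 L)

/-- **MAIN** uses everything.  Proof.  `f, g` are a.e. equal to measurable functions bounded by a constant `C ≥ 1`; for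
a.e. `x` they agree at all `T^k x` (`T`, `T.symm` preserve `μ`).  Divide by `C`.  `St_AES` for all rational `q1, q2`,
`St_CHN`, `St_AEC`; then `St_DAB` and `St_DFN` for the sequence `F = FT T f g x`. -/
def St_MAIN : Prop := ∀ (X : Type) [MeasurableSpace X] (μ : Measure X) [IsProbabilityMeasure μ]
  (T : X ≃ᵐ X), MeasurePreserving (⇑T) μ μ → ∀ f g : X → ℝ, MemLp f ⊤ μ → MemLp g ⊤ μ →
  ∀ᵐ x ∂μ,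
    (∀ c c' : ℝ, 1 / 2 < c → c < 1 → 1 / 2 < c' → c' < 1 →
      Tendsto (fun N : ℕ => AF (FT T f g x) c N - AF (FT T f g x) c' N) atTop (𝓝 0)) ∧
    (∀ L : ℝ, Tendsto (fun N : ℕ => BF (FT T f g x) N) atTop (𝓝 L) →
      ∀ c : ℝ, 1 / 2 < c → c < 1 → Tendsto (fun N : ℕ => AF (FT T f g x) c N) atTop (𝓝 L))

end Pool.Agent.BSQ
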