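import Pool.Agent.BSQ.StA
import Pool.Agent.BSQ.StB

/-!
# BSQ, module DBR (the square as a union of sectors)
-/

set_option autoImplicit false

namespace Pool.Agent.BSQ

open Finset MeasureTheory Filter Topology
open scoped BigOperators
open Classical

/-- `s_j`. -/
private noncomputable def dbr_s (R j : ℕ) : ℝ := Real.sqrt (1 + ((j : ℝ) / R) ^ 2)

private theorem dbr_s_sq (R j : ℕ) : dbr_s R j ^ 2 = 1 + ((j : ℝ) / R) ^ 2 :=
  Real.sq_sqrt (by positivity)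

private theorem dbr_s_one (R j : ℕ) : 1 ≤ dbr_s R j := by
  unfold dbr_s
  rw [Real.le_sqrt (by norm_num) (by positivity)]
  nlinarith [sq_nonneg ((j : ℝ) / R)]

private theorem dbr_s_diff (R j : ℕ) (hj : j < R) :
    dbr_s R (j + 1) ^ 2 - dbr_s R j ^ 2 ≤ 2 / R := by
  have hR : (0 : ℝ) < R := by exact_mod_cast (show 0 < R by omega)
  have hj' : (j : ℝ) + 1 ≤ R := by exact_mod_cast hj
  rw [dbr_s_sq, dbr_s_sq]
  push_cast
  have h1 : 1 + (((j : ℝ) + 1) / R) ^ 2 - (1 + ((j : ℝ) / R) ^ 2) = (2 * j + 1) / R ^ 2 := by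
    field_simp
    ring
  rw [h1, div_le_div_iff₀ (by positivity) hR]
  nlinarith [mul_pos hR hR]

private theorem dbr_s_mono (R j : ℕ) : dbr_s R j ≤ dbr_s R (j + 1) := by
  unfold dbr_s
  apply Real.sqrt_le_sqrt
  push_cast
  gcongr
  linarith

/-- the pairs `1 ≤ m < n ≤ N`. -/
private def dbr_T (N : ℕ) : Finset (ℕ × ℕ) :=
  (Icc 1 N ×ˢ Icc 1 N).filter (fun p => p.2 < p.1)

/-- the part of the sector with `n ≤ N`. -/
private def dbr_D (R N j : ℕ) : Finset (ℕ × ℕ) :=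
  (dbr_T N).filter (fun p => R * p.2 / p.1 = j)

private theorem dbr_mem_D {R N j : ℕ} {p : ℕ × ℕ} :
    p ∈ dbr_D R N j ↔ (1 ≤ p.1 ∧ p.1 ≤ N ∧ 1 ≤ p.2 ∧ p.2 < p.1) ∧
      j * p.1 ≤ R * p.2 ∧ R * p.2 < (j + 1) * p.1 := by
  unfold dbr_D dbr_T
  simp only [mem_filter, mem_product, mem_Icc]
  constructor
  · rintro ⟨⟨⟨⟨h1, h2⟩, h3, h4⟩, h5⟩, h6⟩
    refine ⟨⟨h1, h2, h3, h5⟩, ?_, ?_⟩
    · rw [← h6]
      exact Nat.div_mul_le_self _ _
    · rw [← h6, mul_comm (R * p.2 / p.1 + 1) p.1]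
      exact Nat.lt_mul_div_succ _ h1
  · rintro ⟨⟨h1, h2, h3, h5⟩, h6, h7⟩
    exact ⟨⟨⟨⟨h1, h2⟩, h3, by omega⟩, h5⟩, Nat.div_eq_of_lt_le h6 h7⟩

private theorem dbr_sum_T (F : ℕ → ℝ) (R N : ℕ) (hR : 1 ≤ R) :
    ∑ p ∈ dbr_T N, F (sq2 p) = ∑ j ∈ range R, ∑ p ∈ dbr_D R N j, F (sq2 p) := by
  unfold dbr_D
  rw [Finset.sum_fiberwise_of_maps_to]
  intro p hp
  unfold dbr_T at hp
  simp only [mem_filter, mem_product, mem_Icc] at hp
  rw [mem_range]
  have h1 : 0 < p.1 := by omega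
  rw [Nat.div_lt_iff_lt_mul h1]
  exact Nat.mul_lt_mul_of_pos_left hp.2 (by omega)

/-- the square. -/
private theorem dbr_square (F : ℕ → ℝ) (hF : ∀ k, |F k| ≤ 1) (N : ℕ) (hN : 1 ≤ N) :
    |(N : ℝ) ^ 2 * BF F N - 2 * ∑ p ∈ dbr_T N, F (sq2 p)| ≤ (N : ℝ) := by
  have hN' : (N : ℝ) ≠ 0 := by exact_mod_cast (show N ≠ 0 by omega)
  have h1 : (N : ℝ) ^ 2 * BF F N = ∑ p ∈ Icc 1 N ×ˢ Icc 1 N, F (sq2 p) := by
    unfold BF
    rw [← mul_assoc, mul_one_div_cancel (pow_ne_zero 2 hN'), one_mul, Finset.sum_product]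
    rfl
  have h2 : ∑ p ∈ Icc 1 N ×ˢ Icc 1 N, F (sq2 p) = ∑ p ∈ dbr_T N, F (sq2 p) +
      (∑ p ∈ dbr_T N, F (sq2 p) + ∑ n ∈ Icc 1 N, F (n ^ 2 + n ^ 2)) := by
    rw [← Finset.sum_filter_add_sum_filter_not (Icc 1 N ×ˢ Icc 1 N) (fun p => p.2 < p.1)]
    congr 1
    rw [← Finset.sum_filter_add_sum_filter_not ((Icc 1 N ×ˢ Icc 1 N).filter (fun p => ¬ p.2 < p.1))
      (fun p => p.1 < p.2)]
    congr 1
    · refine Finset.sum_bij' (fun p _ => (p.2, p.1)) (fun p _ => (p.2, p.1)) ?_ ?_ ?_ ?_ ?_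
      · intro p hp
        unfold dbr_T
        simp only [mem_filter, mem_product, mem_Icc] at hp ⊢
        omega
      · intro p hp
        unfold dbr_T at hp
        simp only [mem_filter, mem_product, mem_Icc] at hp ⊢
        omega
      · intro p _
        rfl
      · intro p _
        rfl
      · intro p _
        unfold sq2
        rw [add_comm]
    · refine Finset.sum_bij' (fun p _ => p.1) (fun n _ => (n, n)) ?_ ?_ ?_ ?_ ?_
      · intro p hp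
        simp only [mem_filter, mem_product, mem_Icc] at hp ⊢
        omega
      · intro p hp
        simp only [mem_filter, mem_product, mem_Icc] at hp ⊢
        omega
      · intro p hp
        simp only [mem_filter, mem_product, mem_Icc] at hp
        refine Prod.ext rfl ?_
        change p.1 = p.2
        omega
      · intro p _
        rfl
      · intro p hp
        simp only [mem_filter, mem_product, mem_Icc] at hp
        unfold sq2
        have : p.1 = p.2 := by omega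
        rw [this]
  rw [h1, h2]
  have h3 : ∑ p ∈ dbr_T N, F (sq2 p) + (∑ p ∈ dbr_T N, F (sq2 p) +
      ∑ n ∈ Icc 1 N, F (n ^ 2 + n ^ 2)) - 2 * ∑ p ∈ dbr_T N, F (sq2 p) =
      ∑ n ∈ Icc 1 N, F (n ^ 2 + n ^ 2) := by ring
  rw [h3]
  refine (Finset.abs_sum_le_sum_abs _ _).trans ?_
  refine (Finset.sum_le_card_nsmul _ _ 1 fun n _ => hF _).trans ?_
  rw [Nat.card_Icc]
  simp

/-- the sector up to `N_j` is in `D`. -/
private theorem dbr_sub (R N j : ℕ) (hR : 1 ≤ R) (hj : j < R) :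
    SecX R j (⌊dbr_s R j * N⌋₊ ^ 2) ⊆ dbr_D R N j := by
  intro p hp
  unfold SecX at hp
  simp only [mem_filter, mem_product, mem_range] at hp
  obtain ⟨_, h1, h2, h3, h4, h5⟩ := hp
  rw [dbr_mem_D]
  have hR' : (0 : ℝ) < R := by exact_mod_cast (show 0 < R by omega)
  have h6 : p.2 < p.1 := by
    have h7 : R * p.2 < R * p.1 := lt_of_lt_of_le h4 (Nat.mul_le_mul_right _ hj)
    exact lt_of_mul_lt_mul_left h7 (Nat.zero_le R)
  have hs0 : (0 : ℝ) < dbr_s R j := lt_of_lt_of_le one_pos (dbr_s_one R j)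
  have h8 : p.1 < N := by
    have h9 : (j : ℝ) / R * p.1 ≤ p.2 := by
      rw [div_mul_eq_mul_div, div_le_iff₀ hR']
      exact_mod_cast (by rw [mul_comm p.2 R]; exact h3 : j * p.1 ≤ p.2 * R)
    have h10 : (dbr_s R j * p.1) ^ 2 ≤ (p.1 : ℝ) ^ 2 + (p.2 : ℝ) ^ 2 := by
      rw [mul_pow, dbr_s_sq]
      have h11 : ((j : ℝ) / R * p.1) ^ 2 ≤ (p.2 : ℝ) ^ 2 := by
        apply pow_le_pow_left₀ (by positivity) h9
      nlinarith
    have h12 : (p.1 : ℝ) ^ 2 + (p.2 : ℝ) ^ 2 < (⌊dbr_s R j * N⌋₊ : ℝ) ^ 2 := by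
      unfold sq2 at h5
      exact_mod_cast h5
    have h13 : (⌊dbr_s R j * N⌋₊ : ℝ) ≤ dbr_s R j * N := Nat.floor_le (by positivity)
    have h14 : dbr_s R j * p.1 < dbr_s R j * N := by
      refine lt_of_lt_of_le ?_ h13
      exact lt_of_pow_lt_pow_left₀ 2 (by positivity) (lt_of_le_of_lt h10 h12)
    exact_mod_cast lt_of_mul_lt_mul_left h14 hs0.le
  exact ⟨⟨h1, h8.le, h2, h6⟩, h3, h4⟩

/-- the rest. -/
private theorem dbr_rest (R N j : ℕ) (hR : 1 ≤ R) (hj : j < R) (hN : 1 ≤ N) :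
    (((dbr_D R N j \ SecX R j (⌊dbr_s R j * N⌋₊ ^ 2)).card : ℕ) : ℝ) ≤
      ((N : ℝ) / R + 2) * ((N : ℝ) / R + 1) := by
  have hR' : (0 : ℝ) < R := by exact_mod_cast (show 0 < R by omega)
  have hN' : (1 : ℝ) ≤ N := by exact_mod_cast hN
  have hs1 := dbr_s_one R j
  have hs2 := dbr_s_one R (j + 1)
  have hs0 : (0 : ℝ) < dbr_s R j := by linarith
  have hs3 : (0 : ℝ) < dbr_s R (j + 1) := by linarith
  set G := dbr_D R N j \ SecX R j (⌊dbr_s R j * N⌋₊ ^ 2) with hG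
  have hc1 : G.card ≤ (N / R + 1) * (G.image Prod.fst).card := by
    apply Finset.card_le_mul_card_image
    intro n hn
    obtain ⟨q, hq, hqn⟩ := mem_image.1 hn
    rw [hG, Finset.mem_sdiff, dbr_mem_D] at hq
    -- the fiber
    have h1 : (G.filter (fun p => p.1 = n)).card ≤
        (Icc ((j * n + (R - 1)) / R) ((j * n + (R - 1)) / R + N / R)).card := by
      refine Finset.card_le_card_of_injOn Prod.snd ?_ ?_
      · intro p hp
        rw [mem_coe, mem_filter, hG, Finset.mem_sdiff, dbr_mem_D] at hp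
        obtain ⟨⟨⟨⟨a1, a2, a3, a4⟩, a5, a6⟩, _⟩, a7⟩ := hp
        rw [a7] at a1 a2 a4 a5 a6
        rw [mem_coe, mem_Icc]
        have hm0 : j * n ≤ R * ((j * n + (R - 1)) / R) := by
          have h2 := Nat.lt_mul_div_succ (j * n + (R - 1)) (show 0 < R by omega)
          rw [mul_add, mul_one] at h2
          omega
        constructor
        · rw [Nat.div_le_iff_le_mul_add_pred (by omega)]
          have : j * n ≤ R * p.2 := a5
          omega
        · have h3 : R * p.2 ≤ R * ((j * n + (R - 1)) / R) + n := by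
            rw [add_mul, one_mul] at a6
            omega
          have h4 : p.2 ≤ (R * ((j * n + (R - 1)) / R) + n) / R := by
            rw [Nat.le_div_iff_mul_le (by omega), mul_comm]
            exact h3
          rw [Nat.mul_add_div (by omega)] at h4
          refine h4.trans ?_
          exact Nat.add_le_add_left (Nat.div_le_div_right a2) _
      · intro p hp p' hp' h
        rw [mem_coe, mem_filter] at hp hp'
        exact Prod.ext (hp.2.trans hp'.2.symm) h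
    rw [Nat.card_Icc] at h1
    have : ∀ a b : ℕ, a + b + 1 - a = b + 1 := fun a b => by omega
    rw [this] at h1
    exact h1
  have hc2 : (((G.image Prod.fst).card : ℕ) : ℝ) ≤ (N : ℝ) / R + 2 := by
    set x : ℝ := (dbr_s R j * N - 1) / dbr_s R (j + 1) with hx
    have hx0 : 0 ≤ x := by
      rw [hx]
      apply div_nonneg _ hs3.le
      nlinarith
    have h1 : G.image Prod.fst ⊆ Icc ⌈x⌉₊ N := by
      intro n hn
      obtain ⟨p, hp, rfl⟩ := mem_image.1 hn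
      rw [hG, Finset.mem_sdiff, dbr_mem_D] at hp
      obtain ⟨⟨⟨a1, a2, a3, a4⟩, a5, a6⟩, a8⟩ := hp
      rw [mem_Icc]
      refine ⟨?_, a2⟩
      rw [Nat.ceil_le, hx, div_le_iff₀ hs3]
      have h2 : ⌊dbr_s R j * N⌋₊ ^ 2 ≤ sq2 p := by
        by_contra hcon
        push Not at hcon
        apply a8
        unfold SecX
        simp only [mem_filter, mem_product, mem_range]
        have b1 : p.1 ≤ sq2 p := by
          unfold sq2
          nlinarith
        have b2 : p.2 ≤ sq2 p := by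
          unfold sq2
          nlinarith
        exact ⟨⟨by omega, by omega⟩, a1, a3, a5, a6, hcon⟩
      have h3 : (⌊dbr_s R j * N⌋₊ : ℝ) ^ 2 ≤ (p.1 : ℝ) ^ 2 + (p.2 : ℝ) ^ 2 := by
        unfold sq2 at h2
        exact_mod_cast h2
      have h4 : (p.2 : ℝ) ≤ ((j : ℝ) + 1) / R * p.1 := by
        rw [div_mul_eq_mul_div, le_div_iff₀ hR', mul_comm]
        exact_mod_cast a6.le
      have h5 : (p.2 : ℝ) ^ 2 ≤ (((j : ℝ) + 1) / R * p.1) ^ 2 :=
        pow_le_pow_left₀ (by positivity) h4 2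
      have h6 : (⌊dbr_s R j * N⌋₊ : ℝ) ^ 2 ≤ (p.1 * dbr_s R (j + 1)) ^ 2 := by
        rw [mul_pow _ (dbr_s R (j + 1)), dbr_s_sq]
        push_cast
        rw [mul_pow] at h5
        linarith
      have h7 : (⌊dbr_s R j * N⌋₊ : ℝ) ≤ p.1 * dbr_s R (j + 1) :=
        (pow_le_pow_iff_left₀ (by positivity) (by positivity) two_ne_zero).1 h6
      have h8 := Nat.lt_floor_add_one (dbr_s R j * N)
      linarith
    have h2 : (((G.image Prod.fst).card : ℕ) : ℝ) ≤ ((Icc ⌈x⌉₊ N).card : ℕ) := by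
      exact_mod_cast Finset.card_le_card h1
    rw [Nat.card_Icc] at h2
    have hxN : x ≤ N := by
      rw [hx, div_le_iff₀ hs3]
      have := dbr_s_mono R j
      nlinarith
    have h3 : ⌈x⌉₊ ≤ N := by
      rw [Nat.ceil_le]
      exact hxN
    rw [Nat.cast_sub (by omega)] at h2
    have h4 : x ≤ (⌈x⌉₊ : ℝ) := Nat.le_ceil x
    have h5 : (N : ℝ) - x ≤ N / R + 1 := by
      have h6 : x = dbr_s R j / dbr_s R (j + 1) * N - 1 / dbr_s R (j + 1) := by
        rw [hx]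
        ring
      have h7 : 1 / dbr_s R (j + 1) ≤ 1 := by
        rw [div_le_one hs3]
        exact hs2
      have h8 : 1 - 1 / (R : ℝ) ≤ dbr_s R j / dbr_s R (j + 1) := by
        rw [le_div_iff₀ hs3, sub_mul, one_mul]
        have h9 := dbr_s_diff R j hj
        have h10 : dbr_s R (j + 1) - dbr_s R j ≤ 1 / R := by
          have h11 : (dbr_s R (j + 1) - dbr_s R j) * 2 ≤ 2 / R := by
            refine le_trans ?_ h9
            have := dbr_s_mono R j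
            nlinarith
          have h12 : 2 / (R : ℝ) = 1 / R * 2 := by ring
          rw [h12] at h11
          linarith
        have h13 : 1 / (R : ℝ) ≤ 1 / R * dbr_s R (j + 1) :=
          le_mul_of_one_le_right (by positivity) hs2
        linarith
      have h14 : (1 - 1 / (R : ℝ)) * N ≤ dbr_s R j / dbr_s R (j + 1) * N :=
        mul_le_mul_of_nonneg_right h8 (by positivity)
      have h15 : (1 - 1 / (R : ℝ)) * N = N - N / R := by ring
      rw [h6]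
      linarith
    push_cast at h2
    linarith
  have hc3 : ((G.card : ℕ) : ℝ) ≤ (((N / R + 1 : ℕ) : ℕ) : ℝ) * (((G.image Prod.fst).card : ℕ) : ℝ) := by
    exact_mod_cast hc1
  refine hc3.trans ?_
  rw [mul_comm]
  have hc4 : (((N / R + 1 : ℕ) : ℕ) : ℝ) ≤ (N : ℝ) / R + 1 := by
    push_cast
    have := @Nat.cast_div_le ℝ _ _ _ N R
    linarith
  exact mul_le_mul hc2 hc4 (by positivity) (by positivity)

/-- the sum over the rest. -/
private theorem dbr_rest_sum (F : ℕ → ℝ) (hF : ∀ k, |F k| ≤ 1) (R N j : ℕ) (hR : 1 ≤ R)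
    (hj : j < R) (hN : 1 ≤ N) :
    |∑ p ∈ dbr_D R N j, F (sq2 p) - ∑ p ∈ SecX R j (⌊dbr_s R j * N⌋₊ ^ 2), F (sq2 p)| ≤
      ((N : ℝ) / R + 2) * ((N : ℝ) / R + 1) := by
  rw [← Finset.sum_sdiff (dbr_sub R N j hR hj), add_sub_cancel_right]
  refine le_trans ?_ (dbr_rest R N j hR hj hN)
  refine (Finset.abs_sum_le_sum_abs _ _).trans ?_
  refine (Finset.sum_le_card_nsmul _ _ 1 fun n _ => hF _).trans ?_
  simp

/-- the weights. -/
private theorem dbr_weight (hAJ : St_AJ) (hSECT : St_SECT) (F : ℕ → ℝ) (hF : ∀ k, |F k| ≤ 1)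
    (R N j : ℕ) (hR : 1 ≤ R) (hj : j < R) (hN : 24 * R ≤ N) :
    |2 * ∑ p ∈ SecX R j (⌊dbr_s R j * N⌋₊ ^ 2), F (sq2 p) -
      (N : ℝ) ^ 2 * (1 / (R : ℝ) * SF F R j ⌊dbr_s R j * N⌋₊)| ≤
      (N : ℝ) ^ 2 * (2 * (2 / (R : ℝ) ^ 2 + 2 / (R * N))) := by
  have hR' : (0 : ℝ) < R := by exact_mod_cast (show 0 < R by omega)
  have hR1 : (1 : ℝ) ≤ R := by exact_mod_cast hR
  have hNR : 24 * (R : ℝ) ≤ N := by exact_mod_cast hN
  have hN' : (0 : ℝ) < N := by linarith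
  have hs1 := dbr_s_one R j
  have hs2 := dbr_s_one R (j + 1)
  have hs0 : (0 : ℝ) < dbr_s R j := by linarith
  have hs3 : (0 : ℝ) < dbr_s R (j + 1) := by linarith
  obtain ⟨ha1, ha2, ha3⟩ := hAJ R j hR hj
  have haj : 0 < aj R j := lt_of_lt_of_le (by positivity) ha3
  set M : ℕ := ⌊dbr_s R j * N⌋₊ with hM
  have hM1 : (M : ℝ) ≤ dbr_s R j * N := Nat.floor_le (by positivity)
  have hM2 : dbr_s R j * N - 1 < M := by
    have := Nat.lt_floor_add_one (dbr_s R j * N)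
    linarith
  have hM3 : (N : ℝ) ≤ M := by
    have : N ≤ M := by
      rw [hM, Nat.le_floor_iff (by positivity)]
      nlinarith
    exact_mod_cast this
  have hM0 : (0 : ℝ) < M := by linarith
  set A : ℝ := ∑ p ∈ SecX R j (M ^ 2), F (sq2 p) with hA
  have hA1 : |A| ≤ (((SecX R j (M ^ 2)).card : ℕ) : ℝ) := by
    refine (Finset.abs_sum_le_sum_abs _ _).trans ?_
    refine (Finset.sum_le_card_nsmul _ _ 1 fun n _ => hF _).trans ?_
    simp
  have hS := hSECT R j 1 0 0 (M ^ 2) hR hj le_rfl (by norm_num) (by norm_num)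
  rw [Finset.filter_true_of_mem (by
    intro p _
    exact ⟨Nat.mod_one _, Nat.mod_one _⟩)] at hS
  have hsq : Real.sqrt ((M ^ 2 : ℕ) : ℝ) = M := by
    push_cast
    exact Real.sqrt_sq hM0.le
  rw [hsq] at hS
  have hA2 : |A| ≤ aj R j * (M : ℝ) ^ 2 + 4 * M + 2 := by
    have := (abs_le.1 hS).2
    push_cast at this
    linarith
  have hSF : SF F R j M = A / (aj R j * (M : ℝ) ^ 2) := by
    unfold SF
    rw [hA]
    ring
  have hden : 0 < aj R j * (M : ℝ) ^ 2 := by positivity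
  have hSF2 : |SF F R j M| ≤ 2 := by
    rw [hSF, abs_div, abs_of_pos hden, div_le_iff₀ hden]
    have h1 : 4 * (M : ℝ) + 2 ≤ aj R j * (M : ℝ) ^ 2 := by
      have h2 : 1 / (4 * (R : ℝ)) * (M : ℝ) ^ 2 ≤ aj R j * (M : ℝ) ^ 2 :=
        mul_le_mul_of_nonneg_right ha3 (by positivity)
      refine le_trans ?_ h2
      rw [one_div, inv_mul_eq_div, le_div_iff₀ (by positivity)]
      nlinarith
    linarith
  have hA3 : A = aj R j * (M : ℝ) ^ 2 * SF F R j M := by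
    rw [hSF]
    field_simp
  have hx : 2 * A - (N : ℝ) ^ 2 * (1 / (R : ℝ) * SF F R j M) =
      (2 * aj R j * (M : ℝ) ^ 2 - (N : ℝ) ^ 2 / R) * SF F R j M := by
    rw [hA3]
    ring
  rw [hx, abs_mul]
  have hy : |2 * aj R j * (M : ℝ) ^ 2 - (N : ℝ) ^ 2 / R| ≤
      (N : ℝ) ^ 2 * (2 / (R : ℝ) ^ 2 + 2 / (R * N)) := by
    have e1 : 2 * R * aj R j * dbr_s R j ^ 2 ≤ 1 := by
      rw [← dbr_s_sq, le_div_iff₀ (by positivity)] at ha2
      linarith
    have e2 : 1 ≤ 2 * R * aj R j * dbr_s R (j + 1) ^ 2 := by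
      have h1 := dbr_s_sq R (j + 1)
      push_cast at h1
      rw [← h1, div_le_iff₀ (by positivity)] at ha1
      linarith
    have e3 := dbr_s_diff R j hj
    set u : ℝ := 2 * R * aj R j with hu
    have hu0 : 0 < u := by positivity
    have hu1 : u ≤ 1 := by
      have : u * 1 ≤ u * dbr_s R j ^ 2 := mul_le_mul_of_nonneg_left (by nlinarith) hu0.le
      linarith
    have hu2 : u * dbr_s R j ≤ 1 := by
      have : u * dbr_s R j ≤ u * dbr_s R j ^ 2 := mul_le_mul_of_nonneg_left (by nlinarith) hu0.le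
      linarith
    have hu3 : 1 - 2 / R ≤ u * dbr_s R j ^ 2 := by
      have h1 : u * (dbr_s R (j + 1) ^ 2 - dbr_s R j ^ 2) ≤ u * (2 / R) :=
        mul_le_mul_of_nonneg_left e3 hu0.le
      have h2 : u * (2 / R) ≤ 1 * (2 / R) := mul_le_mul_of_nonneg_right hu1 (by positivity)
      linarith
    have hm1 : (M : ℝ) ^ 2 ≤ dbr_s R j ^ 2 * (N : ℝ) ^ 2 := by
      rw [← mul_pow]
      exact pow_le_pow_left₀ hM0.le hM1 2
    have hm2 : dbr_s R j ^ 2 * (N : ℝ) ^ 2 - 2 * dbr_s R j * N ≤ (M : ℝ) ^ 2 := by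
      have h1 : 0 ≤ dbr_s R j * N - 1 := by nlinarith
      have h2 : (dbr_s R j * N - 1) ^ 2 ≤ (M : ℝ) ^ 2 := pow_le_pow_left₀ h1 hM2.le 2
      nlinarith
    have hM4 : u * (M : ℝ) ^ 2 ≤ (N : ℝ) ^ 2 := by
      have h1 : u * (M : ℝ) ^ 2 ≤ u * (dbr_s R j ^ 2 * (N : ℝ) ^ 2) :=
        mul_le_mul_of_nonneg_left hm1 hu0.le
      have h2 : u * dbr_s R j ^ 2 * (N : ℝ) ^ 2 ≤ 1 * (N : ℝ) ^ 2 :=
        mul_le_mul_of_nonneg_right e1 (by positivity)
      linarith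
    have hM5 : (N : ℝ) ^ 2 - 2 / R * (N : ℝ) ^ 2 - 2 * N ≤ u * (M : ℝ) ^ 2 := by
      have h1 : u * (dbr_s R j ^ 2 * (N : ℝ) ^ 2 - 2 * dbr_s R j * N) ≤ u * (M : ℝ) ^ 2 :=
        mul_le_mul_of_nonneg_left hm2 hu0.le
      have h2 : (1 - 2 / R) * (N : ℝ) ^ 2 ≤ u * dbr_s R j ^ 2 * (N : ℝ) ^ 2 :=
        mul_le_mul_of_nonneg_right hu3 (by positivity)
      have h3 : u * dbr_s R j * N ≤ 1 * N := mul_le_mul_of_nonneg_right hu2 hN'.le
      linarith
    have hM6 : 2 * aj R j * (M : ℝ) ^ 2 = u * (M : ℝ) ^ 2 / R := by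
      rw [hu]
      field_simp
    rw [hM6, ← sub_div, abs_div, abs_of_pos hR', div_le_iff₀ hR', abs_le]
    have hr : (N : ℝ) ^ 2 * (2 / (R : ℝ) ^ 2 + 2 / (R * N)) * R =
        2 / R * (N : ℝ) ^ 2 + 2 * N := by
      field_simp
    rw [hr]
    have h9 : 0 ≤ 2 / R * (N : ℝ) ^ 2 + 2 * N := by positivity
    constructor <;> linarith
  calc |2 * aj R j * (M : ℝ) ^ 2 - (N : ℝ) ^ 2 / R| * |SF F R j M|
      ≤ (N : ℝ) ^ 2 * (2 / (R : ℝ) ^ 2 + 2 / (R * N)) * 2 :=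
        mul_le_mul hy hSF2 (abs_nonneg _) (by positivity)
    _ = _ := by ring

theorem thm_DBR (hAJ : St_AJ) (hSECT : St_SECT) : St_DBR := by
  intro F hF R hR
  refine ⟨24 * R, fun N hN => ?_⟩
  have hR' : (0 : ℝ) < R := by exact_mod_cast (show 0 < R by omega)
  have hR1 : (1 : ℝ) ≤ R := by exact_mod_cast hR
  have hNR : 24 * (R : ℝ) ≤ N := by exact_mod_cast hN
  have hN' : (0 : ℝ) < N := by linarith
  have hN1 : 1 ≤ N := by omega
  have h1 := dbr_square F hF N hN1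
  rw [dbr_sum_T F R N hR] at h1
  have h2 : |2 * ∑ j ∈ range R, ∑ p ∈ dbr_D R N j, F (sq2 p) -
      2 * ∑ j ∈ range R, ∑ p ∈ SecX R j (⌊dbr_s R j * N⌋₊ ^ 2), F (sq2 p)| ≤
      2 * (R * (((N : ℝ) / R + 2) * ((N : ℝ) / R + 1))) := by
    rw [← mul_sub, abs_mul, abs_of_pos (by norm_num : (0 : ℝ) < 2), ← Finset.sum_sub_distrib]
    refine mul_le_mul_of_nonneg_left ?_ (by norm_num)
    refine (Finset.abs_sum_le_sum_abs _ _).trans ?_
    refine (Finset.sum_le_card_nsmul _ _ _ fun j hj =>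
      dbr_rest_sum F hF R N j hR (mem_range.1 hj) hN1).trans ?_
    rw [card_range, nsmul_eq_mul]
  have h3 : |2 * ∑ j ∈ range R, ∑ p ∈ SecX R j (⌊dbr_s R j * N⌋₊ ^ 2), F (sq2 p) -
      (N : ℝ) ^ 2 * (1 / (R : ℝ) * ∑ j ∈ range R, SF F R j ⌊dbr_s R j * N⌋₊)| ≤
      R * ((N : ℝ) ^ 2 * (2 * (2 / (R : ℝ) ^ 2 + 2 / (R * N)))) := by
    rw [Finset.mul_sum, Finset.mul_sum, Finset.mul_sum, ← Finset.sum_sub_distrib]
    refine (Finset.abs_sum_le_sum_abs _ _).trans ?_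
    refine (Finset.sum_le_card_nsmul _ _ _ fun j hj =>
      dbr_weight hAJ hSECT F hF R N j hR (mem_range.1 hj) hN).trans ?_
    rw [card_range, nsmul_eq_mul]
  have hgoal : ∑ j ∈ range R, SF F R j ⌊Real.sqrt (1 + ((j : ℝ) / R) ^ 2) * N⌋₊ =
      ∑ j ∈ range R, SF F R j ⌊dbr_s R j * N⌋₊ := rfl
  rw [hgoal]
  set B := BF F N
  set S := ∑ j ∈ range R, SF F R j ⌊dbr_s R j * N⌋₊
  set D := ∑ j ∈ range R, ∑ p ∈ dbr_D R N j, F (sq2 p)
  set E := ∑ j ∈ range R, ∑ p ∈ SecX R j (⌊dbr_s R j * N⌋₊ ^ 2), F (sq2 p)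
  have h4 : |(N : ℝ) ^ 2 * (B - 1 / (R : ℝ) * S)| ≤ (N : ℝ) +
      2 * (R * (((N : ℝ) / R + 2) * ((N : ℝ) / R + 1))) +
      R * ((N : ℝ) ^ 2 * (2 * (2 / (R : ℝ) ^ 2 + 2 / (R * N)))) := by
    have h5 : (N : ℝ) ^ 2 * (B - 1 / (R : ℝ) * S) = ((N : ℝ) ^ 2 * B - 2 * D) +
        (2 * D - 2 * E) + (2 * E - (N : ℝ) ^ 2 * (1 / (R : ℝ) * S)) := by ring
    rw [h5]
    exact (abs_add_three _ _ _).trans (add_le_add (add_le_add h1 h2) h3)
  rw [abs_mul, abs_of_pos (by positivity : (0 : ℝ) < (N : ℝ) ^ 2)] at h4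
  have h6 : (N : ℝ) + 2 * (R * (((N : ℝ) / R + 2) * ((N : ℝ) / R + 1))) +
      R * ((N : ℝ) ^ 2 * (2 * (2 / (R : ℝ) ^ 2 + 2 / (R * N)))) ≤ (N : ℝ) ^ 2 * (8 / R) := by
    have h7 : (N : ℝ) + 2 * (R * (((N : ℝ) / R + 2) * ((N : ℝ) / R + 1))) +
      R * ((N : ℝ) ^ 2 * (2 * (2 / (R : ℝ) ^ 2 + 2 / (R * N)))) =
      6 * (N : ℝ) ^ 2 / R + 11 * N + 4 * R := by
      field_simp
      ring
    rw [h7]
    have h8 : (N : ℝ) ^ 2 * (8 / R) = 6 * (N : ℝ) ^ 2 / R + 2 * (N : ℝ) ^ 2 / R := by ring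
    rw [h8]
    have h9 : 11 * (N : ℝ) + 4 * R ≤ 2 * (N : ℝ) ^ 2 / R := by
      rw [le_div_iff₀ hR']
      nlinarith
    linarith
  exact le_of_mul_le_mul_left (h4.trans h6) (by positivity)

end Pool.Agent.BSQ
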