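import Pool.Agent.BSQ.StB

/-!
# BSQ, DFN: from squares to strips (deterministic)
-/

set_option autoImplicit false

namespace Pool.Agent.BSQ

open Finset MeasureTheory Filter Topology
open scoped BigOperators
open Classical

/-- The strip averages with `M = ⌊N^{7/8}⌋`. -/
private noncomputable def dfn_w (F : ℕ → ℝ) (N : ℕ) : ℝ := WF F N ⌊(N : ℝ) ^ (7 / 8 : ℝ)⌋₊

/-- The error term. -/
private noncomputable def dfn_g (v : ℝ) : ℝ :=
  36 * Real.exp (-v) + 4 * (⌊Real.exp v⌋₊ : ℝ) ^ (-(7 / 8 : ℝ))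

private theorem dfn_sv (F : ℕ → ℝ)
    (hI : ∀ N N' M M' : ℕ, 1 ≤ N → N ≤ N' → 1 ≤ M → M ≤ M' →
      |WF F N M - WF F N' M'| ≤ 4 * (1 - (N : ℝ) ^ 2 * M / ((N' : ℝ) ^ 2 * M')))
    (N N' : ℕ) (hN : 1 ≤ N) (hNN : N ≤ N') :
    |dfn_w F N - dfn_w F N'| ≤ 12 * (1 - (N : ℝ) / N') + 4 * (N' : ℝ) ^ (-(7 / 8 : ℝ)) := by
  have hNr : (1 : ℝ) ≤ N := by exact_mod_cast hN
  have hNNr : (N : ℝ) ≤ N' := by exact_mod_cast hNN
  have hN'r : (1 : ℝ) ≤ N' := hNr.trans hNNr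
  have hA1 : 1 ≤ (N : ℝ) ^ (7 / 8 : ℝ) := Real.one_le_rpow hNr (by norm_num)
  have hAA : (N : ℝ) ^ (7 / 8 : ℝ) ≤ (N' : ℝ) ^ (7 / 8 : ℝ) :=
    Real.rpow_le_rpow (by linarith) hNNr (by norm_num)
  have hM1 : 1 ≤ ⌊(N : ℝ) ^ (7 / 8 : ℝ)⌋₊ := Nat.le_floor (by exact_mod_cast hA1)
  have hMM : ⌊(N : ℝ) ^ (7 / 8 : ℝ)⌋₊ ≤ ⌊(N' : ℝ) ^ (7 / 8 : ℝ)⌋₊ := Nat.floor_le_floor hAA
  have h := hI N N' _ _ hN hNN hM1 hMM
  refine h.trans ?_
  have hML : (N : ℝ) ^ (7 / 8 : ℝ) - 1 ≤ (⌊(N : ℝ) ^ (7 / 8 : ℝ)⌋₊ : ℝ) := by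
    have := Nat.lt_floor_add_one ((N : ℝ) ^ (7 / 8 : ℝ))
    linarith
  have hMU : (⌊(N' : ℝ) ^ (7 / 8 : ℝ)⌋₊ : ℝ) ≤ (N' : ℝ) ^ (7 / 8 : ℝ) :=
    Nat.floor_le (by positivity)
  have hMr : (1 : ℝ) ≤ (⌊(N : ℝ) ^ (7 / 8 : ℝ)⌋₊ : ℝ) := by exact_mod_cast hM1
  have hMMr : (⌊(N : ℝ) ^ (7 / 8 : ℝ)⌋₊ : ℝ) ≤ (⌊(N' : ℝ) ^ (7 / 8 : ℝ)⌋₊ : ℝ) := by
    exact_mod_cast hMM
  generalize (⌊(N : ℝ) ^ (7 / 8 : ℝ)⌋₊ : ℝ) = M at *
  generalize (⌊(N' : ℝ) ^ (7 / 8 : ℝ)⌋₊ : ℝ) = M' at *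
  have hdiv : ((N : ℝ) / N') ^ (7 / 8 : ℝ) = (N : ℝ) ^ (7 / 8 : ℝ) / (N' : ℝ) ^ (7 / 8 : ℝ) :=
    Real.div_rpow (by linarith) (by linarith) _
  have hx0 : 0 < (N : ℝ) / N' := by positivity
  have hx1 : (N : ℝ) / N' ≤ 1 := by
    rw [div_le_one (by linarith)]
    exact hNNr
  have hxp : (N : ℝ) / N' ≤ ((N : ℝ) / N') ^ (7 / 8 : ℝ) := by
    have := Real.rpow_le_rpow_of_exponent_ge hx0 hx1 (by norm_num : (7 / 8 : ℝ) ≤ 1)
    rwa [Real.rpow_one] at this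
  rw [hdiv] at hxp
  have hneg : (N' : ℝ) ^ (-(7 / 8 : ℝ)) = 1 / (N' : ℝ) ^ (7 / 8 : ℝ) := by
    rw [Real.rpow_neg (by linarith), one_div]
  rw [hneg]
  have hA'0 : 1 ≤ (N' : ℝ) ^ (7 / 8 : ℝ) := hA1.trans hAA
  generalize (N : ℝ) ^ (7 / 8 : ℝ) = A at *
  generalize (N' : ℝ) ^ (7 / 8 : ℝ) = A' at *
  have hMM' : A / A' - 1 / A' ≤ M / M' := by
    rw [← sub_div, div_le_div_iff₀ (by linarith) (by linarith)]
    calc (A - 1) * M' ≤ (A - 1) * A' := mul_le_mul_of_nonneg_left hMU (by linarith)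
      _ ≤ M * A' := mul_le_mul_of_nonneg_right hML (by linarith)
  have hrho : (N : ℝ) ^ 2 * M / ((N' : ℝ) ^ 2 * M') = ((N : ℝ) / N') ^ 2 * (M / M') := by
    field_simp
  rw [hrho]
  generalize (N : ℝ) / N' = x at *
  have hinv : 0 ≤ 1 / A' := by positivity
  have h1 : x - 1 / A' ≤ M / M' := by linarith
  have h2 : x ^ 2 * (x - 1 / A') ≤ x ^ 2 * (M / M') := mul_le_mul_of_nonneg_left h1 (by positivity)
  have h3 : x ^ 2 * (1 / A') ≤ 1 / A' := by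
    have : x ^ 2 ≤ 1 := by nlinarith
    nlinarith
  have h4 : 3 * x - 2 ≤ x ^ 3 := by nlinarith [mul_nonneg (sq_nonneg (x - 1)) (by linarith : 0 ≤ x + 2)]
  nlinarith

/-- The function `ψ`. -/
private noncomputable def dfn_psi (F : ℕ → ℝ) (v : ℝ) : ℝ := dfn_w F ⌊Real.exp v⌋₊

private theorem dfn_meas (F : ℕ → ℝ) : Measurable (dfn_psi F) :=
  measurable_from_top.comp (Nat.measurable_floor.comp Real.measurable_exp)

private theorem dfn_floor_tendsto : Tendsto (fun v : ℝ => ⌊Real.exp v⌋₊) atTop atTop :=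
  tendsto_nat_floor_atTop.comp Real.tendsto_exp_atTop

private theorem dfn_g_tendsto : Tendsto dfn_g atTop (𝓝 0) := by
  have h1 : Tendsto (fun v : ℝ => 36 * Real.exp (-v)) atTop (𝓝 (36 * 0)) :=
    (Real.tendsto_exp_neg_atTop_nhds_zero).const_mul 36
  have h2 : Tendsto (fun v : ℝ => 4 * (⌊Real.exp v⌋₊ : ℝ) ^ (-(7 / 8 : ℝ))) atTop (𝓝 (4 * 0)) :=
    ((tendsto_rpow_neg_atTop (by norm_num : (0 : ℝ) < 7 / 8)).comp
      (tendsto_natCast_atTop_atTop.comp dfn_floor_tendsto)).const_mul 4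
  have h3 := h1.add h2
  rw [mul_zero, mul_zero, add_zero] at h3
  exact h3

private theorem dfn_rpow_mono (n m : ℕ) (hn : 1 ≤ n) (hnm : n ≤ m) :
    (m : ℝ) ^ (-(7 / 8 : ℝ)) ≤ (n : ℝ) ^ (-(7 / 8 : ℝ)) := by
  have h1 : (0 : ℝ) < n := by exact_mod_cast hn
  have h2 : (n : ℝ) ≤ m := by exact_mod_cast hnm
  exact Real.rpow_le_rpow_of_nonpos h1 h2 (by norm_num)

/-- Slow variation of `ψ`. -/
private theorem dfn_slow (F : ℕ → ℝ)
    (hI : ∀ N N' M M' : ℕ, 1 ≤ N → N ≤ N' → 1 ≤ M → M ≤ M' →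
      |WF F N M - WF F N' M'| ≤ 4 * (1 - (N : ℝ) ^ 2 * M / ((N' : ℝ) ^ 2 * M')))
    (v h : ℝ) (hv : 0 ≤ v) (hh : 0 ≤ h) : |dfn_psi F (v + h) - dfn_psi F v| ≤ 12 * h + dfn_g v := by
  have hE1 : 1 ≤ Real.exp v := Real.one_le_exp hv
  have hn : 1 ≤ ⌊Real.exp v⌋₊ := Nat.le_floor (by exact_mod_cast hE1)
  have hnn : ⌊Real.exp v⌋₊ ≤ ⌊Real.exp (v + h)⌋₊ :=
    Nat.floor_le_floor (Real.exp_le_exp.mpr (by linarith))
  have h1 := dfn_sv F hI _ _ hn hnn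
  have h2 := dfn_rpow_mono _ _ hn hnn
  rw [abs_sub_comm]
  refine h1.trans ?_
  have h3 : (⌊Real.exp (v + h)⌋₊ : ℝ) ≤ Real.exp (v + h) := Nat.floor_le (Real.exp_pos _).le
  have h4 : Real.exp v - 1 ≤ (⌊Real.exp v⌋₊ : ℝ) := by
    have := Nat.lt_floor_add_one (Real.exp v)
    linarith
  have h5 : (1 : ℝ) ≤ (⌊Real.exp (v + h)⌋₊ : ℝ) := by exact_mod_cast hn.trans hnn
  have h6 : 1 - h - Real.exp (-v) ≤ (⌊Real.exp v⌋₊ : ℝ) / ⌊Real.exp (v + h)⌋₊ := by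
    have h7 : (Real.exp v - 1) / Real.exp (v + h) ≤
        (⌊Real.exp v⌋₊ : ℝ) / ⌊Real.exp (v + h)⌋₊ := by
      rw [div_le_div_iff₀ (Real.exp_pos _) (by linarith)]
      calc (Real.exp v - 1) * (⌊Real.exp (v + h)⌋₊ : ℝ) ≤ (Real.exp v - 1) * Real.exp (v + h) :=
            mul_le_mul_of_nonneg_left h3 (by linarith)
        _ ≤ (⌊Real.exp v⌋₊ : ℝ) * Real.exp (v + h) :=
            mul_le_mul_of_nonneg_right h4 (Real.exp_pos _).le
    refine le_trans ?_ h7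
    have h8 : (Real.exp v - 1) / Real.exp (v + h) = Real.exp (-h) - Real.exp (-v) * Real.exp (-h) := by
      rw [Real.exp_add, Real.exp_neg, Real.exp_neg]
      have := (Real.exp_pos v).ne'
      have := (Real.exp_pos h).ne'
      field_simp
    rw [h8]
    have h9 : 1 - h ≤ Real.exp (-h) := by
      have := Real.add_one_le_exp (-h)
      linarith
    have h10 : Real.exp (-h) ≤ 1 := Real.exp_le_one_iff.mpr (by linarith)
    have h11 : Real.exp (-v) * Real.exp (-h) ≤ Real.exp (-v) :=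
      mul_le_of_le_one_right (Real.exp_pos _).le h10
    linarith
  have h7 : 0 < Real.exp (-v) := Real.exp_pos _
  unfold dfn_g
  linarith

/-- Comparison of the integrand with the term of the sum. -/
private theorem dfn_comp (F : ℕ → ℝ)
    (hI : ∀ N N' M M' : ℕ, 1 ≤ N → N ≤ N' → 1 ≤ M → M ≤ M' →
      |WF F N M - WF F N' M'| ≤ 4 * (1 - (N : ℝ) ^ 2 * M / ((N' : ℝ) ^ 2 * M')))
    (v : ℝ) (hv : 0 ≤ v) (R : ℕ) (hR : 1 ≤ R) (a r : ℝ) (ha : 0 ≤ a) (har : a ≤ r)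
    (hra : r ≤ a + 1 / R) :
    |dfn_psi F (v + Real.log (1 + r ^ 2) / 2) -
      dfn_w F ⌊Real.sqrt (1 + a ^ 2) * (⌊Real.exp v⌋₊ : ℝ)⌋₊| ≤ 12 / R + dfn_g v := by
  have hRr : (0 : ℝ) < R := by exact_mod_cast hR
  have hE1 : 1 ≤ Real.exp v := Real.one_le_exp hv
  have hE0 : 0 < Real.exp v := Real.exp_pos v
  have hn : 1 ≤ ⌊Real.exp v⌋₊ := Nat.le_floor (by exact_mod_cast hE1)
  have hnr : (1 : ℝ) ≤ (⌊Real.exp v⌋₊ : ℝ) := by exact_mod_cast hn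
  have hnE : (⌊Real.exp v⌋₊ : ℝ) ≤ Real.exp v := Nat.floor_le hE0.le
  have hnL : Real.exp v - 1 ≤ (⌊Real.exp v⌋₊ : ℝ) := by
    have := Nat.lt_floor_add_one (Real.exp v)
    linarith
  have hexp : Real.exp (v + Real.log (1 + r ^ 2) / 2) = Real.exp v * Real.sqrt (1 + r ^ 2) := by
    rw [Real.exp_add, Real.exp_half, Real.exp_log (by positivity)]
  have hs1 : 1 ≤ Real.sqrt (1 + a ^ 2) := by
    rw [Real.one_le_sqrt]
    nlinarith [sq_nonneg a]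
  have hst : Real.sqrt (1 + a ^ 2) ≤ Real.sqrt (1 + r ^ 2) := by
    apply Real.sqrt_le_sqrt
    nlinarith
  have hsa : a ≤ Real.sqrt (1 + a ^ 2) := Real.le_sqrt_of_sq_le (by linarith)
  have htr : r ≤ Real.sqrt (1 + r ^ 2) := Real.le_sqrt_of_sq_le (by linarith)
  have hss : Real.sqrt (1 + a ^ 2) ^ 2 = 1 + a ^ 2 := Real.sq_sqrt (by positivity)
  have htt : Real.sqrt (1 + r ^ 2) ^ 2 = 1 + r ^ 2 := Real.sq_sqrt (by positivity)
  unfold dfn_psi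
  rw [hexp]
  generalize Real.sqrt (1 + a ^ 2) = s at *
  generalize Real.sqrt (1 + r ^ 2) = t at *
  have hts : t - s ≤ r - a := by
    have h1 : (t - s) * (t + s) = (r - a) * (r + a) := by nlinarith
    have h2 : (r - a) * (r + a) ≤ (r - a) * (t + s) :=
      mul_le_mul_of_nonneg_left (by linarith) (by linarith)
    rw [← h1] at h2
    exact le_of_mul_le_mul_right h2 (by linarith)
  have h1 : 1 ≤ ⌊s * (⌊Real.exp v⌋₊ : ℝ)⌋₊ := by
    refine Nat.le_floor ?_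
    push_cast
    nlinarith
  have h2 : ⌊s * (⌊Real.exp v⌋₊ : ℝ)⌋₊ ≤ ⌊Real.exp v * t⌋₊ := by
    refine Nat.floor_le_floor ?_
    rw [mul_comm (Real.exp v)]
    exact mul_le_mul hst hnE (by linarith) (by linarith)
  have h3 := dfn_sv F hI _ _ h1 h2
  have h4 : ⌊Real.exp v⌋₊ ≤ ⌊Real.exp v * t⌋₊ := by
    refine Nat.floor_le_floor ?_
    nlinarith
  have h5 := dfn_rpow_mono _ _ hn h4
  rw [abs_sub_comm]
  refine h3.trans ?_
  have h6 : (⌊Real.exp v * t⌋₊ : ℝ) ≤ Real.exp v * t :=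
    Nat.floor_le (mul_nonneg hE0.le (by linarith))
  have h7 : s * (⌊Real.exp v⌋₊ : ℝ) - 1 ≤ (⌊s * (⌊Real.exp v⌋₊ : ℝ)⌋₊ : ℝ) := by
    have := Nat.lt_floor_add_one (s * (⌊Real.exp v⌋₊ : ℝ))
    linarith
  have h8 : (1 : ℝ) ≤ (⌊Real.exp v * t⌋₊ : ℝ) := by exact_mod_cast h1.trans h2
  have h9 : 1 - 1 / R - 3 * Real.exp (-v) ≤
      (⌊s * (⌊Real.exp v⌋₊ : ℝ)⌋₊ : ℝ) / ⌊Real.exp v * t⌋₊ := by
    have hEt : 0 < Real.exp v * t := mul_pos hE0 (by linarith)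
    have h10 : (⌊s * (⌊Real.exp v⌋₊ : ℝ)⌋₊ : ℝ) / (Real.exp v * t) ≤
        (⌊s * (⌊Real.exp v⌋₊ : ℝ)⌋₊ : ℝ) / ⌊Real.exp v * t⌋₊ :=
      div_le_div_of_nonneg_left (by positivity) (by linarith) h6
    refine le_trans ?_ h10
    rw [le_div_iff₀ hEt]
    have h11 : (1 - 1 / R - 3 * Real.exp (-v)) * (Real.exp v * t) =
        Real.exp v * t - Real.exp v * t * (1 / R) - 3 * t := by
      rw [Real.exp_neg]
      field_simp
    rw [h11]
    have h12 : s * (Real.exp v - 1) ≤ s * (⌊Real.exp v⌋₊ : ℝ) :=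
      mul_le_mul_of_nonneg_left hnL (by linarith)
    have h13 : Real.exp v * (t - s) ≤ Real.exp v * (1 / R) :=
      mul_le_mul_of_nonneg_left (by linarith) hE0.le
    have h14 : Real.exp v * (1 / R) ≤ Real.exp v * t * (1 / R) := by
      have h15 : Real.exp v ≤ Real.exp v * t := le_mul_of_one_le_right hE0.le (by linarith)
      exact mul_le_mul_of_nonneg_right h15 (by positivity)
    nlinarith
  unfold dfn_g
  have h16 : (12 : ℝ) / R = 12 * (1 / R) := by ring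
  rw [h16]
  linarith

private theorem dfn_int (F : ℕ → ℝ) (hw : ∀ N, |dfn_w F N| ≤ 2) (v a b : ℝ) :
    IntervalIntegrable (fun r : ℝ => dfn_psi F (v + Real.log (1 + r ^ 2) / 2)) volume a b := by
  have hm : Measurable (fun r : ℝ => dfn_psi F (v + Real.log (1 + r ^ 2) / 2)) := by
    refine (dfn_meas F).comp ?_
    exact ((Real.measurable_log.comp ((measurable_id.pow_const 2).const_add 1)).div_const 2).const_add v
  have h : ∀ c d : ℝ, IntegrableOn (fun r : ℝ => dfn_psi F (v + Real.log (1 + r ^ 2) / 2))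
      (Set.Ioc c d) volume := fun c d =>
    Measure.integrableOn_of_bounded (M := 2) (by simp) hm.aestronglyMeasurable
      (Filter.Eventually.of_forall fun r => hw _)
  exact ⟨h a b, h b a⟩

/-- The Riemann sum. -/
private theorem dfn_riemann (F : ℕ → ℝ)
    (hI : ∀ N N' M M' : ℕ, 1 ≤ N → N ≤ N' → 1 ≤ M → M ≤ M' →
      |WF F N M - WF F N' M'| ≤ 4 * (1 - (N : ℝ) ^ 2 * M / ((N' : ℝ) ^ 2 * M')))
    (hw : ∀ N, |dfn_w F N| ≤ 2) (v : ℝ) (hv : 0 ≤ v) (R : ℕ) (hR : 1 ≤ R) :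
    |(∫ r in (0 : ℝ)..1, dfn_psi F (v + Real.log (1 + r ^ 2) / 2)) -
      (1 / (R : ℝ)) * ∑ j ∈ range R,
        dfn_w F ⌊Real.sqrt (1 + ((j : ℝ) / R) ^ 2) * (⌊Real.exp v⌋₊ : ℝ)⌋₊| ≤
      12 / R + dfn_g v := by
  have hRr : (0 : ℝ) < R := by exact_mod_cast hR
  have h1 : (∫ r in (0 : ℝ)..1, dfn_psi F (v + Real.log (1 + r ^ 2) / 2)) =
      ∑ j ∈ range R, ∫ r in ((j : ℝ) / R)..(((j + 1 : ℕ) : ℝ) / R),
        dfn_psi F (v + Real.log (1 + r ^ 2) / 2) := by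
    rw [intervalIntegral.sum_integral_adjacent_intervals (a := fun j : ℕ => (j : ℝ) / R)
      (fun k _ => dfn_int F hw v _ _)]
    simp only [Nat.cast_zero, zero_div]
    rw [div_self hRr.ne']
  rw [h1, mul_sum, ← sum_sub_distrib]
  refine (abs_sum_le_sum_abs _ _).trans ?_
  have h2 : ∀ j ∈ range R, |(∫ r in ((j : ℝ) / R)..(((j + 1 : ℕ) : ℝ) / R),
      dfn_psi F (v + Real.log (1 + r ^ 2) / 2)) -
      1 / (R : ℝ) * dfn_w F ⌊Real.sqrt (1 + ((j : ℝ) / R) ^ 2) * (⌊Real.exp v⌋₊ : ℝ)⌋₊| ≤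
      (12 / R + dfn_g v) * (1 / R) := by
    intro j _
    have hlen : ((j + 1 : ℕ) : ℝ) / R - (j : ℝ) / R = 1 / R := by
      push_cast
      ring
    have h3 : 1 / (R : ℝ) * dfn_w F ⌊Real.sqrt (1 + ((j : ℝ) / R) ^ 2) * (⌊Real.exp v⌋₊ : ℝ)⌋₊ =
        ∫ _ in ((j : ℝ) / R)..(((j + 1 : ℕ) : ℝ) / R),
          dfn_w F ⌊Real.sqrt (1 + ((j : ℝ) / R) ^ 2) * (⌊Real.exp v⌋₊ : ℝ)⌋₊ := by
      rw [intervalIntegral.integral_const, hlen, smul_eq_mul]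
    rw [h3, ← intervalIntegral.integral_sub (dfn_int F hw v _ _)
      intervalIntegrable_const, ← Real.norm_eq_abs]
    have hle : (j : ℝ) / R ≤ ((j + 1 : ℕ) : ℝ) / R := by
      have : 0 < 1 / (R : ℝ) := by positivity
      linarith
    have h4 := intervalIntegral.norm_integral_le_of_norm_le_const (a := (j : ℝ) / R)
      (b := ((j + 1 : ℕ) : ℝ) / R) (C := 12 / R + dfn_g v)
      (f := fun r : ℝ => dfn_psi F (v + Real.log (1 + r ^ 2) / 2) -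
        dfn_w F ⌊Real.sqrt (1 + ((j : ℝ) / R) ^ 2) * (⌊Real.exp v⌋₊ : ℝ)⌋₊)
      (fun r hr => by
        rw [Set.uIoc_of_le hle] at hr
        refine dfn_comp F hI v hv R hR ((j : ℝ) / R) r (by positivity) hr.1.le ?_
        have := hr.2
        linarith)
    rw [hlen, abs_of_pos (by positivity)] at h4
    exact h4
  refine (sum_le_sum h2).trans (le_of_eq ?_)
  rw [sum_const, card_range, nsmul_eq_mul]
  field_simp

theorem thm_DFN (hDBR : St_DBR) (hTAU : St_TAU) (hINT : St_INT) : St_DFN := by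
  intro F hF hS L hL
  obtain ⟨hI, -, hW, -⟩ := hINT F hF
  have hw : ∀ N, |dfn_w F N| ≤ 2 := fun N => hW _ _
  -- the integral averages of `ψ`
  have hmain : Tendsto (fun v : ℝ => ∫ r in (0 : ℝ)..1,
      dfn_psi F (v + Real.log (1 + r ^ 2) / 2)) atTop (𝓝 L) := by
    rw [Metric.tendsto_nhds]
    intro ε hε
    obtain ⟨R, hR⟩ := exists_nat_gt (80 / ε)
    have hR0 : (0 : ℝ) < R := lt_trans (by positivity) hR
    have hR1 : 1 ≤ R := by exact_mod_cast hR0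
    have hR20 : 20 / (R : ℝ) < ε / 4 := by
      rw [div_lt_iff₀ hε] at hR
      rw [div_lt_iff₀ hR0]
      linarith
    obtain ⟨N0, hN0⟩ := hDBR F hF R hR1
    have e1 : ∀ᶠ v : ℝ in atTop, dfn_g v < ε / 4 := by
      have := dfn_g_tendsto.eventually (gt_mem_nhds (by positivity : (0 : ℝ) < ε / 4))
      exact this
    have e2 : ∀ᶠ v : ℝ in atTop, |BF F ⌊Real.exp v⌋₊ - L| < ε / 8 := by
      have h := (hL.comp dfn_floor_tendsto)
      rw [Metric.tendsto_nhds] at h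
      exact h (ε / 8) (by positivity)
    have e3 : ∀ᶠ v : ℝ in atTop, N0 ≤ ⌊Real.exp v⌋₊ :=
      dfn_floor_tendsto.eventually (eventually_ge_atTop N0)
    have e4 : ∀ᶠ v : ℝ in atTop, ∀ j ∈ range R,
        |SF F R j ⌊Real.sqrt (1 + ((j : ℝ) / R) ^ 2) * (⌊Real.exp v⌋₊ : ℝ)⌋₊ -
          dfn_w F ⌊Real.sqrt (1 + ((j : ℝ) / R) ^ 2) * (⌊Real.exp v⌋₊ : ℝ)⌋₊| < ε / 8 := by
      rw [eventually_all_finset]
      intro j hj
      have hs : 0 < Real.sqrt (1 + ((j : ℝ) / R) ^ 2) := Real.sqrt_pos.mpr (by positivity)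
      have h1 : Tendsto (fun v : ℝ =>
          ⌊Real.sqrt (1 + ((j : ℝ) / R) ^ 2) * (⌊Real.exp v⌋₊ : ℝ)⌋₊) atTop atTop :=
        tendsto_nat_floor_atTop.comp
          ((tendsto_natCast_atTop_atTop.comp dfn_floor_tendsto).const_mul_atTop hs)
      have h2 := (hS R j hR1 (mem_range.mp hj)).comp h1
      rw [Metric.tendsto_nhds] at h2
      refine (h2 (ε / 8) (by positivity)).mono fun v hv => ?_
      rw [Real.dist_eq, sub_zero] at hv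
      exact hv
    filter_upwards [e1, e2, e3, e4, eventually_ge_atTop (0 : ℝ)] with v h1 h2 h3 h4 h5
    have h6 := dfn_riemann F hI hw v h5 R hR1
    have h7 := hN0 _ h3
    have h8 : |(1 / (R : ℝ)) * ∑ j ∈ range R,
        SF F R j ⌊Real.sqrt (1 + ((j : ℝ) / R) ^ 2) * (⌊Real.exp v⌋₊ : ℝ)⌋₊ -
        (1 / (R : ℝ)) * ∑ j ∈ range R,
        dfn_w F ⌊Real.sqrt (1 + ((j : ℝ) / R) ^ 2) * (⌊Real.exp v⌋₊ : ℝ)⌋₊| ≤ ε / 8 := by
      rw [← mul_sub, ← sum_sub_distrib, abs_mul, abs_of_pos (by positivity)]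
      calc 1 / (R : ℝ) * |∑ j ∈ range R,
            (SF F R j ⌊Real.sqrt (1 + ((j : ℝ) / R) ^ 2) * (⌊Real.exp v⌋₊ : ℝ)⌋₊ -
            dfn_w F ⌊Real.sqrt (1 + ((j : ℝ) / R) ^ 2) * (⌊Real.exp v⌋₊ : ℝ)⌋₊)|
          ≤ 1 / (R : ℝ) * ∑ j ∈ range R, ε / 8 := by
            refine mul_le_mul_of_nonneg_left ?_ (by positivity)
            exact (abs_sum_le_sum_abs _ _).trans (sum_le_sum fun j hj => (h4 j hj).le)
        _ = ε / 8 := by
          rw [sum_const, card_range, nsmul_eq_mul]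
          field_simp
    have h9 : (20 : ℝ) / R = 12 / R + 8 / R := by ring
    rw [Real.dist_eq, abs_lt]
    rw [abs_le] at h6 h7 h8
    rw [abs_lt] at h2
    constructor <;> linarith [h6.1, h6.2, h7.1, h7.2, h8.1, h8.2, h2.1, h2.2]
  have hpsi : Tendsto (dfn_psi F) atTop (𝓝 L) := by
    refine hTAU (dfn_psi F) 2 12 L (dfn_meas F) (fun v => hw _) ?_ hmain
    intro δ hδ
    have h1 := dfn_g_tendsto.eventually (gt_mem_nhds hδ)
    obtain ⟨V, hV⟩ := eventually_atTop.mp h1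
    refine ⟨max V 0, fun v h hv hh _ => ?_⟩
    have h2 := dfn_slow F hI v h (le_trans (le_max_right _ _) hv) hh
    have h3 := hV v (le_trans (le_max_left _ _) hv)
    linarith
  have h1 : Tendsto (fun N : ℕ => Real.log ((N : ℝ) + 1 / 2)) atTop atTop :=
    Real.tendsto_log_atTop.comp (tendsto_atTop_add_const_right _ _ tendsto_natCast_atTop_atTop)
  have h2 := hpsi.comp h1
  refine h2.congr fun N => ?_
  show dfn_w F ⌊Real.exp (Real.log ((N : ℝ) + 1 / 2))⌋₊ = dfn_w F N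
  rw [Real.exp_log (by positivity)]
  congr 1
  rw [Nat.floor_eq_iff (by positivity)]
  constructor <;> linarith

end Pool.Agent.BSQ
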