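import Pool.Agent.BSQ.StA

/-!
# BSQ, ENER (helper25): the energy of `Fl` on three tiles
-/

set_option autoImplicit false

namespace Pool.Agent.BSQ

open Finset MeasureTheory Filter Topology
open scoped BigOperators
open Classical

private theorem ener_tiles {P H : ℕ} [NeZero P] {f : ZMod P → ℂ} (hf : TileE H f)
    (S : Finset ℕ) : ∑ w ∈ univ.filter (fun w : ZMod P => tl H w ∈ S), ‖f w‖ ^ 2 ≤ S.card * H := by
  rw [← sum_fiberwise_of_maps_to (s := univ.filter (fun w : ZMod P => tl H w ∈ S)) (t := S)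
    (g := tl H) (fun w hw => (mem_filter.1 hw).2)]
  calc ∑ t ∈ S, ∑ w ∈ (univ.filter (fun w : ZMod P => tl H w ∈ S)).filter
        (fun w => tl H w = t), ‖f w‖ ^ 2 ≤ ∑ _t ∈ S, (H : ℝ) := by
        refine sum_le_sum fun t _ => ?_
        refine le_trans ?_ (hf t)
        refine sum_le_sum_of_subset_of_nonneg ?_ fun _ _ _ => by positivity
        intro w hw
        rw [mem_filter] at hw ⊢
        exact ⟨mem_univ _, hw.2⟩
    _ = S.card * H := by rw [sum_const, nsmul_eq_mul]

private theorem ener_tl {P H T : ℕ} [NeZero P] (hP : P = H * T) (hH : 1 ≤ H)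
    (hHP : 2 * H + 1 ≤ P) (u : ZMod P) (l : ℤ) (h1 : -(H : ℤ) ≤ l) (h2 : l ≤ H) :
    ∃ j < 3, tl H (u + (l : ZMod P)) = (tl H u + T - 1 + j) % T := by
  obtain ⟨b, hb⟩ : ∃ b : ℕ, (b : ℤ) = u.val + P + l := by
    refine ⟨((u.val : ℤ) + P + l).toNat, Int.toNat_of_nonneg ?_⟩
    have : (0 : ℤ) ≤ (u.val : ℤ) := Int.natCast_nonneg _
    omega
  have hw : u + (l : ZMod P) = (b : ZMod P) := by
    have h3 : ((b : ℤ) : ZMod P) = ((u.val + P + l : ℤ) : ZMod P) := by rw [hb]
    push_cast at h3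
    rw [h3, ZMod.natCast_zmod_val, ZMod.natCast_self, add_zero]
  have hval : (u + (l : ZMod P)).val = b % P := by rw [hw, ZMod.val_natCast]
  have hT : 1 ≤ T := by
    rcases Nat.eq_zero_or_pos T with h | h
    · rw [h, mul_zero] at hP
      omega
    · exact h
  have htl : tl H (u + (l : ZMod P)) = b / H % T := by
    unfold tl
    rw [hval, hP, Nat.mod_mul_right_div_self]
  obtain ⟨t, ht⟩ : ∃ t, t = tl H u := ⟨_, rfl⟩
  have hu1 : H * t ≤ u.val := by
    rw [ht]
    exact Nat.mul_div_le _ _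
  have hu2 : u.val < H * (t + 1) := by
    rw [ht]
    unfold tl
    have h3 := Nat.lt_mul_div_succ u.val (show 0 < H by omega)
    exact h3
  have hb1 : H * (t + T - 1) ≤ b := by
    have h3 : H * (t + T - 1) + H = H * t + H * T := by
      obtain ⟨T', rfl⟩ : ∃ T', T = T' + 1 := ⟨T - 1, by omega⟩
      have h4 : t + (T' + 1) - 1 = t + T' := by omega
      rw [h4]
      ring
    rw [← hP] at h3
    omega
  have hb2 : b < H * (t + T - 1 + 3) := by
    have h3 : H * (t + T - 1 + 3) = H * (t + 1) + H * T + H := by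
      obtain ⟨T', rfl⟩ : ∃ T', T = T' + 1 := ⟨T - 1, by omega⟩
      have h4 : t + (T' + 1) - 1 = t + T' := by omega
      rw [h4]
      ring
    rw [← hP] at h3
    omega
  have h5 : t + T - 1 ≤ b / H := by
    rw [Nat.le_div_iff_mul_le (by omega), mul_comm]
    exact hb1
  have h6 : b / H < t + T - 1 + 3 := by
    rw [Nat.div_lt_iff_lt_mul (by omega), mul_comm]
    exact hb2
  refine ⟨b / H - (t + T - 1), by omega, ?_⟩
  rw [htl, ← ht]
  congr 1
  omega

/-- **ENER.** -/
theorem thm_ENER : St_ENER := by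
  intro P H T _ f hP hH hHP hf
  have hPr : (P : ℝ) = H * T := by
    rw [hP]
    push_cast
    ring
  have hmain : ∑ u : ZMod P, ‖f u‖ ^ 2 ≤ P := by
    have h1 := ener_tiles hf (range T)
    have h2 : univ.filter (fun w : ZMod P => tl H w ∈ range T) = univ := by
      rw [filter_eq_self]
      intro w _
      rw [mem_range]
      unfold tl
      rw [Nat.div_lt_iff_lt_mul (by omega), mul_comm, ← hP]
      exact ZMod.val_lt w
    rw [h2, card_range] at h1
    rw [hPr]
    linarith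
  refine ⟨hmain, ?_⟩
  rw [sum_comm]
  have hu : ∀ u : ZMod P, ∑ l ∈ Icc (-(H : ℤ)) (H : ℤ), ‖Fl f l u‖ ^ 2 ≤
      ‖f u‖ ^ 2 * (3 * H) := by
    intro u
    have h1 : ∀ l : ℤ, ‖Fl f l u‖ ^ 2 = ‖f u‖ ^ 2 * ‖f (u + (l : ZMod P))‖ ^ 2 := by
      intro l
      unfold Fl
      rw [norm_mul, RCLike.norm_conj, mul_pow]
    simp only [h1]
    rw [← mul_sum]
    refine mul_le_mul_of_nonneg_left ?_ (by positivity)
    have hinj : Set.InjOn (fun l : ℤ => u + (l : ZMod P)) (Icc (-(H : ℤ)) (H : ℤ) : Finset ℤ) := by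
      intro l hl l' hl' h
      rw [mem_coe, mem_Icc] at hl hl'
      have h3 : (l : ZMod P) = (l' : ZMod P) := add_left_cancel h
      rw [ZMod.intCast_eq_intCast_iff] at h3
      have h4 : (P : ℤ) ∣ l' - l := h3.dvd
      have h5 : l' - l = 0 := by
        apply Int.eq_zero_of_abs_lt_dvd h4
        rw [abs_lt]
        constructor <;> omega
      omega
    rw [← sum_image (f := fun w : ZMod P => ‖f w‖ ^ 2) (g := fun l : ℤ => u + (l : ZMod P)) hinj]
    set S : Finset ℕ := (range 3).image (fun j => (tl H u + T - 1 + j) % T) with hS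
    have h2 : ∑ w ∈ (Icc (-(H : ℤ)) (H : ℤ)).image (fun l : ℤ => u + (l : ZMod P)), ‖f w‖ ^ 2 ≤
        ∑ w ∈ univ.filter (fun w : ZMod P => tl H w ∈ S), ‖f w‖ ^ 2 := by
      refine sum_le_sum_of_subset_of_nonneg ?_ fun _ _ _ => by positivity
      intro w hw
      obtain ⟨l, hl, rfl⟩ := mem_image.1 hw
      rw [mem_Icc] at hl
      obtain ⟨j, hj, hjt⟩ := ener_tl hP hH hHP u l hl.1 hl.2
      rw [mem_filter]
      refine ⟨mem_univ _, ?_⟩
      rw [hS, mem_image]
      exact ⟨j, mem_range.2 hj, hjt.symm⟩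
    have h3 : (S.card : ℝ) ≤ 3 := by
      have h4 : S.card ≤ (range 3).card := card_image_le
      rw [card_range] at h4
      exact_mod_cast h4
    have h4 := ener_tiles hf S
    have h5 : (S.card : ℝ) * H ≤ 3 * H := mul_le_mul_of_nonneg_right h3 (Nat.cast_nonneg _)
    linarith
  have h1 := sum_le_sum fun u (_ : u ∈ (univ : Finset (ZMod P))) => hu u
  rw [← sum_mul] at h1
  have h2 : (∑ u : ZMod P, ‖f u‖ ^ 2) * (3 * (H : ℝ)) ≤ P * (3 * H) :=
    mul_le_mul_of_nonneg_right hmain (by positivity)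
  linarith

end Pool.Agent.BSQ
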