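import Pool.Agent.BSQ.StA

/-! # BSQ FB: Fourier analysis on `ZMod P` -/

set_option autoImplicit false

namespace Pool.Agent.BSQ

open Finset MeasureTheory Filter Topology
open scoped BigOperators
open Classical

theorem fb_add {P : ℕ} [NeZero P] (b u v : ZMod P) : ch b (u + v) = ch b u * ch b v := by
  unfold ch
  rw [mul_add, AddChar.map_add_eq_mul]

theorem fb_add' {P : ℕ} [NeZero P] (b c u : ZMod P) : ch (b + c) u = ch b u * ch c u := by
  unfold ch
  rw [add_mul, AddChar.map_add_eq_mul]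

theorem fb_norm {P : ℕ} [NeZero P] (b u : ZMod P) : ‖ch b u‖ = 1 := by
  unfold ch
  rw [ZMod.stdAddChar_apply, Circle.norm_coe]

theorem fb_neg {P : ℕ} [NeZero P] (b u : ZMod P) : ch (-b) u = (starRingEnd ℂ) (ch b u) := by
  unfold ch
  rw [neg_mul, AddChar.map_neg_eq_conj]

theorem fb_zero {P : ℕ} [NeZero P] (b : ZMod P) : ch b 0 = 1 := by
  unfold ch
  rw [mul_zero, AddChar.map_zero_eq_one]

theorem fb_sum {P : ℕ} [NeZero P] (u : ZMod P) :
    ∑ b : ZMod P, ch b u = if u = 0 then (P : ℂ) else 0 := by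
  have h := AddChar.sum_mulShift (R := ZMod P) (ψ := ZMod.stdAddChar (N := P)) u
    (ZMod.isPrimitive_stdAddChar P)
  unfold ch
  rw [h, ZMod.card]
  split_ifs
  · rfl
  · exact Nat.cast_zero

theorem fb_P {P : ℕ} [NeZero P] : (P : ℂ) ≠ 0 := Nat.cast_ne_zero.2 (NeZero.ne P)

theorem fb_bil {P : ℕ} [NeZero P] (F G : ZMod P → ℂ) (s : ZMod P) :
    ∑ u : ZMod P, F u * G (u - s) =
      (1 / (P : ℂ)) * ∑ b : ZMod P, ft F b * ft G (-b) * ch b s := by
  have h1 : ∀ b : ZMod P, ft F b * ft G (-b) * ch b s =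
      ∑ u : ZMod P, ∑ v : ZMod P, F u * G v * ch b (v + s - u) := by
    intro b
    unfold ft
    rw [Finset.sum_mul_sum, Finset.sum_mul]
    refine Finset.sum_congr rfl fun u _ => ?_
    rw [Finset.sum_mul]
    refine Finset.sum_congr rfl fun v _ => ?_
    have h2 : ch b (v + s - u) = ch b v * ch b s * ch (-b) u := by
      rw [sub_eq_add_neg, fb_add, fb_add]
      congr 1
      unfold ch
      rw [mul_neg, neg_mul]
    rw [h2, neg_neg]
    ring
  simp only [h1]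
  rw [Finset.sum_comm, Finset.mul_sum]
  refine Finset.sum_congr rfl fun u _ => ?_
  rw [Finset.sum_comm]
  have h3 : ∀ v : ZMod P, ∑ b : ZMod P, F u * G v * ch b (v + s - u) =
      if v = u - s then F u * G v * P else 0 := by
    intro v
    rw [← Finset.mul_sum, fb_sum]
    have h4 : v + s - u = 0 ↔ v = u - s := by
      rw [sub_eq_zero, eq_sub_iff_add_eq]
    simp only [h4]
    split_ifs <;> simp
  simp only [h3]
  rw [Finset.sum_ite_eq' Finset.univ (u - s), if_pos (Finset.mem_univ _)]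
  rw [mul_comm _ (P : ℂ), ← mul_assoc, one_div_mul_cancel fb_P, one_mul]

theorem fb_pars {P : ℕ} [NeZero P] (F : ZMod P → ℂ) :
    ∑ b : ZMod P, ‖ft F b‖ ^ 2 = P * ∑ u : ZMod P, ‖F u‖ ^ 2 := by
  have h := fb_bil F (fun u => (starRingEnd ℂ) (F u)) 0
  have h1 : ∀ b : ZMod P, ft F b * ft (fun u => (starRingEnd ℂ) (F u)) (-b) * ch b 0 =
      ((‖ft F b‖ ^ 2 : ℝ) : ℂ) := by
    intro b
    have h2 : ft (fun u => (starRingEnd ℂ) (F u)) (-b) = (starRingEnd ℂ) (ft F b) := by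
      unfold ft
      rw [map_sum]
      refine Finset.sum_congr rfl fun u _ => ?_
      rw [map_mul, fb_neg, fb_neg]
    rw [fb_zero, mul_one, h2, Complex.mul_conj, Complex.normSq_eq_norm_sq]
  have h3 : ∀ u : ZMod P, F u * (fun u => (starRingEnd ℂ) (F u)) (u - 0) =
      ((‖F u‖ ^ 2 : ℝ) : ℂ) := by
    intro u
    show F u * (starRingEnd ℂ) (F (u - 0)) = _
    rw [sub_zero, Complex.mul_conj, Complex.normSq_eq_norm_sq]
  simp only [h1, h3] at h
  rw [← Complex.ofReal_sum, ← Complex.ofReal_sum] at h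
  have h4 : ((∑ b : ZMod P, ‖ft F b‖ ^ 2 : ℝ) : ℂ) = ((P * ∑ u : ZMod P, ‖F u‖ ^ 2 : ℝ) : ℂ) := by
    rw [Complex.ofReal_mul, h, Complex.ofReal_natCast, ← mul_assoc, mul_one_div_cancel fb_P,
      one_mul]
  exact_mod_cast h4

theorem fb_conv {P : ℕ} [NeZero P] (S : Finset ℕ) (a : ℕ → ℂ) (g : ZMod P → ℂ) (b : ZMod P) :
    ft (fun y => ∑ k ∈ S, a k * g (y - (k : ZMod P))) b =
      (∑ k ∈ S, a k * ch (-b) (k : ZMod P)) * ft g b := by
  unfold ft
  simp only [Finset.sum_mul]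
  rw [Finset.sum_comm]
  refine Finset.sum_congr rfl fun k _ => ?_
  rw [Finset.mul_sum]
  rw [← Equiv.sum_comp (Equiv.addRight (k : ZMod P))
    (fun u => a k * g (u - (k : ZMod P)) * ch (-b) u)]
  refine Finset.sum_congr rfl fun u _ => ?_
  show a k * g (u + (k : ZMod P) - (k : ZMod P)) * ch (-b) (u + (k : ZMod P)) = _
  rw [add_sub_cancel_right, fb_add]
  ring

theorem thm_FB : St_FB := by
  intro P _
  refine ⟨?_, fb_add, fb_add', fb_norm, fb_neg, fb_pars, fb_bil, ?_⟩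
  · intro b k
    unfold ch ee
    have h1 : b * (k : ZMod P) = (((b.val : ℤ) * (k : ℤ) : ℤ) : ZMod P) := by
      push_cast
      rw [ZMod.natCast_zmod_val]
    rw [h1, ZMod.stdAddChar_coe]
    congr 1
    push_cast
    ring
  · intro S a g C hC h
    have h1 := fb_pars (fun y => ∑ k ∈ S, a k * g (y - (k : ZMod P)))
    have h2 := fb_pars g
    have h3 : ∑ b : ZMod P, ‖ft (fun y => ∑ k ∈ S, a k * g (y - (k : ZMod P))) b‖ ^ 2 ≤
        C ^ 2 * ∑ b : ZMod P, ‖ft g b‖ ^ 2 := by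
      rw [Finset.mul_sum]
      refine Finset.sum_le_sum fun b _ => ?_
      rw [fb_conv, norm_mul, mul_pow]
      exact mul_le_mul_of_nonneg_right (pow_le_pow_left₀ (norm_nonneg _) (h b) 2) (sq_nonneg _)
    rw [h1, h2] at h3
    have hP : (0 : ℝ) < P := Nat.cast_pos.2 (NeZero.pos P)
    have h4 : (P : ℝ) * ∑ y : ZMod P, ‖∑ k ∈ S, a k * g (y - (k : ZMod P))‖ ^ 2 ≤
        P * (C ^ 2 * ∑ y : ZMod P, ‖g y‖ ^ 2) := by
      calc _ ≤ _ := h3
        _ = _ := by ring
    exact le_of_mul_le_mul_left h4 hP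

end Pool.Agent.BSQ
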