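import Pool.Agent.BSQ.StA

/-!
# BSQ, module FSC (choice of parameters, strip against sector)
-/

set_option autoImplicit false

namespace Pool.Agent.BSQ

open Finset MeasureTheory Filter Topology
open scoped BigOperators
open Classical

/-- basic size relations -/
theorem fsc_size (L N M : ℕ) (hL : 10 ≤ L) (hM : 1 ≤ M) (h1 : L ^ 1200 * N ^ 3 ≤ M ^ 4)
    (h2 : L ^ 100 * M ≤ N) :
    M ≤ N ∧ L ^ 1500 ≤ M ∧ L ^ 1200 * N ≤ M ^ 2 ∧ L ^ 200 * M ^ 2 ≤ N ^ 2 := by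
  have hp : ∀ a : ℕ, 1 ≤ L ^ a := fun a => Nat.one_le_pow _ _ (by omega)
  have hMN : M ≤ N := le_trans (Nat.le_mul_of_pos_left M (hp 100)) h2
  refine ⟨hMN, ?_, ?_, ?_⟩
  · have h3 : L ^ 1200 * (L ^ 100 * M) ^ 3 ≤ M ^ 4 :=
      le_trans (Nat.mul_le_mul_left _ (Nat.pow_le_pow_left h2 3)) h1
    have e : L ^ 1200 * (L ^ 100 * M) ^ 3 = L ^ 1500 * M ^ 3 := by ring
    have e2 : M ^ 4 = M * M ^ 3 := by ring
    rw [e, e2] at h3
    exact Nat.le_of_mul_le_mul_right h3 (by positivity)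
  · have h3 : M ^ 4 ≤ M ^ 2 * N ^ 2 := by
      calc M ^ 4 = M ^ 2 * M ^ 2 := by ring
        _ ≤ M ^ 2 * N ^ 2 := Nat.mul_le_mul_left _ (Nat.pow_le_pow_left hMN 2)
    have h4 : (L ^ 1200 * N) * N ^ 2 ≤ M ^ 2 * N ^ 2 := by
      calc (L ^ 1200 * N) * N ^ 2 = L ^ 1200 * N ^ 3 := by ring
        _ ≤ M ^ 4 := h1
        _ ≤ M ^ 2 * N ^ 2 := h3
    exact Nat.le_of_mul_le_mul_right h4 (by
      have : 0 < N := by omega
      positivity)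
  · calc L ^ 200 * M ^ 2 = (L ^ 100 * M) ^ 2 := by ring
      _ ≤ N ^ 2 := Nat.pow_le_pow_left h2 2

/-- the choice of the window parameters -/
theorem fsc_par (L N M R : ℕ) (hL : 10 ≤ L) (hM : 1 ≤ M) (hR : 1 ≤ R) (hRL : R ≤ L)
    (h1 : L ^ 1200 * N ^ 3 ≤ M ^ 4) (h2 : L ^ 100 * M ≤ N) :
    ∃ H ell H2 s : ℕ, H * L ≤ M ^ 2 ∧ L ^ 2 ≤ H / (2 * M) ∧ L ^ 2 ≤ H / (2 * N) ∧
      H2 * s * L ^ 166 ≤ H ∧ 1 ≤ s ∧ 1 ≤ H2 ∧ R * N * ell * L ^ 83 ≤ H2 * s ∧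
      512 * (L ^ 83) ^ 4 ≤ ell ∧ 202 * (L ^ 83) ^ 5 * H2 ≤ ell ^ 2 ∧
      96 * R * N * (L ^ 83) ^ 3 ≤ H2 := by
  obtain ⟨hMN, g1, g2, g3⟩ := fsc_size L N M hL hM h1 h2
  have hL0 : 0 < L := by omega
  have hp : ∀ a : ℕ, 1 ≤ L ^ a := fun a => Nat.one_le_pow _ _ hL0
  have hpp : ∀ a b : ℕ, a ≤ b → L ^ a ≤ L ^ b := fun a b h => Nat.pow_le_pow_right hL0 h
  have hN : 0 < N := by omega
  have h6 : 1000000 ≤ L ^ 6 := by
    calc 1000000 = 10 ^ 6 := by norm_num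
      _ ≤ L ^ 6 := Nat.pow_le_pow_left hL 6
  obtain ⟨H, hH⟩ : ∃ H, H = M ^ 2 / L := ⟨_, rfl⟩
  have hHL : H * L ≤ M ^ 2 := hH ▸ Nat.div_mul_le_self _ _
  have hHL2 : M ^ 2 < (H + 1) * L := by
    rw [hH]
    exact (Nat.div_lt_iff_lt_mul hL0).1 (Nat.lt_succ_self _)
  obtain ⟨h0, hh0⟩ : ∃ h0, h0 = H / L ^ 166 := ⟨_, rfl⟩
  have hh1 : h0 * L ^ 166 ≤ H := hh0 ▸ Nat.div_mul_le_self _ _
  have hh2 : H < (h0 + 1) * L ^ 166 := by
    rw [hh0]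
    exact (Nat.div_lt_iff_lt_mul (hp 166)).1 (Nat.lt_succ_self _)
  obtain ⟨D, hD⟩ : ∃ D, D = 2 * N * R * L ^ 83 := ⟨_, rfl⟩
  have hD0 : 0 < D := by
    rw [hD]
    have := hp 83
    positivity
  have hDN : 2 * N ≤ D := by
    rw [hD, mul_assoc (2 * N)]
    exact Nat.le_mul_of_pos_right _ (Nat.mul_pos hR (hp 83))
  obtain ⟨ell, hell⟩ : ∃ ell, ell = h0 / D := ⟨_, rfl⟩
  have he1 : ell * D ≤ h0 := hell ▸ Nat.div_mul_le_self _ _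
  have he2 : h0 < (ell + 1) * D := by
    rw [hell]
    exact (Nat.div_lt_iff_lt_mul hD0).1 (Nat.lt_succ_self _)
  -- lower bound for `ell`
  have k0 : M ^ 2 < (ell + 1) * (2 * N * L ^ 251) := by
    calc M ^ 2 < (H + 1) * L := hHL2
      _ ≤ ((h0 + 1) * L ^ 166) * L := Nat.mul_le_mul_right _ hh2
      _ ≤ (((ell + 1) * D) * L ^ 166) * L :=
        Nat.mul_le_mul_right _ (Nat.mul_le_mul_right _ he2)
      _ = (ell + 1) * (2 * N * L ^ 250) * R := by rw [hD]; ring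
      _ ≤ (ell + 1) * (2 * N * L ^ 250) * L := Nat.mul_le_mul_left _ hRL
      _ = (ell + 1) * (2 * N * L ^ 251) := by ring
  have k1 : L ^ 949 < 2 * (ell + 1) := by
    have h3 : L ^ 949 * (L ^ 251 * N) < 2 * (ell + 1) * (L ^ 251 * N) := by
      calc L ^ 949 * (L ^ 251 * N) = L ^ 1200 * N := by ring
        _ ≤ M ^ 2 := g2
        _ < (ell + 1) * (2 * N * L ^ 251) := k0
        _ = 2 * (ell + 1) * (L ^ 251 * N) := by ring
    exact Nat.lt_of_mul_lt_mul_right h3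
  have k2 : 1000000 * L ^ 332 ≤ L ^ 949 := by
    calc 1000000 * L ^ 332 ≤ L ^ 6 * L ^ 332 := Nat.mul_le_mul_right _ h6
      _ = L ^ 338 := by ring
      _ ≤ L ^ 949 := hpp _ _ (by norm_num)
  have k3 : 512 * L ^ 332 ≤ ell := by omega
  have k4 : 1 ≤ ell := by
    have := hp 332
    omega
  -- lower bound for `H2`
  obtain ⟨H2, hH2⟩ : ∃ H2, H2 = ell ^ 2 / (202 * L ^ 415) := ⟨_, rfl⟩
  have hc0 : 0 < 202 * L ^ 415 := by
    have := hp 415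
    omega
  have hm1 : H2 * (202 * L ^ 415) ≤ ell ^ 2 := hH2 ▸ Nat.div_mul_le_self _ _
  have hm2 : ell ^ 2 < (H2 + 1) * (202 * L ^ 415) := by
    rw [hH2]
    exact (Nat.div_lt_iff_lt_mul hc0).1 (Nat.lt_succ_self _)
  have k5 : L ^ 698 * N < 16 * ell ^ 2 := by
    have h3 : M ^ 2 < 4 * ell * (N * L ^ 251) := by
      calc M ^ 2 < (ell + 1) * (2 * N * L ^ 251) := k0
        _ ≤ (2 * ell) * (2 * N * L ^ 251) := Nat.mul_le_mul_right _ (by omega)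
        _ = 4 * ell * (N * L ^ 251) := by ring
    have h4 : L ^ 698 * N * (L ^ 502 * N ^ 2) < 16 * ell ^ 2 * (L ^ 502 * N ^ 2) := by
      calc L ^ 698 * N * (L ^ 502 * N ^ 2) = L ^ 1200 * N ^ 3 := by ring
        _ ≤ M ^ 4 := h1
        _ = (M ^ 2) ^ 2 := by ring
        _ < (4 * ell * (N * L ^ 251)) ^ 2 := Nat.pow_lt_pow_left h3 (by norm_num)
        _ = 16 * ell ^ 2 * (L ^ 502 * N ^ 2) := by ring
    exact Nat.lt_of_mul_lt_mul_right h4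
  have k6 : L ^ 283 * N < 3232 * (H2 + 1) := by
    have h3 : L ^ 283 * N * L ^ 415 < 3232 * (H2 + 1) * L ^ 415 := by
      calc L ^ 283 * N * L ^ 415 = L ^ 698 * N := by ring
        _ < 16 * ell ^ 2 := k5
        _ ≤ 16 * ((H2 + 1) * (202 * L ^ 415)) := Nat.mul_le_mul_left _ hm2.le
        _ = 3232 * (H2 + 1) * L ^ 415 := by ring
    exact Nat.lt_of_mul_lt_mul_right h3
  have k7 : 1000000 * (L ^ 250 * N) ≤ L ^ 283 * N := by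
    calc 1000000 * (L ^ 250 * N) ≤ L ^ 6 * (L ^ 250 * N) := Nat.mul_le_mul_right _ h6
      _ = L ^ 256 * N := by ring
      _ ≤ L ^ 283 * N := Nat.mul_le_mul_right _ (hpp _ _ (by norm_num))
  have k8 : 1 ≤ L ^ 250 * N := Nat.mul_pos (hp 250) hN
  have k9 : 96 * (L ^ 250 * N) ≤ H2 := by omega
  have hH21 : 1 ≤ H2 := by omega
  -- upper bound for `H2`
  have hH : H ≤ M ^ 2 := le_trans (Nat.le_mul_of_pos_right _ hL0) hHL
  have hh0H : h0 ≤ H := le_trans (Nat.le_mul_of_pos_right _ (hp 166)) hh1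
  have hellN : ell ≤ N := by
    have h3 : ell * N ≤ N * N := by
      calc ell * N ≤ ell * D := Nat.mul_le_mul_left _ (by omega)
        _ ≤ h0 := he1
        _ ≤ M ^ 2 := hh0H.trans hH
        _ ≤ N ^ 2 := Nat.pow_le_pow_left hMN 2
        _ = N * N := by ring
    exact Nat.le_of_mul_le_mul_right h3 hN
  have hH2e : H2 ≤ ell ^ 2 := le_trans (Nat.le_mul_of_pos_right _ hc0) hm1
  have hH2h : 2 * H2 ≤ h0 := by
    calc 2 * H2 ≤ 2 * ell ^ 2 := Nat.mul_le_mul_left _ hH2e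
      _ = ell * (2 * ell) := by ring
      _ ≤ ell * D := Nat.mul_le_mul_left _ (by omega)
      _ ≤ h0 := he1
  obtain ⟨s, hs⟩ : ∃ s, s = h0 / H2 := ⟨_, rfl⟩
  have hs1 : s * H2 ≤ h0 := hs ▸ Nat.div_mul_le_self _ _
  have hs2 : h0 < (s + 1) * H2 := by
    rw [hs]
    exact (Nat.div_lt_iff_lt_mul hH21).1 (Nat.lt_succ_self _)
  have hs3 : 1 ≤ s := by
    rw [hs]
    exact (Nat.one_le_div_iff hH21).2 (by omega)
  have hs4 : h0 < 2 * (H2 * s) := by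
    have e : (s + 1) * H2 = H2 * s + H2 := by ring
    rw [e] at hs2
    omega
  refine ⟨H, ell, H2, s, hHL, ?_, ?_, ?_, hs3, hH21, ?_, ?_, ?_, ?_⟩
  · rw [Nat.le_div_iff_mul_le (by omega)]
    by_contra hcon
    push Not at hcon
    have h3 : M * M < (2 * L ^ 3) * M := by
      calc M * M = M ^ 2 := by ring
        _ < (H + 1) * L := hHL2
        _ ≤ (L ^ 2 * (2 * M)) * L := Nat.mul_le_mul_right _ hcon
        _ = (2 * L ^ 3) * M := by ring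
    have h4 := Nat.lt_of_mul_lt_mul_right h3
    have h5 : 10 * L ^ 3 ≤ L ^ 1500 := by
      calc 10 * L ^ 3 ≤ L * L ^ 3 := Nat.mul_le_mul_right _ hL
        _ = L ^ 4 := by ring
        _ ≤ L ^ 1500 := hpp _ _ (by norm_num)
    have := hp 3
    omega
  · rw [Nat.le_div_iff_mul_le (by omega)]
    by_contra hcon
    push Not at hcon
    have h3 : L ^ 1200 * N < (2 * L ^ 3) * N := by
      calc L ^ 1200 * N ≤ M ^ 2 := g2
        _ < (H + 1) * L := hHL2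
        _ ≤ (L ^ 2 * (2 * N)) * L := Nat.mul_le_mul_right _ hcon
        _ = (2 * L ^ 3) * N := by ring
    have h4 := Nat.lt_of_mul_lt_mul_right h3
    have h5 : 10 * L ^ 3 ≤ L ^ 1200 := by
      calc 10 * L ^ 3 ≤ L * L ^ 3 := Nat.mul_le_mul_right _ hL
        _ = L ^ 4 := by ring
        _ ≤ L ^ 1200 := hpp _ _ (by norm_num)
    have := hp 3
    omega
  · calc H2 * s * L ^ 166 = (s * H2) * L ^ 166 := by ring
      _ ≤ h0 * L ^ 166 := Nat.mul_le_mul_right _ hs1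
      _ ≤ H := hh1
  · have h3 : 2 * (R * N * ell * L ^ 83) = ell * D := by
      rw [hD]
      ring
    omega
  · calc 512 * (L ^ 83) ^ 4 = 512 * L ^ 332 := by ring
      _ ≤ ell := k3
  · calc 202 * (L ^ 83) ^ 5 * H2 = H2 * (202 * L ^ 415) := by ring
      _ ≤ ell ^ 2 := hm1
  · calc 96 * R * N * (L ^ 83) ^ 3 = (96 * (L ^ 249 * N)) * R := by ring
      _ ≤ (96 * (L ^ 249 * N)) * L := Nat.mul_le_mul_left _ hRL
      _ = 96 * (L ^ 250 * N) := by ring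
      _ ≤ H2 := k9

/-- the square root in the bound for flat functions -/
theorem fsc_root (L μ : ℕ) (hL : 10 ≤ L) (hμ : L ^ 2 ≤ μ) :
    Real.sqrt (1 / (μ : ℝ) + 12 * (L : ℝ) / ((L ^ 3 : ℕ) : ℝ) +
      2 ^ 17 * (L : ℝ) * ((L ^ 3 : ℕ) : ℝ) ^ 8 *
        Real.sqrt (6 * ((L ^ 27 : ℕ) : ℝ) * (((L : ℝ) ^ 41)⁻¹) ^ 2 +
          72 / ((L ^ 27 : ℕ) : ℝ) ^ 2)) ≤ 1100 / (L : ℝ) := by
  have hl : (10 : ℝ) ≤ L := by exact_mod_cast hL
  have hl0 : (0 : ℝ) < L := by linarith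
  have hμ' : (L : ℝ) ^ 2 ≤ μ := by exact_mod_cast hμ
  push_cast
  have e1 : Real.sqrt (6 * (L : ℝ) ^ 27 * (((L : ℝ) ^ 41)⁻¹) ^ 2 + 72 / ((L : ℝ) ^ 27) ^ 2) ≤
      9 / (L : ℝ) ^ 27 := by
    rw [Real.sqrt_le_left (by positivity)]
    have a1 : 6 * (L : ℝ) ^ 27 * (((L : ℝ) ^ 41)⁻¹) ^ 2 = 6 / (L : ℝ) ^ 55 := by
      field_simp
    have a2 : 72 / ((L : ℝ) ^ 27) ^ 2 = 72 / (L : ℝ) ^ 54 := by
      rw [← pow_mul]
    have a3 : (9 / (L : ℝ) ^ 27) ^ 2 = 81 / (L : ℝ) ^ 54 := by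
      rw [div_pow, ← pow_mul]
      norm_num
    have a4 : 6 / (L : ℝ) ^ 55 ≤ 6 / (L : ℝ) ^ 54 := by
      apply div_le_div_of_nonneg_left (by norm_num) (by positivity)
      exact pow_le_pow_right₀ (by linarith) (by norm_num)
    rw [a1, a2, a3]
    have a5 : 6 / (L : ℝ) ^ 54 + 72 / (L : ℝ) ^ 54 + 3 / (L : ℝ) ^ 54 = 81 / (L : ℝ) ^ 54 := by
      ring
    have a6 : 0 ≤ 3 / (L : ℝ) ^ 54 := by positivity
    linarith
  rw [Real.sqrt_le_left (by positivity)]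
  have b1 : 1 / (μ : ℝ) ≤ 1 / (L : ℝ) ^ 2 :=
    div_le_div_of_nonneg_left zero_le_one (by positivity) hμ'
  have b2 : 12 * (L : ℝ) / (L : ℝ) ^ 3 = 12 / (L : ℝ) ^ 2 := by
    field_simp
  have b3 : 2 ^ 17 * (L : ℝ) * ((L : ℝ) ^ 3) ^ 8 *
      Real.sqrt (6 * (L : ℝ) ^ 27 * (((L : ℝ) ^ 41)⁻¹) ^ 2 + 72 / ((L : ℝ) ^ 27) ^ 2) ≤
      1179648 / (L : ℝ) ^ 2 := by
    calc 2 ^ 17 * (L : ℝ) * ((L : ℝ) ^ 3) ^ 8 *
        Real.sqrt (6 * (L : ℝ) ^ 27 * (((L : ℝ) ^ 41)⁻¹) ^ 2 + 72 / ((L : ℝ) ^ 27) ^ 2)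
        ≤ 2 ^ 17 * (L : ℝ) * ((L : ℝ) ^ 3) ^ 8 * (9 / (L : ℝ) ^ 27) :=
          mul_le_mul_of_nonneg_left e1 (by positivity)
      _ = 1179648 / (L : ℝ) ^ 2 := by
          field_simp
          norm_num
  have b4 : (1100 / (L : ℝ)) ^ 2 = 1210000 / (L : ℝ) ^ 2 := by
    rw [div_pow]
    norm_num
  rw [b4, b2]
  have b5 : 1 / (L : ℝ) ^ 2 + 12 / (L : ℝ) ^ 2 + 1179648 / (L : ℝ) ^ 2 + 30339 / (L : ℝ) ^ 2 =
      1210000 / (L : ℝ) ^ 2 := by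
    ring
  have b6 : 0 ≤ 30339 / (L : ℝ) ^ 2 := by positivity
  linarith

theorem thm_FSC (hCOMB : St_COMB) (hUNS : St_UNS) (hUSC : St_USC) (hWDC : St_WDC)
    (hMSS : St_MSS) (hMSC : St_MSC) : St_FSC := by
  refine ⟨10, ?_⟩
  intro L hL N M R j hM hR hjR hRL h1 h2 hdiv
  obtain ⟨hMN, g1, g2, g3⟩ := fsc_size L N M hL hM h1 h2
  obtain ⟨H, ell, H2, s, p1, p2, p3, p4, p5, p6, p7, p8, p9, p10⟩ :=
    fsc_par L N M R hL hM hR hRL h1 h2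
  have hL0 : 0 < L := by omega
  have hp : ∀ a : ℕ, 1 ≤ L ^ a := fun a => Nat.one_le_pow _ _ hL0
  have hpp : ∀ a b : ℕ, a ≤ b → L ^ a ≤ L ^ b := fun a b h => Nat.pow_le_pow_right hL0 h
  have hN : 0 < N := by omega
  have hL3 : 1000 ≤ L ^ 3 := by
    calc 1000 = 10 ^ 3 := by norm_num
      _ ≤ L ^ 3 := Nat.pow_le_pow_left hL 3
  have hLM : ∀ a : ℕ, a ≤ 1500 → L ^ a ≤ M := fun a ha => (hpp a 1500 ha).trans g1
  have hLN : L ≤ N := by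
    have h3 := hLM 1 (by norm_num)
    rw [pow_one] at h3
    omega
  have hH1 : 1 ≤ H := by
    rcases Nat.eq_zero_or_pos H with h | h
    · rw [h, Nat.zero_div] at p2
      have := hp 2
      omega
    · exact h
  have hHM : H ≤ M ^ 2 := le_trans (Nat.le_mul_of_pos_right _ hL0) p1
  have hMN2 : M ^ 2 ≤ N ^ 2 := Nat.pow_le_pow_left hMN 2
  have hHN : H ≤ N ^ 2 := hHM.trans hMN2
  -- the length of the windows
  obtain ⟨W, hW⟩ : ∃ W, W = H2 * s := ⟨_, rfl⟩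
  have hW1 : 1 ≤ W := by
    rw [hW]
    exact Nat.mul_pos p6 p5
  have p4' : W * L ^ 166 ≤ H := by rw [hW]; exact p4
  have hWH : W ≤ H := le_trans (Nat.le_mul_of_pos_right _ (hp 166)) p4'
  have hWL3 : L ^ 3 * W ≤ N ^ 2 := by
    calc L ^ 3 * W ≤ L ^ 166 * W := Nat.mul_le_mul_right _ (hpp _ _ (by norm_num))
      _ = W * L ^ 166 := by ring
      _ ≤ H := p4'
      _ ≤ N ^ 2 := hHN
  have hLL3 : L ≤ L ^ 3 := by
    calc L = L ^ 1 := (pow_one L).symm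
      _ ≤ L ^ 3 := hpp _ _ (by norm_num)
  have hWL : L * W ≤ N ^ 2 := (Nat.mul_le_mul_right _ hLL3).trans hWL3
  have h2W : 2 * W ≤ N ^ 2 := (Nat.mul_le_mul_right _ (by omega)).trans hWL
  -- the modulus
  obtain ⟨T, hT⟩ : ∃ T, T = 5 * N ^ 2 / (H * L ^ 27) + 1 := ⟨_, rfl⟩
  obtain ⟨P, hP⟩ : ∃ P, P = H * (L ^ 27 * T) := ⟨_, rfl⟩
  have hHB : 0 < H * L ^ 27 := Nat.mul_pos hH1 (hp 27)
  have hHB2 : H * L ^ 27 ≤ N ^ 2 := by
    calc H * L ^ 27 = (H * L) * L ^ 26 := by ring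
      _ ≤ M ^ 2 * L ^ 26 := Nat.mul_le_mul_right _ p1
      _ ≤ M ^ 2 * L ^ 200 := Nat.mul_le_mul_left _ (hpp _ _ (by norm_num))
      _ = L ^ 200 * M ^ 2 := by ring
      _ ≤ N ^ 2 := g3
  have hP1 : 5 * N ^ 2 ≤ P := by
    have h3 : 5 * N ^ 2 < (5 * N ^ 2 / (H * L ^ 27) + 1) * (H * L ^ 27) :=
      (Nat.div_lt_iff_lt_mul hHB).1 (Nat.lt_succ_self _)
    rw [hP, hT]
    calc 5 * N ^ 2 ≤ (5 * N ^ 2 / (H * L ^ 27) + 1) * (H * L ^ 27) := h3.le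
      _ = H * (L ^ 27 * (5 * N ^ 2 / (H * L ^ 27) + 1)) := by ring
  have hP2 : P ≤ 6 * N ^ 2 := by
    have h3 : 5 * N ^ 2 / (H * L ^ 27) * (H * L ^ 27) ≤ 5 * N ^ 2 := Nat.div_mul_le_self _ _
    have h4 : P = 5 * N ^ 2 / (H * L ^ 27) * (H * L ^ 27) + H * L ^ 27 := by
      rw [hP, hT]
      ring
    omega
  have hN2 : 1 ≤ N ^ 2 := Nat.one_le_pow _ _ hN
  have hPne : NeZero P := ⟨by omega⟩
  refine ⟨P, hPne, hP1, by omega, ?_⟩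
  intro f g hf hg
  -- the range of the windows
  obtain ⟨i0, hi0⟩ : ∃ i0, i0 = N ^ 2 / (L ^ 3 * W) + 1 := ⟨_, rfl⟩
  obtain ⟨i1, hi1⟩ : ∃ i1, i1 = N ^ 2 / W := ⟨_, rfl⟩
  have hKW : 0 < L ^ 3 * W := Nat.mul_pos (hp 3) hW1
  have hi1a : i1 * W ≤ N ^ 2 := hi1 ▸ Nat.div_mul_le_self _ _
  have hi1b : N ^ 2 < i1 * W + W := by
    have h3 : N ^ 2 < (N ^ 2 / W + 1) * W :=
      (Nat.div_lt_iff_lt_mul hW1).1 (Nat.lt_succ_self _)
    rw [hi1]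
    calc N ^ 2 < (N ^ 2 / W + 1) * W := h3
      _ = N ^ 2 / W * W + W := by ring
  have hi0a : L ^ 3 * (i0 * W) ≤ N ^ 2 + L ^ 3 * W := by
    have h3 : N ^ 2 / (L ^ 3 * W) * (L ^ 3 * W) ≤ N ^ 2 := Nat.div_mul_le_self _ _
    have h4 : L ^ 3 * (i0 * W) = N ^ 2 / (L ^ 3 * W) * (L ^ 3 * W) + L ^ 3 * W := by
      rw [hi0]
      ring
    omega
  have hi0b : N ^ 2 ≤ L ^ 3 * (i0 * W) := by
    have h3 : N ^ 2 < (N ^ 2 / (L ^ 3 * W) + 1) * (L ^ 3 * W) :=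
      (Nat.div_lt_iff_lt_mul hKW).1 (Nat.lt_succ_self _)
    rw [hi0]
    calc N ^ 2 ≤ (N ^ 2 / (L ^ 3 * W) + 1) * (L ^ 3 * W) := h3.le
      _ = L ^ 3 * ((N ^ 2 / (L ^ 3 * W) + 1) * W) := by ring
  have hi0c : L * (i0 * W) ≤ 2 * N ^ 2 := by
    calc L * (i0 * W) ≤ L ^ 3 * (i0 * W) := Nat.mul_le_mul_right _ hLL3
      _ ≤ N ^ 2 + L ^ 3 * W := hi0a
      _ ≤ 2 * N ^ 2 := by omega
  have hi01 : i0 ≤ i1 := by
    have h3 : 2 ≤ N ^ 2 / W := (Nat.le_div_iff_mul_le hW1).2 h2W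
    have h4 : N ^ 2 / (L ^ 3 * W) ≤ (N ^ 2 / W) / 2 := by
      rw [mul_comm, ← Nat.div_div_eq_div_mul]
      exact Nat.div_le_div_left (by omega) (by norm_num)
    rw [hi0, hi1]
    omega
  -- real numbers
  have hl : (10 : ℝ) ≤ L := by exact_mod_cast hL
  have hl0 : (0 : ℝ) < L := by linarith
  have hR1 : (1 : ℝ) ≤ R := by exact_mod_cast hR
  have hNr : (0 : ℝ) < N := by exact_mod_cast hN
  have hMr : (0 : ℝ) < M := by exact_mod_cast hM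
  have hN2r : (0 : ℝ) < (N : ℝ) ^ 2 := by positivity
  have hWr : (0 : ℝ) < W := by exact_mod_cast hW1
  have hHr : (0 : ℝ) < H := by exact_mod_cast hH1
  have hLMN : L * M ^ 2 ≤ N ^ 2 := by
    calc L * M ^ 2 = L ^ 1 * M ^ 2 := by rw [pow_one]
      _ ≤ L ^ 200 * M ^ 2 := Nat.mul_le_mul_right _ (hpp _ _ (by norm_num))
      _ ≤ N ^ 2 := g3
  have hLNN : L * N ≤ N ^ 2 := by
    calc L * N ≤ N * N := Nat.mul_le_mul_right _ hLN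
      _ = N ^ 2 := by ring
  have hdiv' : ∀ l : ℕ, 1 ≤ l → l ≤ H → l.divisors.card ≤ L :=
    fun l hl1 hl2 => hdiv l hl1 (hl2.trans hHN)
  have h512 : 512 * (L ^ 3) ^ 5 ≤ N := by
    calc 512 * (L ^ 3) ^ 5 ≤ L ^ 3 * (L ^ 3) ^ 5 := Nat.mul_le_mul_right _ (by omega)
      _ = L ^ 18 := by ring
      _ ≤ M := hLM 18 (by norm_num)
      _ ≤ N := hMN
  have h2H : 2 * H + 1 ≤ P := by omega
  have hdv : ∀ D : ℕ, 1 ≤ D → L ^ 2 ≤ H / (2 * D) → 1 ≤ H / (2 * D) ∧ 2 * D * (H / (2 * D)) ≤ H ∧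
      H ≤ 4 * D * (H / (2 * D)) := by
    intro D hD h3
    have h4 : 1 ≤ H / (2 * D) := (hp 2).trans h3
    have h5 : H < (H / (2 * D) + 1) * (2 * D) :=
      (Nat.div_lt_iff_lt_mul (by omega)).1 (Nat.lt_succ_self _)
    refine ⟨h4, Nat.mul_div_le _ _, ?_⟩
    have h6 : (H / (2 * D) + 1) * (2 * D) ≤ (2 * (H / (2 * D))) * (2 * D) :=
      Nat.mul_le_mul_right _ (by omega)
    calc H ≤ (2 * (H / (2 * D))) * (2 * D) := (h5.trans_le h6).le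
      _ = 4 * D * (H / (2 * D)) := by ring
  obtain ⟨m1, m2, m3⟩ := hdv M hM p2
  obtain ⟨n1, n2', n3⟩ := hdv N hN p3
  have hroot1 := fsc_root L (H / (2 * M)) hL p2
  have hroot2 := fsc_root L (H / (2 * N)) hL p3
  have hHLr : (H : ℝ) * L ≤ (M : ℝ) ^ 2 := by exact_mod_cast p1
  have hRL1 : (1 : ℝ) / L ≤ R / L := div_le_div_of_nonneg_right hR1 hl0.le
  -- flat functions
  have hυ1 : ∀ f' g' : ZMod P → ℂ, Flat H (L ^ 27 * T) (((L : ℝ) ^ 41)⁻¹) f' →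
      (∀ u, ‖g' u‖ ≤ 1) → n2 (Tr (2 * N ^ 2 + 1) (rhoS N M) f' g') ≤ 8804 * R / L := by
    intro f' g' hf' hg'
    have h3 := hUNS P H (L ^ 27) T N M (H / (2 * M)) (L ^ 3) L (((L : ℝ) ^ 41)⁻¹) f' g' hP
      (hp 27) m1 m2 m3 hM hMN hg' hdiv' (hp 3) h512 (by omega) h2H hf'
    have h4 : 2 * ((H / (2 * M) : ℕ) : ℝ) / M ≤ 1 / L := by
      have h5 : 2 * (M : ℝ) * ((H / (2 * M) : ℕ) : ℝ) ≤ H := by exact_mod_cast m2
      rw [div_le_div_iff₀ hMr hl0]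
      have h6 : (2 * (M : ℝ) * ((H / (2 * M) : ℕ) : ℝ)) * L ≤ (M : ℝ) ^ 2 :=
        (mul_le_mul_of_nonneg_right h5 hl0.le).trans hHLr
      have h7 : (M : ℝ) * (2 * ((H / (2 * M) : ℕ) : ℝ) * L) ≤ M * (1 * M) := by
        calc (M : ℝ) * (2 * ((H / (2 * M) : ℕ) : ℝ) * L) =
            (2 * (M : ℝ) * ((H / (2 * M) : ℕ) : ℝ)) * L := by ring
          _ ≤ (M : ℝ) ^ 2 := h6
          _ = M * (1 * M) := by ring
      exact le_of_mul_le_mul_left h7 hMr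
    have h8 : 8804 * (R : ℝ) / L = 8804 * (R / L) := by ring
    have h9 : 1100 / (L : ℝ) = 1100 * (1 / L) := by ring
    rw [h9] at hroot1
    rw [h8]
    have h10 : (0 : ℝ) ≤ 1 / L := by positivity
    refine h3.trans ?_
    linarith
  have hυ2 : ∀ f' g' : ZMod P → ℂ, Flat H (L ^ 27 * T) (((L : ℝ) ^ 41)⁻¹) f' →
      (∀ u, ‖g' u‖ ≤ 1) → n2 (Tr (2 * N ^ 2 + 1) (sigS R j N) f' g') ≤ 8804 * R / L := by
    intro f' g' hf' hg'
    have h3 := hUSC P H (L ^ 27) T N R j (H / (2 * N)) (L ^ 3) L (((L : ℝ) ^ 41)⁻¹) f' g' hP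
      (hp 27) n1 n2' n3 hR hjR hg' hdiv' (hp 3) h512 (by omega) h2H hf'
    have h4 : 8 * (R : ℝ) * ((H / (2 * N) : ℕ) : ℝ) / N ≤ 4 * (R / L) := by
      have h5 : 2 * (N : ℝ) * ((H / (2 * N) : ℕ) : ℝ) ≤ H := by exact_mod_cast n2'
      have h6 : (2 * (N : ℝ) * ((H / (2 * N) : ℕ) : ℝ)) * L ≤ (N : ℝ) ^ 2 := by
        have h7 : (M : ℝ) ^ 2 ≤ (N : ℝ) ^ 2 := by exact_mod_cast hMN2
        exact ((mul_le_mul_of_nonneg_right h5 hl0.le).trans hHLr).trans h7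
      have h7 : 2 * ((H / (2 * N) : ℕ) : ℝ) * L ≤ N := by
        have h8 : (N : ℝ) * (2 * ((H / (2 * N) : ℕ) : ℝ) * L) ≤ N * N := by
          calc (N : ℝ) * (2 * ((H / (2 * N) : ℕ) : ℝ) * L) =
              (2 * (N : ℝ) * ((H / (2 * N) : ℕ) : ℝ)) * L := by ring
            _ ≤ (N : ℝ) ^ 2 := h6
            _ = N * N := by ring
        exact le_of_mul_le_mul_left h8 hNr
      have e : 4 * ((R : ℝ) / L) = 4 * R / L := by ring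
      rw [e, div_le_div_iff₀ hNr hl0]
      calc 8 * (R : ℝ) * ((H / (2 * N) : ℕ) : ℝ) * L =
          4 * R * (2 * ((H / (2 * N) : ℕ) : ℝ) * L) := by ring
        _ ≤ 4 * R * N := mul_le_mul_of_nonneg_left h7 (by positivity)
    have h8 : 8804 * (R : ℝ) / L = 8804 * (R / L) := by ring
    have h9 := mul_le_mul_of_nonneg_left hroot2 (show (0 : ℝ) ≤ 8 * R by positivity)
    have h10 : 8 * (R : ℝ) * (1100 / L) = 8800 * (R / L) := by ring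
    rw [h10] at h9
    rw [h8]
    refine h3.trans ?_
    linarith
  -- masses
  obtain ⟨q1, q2, q3, q4⟩ := hMSS N M hM hMN
  have h32 : 32 * R ≤ N := by
    calc 32 * R ≤ 32 * L := Nat.mul_le_mul_left _ hRL
      _ ≤ L ^ 3 * L := Nat.mul_le_mul_right _ (by omega)
      _ = L ^ 4 := by ring
      _ ≤ M := hLM 4 (by norm_num)
      _ ≤ N := hMN
  obtain ⟨r1, r2, r3, r4⟩ := hMSC N R j hR hjR h32
  have ci0 : (L : ℝ) * ((i0 * W : ℕ) : ℝ) ≤ 2 * (N : ℝ) ^ 2 := by exact_mod_cast hi0c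
  have cW : (L : ℝ) * (W : ℝ) ≤ (N : ℝ) ^ 2 := by exact_mod_cast hWL
  have cM : (L : ℝ) * (M : ℝ) ^ 2 ≤ (N : ℝ) ^ 2 := by exact_mod_cast hLMN
  have cN : (L : ℝ) * (N : ℝ) ≤ (N : ℝ) ^ 2 := by exact_mod_cast hLNN
  have hω1 : ∑ k ∈ range (i0 * W), rhoS N M k + ∑ k ∈ Ico (i1 * W) (2 * N ^ 2 + 1), rhoS N M k ≤
      16 * R / L := by
    have h3 := q3 (i0 * W)
    have h4 := q4 W (i1 * W) hi1b.le
    have h5 : 2 * ((i0 * W : ℕ) : ℝ) / (N : ℝ) ^ 2 + ((W : ℝ) + M ^ 2 + 2 * N) / (N : ℝ) ^ 2 ≤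
        8 * (1 / L) := by
      rw [← add_div, div_le_iff₀ hN2r]
      have e : 8 * (1 / (L : ℝ)) * (N : ℝ) ^ 2 = 8 * (N : ℝ) ^ 2 / L := by ring
      rw [e, le_div_iff₀ hl0]
      nlinarith
    have e : 16 * (R : ℝ) / L = 16 * (R / L) := by ring
    rw [e]
    have h10 : (0 : ℝ) ≤ 1 / L := by positivity
    linarith
  have hω2 : ∑ k ∈ range (i0 * W), sigS R j N k +
      ∑ k ∈ Ico (i1 * W) (2 * N ^ 2 + 1), sigS R j N k ≤ 16 * R / L := by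
    have h3 := r3 (i0 * W)
    have h4 := r4 W (i1 * W) hi1b.le h2W
    have h5 : 4 * (R : ℝ) * ((i0 * W : ℕ) : ℝ) / (N : ℝ) ^ 2 +
        4 * R * ((W : ℝ) + N) / (N : ℝ) ^ 2 ≤ 16 * R / L := by
      rw [← add_div, div_le_div_iff₀ hN2r hl0]
      have h6 : (L : ℝ) * ((i0 * W : ℕ) : ℝ) + (L * W + L * N) ≤ 4 * (N : ℝ) ^ 2 := by linarith
      calc (4 * (R : ℝ) * ((i0 * W : ℕ) : ℝ) + 4 * R * ((W : ℝ) + N)) * L =
          4 * R * ((L : ℝ) * ((i0 * W : ℕ) : ℝ) + (L * W + L * N)) := by ring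
        _ ≤ 4 * R * (4 * (N : ℝ) ^ 2) := mul_le_mul_of_nonneg_left h6 (by positivity)
        _ = 16 * R * (N : ℝ) ^ 2 := by ring
    linarith
  -- windows
  have hwin : ∀ i : ℕ, i0 ≤ i → i < i1 → ∀ θ : ℝ,
      ‖∑ k ∈ Ico (i * W) ((i + 1) * W), ((rhoS N M k - sigS R j N k : ℝ) : ℂ) *
        ee ((k : ℝ) * θ)‖ ≤ 24 / (L : ℝ) ^ 83 * W / (N : ℝ) ^ 2 := by
    intro i hi hi' θ
    have w1 : i * W + H2 * s ≤ N ^ 2 := by
      rw [← hW]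
      calc i * W + W = (i + 1) * W := by ring
        _ ≤ i1 * W := Nat.mul_le_mul_right _ hi'
        _ ≤ N ^ 2 := hi1a
    have w2 : (M ^ 2 + H2 * s) * L ^ 83 ≤ i * W := by
      rw [← hW]
      have h3 : ((M ^ 2 + W) * L ^ 83) * L ^ 3 ≤ (i * W) * L ^ 3 := by
        calc ((M ^ 2 + W) * L ^ 83) * L ^ 3 ≤ ((2 * M ^ 2) * L ^ 83) * L ^ 3 := by
              refine Nat.mul_le_mul_right _ (Nat.mul_le_mul_right _ ?_)
              have := hWH.trans hHM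
              omega
          _ = (2 * L ^ 86) * M ^ 2 := by ring
          _ ≤ (L * L ^ 86) * M ^ 2 := Nat.mul_le_mul_right _ (Nat.mul_le_mul_right _ (by omega))
          _ = L ^ 87 * M ^ 2 := by ring
          _ ≤ L ^ 200 * M ^ 2 := Nat.mul_le_mul_right _ (hpp _ _ (by norm_num))
          _ ≤ N ^ 2 := g3
          _ ≤ L ^ 3 * (i0 * W) := hi0b
          _ ≤ L ^ 3 * (i * W) := Nat.mul_le_mul_left _ (Nat.mul_le_mul_right _ hi)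
          _ = (i * W) * L ^ 3 := by ring
      exact Nat.le_of_mul_le_mul_right h3 (hp 3)
    have w3 : 8 ≤ L ^ 83 := by
      have h3 := hpp 3 83 (by norm_num)
      omega
    have w4 : 32 * (L ^ 83) ^ 3 ≤ M := by
      calc 32 * (L ^ 83) ^ 3 ≤ L ^ 3 * (L ^ 83) ^ 3 := Nat.mul_le_mul_right _ (by omega)
        _ = L ^ 252 := by ring
        _ ≤ M := hLM 252 (by norm_num)
    have w5 : N ≤ M ^ 2 := le_trans (Nat.le_mul_of_pos_left N (hp 1200)) g2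
    have w6 : H2 * s ≤ M ^ 2 := by
      rw [← hW]
      exact hWH.trans hHM
    have h3 := hWDC N M R j (L ^ 83) ell (i * W) H2 s θ p5 w3 w1 hR hjR hMN w2 w4 p10 w6 w5 p7
      p8 p9
    have e : i * W + H2 * s = (i + 1) * W := by
      rw [← hW]
      ring
    rw [e] at h3
    refine h3.trans (le_of_eq ?_)
    rw [hW]
    push_cast
    ring
  have y1 : (0 : ℝ) < ((L : ℝ) ^ 41)⁻¹ := by positivity
  have y2 : ((L : ℝ) ^ 41)⁻¹ ≤ 1 := by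
    apply inv_le_one_of_one_le₀
    exact one_le_pow₀ (by linarith)
  have y3 : (0 : ℝ) ≤ 24 / (L : ℝ) ^ 83 := by positivity
  have y4 : i1 * W ≤ 2 * N ^ 2 + 1 := by omega
  have hfin := hCOMB P H (L ^ 27 * T) W i0 i1 (2 * N ^ 2 + 1) N (rhoS N M) (sigS R j N)
    (((L : ℝ) ^ 41)⁻¹) (8804 * (R : ℝ) / L) (16 * (R : ℝ) / L) (24 / (L : ℝ) ^ 83) f g hP hW1
    hWH hN y1 y2 y3 hi01 hi1a y4 q1 r1 q2 r2 hω1 hω2
    hυ1 hυ2 hwin hf hg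
  refine hfin.trans ?_
  have hsq : Real.sqrt ((W : ℝ) / H) ≤ 1 / (L : ℝ) ^ 83 := by
    rw [Real.sqrt_le_left (by positivity), div_le_iff₀ hHr]
    have h3 : (W : ℝ) * (L : ℝ) ^ 166 ≤ H := by exact_mod_cast p4'
    have e : (1 / (L : ℝ) ^ 83) ^ 2 * H = H / (L : ℝ) ^ 166 := by
      rw [div_pow, ← pow_mul]
      norm_num
      ring
    rw [e, le_div_iff₀ (by positivity)]
    exact h3
  have h3 : 1 / (((L : ℝ) ^ 41)⁻¹) ^ 2 * (24 / (L : ℝ) ^ 83 + 4 * Real.sqrt ((W : ℝ) / H)) ≤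
      28 / (L : ℝ) := by
    calc 1 / (((L : ℝ) ^ 41)⁻¹) ^ 2 * (24 / (L : ℝ) ^ 83 + 4 * Real.sqrt ((W : ℝ) / H))
        ≤ 1 / (((L : ℝ) ^ 41)⁻¹) ^ 2 * (24 / (L : ℝ) ^ 83 + 4 * (1 / (L : ℝ) ^ 83)) := by
          refine mul_le_mul_of_nonneg_left ?_ (by positivity)
          linarith
      _ = 28 / (L : ℝ) := by
          field_simp
          norm_num
  have h4 : (28 : ℝ) / L ≤ 28 * (R / L) := by
    have e : (28 : ℝ) / L = 28 * (1 / L) := by ring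
    rw [e]
    linarith
  have e1 : 8804 * (R : ℝ) / L = 8804 * (R / L) := by ring
  have e2 : 16 * (R : ℝ) / L = 16 * (R / L) := by ring
  have e3 : 2 ^ 15 * (R : ℝ) / L = 32768 * (R / L) := by ring
  rw [e1, e2, e3]
  have h5 : (0 : ℝ) ≤ R / L := by positivity
  linarith

end Pool.Agent.BSQ
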