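import Pool.Agent.BSQ.StA

/-!
# BSQ, module FSS: finitary comparison of strips (helper44)
-/

set_option autoImplicit false

namespace Pool.Agent.BSQ

open Finset MeasureTheory Filter Topology
open scoped BigOperators
open Classical

/-- floor of a quotient which is at least one. -/
theorem fss_half {a b : ℕ} (hb : 1 ≤ b) (h : b ≤ a) : a ≤ 2 * b * (a / b) := by
  have h1 : a < b * (a / b + 1) := by
    have := Nat.lt_mul_div_succ a (show 0 < b by omega)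
    simpa using this
  have h2 : 1 ≤ a / b := (Nat.one_le_div_iff (by omega)).2 h
  nlinarith

/-- the arithmetic of the parameters. -/
theorem fss_arith (L N M1 M2 : ℕ) (hL : 2 ^ 20 ≤ L) (hM1 : 1 ≤ M1) (hM : M1 ≤ M2)
    (h1 : L ^ 1200 * (N * M2 ^ 2) ≤ M1 ^ 4) (h2 : L ^ 100 * M2 ≤ N) :
    L ^ 1200 * N ≤ M1 ^ 2 ∧ L ^ 1200 ≤ M1 ∧ L ^ 600 * M2 ≤ M1 ^ 2 ∧ M2 ≤ N := by
  have hL0 : 0 < L := by omega
  have hp : ∀ k : ℕ, 1 ≤ L ^ k := fun k => Nat.one_le_pow _ _ hL0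
  have hN : M2 ≤ N := le_trans (by simpa using Nat.mul_le_mul_right M2 (hp 100)) h2
  have hN1 : 1 ≤ N := by omega
  have a1 : L ^ 1200 * N ≤ M1 ^ 2 := by
    have : (L ^ 1200 * N) * M1 ^ 2 ≤ M1 ^ 2 * M1 ^ 2 := by
      calc (L ^ 1200 * N) * M1 ^ 2 ≤ (L ^ 1200 * N) * M2 ^ 2 :=
            Nat.mul_le_mul_left _ (Nat.pow_le_pow_left hM 2)
        _ = L ^ 1200 * (N * M2 ^ 2) := by rw [mul_assoc]
        _ ≤ M1 ^ 4 := h1
        _ = M1 ^ 2 * M1 ^ 2 := by rw [← pow_add]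
    exact Nat.le_of_mul_le_mul_right this (by positivity)
  refine ⟨a1, ?_, ?_, hN⟩
  · have : L ^ 1200 * M1 ≤ M1 * M1 := by
      calc L ^ 1200 * M1 ≤ L ^ 1200 * N := Nat.mul_le_mul_left _ (hM.trans hN)
        _ ≤ M1 ^ 2 := a1
        _ = M1 * M1 := sq M1
    exact Nat.le_of_mul_le_mul_right this (by omega)
  · have h3 : (L ^ 600 * M2) ^ 2 ≤ (M1 ^ 2) ^ 2 := by
      calc (L ^ 600 * M2) ^ 2 = L ^ 1200 * M2 ^ 2 := by rw [mul_pow, ← pow_mul]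
        _ ≤ L ^ 1200 * (N * M2 ^ 2) := Nat.mul_le_mul_left _ (Nat.le_mul_of_pos_left _ hN1)
        _ ≤ M1 ^ 4 := h1
        _ = (M1 ^ 2) ^ 2 := by rw [← pow_mul]
    exact (Nat.pow_le_pow_iff_left (by norm_num)).1 h3

/-- the parameters of `FSS`. -/
theorem fss_par (L N M1 M2 : ℕ) (hL : 2 ^ 20 ≤ L) (hM1 : 1 ≤ M1) (hM : M1 ≤ M2)
    (h1 : L ^ 1200 * (N * M2 ^ 2) ≤ M1 ^ 4) (h2 : L ^ 100 * M2 ≤ N) :
    ∃ H h0 ell H2 s : ℕ, 1 ≤ H2 ∧ 1 ≤ s ∧ L * H ≤ M1 ^ 2 ∧ 4 * L ^ 4 * M2 ≤ H ∧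
      L ^ 166 * h0 ≤ H ∧ H2 * s ≤ h0 ∧ 1 ≤ h0 ∧ 512 * (L ^ 83) ^ 4 ≤ ell ∧
      202 * (L ^ 83) ^ 5 * H2 ≤ ell ^ 2 ∧ 64 * N * (L ^ 83) ^ 3 ≤ H2 ∧
      ell * M2 * L ^ 83 ≤ H2 * s := by
  obtain ⟨a1, a2, a3, a4⟩ := fss_arith L N M1 M2 hL hM1 hM h1 h2
  have hL0 : 0 < L := by omega
  have hp : ∀ k : ℕ, 1 ≤ L ^ k := fun k => Nat.one_le_pow _ _ hL0
  have hM2 : 1 ≤ M2 := by omega
  have hM1sq : M1 ^ 2 ≤ M2 ^ 2 := Nat.pow_le_pow_left hM 2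
  have hb : ∀ k : ℕ, 1 ≤ k → 2 ^ 20 ≤ L ^ k := fun k hk =>
    hL.trans (Nat.le_self_pow (by omega) L)
  -- H
  set H := M1 ^ 2 / L with hH
  have H1 : L * H ≤ M1 ^ 2 := Nat.mul_div_le _ _
  have H2' : M1 ^ 2 ≤ 2 * L * H := fss_half hL0 (by
    have : L ^ 600 * M2 ≤ M1 ^ 2 := a3
    calc L = L ^ 1 * 1 := by ring
      _ ≤ L ^ 600 * M2 := Nat.mul_le_mul (Nat.pow_le_pow_right hL0 (by norm_num)) hM2
      _ ≤ M1 ^ 2 := a3)
  -- a general lower bound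
  have key : ∀ a c : ℕ, c ≤ 2 ^ 20 → a + 1 ≤ 600 → c * L ^ a * M2 ≤ M1 ^ 2 := by
    intro a c hc ha
    calc c * L ^ a * M2 ≤ L * L ^ a * M2 := by gcongr; omega
      _ = L ^ (a + 1) * M2 := by rw [pow_succ']
      _ ≤ L ^ 600 * M2 := Nat.mul_le_mul_right _ (Nat.pow_le_pow_right hL0 ha)
      _ ≤ M1 ^ 2 := a3
  have H3 : 4 * L ^ 4 * M2 ≤ H := by
    have h3 := key 5 8 (by norm_num) (by norm_num)
    have h4 : (2 * L) * (4 * L ^ 4 * M2) ≤ (2 * L) * H := by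
      calc (2 * L) * (4 * L ^ 4 * M2) = 8 * L ^ 5 * M2 := by ring
        _ ≤ M1 ^ 2 := h3
        _ ≤ 2 * L * H := H2'
    exact Nat.le_of_mul_le_mul_left h4 (by omega)
  -- h0
  set h0 := H / L ^ 166 with hh0
  have g1 : L ^ 166 * h0 ≤ H := Nat.mul_div_le _ _
  have g2 : H ≤ 2 * L ^ 166 * h0 := fss_half (hp 166) (by
    have h3 := key 167 2 (by norm_num) (by norm_num)
    have h4 : (2 * L) * (L ^ 166) ≤ (2 * L) * H := by
      calc (2 * L) * (L ^ 166) = 2 * L ^ 167 * 1 := by ring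
        _ ≤ 2 * L ^ 167 * M2 := Nat.mul_le_mul_left _ hM2
        _ ≤ M1 ^ 2 := h3
        _ ≤ 2 * L * H := H2'
    exact Nat.le_of_mul_le_mul_left h4 (by omega))
  have g3 : M1 ^ 2 ≤ 4 * L ^ 167 * h0 := by
    calc M1 ^ 2 ≤ 2 * L * H := H2'
      _ ≤ 2 * L * (2 * L ^ 166 * h0) := Nat.mul_le_mul_left _ g2
      _ = 4 * L ^ 167 * h0 := by ring
  -- ell
  set ell := h0 / (2 * M2 * L ^ 83) with hell
  have e1 : (2 * M2 * L ^ 83) * ell ≤ h0 := Nat.mul_div_le _ _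
  have e2 : h0 ≤ 2 * (2 * M2 * L ^ 83) * ell := fss_half (Nat.succ_le_of_lt (by positivity)) (by
    have h3 := key 250 8 (by norm_num) (by norm_num)
    have h4 : (4 * L ^ 167) * (2 * M2 * L ^ 83) ≤ (4 * L ^ 167) * h0 := by
      calc (4 * L ^ 167) * (2 * M2 * L ^ 83) = 8 * L ^ 250 * M2 := by ring
        _ ≤ M1 ^ 2 := h3
        _ ≤ 4 * L ^ 167 * h0 := g3
    exact Nat.le_of_mul_le_mul_left h4 (by positivity))
  have e3 : M1 ^ 2 ≤ 16 * M2 * L ^ 250 * ell := by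
    calc M1 ^ 2 ≤ 4 * L ^ 167 * h0 := g3
      _ ≤ 4 * L ^ 167 * (2 * (2 * M2 * L ^ 83) * ell) := Nat.mul_le_mul_left _ e2
      _ = 16 * M2 * L ^ 250 * ell := by ring
  have e4 : L ^ 700 * N ≤ 256 * ell ^ 2 := by
    have h3 : (M2 ^ 2 * L ^ 500) * (L ^ 700 * N) ≤ (M2 ^ 2 * L ^ 500) * (256 * ell ^ 2) := by
      calc (M2 ^ 2 * L ^ 500) * (L ^ 700 * N) = L ^ 1200 * (N * M2 ^ 2) := by ring
        _ ≤ M1 ^ 4 := h1
        _ = (M1 ^ 2) ^ 2 := by ring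
        _ ≤ (16 * M2 * L ^ 250 * ell) ^ 2 := Nat.pow_le_pow_left e3 2
        _ = (M2 ^ 2 * L ^ 500) * (256 * ell ^ 2) := by ring
    exact Nat.le_of_mul_le_mul_left h3 (by positivity)
  have hN1 : 1 ≤ N := by omega
  have e5 : L ^ 700 ≤ 256 * ell ^ 2 := le_trans (Nat.le_mul_of_pos_right _ hN1) e4
  have e6 : 512 * (L ^ 83) ^ 4 ≤ ell := by
    by_contra hc
    have hc' : ell ≤ 512 * (L ^ 83) ^ 4 := by omega
    have h3 : 256 * ell ^ 2 ≤ 2 ^ 26 * L ^ 664 := by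
      calc 256 * ell ^ 2 ≤ 256 * (512 * (L ^ 83) ^ 4) ^ 2 :=
            Nat.mul_le_mul_left _ (Nat.pow_le_pow_left hc' 2)
        _ = 2 ^ 26 * L ^ 664 := by ring
    have h4 : L ^ 700 ≤ 2 ^ 26 * L ^ 664 := e5.trans h3
    have h5 : L ^ 36 ≤ 2 ^ 26 := by
      have h6 : L ^ 664 * L ^ 36 ≤ L ^ 664 * 2 ^ 26 := by
        calc L ^ 664 * L ^ 36 = L ^ 700 := by ring
          _ ≤ 2 ^ 26 * L ^ 664 := h4
          _ = L ^ 664 * 2 ^ 26 := by ring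
      exact Nat.le_of_mul_le_mul_left h6 (by positivity)
    have h7 : (2 ^ 20) ^ 36 ≤ L ^ 36 := Nat.pow_le_pow_left hL 36
    have h8 : (2 : ℕ) ^ 26 < (2 ^ 20) ^ 36 := by norm_num
    omega
  have e7 : ell ≤ M2 := by
    have h3 : M2 * ell ≤ M2 * M2 := by
      calc M2 * ell ≤ (2 * M2 * L ^ 83) * ell := by
            refine Nat.mul_le_mul_right _ ?_
            calc M2 = M2 * 1 := (mul_one _).symm
              _ ≤ (2 * M2) * L ^ 83 := Nat.mul_le_mul (by omega) (hp 83)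
        _ ≤ h0 := e1
        _ ≤ H := le_trans (Nat.le_mul_of_pos_left _ (hp 166)) g1
        _ ≤ M1 ^ 2 := le_trans (Nat.le_mul_of_pos_left _ hL0) H1
        _ ≤ M2 ^ 2 := hM1sq
        _ = M2 * M2 := sq M2
    exact Nat.le_of_mul_le_mul_left h3 (by omega)
  -- H2
  set H2 := ell ^ 2 / (202 * (L ^ 83) ^ 5) with hH2
  have f1 : 202 * (L ^ 83) ^ 5 * H2 ≤ ell ^ 2 := Nat.mul_div_le _ _
  have hL285 : 2 ^ 30 * L ^ 249 ≤ L ^ 285 := by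
    calc 2 ^ 30 * L ^ 249 ≤ (2 ^ 20) ^ 36 * L ^ 249 := Nat.mul_le_mul_right _ (by norm_num)
      _ ≤ L ^ 36 * L ^ 249 := Nat.mul_le_mul_right _ (Nat.pow_le_pow_left hL 36)
      _ = L ^ 285 := by ring
  have f2 : ell ^ 2 ≤ 2 * (202 * (L ^ 83) ^ 5) * H2 := fss_half (Nat.succ_le_of_lt (by positivity)) (by
    have h3 : 256 * (202 * (L ^ 83) ^ 5) ≤ 256 * ell ^ 2 := by
      calc 256 * (202 * (L ^ 83) ^ 5) = 51712 * L ^ 415 := by ring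
        _ ≤ L ^ 285 * L ^ 415 := by
            refine Nat.mul_le_mul_right _ (le_trans ?_ (hb 285 (by norm_num)))
            norm_num
        _ = L ^ 700 := by ring
        _ ≤ 256 * ell ^ 2 := e5
    exact Nat.le_of_mul_le_mul_left h3 (by norm_num))
  have f3 : 64 * N * (L ^ 83) ^ 3 ≤ H2 := by
    have h3 : (103424 * L ^ 415) * (64 * N * (L ^ 83) ^ 3) ≤ (103424 * L ^ 415) * H2 := by
      calc (103424 * L ^ 415) * (64 * N * (L ^ 83) ^ 3) = 6619136 * L ^ 249 * (L ^ 415 * N) := by ring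
        _ ≤ 2 ^ 30 * L ^ 249 * (L ^ 415 * N) :=
            Nat.mul_le_mul_right _ (Nat.mul_le_mul_right _ (by norm_num))
        _ ≤ L ^ 285 * (L ^ 415 * N) := Nat.mul_le_mul_right _ hL285
        _ = L ^ 700 * N := by ring
        _ ≤ 256 * ell ^ 2 := e4
        _ ≤ 256 * (2 * (202 * (L ^ 83) ^ 5) * H2) := Nat.mul_le_mul_left _ f2
        _ = (103424 * L ^ 415) * H2 := by ring
    exact Nat.le_of_mul_le_mul_left h3 (by positivity)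
  have hH21 : 1 ≤ H2 := le_trans (by
    have : 1 ≤ 64 * N * (L ^ 83) ^ 3 := Nat.succ_le_of_lt (by positivity)
    exact this) f3
  have f4 : 2 * H2 ≤ h0 := by
    have h3 : M2 * (404 * (L ^ 83) ^ 6 * H2) ≤ M2 * h0 := by
      calc M2 * (404 * (L ^ 83) ^ 6 * H2) = (2 * M2 * L ^ 83) * (202 * (L ^ 83) ^ 5 * H2) := by ring
        _ ≤ (2 * M2 * L ^ 83) * ell ^ 2 := Nat.mul_le_mul_left _ f1
        _ = ell * ((2 * M2 * L ^ 83) * ell) := by ring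
        _ ≤ ell * h0 := Nat.mul_le_mul_left _ e1
        _ ≤ M2 * h0 := Nat.mul_le_mul_right _ e7
    have h4 : 404 * (L ^ 83) ^ 6 * H2 ≤ h0 := Nat.le_of_mul_le_mul_left h3 (by omega)
    refine le_trans (Nat.mul_le_mul_right _ ?_) h4
    have : 1 ≤ (L ^ 83) ^ 6 := Nat.one_le_pow _ _ (hp 83)
    omega
  -- s
  set s := h0 / H2 with hs
  have s1 : H2 * s ≤ h0 := Nat.mul_div_le _ _
  have s2 : 1 ≤ s := (Nat.one_le_div_iff (by omega)).2 (by omega)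
  have s3 : h0 ≤ 2 * (H2 * s) := by
    have := Nat.lt_mul_div_succ h0 (show 0 < H2 by omega)
    have h5 : h0 < H2 * s + H2 := by simpa [mul_add, Nat.mul_succ] using this
    omega
  refine ⟨H, h0, ell, H2, s, hH21, s2, H1, H3, g1, s1, by omega, e6, f1, f3, ?_⟩
  have : 2 * (ell * M2 * L ^ 83) ≤ 2 * (H2 * s) := by
    calc 2 * (ell * M2 * L ^ 83) = (2 * M2 * L ^ 83) * ell := by ring
      _ ≤ h0 := e1
      _ ≤ 2 * (H2 * s) := s3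
  omega

/-- the radicand of `UNS`, `USC`. -/
theorem fss_rad (L μ : ℕ) (hL : 2 ^ 20 ≤ L) (hμ : L ^ 2 ≤ μ) :
    Real.sqrt (1 / μ + 12 * L / ((L ^ 3 : ℕ) : ℝ) +
      2 ^ 17 * L * ((L ^ 3 : ℕ) : ℝ) ^ 8 * Real.sqrt (6 * ((L ^ 27 : ℕ) : ℝ) * ((1 / (L : ℝ) ^ 41)) ^ 2 +
        72 / ((L ^ 27 : ℕ) : ℝ) ^ 2)) ≤ 1087 / L := by
  have hL1 : (1 : ℝ) ≤ L := by
    have : (2 : ℝ) ^ 20 ≤ L := by exact_mod_cast hL
    linarith [show (1 : ℝ) ≤ 2 ^ 20 by norm_num]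
  have hL0 : (0 : ℝ) < L := by linarith
  set x : ℝ := (L : ℝ) with hx
  have hin : Real.sqrt (6 * ((L ^ 27 : ℕ) : ℝ) * ((1 / x ^ 41)) ^ 2 + 72 / ((L ^ 27 : ℕ) : ℝ) ^ 2) ≤
      9 / x ^ 27 := by
    refine Real.sqrt_le_iff.2 ⟨by positivity, ?_⟩
    push_cast
    rw [← hx]
    have e1 : 6 * x ^ 27 * (1 / x ^ 41) ^ 2 = 6 / x ^ 55 := by
      field_simp
    have e2 : (72 : ℝ) / (x ^ 27) ^ 2 = 72 / x ^ 54 := by
      rw [← pow_mul]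
    have e3 : (9 / x ^ 27) ^ 2 = 81 / x ^ 54 := by
      rw [div_pow, ← pow_mul]; norm_num
    rw [e1, e2, e3]
    have e4 : (6 : ℝ) / x ^ 55 ≤ 6 / x ^ 54 :=
      div_le_div_of_nonneg_left (by norm_num) (by positivity) (pow_le_pow_right₀ hL1 (by norm_num))
    have e5 : (6 : ℝ) / x ^ 54 + 72 / x ^ 54 ≤ 81 / x ^ 54 := by
      rw [← add_div]
      exact div_le_div_of_nonneg_right (by norm_num) (by positivity)
    linarith
  have hμR : x ^ 2 ≤ (μ : ℝ) := by rw [hx]; exact_mod_cast hμ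
  have h1 : 1 / (μ : ℝ) ≤ 1 / x ^ 2 := one_div_le_one_div_of_le (by positivity) hμR
  have h2 : 12 * x / ((L ^ 3 : ℕ) : ℝ) = 12 / x ^ 2 := by
    push_cast
    rw [← hx]
    field_simp
  have h3 : 2 ^ 17 * x * ((L ^ 3 : ℕ) : ℝ) ^ 8 *
      Real.sqrt (6 * ((L ^ 27 : ℕ) : ℝ) * ((1 / x ^ 41)) ^ 2 + 72 / ((L ^ 27 : ℕ) : ℝ) ^ 2) ≤
      1179648 / x ^ 2 := by
    calc 2 ^ 17 * x * ((L ^ 3 : ℕ) : ℝ) ^ 8 *
      Real.sqrt (6 * ((L ^ 27 : ℕ) : ℝ) * ((1 / x ^ 41)) ^ 2 + 72 / ((L ^ 27 : ℕ) : ℝ) ^ 2)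
        ≤ 2 ^ 17 * x * ((L ^ 3 : ℕ) : ℝ) ^ 8 * (9 / x ^ 27) :=
          mul_le_mul_of_nonneg_left hin (by positivity)
      _ = 1179648 / x ^ 2 := by
          push_cast
          rw [← hx]
          field_simp
          norm_num
  refine Real.sqrt_le_iff.2 ⟨by positivity, ?_⟩
  rw [h2]
  have h4 : (1087 / x) ^ 2 = 1181569 / x ^ 2 := by rw [div_pow]; norm_num
  rw [h4]
  have h5 : 1 / x ^ 2 + 12 / x ^ 2 + 1179648 / x ^ 2 ≤ 1181569 / x ^ 2 := by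
    rw [← add_div, ← add_div]
    exact div_le_div_of_nonneg_right (by norm_num) (by positivity)
  linarith

theorem fss_P (L N M2 H : ℕ) (hL : 2 ^ 20 ≤ L) (hH : 1 ≤ H) (h2 : L ^ 100 * M2 ≤ N)
    (hHM : L * H ≤ M2 ^ 2) :
    H * L ^ 27 ≤ N ^ 2 ∧ 2 * M2 ^ 2 * L ^ 86 ≤ N ^ 2 ∧ H ≤ N ^ 2 ∧ L ^ 200 * M2 ^ 2 ≤ N ^ 2 ∧
    5 * N ^ 2 ≤ H * (L ^ 27 * (5 * N ^ 2 / (H * L ^ 27) + 1)) ∧
    H * (L ^ 27 * (5 * N ^ 2 / (H * L ^ 27) + 1)) ≤ 6 * N ^ 2 := by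
  have hL0 : 0 < L := by omega
  have hp : ∀ k : ℕ, 1 ≤ L ^ k := fun k => Nat.one_le_pow _ _ hL0
  have b1 : L ^ 200 * M2 ^ 2 ≤ N ^ 2 := by
    calc L ^ 200 * M2 ^ 2 = (L ^ 100 * M2) ^ 2 := by ring
      _ ≤ N ^ 2 := Nat.pow_le_pow_left h2 2
  have b2 : H * L ^ 27 ≤ N ^ 2 := by
    calc H * L ^ 27 ≤ L * H * L ^ 27 := Nat.mul_le_mul_right _ (Nat.le_mul_of_pos_left _ hL0)
      _ ≤ M2 ^ 2 * L ^ 27 := Nat.mul_le_mul_right _ hHM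
      _ ≤ M2 ^ 2 * L ^ 200 := Nat.mul_le_mul_left _ (Nat.pow_le_pow_right hL0 (by norm_num))
      _ = L ^ 200 * M2 ^ 2 := mul_comm _ _
      _ ≤ N ^ 2 := b1
  have b3 : 2 * M2 ^ 2 * L ^ 86 ≤ N ^ 2 := by
    calc 2 * M2 ^ 2 * L ^ 86 ≤ L * M2 ^ 2 * L ^ 86 := by
          refine Nat.mul_le_mul_right _ (Nat.mul_le_mul_right _ ?_)
          omega
      _ = L ^ 87 * M2 ^ 2 := by ring
      _ ≤ L ^ 200 * M2 ^ 2 := Nat.mul_le_mul_right _ (Nat.pow_le_pow_right hL0 (by norm_num))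
      _ ≤ N ^ 2 := b1
  have b4 : H ≤ N ^ 2 := le_trans (Nat.le_mul_of_pos_right _ (hp 27)) b2
  have hHB : 0 < H * L ^ 27 := Nat.mul_pos hH (hp 27)
  have e : H * (L ^ 27 * (5 * N ^ 2 / (H * L ^ 27) + 1)) =
      (H * L ^ 27) * (5 * N ^ 2 / (H * L ^ 27) + 1) := by ring
  refine ⟨b2, b3, b4, b1, ?_, ?_⟩
  · rw [e]
    exact (Nat.lt_mul_div_succ _ hHB).le
  · rw [e, mul_add, mul_one]
    have := Nat.mul_div_le (5 * N ^ 2) (H * L ^ 27)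
    omega

/-- **FSS**. -/
theorem thm_FSS (hCOMB : St_COMB) (hUNS : St_UNS) (hWDS : St_WDS) (hMSS : St_MSS) : St_FSS := by
  refine ⟨2 ^ 20, fun L hL N M1 M2 hM1 hM h1 h2 hD => ?_⟩
  obtain ⟨a1, a2, a3, a4⟩ := fss_arith L N M1 M2 hL hM1 hM h1 h2
  obtain ⟨H, h0, ell, H2, s, hH21, hs1, hLH, hHM2, hh0, hH2s, hh01, hell, hH2, h64, hellM⟩ :=
    fss_par L N M1 M2 hL hM1 hM h1 h2
  have hL0 : 0 < L := by omega
  have hp : ∀ k : ℕ, 1 ≤ L ^ k := fun k => Nat.one_le_pow _ _ hL0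
  have hM2 : 1 ≤ M2 := by omega
  have hN1 : 1 ≤ N := by omega
  have hM12 : M1 ^ 2 ≤ M2 ^ 2 := Nat.pow_le_pow_left hM 2
  have hH1 : 1 ≤ H := le_trans (Nat.succ_le_of_lt (by positivity)) hHM2
  obtain ⟨b2, b3, b4, b1, hP1, hP2⟩ := fss_P L N M2 H hL hH1 h2 (hLH.trans hM12)
  set H' := H2 * s with hH'
  set T := 5 * N ^ 2 / (H * L ^ 27) + 1 with hT
  set P := H * (L ^ 27 * T) with hP
  have hN2 : 1 ≤ N ^ 2 := Nat.one_le_pow _ _ hN1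
  have hP0 : P ≠ 0 := by omega
  have : NeZero P := ⟨hP0⟩
  refine ⟨P, ⟨hP0⟩, hP1, by omega, fun f g hf hg => ?_⟩
  have hH'1 : 1 ≤ H' := Nat.mul_pos hH21 hs1
  have hH'h0 : H' ≤ h0 := hH2s
  have hh0H : h0 ≤ H := le_trans (Nat.le_mul_of_pos_left _ (hp 166)) hh0
  have hH'H : H' ≤ H := hH'h0.trans hh0H
  have hHM : H ≤ M1 ^ 2 := le_trans (Nat.le_mul_of_pos_left _ hL0) hLH
  have hLR : (2 : ℝ) ^ 20 ≤ L := by exact_mod_cast hL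
  have hL1 : (1 : ℝ) ≤ L := by linarith [show (1 : ℝ) ≤ 2 ^ 20 by norm_num]
  have hLpos : (0 : ℝ) < L := by linarith
  have hNpos : (0 : ℝ) < N := by exact_mod_cast hN1
  -- parameters
  set i0 := N ^ 2 / (L ^ 3 * H') + 1 with hi0
  set i1 := N ^ 2 / H' with hi1
  have hi1H : i1 * H' ≤ N ^ 2 := Nat.div_mul_le_self _ _
  have hi1H' : N ^ 2 ≤ i1 * H' + H' := by
    have := Nat.lt_mul_div_succ (N ^ 2) (show 0 < H' by omega)
    have h5 : N ^ 2 < H' * i1 + H' := by simpa [mul_add, Nat.mul_succ] using this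
    have h6 : H' * i1 = i1 * H' := mul_comm _ _
    omega
  have hKH : 0 < L ^ 3 * H' := Nat.mul_pos (hp 3) hH'1
  have hi0H : N ^ 2 ≤ L ^ 3 * (i0 * H') := by
    have := (Nat.lt_mul_div_succ (N ^ 2) hKH).le
    calc N ^ 2 ≤ L ^ 3 * H' * (N ^ 2 / (L ^ 3 * H') + 1) := this
      _ = L ^ 3 * (i0 * H') := by rw [hi0]; ring
  have hi0H' : L ^ 3 * (i0 * H') ≤ N ^ 2 + L ^ 3 * H' := by
    have := Nat.mul_div_le (N ^ 2) (L ^ 3 * H')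
    calc L ^ 3 * (i0 * H') = L ^ 3 * H' * (N ^ 2 / (L ^ 3 * H')) + L ^ 3 * H' := by rw [hi0]; ring
      _ ≤ N ^ 2 + L ^ 3 * H' := Nat.add_le_add_right this _
  have hH'N : L ^ 3 * H' * L ^ 3 ≤ N ^ 2 := by
    calc L ^ 3 * H' * L ^ 3 ≤ L ^ 3 * H * L ^ 3 := by gcongr
      _ = H * L ^ 6 := by ring
      _ ≤ H * L ^ 27 := Nat.mul_le_mul_left _ (Nat.pow_le_pow_right hL0 (by norm_num))
      _ ≤ N ^ 2 := b2
  have hi01 : i0 ≤ i1 := by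
    have h3 : L ^ 3 * (N ^ 2 / (L ^ 3 * H')) ≤ N ^ 2 / H' := by
      rw [Nat.le_div_iff_mul_le (by omega)]
      calc L ^ 3 * (N ^ 2 / (L ^ 3 * H')) * H' = L ^ 3 * H' * (N ^ 2 / (L ^ 3 * H')) := by ring
        _ ≤ N ^ 2 := Nat.mul_div_le _ _
    have h4 : 1 ≤ N ^ 2 / (L ^ 3 * H') := (Nat.one_le_div_iff hKH).2
      (le_trans (Nat.le_mul_of_pos_right _ (hp 3)) hH'N)
    have h5 : 2 ≤ L ^ 3 := le_trans (by omega) (Nat.le_self_pow (by norm_num) L)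
    have h6 : 2 * (N ^ 2 / (L ^ 3 * H')) ≤ L ^ 3 * (N ^ 2 / (L ^ 3 * H')) :=
      Nat.mul_le_mul_right _ h5
    rw [hi0, hi1]
    omega
  obtain ⟨m1, m2, m3, m4⟩ := hMSS N M1 hM1 (hM.trans a4)
  obtain ⟨n1, n2', n3, n4⟩ := hMSS N M2 hM2 a4
  -- outside masses
  have hom : ∀ M : ℕ, M ≤ M2 → 2 * ((i0 * H' : ℕ) : ℝ) / (N : ℝ) ^ 2 +
      (((H' : ℕ) : ℝ) + (M : ℝ) ^ 2 + 2 * N) / (N : ℝ) ^ 2 ≤ 8 / L := by
    intro M hMM
    have hN2R : (0 : ℝ) < (N : ℝ) ^ 2 := by positivity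
    rw [← add_div, div_le_div_iff₀ hN2R hLpos]
    have c1 : (L : ℝ) * ((i0 * H' : ℕ) : ℝ) ≤ 2 * (N : ℝ) ^ 2 := by
      have h3 : L * (i0 * H') ≤ 2 * N ^ 2 := by
        calc L * (i0 * H') ≤ L ^ 3 * (i0 * H') :=
              Nat.mul_le_mul_right _ (Nat.le_self_pow (by norm_num) L)
          _ ≤ N ^ 2 + L ^ 3 * H' := hi0H'
          _ ≤ N ^ 2 + L ^ 3 * H' * L ^ 3 :=
              Nat.add_le_add_left (Nat.le_mul_of_pos_right _ (hp 3)) _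
          _ ≤ 2 * N ^ 2 := by omega
      exact_mod_cast h3
    have c2 : (L : ℝ) * (H' : ℝ) ≤ (N : ℝ) ^ 2 := by
      have h3 : L * H' ≤ N ^ 2 := by
        calc L * H' ≤ L ^ 3 * H' := Nat.mul_le_mul_right _ (Nat.le_self_pow (by norm_num) L)
          _ ≤ L ^ 3 * H' * L ^ 3 := Nat.le_mul_of_pos_right _ (hp 3)
          _ ≤ N ^ 2 := hH'N
      exact_mod_cast h3
    have c3 : (L : ℝ) * (M : ℝ) ^ 2 ≤ (N : ℝ) ^ 2 := by
      have h3 : L * M ^ 2 ≤ N ^ 2 := by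
        calc L * M ^ 2 ≤ L ^ 200 * M2 ^ 2 :=
              Nat.mul_le_mul (Nat.le_self_pow (by norm_num) L) (Nat.pow_le_pow_left hMM 2)
          _ ≤ N ^ 2 := b1
      exact_mod_cast h3
    have c4 : (L : ℝ) * (N : ℝ) ≤ (N : ℝ) ^ 2 := by
      have h3 : L ≤ N := by
        calc L ≤ L ^ 1200 := Nat.le_self_pow (by norm_num) L
          _ ≤ M1 := a2
          _ ≤ N := hM.trans a4
      have h4 : L * N ≤ N ^ 2 := by rw [sq]; exact Nat.mul_le_mul_right _ h3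
      exact_mod_cast h4
    nlinarith
  -- unif parts
  have hups : ∀ M : ℕ, M1 ≤ M → M ≤ M2 → ∀ f' g' : ZMod P → ℂ,
      Flat H (L ^ 27 * T) (1 / (L : ℝ) ^ 41) f' → (∀ u, ‖g' u‖ ≤ 1) →
      n2 (Tr (P := P) (2 * N ^ 2 + 1) (rhoS N M) f' g') ≤ 2175 / L := by
    intro M hMM1 hMM2 f' g' hfl hg'
    have hMpos : 1 ≤ M := hM1.trans hMM1
    have q1 : 2 * M * L ^ 2 ≤ H := by
      calc 2 * M * L ^ 2 ≤ 4 * M2 * L ^ 4 := by
            refine Nat.mul_le_mul (Nat.mul_le_mul (by norm_num) hMM2)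
              (Nat.pow_le_pow_right hL0 (by norm_num))
        _ = 4 * L ^ 4 * M2 := by ring
        _ ≤ H := hHM2
    have q2 : L ^ 2 ≤ H / (2 * M) := by
      rw [Nat.le_div_iff_mul_le (by omega)]
      calc L ^ 2 * (2 * M) = 2 * M * L ^ 2 := by ring
        _ ≤ H := q1
    have q3 : 2 * M * (H / (2 * M)) ≤ H := Nat.mul_div_le _ _
    have q4 : H ≤ 4 * M * (H / (2 * M)) := by
      have := fss_half (a := H) (b := 2 * M) (by omega)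
        (le_trans (Nat.le_mul_of_pos_right _ (hp 2)) q1)
      calc H ≤ 2 * (2 * M) * (H / (2 * M)) := this
        _ = 4 * M * (H / (2 * M)) := by ring
    have hMN : M ≤ N := hMM2.trans a4
    have q5 : 512 * (L ^ 3) ^ 5 ≤ N := by
      calc 512 * (L ^ 3) ^ 5 ≤ L * (L ^ 3) ^ 5 := Nat.mul_le_mul_right _ (by omega)
        _ = L ^ 16 := by ring
        _ ≤ L ^ 1200 := Nat.pow_le_pow_right hL0 (by norm_num)
        _ ≤ M1 := a2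
        _ ≤ N := hM.trans a4
    have hU := hUNS P H (L ^ 27) T N M (H / (2 * M)) (L ^ 3) L (1 / (L : ℝ) ^ 41) f' g' hP (hp 27)
      ((hp 2).trans q2) q3 q4 hMpos hMN hg' (fun l hl1 hl2 => hD l hl1 (hl2.trans b4)) (hp 3) q5
      (by omega) (by omega) hfl
    refine hU.trans ?_
    have r1 := fss_rad L (H / (2 * M)) hL q2
    have r2 : 2 * ((H / (2 * M) : ℕ) : ℝ) / M ≤ 1 / L := by
      rw [div_le_div_iff₀ (by exact_mod_cast hMpos) hLpos]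
      have h3 : 2 * (H / (2 * M)) * L ≤ 1 * M := by
        have h4 : M * (2 * (H / (2 * M)) * L) ≤ M * (1 * M) := by
          calc M * (2 * (H / (2 * M)) * L) = L * (2 * M * (H / (2 * M))) := by ring
            _ ≤ L * H := Nat.mul_le_mul_left _ q3
            _ ≤ M1 ^ 2 := hLH
            _ ≤ M ^ 2 := Nat.pow_le_pow_left hMM1 2
            _ = M * (1 * M) := by ring
        exact Nat.le_of_mul_le_mul_left h4 (by omega)
      exact_mod_cast h3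
    calc 2 * Real.sqrt (1 / ((H / (2 * M) : ℕ) : ℝ) + 12 * L / ((L ^ 3 : ℕ) : ℝ) +
      2 ^ 17 * L * ((L ^ 3 : ℕ) : ℝ) ^ 8 * Real.sqrt (6 * ((L ^ 27 : ℕ) : ℝ) * ((1 / (L : ℝ) ^ 41)) ^ 2 +
        72 / ((L ^ 27 : ℕ) : ℝ) ^ 2)) + 2 * ((H / (2 * M) : ℕ) : ℝ) / M
        ≤ 2 * (1087 / L) + 1 / L := add_le_add (mul_le_mul_of_nonneg_left r1 (by norm_num)) r2
      _ = 2175 / L := by ring
  -- windows
  have hwin : ∀ i : ℕ, i0 ≤ i → i < i1 → ∀ θ : ℝ,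
    ‖∑ k ∈ Ico (i * H') ((i + 1) * H'), ((rhoS N M1 k - rhoS N M2 k : ℝ) : ℂ) *
      ee ((k : ℝ) * θ)‖ ≤ (24 / (L : ℝ) ^ 83) * (H' : ℝ) / (N : ℝ) ^ 2 := by
    intro i hi hi' θ
    have w1 : i * H' + H2 * s ≤ N ^ 2 := by
      calc i * H' + H2 * s = (i + 1) * H' := by rw [← hH']; ring
        _ ≤ i1 * H' := Nat.mul_le_mul_right _ hi'
        _ ≤ N ^ 2 := hi1H
    have w2 : (M2 ^ 2 + H2 * s) * L ^ 83 ≤ i * H' := by
      have h3 : L ^ 3 * ((M2 ^ 2 + H2 * s) * L ^ 83) ≤ L ^ 3 * (i * H') := by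
        calc L ^ 3 * ((M2 ^ 2 + H2 * s) * L ^ 83) ≤ L ^ 3 * ((M2 ^ 2 + M2 ^ 2) * L ^ 83) := by
              refine Nat.mul_le_mul_left _ (Nat.mul_le_mul_right _ (Nat.add_le_add_left ?_ _))
              exact hH'H.trans (hHM.trans hM12)
          _ = 2 * M2 ^ 2 * L ^ 86 := by ring
          _ ≤ N ^ 2 := b3
          _ ≤ L ^ 3 * (i0 * H') := hi0H
          _ ≤ L ^ 3 * (i * H') := Nat.mul_le_mul_left _ (Nat.mul_le_mul_right _ hi)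
      exact Nat.le_of_mul_le_mul_left h3 (hp 3)
    have w3 : 32 * (L ^ 83) ^ 3 ≤ M1 := by
      calc 32 * (L ^ 83) ^ 3 ≤ L * (L ^ 83) ^ 3 := Nat.mul_le_mul_right _ (by omega)
        _ = L ^ 250 := by ring
        _ ≤ L ^ 1200 := Nat.pow_le_pow_right hL0 (by norm_num)
        _ ≤ M1 := a2
    have w4 : N ≤ M1 ^ 2 := le_trans (Nat.le_mul_of_pos_left _ (hp 1200)) a1
    have w5 : 8 ≤ L ^ 83 := le_trans (by omega) (Nat.le_self_pow (by norm_num) L)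
    have hW := hWDS N M1 M2 (L ^ 83) ell (i * H') H2 s θ hs1 w5 w1 hM w2 w3 h64
      (hH'H.trans hHM) w4 hellM hell hH2
    have e1 : i * H' + H2 * s = (i + 1) * H' := by rw [← hH']; ring
    rw [e1] at hW
    refine hW.trans (le_of_eq ?_)
    push_cast [hH']
    ring
  have hη : (0 : ℝ) < 1 / (L : ℝ) ^ 41 := by positivity
  have hη1 : 1 / (L : ℝ) ^ 41 ≤ 1 := by
    rw [div_le_one (by positivity)]
    exact one_le_pow₀ hL1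
  have hfin := hCOMB P H (L ^ 27 * T) H' i0 i1 (2 * N ^ 2 + 1) N (rhoS N M1) (rhoS N M2)
    (1 / (L : ℝ) ^ 41) (2175 / L) (8 / L) (24 / (L : ℝ) ^ 83) f g hP hH'1 hH'H hN1 hη hη1
    (by positivity) hi01 hi1H (by omega) m1 n1 m2 n2'
    ((add_le_add (m3 _) (m4 H' _ hi1H')).trans (hom M1 hM))
    ((add_le_add (n3 _) (n4 H' _ hi1H')).trans (hom M2 le_rfl))
    (hups M1 le_rfl hM) (hups M2 hM le_rfl) hwin hf hg
  refine hfin.trans ?_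
  have s1 : Real.sqrt ((H' : ℝ) / H) ≤ 1 / (L : ℝ) ^ 83 := by
    refine Real.sqrt_le_iff.2 ⟨by positivity, ?_⟩
    have hHpos : (0 : ℝ) < H := by exact_mod_cast hH1
    have h3 : (L : ℝ) ^ 166 * (H' : ℝ) ≤ H := by
      have : L ^ 166 * H' ≤ H := le_trans (Nat.mul_le_mul_left _ hH'h0) hh0
      exact_mod_cast this
    rw [div_pow, one_pow, ← pow_mul, div_le_div_iff₀ hHpos (by positivity)]
    norm_num
    linarith
  have s2 : 1 / (1 / (L : ℝ) ^ 41) ^ 2 * (24 / (L : ℝ) ^ 83 + 4 * Real.sqrt ((H' : ℝ) / H)) ≤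
      28 / (L : ℝ) := by
    calc 1 / (1 / (L : ℝ) ^ 41) ^ 2 * (24 / (L : ℝ) ^ 83 + 4 * Real.sqrt ((H' : ℝ) / H))
        ≤ 1 / (1 / (L : ℝ) ^ 41) ^ 2 * (24 / (L : ℝ) ^ 83 + 4 * (1 / (L : ℝ) ^ 83)) := by
          gcongr
      _ = 28 / (L : ℝ) := by
          field_simp
          norm_num
  calc 2 * (2175 / (L : ℝ)) + 4 * (8 / L) + 1 / (1 / (L : ℝ) ^ 41) ^ 2 *
        (24 / (L : ℝ) ^ 83 + 4 * Real.sqrt ((H' : ℝ) / H))
      ≤ 2 * (2175 / (L : ℝ)) + 4 * (8 / L) + 28 / L := by linarith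
    _ = 4410 / L := by ring
    _ ≤ 8192 / L := div_le_div_of_nonneg_right (by norm_num) hLpos.le

end Pool.Agent.BSQ
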