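import Pool.Agent.BSQ.StA
import Pool.Agent.BSQ.StB

/-!
# BSQ, module INT: interpolation between grid points
-/

set_option autoImplicit false

namespace Pool.Agent.BSQ

open Finset MeasureTheory Filter Topology
open scoped BigOperators
open Classical

/-- the box. -/
private def int_box (N M : ℕ) : Finset (ℕ × ℕ) := Icc 1 N ×ˢ Icc 1 M

private theorem int_WF (F : ℕ → ℝ) (N M : ℕ) :
    WF F N M = 2 / ((N : ℝ) ^ 2 * M) * ∑ p ∈ int_box N M, (p.1 : ℝ) * F (p.1 ^ 2 + p.2 ^ 2) := by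
  unfold WF int_box
  rw [Finset.sum_product]

private theorem int_T (N M : ℕ) :
    ∑ p ∈ int_box N M, (p.1 : ℝ) = M * (N * (N + 1) / 2) := by
  unfold int_box
  rw [Finset.sum_product]
  have h1 : ∀ N : ℕ, ∑ n ∈ Icc 1 N, (n : ℝ) = N * (N + 1) / 2 := by
    intro N
    induction N with
    | zero => simp
    | succ N ih =>
      rw [Finset.sum_Icc_succ_top (by omega), ih]
      push_cast
      ring
  have h2 : ∀ n ∈ Icc 1 N, ∑ _m ∈ Icc 1 M, (n : ℝ) = M * n := by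
    intro n _
    rw [Finset.sum_const, Nat.card_Icc, nsmul_eq_mul]
    simp
  rw [Finset.sum_congr rfl h2, ← Finset.mul_sum, h1]

private theorem int_abs (F : ℕ → ℝ) (hF : ∀ k, |F k| ≤ 1) (A : Finset (ℕ × ℕ)) :
    |∑ p ∈ A, (p.1 : ℝ) * F (p.1 ^ 2 + p.2 ^ 2)| ≤ ∑ p ∈ A, (p.1 : ℝ) := by
  refine (Finset.abs_sum_le_sum_abs _ _).trans (Finset.sum_le_sum fun p _ => ?_)
  rw [abs_mul, abs_of_nonneg (Nat.cast_nonneg p.1 : (0 : ℝ) ≤ p.1)]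
  exact mul_le_of_le_one_right (Nat.cast_nonneg _) (hF _)

private theorem int_one (F : ℕ → ℝ) (hF : ∀ k, |F k| ≤ 1) (N N' M M' : ℕ) (hN : 1 ≤ N)
    (hNN : N ≤ N') (hM : 1 ≤ M) (hMM : M ≤ M') :
    |WF F N M - WF F N' M'| ≤ 4 * (1 - (N : ℝ) ^ 2 * M / ((N' : ℝ) ^ 2 * M')) := by
  have hsub : int_box N M ⊆ int_box N' M' :=
    Finset.product_subset_product (Finset.Icc_subset_Icc le_rfl hNN)
      (Finset.Icc_subset_Icc le_rfl hMM)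
  have h1 : |∑ p ∈ int_box N' M', (p.1 : ℝ) * F (p.1 ^ 2 + p.2 ^ 2) -
      ∑ p ∈ int_box N M, (p.1 : ℝ) * F (p.1 ^ 2 + p.2 ^ 2)| ≤
      ∑ p ∈ int_box N' M', (p.1 : ℝ) - ∑ p ∈ int_box N M, (p.1 : ℝ) := by
    rw [← Finset.sum_sdiff hsub, add_sub_cancel_right, ← Finset.sum_sdiff hsub (f := fun p => (p.1 : ℝ)),
      add_sub_cancel_right]
    exact int_abs F hF _
  have h2 := int_abs F hF (int_box N M)
  rw [int_WF, int_WF]
  generalize ∑ p ∈ int_box N' M', (p.1 : ℝ) * F (p.1 ^ 2 + p.2 ^ 2) = S' at h1 ⊢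
  generalize ∑ p ∈ int_box N M, (p.1 : ℝ) * F (p.1 ^ 2 + p.2 ^ 2) = S at h1 h2 ⊢
  rw [int_T] at h2
  rw [int_T, int_T] at h1
  have hN0 : (1 : ℝ) ≤ N := by exact_mod_cast hN
  have hM0 : (1 : ℝ) ≤ M := by exact_mod_cast hM
  have hN1 : (N : ℝ) ≤ N' := by exact_mod_cast hNN
  have hM1 : (M : ℝ) ≤ M' := by exact_mod_cast hMM
  have hD : 0 < (N : ℝ) ^ 2 * M := by positivity
  have hD' : 0 < (N' : ℝ) ^ 2 * M' := by
    have : (0 : ℝ) < N' := by linarith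
    have : (0 : ℝ) < M' := by linarith
    positivity
  have hDD : (N : ℝ) ^ 2 * M ≤ (N' : ℝ) ^ 2 * M' := by gcongr
  have e1 : 2 / ((N : ℝ) ^ 2 * M) * S - 2 / ((N' : ℝ) ^ 2 * M') * S' =
      2 * S * (1 / ((N : ℝ) ^ 2 * M) - 1 / ((N' : ℝ) ^ 2 * M')) -
        2 * (S' - S) * (1 / ((N' : ℝ) ^ 2 * M')) := by
    ring
  rw [e1]
  have h3 : 0 ≤ 1 / ((N : ℝ) ^ 2 * M) - 1 / ((N' : ℝ) ^ 2 * M') := by
    rw [sub_nonneg]
    exact one_div_le_one_div_of_le hD hDD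
  have h4 : |2 * S * (1 / ((N : ℝ) ^ 2 * M) - 1 / ((N' : ℝ) ^ 2 * M'))| ≤
      2 * ((N : ℝ) ^ 2 * M) * (1 / ((N : ℝ) ^ 2 * M) - 1 / ((N' : ℝ) ^ 2 * M')) := by
    rw [abs_mul, abs_of_nonneg h3]
    apply mul_le_mul_of_nonneg_right _ h3
    rw [abs_mul, abs_of_nonneg (by norm_num : (0 : ℝ) ≤ 2)]
    have h5 : (M : ℝ) * (N * (N + 1) / 2) ≤ (N : ℝ) ^ 2 * M := by nlinarith
    linarith
  have h5 : |2 * (S' - S) * (1 / ((N' : ℝ) ^ 2 * M'))| ≤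
      2 * ((N' : ℝ) ^ 2 * M' - (N : ℝ) ^ 2 * M) * (1 / ((N' : ℝ) ^ 2 * M')) := by
    have h6 : 0 ≤ 1 / ((N' : ℝ) ^ 2 * M') := by positivity
    rw [abs_mul, abs_of_nonneg h6]
    apply mul_le_mul_of_nonneg_right _ h6
    rw [abs_mul, abs_of_nonneg (by norm_num : (0 : ℝ) ≤ 2)]
    have h7 : (N : ℝ) * M * (N - 1) ≤ N' * M' * (N' - 1) := by
      apply mul_le_mul
      · gcongr
      · linarith
      · linarith
      · have : (0 : ℝ) ≤ N' := by linarith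
        have : (0 : ℝ) ≤ M' := by linarith
        positivity
    nlinarith
  have h6 : 2 * ((N : ℝ) ^ 2 * M) * (1 / ((N : ℝ) ^ 2 * M) - 1 / ((N' : ℝ) ^ 2 * M')) +
      2 * ((N' : ℝ) ^ 2 * M' - (N : ℝ) ^ 2 * M) * (1 / ((N' : ℝ) ^ 2 * M')) =
      4 * (1 - (N : ℝ) ^ 2 * M / ((N' : ℝ) ^ 2 * M')) := by
    have hN'0 : (N' : ℝ) ≠ 0 := by
      have : (0 : ℝ) < N' := by linarith
      exact this.ne'
    have hM'0 : (M' : ℝ) ≠ 0 := by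
      have : (0 : ℝ) < M' := by linarith
      exact this.ne'
    field_simp
    ring
  have h7 := abs_sub (2 * S * (1 / ((N : ℝ) ^ 2 * M) - 1 / ((N' : ℝ) ^ 2 * M')))
    (2 * (S' - S) * (1 / ((N' : ℝ) ^ 2 * M')))
  linarith

private theorem int_three (F : ℕ → ℝ) (hF : ∀ k, |F k| ≤ 1) (N M : ℕ) : |WF F N M| ≤ 2 := by
  rw [int_WF]
  rcases Nat.eq_zero_or_pos N with h0 | hN
  · subst h0
    simp
  rcases Nat.eq_zero_or_pos M with h0 | hM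
  · subst h0
    simp
  have h2 := int_abs F hF (int_box N M)
  rw [int_T] at h2
  have hN0 : (1 : ℝ) ≤ N := by exact_mod_cast hN
  have hM0 : (1 : ℝ) ≤ M := by exact_mod_cast hM
  have hD : 0 < (N : ℝ) ^ 2 * M := by positivity
  rw [abs_mul, abs_of_nonneg (by positivity : (0 : ℝ) ≤ 2 / ((N : ℝ) ^ 2 * M)),
    div_mul_eq_mul_div, div_le_iff₀ hD]
  have h5 : (M : ℝ) * (N * (N + 1) / 2) ≤ (N : ℝ) ^ 2 * M := by nlinarith
  linarith

private theorem int_mem (R j X : ℕ) (p : ℕ × ℕ) : p ∈ SecX R j X ↔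
    1 ≤ p.1 ∧ 1 ≤ p.2 ∧ j * p.1 ≤ R * p.2 ∧ R * p.2 < (j + 1) * p.1 ∧ sq2 p < X := by
  unfold SecX
  rw [Finset.mem_filter, Finset.mem_product, Finset.mem_range, Finset.mem_range]
  constructor
  · rintro ⟨-, h⟩
    exact h
  · intro h
    refine ⟨?_, h⟩
    have h1 := h.2.2.2.2
    unfold sq2 at h1
    constructor <;> nlinarith [Nat.zero_le p.1, Nat.zero_le p.2, h.1, h.2.1]

private theorem int_cardle (R j N : ℕ) : ((SecX R j (N ^ 2)).card : ℝ) ≤ (N : ℝ) ^ 2 := by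
  have h1 : SecX R j (N ^ 2) ⊆ Icc 1 N ×ˢ Icc 1 N := by
    intro p hp
    rw [int_mem] at hp
    obtain ⟨h1, h2, -, -, h3⟩ := hp
    unfold sq2 at h3
    rw [Finset.mem_product, Finset.mem_Icc, Finset.mem_Icc]
    refine ⟨⟨h1, ?_⟩, h2, ?_⟩
    · have : p.1 ^ 2 ≤ N ^ 2 := by nlinarith
      exact (Nat.pow_le_pow_iff_left (by norm_num)).1 this
    · have : p.2 ^ 2 ≤ N ^ 2 := by nlinarith
      exact (Nat.pow_le_pow_iff_left (by norm_num)).1 this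
  have h2 := Finset.card_le_card h1
  rw [Finset.card_product, Nat.card_Icc, Nat.add_sub_cancel] at h2
  have h3 : ((SecX R j (N ^ 2)).card : ℝ) ≤ ((N * N : ℕ) : ℝ) := by exact_mod_cast h2
  push_cast at h3
  linarith [sq (N : ℝ)]

private theorem int_absS (F : ℕ → ℝ) (hF : ∀ k, |F k| ≤ 1) (A : Finset (ℕ × ℕ)) :
    |∑ p ∈ A, F (sq2 p)| ≤ A.card := by
  refine (Finset.abs_sum_le_sum_abs _ _).trans ?_
  refine (Finset.sum_le_sum fun p _ => hF (sq2 p)).trans (le_of_eq ?_)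
  simp

private theorem int_four (hAJ : St_AJ) (F : ℕ → ℝ) (hF : ∀ k, |F k| ≤ 1) (R j N : ℕ) (hR : 1 ≤ R)
    (hj : j < R) : |SF F R j N| ≤ 4 * R := by
  have hR0 : (0 : ℝ) < R := by exact_mod_cast hR
  have ha := (hAJ R j hR hj).2.2
  have ha0 : 0 < aj R j := lt_of_lt_of_le (by positivity) ha
  have hai : 1 / aj R j ≤ 4 * R := by
    rw [div_le_iff₀ ha0]
    rw [div_le_iff₀ (by positivity)] at ha
    linarith
  unfold SF
  rcases Nat.eq_zero_or_pos N with h0 | hN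
  · subst h0
    simp
  have hN0 : (0 : ℝ) < N := by exact_mod_cast hN
  have h1 := (int_absS F hF (SecX R j (N ^ 2))).trans (int_cardle R j N)
  rw [abs_mul, abs_of_nonneg (by positivity : (0 : ℝ) ≤ 1 / (aj R j * (N : ℝ) ^ 2))]
  calc 1 / (aj R j * (N : ℝ) ^ 2) * |∑ p ∈ SecX R j (N ^ 2), F (sq2 p)|
      ≤ 1 / (aj R j * (N : ℝ) ^ 2) * (N : ℝ) ^ 2 := by gcongr
    _ = 1 / aj R j := by field_simp
    _ ≤ 4 * R := hai

private theorem int_two (hSECT : St_SECT) (hAJ : St_AJ) (F : ℕ → ℝ) (hF : ∀ k, |F k| ≤ 1)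
    (R j N N' : ℕ) (hR : 1 ≤ R) (hj : j < R) (hN : 1 ≤ N) (hNN : N ≤ N') :
    |SF F R j N - SF F R j N'| ≤ 8 * R * (1 - (N : ℝ) ^ 2 / (N' : ℝ) ^ 2) + 48 * R / N' := by
  have hR0 : (1 : ℝ) ≤ R := by exact_mod_cast hR
  have ha := (hAJ R j hR hj).2.2
  have ha0 : 0 < aj R j := lt_of_lt_of_le (by positivity) ha
  have hai : 1 / aj R j ≤ 4 * R := by
    rw [div_le_iff₀ ha0]
    rw [div_le_iff₀ (by positivity)] at ha
    linarith
  have hN0 : (1 : ℝ) ≤ N := by exact_mod_cast hN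
  have hN1 : (N : ℝ) ≤ N' := by exact_mod_cast hNN
  have hN' : (0 : ℝ) < N' := by linarith
  have hNp : (0 : ℝ) < N := by linarith
  have hq : ∀ K : ℕ, |((SecX R j (K ^ 2)).card : ℝ) - aj R j * (K : ℝ) ^ 2| ≤ 4 * K + 2 := by
    intro K
    have h1 := hSECT R j 1 0 0 (K ^ 2) hR hj le_rfl (by omega) (by omega)
    have h2 : (SecX R j (K ^ 2)).filter (fun p => p.1 % 1 = 0 ∧ p.2 % 1 = 0) =
        SecX R j (K ^ 2) := by
      apply Finset.filter_true_of_mem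
      intro p _
      exact ⟨Nat.mod_one _, Nat.mod_one _⟩
    rw [h2] at h1
    have h3 : Real.sqrt ((K ^ 2 : ℕ) : ℝ) = K := by
      push_cast
      exact Real.sqrt_sq (Nat.cast_nonneg K)
    rw [h3] at h1
    norm_num at h1
    exact h1
  have hsub : SecX R j (N ^ 2) ⊆ SecX R j (N' ^ 2) := by
    intro p hp
    rw [int_mem] at hp ⊢
    obtain ⟨h1, h2, h3, h4, h5⟩ := hp
    exact ⟨h1, h2, h3, h4, lt_of_lt_of_le h5 (Nat.pow_le_pow_left hNN 2)⟩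
  have hd : |∑ p ∈ SecX R j (N' ^ 2), F (sq2 p) - ∑ p ∈ SecX R j (N ^ 2), F (sq2 p)| ≤
      ((SecX R j (N' ^ 2)).card : ℝ) - (SecX R j (N ^ 2)).card := by
    rw [← Finset.sum_sdiff hsub, add_sub_cancel_right]
    refine (int_absS F hF _).trans (le_of_eq ?_)
    rw [Finset.cast_card_sdiff hsub]
  have h1 := (int_absS F hF (SecX R j (N ^ 2))).trans (int_cardle R j N)
  have h2 := (abs_le.1 (hq N)).1
  have h3 := (abs_le.1 (hq N')).2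
  unfold SF
  generalize ∑ p ∈ SecX R j (N' ^ 2), F (sq2 p) = S' at hd ⊢
  generalize ∑ p ∈ SecX R j (N ^ 2), F (sq2 p) = S at hd h1 ⊢
  generalize ((SecX R j (N' ^ 2)).card : ℝ) = A' at hd h3
  generalize ((SecX R j (N ^ 2)).card : ℝ) = A at hd h2
  generalize aj R j = a at *
  have e1 : 1 / (a * (N : ℝ) ^ 2) * S - 1 / (a * (N' : ℝ) ^ 2) * S' =
      1 / a * (S * (1 / (N : ℝ) ^ 2 - 1 / (N' : ℝ) ^ 2)) - 1 / a * ((S' - S) / (N' : ℝ) ^ 2) := by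
    field_simp
    ring
  rw [e1]
  have h4 : 0 ≤ 1 / (N : ℝ) ^ 2 - 1 / (N' : ℝ) ^ 2 := by
    rw [sub_nonneg]
    apply one_div_le_one_div_of_le (by positivity)
    gcongr
  have hia : 0 < 1 / a := by positivity
  have h5 : |1 / a * (S * (1 / (N : ℝ) ^ 2 - 1 / (N' : ℝ) ^ 2))| ≤
      1 / a * (1 - (N : ℝ) ^ 2 / (N' : ℝ) ^ 2) := by
    rw [abs_mul, abs_of_pos hia, abs_mul, abs_of_nonneg h4]
    apply mul_le_mul_of_nonneg_left _ hia.le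
    calc |S| * (1 / (N : ℝ) ^ 2 - 1 / (N' : ℝ) ^ 2)
        ≤ (N : ℝ) ^ 2 * (1 / (N : ℝ) ^ 2 - 1 / (N' : ℝ) ^ 2) := by gcongr
      _ = 1 - (N : ℝ) ^ 2 / (N' : ℝ) ^ 2 := by field_simp
  have h6 : |1 / a * ((S' - S) / (N' : ℝ) ^ 2)| ≤
      1 / a * ((a * ((N' : ℝ) ^ 2 - (N : ℝ) ^ 2) + 12 * N') / (N' : ℝ) ^ 2) := by
    rw [abs_mul, abs_of_pos hia, abs_div, abs_of_nonneg (by positivity : (0 : ℝ) ≤ (N' : ℝ) ^ 2)]
    gcongr
    linarith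
  have h7 : 1 / a * ((a * ((N' : ℝ) ^ 2 - (N : ℝ) ^ 2) + 12 * N') / (N' : ℝ) ^ 2) =
      (1 - (N : ℝ) ^ 2 / (N' : ℝ) ^ 2) + 1 / a * (12 / N') := by
    field_simp
  have h8 : 0 ≤ 1 - (N : ℝ) ^ 2 / (N' : ℝ) ^ 2 := by
    rw [sub_nonneg, div_le_one (by positivity)]
    gcongr
  have h9 : 1 / a * (1 - (N : ℝ) ^ 2 / (N' : ℝ) ^ 2) ≤
      4 * R * (1 - (N : ℝ) ^ 2 / (N' : ℝ) ^ 2) := by gcongr
  have h10 : 1 / a * (12 / (N' : ℝ)) ≤ 4 * R * (12 / N') := by gcongr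
  have h11 : 4 * (R : ℝ) * (12 / N') = 48 * R / N' := by ring
  have h12 := abs_sub (1 / a * (S * (1 / (N : ℝ) ^ 2 - 1 / (N' : ℝ) ^ 2)))
    (1 / a * ((S' - S) / (N' : ℝ) ^ 2))
  have h13 : (1 - (N : ℝ) ^ 2 / (N' : ℝ) ^ 2) ≤ 4 * R * (1 - (N : ℝ) ^ 2 / (N' : ℝ) ^ 2) := by
    apply le_mul_of_one_le_left h8
    linarith
  linarith

theorem thm_INT (hSECT : St_SECT) (hAJ : St_AJ) : St_INT := by
  intro F hF
  exact ⟨fun N N' M M' h1 h2 h3 h4 => int_one F hF N N' M M' h1 h2 h3 h4,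
    fun R j N N' h1 h2 h3 h4 => int_two hSECT hAJ F hF R j N N' h1 h2 h3 h4,
    int_three F hF, fun R j N h1 h2 => int_four hAJ F hF R j N h1 h2⟩

end Pool.Agent.BSQ
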