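import Pool.Agent.BSQ.StA

/-!
# BSQ/LEMS (helper82): the exponential sums of two windows have the same main term
-/

set_option autoImplicit false

namespace Pool.Agent.BSQ

open Finset MeasureTheory
open scoped BigOperators
open Classical

private theorem lems_norm (x : ℝ) : ‖ee x‖ = 1 := by
  unfold ee
  exact Complex.norm_exp_ofReal_mul_I _

private theorem lems_add (x y : ℝ) : ee (x + y) = ee x * ee y := by
  unfold ee
  rw [← Complex.exp_add]
  congr 1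
  push_cast
  ring

private theorem lems_int (x : ℤ) : ee (x : ℝ) = 1 := by
  unfold ee
  rw [Complex.exp_eq_one_iff]
  refine ⟨x, ?_⟩
  push_cast
  ring

private theorem lems_lip (x y : ℝ) : ‖ee x - ee y‖ ≤ 2 * Real.pi * |x - y| := by
  have h1 : ee x = ee (x - y) * ee y := by
    rw [← lems_add]
    congr 1
    ring
  rw [h1]
  have h2 : ee (x - y) * ee y - ee y = (ee (x - y) - 1) * ee y := by ring
  rw [h2, norm_mul, lems_norm, mul_one]
  unfold ee
  have h3 := Real.norm_exp_I_mul_ofReal_sub_one_le (x := 2 * Real.pi * (x - y))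
  rw [mul_comm] at h3
  refine h3.trans (le_of_eq ?_)
  rw [Real.norm_eq_abs, abs_mul, abs_of_pos Real.two_pi_pos]

private theorem lems_split {M : Type} [AddCommMonoid M] (Ω : Finset (ℕ × ℕ)) (k0 H2 s : ℕ)
    (F : ℕ × ℕ → M) :
    ∑ p ∈ inW Ω k0 (k0 + H2 * s), F p =
      ∑ i ∈ range s, ∑ p ∈ inW Ω (k0 + i * H2) (k0 + (i + 1) * H2), F p := by
  induction s with
  | zero =>
    have : inW Ω k0 (k0 + H2 * 0) = ∅ := by
      unfold inW
      rw [filter_eq_empty_iff]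
      intro p _ h
      omega
    rw [this]
    simp
  | succ s ih =>
    rw [sum_range_succ, ← ih, ← sum_union]
    · refine sum_congr ?_ fun _ _ => rfl
      ext p
      unfold inW
      simp only [mem_union, mem_filter]
      have h1 : k0 + H2 * s = k0 + s * H2 := by ring
      have h2 : k0 + H2 * (s + 1) = k0 + (s + 1) * H2 := by ring
      have h3 : (s + 1) * H2 = s * H2 + H2 := by ring
      rw [h1, h2, h3]
      constructor
      · rintro ⟨a, b, c⟩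
        by_cases h : sq2 p < k0 + s * H2
        · exact Or.inl ⟨a, b, h⟩
        · exact Or.inr ⟨a, not_lt.1 h, c⟩
      · rintro (⟨a, b, c⟩ | ⟨a, b, c⟩)
        · exact ⟨a, b, by omega⟩
        · exact ⟨a, by omega, c⟩
    · rw [disjoint_left]
      intro p hp hq
      unfold inW at hp hq
      rw [mem_filter] at hp hq
      have h1 : k0 + H2 * s = k0 + s * H2 := by ring
      omega

private theorem lems_cnt1 {Ω : Finset (ℕ × ℕ)} {d ε : ℝ} {Q ell k0 H2 s : ℕ} (hQ : 1 ≤ Q)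
    (hW : Win Ω d ε Q ell k0 H2 s) (i : ℕ) (hi : i < s) :
    ((inW Ω (k0 + i * H2) (k0 + (i + 1) * H2)).card : ℝ) ≤ (1 + ε) * d * H2 := by
  have h1 := hW.cnt 1 le_rfl (by nlinarith [Nat.one_le_pow 2 Q hQ]) 0 0 (by norm_num) (by norm_num) i hi
  have h2 : (inW Ω (k0 + i * H2) (k0 + (i + 1) * H2)).filter
      (fun p => p.1 % 1 = 0 ∧ p.2 % 1 = 0) = inW Ω (k0 + i * H2) (k0 + (i + 1) * H2) := by
    refine filter_true_of_mem fun p _ => ⟨Nat.mod_one _, Nat.mod_one _⟩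
  rw [h2] at h1
  have h3 := (abs_le.1 h1).2
  simp only [Nat.cast_one, one_pow, div_one] at h3
  linarith

private theorem lems_card {Ω : Finset (ℕ × ℕ)} {d ε : ℝ} {Q ell k0 H2 s : ℕ} (hQ : 1 ≤ Q)
    (hW : Win Ω d ε Q ell k0 H2 s) :
    ((inW Ω k0 (k0 + H2 * s)).card : ℝ) ≤ (1 + ε) * d * (H2 * s) := by
  have h1 := lems_split Ω k0 H2 s (fun _ => (1 : ℝ))
  simp only [sum_const, nsmul_eq_mul, mul_one] at h1
  rw [h1]
  calc ∑ i ∈ range s, ((inW Ω (k0 + i * H2) (k0 + (i + 1) * H2)).card : ℝ) ≤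
      ∑ _i ∈ range s, (1 + ε) * d * H2 :=
        sum_le_sum fun i hi => lems_cnt1 hQ hW i (mem_range.1 hi)
    _ = _ := by
      rw [sum_const, card_range, nsmul_eq_mul]
      ring

/-- minor case -/
private theorem lems_minor (hWEY : St_WEY) {Ω : Finset (ℕ × ℕ)} {d ε : ℝ} {Q ell k0 H2 s : ℕ}
    {θ : ℝ} (hd : 0 < d) (hQ : 1 ≤ Q) (hell : 512 * Q ^ 4 ≤ ell) (hW : Win Ω d ε Q ell k0 H2 s)
    (hθ : ∀ q : ℕ, 1 ≤ q → q ≤ 16 * Q ^ 2 → ¬ dI ((q : ℝ) * θ) ≤ 32 * (Q : ℝ) ^ 4 / (ell : ℝ) ^ 2) :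
    ‖∑ p ∈ inW Ω k0 (k0 + H2 * s), ee ((sq2 p : ℝ) * θ)‖ ≤
      (1 + ε) * d * (H2 * s) / Q + ε * d * (H2 * s) := by
  set S := inW Ω k0 (k0 + H2 * s) with hS
  have hQ0 : (0 : ℝ) < Q := by exact_mod_cast hQ
  have hell0 : (0 : ℝ) < ell := by
    have : 0 < 512 * Q ^ 4 := by positivity
    exact_mod_cast lt_of_lt_of_le this hell
  have hfib := sum_fiberwise_of_maps_to (s := S) (t := S.image Prod.fst) (g := Prod.fst)
    (fun p hp => mem_image_of_mem _ hp) (fun p => ee ((sq2 p : ℝ) * θ))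
  have hfibc := card_eq_sum_card_fiberwise (s := S) (t := S.image Prod.fst) (f := Prod.fst)
    (fun p hp => mem_image_of_mem _ hp)
  rw [← hfib]
  refine (norm_sum_le _ _).trans ?_
  have hn : ∀ n ∈ S.image Prod.fst, ‖∑ p ∈ S.filter (fun p => p.1 = n), ee ((sq2 p : ℝ) * θ)‖ ≤
      ((S.filter (fun p => p.1 = n)).card : ℝ) / Q + ell := by
    intro n _
    obtain ⟨a, b, hab⟩ := hW.sec n
    have h1 : S.filter (fun p => p.1 = n) = (Ico a b).image (fun m => (n, m)) := by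
      ext p
      rw [mem_filter, mem_image]
      constructor
      · rintro ⟨h2, h3⟩
        refine ⟨p.2, ?_, Prod.ext h3.symm rfl⟩
        rw [mem_Ico]
        apply (hab p.2).1
        rw [← h3]
        exact h2
      · rintro ⟨m, hm, rfl⟩
        exact ⟨(hab m).2 (mem_Ico.1 hm), rfl⟩
    have hinj : Function.Injective (fun m : ℕ => (n, m)) := fun x y h => (Prod.mk.inj h).2
    rw [h1, sum_image (fun x _ y _ h => hinj h), card_image_of_injective _ hinj, Nat.card_Ico]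
    have h2 : ∀ m : ℕ, ee ((sq2 (n, m) : ℝ) * θ) = ee ((n : ℝ) ^ 2 * θ) * ee (θ * (m : ℝ) ^ 2) := by
      intro m
      rw [← lems_add]
      congr 1
      unfold sq2
      push_cast
      ring
    simp only [h2]
    rw [← mul_sum, norm_mul, lems_norm, one_mul]
    rcases Nat.lt_or_ge (b - a) ell with h3 | h3
    · have h4 : ‖∑ m ∈ Ico a b, ee (θ * (m : ℝ) ^ 2)‖ ≤ ((b - a : ℕ) : ℝ) := by
        refine (norm_sum_le _ _).trans ?_
        simp only [lems_norm, sum_const, Nat.card_Ico, nsmul_eq_mul, mul_one]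
        exact le_refl _
      have h5 : ((b - a : ℕ) : ℝ) ≤ ell := by exact_mod_cast h3.le
      have h6 : 0 ≤ ((b - a : ℕ) : ℝ) / Q := by positivity
      linarith
    · by_contra hcon
      push Not at hcon
      have hb : b = a + (b - a) := by
        have : 0 < ell := by exact_mod_cast hell0
        omega
      have h4 : ((b - a : ℕ) : ℝ) / Q ≤ ‖∑ m ∈ Ico a (a + (b - a)), ee (θ * (m : ℝ) ^ 2)‖ := by
        rw [← hb]
        linarith
      obtain ⟨q, hq1, hq2, hq3⟩ := hWEY θ a (b - a) Q hQ (hell.trans h3) h4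
      refine hθ q hq1 hq2 (hq3.trans ?_)
      have h5 : (ell : ℝ) ≤ ((b - a : ℕ) : ℝ) := by exact_mod_cast h3
      gcongr
  refine (sum_le_sum hn).trans ?_
  rw [sum_add_distrib, ← sum_div, sum_const, nsmul_eq_mul]
  have h1 : (∑ n ∈ S.image Prod.fst, ((S.filter (fun p => p.1 = n)).card : ℝ)) = (S.card : ℝ) := by
    rw [hfibc]
    push_cast
    rfl
  rw [h1]
  have h2 := lems_card hQ hW
  have h3 := hW.few
  rw [← hS] at h2 h3
  refine add_le_add ?_ h3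
  gcongr

/-- the residues -/
private theorem lems_res (a : ℤ) (q : ℕ) (hq : 1 ≤ q) (p : ℕ × ℕ) :
    ee ((sq2 p : ℝ) * (a / q)) = ee ((((p.1 % q) ^ 2 + (p.2 % q) ^ 2 : ℕ) : ℝ) * (a / q)) := by
  have hq0 : (q : ℝ) ≠ 0 := by
    have : (0 : ℝ) < q := by exact_mod_cast hq
    exact this.ne'
  obtain ⟨n, m⟩ := p
  have hn := Nat.div_add_mod n q
  have hm := Nat.div_add_mod m q
  set t : ℕ := (q * (n / q) ^ 2 + 2 * (n / q) * (n % q)) + (q * (m / q) ^ 2 + 2 * (m / q) * (m % q))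
    with ht
  have h1 : sq2 (n, m) = ((n % q) ^ 2 + (m % q) ^ 2) + q * t := by
    unfold sq2
    simp only
    conv_lhs => rw [← hn, ← hm]
    rw [ht]
    ring
  have h2 : ((sq2 (n, m) : ℕ) : ℝ) * (a / q) =
      (((n % q) ^ 2 + (m % q) ^ 2 : ℕ) : ℝ) * (a / q) + ((t * a : ℤ) : ℝ) := by
    rw [h1]
    push_cast
    field_simp
  rw [h2, lems_add, lems_int, mul_one]

/-- the Gauss sum part of a window -/
private theorem lems_gauss {Ω : Finset (ℕ × ℕ)} {d ε : ℝ} {Q ell k0 H2 s : ℕ}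
    (hW : Win Ω d ε Q ell k0 H2 s) (a : ℤ) (q : ℕ) (hq : 1 ≤ q) (hq2 : q ≤ 16 * Q ^ 2) (i : ℕ)
    (hi : i < s) :
    ‖∑ p ∈ inW Ω (k0 + i * H2) (k0 + (i + 1) * H2), ee ((sq2 p : ℝ) * (a / q)) -
      (d : ℂ) * (H2 * ((∑ u ∈ range q, ∑ v ∈ range q,
        ee (((u ^ 2 + v ^ 2 : ℕ) : ℝ) * (a / q))) / (q : ℂ) ^ 2))‖ ≤ ε * d * H2 := by
  have hq0 : (0 : ℝ) < q := by exact_mod_cast hq
  set S := inW Ω (k0 + i * H2) (k0 + (i + 1) * H2) with hS
  have h1 : ∑ p ∈ S, ee ((sq2 p : ℝ) * (a / q)) = ∑ u ∈ range q, ∑ v ∈ range q,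
      ((S.filter (fun p => p.1 % q = u ∧ p.2 % q = v)).card : ℂ) *
        ee (((u ^ 2 + v ^ 2 : ℕ) : ℝ) * (a / q)) := by
    have hfib := sum_fiberwise_of_maps_to (s := S) (t := range q ×ˢ range q)
      (g := fun p : ℕ × ℕ => (p.1 % q, p.2 % q))
      (fun p _ => mem_product.2 ⟨mem_range.2 (Nat.mod_lt _ hq), mem_range.2 (Nat.mod_lt _ hq)⟩)
      (fun p => ee ((sq2 p : ℝ) * (a / q)))
    rw [← hfib, sum_product]
    refine sum_congr rfl fun u _ => sum_congr rfl fun v _ => ?_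
    have h2 : S.filter (fun p => (p.1 % q, p.2 % q) = (u, v)) =
        S.filter (fun p => p.1 % q = u ∧ p.2 % q = v) := by
      refine filter_congr fun p _ => ?_
      rw [Prod.mk.injEq]
    rw [h2]
    have h3 : ∀ p ∈ S.filter (fun p => p.1 % q = u ∧ p.2 % q = v), ee ((sq2 p : ℝ) * (a / q)) =
        ee (((u ^ 2 + v ^ 2 : ℕ) : ℝ) * (a / q)) := by
      intro p hp
      rw [mem_filter] at hp
      rw [lems_res a q hq p, hp.2.1, hp.2.2]
    rw [sum_congr rfl h3, sum_const, nsmul_eq_mul]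
  have h2 : (d : ℂ) * (H2 * ((∑ u ∈ range q, ∑ v ∈ range q,
        ee (((u ^ 2 + v ^ 2 : ℕ) : ℝ) * (a / q))) / (q : ℂ) ^ 2)) =
      ∑ u ∈ range q, ∑ v ∈ range q, ((d * H2 / (q : ℝ) ^ 2 : ℝ) : ℂ) *
        ee (((u ^ 2 + v ^ 2 : ℕ) : ℝ) * (a / q)) := by
    simp only [← mul_sum]
    push_cast
    ring
  rw [h1, h2, ← sum_sub_distrib]
  simp only [← sum_sub_distrib, ← sub_mul]
  refine (norm_sum_le _ _).trans ?_
  calc ∑ u ∈ range q, ‖∑ v ∈ range q, (((S.filter (fun p => p.1 % q = u ∧ p.2 % q = v)).card : ℂ) -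
        ((d * H2 / (q : ℝ) ^ 2 : ℝ) : ℂ)) * ee (((u ^ 2 + v ^ 2 : ℕ) : ℝ) * (a / q))‖ ≤
      ∑ _u ∈ range q, ∑ _v ∈ range q, ε * d * H2 / (q : ℝ) ^ 2 := by
        refine sum_le_sum fun u hu => (norm_sum_le _ _).trans (sum_le_sum fun v hv => ?_)
        rw [norm_mul, lems_norm, mul_one]
        have h3 := hW.cnt q hq hq2 u v (mem_range.1 hu) (mem_range.1 hv) i hi
        have h4 : (((S.filter (fun p => p.1 % q = u ∧ p.2 % q = v)).card : ℂ) -
            ((d * H2 / (q : ℝ) ^ 2 : ℝ) : ℂ)) =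
            (((((S.filter (fun p => p.1 % q = u ∧ p.2 % q = v)).card : ℝ)) -
              d * H2 / (q : ℝ) ^ 2 : ℝ) : ℂ) := by
          push_cast
          ring
        rw [h4, Complex.norm_real]
        exact h3
    _ = ε * d * H2 := by
        simp only [sum_const, card_range, nsmul_eq_mul]
        field_simp

/-- major case -/
private theorem lems_major {Ω : Finset (ℕ × ℕ)} {d ε : ℝ} {Q ell k0 H2 s : ℕ}
    (hQ : 1 ≤ Q) (hW : Win Ω d ε Q ell k0 H2 s) (a : ℤ) (q : ℕ) (β : ℝ)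
    (hq : 1 ≤ q) (hq2 : q ≤ 16 * Q ^ 2) (hβ : 2 * Real.pi * (|β| * H2) ≤ 1 / Q) :
    ‖∑ p ∈ inW Ω k0 (k0 + H2 * s), ee ((sq2 p : ℝ) * (a / q + β)) -
      (d : ℂ) * ∑ i ∈ range s, ee (((k0 + i * H2 : ℕ) : ℝ) * β) * (H2 * ((∑ u ∈ range q,
        ∑ v ∈ range q, ee (((u ^ 2 + v ^ 2 : ℕ) : ℝ) * (a / q))) / (q : ℂ) ^ 2))‖ ≤
      (1 + ε) * d * (H2 * s) / Q + ε * d * (H2 * s) := by
  set G : ℂ := H2 * ((∑ u ∈ range q, ∑ v ∈ range q,
        ee (((u ^ 2 + v ^ 2 : ℕ) : ℝ) * (a / q))) / (q : ℂ) ^ 2) with hG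
  have hQ0 : (0 : ℝ) < Q := by exact_mod_cast hQ
  rw [lems_split, mul_sum, ← sum_sub_distrib]
  refine (norm_sum_le _ _).trans ?_
  calc ∑ i ∈ range s, ‖∑ p ∈ inW Ω (k0 + i * H2) (k0 + (i + 1) * H2),
        ee ((sq2 p : ℝ) * (a / q + β)) - (d : ℂ) * (ee (((k0 + i * H2 : ℕ) : ℝ) * β) * G)‖ ≤
      ∑ _i ∈ range s, ((1 + ε) * d * H2 / Q + ε * d * H2) := by
        refine sum_le_sum fun i hi => ?_
        have hi' := mem_range.1 hi
        have h1 := lems_gauss hW a q hq hq2 i hi'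
        rw [← hG] at h1
        have h2 := lems_cnt1 hQ hW i hi'
        set S := inW Ω (k0 + i * H2) (k0 + (i + 1) * H2) with hS
        have h3 : ∑ p ∈ S, ee ((sq2 p : ℝ) * (a / q + β)) -
            (d : ℂ) * (ee (((k0 + i * H2 : ℕ) : ℝ) * β) * G) =
            ∑ p ∈ S, ee ((sq2 p : ℝ) * (a / q)) * (ee ((sq2 p : ℝ) * β) -
              ee (((k0 + i * H2 : ℕ) : ℝ) * β)) +
            ee (((k0 + i * H2 : ℕ) : ℝ) * β) * (∑ p ∈ S, ee ((sq2 p : ℝ) * (a / q)) -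
              (d : ℂ) * G) := by
          have h4 : ∀ p : ℕ × ℕ, ee ((sq2 p : ℝ) * (a / q + β)) =
              ee ((sq2 p : ℝ) * (a / q)) * ee ((sq2 p : ℝ) * β) := by
            intro p
            rw [← lems_add]
            congr 1
            ring
          simp only [h4, mul_sub, sum_sub_distrib, ← sum_mul]
          ring
        rw [h3]
        refine (norm_add_le _ _).trans (add_le_add ?_ ?_)
        · refine (norm_sum_le _ _).trans ?_
          calc ∑ p ∈ S, ‖ee ((sq2 p : ℝ) * (a / q)) * (ee ((sq2 p : ℝ) * β) -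
                ee (((k0 + i * H2 : ℕ) : ℝ) * β))‖ ≤ ∑ _p ∈ S, (1 / Q : ℝ) := by
                refine sum_le_sum fun p hp => ?_
                rw [norm_mul, lems_norm, one_mul]
                refine (lems_lip _ _).trans (le_trans ?_ hβ)
                refine mul_le_mul_of_nonneg_left ?_ Real.two_pi_pos.le
                rw [← sub_mul, abs_mul, mul_comm]
                refine mul_le_mul_of_nonneg_left ?_ (abs_nonneg _)
                rw [hS, inW, mem_filter] at hp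
                have e1 : ((k0 + i * H2 : ℕ) : ℝ) ≤ (sq2 p : ℝ) := by exact_mod_cast hp.2.1
                have e2 : (sq2 p : ℝ) ≤ ((k0 + (i + 1) * H2 : ℕ) : ℝ) := by
                  exact_mod_cast hp.2.2.le
                push_cast at e1 e2 ⊢
                rw [abs_le]
                constructor <;> nlinarith [Nat.cast_nonneg (α := ℝ) H2]
            _ = (S.card : ℝ) / Q := by
                rw [sum_const, nsmul_eq_mul]
                ring
            _ ≤ _ := by gcongr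
        · rw [norm_mul, lems_norm, one_mul]
          exact h1
    _ = _ := by
        rw [sum_const, card_range, nsmul_eq_mul]
        ring

/-- **LEMS** -/
theorem thm_LEMS (hWEY : St_WEY) : St_LEMS := by
  intro Ω1 Ω2 d1 d2 ε Q ell k0 H2 s θ hd1 hd2 hε hε1 hQ hell hH2 hW1 hW2
  have hQ0 : (0 : ℝ) < Q := by exact_mod_cast hQ
  have hell0 : (0 : ℝ) < ell := by
    have : 0 < 512 * Q ^ 4 := by positivity
    exact_mod_cast lt_of_lt_of_le this hell
  -- it is enough to find the main term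
  suffices h : ∃ Mn : ℂ, ∀ (Ω : Finset (ℕ × ℕ)) (d : ℝ), 0 < d → Win Ω d ε Q ell k0 H2 s →
      ‖∑ p ∈ inW Ω k0 (k0 + H2 * s), ee ((sq2 p : ℝ) * θ) - (d : ℂ) * Mn‖ ≤
        (1 + ε) * d * (H2 * s) / Q + ε * d * (H2 * s) by
    obtain ⟨Mn, hMn⟩ := h
    have key : ∀ (Ω : Finset (ℕ × ℕ)) (d : ℝ), 0 < d → Win Ω d ε Q ell k0 H2 s →
        ‖(∑ p ∈ inW Ω k0 (k0 + H2 * s), ee ((sq2 p : ℝ) * θ)) / (d : ℂ) - Mn‖ ≤
          (2 / Q + ε) * (H2 * s) := by
      intro Ω d hd hW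
      have h1 := hMn Ω d hd hW
      have hdc : (d : ℂ) ≠ 0 := by exact_mod_cast hd.ne'
      have h2 : (∑ p ∈ inW Ω k0 (k0 + H2 * s), ee ((sq2 p : ℝ) * θ)) / (d : ℂ) - Mn =
          (∑ p ∈ inW Ω k0 (k0 + H2 * s), ee ((sq2 p : ℝ) * θ) - (d : ℂ) * Mn) / (d : ℂ) := by
        rw [sub_div, mul_div_cancel_left₀ _ hdc]
      rw [h2, norm_div, Complex.norm_real, Real.norm_of_nonneg hd.le, div_le_iff₀ hd]
      refine h1.trans ?_
      have h3 : (0 : ℝ) ≤ d * (H2 * s) / Q := by positivity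
      have h4 : (1 + ε) * d * (H2 * s) / Q ≤ 2 * (d * (H2 * s) / Q) := by
        have : (1 + ε) * d * (H2 * s) / Q = (1 + ε) * (d * (H2 * s) / Q) := by ring
        rw [this]
        gcongr
        linarith
      have h5 : (2 / Q + ε) * (H2 * s) * d = 2 * (d * (H2 * s) / Q) + ε * d * (H2 * s) := by ring
      rw [h5]
      linarith
    have k1 := key Ω1 d1 hd1 hW1
    have k2 := key Ω2 d2 hd2 hW2
    calc _ = ‖((∑ p ∈ inW Ω1 k0 (k0 + H2 * s), ee ((sq2 p : ℝ) * θ)) / (d1 : ℂ) - Mn) -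
          ((∑ p ∈ inW Ω2 k0 (k0 + H2 * s), ee ((sq2 p : ℝ) * θ)) / (d2 : ℂ) - Mn)‖ := by
            congr 1
            ring
      _ ≤ (2 / Q + ε) * (H2 * s) + (2 / Q + ε) * (H2 * s) := (norm_sub_le _ _).trans (add_le_add k1 k2)
      _ = _ := by ring
  by_cases hθ : ∃ q : ℕ, 1 ≤ q ∧ q ≤ 16 * Q ^ 2 ∧ dI ((q : ℝ) * θ) ≤ 32 * (Q : ℝ) ^ 4 / (ell : ℝ) ^ 2
  · obtain ⟨q, hq1, hq2, hq3⟩ := hθ
    have hq0 : (1 : ℝ) ≤ q := by exact_mod_cast hq1
    set a : ℤ := round ((q : ℝ) * θ) with ha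
    set β : ℝ := θ - a / q with hβ
    have hθβ : θ = a / q + β := by
      rw [hβ]
      ring
    have hβle : |β| ≤ 32 * (Q : ℝ) ^ 4 / (ell : ℝ) ^ 2 := by
      have h1 : β = ((q : ℝ) * θ - a) / q := by
        rw [hβ]
        field_simp
      rw [h1, abs_div, abs_of_pos (by linarith : (0 : ℝ) < q)]
      refine (div_le_self (abs_nonneg _) hq0).trans ?_
      exact hq3
    refine ⟨∑ i ∈ range s, ee (((k0 + i * H2 : ℕ) : ℝ) * β) * (H2 * ((∑ u ∈ range q,
        ∑ v ∈ range q, ee (((u ^ 2 + v ^ 2 : ℕ) : ℝ) * (a / q))) / (q : ℂ) ^ 2)),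
      fun Ω d hd hW => ?_⟩
    rw [hθβ]
    refine lems_major hQ hW a q β hq1 hq2 ?_
    have hH2' : 202 * (Q : ℝ) ^ 5 * H2 ≤ (ell : ℝ) ^ 2 := by exact_mod_cast hH2
    have hpi := Real.pi_lt_d4
    calc 2 * Real.pi * (|β| * H2) ≤ 2 * Real.pi * ((32 * (Q : ℝ) ^ 4 / (ell : ℝ) ^ 2) * H2) := by
          gcongr
      _ = (64 * Real.pi) * ((Q : ℝ) ^ 4 * H2) / (ell : ℝ) ^ 2 := by ring
      _ ≤ 202 * ((Q : ℝ) ^ 4 * H2) / (ell : ℝ) ^ 2 := by
          gcongr
          linarith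
      _ ≤ 1 / Q := by
          rw [div_le_div_iff₀ (by positivity) hQ0]
          calc 202 * ((Q : ℝ) ^ 4 * H2) * Q = 202 * (Q : ℝ) ^ 5 * H2 := by ring
            _ ≤ 1 * (ell : ℝ) ^ 2 := by linarith
  · push Not at hθ
    refine ⟨0, fun Ω d hd hW => ?_⟩
    rw [mul_zero, sub_zero]
    exact lems_minor hWEY hd hQ hell hW (fun q h1 h2 => not_le.2 (hθ q h1 h2))

end Pool.Agent.BSQ
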