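import Pool.Agent.BSQ.StB

/-!
# BSQ, module MAIN: assembly for a system (helper44)
-/

set_option autoImplicit false

namespace Pool.Agent.BSQ

open Finset MeasureTheory Filter Topology
open scoped BigOperators
open Classical

private theorem main_AF (F : ℕ → ℝ) (C c : ℝ) (N : ℕ) : AF (fun k => C * F k) c N = C * AF F c N := by
  unfold AF
  simp only [← Finset.mul_sum]
  ring

private theorem main_BF (F : ℕ → ℝ) (C : ℝ) (N : ℕ) : BF (fun k => C * F k) N = C * BF F N := by
  unfold BF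
  simp only [← Finset.mul_sum]
  ring

/-- a measurable bounded version of a function in `L^∞`. -/
private theorem main_norm {X : Type} [MeasurableSpace X] (μ : Measure X) (f : X → ℝ)
    (hf : MemLp f ⊤ μ) : ∃ (C : ℝ) (f' : X → ℝ), 1 ≤ C ∧ Measurable f' ∧ (∀ x, |f' x| ≤ 1) ∧
      ∀ᵐ x ∂μ, f x = C * f' x := by
  set h0 := hf.1.mk f with hh0
  have hm : Measurable h0 := hf.1.stronglyMeasurable_mk.measurable
  have he : f =ᵐ[μ] h0 := hf.1.ae_eq_mk
  set C := max 1 (eLpNormEssSup f μ).toReal with hC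
  have hfin : eLpNormEssSup f μ ≠ ⊤ := by
    have := hf.2
    rw [eLpNorm_exponent_top] at this
    exact this.ne
  have hb : ∀ᵐ x ∂μ, |f x| ≤ C := by
    filter_upwards [ae_le_eLpNormEssSup (f := f) (μ := μ)] with x hx
    have h1 : ‖f x‖ ≤ (eLpNormEssSup f μ).toReal := by
      have h2 := ENNReal.toReal_mono hfin hx
      simpa using h2
    rw [Real.norm_eq_abs] at h1
    exact h1.trans (le_max_right _ _)
  have hC1 : 1 ≤ C := le_max_left _ _
  have hC0 : 0 < C := by linarith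
  refine ⟨C, fun x => if |h0 x| ≤ C then h0 x / C else 0, hC1, ?_, ?_, ?_⟩
  · exact Measurable.ite (measurableSet_le (by fun_prop) measurable_const)
      (hm.div_const C) measurable_const
  · intro x
    dsimp only
    split_ifs with h
    · rw [abs_div, abs_of_pos hC0, div_le_one hC0]
      exact h
    · simp
  · filter_upwards [he, hb] with x hx1 hx2
    rw [if_pos (by rw [← hx1]; exact hx2), ← hx1]
    field_simp

private theorem main_orbit {X : Type} [MeasurableSpace X] (μ : Measure X) (T : X → X)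
    (hT : MeasurePreserving T μ μ) (f h : X → ℝ) (hfh : ∀ᵐ x ∂μ, f x = h x) :
    ∀ᵐ x ∂μ, ∀ k : ℕ, f (T^[k] x) = h (T^[k] x) := by
  refine ae_all_iff.2 fun k => ?_
  exact (hT.iterate k).quasiMeasurePreserving.ae hfh

/-- **MAIN**. -/
theorem thm_MAIN (hAES : St_AES) (hCHN : St_CHN) (hAEC : St_AEC) (hDAB : St_DAB) (hDFN : St_DFN) :
    St_MAIN := by
  intro X _ μ _ T hT f g hf hg
  obtain ⟨C, f', hC, hfm, hfb, hfe⟩ := main_norm μ f hf
  obtain ⟨D, g', hD, hgm, hgb, hge⟩ := main_norm μ g hg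
  have hTs : MeasurePreserving (⇑T.symm) μ μ := hT.symm
  have o1 := main_orbit μ (⇑T) hT f (fun x => C * f' x) hfe
  have o2 := main_orbit μ (⇑T.symm) hTs g (fun x => D * g' x) hge
  have u1 : ∀ᵐ x ∂μ, ∀ q1 q2 : ℚ, (1 / 2 : ℝ) < q1 → (q1 : ℝ) ≤ q2 → (q2 : ℝ) < 1 →
      (1 : ℝ) < 4 * q1 - 2 * q2 → UnifW (FT T f' g' x) q1 q2 := by
    refine ae_all_iff.2 fun q1 => ae_all_iff.2 fun q2 => ?_
    by_cases h : (1 / 2 : ℝ) < q1 ∧ (q1 : ℝ) ≤ q2 ∧ (q2 : ℝ) < 1 ∧ (1 : ℝ) < 4 * q1 - 2 * q2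
    · filter_upwards [hAES X μ T hT f' g' hfm hgm hfb hgb q1 q2 h.1 h.2.1 h.2.2.1 h.2.2.2] with x hx
      intro _ _ _ _
      exact hx
    · refine Filter.Eventually.of_forall fun x a1 a2 a3 a4 => absurd ⟨a1, a2, a3, a4⟩ h
  have u2 := hAEC X μ T hT f' g' hfm hgm hfb hgb
  filter_upwards [o1, o2, u1, u2] with x hx1 hx2 hx3 hx4
  have hF : FT T f g x = fun k => (C * D) * FT T f' g' x k := by
    funext k
    unfold FT
    rw [hx1 k, hx2 k]
    ring
  have hb : ∀ k, |FT T f' g' x k| ≤ 1 := by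
    intro k
    unfold FT
    rw [abs_mul]
    exact mul_le_one₀ (hfb _) (abs_nonneg _) (hgb _)
  have hU := hCHN (FT T f' g' x) hx3
  obtain ⟨d1, d2⟩ := hDAB (FT T f' g' x) hb hU
  have hCD : C * D ≠ 0 := by positivity
  refine ⟨?_, ?_⟩
  · intro c c' hc hc1 hc' hc1'
    have h1 := (d1 c c' hc hc1 hc' hc1').const_mul (C * D)
    rw [mul_zero] at h1
    refine h1.congr fun N => ?_
    rw [hF, main_AF, main_AF]
    ring
  · intro L hL c hc hc1
    have h1 : Tendsto (fun N : ℕ => BF (FT T f' g' x) N) atTop (𝓝 (L / (C * D))) := by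
      have h2 := hL.div_const (C * D)
      refine h2.congr fun N => ?_
      rw [hF, main_BF]
      field_simp
    have h2 := hDFN (FT T f' g' x) hb (fun R j hR hj => hx4 R j hR hj) (L / (C * D)) h1
    have h3 := (d2 (L / (C * D)) h2 c hc hc1).const_mul (C * D)
    have h4 : C * D * (L / (C * D)) = L := by field_simp
    rw [h4] at h3
    refine h3.congr fun N => ?_
    rw [hF, main_AF]

end Pool.Agent.BSQ
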