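import Pool.Agent.BSQ.StA

/-!
# BSQ, module MAJ: there are few major frequencies (helper13)
-/

set_option autoImplicit false

namespace Pool.Agent.BSQ

open Finset MeasureTheory Filter Topology
open scoped BigOperators
open Classical

private theorem maj_cnt {P : ℕ} [NeZero P] (A : Finset (ZMod P)) (c r : ℝ) (hr : 0 ≤ r)
    (h : ∀ b ∈ A, |(b.val : ℝ) - c| ≤ r) : (A.card : ℝ) ≤ 2 * r + 1 := by
  have h1 : A.card ≤ (Finset.Icc ⌈c - r⌉ ⌊c + r⌋).card := by
    refine Finset.card_le_card_of_injOn (fun b => (b.val : ℤ)) ?_ ?_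
    · intro b hb
      have h2 := abs_le.mp (h b hb)
      simp only [Finset.coe_Icc, Set.mem_Icc]
      constructor
      · rw [Int.ceil_le]
        push_cast
        linarith [h2.1]
      · rw [Int.le_floor]
        push_cast
        linarith [h2.2]
    · intro a _ b _ hab
      refine ZMod.val_injective P ?_
      have hab' : (a.val : ℤ) = (b.val : ℤ) := hab
      exact_mod_cast hab'
  rw [Int.card_Icc] at h1
  have h2 : ((⌊c + r⌋ + 1 - ⌈c - r⌉).toNat : ℝ) ≤ 2 * r + 1 := by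
    rcases le_or_gt 0 (⌊c + r⌋ + 1 - ⌈c - r⌉) with h3 | h3
    · have h4 : (((⌊c + r⌋ + 1 - ⌈c - r⌉).toNat : ℤ) : ℝ) =
          ((⌊c + r⌋ + 1 - ⌈c - r⌉ : ℤ) : ℝ) := by
        rw [Int.toNat_of_nonneg h3]
      have h5 := Int.floor_le (c + r)
      have h6 := Int.le_ceil (c - r)
      rw [Int.cast_natCast] at h4
      rw [h4]
      push_cast
      linarith
    · rw [Int.toNat_of_nonpos h3.le]
      push_cast
      linarith
  have h3 : (A.card : ℝ) ≤ ((⌊c + r⌋ + 1 - ⌈c - r⌉).toNat : ℝ) := by exact_mod_cast h1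
  exact h3.trans h2

theorem thm_MAJ : St_MAJ := by
  intro P N K _ hK hN hP
  have hP0 : (0 : ℝ) < P := by exact_mod_cast Nat.pos_of_ne_zero (NeZero.ne P)
  have hN0 : (0 : ℝ) < (N : ℝ) ^ 2 := by positivity
  have hK1 : (1 : ℝ) ≤ K := by exact_mod_cast hK
  set τ : ℝ := 32 * (K : ℝ) ^ 6 / (N : ℝ) ^ 2 with hτ
  have hτ0 : 0 ≤ τ := by positivity
  have hτP : τ * P ≤ 512 * (K : ℝ) ^ 6 := by
    have h1 : (P : ℝ) ≤ 16 * (N : ℝ) ^ 2 := by exact_mod_cast hP
    calc τ * P ≤ τ * (16 * (N : ℝ) ^ 2) := mul_le_mul_of_nonneg_left h1 hτ0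
      _ = 512 * (K : ℝ) ^ 6 := by
        rw [hτ]
        field_simp
        norm_num
  have hsub : MajS P N K ⊆ (Finset.Icc 1 (16 * K ^ 2)).biUnion (fun q =>
      (Finset.range (2 * q + 1)).biUnion (fun j =>
        univ.filter (fun b : ZMod P => |(q : ℝ) * (2 * (b.val : ℝ) / P) - j| ≤ τ))) := by
    intro b hb
    simp only [MajS, Finset.mem_filter, Finset.mem_univ, true_and] at hb
    obtain ⟨q, h1, h2, h3⟩ := hb
    simp only [Finset.mem_biUnion, Finset.mem_Icc, Finset.mem_range, Finset.mem_filter,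
      Finset.mem_univ, true_and]
    have hx0 : 0 ≤ (q : ℝ) * (2 * (b.val : ℝ) / P) := by positivity
    have hx1 : (q : ℝ) * (2 * (b.val : ℝ) / P) < 2 * q := by
      have h4 : (b.val : ℝ) < P := by exact_mod_cast ZMod.val_lt b
      have h5 : (b.val : ℝ) / P < 1 := by rw [div_lt_one hP0]; exact h4
      have hq0 : (0 : ℝ) < q := by exact_mod_cast h1
      calc (q : ℝ) * (2 * (b.val : ℝ) / P) = 2 * q * ((b.val : ℝ) / P) := by ring
        _ < 2 * q * 1 := mul_lt_mul_of_pos_left h5 (by positivity)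
        _ = 2 * q := mul_one _
    have hr0 : 0 ≤ round ((q : ℝ) * (2 * (b.val : ℝ) / P)) := by
      rw [round_eq, Int.floor_nonneg]
      linarith
    have hr1 : round ((q : ℝ) * (2 * (b.val : ℝ) / P)) < 2 * q + 1 := by
      rw [round_eq, Int.floor_lt]
      push_cast
      linarith
    refine ⟨q, ⟨h1, h2⟩, (round ((q : ℝ) * (2 * (b.val : ℝ) / P))).toNat, ?_, ?_⟩
    · omega
    · have h6 : (((round ((q : ℝ) * (2 * (b.val : ℝ) / P))).toNat : ℤ) : ℝ) =
          ((round ((q : ℝ) * (2 * (b.val : ℝ) / P)) : ℤ) : ℝ) := by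
        rw [Int.toNat_of_nonneg hr0]
      rw [Int.cast_natCast] at h6
      rw [h6]
      exact h3
  have hC : ∀ q ∈ Finset.Icc 1 (16 * K ^ 2), ∀ j ∈ Finset.range (2 * q + 1),
      (((univ.filter (fun b : ZMod P => |(q : ℝ) * (2 * (b.val : ℝ) / P) - j| ≤ τ)).card : ℕ) : ℝ)
        ≤ τ * P / q + 1 := by
    intro q hq j _
    have hq0 : (0 : ℝ) < q := by
      have := (Finset.mem_Icc.mp hq).1
      exact_mod_cast this
    have h1 := maj_cnt (univ.filter (fun b : ZMod P =>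
      |(q : ℝ) * (2 * (b.val : ℝ) / P) - j| ≤ τ)) (j * P / (2 * q)) (τ * P / (2 * q))
      (by positivity) (by
        intro b hb
        have h2 := (Finset.mem_filter.mp hb).2
        have h3 : (b.val : ℝ) - j * P / (2 * q) =
            (P / (2 * q)) * ((q : ℝ) * (2 * (b.val : ℝ) / P) - j) := by
          field_simp
        rw [h3, abs_mul, abs_of_pos (by positivity)]
        calc (P / (2 * q) : ℝ) * |(q : ℝ) * (2 * (b.val : ℝ) / P) - j|
            ≤ (P / (2 * q) : ℝ) * τ := mul_le_mul_of_nonneg_left h2 (by positivity)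
          _ = τ * P / (2 * q) := by ring)
    refine h1.trans (le_of_eq ?_)
    field_simp
  have hB : ∀ q ∈ Finset.Icc 1 (16 * K ^ 2),
      ((((Finset.range (2 * q + 1)).biUnion (fun j =>
        univ.filter (fun b : ZMod P => |(q : ℝ) * (2 * (b.val : ℝ) / P) - j| ≤ τ))).card : ℕ) : ℝ)
        ≤ 1536 * (K : ℝ) ^ 6 + 32 * (K : ℝ) ^ 2 + 1 := by
    intro q hq
    have hq1 : (1 : ℝ) ≤ q := by
      have := (Finset.mem_Icc.mp hq).1
      exact_mod_cast this
    have hq2 : (q : ℝ) ≤ 16 * (K : ℝ) ^ 2 := by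
      have := (Finset.mem_Icc.mp hq).2
      exact_mod_cast this
    have h1 : ((((Finset.range (2 * q + 1)).biUnion (fun j =>
        univ.filter (fun b : ZMod P => |(q : ℝ) * (2 * (b.val : ℝ) / P) - j| ≤ τ))).card : ℕ) : ℝ)
        ≤ ∑ j ∈ Finset.range (2 * q + 1), (((univ.filter (fun b : ZMod P =>
          |(q : ℝ) * (2 * (b.val : ℝ) / P) - j| ≤ τ)).card : ℕ) : ℝ) := by
      exact_mod_cast Finset.card_biUnion_le
    have h2 := h1.trans (Finset.sum_le_sum (hC q hq))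
    rw [Finset.sum_const, Finset.card_range, nsmul_eq_mul] at h2
    push_cast at h2
    have h3 : (2 * (q : ℝ) + 1) * (τ * P / q + 1) ≤ 3 * (τ * P) + 2 * q + 1 := by
      have h4 : (2 * (q : ℝ) + 1) * (τ * P / q + 1) = 2 * (τ * P) + (τ * P) / q + 2 * q + 1 := by
        have hq0 : (q : ℝ) ≠ 0 := by linarith
        field_simp
        ring
      have h5 : (τ * P) / q ≤ τ * P := div_le_self (by positivity) hq1
      linarith
    linarith
  have h1 : ((MajS P N K).card : ℝ) ≤ ∑ q ∈ Finset.Icc 1 (16 * K ^ 2),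
      ((((Finset.range (2 * q + 1)).biUnion (fun j =>
        univ.filter (fun b : ZMod P => |(q : ℝ) * (2 * (b.val : ℝ) / P) - j| ≤ τ))).card : ℕ) :
          ℝ) := by
    exact_mod_cast (Finset.card_le_card hsub).trans Finset.card_biUnion_le
  have h2 := h1.trans (Finset.sum_le_sum hB)
  rw [Finset.sum_const, Nat.card_Icc, nsmul_eq_mul] at h2
  have h3 : 16 * K ^ 2 + 1 - 1 = 16 * K ^ 2 := by omega
  rw [h3] at h2
  push_cast at h2
  have h4 : (K : ℝ) ^ 4 ≤ (K : ℝ) ^ 8 := pow_le_pow_right₀ hK1 (by norm_num)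
  have h5 : (K : ℝ) ^ 2 ≤ (K : ℝ) ^ 8 := pow_le_pow_right₀ hK1 (by norm_num)
  have h6 : 16 * (K : ℝ) ^ 2 * (1536 * (K : ℝ) ^ 6 + 32 * (K : ℝ) ^ 2 + 1) =
      24576 * (K : ℝ) ^ 8 + 512 * (K : ℝ) ^ 4 + 16 * (K : ℝ) ^ 2 := by ring
  rw [h6] at h2
  norm_num
  linarith [pow_nonneg (by linarith : (0 : ℝ) ≤ K) 8]

end Pool.Agent.BSQ
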