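import Pool.Agent.BSQ.StA

/-!
# BSQ, module MSC: mass of the sector measure
-/

set_option autoImplicit false

namespace Pool.Agent.BSQ

open Finset

private theorem msc_sum (R j N : ℕ) (S : Finset ℕ) :
    ∑ k ∈ S, sigS R j N k = 1 / (aj R j * (N : ℝ) ^ 2) *
      (((SecX R j (N ^ 2)).filter (fun p => sq2 p ∈ S)).card : ℝ) := by
  unfold sigS
  rw [← Finset.mul_sum]
  congr 1
  have h := Finset.card_eq_sum_card_fiberwise (f := sq2)
    (s := (SecX R j (N ^ 2)).filter (fun p => sq2 p ∈ S)) (t := S)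
    (fun p hp => (Finset.mem_filter.mp hp).2)
  rw [h, Nat.cast_sum]
  refine Finset.sum_congr rfl fun k hk => ?_
  congr 2
  ext p
  simp only [Finset.mem_filter]
  constructor
  · rintro ⟨h1, h2⟩
    exact ⟨⟨h1, h2 ▸ hk⟩, h2⟩
  · rintro ⟨⟨h1, _⟩, h2⟩
    exact ⟨h1, h2⟩

private theorem msc_mem {R j X : ℕ} {p : ℕ × ℕ} (hp : p ∈ SecX R j X) :
    1 ≤ p.1 ∧ 1 ≤ p.2 ∧ j * p.1 ≤ R * p.2 ∧ R * p.2 < (j + 1) * p.1 ∧ p.1 ^ 2 + p.2 ^ 2 < X := by
  unfold SecX at hp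
  have h := (Finset.mem_filter.mp hp).2
  unfold sq2 at h
  exact h

private theorem msc_low (R j N Y : ℕ) :
    ((SecX R j (N ^ 2)).filter (fun p => sq2 p ∈ range Y)).card ≤ Y := by
  have h1 : (SecX R j (N ^ 2)).filter (fun p => sq2 p ∈ range Y) ⊆
      Icc 1 (Nat.sqrt Y) ×ˢ Icc 1 (Nat.sqrt Y) := by
    intro p hp
    obtain ⟨h2, h3⟩ := Finset.mem_filter.mp hp
    obtain ⟨h4, h5, _, _, _⟩ := msc_mem h2
    rw [Finset.mem_range] at h3
    unfold sq2 at h3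
    rw [Finset.mem_product, Finset.mem_Icc, Finset.mem_Icc]
    refine ⟨⟨h4, ?_⟩, h5, ?_⟩
    · rw [Nat.le_sqrt']
      have := Nat.zero_le (p.2 ^ 2)
      omega
    · rw [Nat.le_sqrt']
      have := Nat.zero_le (p.1 ^ 2)
      omega
  refine (Finset.card_le_card h1).trans ?_
  rw [Finset.card_product, Nat.card_Icc, Nat.add_sub_cancel]
  exact Nat.sqrt_le Y

private theorem msc_pair {N Y m n n' k1 : ℕ} (hk : N ^ 2 ≤ k1 + Y) (hY : 2 * Y ≤ N ^ 2)
    (h1 : m < n) (h2 : k1 ≤ n ^ 2 + m ^ 2) (h3 : n' ^ 2 + m ^ 2 < N ^ 2) (hn : n ≤ n') (hN : 1 ≤ N) :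
    n' ≤ n + Y / N := by
  obtain ⟨d, rfl⟩ := Nat.exists_eq_add_of_le hn
  have h4 : N < 2 * n := by
    have : N ^ 2 < (2 * n) ^ 2 := by nlinarith
    exact lt_of_pow_lt_pow_left₀ 2 (Nat.zero_le _) this
  have h5 : d * N ≤ Y := by
    have h6 : (n + d) ^ 2 + m ^ 2 < n ^ 2 + m ^ 2 + Y := by omega
    have h7 : d * (2 * n) ≤ Y := by nlinarith
    have h8 : d * N ≤ d * (2 * n) := Nat.mul_le_mul_left d h4.le
    omega
  have h6 : d ≤ Y / N := (Nat.le_div_iff_mul_le (by omega)).mpr h5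
  omega

private theorem msc_min (S : Finset ℕ) (h : S.Nonempty) : ∃ n0 ∈ S, ∀ n ∈ S, n0 ≤ n :=
  ⟨S.min' h, S.min'_mem h, fun n hn => S.min'_le n hn⟩

private theorem msc_high (R j N Y k1 : ℕ) (hR : 1 ≤ R) (hj : j < R) (hN : 1 ≤ N)
    (hk : N ^ 2 ≤ k1 + Y) (hY : 2 * Y ≤ N ^ 2) :
    ((SecX R j (N ^ 2)).filter (fun p => sq2 p ∈ Ico k1 (2 * N ^ 2 + 1))).card ≤ Y + N := by
  set T := (SecX R j (N ^ 2)).filter (fun p => sq2 p ∈ Ico k1 (2 * N ^ 2 + 1)) with hT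
  have hmem : ∀ p ∈ T, p.2 < p.1 ∧ k1 ≤ p.1 ^ 2 + p.2 ^ 2 ∧ p.1 ^ 2 + p.2 ^ 2 < N ^ 2 := by
    intro p hp
    rw [hT] at hp
    obtain ⟨h2, h3⟩ := Finset.mem_filter.mp hp
    obtain ⟨_, _, _, h4, h5⟩ := msc_mem h2
    rw [Finset.mem_Ico] at h3
    unfold sq2 at h3
    refine ⟨?_, h3.1, h5⟩
    have h6 : R * p.2 < R * p.1 := lt_of_lt_of_le h4 (Nat.mul_le_mul_right _ hj)
    exact lt_of_mul_lt_mul_left h6 (Nat.zero_le R)
  have hfib : ∀ m ∈ T.image Prod.snd, (T.filter (fun p => p.2 = m)).card ≤ Y / N + 1 := by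
    intro m hm
    obtain ⟨p0, hp0, hp0m⟩ := Finset.mem_image.mp hm
    have hne : ((T.filter (fun p => p.2 = m)).image Prod.fst).Nonempty :=
      ⟨p0.1, Finset.mem_image.mpr ⟨p0, Finset.mem_filter.mpr ⟨hp0, hp0m⟩, rfl⟩⟩
    have hinj : ((T.filter (fun p => p.2 = m)).image Prod.fst).card =
        (T.filter (fun p => p.2 = m)).card := by
      apply Finset.card_image_of_injOn
      intro p hp q hq hpq
      have hp2 : p.2 = m := (Finset.mem_filter.mp hp).2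
      have hq2 : q.2 = m := (Finset.mem_filter.mp hq).2
      exact Prod.ext hpq (hp2.trans hq2.symm)
    rw [← hinj]
    obtain ⟨n0, hn0mem, hn0le⟩ := msc_min _ hne
    have hsub : (T.filter (fun p => p.2 = m)).image Prod.fst ⊆ Icc n0 (n0 + Y / N) := by
      intro n' hn'
      have hle : n0 ≤ n' := hn0le n' hn'
      rw [Finset.mem_Icc]
      refine ⟨hle, ?_⟩
      obtain ⟨p, hp, hp1⟩ := Finset.mem_image.mp hn0mem
      obtain ⟨q, hq, hq1⟩ := Finset.mem_image.mp hn'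
      obtain ⟨hpT, hp2⟩ := Finset.mem_filter.mp hp
      obtain ⟨hqT, hq2⟩ := Finset.mem_filter.mp hq
      obtain ⟨a1, a2, _⟩ := hmem p hpT
      obtain ⟨_, _, b3⟩ := hmem q hqT
      rw [hp1, hp2] at a1 a2
      rw [hq1, hq2] at b3
      exact msc_pair hk hY a1 a2 b3 hle hN
    refine (Finset.card_le_card hsub).trans ?_
    rw [Nat.card_Icc]
    generalize Y / N = t
    omega
  have h := Finset.card_le_mul_card_image (f := Prod.snd) T (Y / N + 1) hfib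
  have himg : (T.image Prod.snd).card ≤ N := by
    have hs : T.image Prod.snd ⊆ range N := by
      intro m hm
      obtain ⟨p, hp, hpm⟩ := Finset.mem_image.mp hm
      obtain ⟨_, _, h3⟩ := hmem p hp
      rw [Finset.mem_range, ← hpm]
      have : p.2 ^ 2 < N ^ 2 := by
        have := Nat.zero_le (p.1 ^ 2)
        omega
      exact lt_of_pow_lt_pow_left₀ 2 (Nat.zero_le _) this
    exact (Finset.card_le_card hs).trans (by rw [Finset.card_range])
  have h2 : (Y / N + 1) * (T.image Prod.snd).card ≤ (Y / N + 1) * N := Nat.mul_le_mul_left _ himg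
  have h3 : Y / N * N ≤ Y := Nat.div_mul_le_self Y N
  have h4 : (Y / N + 1) * N = Y / N * N + N := by ring
  omega

theorem thm_MSC (hAJ : St_AJ) (hSECT : St_SECT) : St_MSC := by
  intro N R j hR hj hN
  have hR' : (1 : ℝ) ≤ R := by exact_mod_cast hR
  have hN' : 32 * (R : ℝ) ≤ N := by exact_mod_cast hN
  have hN1 : (1 : ℝ) ≤ N := by linarith
  have hN0 : (0 : ℝ) < N := by linarith
  obtain ⟨_, _, haj⟩ := hAJ R j hR hj
  have haj0 : 0 < aj R j := lt_of_lt_of_le (by positivity) haj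
  have hN2 : (0 : ℝ) < (N : ℝ) ^ 2 := by positivity
  have hc0 : 0 ≤ 1 / (aj R j * (N : ℝ) ^ 2) := by positivity
  have hc1 : 1 / (aj R j * (N : ℝ) ^ 2) ≤ 4 * R / (N : ℝ) ^ 2 := by
    rw [div_le_div_iff₀ (by positivity) hN2]
    have h1 : 1 ≤ 4 * R * aj R j := by
      rw [div_le_iff₀ (by positivity)] at haj
      linarith
    nlinarith [mul_le_mul_of_nonneg_right h1 hN2.le]
  refine ⟨?_, ?_, ?_, ?_⟩
  · intro k
    unfold sigS
    exact mul_nonneg hc0 (Nat.cast_nonneg _)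
  · rw [msc_sum]
    have hS := hSECT R j 1 0 0 (N ^ 2) hR hj le_rfl Nat.one_pos Nat.one_pos
    have hfil : (SecX R j (N ^ 2)).filter (fun p => p.1 % 1 = 0 ∧ p.2 % 1 = 0) =
        SecX R j (N ^ 2) := by
      apply Finset.filter_true_of_mem
      intro p _
      exact ⟨Nat.mod_one _, Nat.mod_one _⟩
    rw [hfil] at hS
    have hs := (abs_le.mp hS).2
    have hsq : Real.sqrt (((N ^ 2 : ℕ) : ℝ)) = N := by
      rw [Nat.cast_pow]
      exact Real.sqrt_sq hN0.le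
    rw [hsq] at hs
    push_cast at hs
    have hcard : (((SecX R j (N ^ 2)).filter
        (fun p => sq2 p ∈ range (2 * N ^ 2 + 1))).card : ℝ) ≤ ((SecX R j (N ^ 2)).card : ℝ) := by
      exact_mod_cast Finset.card_filter_le _ _
    have h1 : (((SecX R j (N ^ 2)).filter
        (fun p => sq2 p ∈ range (2 * N ^ 2 + 1))).card : ℝ) ≤ aj R j * (N : ℝ) ^ 2 + (4 * N + 2) := by
      have e1 : aj R j * (N : ℝ) ^ 2 / 1 ^ 2 = aj R j * (N : ℝ) ^ 2 := by norm_num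
      have e2 : 4 * (N : ℝ) / 1 = 4 * N := by norm_num
      rw [e1, e2] at hs
      linarith
    calc 1 / (aj R j * (N : ℝ) ^ 2) * (((SecX R j (N ^ 2)).filter
        (fun p => sq2 p ∈ range (2 * N ^ 2 + 1))).card : ℝ)
        ≤ 1 / (aj R j * (N : ℝ) ^ 2) * (aj R j * (N : ℝ) ^ 2 + (4 * N + 2)) :=
          mul_le_mul_of_nonneg_left h1 hc0
      _ = 1 + 1 / (aj R j * (N : ℝ) ^ 2) * (4 * N + 2) := by
          field_simp
      _ ≤ 1 + 4 * R / (N : ℝ) ^ 2 * (4 * N + 2) := by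
          have := mul_le_mul_of_nonneg_right hc1 (by positivity : (0 : ℝ) ≤ 4 * N + 2)
          linarith
      _ ≤ 2 := by
          have e : 4 * (R : ℝ) / (N : ℝ) ^ 2 * (4 * N + 2) ≤ 1 := by
            rw [div_mul_eq_mul_div, div_le_one hN2]
            nlinarith
          linarith
  · intro Y
    rw [msc_sum]
    have h1 : (((SecX R j (N ^ 2)).filter (fun p => sq2 p ∈ range Y)).card : ℝ) ≤ Y := by
      exact_mod_cast msc_low R j N Y
    calc 1 / (aj R j * (N : ℝ) ^ 2) *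
        (((SecX R j (N ^ 2)).filter (fun p => sq2 p ∈ range Y)).card : ℝ)
        ≤ 4 * R / (N : ℝ) ^ 2 * Y :=
          mul_le_mul hc1 h1 (Nat.cast_nonneg _) (by positivity)
      _ = 4 * R * Y / (N : ℝ) ^ 2 := by ring
  · intro Y k1 hk hY
    rw [msc_sum]
    have h1 : (((SecX R j (N ^ 2)).filter
        (fun p => sq2 p ∈ Ico k1 (2 * N ^ 2 + 1))).card : ℝ) ≤ (Y : ℝ) + N := by
      exact_mod_cast msc_high R j N Y k1 hR hj (by omega) hk hY
    calc 1 / (aj R j * (N : ℝ) ^ 2) * (((SecX R j (N ^ 2)).filter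
        (fun p => sq2 p ∈ Ico k1 (2 * N ^ 2 + 1))).card : ℝ)
        ≤ 4 * R / (N : ℝ) ^ 2 * ((Y : ℝ) + N) :=
          mul_le_mul hc1 h1 (Nat.cast_nonneg _) (by positivity)
      _ = 4 * R * ((Y : ℝ) + N) / (N : ℝ) ^ 2 := by ring

end Pool.Agent.BSQ
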