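import Pool.Agent.BSQ.StA

/-!
# BSQ/NRM (helper56): the normalised quadratic norm on `ZMod P`
-/

set_option autoImplicit false

namespace Pool.Agent.BSQ

open Finset MeasureTheory Filter Topology
open scoped BigOperators
open Classical

section

variable {P : ℕ} [NeZero P]

private theorem nrm_eq (φ : ZMod P → ℂ) :
    n2 φ = ‖(WithLp.toLp 2 φ : EuclideanSpace ℂ (ZMod P))‖ / Real.sqrt P := by
  rw [EuclideanSpace.norm_eq, n2, Real.sqrt_div (Finset.sum_nonneg fun _ _ => sq_nonneg _)]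

private theorem nrm_add (φ ψ : ZMod P → ℂ) : n2 (fun y => φ y + ψ y) ≤ n2 φ + n2 ψ := by
  have h : (WithLp.toLp 2 (fun y => φ y + ψ y) : EuclideanSpace ℂ (ZMod P)) =
      WithLp.toLp 2 φ + WithLp.toLp 2 ψ := rfl
  rw [nrm_eq, nrm_eq, nrm_eq, ← add_div, h]
  exact div_le_div_of_nonneg_right (norm_add_le _ _) (Real.sqrt_nonneg _)

private theorem nrm_sub (φ ψ : ZMod P → ℂ) : n2 (fun y => φ y - ψ y) ≤ n2 φ + n2 ψ := by
  have h : (WithLp.toLp 2 (fun y => φ y - ψ y) : EuclideanSpace ℂ (ZMod P)) =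
      WithLp.toLp 2 φ - WithLp.toLp 2 ψ := rfl
  rw [nrm_eq, nrm_eq, nrm_eq, ← add_div, h]
  exact div_le_div_of_nonneg_right (norm_sub_le _ _) (Real.sqrt_nonneg _)

private theorem nrm_mul (c : ℂ) (φ : ZMod P → ℂ) : n2 (fun y => c * φ y) = ‖c‖ * n2 φ := by
  have h : (WithLp.toLp 2 (fun y => c * φ y) : EuclideanSpace ℂ (ZMod P)) =
      c • WithLp.toLp 2 φ := rfl
  rw [nrm_eq, nrm_eq, h, norm_smul, mul_div_assoc]

private theorem nrm_zero : n2 (fun _ : ZMod P => (0 : ℂ)) = 0 := by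
  simp [n2]

private theorem nrm_sum {ι : Type} (S : Finset ι) (φ : ι → ZMod P → ℂ) :
    n2 (fun y => ∑ i ∈ S, φ i y) ≤ ∑ i ∈ S, n2 (φ i) := by
  induction S using Finset.induction_on with
  | empty =>
    simp only [Finset.sum_empty]
    exact nrm_zero.le
  | insert a s ha ih =>
    simp only [Finset.sum_insert ha]
    exact (nrm_add (φ a) (fun y => ∑ i ∈ s, φ i y)).trans (add_le_add le_rfl ih)

private theorem nrm_mono {φ ψ : ZMod P → ℂ} (h : ∀ y, ‖φ y‖ ≤ ‖ψ y‖) : n2 φ ≤ n2 ψ := by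
  refine Real.sqrt_le_sqrt (div_le_div_of_nonneg_right ?_ (Nat.cast_nonneg P))
  exact Finset.sum_le_sum fun y _ => pow_le_pow_left₀ (norm_nonneg _) (h y) 2

private theorem nrm_shift (φ : ZMod P → ℂ) (s : ZMod P) : n2 (fun y => φ (y + s)) = n2 φ := by
  have h : ∑ y : ZMod P, ‖φ (y + s)‖ ^ 2 = ∑ y : ZMod P, ‖φ y‖ ^ 2 :=
    Equiv.sum_comp (Equiv.addRight s) (fun y => ‖φ y‖ ^ 2)
  show Real.sqrt ((∑ y : ZMod P, ‖φ (y + s)‖ ^ 2) / P) = _
  rw [h]
  rfl

end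

/-- **NRM** -/
theorem thm_NRM : St_NRM := by
  intro P _
  refine ⟨nrm_add, nrm_sub, fun ι S φ => nrm_sum S φ, nrm_mul, fun φ ψ h => nrm_mono h, nrm_shift,
    ?_, ?_, ?_⟩
  · intro φ
    exact Real.sq_sqrt (div_nonneg (Finset.sum_nonneg fun _ _ => sq_nonneg _) (Nat.cast_nonneg P))
  · intro φ h
    have hP : (0 : ℝ) < P := Nat.cast_pos.2 (Nat.pos_of_ne_zero (NeZero.ne P))
    have h1 : ∑ y : ZMod P, ‖φ y‖ ^ 2 ≤ P := by
      have h2 : ∑ y : ZMod P, ‖φ y‖ ^ 2 ≤ ∑ y : ZMod P, (1 : ℝ) :=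
        Finset.sum_le_sum fun y _ => pow_le_one₀ (norm_nonneg _) (h y)
      rw [Finset.sum_const, Finset.card_univ, ZMod.card, nsmul_eq_mul, mul_one] at h2
      exact h2
    refine Real.sqrt_le_one.2 ?_
    rw [div_le_one hP]
    exact h1
  · intro X ρ f g hg
    have h1 : n2 (Tr X ρ f g) ≤ ∑ k ∈ range X, n2 (fun y : ZMod P =>
        (ρ k : ℂ) * (f (y + (k : ZMod P)) * g (y - (k : ZMod P)))) :=
      nrm_sum (range X) (fun k y => (ρ k : ℂ) * (f (y + (k : ZMod P)) * g (y - (k : ZMod P))))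
    refine h1.trans ?_
    rw [Finset.sum_mul]
    refine Finset.sum_le_sum fun k _ => ?_
    rw [nrm_mul, Complex.norm_real, Real.norm_eq_abs]
    refine mul_le_mul_of_nonneg_left ?_ (abs_nonneg _)
    rw [← nrm_shift f (k : ZMod P)]
    refine nrm_mono fun y => ?_
    rw [norm_mul]
    exact mul_le_of_le_one_right (norm_nonneg _) (hg _)

end Pool.Agent.BSQ
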