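import Pool.Agent.BSQ.StA
import Pool.Agent.BSQ.StB
import Pool.Agent.Helper88.MD.Div

/-!
# BSQ/PWC (helper56): power saving for a strip and a sector
-/

set_option autoImplicit false

namespace Pool.Agent.BSQ

open Finset MeasureTheory Filter Topology
open scoped BigOperators
open Classical

private theorem pwc_ev (L0 R : ℕ) : ∃ N0 : ℕ, ∀ N : ℕ, N0 ≤ N → 1 ≤ N ∧
    ∃ L : ℕ, L0 ≤ L ∧ R ≤ L ∧ (1 : ℝ) ≤ L ∧ (N : ℝ) ^ (1 / 4000 : ℝ) ≤ 2 * L ∧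
      1 ≤ ⌊(N : ℝ) ^ (7 / 8 : ℝ)⌋₊ ∧ ⌊(N : ℝ) ^ (7 / 8 : ℝ)⌋₊ ≤ N ∧
      L ^ 1200 * N ^ 3 ≤ ⌊(N : ℝ) ^ (7 / 8 : ℝ)⌋₊ ^ 4 ∧
      L ^ 100 * ⌊(N : ℝ) ^ (7 / 8 : ℝ)⌋₊ ≤ N ∧
      ∀ l : ℕ, 1 ≤ l → l ≤ N ^ 2 → l.divisors.card ≤ L := by
  obtain ⟨C, hC⟩ := Pool.Agent.Helper88.MD.divisorBound (1 / 16000) (by norm_num)
  have hev : ∀ a b : ℝ, 0 < a → ∀ᶠ N : ℕ in atTop, b ≤ (N : ℝ) ^ a := fun a b ha =>
    ((tendsto_rpow_atTop ha).comp tendsto_natCast_atTop_atTop).eventually_ge_atTop b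
  have h := (hev (1 / 4000) ((L0 : ℝ) + R + 2) (by norm_num)).and
    ((hev (1 / 5) 16 (by norm_num)).and ((hev (1 / 8000) (2 * C) (by norm_num)).and
      ((hev (7 / 8) 2 (by norm_num)).and (eventually_ge_atTop 1))))
  obtain ⟨N0, hN0⟩ := eventually_atTop.1 h
  refine ⟨N0, fun N hN => ?_⟩
  obtain ⟨h1, h2, h3, h4, h5⟩ := hN0 N hN
  refine ⟨h5, ⌊(N : ℝ) ^ (1 / 4000 : ℝ)⌋₊, ?_⟩
  have hx1 : (1 : ℝ) ≤ N := by exact_mod_cast h5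
  have hx0 : (0 : ℝ) < N := by linarith
  have hx0' : (0 : ℝ) ≤ N := hx0.le
  have hL0 : (0 : ℝ) ≤ L0 := Nat.cast_nonneg _
  have hR0 : (0 : ℝ) ≤ R := Nat.cast_nonneg _
  have hA0 : (0 : ℝ) ≤ (N : ℝ) ^ (1 / 4000 : ℝ) := Real.rpow_nonneg hx0' _
  have hY0 : (0 : ℝ) ≤ (N : ℝ) ^ (7 / 8 : ℝ) := Real.rpow_nonneg hx0' _
  have hLle : (⌊(N : ℝ) ^ (1 / 4000 : ℝ)⌋₊ : ℝ) ≤ (N : ℝ) ^ (1 / 4000 : ℝ) := Nat.floor_le hA0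
  have hLge : (N : ℝ) ^ (1 / 4000 : ℝ) - 1 < ⌊(N : ℝ) ^ (1 / 4000 : ℝ)⌋₊ := Nat.sub_one_lt_floor _
  have hMle : (⌊(N : ℝ) ^ (7 / 8 : ℝ)⌋₊ : ℝ) ≤ (N : ℝ) ^ (7 / 8 : ℝ) := Nat.floor_le hY0
  have hMge : (N : ℝ) ^ (7 / 8 : ℝ) - 1 < ⌊(N : ℝ) ^ (7 / 8 : ℝ)⌋₊ := Nat.sub_one_lt_floor _
  have hLA : (N : ℝ) ^ (1 / 4000 : ℝ) ≤ 2 * ⌊(N : ℝ) ^ (1 / 4000 : ℝ)⌋₊ := by linarith
  have hMY : (N : ℝ) ^ (7 / 8 : ℝ) / 2 ≤ ⌊(N : ℝ) ^ (7 / 8 : ℝ)⌋₊ := by linarith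
  refine ⟨?_, ?_, ?_, hLA, ?_, ?_, ?_, ?_, ?_⟩
  · exact Nat.le_floor (by linarith)
  · exact Nat.le_floor (by linarith)
  · linarith
  · exact Nat.le_floor (by push_cast; linarith)
  · have h6 : (N : ℝ) ^ (7 / 8 : ℝ) ≤ N := by
      calc (N : ℝ) ^ (7 / 8 : ℝ) ≤ (N : ℝ) ^ (1 : ℝ) :=
            Real.rpow_le_rpow_of_exponent_le hx1 (by norm_num)
        _ = N := Real.rpow_one _
    exact_mod_cast hMle.trans h6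
  · have e1 : (⌊(N : ℝ) ^ (1 / 4000 : ℝ)⌋₊ : ℝ) ^ 1200 ≤ (N : ℝ) ^ (3 / 10 : ℝ) := by
      calc (⌊(N : ℝ) ^ (1 / 4000 : ℝ)⌋₊ : ℝ) ^ 1200 ≤ ((N : ℝ) ^ (1 / 4000 : ℝ)) ^ 1200 :=
            pow_le_pow_left₀ (Nat.cast_nonneg _) hLle _
        _ = (N : ℝ) ^ (3 / 10 : ℝ) := by
            rw [← Real.rpow_natCast, ← Real.rpow_mul hx0']
            norm_num
    have e2 : (N : ℝ) ^ (3 / 10 : ℝ) * (N : ℝ) ^ 3 * 16 ≤ (N : ℝ) ^ (7 / 2 : ℝ) := by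
      have e3 : (N : ℝ) ^ (7 / 2 : ℝ) = (N : ℝ) ^ (3 / 10 : ℝ) * (N : ℝ) ^ 3 * (N : ℝ) ^ (1 / 5 : ℝ) := by
        rw [← Real.rpow_natCast, ← Real.rpow_add hx0, ← Real.rpow_add hx0]
        norm_num
      rw [e3]
      exact mul_le_mul_of_nonneg_left h2 (by positivity)
    have e4 : (N : ℝ) ^ (7 / 2 : ℝ) / 16 ≤ (⌊(N : ℝ) ^ (7 / 8 : ℝ)⌋₊ : ℝ) ^ 4 := by
      calc (N : ℝ) ^ (7 / 2 : ℝ) / 16 = ((N : ℝ) ^ (7 / 8 : ℝ) / 2) ^ 4 := by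
            rw [div_pow, ← Real.rpow_natCast ((N : ℝ) ^ (7 / 8 : ℝ)), ← Real.rpow_mul hx0']
            norm_num
        _ ≤ _ := pow_le_pow_left₀ (by linarith) hMY 4
    have e5 : (⌊(N : ℝ) ^ (1 / 4000 : ℝ)⌋₊ : ℝ) ^ 1200 * (N : ℝ) ^ 3 ≤
        (⌊(N : ℝ) ^ (7 / 8 : ℝ)⌋₊ : ℝ) ^ 4 := by
      have e6 : (⌊(N : ℝ) ^ (1 / 4000 : ℝ)⌋₊ : ℝ) ^ 1200 * (N : ℝ) ^ 3 ≤
          (N : ℝ) ^ (3 / 10 : ℝ) * (N : ℝ) ^ 3 := mul_le_mul_of_nonneg_right e1 (by positivity)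
      linarith
    exact_mod_cast e5
  · have e1 : (⌊(N : ℝ) ^ (1 / 4000 : ℝ)⌋₊ : ℝ) ^ 100 ≤ (N : ℝ) ^ (1 / 40 : ℝ) := by
      calc (⌊(N : ℝ) ^ (1 / 4000 : ℝ)⌋₊ : ℝ) ^ 100 ≤ ((N : ℝ) ^ (1 / 4000 : ℝ)) ^ 100 :=
            pow_le_pow_left₀ (Nat.cast_nonneg _) hLle _
        _ = (N : ℝ) ^ (1 / 40 : ℝ) := by
            rw [← Real.rpow_natCast, ← Real.rpow_mul hx0']
            norm_num
    have e5 : (⌊(N : ℝ) ^ (1 / 4000 : ℝ)⌋₊ : ℝ) ^ 100 * (⌊(N : ℝ) ^ (7 / 8 : ℝ)⌋₊ : ℝ) ≤ N := by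
      calc _ ≤ (N : ℝ) ^ (1 / 40 : ℝ) * (N : ℝ) ^ (7 / 8 : ℝ) :=
            mul_le_mul e1 hMle (Nat.cast_nonneg _) (by positivity)
        _ = (N : ℝ) ^ (9 / 10 : ℝ) := by
            rw [← Real.rpow_add hx0]
            norm_num
        _ ≤ (N : ℝ) ^ (1 : ℝ) := Real.rpow_le_rpow_of_exponent_le hx1 (by norm_num)
        _ = N := Real.rpow_one _
    exact_mod_cast e5
  · intro l hl1 hl2
    have hC1 : 1 ≤ C := by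
      have := hC 1 le_rfl
      simpa using this
    have e1 : (l.divisors.card : ℝ) ≤ C * (l : ℝ) ^ (1 / 16000 : ℝ) := hC l hl1
    have e2 : (l : ℝ) ≤ (N : ℝ) ^ 2 := by exact_mod_cast hl2
    have e3 : (l : ℝ) ^ (1 / 16000 : ℝ) ≤ (N : ℝ) ^ (1 / 8000 : ℝ) := by
      calc (l : ℝ) ^ (1 / 16000 : ℝ) ≤ ((N : ℝ) ^ 2) ^ (1 / 16000 : ℝ) :=
            Real.rpow_le_rpow (Nat.cast_nonneg _) e2 (by norm_num)
        _ = (N : ℝ) ^ (1 / 8000 : ℝ) := by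
            rw [← Real.rpow_natCast, ← Real.rpow_mul hx0']
            norm_num
    have e4 : (N : ℝ) ^ (1 / 4000 : ℝ) = (N : ℝ) ^ (1 / 8000 : ℝ) * (N : ℝ) ^ (1 / 8000 : ℝ) := by
      rw [← Real.rpow_add hx0]
      norm_num
    have e5 : (0 : ℝ) ≤ (N : ℝ) ^ (1 / 8000 : ℝ) := Real.rpow_nonneg hx0' _
    have e6 : 2 * C * (N : ℝ) ^ (1 / 8000 : ℝ) ≤ (N : ℝ) ^ (1 / 4000 : ℝ) := by
      rw [e4]
      exact mul_le_mul_of_nonneg_right h3 e5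
    have e7 : C * (l : ℝ) ^ (1 / 16000 : ℝ) ≤ C * (N : ℝ) ^ (1 / 8000 : ℝ) :=
      mul_le_mul_of_nonneg_left e3 (by linarith)
    have e8 : (l.divisors.card : ℝ) ≤ (⌊(N : ℝ) ^ (1 / 4000 : ℝ)⌋₊ : ℝ) := by linarith
    exact_mod_cast e8

/-- a trivial bound -/
private noncomputable def pwc_B (R j N M : ℕ) : ℝ :=
  |1 / (aj R j * (N : ℝ) ^ 2)| * ((SecX R j (N ^ 2)).card : ℝ) +
    |2 / ((N : ℝ) ^ 2 * M)| * ∑ n ∈ Icc 1 N, ∑ _m ∈ Icc 1 M, (n : ℝ)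

private theorem pwc_bd (F : ℕ → ℝ) (hF : ∀ k, |F k| ≤ 1) (R j N M : ℕ) :
    |SF F R j N - WF F N M| ≤ pwc_B R j N M := by
  have h1 : |SF F R j N| ≤ |1 / (aj R j * (N : ℝ) ^ 2)| * ((SecX R j (N ^ 2)).card : ℝ) := by
    rw [SF, abs_mul]
    refine mul_le_mul_of_nonneg_left ?_ (abs_nonneg _)
    refine (Finset.abs_sum_le_sum_abs _ _).trans ?_
    refine (Finset.sum_le_sum fun p _ => hF (sq2 p)).trans ?_
    rw [Finset.sum_const, nsmul_eq_mul, mul_one]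
  have h2 : |WF F N M| ≤ |2 / ((N : ℝ) ^ 2 * M)| * ∑ n ∈ Icc 1 N, ∑ _m ∈ Icc 1 M, (n : ℝ) := by
    rw [WF, abs_mul]
    refine mul_le_mul_of_nonneg_left ?_ (abs_nonneg _)
    refine (Finset.abs_sum_le_sum_abs _ _).trans (Finset.sum_le_sum fun n _ => ?_)
    refine (Finset.abs_sum_le_sum_abs _ _).trans (Finset.sum_le_sum fun m _ => ?_)
    rw [abs_mul, Nat.abs_cast]
    exact mul_le_of_le_one_right (Nat.cast_nonneg _) (hF _)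
  have h3 := abs_sub (SF F R j N) (WF F N M)
  unfold pwc_B
  linarith

/-- **PWC** -/
theorem thm_PWC (hFSC : St_FSC) (hTRF : St_TRF) (hRWF : St_RWF) : St_PWC := by
  intro R hR
  obtain ⟨L0, hL0⟩ := hFSC
  obtain ⟨N0, hN0⟩ := pwc_ev L0 R
  let G : ℕ → ℕ → ℝ := fun j N =>
    pwc_B R j N ⌊(N : ℝ) ^ (7 / 8 : ℝ)⌋₊ ^ 2 * (N : ℝ) ^ (1 / 2000 : ℝ)
  have hG : ∀ j N, 0 ≤ G j N := fun j N =>
    mul_nonneg (sq_nonneg _) (Real.rpow_nonneg (Nat.cast_nonneg _) _)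
  refine ⟨1 / 2000, 2 ^ 36 * (R : ℝ) ^ 2 + ∑ j ∈ range R, ∑ N ∈ range N0, G j N, by norm_num, ?_, ?_⟩
  · have h1 : (0 : ℝ) < R := by exact_mod_cast hR
    have h2 : 0 ≤ ∑ j ∈ range R, ∑ N ∈ range N0, G j N :=
      Finset.sum_nonneg fun j _ => Finset.sum_nonneg fun N _ => hG j N
    positivity
  · intro X _ μ _ T hT f g hf hg hf1 hg1 j N hj hN
    have hS0 : 0 ≤ ∑ j ∈ range R, ∑ N ∈ range N0, G j N :=
      Finset.sum_nonneg fun j _ => Finset.sum_nonneg fun N _ => hG j N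
    have hx1 : (1 : ℝ) ≤ N := by exact_mod_cast hN
    have hx0 : (0 : ℝ) < N := by linarith
    have hpos : (0 : ℝ) < (N : ℝ) ^ (-(1 / 2000) : ℝ) := Real.rpow_pos_of_pos hx0 _
    rcases lt_or_ge N N0 with hlt | hge
    · -- small
      have hF : ∀ x k, |FT T f g x k| ≤ 1 := by
        intro x k
        unfold FT
        rw [abs_mul]
        exact mul_le_one₀ (hf1 _) (abs_nonneg _) (hg1 _)
      have h1 : ∫ x, (SF (FT T f g x) R j N - WF (FT T f g x) N ⌊(N : ℝ) ^ (7 / 8 : ℝ)⌋₊) ^ 2 ∂μ ≤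
          ∫ _x, pwc_B R j N ⌊(N : ℝ) ^ (7 / 8 : ℝ)⌋₊ ^ 2 ∂μ := by
        refine integral_mono_of_nonneg (Filter.Eventually.of_forall fun x => sq_nonneg _)
          (integrable_const _) (Filter.Eventually.of_forall fun x => ?_)
        exact sq_le_sq' (by linarith [(abs_le.1 (pwc_bd _ (hF x) R j N
          ⌊(N : ℝ) ^ (7 / 8 : ℝ)⌋₊)).1]) (abs_le.1 (pwc_bd _ (hF x) R j N _)).2
      rw [integral_const, probReal_univ, one_smul] at h1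
      have h2 : G j N ≤ ∑ j ∈ range R, ∑ N ∈ range N0, G j N := by
        refine le_trans ?_ (Finset.single_le_sum (f := fun j => ∑ N ∈ range N0, G j N)
          (fun j _ => Finset.sum_nonneg fun N _ => hG j N) (mem_range.2 hj))
        exact Finset.single_le_sum (f := fun N => G j N) (fun N _ => hG j N) (mem_range.2 hlt)
      have h3 : pwc_B R j N ⌊(N : ℝ) ^ (7 / 8 : ℝ)⌋₊ ^ 2 = G j N * (N : ℝ) ^ (-(1 / 2000) : ℝ) := by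
        show _ = pwc_B R j N ⌊(N : ℝ) ^ (7 / 8 : ℝ)⌋₊ ^ 2 * (N : ℝ) ^ (1 / 2000 : ℝ) *
          (N : ℝ) ^ (-(1 / 2000) : ℝ)
        rw [mul_assoc, ← Real.rpow_add hx0, add_neg_cancel, Real.rpow_zero, mul_one]
      refine h1.trans ?_
      rw [h3]
      refine mul_le_mul_of_nonneg_right ?_ hpos.le
      have h4 : (0 : ℝ) ≤ 2 ^ 36 * (R : ℝ) ^ 2 := by positivity
      linarith
    · -- large
      obtain ⟨-, L, hL0L, hRL, hL1, hLA, hM1, hMN, hb, hc, hd⟩ := hN0 N hge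
      obtain ⟨P, hP, hP1, hP2, hP3⟩ := hL0 L hL0L N ⌊(N : ℝ) ^ (7 / 8 : ℝ)⌋₊ R j hM1 hR hj hRL hb hc hd
      have hLpos : (0 : ℝ) < L := by linarith
      have hβ : (0 : ℝ) ≤ 2 ^ 15 * R / L := by positivity
      have h1 := hTRF X μ T hT f g hf hg hf1 hg1 N P
        (fun k => rhoS N ⌊(N : ℝ) ^ (7 / 8 : ℝ)⌋₊ k - sigS R j N k) (2 ^ 15 * R / L) hN hP1 hP2 hβ hP3
      have h2 : ∀ x, ∑ k ∈ range (2 * N ^ 2 + 1),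
          (rhoS N ⌊(N : ℝ) ^ (7 / 8 : ℝ)⌋₊ k - sigS R j N k) * FT T f g x k =
          WF (FT T f g x) N ⌊(N : ℝ) ^ (7 / 8 : ℝ)⌋₊ - SF (FT T f g x) R j N := by
        intro x
        rw [← (hRWF (FT T f g x)).1 N _ hMN, ← (hRWF (FT T f g x)).2 R j N, ← Finset.sum_sub_distrib]
        exact Finset.sum_congr rfl fun k _ => sub_mul _ _ _
      have h3 : ∫ x, (SF (FT T f g x) R j N - WF (FT T f g x) N ⌊(N : ℝ) ^ (7 / 8 : ℝ)⌋₊) ^ 2 ∂μ =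
          ∫ x, (∑ k ∈ range (2 * N ^ 2 + 1),
            (rhoS N ⌊(N : ℝ) ^ (7 / 8 : ℝ)⌋₊ k - sigS R j N k) * FT T f g x k) ^ 2 ∂μ := by
        congr 1
        funext x
        rw [h2 x]
        ring
      rw [h3]
      refine h1.trans ?_
      have h4 : (1 : ℝ) / L ^ 2 ≤ 4 * (N : ℝ) ^ (-(1 / 2000) : ℝ) := by
        have e1 : (N : ℝ) ^ (1 / 2000 : ℝ) ≤ 4 * (L : ℝ) ^ 2 := by
          calc (N : ℝ) ^ (1 / 2000 : ℝ) = ((N : ℝ) ^ (1 / 4000 : ℝ)) ^ 2 := by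
                rw [← Real.rpow_natCast, ← Real.rpow_mul hx0.le]
                norm_num
            _ ≤ (2 * L) ^ 2 := pow_le_pow_left₀ (Real.rpow_nonneg hx0.le _) hLA 2
            _ = 4 * (L : ℝ) ^ 2 := by ring
        rw [div_le_iff₀ (by positivity)]
        calc (1 : ℝ) = (N : ℝ) ^ (-(1 / 2000) : ℝ) * (N : ℝ) ^ (1 / 2000 : ℝ) := by
              rw [← Real.rpow_add hx0, neg_add_cancel, Real.rpow_zero]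
          _ ≤ (N : ℝ) ^ (-(1 / 2000) : ℝ) * (4 * (L : ℝ) ^ 2) :=
              mul_le_mul_of_nonneg_left e1 hpos.le
          _ = 4 * (N : ℝ) ^ (-(1 / 2000) : ℝ) * (L : ℝ) ^ 2 := by ring
      calc 16 * (2 ^ 15 * (R : ℝ) / L) ^ 2 = 2 ^ 34 * (R : ℝ) ^ 2 * (1 / L ^ 2) := by
            rw [div_pow]
            ring
        _ ≤ 2 ^ 34 * (R : ℝ) ^ 2 * (4 * (N : ℝ) ^ (-(1 / 2000) : ℝ)) :=
            mul_le_mul_of_nonneg_left h4 (by positivity)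
        _ = 2 ^ 36 * (R : ℝ) ^ 2 * (N : ℝ) ^ (-(1 / 2000) : ℝ) := by ring
        _ ≤ _ := mul_le_mul_of_nonneg_right (by linarith) hpos.le

end Pool.Agent.BSQ
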