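import Pool.Agent.BSQ.StA
import Pool.Agent.BSQ.StB
import Pool.Agent.Helper88.MD.Div

/-!
# BSQ, module PWS: power saving in `L²` for strips
-/

set_option autoImplicit false

namespace Pool.Agent.BSQ

open Finset MeasureTheory Filter Topology
open scoped BigOperators
open Classical

private theorem pws_WF (F : ℕ → ℝ) (hF : ∀ k, |F k| ≤ 1) (N M : ℕ) : |WF F N M| ≤ 2 := by
  unfold WF
  have h1 : |∑ n ∈ Icc 1 N, ∑ m ∈ Icc 1 M, (n : ℝ) * F (n ^ 2 + m ^ 2)| ≤ (N : ℝ) ^ 2 * M := by
    refine (Finset.abs_sum_le_sum_abs _ _).trans ?_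
    have h2 : ∀ n ∈ Icc 1 N, |∑ m ∈ Icc 1 M, (n : ℝ) * F (n ^ 2 + m ^ 2)| ≤ (N : ℝ) * M := by
      intro n hn
      refine (Finset.abs_sum_le_sum_abs _ _).trans ?_
      have h3 : ∀ m ∈ Icc 1 M, |(n : ℝ) * F (n ^ 2 + m ^ 2)| ≤ (N : ℝ) := by
        intro m _
        rw [abs_mul, Nat.abs_cast]
        have h4 : (n : ℝ) ≤ N := by exact_mod_cast (Finset.mem_Icc.1 hn).2
        calc (n : ℝ) * |F (n ^ 2 + m ^ 2)| ≤ n * 1 :=
              mul_le_mul_of_nonneg_left (hF _) (Nat.cast_nonneg n)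
          _ ≤ N := by rw [mul_one]; exact h4
      refine (Finset.sum_le_sum h3).trans ?_
      rw [Finset.sum_const, Nat.card_Icc, nsmul_eq_mul, Nat.add_sub_cancel, mul_comm]
    refine (Finset.sum_le_sum h2).trans ?_
    rw [Finset.sum_const, Nat.card_Icc, nsmul_eq_mul, Nat.add_sub_cancel]
    apply le_of_eq
    ring
  rw [abs_mul, abs_of_nonneg (by positivity : (0 : ℝ) ≤ 2 / ((N : ℝ) ^ 2 * M))]
  calc 2 / ((N : ℝ) ^ 2 * M) * |∑ n ∈ Icc 1 N, ∑ m ∈ Icc 1 M, (n : ℝ) * F (n ^ 2 + m ^ 2)|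
      ≤ 2 / ((N : ℝ) ^ 2 * M) * ((N : ℝ) ^ 2 * M) :=
        mul_le_mul_of_nonneg_left h1 (by positivity)
    _ ≤ 2 := by
        rcases eq_or_ne ((N : ℝ) ^ 2 * M) 0 with h | h
        · rw [h, mul_zero]
          norm_num
        · rw [div_mul_cancel₀ _ h]

private theorem pws_FT {X : Type} [MeasurableSpace X] (T : X ≃ᵐ X) {f g : X → ℝ}
    (hf : ∀ x, |f x| ≤ 1) (hg : ∀ x, |g x| ≤ 1) (x : X) (k : ℕ) : |FT T f g x k| ≤ 1 := by
  unfold FT
  rw [abs_mul]
  exact mul_le_one₀ (hf _) (abs_nonneg _) (hg _)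

/-- Small `N`. -/
private theorem pws_small {X : Type} [MeasurableSpace X] (μ : Measure X) [IsProbabilityMeasure μ]
    (T : X ≃ᵐ X) {f g : X → ℝ} (hf : ∀ x, |f x| ≤ 1) (hg : ∀ x, |g x| ≤ 1) (N M M' : ℕ) :
    ∫ x, (WF (FT T f g x) N M - WF (FT T f g x) N M') ^ 2 ∂μ ≤ 16 := by
  have h : ∀ x, (WF (FT T f g x) N M - WF (FT T f g x) N M') ^ 2 ≤ 16 := by
    intro x
    have h1 := abs_le.1 (pws_WF _ (pws_FT T hf hg x) N M)
    have h2 := abs_le.1 (pws_WF _ (pws_FT T hf hg x) N M')
    nlinarith [h1.1, h1.2, h2.1, h2.2]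
  calc ∫ x, (WF (FT T f g x) N M - WF (FT T f g x) N M') ^ 2 ∂μ ≤ ∫ _, (16 : ℝ) ∂μ := by
        apply integral_mono_of_nonneg
        · exact Eventually.of_forall fun x => sq_nonneg _
        · exact integrable_const _
        · exact Eventually.of_forall h
    _ = 16 := by simp

theorem thm_PWS (hFSS : St_FSS) (hTRF : St_TRF) (hRWF : St_RWF) : St_PWS := by
  intro c1 c2 h12 hcc h2 h4
  obtain ⟨L0, hL0⟩ := hFSS
  set κ : ℝ := min ((4 * c1 - 2 * c2 - 1) / 1200) ((1 - c2) / 100) with hκ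
  have hκ0 : 0 < κ := lt_min (by linarith) (by linarith)
  have hκ1 : 1200 * κ + 1 + 2 * c2 ≤ 4 * c1 := by
    have : κ ≤ (4 * c1 - 2 * c2 - 1) / 1200 := min_le_left _ _
    linarith
  have hκ2 : 100 * κ + c2 ≤ 1 := by
    have : κ ≤ (1 - c2) / 100 := min_le_right _ _
    linarith
  obtain ⟨Cd, hCd⟩ := Pool.Agent.Helper88.MD.divisorBound (κ / 4) (by linarith)
  set A : ℝ := max (max (2 * Cd) 2) (L0 + 1) with hA
  have hA1 : 2 * Cd ≤ A := (le_max_left _ _).trans (le_max_left _ _)
  have hA2 : 2 ≤ A := (le_max_right _ _).trans (le_max_left _ _)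
  have hA3 : (L0 : ℝ) + 1 ≤ A := le_max_right _ _
  refine ⟨2 * κ, 16 * 16384 ^ 2 + 16 * A ^ 4, by linarith, by positivity, ?_⟩
  intro X _ μ _ T hT f g hf hg hf1 hg1
  -- the main case
  have key : ∀ N M M' : ℕ, 1 ≤ N → (N : ℝ) ^ c1 ≤ M → (M' : ℝ) ≤ (N : ℝ) ^ c2 → M ≤ M' →
      ∫ x, (WF (FT T f g x) N M - WF (FT T f g x) N M') ^ 2 ∂μ ≤
        (16 * 16384 ^ 2 + 16 * A ^ 4) * (N : ℝ) ^ (-(2 * κ)) := by
    intro N M M' hN hM1 hM2 hMM
    have hN1 : (1 : ℝ) ≤ N := by exact_mod_cast hN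
    have hN0 : (0 : ℝ) < N := by linarith
    have hMMr : (M : ℝ) ≤ M' := by exact_mod_cast hMM
    set ν : ℝ := (N : ℝ) ^ (κ / 2) with hν
    have hν0 : 0 < ν := Real.rpow_pos_of_pos hN0 _
    have hνκ : (N : ℝ) ^ κ = ν ^ 2 := by
      rw [hν, ← Real.rpow_natCast, ← Real.rpow_mul hN0.le]
      congr 1
      push_cast
      ring
    have hνm : (N : ℝ) ^ (-(2 * κ)) = (ν ^ 4)⁻¹ := by
      rw [hν, ← Real.rpow_natCast, ← Real.rpow_mul hN0.le, Real.rpow_neg hN0.le]
      congr 2
      push_cast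
      ring
    rcases lt_or_ge ν A with hc | hc
    · refine (pws_small μ T hf1 hg1 N M M').trans ?_
      rw [hνm]
      have h5 : ν ^ 4 ≤ A ^ 4 := pow_le_pow_left₀ hν0.le hc.le 4
      have h6 : (1 : ℝ) ≤ A ^ 4 * (ν ^ 4)⁻¹ := by
        rw [← div_eq_mul_inv, one_le_div (by positivity)]
        exact h5
      have h7 : (0 : ℝ) ≤ 16 * 16384 ^ 2 * (ν ^ 4)⁻¹ := by positivity
      nlinarith
    · set L : ℕ := ⌊(N : ℝ) ^ κ⌋₊ with hL
      have hLle : (L : ℝ) ≤ (N : ℝ) ^ κ := Nat.floor_le (by positivity)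
      have hLgt : (N : ℝ) ^ κ < L + 1 := Nat.lt_floor_add_one _
      have hν2 : A ≤ ν ^ 2 := by nlinarith
      have hL1 : ν ^ 2 / 2 ≤ L := by
        rw [hνκ] at hLgt
        nlinarith
      have hLpos : (0 : ℝ) < L := lt_of_lt_of_le (by positivity) hL1
      have hLL0 : L0 ≤ L := by
        have : (L0 : ℝ) < L + 1 := by
          rw [hνκ] at hLgt
          linarith
        have h5 : L0 < L + 1 := by exact_mod_cast this
        omega
      have hM1' : 1 ≤ M := by
        have h5 : (1 : ℝ) ≤ (N : ℝ) ^ c1 := Real.one_le_rpow hN1 (by linarith)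
        exact_mod_cast h5.trans hM1
      have hM'N : M' ≤ N := by
        have h5 : (N : ℝ) ^ c2 ≤ (N : ℝ) ^ (1 : ℝ) :=
          Real.rpow_le_rpow_of_exponent_le hN1 h2.le
        rw [Real.rpow_one] at h5
        exact_mod_cast hM2.trans h5
      have e1 : L ^ 1200 * (N * M' ^ 2) ≤ M ^ 4 := by
        have h5 : ((L : ℝ) ^ 1200) * (N * (M' : ℝ) ^ 2) ≤ (M : ℝ) ^ 4 := by
          calc ((L : ℝ) ^ 1200) * (N * (M' : ℝ) ^ 2)
              ≤ ((N : ℝ) ^ κ) ^ 1200 * (N * ((N : ℝ) ^ c2) ^ 2) := by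
                apply mul_le_mul
                · exact pow_le_pow_left₀ hLpos.le hLle _
                · apply mul_le_mul_of_nonneg_left _ hN0.le
                  exact pow_le_pow_left₀ (Nat.cast_nonneg _) hM2 2
                · positivity
                · positivity
            _ = (N : ℝ) ^ (1200 * κ + 1 + 2 * c2) := by
                rw [Real.rpow_add hN0, Real.rpow_add hN0, Real.rpow_one, mul_assoc]
                congr 1
                · rw [← Real.rpow_natCast, ← Real.rpow_mul hN0.le]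
                  congr 1
                  push_cast
                  ring
                · congr 1
                  rw [← Real.rpow_natCast, ← Real.rpow_mul hN0.le]
                  congr 1
                  push_cast
                  ring
            _ ≤ (N : ℝ) ^ (4 * c1) := Real.rpow_le_rpow_of_exponent_le hN1 hκ1
            _ = ((N : ℝ) ^ c1) ^ 4 := by
                rw [← Real.rpow_natCast, ← Real.rpow_mul hN0.le]
                congr 1
                push_cast
                ring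
            _ ≤ (M : ℝ) ^ 4 := pow_le_pow_left₀ (by positivity) hM1 4
        exact_mod_cast h5
      have e2 : L ^ 100 * M' ≤ N := by
        have h5 : ((L : ℝ) ^ 100) * (M' : ℝ) ≤ N := by
          calc ((L : ℝ) ^ 100) * (M' : ℝ) ≤ ((N : ℝ) ^ κ) ^ 100 * (N : ℝ) ^ c2 := by
                apply mul_le_mul
                · exact pow_le_pow_left₀ hLpos.le hLle _
                · exact hM2
                · positivity
                · positivity
            _ = (N : ℝ) ^ (100 * κ + c2) := by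
                rw [Real.rpow_add hN0]
                congr 1
                rw [← Real.rpow_natCast, ← Real.rpow_mul hN0.le]
                congr 1
                push_cast
                ring
            _ ≤ (N : ℝ) ^ (1 : ℝ) := Real.rpow_le_rpow_of_exponent_le hN1 hκ2
            _ = N := Real.rpow_one _
        exact_mod_cast h5
      have e3 : ∀ l : ℕ, 1 ≤ l → l ≤ N ^ 2 → l.divisors.card ≤ L := by
        intro l hl1 hl2
        have h5 := hCd l hl1
        have h6 : (l : ℝ) ^ (κ / 4) ≤ ν := by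
          have h7 : (l : ℝ) ≤ (N : ℝ) ^ 2 := by exact_mod_cast hl2
          calc (l : ℝ) ^ (κ / 4) ≤ ((N : ℝ) ^ 2) ^ (κ / 4) :=
                Real.rpow_le_rpow (Nat.cast_nonneg _) h7 (by linarith)
            _ = ν := by
                rw [hν, ← Real.rpow_natCast, ← Real.rpow_mul hN0.le]
                congr 1
                push_cast
                ring
        have h8 : (l.divisors.card : ℝ) ≤ L := by
          rcases le_or_gt Cd 0 with h9 | h9
          · have h10 : (0 : ℝ) ≤ (l : ℝ) ^ (κ / 4) := by positivity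
            nlinarith
          · have h10 : Cd * (l : ℝ) ^ (κ / 4) ≤ Cd * ν := mul_le_mul_of_nonneg_left h6 h9.le
            nlinarith
        exact_mod_cast h8
      obtain ⟨P, hP, hP5, hP16, hPb⟩ := hL0 L hLL0 N M M' hM1' hMM e1 e2 e3
      have hint := hTRF X μ T hT f g hf hg hf1 hg1 N P
        (fun k => rhoS N M k - rhoS N M' k) (8192 / L) hN hP5 hP16 (by positivity) hPb
      have heq : ∀ x, ∑ k ∈ range (2 * N ^ 2 + 1), (rhoS N M k - rhoS N M' k) * FT T f g x k =
          WF (FT T f g x) N M - WF (FT T f g x) N M' := by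
        intro x
        rw [← (hRWF (FT T f g x)).1 N M (hMM.trans hM'N), ← (hRWF (FT T f g x)).1 N M' hM'N,
          ← Finset.sum_sub_distrib]
        apply Finset.sum_congr rfl
        intro k _
        ring
      simp only [heq] at hint
      refine hint.trans ?_
      rw [hνm]
      have h5 : 8192 / (L : ℝ) ≤ 16384 / ν ^ 2 := by
        rw [div_le_div_iff₀ hLpos (by positivity)]
        linarith
      have h6 : (8192 / (L : ℝ)) ^ 2 ≤ 16384 ^ 2 * (ν ^ 4)⁻¹ := by
        calc (8192 / (L : ℝ)) ^ 2 ≤ (16384 / ν ^ 2) ^ 2 :=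
              pow_le_pow_left₀ (by positivity) h5 2
          _ = 16384 ^ 2 * (ν ^ 4)⁻¹ := by
              rw [div_pow, ← pow_mul, div_eq_mul_inv]
      have h7 : (0 : ℝ) ≤ 16 * A ^ 4 * (ν ^ 4)⁻¹ := by positivity
      linarith
  intro N M M' hN a1 a2 b1 b2
  rcases le_total M M' with h | h
  · exact key N M M' hN a1 b2 h
  · have h5 := key N M' M hN b1 a2 h
    have h6 : (fun x => (WF (FT T f g x) N M - WF (FT T f g x) N M') ^ 2) =
        fun x => (WF (FT T f g x) N M' - WF (FT T f g x) N M) ^ 2 := by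
      funext x
      ring
    rw [h6]
    exact h5

end Pool.Agent.BSQ
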