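import Pool.Agent.BSQ.StB

/-!
# BSQ, module RWF (regrouping)
-/

set_option autoImplicit false

namespace Pool.Agent.BSQ

open Finset MeasureTheory Filter Topology
open scoped BigOperators
open Classical

private theorem rwf_sq_lt {N M : ℕ} (h : M ≤ N) {p : ℕ × ℕ} (hp : p ∈ Str N M) :
    sq2 p ∈ range (2 * N ^ 2 + 1) := by
  unfold Str at hp
  rw [mem_product, mem_Icc, mem_Icc] at hp
  rw [mem_range]
  unfold sq2
  have h1 : p.1 ^ 2 ≤ N ^ 2 := Nat.pow_le_pow_left hp.1.2 2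
  have h2 : p.2 ^ 2 ≤ N ^ 2 := Nat.pow_le_pow_left (hp.2.2.trans h) 2
  omega

private theorem rwf_sec_lt {R j N : ℕ} {p : ℕ × ℕ} (hp : p ∈ SecX R j (N ^ 2)) :
    sq2 p ∈ range (2 * N ^ 2 + 1) := by
  unfold SecX at hp
  rw [mem_filter] at hp
  rw [mem_range]
  have h1 := hp.2.2.2.2.2
  omega

theorem thm_RWF : St_RWF := by
  intro F
  refine ⟨fun N M hMN => ?_, fun R j N => ?_⟩
  · unfold rhoS WF
    have h1 : ∑ n ∈ Icc 1 N, ∑ m ∈ Icc 1 M, (n : ℝ) * F (n ^ 2 + m ^ 2) =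
        ∑ p ∈ Str N M, (p.1 : ℝ) * F (sq2 p) := by
      unfold Str
      rw [sum_product]
      rfl
    rw [h1, ← sum_fiberwise_of_maps_to (fun p hp => rwf_sq_lt hMN hp)
      (fun p : ℕ × ℕ => (p.1 : ℝ) * F (sq2 p)), mul_sum]
    refine sum_congr rfl (fun k _ => ?_)
    rw [mul_assoc, sum_mul]
    congr 1
    refine sum_congr rfl (fun p hp => ?_)
    rw [(mem_filter.1 hp).2]
  · unfold sigS SF
    rw [← sum_fiberwise_of_maps_to (fun p hp => rwf_sec_lt hp)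
      (fun p : ℕ × ℕ => F (sq2 p)), mul_sum]
    refine sum_congr rfl (fun k _ => ?_)
    rw [mul_assoc]
    congr 1
    rw [← nsmul_eq_mul, ← sum_const]
    refine sum_congr rfl (fun p hp => ?_)
    rw [(mem_filter.1 hp).2]

end Pool.Agent.BSQ
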