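import Pool.Agent.BSQ.StB

/-! # BSQ, module SCH: division by the symbol, Schwartz functions -/

set_option autoImplicit false

namespace Pool.Agent.BSQ

open MeasureTheory Filter Topology Set
open scoped FourierTransform SchwartzMap ContDiff Real

/-- `log (1 + r²) / 2` -/
noncomputable def sch_a (r : ℝ) : ℝ := Real.log (1 + r ^ 2) / 2

theorem sch_a_cont : Continuous sch_a := by
  have h : ∀ r : ℝ, 1 + r ^ 2 ≠ 0 := fun r => by positivity
  exact (Continuous.log (by fun_prop) h).div_const 2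

/-- the symbol -/
noncomputable def sch_K (t : ℝ) : ℂ :=
  ∫ r in Ioc (0 : ℝ) 1, Complex.exp ((2 * π * (t * sch_a r) : ℝ) * Complex.I)

theorem sch_K_ne (hS : St_SYM) (t : ℝ) : sch_K t ≠ 0 := by
  have h := hS (π * t)
  rw [intervalIntegral.integral_of_le zero_le_one] at h
  have e : sch_K t =
      ∫ r in Ioc (0 : ℝ) 1, Complex.exp ((π * t * Real.log (1 + r ^ 2) : ℝ) * Complex.I) := by
    unfold sch_K
    congr 1
    ext r
    congr 3
    unfold sch_a
    ring
  rwa [e]

theorem sch_K_smooth : ContDiff ℝ ∞ sch_K := by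
  have h1 : ContDiff ℝ ∞ (VectorFourier.fourierIntegral 𝐞
      ((volume.restrict (Ioc (0 : ℝ) 1)).map sch_a)
      (-(ContinuousLinearMap.mul ℝ ℝ)).toLinearMap₁₂ (fun _ : ℝ => (1 : ℂ))) := by
    apply VectorFourier.contDiff_fourierIntegral
    intro n _
    have h2 : Continuous ((fun v : ℝ => ‖v‖ ^ n * ‖(1 : ℂ)‖) ∘ sch_a) := by
      have := sch_a_cont
      fun_prop
    have h3 : Continuous (fun v : ℝ => ‖v‖ ^ n * ‖(1 : ℂ)‖) := by fun_prop
    exact (integrable_map_measure h3.aestronglyMeasurable sch_a_cont.aemeasurable).mpr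
      h2.integrableOn_Ioc
  have e : sch_K = VectorFourier.fourierIntegral 𝐞
      ((volume.restrict (Ioc (0 : ℝ) 1)).map sch_a)
      (-(ContinuousLinearMap.mul ℝ ℝ)).toLinearMap₁₂ (fun _ : ℝ => (1 : ℂ)) := by
    ext t
    have h4 : ∀ v : ℝ, 𝐞 (-((-(ContinuousLinearMap.mul ℝ ℝ)).toLinearMap₁₂ v t)) • (1 : ℂ) =
        Complex.exp ((2 * π * (t * v) : ℝ) * Complex.I) := by
      intro v
      rw [Circle.smul_def, Real.fourierChar_apply, smul_eq_mul, mul_one]
      congr 3
      simp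
      ring
    have h5 : Continuous fun v : ℝ => Complex.exp ((2 * π * (t * v) : ℝ) * Complex.I) := by
      fun_prop
    change sch_K t = ∫ v, 𝐞 (-((-(ContinuousLinearMap.mul ℝ ℝ)).toLinearMap₁₂ v t)) • (1 : ℂ)
      ∂((volume.restrict (Ioc (0 : ℝ) 1)).map sch_a)
    rw [integral_congr_ae (Eventually.of_forall h4),
      integral_map sch_a_cont.aemeasurable h5.aestronglyMeasurable]
    rfl
  rw [e]
  exact h1

/-- the inverse Fourier transform of a Schwartz function of one variable -/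
theorem sch_inv (X : 𝓢(ℝ, ℂ)) (w : ℝ) :
    (𝓕⁻ X) w = ∫ v, Complex.exp ((2 * π * (v * w) : ℝ) * Complex.I) * X v := by
  rw [SchwartzMap.fourierInv_coe, Real.fourierInv_eq']
  congr 1
  ext v
  rw [smul_eq_mul]
  congr 3
  have h : inner ℝ v w = v * w := by simp [mul_comm]
  rw [h]

theorem sch_swap {φ : ℝ → ℂ} (hφc : Continuous φ) (hφ : Integrable φ) (w : ℝ) :
    ∫ r in Ioc (0 : ℝ) 1, ∫ v, Complex.exp ((2 * π * (v * (w + sch_a r)) : ℝ) * Complex.I) * φ v =
      ∫ v, Complex.exp ((2 * π * (v * w) : ℝ) * Complex.I) * φ v * sch_K v := by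
  rw [integral_integral_swap]
  · congr 1
    ext v
    unfold sch_K
    rw [← integral_const_mul]
    congr 1
    ext r
    have h : ((2 * π * (v * (w + sch_a r)) : ℝ) * Complex.I) =
        ((2 * π * (v * w) : ℝ) * Complex.I) + ((2 * π * (v * sch_a r) : ℝ) * Complex.I) := by
      push_cast
      ring
    rw [h, Complex.exp_add]
    ring
  · have h1 : Integrable (fun z : ℝ × ℝ => (1 : ℂ) * φ z.2)
        ((volume.restrict (Ioc (0 : ℝ) 1)).prod volume) :=
      Integrable.mul_prod (f := fun _ : ℝ => (1 : ℂ)) (g := φ) (by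
        exact integrable_const _) hφ
    refine h1.mono ?_ ?_
    · have h2 : Continuous (Function.uncurry fun r v : ℝ =>
          Complex.exp ((2 * π * (v * (w + sch_a r)) : ℝ) * Complex.I) * φ v) := by
        have := sch_a_cont
        fun_prop
      exact h2.aestronglyMeasurable
    · refine Eventually.of_forall fun z => ?_
      simp only [Function.uncurry, norm_mul, Complex.norm_exp_ofReal_mul_I, norm_one, le_refl]

theorem thm_SCH (hS : St_SYM) : St_SCH := by
  let b : ContDiffBump (0 : ℝ) := ⟨1, 2, one_pos, one_lt_two⟩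
  let χ : ℝ → ℂ := fun x => ((b x : ℝ) : ℂ)
  have χs : ContDiff ℝ ∞ χ := Complex.ofRealCLM.contDiff.comp b.contDiff
  have χc : HasCompactSupport χ := b.hasCompactSupport.comp_left Complex.ofReal_zero
  let X : 𝓢(ℝ, ℂ) := χc.toSchwartzMap χs
  have hX : ∀ x, X x = χ x := fun x => rfl
  refine ⟨fun w => (𝓕⁻ X) w, (𝓕⁻ X).continuous, (𝓕⁻ X).integrable, ?_, ?_, ?_⟩
  · have h := (𝓕⁻ X).integrable_pow_mul volume 1
    simpa using h
  · have h1 : 𝓕 (𝓕⁻ X) = X := FourierTransform.fourier_fourierInv_eq X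
    have h2 : (𝓕 (𝓕⁻ X)) (0 : ℝ) = X 0 := by rw [h1]
    rw [SchwartzMap.fourier_coe, Real.fourier_real_eq] at h2
    simp only [mul_zero, neg_zero, AddChar.map_zero_eq_one, one_smul] at h2
    rw [h2, hX]
    have h3 : b (0 : ℝ) = 1 := b.one_of_mem_closedBall (by simp [b])
    simp only [χ, h3, Complex.ofReal_one]
  · intro l hl
    have hl0 : (0 : ℝ) < l := by linarith
    let φ : ℝ → ℂ := fun t => χ (t / l) * (sch_K t)⁻¹
    have φs : ContDiff ℝ ∞ φ :=
      (χs.comp (contDiff_id.div_const l)).mul (sch_K_smooth.inv (sch_K_ne hS))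
    have φc : HasCompactSupport φ := by
      have h1 : HasCompactSupport (fun t : ℝ => χ (t / l)) := by
        have := χc.comp_homeomorph (Homeomorph.mulRight₀ l⁻¹ (inv_ne_zero hl0.ne'))
        exact this
      have h2 := h1.mul_right (f' := fun t => (sch_K t)⁻¹)
      exact h2
    let Y : 𝓢(ℝ, ℂ) := φc.toSchwartzMap φs
    have hY : ∀ x, Y x = φ x := fun x => rfl
    refine ⟨fun w => (𝓕⁻ Y) w, (𝓕⁻ Y).continuous, (𝓕⁻ Y).integrable, fun w => ?_⟩
    have e1 : ∫ r in (0 : ℝ)..1, (𝓕⁻ Y) (w + Real.log (1 + r ^ 2) / 2) =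
        ∫ v, Complex.exp ((2 * π * (v * w) : ℝ) * Complex.I) * χ (v / l) := by
      rw [intervalIntegral.integral_of_le zero_le_one]
      have e2 : ∀ r : ℝ, (𝓕⁻ Y) (w + Real.log (1 + r ^ 2) / 2) =
          ∫ v, Complex.exp ((2 * π * (v * (w + sch_a r)) : ℝ) * Complex.I) * Y v :=
        fun r => sch_inv Y _
      simp_rw [e2]
      rw [sch_swap Y.continuous Y.integrable w]
      congr 1
      ext v
      rw [hY]
      simp only [φ]
      have k : χ (v / l) * (sch_K v)⁻¹ * sch_K v = χ (v / l) := by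
        rw [mul_assoc, inv_mul_cancel₀ (sch_K_ne hS v), mul_one]
      generalize Complex.exp ((2 * π * (v * w) : ℝ) * Complex.I) = E
      rw [mul_assoc, k]
    rw [e1]
    change (l : ℂ) * (𝓕⁻ X) (l * w) = _
    rw [sch_inv X]
    have e3 := Measure.integral_comp_div
      (fun v : ℝ => Complex.exp ((2 * π * (v * (l * w)) : ℝ) * Complex.I) * χ v) l
    rw [abs_of_pos hl0] at e3
    have e4 : ∀ v : ℝ, v / l * (l * w) = v * w := fun v => by field_simp
    simp_rw [e4] at e3
    rw [e3, Complex.real_smul]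
    rfl

end Pool.Agent.BSQ
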