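import Pool.Agent.BSQ.StA

/-!
# BSQ/SECT (helper82): lattice points of a sector in residue classes
-/

set_option autoImplicit false

namespace Pool.Agent.BSQ

open Finset MeasureTheory
open Classical

/-- points of an interval in a residue class -/
private theorem sect_cnt (a b q v : ℕ) (hq : 1 ≤ q) (hv : v < q) (hab : a ≤ b) :
    |((((Ico a b).filter (fun x => x % q = v)).card : ℝ)) - ((b : ℝ) - a) / q| ≤ 1 := by
  have h1 := Nat.Ico_filter_modEq_card (a := a) (b := b) (r := q) (by omega) v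
  have h2 : ((Ico a b).filter (fun x => x % q = v)) =
      ((Ico a b).filter (fun x => x ≡ v [MOD q])) := by
    refine Finset.filter_congr fun x _ => ?_
    rw [Nat.ModEq, Nat.mod_eq_of_lt hv]
  rw [h2]
  have hq0 : (0 : ℚ) < q := by exact_mod_cast (show 0 < q by omega)
  have hab' : (a : ℚ) ≤ b := by exact_mod_cast hab
  have h3 : ⌈((a : ℚ) - v) / q⌉ ≤ ⌈((b : ℚ) - v) / q⌉ := by
    refine Int.ceil_le_ceil ?_
    gcongr
  rw [max_eq_left (by linarith)] at h1
  have h4 : (((((Ico a b).filter (fun x => x ≡ v [MOD q])).card : ℕ) : ℤ) : ℚ) =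
      ((⌈((b : ℚ) - v) / q⌉ - ⌈((a : ℚ) - v) / q⌉ : ℤ) : ℚ) := by
    rw [← h1]
  have h5 := Int.ceil_lt_add_one (((b : ℚ) - v) / q)
  have h6 := Int.le_ceil (((b : ℚ) - v) / q)
  have h7 := Int.ceil_lt_add_one (((a : ℚ) - v) / q)
  have h8 := Int.le_ceil (((a : ℚ) - v) / q)
  have h9 : |((((Ico a b).filter (fun x => x ≡ v [MOD q])).card : ℚ)) - ((b : ℚ) - a) / q| ≤ 1 := by
    have h10 : ((b : ℚ) - a) / q = ((b : ℚ) - v) / q - ((a : ℚ) - v) / q := by ring
    push_cast at h4
    rw [h4, h10, abs_le]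
    constructor <;> linarith
  have h11 : (((|((((Ico a b).filter (fun x => x ≡ v [MOD q])).card : ℚ)) - ((b : ℚ) - a) / q| : ℚ)) : ℝ)
      ≤ ((1 : ℚ) : ℝ) := by exact_mod_cast h9
  push_cast at h11
  exact h11

/-- sums and integrals of monotone functions -/
private theorem sect_mono (p : ℝ → ℝ) (hp : Monotone p) (d q : ℝ) (hq : 0 < q) (N : ℕ) :
    |∑ i ∈ range N, p (q * i + d) - q⁻¹ * ∫ x in d..(q * N + d), p x| ≤ p (q * N + d) - p d := by
  set g : ℝ → ℝ := fun t => p (q * t + d) with hg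
  have hgm : Monotone g := fun s t hst => hp (by
    have := mul_le_mul_of_nonneg_left hst hq.le
    linarith)
  have h1 := (hgm.monotoneOn (Set.Icc (0 : ℝ) (0 + N))).sum_le_integral
  have h2 := (hgm.monotoneOn (Set.Icc (0 : ℝ) (0 + N))).integral_le_sum
  have h3 : ∫ x in (0 : ℝ)..0 + N, g x = q⁻¹ * ∫ x in d..(q * N + d), p x := by
    rw [hg, intervalIntegral.integral_comp_mul_add p hq.ne' d, smul_eq_mul, zero_add, mul_zero,
      zero_add]
  rw [h3] at h1 h2
  simp only [zero_add] at h1 h2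
  have h4 : ∑ i ∈ range N, g ((i + 1 : ℕ) : ℝ) = ∑ i ∈ range N, g (i : ℝ) + (g N - g 0) := by
    have := Finset.sum_range_sub (fun i : ℕ => g (i : ℝ)) N
    rw [Finset.sum_sub_distrib] at this
    push_cast at this ⊢
    linarith
  rw [h4] at h2
  have h5 : g N = p (q * N + d) := rfl
  have h6 : g 0 = p d := by simp [hg]
  rw [h5, h6] at h2
  have h7 : ∑ i ∈ range N, g (i : ℝ) = ∑ i ∈ range N, p (q * i + d) := rfl
  rw [h7] at h1 h2
  rw [abs_le]
  constructor <;> linarith

/-- unimodal functions -/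
private theorem sect_uni (h : ℝ → ℝ) (c S : ℝ) (hc : Continuous h) (h1 : MonotoneOn h (Set.Iic c))
    (h2 : AntitoneOn h (Set.Ici c)) (h0 : ∀ x, 0 ≤ h x) (hS : h c ≤ S) (d q : ℝ) (hq : 0 < q)
    (N : ℕ) :
    |∑ i ∈ range N, h (q * i + d) - q⁻¹ * ∫ x in d..(q * N + d), h x| ≤ 2 * S := by
  set p : ℝ → ℝ := fun x => h (min x c) with hp
  set m : ℝ → ℝ := fun x => h c - h (max x c) with hm
  have hpm : Monotone p := fun x y hxy => h1 (min_le_right x c) (min_le_right y c)
    (min_le_min_right c hxy)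
  have hmm : Monotone m := fun x y hxy => by
    have := h2 (Set.mem_Ici.2 (le_max_right x c)) (Set.mem_Ici.2 (le_max_right y c))
      (max_le_max_right c hxy)
    show h c - h (max x c) ≤ h c - h (max y c)
    linarith
  have hdec : ∀ x, h x = p x - m x := by
    intro x
    rcases le_total x c with hx | hx
    · simp [hp, hm, min_eq_left hx, max_eq_right hx]
    · simp [hp, hm, min_eq_right hx, max_eq_left hx]
  have hpc : Continuous p := hc.comp (continuous_id.min continuous_const)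
  have hmc : Continuous m := continuous_const.sub (hc.comp (continuous_id.max continuous_const))
  have e1 := sect_mono p hpm d q hq N
  have e2 := sect_mono m hmm d q hq N
  have e3 : ∫ x in d..(q * N + d), h x =
      (∫ x in d..(q * N + d), p x) - ∫ x in d..(q * N + d), m x := by
    rw [← intervalIntegral.integral_sub (hpc.intervalIntegrable _ _) (hmc.intervalIntegrable _ _)]
    exact intervalIntegral.integral_congr fun x _ => hdec x
  have e4 : ∑ i ∈ range N, h (q * i + d) =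
      ∑ i ∈ range N, p (q * i + d) - ∑ i ∈ range N, m (q * i + d) := by
    rw [← Finset.sum_sub_distrib]
    exact Finset.sum_congr rfl fun i _ => hdec _
  have e5 : p (q * N + d) - p d ≤ h c := by
    have : p (q * N + d) ≤ h c := h1 (min_le_right _ c) (Set.mem_Iic.2 le_rfl) (min_le_right _ c)
    have : 0 ≤ p d := h0 _
    linarith
  have e6 : m (q * N + d) - m d ≤ h c := by
    have h3 : m (q * N + d) ≤ h c := by
      show h c - h (max _ c) ≤ h c
      have := h0 (max (q * N + d) c)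
      linarith
    have h4 : 0 ≤ m d := by
      have := h2 (Set.mem_Ici.2 le_rfl) (Set.mem_Ici.2 (le_max_right d c)) (le_max_right d c)
      show 0 ≤ h c - h (max d c)
      linarith
    linarith
  rw [e3, e4]
  rw [abs_le] at e1 e2 ⊢
  constructor <;> linarith [mul_sub q⁻¹ (∫ x in d..(q * N + d), p x) (∫ x in d..(q * N + d), m x)]

/-- vertical sections of the sector of radius `√k` -/
private noncomputable def sect_h (R j k : ℕ) (x : ℝ) : ℝ :=
  max 0 (min (((j : ℝ) + 1) * x / R) (Real.sqrt (k - x ^ 2)) - (j : ℝ) * x / R)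

private theorem sect_h_cont (R j k : ℕ) : Continuous (sect_h R j k) := by
  unfold sect_h
  fun_prop

private theorem sect_h_nonneg (R j k : ℕ) (x : ℝ) : 0 ≤ sect_h R j k x := le_max_left _ _

private theorem sect_h_neg (R j k : ℕ) (hR : 1 ≤ R) (x : ℝ) (hx : x ≤ 0) : sect_h R j k x = 0 := by
  unfold sect_h
  have hR' : (0 : ℝ) < R := by exact_mod_cast hR
  refine max_eq_left ?_
  have h1 : min (((j : ℝ) + 1) * x / R) (Real.sqrt (k - x ^ 2)) ≤ ((j : ℝ) + 1) * x / R :=
    min_le_left _ _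
  have h2 : ((j : ℝ) + 1) * x / R - (j : ℝ) * x / R = x / R := by ring
  have h3 : x / R ≤ 0 := div_nonpos_of_nonpos_of_nonneg hx hR'.le
  linarith

private theorem sect_h_big (R j k : ℕ) (x : ℝ) (hx0 : 0 ≤ x) (hx : (k : ℝ) ≤ x ^ 2) :
    sect_h R j k x = 0 := by
  unfold sect_h
  refine max_eq_left ?_
  have h1 : min (((j : ℝ) + 1) * x / R) (Real.sqrt (k - x ^ 2)) ≤ Real.sqrt (k - x ^ 2) :=
    min_le_right _ _
  have h2 : Real.sqrt (k - x ^ 2) = 0 := Real.sqrt_eq_zero_of_nonpos (by linarith)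
  have h3 : 0 ≤ (j : ℝ) * x / R := by positivity
  linarith

private theorem sect_h_scale (R j k : ℕ) (hk : 1 ≤ k) (x : ℝ) :
    sect_h R j k x = Real.sqrt k * hj R j (x / Real.sqrt k) := by
  have hk' : (0 : ℝ) < k := by exact_mod_cast hk
  have hr : 0 < Real.sqrt k := Real.sqrt_pos.2 hk'
  unfold sect_h hj
  rw [mul_max_of_nonneg _ _ hr.le, mul_zero, mul_sub, mul_min_of_nonneg _ _ hr.le]
  have h1 : Real.sqrt k * (((j : ℝ) + 1) * (x / Real.sqrt k) / R) = ((j : ℝ) + 1) * x / R := by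
    field_simp
  have h2 : Real.sqrt k * ((j : ℝ) * (x / Real.sqrt k) / R) = (j : ℝ) * x / R := by
    field_simp
  have h3 : Real.sqrt k * Real.sqrt (1 - (x / Real.sqrt k) ^ 2) = Real.sqrt (k - x ^ 2) := by
    rw [← Real.sqrt_mul hk'.le]
    congr 1
    rw [div_pow, Real.sq_sqrt hk'.le]
    field_simp
  rw [h1, h2, h3]

private theorem sect_int (R j k : ℕ) (hR : 1 ≤ R) (hk : 1 ≤ k) (a b : ℝ) (ha : a ≤ 0)
    (hb : Real.sqrt k ≤ b) : ∫ x in a..b, sect_h R j k x = aj R j * k := by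
  have hk' : (0 : ℝ) < k := by exact_mod_cast hk
  have hr : 0 < Real.sqrt k := Real.sqrt_pos.2 hk'
  have hc := sect_h_cont R j k
  have h1 : ∫ x in a..(0 : ℝ), sect_h R j k x = 0 := by
    rw [intervalIntegral.integral_congr (g := fun _ => (0 : ℝ))]
    · simp
    · intro x hx
      rw [Set.uIcc_of_le ha] at hx
      exact sect_h_neg R j k hR x hx.2
  have h2 : ∫ x in (Real.sqrt k)..b, sect_h R j k x = 0 := by
    rw [intervalIntegral.integral_congr (g := fun _ => (0 : ℝ))]
    · simp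
    · intro x hx
      rw [Set.uIcc_of_le hb] at hx
      refine sect_h_big R j k x (hr.le.trans hx.1) ?_
      have := pow_le_pow_left₀ hr.le hx.1 2
      rwa [Real.sq_sqrt hk'.le] at this
  have h3 : ∫ x in (0 : ℝ)..(Real.sqrt k), sect_h R j k x = aj R j * k := by
    simp only [sect_h_scale R j k hk]
    rw [intervalIntegral.integral_const_mul, intervalIntegral.integral_comp_div _ hr.ne', zero_div,
      div_self hr.ne', smul_eq_mul, ← mul_assoc, Real.mul_self_sqrt hk'.le, mul_comm]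
    rfl
  rw [← intervalIntegral.integral_add_adjacent_intervals (hc.intervalIntegrable a 0)
    (hc.intervalIntegrable 0 b), ← intervalIntegral.integral_add_adjacent_intervals
    (hc.intervalIntegrable 0 (Real.sqrt k)) (hc.intervalIntegrable (Real.sqrt k) b), h1, h2, h3]
  ring

/-- the abscissa of the maximum -/
private noncomputable def sect_c (R j k : ℕ) : ℝ := Real.sqrt (k / (1 + (((j : ℝ) + 1) / R) ^ 2))

private theorem sect_h_le (R j k : ℕ) (hR : 1 ≤ R) (x : ℝ) (hx : x ≤ sect_c R j k) :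
    sect_h R j k x = max 0 (x / R) := by
  have hR' : (0 : ℝ) < R := by exact_mod_cast hR
  rcases le_or_gt x 0 with h0 | h0
  · rw [sect_h_neg R j k hR x h0, max_eq_left (div_nonpos_of_nonpos_of_nonneg h0 hR'.le)]
  · have h1 : x ^ 2 ≤ k / (1 + (((j : ℝ) + 1) / R) ^ 2) := by
      have := pow_le_pow_left₀ h0.le hx 2
      unfold sect_c at this
      rwa [Real.sq_sqrt (by positivity)] at this
    rw [le_div_iff₀ (by positivity)] at h1
    have h2 : ((j : ℝ) + 1) * x / R ≤ Real.sqrt (k - x ^ 2) := by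
      refine Real.le_sqrt_of_sq_le ?_
      have : (((j : ℝ) + 1) * x / R) ^ 2 = x ^ 2 * (((j : ℝ) + 1) / R) ^ 2 := by
        field_simp
      rw [this]
      linarith
    unfold sect_h
    rw [min_eq_left h2]
    congr 1
    ring

private theorem sect_h_ge (R j k : ℕ) (hR : 1 ≤ R) (x : ℝ) (hx : sect_c R j k ≤ x) :
    sect_h R j k x = max 0 (Real.sqrt (k - x ^ 2) - (j : ℝ) * x / R) := by
  have hR' : (0 : ℝ) < R := by exact_mod_cast hR
  have hc0 : 0 ≤ sect_c R j k := Real.sqrt_nonneg _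
  have hx0 : 0 ≤ x := hc0.trans hx
  have h1 : (k : ℝ) / (1 + (((j : ℝ) + 1) / R) ^ 2) ≤ x ^ 2 := by
    have := pow_le_pow_left₀ hc0 hx 2
    unfold sect_c at this
    rwa [Real.sq_sqrt (by positivity)] at this
  rw [div_le_iff₀ (by positivity)] at h1
  have h2 : Real.sqrt (k - x ^ 2) ≤ ((j : ℝ) + 1) * x / R := by
    refine Real.sqrt_le_iff.2 ⟨by positivity, ?_⟩
    have : (((j : ℝ) + 1) * x / R) ^ 2 = x ^ 2 * (((j : ℝ) + 1) / R) ^ 2 := by
      field_simp
    rw [this]
    linarith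
  unfold sect_h
  rw [min_eq_right h2]

private theorem sect_h_monoOn (R j k : ℕ) (hR : 1 ≤ R) :
    MonotoneOn (sect_h R j k) (Set.Iic (sect_c R j k)) := by
  intro x hx y hy hxy
  have hR' : (0 : ℝ) < R := by exact_mod_cast hR
  rw [sect_h_le R j k hR x hx, sect_h_le R j k hR y hy]
  exact max_le_max_left 0 (by gcongr)

private theorem sect_h_antiOn (R j k : ℕ) (hR : 1 ≤ R) :
    AntitoneOn (sect_h R j k) (Set.Ici (sect_c R j k)) := by
  intro x hx y hy hxy
  have hR' : (0 : ℝ) < R := by exact_mod_cast hR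
  have hc0 : 0 ≤ sect_c R j k := Real.sqrt_nonneg _
  have hx0 : 0 ≤ x := hc0.trans hx
  rw [sect_h_ge R j k hR x hx, sect_h_ge R j k hR y hy]
  refine max_le_max_left 0 ?_
  have h1 : x ^ 2 ≤ y ^ 2 := pow_le_pow_left₀ hx0 hxy 2
  have h2 : Real.sqrt (k - y ^ 2) ≤ Real.sqrt (k - x ^ 2) := Real.sqrt_le_sqrt (by linarith)
  have h3 : (j : ℝ) * x / R ≤ (j : ℝ) * y / R := by gcongr
  linarith

private theorem sect_h_sup (R j k : ℕ) (hR : 1 ≤ R) : sect_h R j k (sect_c R j k) ≤ Real.sqrt k := by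
  rw [sect_h_le R j k hR _ le_rfl]
  have hR' : (1 : ℝ) ≤ R := by exact_mod_cast hR
  have hc0 : 0 ≤ sect_c R j k := Real.sqrt_nonneg _
  refine max_le (Real.sqrt_nonneg _) ((div_le_self hc0 hR').trans ?_)
  unfold sect_c
  refine Real.sqrt_le_sqrt (div_le_self (Nat.cast_nonneg k) ?_)
  have : 0 ≤ (((j : ℝ) + 1) / R) ^ 2 := by positivity
  linarith

/-- points of a vertical line -/
private theorem sect_line (R j q v k n : ℕ) (hR : 1 ≤ R) (hq : 1 ≤ q) (hv : v < q) (hn : 1 ≤ n)
    (hnk : n ^ 2 < k) :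
    |((((range (k + 1)).filter (fun m => (1 ≤ m ∧ j * n ≤ R * m ∧ R * m < (j + 1) * n ∧
      n ^ 2 + m ^ 2 < k) ∧ m % q = v)).card : ℝ)) - sect_h R j k n / q| ≤ 2 := by
  have hR' : (0 : ℝ) < R := by exact_mod_cast hR
  have hq' : (1 : ℝ) ≤ q := by exact_mod_cast hq
  have hnk' : (n : ℝ) ^ 2 < k := by exact_mod_cast hnk
  set A : ℝ := (j : ℝ) * n / R with hA
  set B : ℝ := min (((j : ℝ) + 1) * n / R) (Real.sqrt (k - (n : ℝ) ^ 2)) with hB
  have hA0 : 0 ≤ A := by positivity
  have hB0 : 0 ≤ B := le_min (by positivity) (Real.sqrt_nonneg _)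
  have hh : sect_h R j k n = max 0 (B - A) := rfl
  set a : ℕ := max 1 ⌈A⌉₊ with ha
  set b : ℕ := ⌈B⌉₊ with hb
  have hset : ((range (k + 1)).filter (fun m => (1 ≤ m ∧ j * n ≤ R * m ∧ R * m < (j + 1) * n ∧
      n ^ 2 + m ^ 2 < k) ∧ m % q = v)) = (Ico a b).filter (fun m => m % q = v) := by
    ext m
    simp only [mem_filter, mem_range, mem_Ico]
    have e1 : a ≤ m ↔ 1 ≤ m ∧ j * n ≤ R * m := by
      rw [ha, max_le_iff, Nat.ceil_le, hA, div_le_iff₀ hR']
      refine and_congr Iff.rfl ?_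
      rw [mul_comm (m : ℝ)]
      norm_cast
    have e2 : m < b ↔ R * m < (j + 1) * n ∧ n ^ 2 + m ^ 2 < k := by
      rw [hb, Nat.lt_ceil, hB, lt_min_iff, lt_div_iff₀ hR', Real.lt_sqrt (Nat.cast_nonneg m)]
      refine and_congr ?_ ?_
      · rw [mul_comm (m : ℝ)]
        norm_cast
      · rw [lt_sub_iff_add_lt']
        norm_cast
    rw [e1, e2]
    constructor
    · rintro ⟨h1, ⟨h2, h3, h4, h5⟩, h6⟩
      exact ⟨⟨⟨h2, h3⟩, h4, h5⟩, h6⟩
    · rintro ⟨⟨⟨h2, h3⟩, h4, h5⟩, h6⟩
      refine ⟨?_, ⟨h2, h3, h4, h5⟩, h6⟩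
      nlinarith [Nat.le_self_pow two_ne_zero m]
  rw [hset, hh]
  have hbB : B ≤ b := Nat.le_ceil B
  have hbB' : (b : ℝ) < B + 1 := Nat.ceil_lt_add_one hB0
  have haA : A ≤ a := (Nat.le_ceil A).trans (by exact_mod_cast le_max_right _ _)
  have haA' : (a : ℝ) ≤ A + 1 := by
    rw [ha]
    push_cast
    exact max_le (by linarith) (Nat.ceil_lt_add_one hA0).le
  rcases le_or_gt a b with hab | hab
  · have h1 := sect_cnt a b q v hq hv hab
    have hab' : (a : ℝ) ≤ b := by exact_mod_cast hab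
    have h2 : |((b : ℝ) - a) / q - max 0 (B - A) / q| ≤ 1 := by
      rw [← sub_div, abs_div, abs_of_pos (by linarith : (0 : ℝ) < q), div_le_one (by linarith)]
      refine le_trans ?_ hq'
      rw [abs_le]
      rcases le_total 0 (B - A) with h3 | h3
      · rw [max_eq_right h3]
        constructor <;> linarith
      · rw [max_eq_left h3]
        constructor <;> linarith
    calc _ = |(((((Ico a b).filter (fun m => m % q = v)).card : ℝ)) - ((b : ℝ) - a) / q) +
          (((b : ℝ) - a) / q - max 0 (B - A) / q)| := by ring_nf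
      _ ≤ _ := (abs_add_le _ _).trans (by linarith)
  · rw [Ico_eq_empty (by omega), filter_empty, card_empty, Nat.cast_zero, zero_sub, abs_neg,
      abs_of_nonneg (div_nonneg (le_max_left _ _) (by linarith))]
    have hab' : (b : ℝ) < a := by exact_mod_cast hab
    have h3 : max 0 (B - A) ≤ 1 := max_le (by norm_num) (by linarith)
    calc max 0 (B - A) / q ≤ max 0 (B - A) := div_le_self (le_max_left _ _) hq'
      _ ≤ 2 := by linarith

/-- **SECT** -/
theorem thm_SECT : St_SECT := by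
  intro R j q u v k hR hj hq hu hv
  have hq' : (1 : ℝ) ≤ q := by exact_mod_cast hq
  have hq0 : (0 : ℝ) < q := by linarith
  rcases Nat.eq_zero_or_pos k with rfl | hk
  · have h1 : SecX R j 0 = ∅ := by
      ext p
      simp [SecX]
    rw [h1]
    simp
  have hk' : (0 : ℝ) < k := by exact_mod_cast hk
  have hr : 0 < Real.sqrt k := Real.sqrt_pos.2 hk'
  set r : ℝ := Real.sqrt k with hrdef
  set Sn : Finset ℕ := (Ico 1 (k + 1)).filter (fun n => n ^ 2 < k ∧ n % q = u) with hSn
  set cn : ℕ → ℕ := fun n => ((range (k + 1)).filter (fun m => (1 ≤ m ∧ j * n ≤ R * m ∧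
    R * m < (j + 1) * n ∧ n ^ 2 + m ^ 2 < k) ∧ m % q = v)).card with hcn
  -- the cardinality as a sum
  have hcard : (((SecX R j k).filter (fun p => p.1 % q = u ∧ p.2 % q = v)).card) =
      ∑ n ∈ Sn, cn n := by
    have h1 : (SecX R j k).filter (fun p => p.1 % q = u ∧ p.2 % q = v) =
        (range (k + 1) ×ˢ range (k + 1)).filter (fun p => (1 ≤ p.1 ∧ 1 ≤ p.2 ∧ j * p.1 ≤ R * p.2 ∧
          R * p.2 < (j + 1) * p.1 ∧ sq2 p < k) ∧ (p.1 % q = u ∧ p.2 % q = v)) := by
      unfold SecX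
      rw [filter_filter]
    rw [h1, card_filter, sum_product]
    have h2 : ∀ n ∈ range (k + 1), (∑ m ∈ range (k + 1), if (1 ≤ n ∧ 1 ≤ m ∧ j * n ≤ R * m ∧
          R * m < (j + 1) * n ∧ sq2 (n, m) < k) ∧ (n % q = u ∧ m % q = v) then 1 else 0) =
        if n ∈ Sn then cn n else 0 := by
      intro n hn
      rw [mem_range] at hn
      by_cases hnS : n ∈ Sn
      · rw [if_pos hnS, hcn]
        simp only
        rw [card_filter]
        refine sum_congr rfl fun m _ => ?_
        rw [hSn, mem_filter, mem_Ico] at hnS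
        refine if_congr ?_ rfl rfl
        unfold sq2
        simp only
        constructor
        · rintro ⟨⟨_, a2, a3, a4, a5⟩, _, a7⟩
          exact ⟨⟨a2, a3, a4, a5⟩, a7⟩
        · rintro ⟨⟨a2, a3, a4, a5⟩, a7⟩
          exact ⟨⟨hnS.1.1, a2, a3, a4, a5⟩, hnS.2.2, a7⟩
      · rw [if_neg hnS]
        refine sum_eq_zero fun m _ => ?_
        rw [if_neg]
        rintro ⟨⟨a1, _, _, _, a5⟩, a6, _⟩
        apply hnS
        rw [hSn, mem_filter, mem_Ico]
        unfold sq2 at a5
        simp only at a5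
        exact ⟨⟨a1, hn⟩, by omega, a6⟩
    rw [sum_congr rfl h2, ← sum_filter]
    refine sum_congr ?_ fun _ _ => rfl
    ext n
    simp only [mem_filter, mem_range, hSn, mem_Ico]
    constructor
    · rintro ⟨_, h⟩
      exact h
    · rintro h
      exact ⟨h.1.2, h⟩
  -- number of lines
  have hSncard : (Sn.card : ℝ) ≤ r / q + 1 := by
    have h1 : Sn ⊆ (Ico 1 ⌈r⌉₊).filter (fun n => n % q = u) := by
      intro n hn
      rw [hSn, mem_filter, mem_Ico] at hn
      rw [mem_filter, mem_Ico, Nat.lt_ceil]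
      refine ⟨⟨hn.1.1, ?_⟩, hn.2.2⟩
      rw [hrdef, Real.lt_sqrt (Nat.cast_nonneg n)]
      exact_mod_cast hn.2.1
    have h2 : 1 ≤ ⌈r⌉₊ := Nat.one_le_ceil_iff.2 hr
    have h3 := sect_cnt 1 ⌈r⌉₊ q u hq hu h2
    have h4 : (Sn.card : ℝ) ≤ (((Ico 1 ⌈r⌉₊).filter (fun n => n % q = u)).card : ℝ) := by
      exact_mod_cast card_le_card h1
    have h5 : (⌈r⌉₊ : ℝ) < r + 1 := Nat.ceil_lt_add_one hr.le
    have h6 : (((⌈r⌉₊ : ℕ) : ℝ) - (1 : ℕ)) / q ≤ r / q := by
      push_cast
      gcongr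
      linarith
    have h7 := (abs_le.1 h3).2
    linarith
  -- sum of the sections
  have hsum : ∑ n ∈ Sn, sect_h R j k n = ∑ i ∈ range (k + 2), sect_h R j k (q * i + ((u : ℝ) - q)) := by
    rw [sum_range_succ']
    have h1 : sect_h R j k (q * ((0 : ℕ) : ℝ) + ((u : ℝ) - q)) = 0 := by
      refine sect_h_neg R j k hR _ ?_
      have : (u : ℝ) ≤ q := by exact_mod_cast hu.le
      push_cast
      linarith
    rw [h1, add_zero]
    have h2 : ∀ i : ℕ, (q : ℝ) * ((i + 1 : ℕ) : ℝ) + ((u : ℝ) - q) = ((q * i + u : ℕ) : ℝ) := by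
      intro i
      push_cast
      ring
    simp only [h2]
    have hinj : Set.InjOn (fun i : ℕ => q * i + u) (range (k + 1)) := by
      intro a _ b _ hab
      simp only at hab
      have : q * a = q * b := by omega
      exact Nat.eq_of_mul_eq_mul_left (by omega) this
    rw [← sum_image (f := fun n : ℕ => sect_h R j k (n : ℝ)) hinj]
    refine sum_subset ?_ ?_
    · intro n hn
      rw [hSn, mem_filter, mem_Ico] at hn
      rw [mem_image]
      refine ⟨n / q, ?_, ?_⟩
      · rw [mem_range]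
        exact (Nat.div_le_self n q).trans_lt hn.1.2
      · have := Nat.div_add_mod n q
        rw [hn.2.2] at this
        exact this
    · intro n hn hnS
      rw [mem_image] at hn
      obtain ⟨i, _, rfl⟩ := hn
      by_cases h3 : (q * i + u) ^ 2 < k
      · have h4 : ¬ 1 ≤ q * i + u := by
          intro h5
          apply hnS
          rw [hSn, mem_filter, mem_Ico]
          refine ⟨⟨h5, ?_⟩, h3, ?_⟩
          · nlinarith [Nat.le_self_pow two_ne_zero (q * i + u)]
          · rw [Nat.mul_add_mod, Nat.mod_eq_of_lt hu]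
        have h6 : q * i + u = 0 := by omega
        rw [h6]
        exact sect_h_neg R j k hR _ (by simp)
      · refine sect_h_big R j k _ (Nat.cast_nonneg _) ?_
        push Not at h3
        exact_mod_cast h3
  have huni := sect_uni (sect_h R j k) (sect_c R j k) r (sect_h_cont R j k) (sect_h_monoOn R j k hR)
    (sect_h_antiOn R j k hR) (sect_h_nonneg R j k) (sect_h_sup R j k hR) ((u : ℝ) - q) q hq0 (k + 2)
  rw [← hsum, sect_int R j k hR hk _ _ (by
    have : (u : ℝ) ≤ q := by exact_mod_cast hu.le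
    linarith) (by
    have h1 : Real.sqrt k ≤ k + 1 := by
      rw [Real.sqrt_le_iff]
      constructor
      · positivity
      · nlinarith
    have h2 : (0 : ℝ) ≤ u := Nat.cast_nonneg u
    push_cast
    nlinarith)] at huni
  -- the sum over the lines
  have hlines : |∑ n ∈ Sn, (cn n : ℝ) - (∑ n ∈ Sn, sect_h R j k n) / q| ≤ 2 * (r / q + 1) := by
    rw [sum_div, ← sum_sub_distrib]
    refine (abs_sum_le_sum_abs _ _).trans ?_
    calc ∑ n ∈ Sn, |(cn n : ℝ) - sect_h R j k n / q| ≤ ∑ _n ∈ Sn, (2 : ℝ) := by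
          refine sum_le_sum fun n hn => ?_
          rw [hSn, mem_filter, mem_Ico] at hn
          exact sect_line R j q v k n hR hq hv hn.1.1 hn.2.1
      _ = Sn.card * 2 := by rw [sum_const, nsmul_eq_mul]
      _ ≤ _ := by linarith
  rw [hcard]
  push_cast
  have h9 : |(∑ n ∈ Sn, sect_h R j k n) / q - aj R j * k / (q : ℝ) ^ 2| ≤ 2 * r / q := by
    have e1 : (∑ n ∈ Sn, sect_h R j k n) / q - aj R j * k / (q : ℝ) ^ 2 =
        (∑ n ∈ Sn, sect_h R j k n - (q : ℝ)⁻¹ * (aj R j * k)) / q := by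
      field_simp
    rw [e1, abs_div, abs_of_pos hq0]
    gcongr
  calc |∑ n ∈ Sn, (cn n : ℝ) - aj R j * k / (q : ℝ) ^ 2| =
      |(∑ n ∈ Sn, (cn n : ℝ) - (∑ n ∈ Sn, sect_h R j k n) / q) +
        ((∑ n ∈ Sn, sect_h R j k n) / q - aj R j * k / (q : ℝ) ^ 2)| := by ring_nf
    _ ≤ 2 * (r / q + 1) + 2 * r / q := (abs_add_le _ _).trans (add_le_add hlines h9)
    _ = 4 * r / q + 2 := by ring

end Pool.Agent.BSQ
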