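import Pool.Agent.BSQ.StA

/-!
# BSQ, module STR (helper55): structured functions
-/

set_option autoImplicit false

namespace Pool.Agent.BSQ

open Finset
open scoped BigOperators
open Classical

section str

variable {P : ℕ} [NeZero P]

theorem str_tile {H T H' : ℕ} (hP : P = H * T) (hH : 1 ≤ H) (x : ZMod P)
    (hx : x.val % H + H' ≤ H) {r : ℕ} (hr : r < H') : tl H (x + (r : ZMod P)) = tl H x := by
  have hv : x.val < H * T := by
    rw [← hP]
    exact ZMod.val_lt x
  have h1 : x.val / H < T := Nat.div_lt_of_lt_mul hv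
  have h2 := Nat.div_add_mod x.val H
  have h3 : H * (x.val / H) + H ≤ H * T := by
    calc H * (x.val / H) + H = H * (x.val / H + 1) := by ring
      _ ≤ H * T := Nat.mul_le_mul_left H h1
  have hlt : x.val + r < P := by
    generalize H * T = M at hP h3
    omega
  have hrP : r < P := by omega
  unfold tl
  rw [ZMod.val_add_of_lt (by rw [ZMod.val_cast_of_lt hrP]; exact hlt), ZMod.val_cast_of_lt hrP]
  apply Nat.div_eq_of_lt_le
  · rw [mul_comm]
    omega
  · have h4 : (x.val / H + 1) * H = H * (x.val / H) + H := by ring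
    rw [h4]
    omega

/-- The proportion of the points near the end of a tile. -/
theorem str_card {H T H' : ℕ} (hP : P = H * T) (hH : 1 ≤ H) (hHH : H' ≤ H) :
    ((univ.filter fun x : ZMod P => ¬ (x.val % H + H' ≤ H)).card) ≤ T * H' := by
  have h1 : (univ.filter fun x : ZMod P => ¬ (x.val % H + H' ≤ H)).card ≤
      (range T ×ˢ Ico (H - H') H).card := by
    refine card_le_card_of_injOn (fun x => (x.val / H, x.val % H)) (fun x hx => ?_)
      (fun x _ y _ hxy => ?_)
    · have hx' : ¬ (x.val % H + H' ≤ H) := (mem_filter.1 hx).2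
      have hv : x.val < H * T := by
        rw [← hP]
        exact ZMod.val_lt x
      have h2 := Nat.mod_lt x.val (show 0 < H by omega)
      refine mem_product.2 ⟨mem_range.2 (Nat.div_lt_of_lt_mul hv), mem_Ico.2 ⟨?_, h2⟩⟩
      simp only
      omega
    · have h2 : x.val / H = y.val / H := congrArg Prod.fst hxy
      have h3 : x.val % H = y.val % H := congrArg Prod.snd hxy
      apply ZMod.val_injective
      rw [← Nat.div_add_mod x.val H, ← Nat.div_add_mod y.val H, h2, h3]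
  rw [card_product, card_range, Nat.card_Ico] at h1
  have h2 : H - (H - H') = H' := by omega
  rwa [h2] at h1

/-- The good points. -/
theorem str_good {H T H' : ℕ} (hP : P = H * T) (hH : 1 ≤ H) (z : ZMod P) (c : ℕ → ℂ)
    (g : ZMod P → ℂ) (D : ℕ → ℝ) (i : ℕ) (hc : ∀ t, ‖c t‖ ≤ 1)
    (f2 : ∀ b u v : ZMod P, ch b (u + v) = ch b u * ch b v) (f4 : ∀ b u : ZMod P, ‖ch b u‖ = 1)
    (y : ZMod P) (hy : (y + ((i * H' : ℕ) : ZMod P)).val % H + H' ≤ H) :
    ‖∑ k ∈ Ico (i * H') ((i + 1) * H'), (D k : ℂ) *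
      ((c (tl H (y + (k : ZMod P))) * ch z (y + (k : ZMod P))) * g (y - (k : ZMod P)))‖ ≤
    ‖∑ k ∈ Ico (i * H') ((i + 1) * H'), ((D k : ℂ) * ch z (k : ZMod P)) *
      g (y - (k : ZMod P))‖ := by
  have h1 : ∑ k ∈ Ico (i * H') ((i + 1) * H'), (D k : ℂ) *
      ((c (tl H (y + (k : ZMod P))) * ch z (y + (k : ZMod P))) * g (y - (k : ZMod P))) =
      (c (tl H (y + ((i * H' : ℕ) : ZMod P))) * ch z y) *
        ∑ k ∈ Ico (i * H') ((i + 1) * H'), ((D k : ℂ) * ch z (k : ZMod P)) *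
      g (y - (k : ZMod P)) := by
    rw [mul_sum]
    refine sum_congr rfl fun k hk => ?_
    rw [mem_Ico] at hk
    obtain ⟨r, rfl⟩ := Nat.exists_eq_add_of_le hk.1
    have hr : r < H' := by
      have h2 : (i + 1) * H' = i * H' + H' := by ring
      omega
    have h3 : y + ((i * H' + r : ℕ) : ZMod P) = (y + ((i * H' : ℕ) : ZMod P)) + (r : ZMod P) := by
      rw [Nat.cast_add, add_assoc]
    have h4 : tl H (y + ((i * H' + r : ℕ) : ZMod P)) = tl H (y + ((i * H' : ℕ) : ZMod P)) := by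
      rw [h3]
      exact str_tile hP hH _ hy hr
    rw [h4, f2 z y]
    ring
  rw [h1, norm_mul, norm_mul, f4, mul_one]
  calc ‖c (tl H (y + ((i * H' : ℕ) : ZMod P)))‖ * ‖_‖ ≤ 1 * ‖_‖ :=
        mul_le_mul_of_nonneg_right (hc _) (norm_nonneg _)
    _ = _ := one_mul _

theorem str_bound (z : ZMod P) (c : ℕ → ℂ) (g : ZMod P → ℂ) (D : ℕ → ℝ) (S : Finset ℕ) (H : ℕ)
    (hc : ∀ t, ‖c t‖ ≤ 1) (hg : ∀ u, ‖g u‖ ≤ 1) (f4 : ∀ b u : ZMod P, ‖ch b u‖ = 1) (y : ZMod P) :
    ‖∑ k ∈ S, (D k : ℂ) *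
      ((c (tl H (y + (k : ZMod P))) * ch z (y + (k : ZMod P))) * g (y - (k : ZMod P)))‖ ≤
    ∑ k ∈ S, |D k| := by
  refine (norm_sum_le _ _).trans (sum_le_sum fun k _ => ?_)
  rw [norm_mul, norm_mul, norm_mul, f4, mul_one, Complex.norm_real, Real.norm_eq_abs]
  have h1 : ‖c (tl H (y + (k : ZMod P)))‖ * ‖g (y - (k : ZMod P))‖ ≤ 1 :=
    mul_le_one₀ (hc _) (norm_nonneg _) (hg _)
  calc |D k| * (‖c (tl H (y + (k : ZMod P)))‖ * ‖g (y - (k : ZMod P))‖) ≤ |D k| * 1 :=
        mul_le_mul_of_nonneg_left h1 (abs_nonneg _)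
    _ = |D k| := mul_one _

end str

theorem thm_STR (hFB : St_FB) (hNRM : St_NRM) : St_STR := by
  intro P H T H' _ z c g D 𝒥 σ hP hH' hHH hc hg hσ
  obtain ⟨f1, f2, f3, f4, f5, f6, f7, f8⟩ := hFB P
  obtain ⟨n1, -, n3, -, n5, -, n7, -, -⟩ := hNRM P
  have hH : 1 ≤ H := hH'.trans hHH
  have hP0 : (0 : ℝ) < P := by
    have : 0 < P := NeZero.pos P
    exact_mod_cast this
  have hH0 : (0 : ℝ) < H := by exact_mod_cast hH
  refine (n3 ℕ 𝒥 (fun i y => ∑ k ∈ Ico (i * H') ((i + 1) * H'), (D k : ℂ) *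
    ((c (tl H (y + (k : ZMod P))) * ch z (y + (k : ZMod P))) * g (y - (k : ZMod P))))).trans
    (sum_le_sum fun i hi => ?_)
  have hσ0 : 0 ≤ σ i := (norm_nonneg _).trans (hσ i hi 0)
  have hS0 : 0 ≤ ∑ k ∈ Ico (i * H') ((i + 1) * H'), |D k| := sum_nonneg fun _ _ => abs_nonneg _
  set φ : ZMod P → ℂ := fun y => ∑ k ∈ Ico (i * H') ((i + 1) * H'), (D k : ℂ) *
    ((c (tl H (y + (k : ZMod P))) * ch z (y + (k : ZMod P))) * g (y - (k : ZMod P))) with hφ
  set ψ : ZMod P → ℂ := fun y => ∑ k ∈ Ico (i * H') ((i + 1) * H'),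
    ((D k : ℂ) * ch z (k : ZMod P)) * g (y - (k : ZMod P)) with hψ
  have hψn : n2 ψ ≤ σ i := by
    have k1 : ∀ b : ZMod P, ‖∑ k ∈ Ico (i * H') ((i + 1) * H'),
        ((D k : ℂ) * ch z (k : ZMod P)) * ch (-b) (k : ZMod P)‖ ≤ σ i := by
      intro b
      have k2 := hσ i hi (((z + -b).val : ℝ) / P)
      refine le_trans (le_of_eq ?_) k2
      congr 1
      refine sum_congr rfl fun k _ => ?_
      rw [mul_assoc, ← f3, f1]
      congr 2
      ring
    have k3 := f8 (Ico (i * H') ((i + 1) * H')) (fun k => (D k : ℂ) * ch z (k : ZMod P)) g (σ i)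
      hσ0 k1
    have k4 : ∑ y : ZMod P, ‖g y‖ ^ 2 ≤ P := by
      calc ∑ y : ZMod P, ‖g y‖ ^ 2 ≤ ∑ _y : ZMod P, (1 : ℝ) :=
            sum_le_sum fun y _ => pow_le_one₀ (norm_nonneg _) (hg y)
        _ = P := by rw [sum_const, card_univ, ZMod.card, nsmul_eq_mul, mul_one]
    have k5 : n2 ψ ^ 2 ≤ σ i ^ 2 := by
      rw [n7, div_le_iff₀ hP0]
      exact k3.trans (mul_le_mul_of_nonneg_left k4 (sq_nonneg _))
    exact (pow_le_pow_iff_left₀ (Real.sqrt_nonneg _) hσ0 two_ne_zero).1 k5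
  have hsplit := n1 (fun y => if (y + ((i * H' : ℕ) : ZMod P)).val % H + H' ≤ H then φ y else 0)
    (fun y => if (y + ((i * H' : ℕ) : ZMod P)).val % H + H' ≤ H then 0 else φ y)
  have heq : (fun y => (if (y + ((i * H' : ℕ) : ZMod P)).val % H + H' ≤ H then φ y else 0) +
      (if (y + ((i * H' : ℕ) : ZMod P)).val % H + H' ≤ H then 0 else φ y)) = φ := by
    funext y
    split_ifs
    · exact add_zero _
    · exact zero_add _
  rw [heq] at hsplit
  refine hsplit.trans (add_le_add ?_ ?_)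
  · refine (n5 _ ψ fun y => ?_).trans hψn
    split_ifs with h
    · exact str_good hP hH z c g D i hc f2 f4 y h
    · rw [norm_zero]
      exact norm_nonneg _
  · have k1 : n2 (fun y => if (y + ((i * H' : ℕ) : ZMod P)).val % H + H' ≤ H then 0 else
        φ y) ^ 2 ≤ (Real.sqrt ((H' : ℝ) / H) *
          ∑ k ∈ Ico (i * H') ((i + 1) * H'), |D k|) ^ 2 := by
      rw [n7, mul_pow, Real.sq_sqrt (by positivity), div_le_iff₀ hP0]
      have k2 : ∀ y : ZMod P, ‖if (y + ((i * H' : ℕ) : ZMod P)).val % H + H' ≤ H then (0 : ℂ) else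
          φ y‖ ^ 2 ≤ if (y + ((i * H' : ℕ) : ZMod P)).val % H + H' ≤ H then 0 else
            (∑ k ∈ Ico (i * H') ((i + 1) * H'), |D k|) ^ 2 := by
        intro y
        split_ifs
        · rw [norm_zero]
          norm_num
        · exact pow_le_pow_left₀ (norm_nonneg _) (str_bound z c g D _ H hc hg f4 y) 2
      refine (sum_le_sum fun y _ => k2 y).trans ?_
      rw [Fintype.sum_equiv (Equiv.addRight ((i * H' : ℕ) : ZMod P))
        (fun y => if (y + ((i * H' : ℕ) : ZMod P)).val % H + H' ≤ H then 0 else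
            (∑ k ∈ Ico (i * H') ((i + 1) * H'), |D k|) ^ 2)
        (fun x => if x.val % H + H' ≤ H then 0 else
            (∑ k ∈ Ico (i * H') ((i + 1) * H'), |D k|) ^ 2) (fun y => rfl)]
      have k3 : ∑ x : ZMod P, (if x.val % H + H' ≤ H then 0 else
            (∑ k ∈ Ico (i * H') ((i + 1) * H'), |D k|) ^ 2) =
          ((univ.filter fun x : ZMod P => ¬ (x.val % H + H' ≤ H)).card : ℝ) *
            (∑ k ∈ Ico (i * H') ((i + 1) * H'), |D k|) ^ 2 := by
        rw [← nsmul_eq_mul, ← sum_const, sum_filter]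
        refine sum_congr rfl fun x _ => ?_
        by_cases h : x.val % H + H' ≤ H
        · rw [if_pos h, if_neg (not_not.2 h)]
        · rw [if_neg h, if_pos h]
      rw [k3]
      have k4 : ((univ.filter fun x : ZMod P => ¬ (x.val % H + H' ≤ H)).card : ℝ) ≤
          T * H' := by exact_mod_cast str_card hP hH hHH
      have k5 : (T : ℝ) * H' = (H' : ℝ) / H * P := by
        have k6 : (P : ℝ) = H * T := by exact_mod_cast hP
        rw [k6]
        field_simp
      calc ((univ.filter fun x : ZMod P => ¬ (x.val % H + H' ≤ H)).card : ℝ) *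
            (∑ k ∈ Ico (i * H') ((i + 1) * H'), |D k|) ^ 2 ≤
            (T * H') * (∑ k ∈ Ico (i * H') ((i + 1) * H'), |D k|) ^ 2 :=
            mul_le_mul_of_nonneg_right k4 (sq_nonneg _)
        _ = _ := by
            rw [k5]
            ring
    exact (pow_le_pow_iff_left₀ (Real.sqrt_nonneg _) (mul_nonneg (Real.sqrt_nonneg _) hS0)
      two_ne_zero).1 k1

end Pool.Agent.BSQ
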