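import Pool.Agent.BSQ.StA

/-!
# BSQ, module STRUCT: the structure lemma (energy decrement on tiles)
-/

set_option autoImplicit false

namespace Pool.Agent.BSQ

open Finset MeasureTheory Filter Topology
open scoped BigOperators
open Classical

private theorem struct_alg {ι : Type*} (A : Finset ι) (f w : ι → ℂ) (a : ℂ) (H : ℝ) (hH : 0 < H)
    (hc : (A.card : ℝ) ≤ H) (hw : ∀ u, ‖w u‖ = 1)
    (ha : a = ∑ u ∈ A, f u * (starRingEnd ℂ) (w u)) :
    ∑ u ∈ A, ‖f u - a / H * w u‖ ^ 2 ≤ ∑ u ∈ A, ‖f u‖ ^ 2 - ‖a‖ ^ 2 / H := by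
  have h1 : ∀ u, ‖f u - a / H * w u‖ ^ 2 =
      ‖f u‖ ^ 2 + ‖a‖ ^ 2 / H ^ 2 -
        2 * ((starRingEnd ℂ) a / H * (f u * (starRingEnd ℂ) (w u))).re := by
    intro u
    rw [← Complex.normSq_eq_norm_sq, Complex.normSq_sub, Complex.normSq_eq_norm_sq,
      Complex.normSq_eq_norm_sq]
    congr 1
    · congr 1
      rw [norm_mul, hw, mul_one, norm_div, div_pow, Complex.norm_real, Real.norm_eq_abs, sq_abs]
    · congr 2
      rw [map_mul, map_div₀, Complex.conj_ofReal]
      ring
  rw [Finset.sum_congr rfl fun u _ => h1 u, Finset.sum_sub_distrib, Finset.sum_add_distrib,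
    Finset.sum_const, ← Finset.mul_sum, ← Complex.re_sum, ← Finset.mul_sum, ← ha, nsmul_eq_mul]
  have h2 : ((starRingEnd ℂ) a / (H : ℂ) * a).re = ‖a‖ ^ 2 / H := by
    have h3 : (starRingEnd ℂ) a / (H : ℂ) * a = ((‖a‖ ^ 2 / H : ℝ) : ℂ) := by
      have h4 : (starRingEnd ℂ) a * a = ((‖a‖ ^ 2 : ℝ) : ℂ) := by
        rw [mul_comm, Complex.mul_conj, Complex.normSq_eq_norm_sq]
      rw [div_mul_eq_mul_div, h4]
      push_cast
      rfl
    rw [h3, Complex.ofReal_re]
  rw [h2]
  have h5 : (A.card : ℝ) * (‖a‖ ^ 2 / H ^ 2) ≤ ‖a‖ ^ 2 / H := by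
    calc (A.card : ℝ) * (‖a‖ ^ 2 / H ^ 2) ≤ H * (‖a‖ ^ 2 / H ^ 2) :=
          mul_le_mul_of_nonneg_right hc (by positivity)
      _ = ‖a‖ ^ 2 / H := by field_simp
  linarith

private theorem struct_cs {ι : Type*} (A : Finset ι) (f w : ι → ℂ) (a : ℂ) (H : ℝ) (hH : 0 < H)
    (hc : (A.card : ℝ) ≤ H) (hw : ∀ u, ‖w u‖ = 1) (hf : ∑ u ∈ A, ‖f u‖ ^ 2 ≤ H)
    (ha : a = ∑ u ∈ A, f u * (starRingEnd ℂ) (w u)) : ‖a / H‖ ≤ 1 := by
  have h1 : ‖a‖ ≤ ∑ u ∈ A, ‖f u‖ := by
    rw [ha]
    refine (norm_sum_le _ _).trans (le_of_eq ?_)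
    apply Finset.sum_congr rfl
    intro u _
    rw [norm_mul, RCLike.norm_conj, hw, mul_one]
  have h2 : (∑ u ∈ A, ‖f u‖) ^ 2 ≤ (A.card : ℝ) * ∑ u ∈ A, ‖f u‖ ^ 2 :=
    sq_sum_le_card_mul_sum_sq
  have h3 : ‖a‖ ^ 2 ≤ H ^ 2 := by
    calc ‖a‖ ^ 2 ≤ (∑ u ∈ A, ‖f u‖) ^ 2 := by gcongr
      _ ≤ (A.card : ℝ) * ∑ u ∈ A, ‖f u‖ ^ 2 := h2
      _ ≤ H * H := by
        apply mul_le_mul hc hf _ hH.le
        exact Finset.sum_nonneg fun u _ => by positivity
      _ = H ^ 2 := by ring
  have h4 : ‖a‖ ≤ H := le_of_sq_le_sq h3 hH.le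
  rw [norm_div, Complex.norm_real, Real.norm_eq_abs, abs_of_pos hH]
  exact (div_le_one hH).2 h4

private theorem struct_card {P : ℕ} [NeZero P] (H t : ℕ) (hH : 1 ≤ H) :
    (univ.filter (fun u : ZMod P => tl H u = t)).card ≤ H := by
  have h1 : (univ.filter (fun u : ZMod P => tl H u = t)).card ≤ (range H).card := by
    apply Finset.card_le_card_of_injOn (fun u => u.val % H)
    · intro u _
      simp only [Finset.coe_range, Set.mem_Iio]
      exact Nat.mod_lt _ hH
    · intro u hu v hv huv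
      have hu := (Finset.mem_filter.1 (Finset.mem_coe.1 hu)).2
      have hv := (Finset.mem_filter.1 (Finset.mem_coe.1 hv)).2
      unfold tl at hu hv
      apply ZMod.val_injective P
      have h1 := Nat.div_add_mod u.val H
      have h2 := Nat.div_add_mod v.val H
      simp only at huv
      rw [hu, huv] at h1
      rw [hv] at h2
      exact h1.symm.trans h2
  simpa using h1

private theorem struct_ch {P : ℕ} [NeZero P] (z u : ZMod P) :
    ‖ch z u‖ = 1 ∧ ch (-z) u = (starRingEnd ℂ) (ch z u) := by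
  unfold ch
  constructor
  · exact AddChar.norm_apply _ _
  · rw [neg_mul, AddChar.map_neg_eq_conj]

private theorem struct_tiles {P : ℕ} [NeZero P] (H T : ℕ) (hP : P = H * T) (g : ZMod P → ℝ) :
    ∑ u : ZMod P, g u = ∑ t ∈ range T, ∑ u ∈ univ.filter (fun u : ZMod P => tl H u = t), g u := by
  symm
  apply Finset.sum_fiberwise_of_maps_to
  intro u _
  rw [Finset.mem_range]
  unfold tl
  have h1 : u.val < P := ZMod.val_lt u
  apply Nat.div_lt_of_lt_mul
  rwa [← hP]

theorem thm_STRUCT : St_STRUCT := by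
  intro P H T _ η f hP hH hη hf
  by_contra hG
  have hH0 : (0 : ℝ) < H := by exact_mod_cast hH
  have hPpos : (0 : ℝ) < P := by
    have := NeZero.pos P
    exact_mod_cast this
  have hPR : (P : ℝ) = H * T := by rw [hP]; push_cast; rfl
  have key : ∀ k : ℕ, ∃ (z : ℕ → ZMod P) (c : ℕ → ℕ → ℂ) (f' : ZMod P → ℂ),
      (∀ i t, ‖c i t‖ ≤ 1) ∧ TileE H f' ∧
      (∑ u : ZMod P, ‖f' u‖ ^ 2 ≤ P - k * (η ^ 2 * P)) ∧
      ∀ u : ZMod P, f u = f' u + ∑ i ∈ range k, c i (tl H u) * ch (z i) u := by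
    intro k
    induction k with
    | zero =>
      refine ⟨fun _ => 0, fun _ _ => 0, f, by simp, hf, ?_, by simp⟩
      rw [struct_tiles H T hP]
      calc ∑ t ∈ range T, ∑ u ∈ univ.filter (fun u : ZMod P => tl H u = t), ‖f u‖ ^ 2
          ≤ ∑ t ∈ range T, (H : ℝ) := Finset.sum_le_sum fun t _ => hf t
        _ = P - ((0 : ℕ) : ℝ) * (η ^ 2 * P) := by
          rw [Finset.sum_const, Finset.card_range, nsmul_eq_mul, hPR]
          push_cast
          ring
    | succ k ih =>
      obtain ⟨z, c, f', hc, hT, hE, hdec⟩ := ih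
      have hnf : ¬ Flat H T η f' := by
        intro hfl
        apply hG
        refine ⟨k, z, c, f', ?_, hc, hfl, hdec⟩
        have h0 : (0 : ℝ) ≤ ∑ u : ZMod P, ‖f' u‖ ^ 2 := Finset.sum_nonneg fun u _ => by positivity
        have h1 : (k : ℝ) * η ^ 2 * P ≤ 1 * P := by linarith
        have h2 : (k : ℝ) * η ^ 2 ≤ 1 := le_of_mul_le_mul_right h1 hPpos
        rw [le_div_iff₀ (by positivity)]
        exact h2
      have h3 : ∃ z0 : ZMod P, η ^ 2 * H ^ 2 * T < ∑ t ∈ range T, ‖fh H f' z0 t‖ ^ 2 := by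
        by_contra hcon
        push Not at hcon
        exact hnf ⟨hT, hcon⟩
      obtain ⟨z0, hz0⟩ := h3
      have hfh : ∀ t, fh H f' z0 t = ∑ u ∈ univ.filter (fun u : ZMod P => tl H u = t),
          f' u * (starRingEnd ℂ) (ch z0 u) := by
        intro t
        unfold fh
        apply Finset.sum_congr rfl
        intro u _
        rw [(struct_ch z0 u).2]
      have hcard : ∀ t, ((univ.filter (fun u : ZMod P => tl H u = t)).card : ℝ) ≤ H := by
        intro t
        exact_mod_cast struct_card H t hH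
      have hstep : ∀ t, ∑ u ∈ univ.filter (fun u : ZMod P => tl H u = t),
          ‖f' u - fh H f' z0 (tl H u) / H * ch z0 u‖ ^ 2 ≤
          ∑ u ∈ univ.filter (fun u : ZMod P => tl H u = t), ‖f' u‖ ^ 2 -
            ‖fh H f' z0 t‖ ^ 2 / H := by
        intro t
        have h4 := struct_alg (univ.filter (fun u : ZMod P => tl H u = t)) f' (ch z0)
          (fh H f' z0 t) H hH0 (hcard t) (fun u => (struct_ch z0 u).1) (hfh t)
        refine le_trans (le_of_eq ?_) h4
        apply Finset.sum_congr rfl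
        intro u hu
        rw [(Finset.mem_filter.1 hu).2]
        norm_num
      refine ⟨Function.update z k z0, Function.update c k (fun t => fh H f' z0 t / H),
        fun u => f' u - fh H f' z0 (tl H u) / H * ch z0 u, ?_, ?_, ?_, ?_⟩
      · intro i t
        by_cases hik : i = k
        · subst hik
          rw [Function.update_self]
          have h4 := struct_cs (univ.filter (fun u : ZMod P => tl H u = t)) f' (ch z0)
            (fh H f' z0 t) H hH0 (hcard t) (fun u => (struct_ch z0 u).1) (hT t) (hfh t)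
          simpa using h4
        · rw [Function.update_of_ne hik]
          exact hc i t
      · intro t
        have h5 : (0 : ℝ) ≤ ‖fh H f' z0 t‖ ^ 2 / H := by positivity
        have h6 := hstep t
        have h7 := hT t
        simp only at h6 ⊢
        linarith
      · have h8 : ∑ u : ZMod P, ‖f' u - fh H f' z0 (tl H u) / H * ch z0 u‖ ^ 2 ≤
            ∑ u : ZMod P, ‖f' u‖ ^ 2 - (∑ t ∈ range T, ‖fh H f' z0 t‖ ^ 2) / H := by
          rw [struct_tiles H T hP, struct_tiles H T hP (fun u => ‖f' u‖ ^ 2), Finset.sum_div,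
            ← Finset.sum_sub_distrib]
          exact Finset.sum_le_sum fun t _ => hstep t
        have h9 : η ^ 2 * P ≤ (∑ t ∈ range T, ‖fh H f' z0 t‖ ^ 2) / H := by
          rw [le_div_iff₀ hH0, hPR]
          nlinarith [hz0.le]
        push_cast
        linarith
      · intro u
        rw [Finset.sum_range_succ, Function.update_self, Function.update_self, hdec u]
        have h10 : ∑ i ∈ range k, Function.update c k (fun t => fh H f' z0 t / H) i (tl H u) *
            ch (Function.update z k z0 i) u = ∑ i ∈ range k, c i (tl H u) * ch (z i) u := by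
          apply Finset.sum_congr rfl
          intro i hi
          have hik : i ≠ k := (Finset.mem_range.1 hi).ne
          rw [Function.update_of_ne hik, Function.update_of_ne hik]
        rw [h10]
        ring
  obtain ⟨k, hk⟩ := exists_nat_gt (1 / η ^ 2)
  obtain ⟨z, c, f', -, -, hE, -⟩ := key k
  have h0 : (0 : ℝ) ≤ ∑ u : ZMod P, ‖f' u‖ ^ 2 := Finset.sum_nonneg fun u _ => by positivity
  have h1 : (k : ℝ) * η ^ 2 * P ≤ 1 * P := by linarith
  have h2 : (k : ℝ) * η ^ 2 ≤ 1 := le_of_mul_le_mul_right h1 hPpos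
  rw [div_lt_iff₀ (by positivity)] at hk
  linarith

end Pool.Agent.BSQ
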