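import Pool.Agent.BSQ.StB

/-!
# BSQ, module SYM: the symbol has no zero (helper13)
-/

set_option autoImplicit false

namespace Pool.Agent.BSQ

open Finset MeasureTheory Filter Topology
open scoped BigOperators

private noncomputable def symG (t r : ℝ) : ℝ := 1 - Real.cos (t * Real.log (1 + r ^ 2))

private noncomputable def symq (t r : ℝ) : ℝ := symG t r / r ^ 2

private theorem sym_log (r : ℝ) : 0 ≤ Real.log (1 + r ^ 2) ∧ Real.log (1 + r ^ 2) ≤ r ^ 2 := by
  refine ⟨Real.log_nonneg (by nlinarith [sq_nonneg r]), ?_⟩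
  have := Real.log_le_sub_one_of_pos (by positivity : (0 : ℝ) < 1 + r ^ 2)
  linarith

private theorem sym_logc : Continuous (fun r : ℝ => Real.log (1 + r ^ 2)) :=
  Continuous.log (by fun_prop) (fun r => by positivity)

private theorem sym_Gc (t : ℝ) : Continuous (symG t) :=
  continuous_const.sub (Real.continuous_cos.comp (continuous_const.mul sym_logc))

private theorem sym_G0 (t r : ℝ) : 0 ≤ symG t r := by
  unfold symG
  linarith [Real.cos_le_one (t * Real.log (1 + r ^ 2))]

private theorem sym_Gle (t r : ℝ) : symG t r ≤ t ^ 2 * r ^ 4 / 2 := by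
  unfold symG
  have h1 := Real.one_sub_sq_div_two_le_cos (x := t * Real.log (1 + r ^ 2))
  have h2 : Real.log (1 + r ^ 2) ^ 2 ≤ (r ^ 2) ^ 2 :=
    pow_le_pow_left₀ (sym_log r).1 (sym_log r).2 2
  have h3 : (t * Real.log (1 + r ^ 2)) ^ 2 ≤ t ^ 2 * r ^ 4 := by
    rw [mul_pow]
    calc t ^ 2 * Real.log (1 + r ^ 2) ^ 2 ≤ t ^ 2 * (r ^ 2) ^ 2 :=
          mul_le_mul_of_nonneg_left h2 (sq_nonneg t)
      _ = t ^ 2 * r ^ 4 := by ring
  linarith

private theorem sym_q0 (t r : ℝ) : 0 ≤ symq t r := div_nonneg (sym_G0 t r) (sq_nonneg r)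

private theorem sym_qle (t r : ℝ) : symq t r ≤ t ^ 2 * r ^ 2 / 2 := by
  unfold symq
  by_cases hr : r = 0
  · rw [hr]
    simp
  · rw [div_le_iff₀ (by positivity)]
    calc symG t r ≤ t ^ 2 * r ^ 4 / 2 := sym_Gle t r
      _ = t ^ 2 * r ^ 2 / 2 * r ^ 2 := by ring

private theorem sym_qc (t : ℝ) : Continuous (symq t) := by
  rw [continuous_iff_continuousAt]
  intro r
  by_cases hr : r = 0
  · rw [hr]
    have h1 : symq t 0 = 0 := by simp [symq]
    unfold ContinuousAt
    rw [h1]
    refine squeeze_zero (fun r => sym_q0 t r) (fun r => sym_qle t r) ?_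
    have h2 : Tendsto (fun r : ℝ => t ^ 2 * r ^ 2 / 2) (𝓝 0) (𝓝 (t ^ 2 * 0 ^ 2 / 2)) :=
      (by fun_prop : Continuous (fun r : ℝ => t ^ 2 * r ^ 2 / 2)).tendsto 0
    simpa using h2
  · unfold symq
    exact ContinuousAt.div (sym_Gc t).continuousAt (by fun_prop) (by positivity)

private theorem sym_der (t r : ℝ) (hr : 0 < r) :
    HasDerivAt (fun r => symq t r * (r + r ^ 3))
      (2 * t * Real.sin (t * Real.log (1 + r ^ 2)) - (symq t r - symG t r)) r := by
  have h0 : (0 : ℝ) < 1 + r ^ 2 := by positivity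
  have h1 : HasDerivAt (fun r : ℝ => 1 + r ^ 2) (2 * r) r := by
    have := (hasDerivAt_pow 2 r).const_add 1
    simpa using this
  have h2 : HasDerivAt (fun r : ℝ => t * Real.log (1 + r ^ 2)) (t * (2 * r / (1 + r ^ 2))) r :=
    (h1.log h0.ne').const_mul t
  have h3 : HasDerivAt (symG t)
      (Real.sin (t * Real.log (1 + r ^ 2)) * (t * (2 * r / (1 + r ^ 2)))) r := by
    have := h2.cos.const_sub 1
    refine this.congr_deriv ?_
    ring
  have h4 : HasDerivAt (fun r : ℝ => r⁻¹ + r) (-(r ^ 2)⁻¹ + 1) r :=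
    (hasDerivAt_inv hr.ne').add (hasDerivAt_id r)
  have h5 := h3.mul h4
  have h6 : (fun r => symq t r * (r + r ^ 3)) =ᶠ[𝓝 r] (fun y => symG t y * (y⁻¹ + y)) := by
    filter_upwards [lt_mem_nhds hr] with y hy
    unfold symq
    field_simp
  refine (h5.congr_of_eventuallyEq h6).congr_deriv ?_
  unfold symq
  field_simp
  ring

private theorem sym_im (t : ℝ) (ht : t ≠ 0) :
    0 < 2 * t * ∫ r in (0 : ℝ)..1, Real.sin (t * Real.log (1 + r ^ 2)) := by
  have hs : Continuous (fun r : ℝ => Real.sin (t * Real.log (1 + r ^ 2))) :=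
    Real.continuous_sin.comp (continuous_const.mul sym_logc)
  have hs' : Continuous (fun r : ℝ => 2 * t * Real.sin (t * Real.log (1 + r ^ 2))) :=
    continuous_const.mul hs
  have hp : Continuous (fun r : ℝ => symq t r - symG t r) := (sym_qc t).sub (sym_Gc t)
  have h1 : ∫ r in (0 : ℝ)..1,
      (2 * t * Real.sin (t * Real.log (1 + r ^ 2)) - (symq t r - symG t r)) =
      symq t 1 * (1 + 1 ^ 3) - symq t 0 * (0 + 0 ^ 3) := by
    refine intervalIntegral.integral_eq_sub_of_hasDerivAt_of_le (by norm_num)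
      (f := fun r => symq t r * (r + r ^ 3)) ?_ ?_ ?_
    · exact ((sym_qc t).mul (by fun_prop)).continuousOn
    · intro r hr
      exact sym_der t r hr.1
    · exact (hs'.sub hp).intervalIntegrable _ _
  rw [intervalIntegral.integral_sub (hs'.intervalIntegrable _ _) (hp.intervalIntegrable _ _),
    intervalIntegral.integral_const_mul] at h1
  have h2 : 0 < ∫ r in (0 : ℝ)..1, (symq t r - symG t r) := by
    refine intervalIntegral.integral_pos (by norm_num) hp.continuousOn ?_ ?_
    · intro r hr
      have h3 : symG t r = symq t r * r ^ 2 := by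
        unfold symq
        have := hr.1.ne'
        field_simp
      rw [h3]
      have h4 : r ^ 2 ≤ 1 := pow_le_one₀ hr.1.le hr.2
      nlinarith [sym_q0 t r]
    · set c : ℝ := min (1 / 2) (1 / (|t| + 1)) with hc
      have ht0 : 0 < |t| := abs_pos.mpr ht
      have hc0 : 0 < c := lt_min (by norm_num) (by positivity)
      have hc1 : c ≤ 1 / 2 := min_le_left _ _
      have hc2 : c ≤ 1 / (|t| + 1) := min_le_right _ _
      refine ⟨c, ⟨hc0.le, by linarith⟩, ?_⟩
      have h3 : symG t c = symq t c * c ^ 2 := by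
        unfold symq
        field_simp
      have h4 : |t| * c ^ 2 < 1 := by
        have h5 : c * (|t| + 1) ≤ 1 := by
          rw [← le_div_iff₀ (by positivity)]
          exact hc2
        nlinarith
      have h5 : |t * Real.log (1 + c ^ 2)| < 1 := by
        rw [abs_mul, abs_of_nonneg (sym_log c).1]
        exact lt_of_le_of_lt (mul_le_mul_of_nonneg_left (sym_log c).2 ht0.le) h4
      have h6 := abs_lt.mp h5
      have h7 : t * Real.log (1 + c ^ 2) ≠ 0 :=
        mul_ne_zero ht (Real.log_pos (by nlinarith)).ne'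
      have h8 : 0 < symG t c := by
        rcases (sym_G0 t c).lt_or_eq with h | h
        · exact h
        · exfalso
          unfold symG at h
          have h9 : Real.cos (t * Real.log (1 + c ^ 2)) = 1 := by linarith
          have hpi := Real.pi_gt_three
          rw [Real.cos_eq_one_iff_of_lt_of_lt (by linarith) (by linarith)] at h9
          exact h7 h9
      have h9 : 0 < symq t c := div_pos h8 (by positivity)
      rw [h3]
      have h10 : c ^ 2 < 1 := by nlinarith
      have h11 : symq t c * c ^ 2 < symq t c * 1 := mul_lt_mul_of_pos_left h10 h9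
      linarith
  have h3 := sym_q0 t 1
  nlinarith

theorem thm_SYM : St_SYM := by
  intro t h0
  have hc : Continuous (fun r : ℝ => Complex.exp ((t * Real.log (1 + r ^ 2) : ℝ) * Complex.I)) :=
    Complex.continuous_exp.comp
      ((Complex.continuous_ofReal.comp (continuous_const.mul sym_logc)).mul continuous_const)
  by_cases ht : t = 0
  · rw [ht] at h0
    simp at h0
  · have h1 := Complex.imCLM.intervalIntegral_comp_comm (hc.intervalIntegrable (μ := volume) 0 1)
    rw [h0, map_zero] at h1
    have h2 : ∀ r : ℝ, Complex.imCLM (Complex.exp ((t * Real.log (1 + r ^ 2) : ℝ) * Complex.I)) =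
        Real.sin (t * Real.log (1 + r ^ 2)) := fun r => Complex.exp_ofReal_mul_I_im _
    simp only [h2] at h1
    have h3 := sym_im t ht
    rw [h1, mul_zero] at h3
    exact lt_irrefl _ h3

end Pool.Agent.BSQ
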