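import Pool.Agent.BSQ.StB

/-! # BSQ, module TAU: the Tauberian theorem -/

set_option autoImplicit false

namespace Pool.Agent.BSQ

open MeasureTheory Filter Topology Set Function

/-- `log (1 + r²) / 2` -/
noncomputable def tau_a (r : ℝ) : ℝ := Real.log (1 + r ^ 2) / 2

theorem tau_a_cont : Continuous tau_a := by
  have h : ∀ r : ℝ, 1 + r ^ 2 ≠ 0 := fun r => by positivity
  exact (Continuous.log (by fun_prop) h).div_const 2

theorem tau_slow {ψ : ℝ → ℝ} {C1 : ℝ} (hS : ∀ δ : ℝ, 0 < δ → ∃ V : ℝ, ∀ v h : ℝ, V ≤ v → 0 ≤ h →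
    h ≤ 1 → |ψ (v + h) - ψ v| ≤ C1 * h + δ) (k : ℕ) :
    ∀ δ : ℝ, 0 < δ → ∃ V : ℝ, ∀ v h : ℝ, V ≤ v → 0 ≤ h → h ≤ k →
      |ψ (v + h) - ψ v| ≤ C1 * h + δ := by
  induction k with
  | zero =>
    intro δ hδ
    refine ⟨0, fun v h _ h0 h1 => ?_⟩
    have h2 : h = 0 := le_antisymm (by exact_mod_cast h1) h0
    rw [h2, add_zero, sub_self, abs_zero, mul_zero, zero_add]
    exact hδ.le
  | succ k ih =>
    intro δ hδ
    obtain ⟨V1, hV1⟩ := hS (δ / 2) (by linarith)
    obtain ⟨V2, hV2⟩ := ih (δ / 2) (by linarith)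
    refine ⟨max V1 V2, fun v h hv h0 h1 => ?_⟩
    have hv1 := (le_max_left _ _).trans hv
    have hv2 := (le_max_right _ _).trans hv
    have hk : (0 : ℝ) ≤ k := Nat.cast_nonneg k
    push_cast at h1
    rcases le_total h k with hk1 | hk1
    · have := hV2 v h hv2 h0 hk1
      linarith
    · have e1 := hV1 (v + k) (h - k) (by linarith) (by linarith) (by linarith)
      have e2 := hV2 v k hv2 hk le_rfl
      have e3 : v + k + (h - k) = v + h := by ring
      rw [e3] at e1
      have e4 := abs_sub_le (ψ (v + h)) (ψ (v + k)) (ψ v)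
      nlinarith

theorem tau_slow2 {ψ : ℝ → ℝ} {C1 : ℝ} (hS : ∀ δ : ℝ, 0 < δ → ∃ V : ℝ, ∀ v h : ℝ, V ≤ v → 0 ≤ h →
    h ≤ 1 → |ψ (v + h) - ψ v| ≤ C1 * h + δ) (w : ℝ) :
    Tendsto (fun v => max 0 (|ψ (v - w) - ψ v| - C1 * |w|)) atTop (𝓝 0) := by
  rw [Metric.tendsto_atTop]
  intro ε hε
  obtain ⟨k, hk⟩ := exists_nat_ge |w|
  obtain ⟨V, hV⟩ := tau_slow hS k (ε / 2) (by linarith)
  refine ⟨V + |w|, fun v hv => ?_⟩
  have hw0 := abs_nonneg w
  have key : |ψ (v - w) - ψ v| ≤ C1 * |w| + ε / 2 := by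
    rcases le_total w 0 with h | h
    · have := hV v (-w) (by linarith) (by linarith) (by rwa [abs_of_nonpos h] at hk)
      rwa [← sub_eq_add_neg, ← abs_of_nonpos h] at this
    · have hw := abs_of_nonneg h
      have := hV (v - w) w (by linarith) h (by rwa [hw] at hk)
      rw [sub_add_cancel, abs_sub_comm] at this
      rwa [hw]
  rw [Real.dist_eq, sub_zero, abs_of_nonneg (le_max_left _ _)]
  exact max_lt hε (by linarith)

section conv

variable {p : ℝ → ℝ} {C : ℝ} {h : ℝ → ℂ}

theorem tau_int (hh : Integrable h) : Integrable (fun z : ℝ × ℝ => (1 : ℂ) * h z.2)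
    ((volume.restrict (Ioc (0 : ℝ) 1)).prod volume) :=
  Integrable.mul_prod (f := fun _ : ℝ => (1 : ℂ)) (g := h) (integrable_const _) hh

theorem tau_int1 (hp : Measurable p) (hb : ∀ v, |p v| ≤ C) (hc : Continuous h)
    (hh : Integrable h) (v : ℝ) :
    Integrable (uncurry fun r w : ℝ => (p (v - w + tau_a r) : ℂ) * h w)
      ((volume.restrict (Ioc (0 : ℝ) 1)).prod volume) := by
  have ha := tau_a_cont.measurable
  refine ((tau_int hh).norm.const_mul C).mono' ?_ ?_
  · refine AEStronglyMeasurable.mul ?_ ?_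
    · refine Measurable.aestronglyMeasurable ?_
      exact Complex.measurable_ofReal.comp (hp.comp (by fun_prop))
    · exact (hc.comp continuous_snd).aestronglyMeasurable
  · refine Eventually.of_forall fun z => ?_
    simp only [uncurry, norm_mul, Complex.norm_real, Real.norm_eq_abs, one_mul]
    exact mul_le_mul_of_nonneg_right (hb _) (norm_nonneg _)

theorem tau_int2 (hp : Measurable p) (hb : ∀ v, |p v| ≤ C) (hc : Continuous h)
    (hh : Integrable h) (v : ℝ) :
    Integrable (uncurry fun r w : ℝ => (p (v - w) : ℂ) * h (w + tau_a r))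
      ((volume.restrict (Ioc (0 : ℝ) 1)).prod volume) := by
  have ha := tau_a_cont.measurable
  have hT : MeasurePreserving (fun z : ℝ × ℝ => (z.1, z.2 + tau_a z.1))
      ((volume.restrict (Ioc (0 : ℝ) 1)).prod volume)
      ((volume.restrict (Ioc (0 : ℝ) 1)).prod volume) := by
    refine MeasurePreserving.skew_product (f := id) (g := fun r w => w + tau_a r)
      (MeasurePreserving.id _) (by unfold uncurry; fun_prop) ?_
    refine Eventually.of_forall fun r => ?_
    exact (measurePreserving_add_right volume (tau_a r)).map_eq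
  have h1 := hT.integrable_comp_of_integrable (tau_int hh)
  refine (h1.norm.const_mul C).mono' ?_ ?_
  · refine AEStronglyMeasurable.mul ?_ ?_
    · refine Measurable.aestronglyMeasurable ?_
      exact Complex.measurable_ofReal.comp (hp.comp (by fun_prop))
    · have := tau_a_cont
      exact (hc.comp (by fun_prop : Continuous fun z : ℝ × ℝ =>
        z.2 + tau_a z.1)).aestronglyMeasurable
  · refine Eventually.of_forall fun z => ?_
    simp only [uncurry, norm_mul, Complex.norm_real, Real.norm_eq_abs, one_mul, comp]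
    exact mul_le_mul_of_nonneg_right (hb _) (norm_nonneg _)

theorem tau_conv (hp : Measurable p) (hb : ∀ v, |p v| ≤ C) (hc : Continuous h)
    (hh : Integrable h) (v : ℝ) :
    ∫ w, (p (v - w) : ℂ) * ∫ r in Ioc (0 : ℝ) 1, h (w + tau_a r) =
      ∫ w, ∫ r in Ioc (0 : ℝ) 1, (p (v - w + tau_a r) : ℂ) * h w := by
  rw [← integral_integral_swap (tau_int1 hp hb hc hh v)]
  simp_rw [← integral_const_mul]
  rw [← integral_integral_swap (tau_int2 hp hb hc hh v)]
  congr 1
  ext r
  have h1 := integral_add_right_eq_self (μ := volume)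
    (fun w : ℝ => (p (v - w + tau_a r) : ℂ) * h w) (tau_a r)
  rw [← h1]
  congr 1
  ext w
  congr 3
  ring

theorem tau_lim (hp : Measurable p) (hb : ∀ v, |p v| ≤ C) (hc : Continuous h)
    (hh : Integrable h)
    (hl : Tendsto (fun v => ∫ r in Ioc (0 : ℝ) 1, p (v + tau_a r)) atTop (𝓝 0)) :
    Tendsto (fun v => ∫ w, (p (v - w) : ℂ) * ∫ r in Ioc (0 : ℝ) 1, h (w + tau_a r)) atTop
      (𝓝 0) := by
  simp_rw [tau_conv hp hb hc hh]
  have h0 : (0 : ℂ) = ∫ w : ℝ, (0 : ℂ) := by simp
  rw [h0]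
  refine tendsto_integral_filter_of_dominated_convergence (fun w => C * ‖h w‖) ?_ ?_ ?_ ?_
  · refine Eventually.of_forall fun v => ?_
    exact (tau_int1 hp hb hc hh v).integral_prod_right.aestronglyMeasurable
  · refine Eventually.of_forall fun v => Eventually.of_forall fun w => ?_
    have h1 := norm_integral_le_of_norm_le_const (μ := volume.restrict (Ioc (0 : ℝ) 1))
      (f := fun r => (p (v - w + tau_a r) : ℂ) * h w) (C := C * ‖h w‖)
      (Eventually.of_forall fun r => by
        rw [norm_mul, Complex.norm_real, Real.norm_eq_abs]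
        exact mul_le_mul_of_nonneg_right (hb _) (norm_nonneg _))
    simpa using h1
  · exact hh.norm.const_mul C
  · refine Eventually.of_forall fun w => ?_
    have h1 : ∀ v : ℝ, ∫ r in Ioc (0 : ℝ) 1, (p (v - w + tau_a r) : ℂ) * h w =
        ((∫ r in Ioc (0 : ℝ) 1, p (v - w + tau_a r) : ℝ) : ℂ) * h w := by
      intro v
      rw [integral_mul_const, integral_complex_ofReal]
    simp_rw [h1]
    have h2 : Tendsto (fun v : ℝ => v - w) atTop atTop := tendsto_atTop_add_const_right _ _ tendsto_id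
    have h3 := (Complex.continuous_ofReal.tendsto 0).comp (hl.comp h2)
    have h4 := h3.mul_const (h w)
    simpa using h4

/-- the error function -/
noncomputable def tau_B (p : ℝ → ℝ) (D v w : ℝ) : ℝ := max 0 (|p (v - w) - p v| - D * |w|)

theorem tau_B_meas (hp : Measurable p) (D v : ℝ) : Measurable (tau_B p D v) := by
  unfold tau_B
  have h1 : Measurable fun w : ℝ => |p (v - w) - p v| := by
    have h2 : Measurable fun w : ℝ => p (v - w) := hp.comp (by fun_prop)
    exact (h2.sub_const (p v)).norm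
  have h3 : Measurable fun w : ℝ => D * |w| := by fun_prop
  exact measurable_const.max (h1.sub h3)

theorem tau_B_le (hb : ∀ v, |p v| ≤ C) {D : ℝ} (hD : 0 ≤ D) (v w : ℝ) :
    |tau_B p D v w| ≤ 2 * C := by
  have h1 := abs_sub (p (v - w)) (p v)
  have h2 := hb (v - w)
  have h3 := hb v
  have h4 : 0 ≤ D * |w| := mul_nonneg hD (abs_nonneg _)
  have h5 := abs_nonneg (p v)
  unfold tau_B
  rw [abs_of_nonneg (le_max_left _ _)]
  exact max_le (by linarith) (by linarith)

theorem tau_est (hp : Measurable p) (hb : ∀ v, |p v| ≤ C) {D : ℝ} (hD : 0 ≤ D) {g : ℝ → ℂ}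
    (gi : Integrable g) (gw : Integrable (fun w : ℝ => |w| * ‖g w‖)) (g1 : ∫ w, g w = 1) {l : ℝ}
    (hl : 1 ≤ l) (v : ℝ) :
    |p v| ≤ ‖∫ w, (p (v - w) : ℂ) * ((l : ℂ) * g (l * w))‖ +
      (D * (∫ w, |w| * ‖g w‖) / l + ∫ w, (l * ‖g (l * w)‖) * tau_B p D v w) := by
  have hl0 : 0 < l := by linarith
  have i1 : Integrable (fun w : ℝ => (l : ℂ) * g (l * w)) :=
    (gi.comp_mul_left' hl0.ne').const_mul _
  have e1 : ∫ w, (l : ℂ) * g (l * w) = 1 := by
    rw [integral_const_mul, Measure.integral_comp_mul_left, g1, abs_of_pos (inv_pos.mpr hl0),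
      Complex.real_smul, mul_one, Complex.ofReal_inv, mul_inv_cancel₀]
    exact_mod_cast hl0.ne'
  have i2 : Integrable (fun w : ℝ => (p (v - w) : ℂ) * ((l : ℂ) * g (l * w))) := by
    refine (i1.norm.const_mul C).mono' ?_ ?_
    · refine AEStronglyMeasurable.mul ?_ i1.aestronglyMeasurable
      refine Measurable.aestronglyMeasurable ?_
      exact Complex.measurable_ofReal.comp (hp.comp (by fun_prop))
    · refine Eventually.of_forall fun w => ?_
      rw [norm_mul, Complex.norm_real, Real.norm_eq_abs]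
      exact mul_le_mul_of_nonneg_right (hb _) (norm_nonneg _)
  have i3 : Integrable (fun w : ℝ => (p v : ℂ) * ((l : ℂ) * g (l * w))) := i1.const_mul _
  have i4 : Integrable (fun w : ℝ => |l * w| * ‖g (l * w)‖) := gw.comp_mul_left' hl0.ne'
  have i5 : Integrable (fun w : ℝ => (l * ‖g (l * w)‖) * tau_B p D v w) := by
    refine (i1.norm.const_mul (2 * C)).mono' ?_ ?_
    · refine AEStronglyMeasurable.mul ?_ (tau_B_meas hp D v).aestronglyMeasurable
      exact ((gi.comp_mul_left' hl0.ne').norm.const_mul l).aestronglyMeasurable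
    · refine Eventually.of_forall fun w => ?_
      have := tau_B_le hb hD v w
      rw [norm_mul, norm_mul, norm_mul, Complex.norm_real, norm_norm, Real.norm_eq_abs (tau_B _ _ _ _),
        mul_comm (2 * C)]
      exact mul_le_mul_of_nonneg_left this (by positivity)
  have e2 : (p v : ℂ) = ∫ w, (p v : ℂ) * ((l : ℂ) * g (l * w)) := by
    rw [integral_const_mul, e1, mul_one]
  have e3 : ‖(p v : ℂ) - ∫ w, (p (v - w) : ℂ) * ((l : ℂ) * g (l * w))‖ ≤
      ∫ w, (D * (|l * w| * ‖g (l * w)‖) + (l * ‖g (l * w)‖) * tau_B p D v w) := by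
    rw [e2, ← integral_sub i3 i2]
    refine (norm_integral_le_integral_norm _).trans (integral_mono (i3.sub i2).norm
      ((i4.const_mul D).add i5) fun w => ?_)
    simp only
    rw [← sub_mul, norm_mul, norm_mul, Complex.norm_real, ← Complex.ofReal_sub,
      Complex.norm_real, Real.norm_eq_abs, Real.norm_eq_abs, abs_of_pos hl0, abs_mul,
      abs_of_pos hl0, abs_sub_comm]
    have h1 : |p (v - w) - p v| ≤ D * |w| + tau_B p D v w := by
      have := le_max_right 0 (|p (v - w) - p v| - D * |w|)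
      unfold tau_B
      linarith
    have h2 : 0 ≤ l * ‖g (l * w)‖ := by positivity
    nlinarith [mul_le_mul_of_nonneg_right h1 h2]
  rw [integral_add (i4.const_mul D) i5, integral_const_mul,
    Measure.integral_comp_mul_left (fun w : ℝ => |w| * ‖g w‖) l,
    abs_of_pos (inv_pos.mpr hl0), smul_eq_mul] at e3
  have e4 : |p v| = ‖(p v : ℂ)‖ := by rw [Complex.norm_real, Real.norm_eq_abs]
  rw [e4]
  have e5 := norm_add_le (∫ w, (p (v - w) : ℂ) * ((l : ℂ) * g (l * w)))
    ((p v : ℂ) - ∫ w, (p (v - w) : ℂ) * ((l : ℂ) * g (l * w)))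
  rw [add_sub_cancel] at e5
  have e6 : D * (l⁻¹ * ∫ w, |w| * ‖g w‖) = D * (∫ w, |w| * ‖g w‖) / l := by
    field_simp
  rw [e6] at e3
  exact e5.trans (add_le_add_right e3 _)

theorem tau_Blim (hp : Measurable p) (hb : ∀ v, |p v| ≤ C) {D : ℝ} (hD : 0 ≤ D) {g : ℝ → ℂ}
    (gi : Integrable g) {l : ℝ} (hl : 1 ≤ l)
    (hS : ∀ w, Tendsto (fun v => tau_B p D v w) atTop (𝓝 0)) :
    Tendsto (fun v => ∫ w, (l * ‖g (l * w)‖) * tau_B p D v w) atTop (𝓝 0) := by
  have hl0 : 0 < l := by linarith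
  have i1 : Integrable (fun w : ℝ => l * ‖g (l * w)‖) :=
    (gi.comp_mul_left' hl0.ne').norm.const_mul _
  have h0 : (0 : ℝ) = ∫ w : ℝ, (0 : ℝ) := by simp
  rw [h0]
  refine tendsto_integral_filter_of_dominated_convergence
    (fun w => (l * ‖g (l * w)‖) * (2 * C)) ?_ ?_ ?_ ?_
  · refine Eventually.of_forall fun v => ?_
    exact i1.aestronglyMeasurable.mul (tau_B_meas hp D v).aestronglyMeasurable
  · refine Eventually.of_forall fun v => Eventually.of_forall fun w => ?_
    have := tau_B_le hb hD v w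
    rw [norm_mul, Real.norm_eq_abs (tau_B _ _ _ _), Real.norm_eq_abs,
      abs_of_nonneg (by positivity : 0 ≤ l * ‖g (l * w)‖)]
    exact mul_le_mul_of_nonneg_left this (by positivity)
  · exact i1.mul_const _
  · refine Eventually.of_forall fun w => ?_
    have := (hS w).const_mul (l * ‖g (l * w)‖)
    rwa [mul_zero] at this

end conv

theorem thm_TAU (hSCH : St_SCH) : St_TAU := by
  intro ψ C0 C1 L hm hb hS hL
  obtain ⟨g, _, gi, gw, g1, hg⟩ := hSCH
  obtain ⟨p, hpd⟩ : ∃ p : ℝ → ℝ, p = fun v => ψ v - L := ⟨_, rfl⟩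
  have pv : ∀ v, p v = ψ v - L := fun v => by rw [hpd]
  obtain ⟨C, hC⟩ : ∃ C, C = C0 + |L| := ⟨_, rfl⟩
  obtain ⟨D, hD⟩ : ∃ D, D = max C1 0 := ⟨_, rfl⟩
  have hD0 : 0 ≤ D := by rw [hD]; exact le_max_right _ _
  have hp : Measurable p := by rw [hpd]; exact hm.sub_const L
  have hpb : ∀ v, |p v| ≤ C := fun v => by
    rw [pv, hC]
    exact (abs_sub _ _).trans (add_le_add_left (hb v) _)
  have hpS : ∀ δ : ℝ, 0 < δ → ∃ V : ℝ, ∀ v h : ℝ, V ≤ v → 0 ≤ h → h ≤ 1 →
      |p (v + h) - p v| ≤ D * h + δ := by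
    intro δ hδ
    obtain ⟨V, hV⟩ := hS δ hδ
    refine ⟨V, fun v h h1 h2 h3 => ?_⟩
    have h4 := hV v h h1 h2 h3
    have h5 : C1 * h ≤ D * h := mul_le_mul_of_nonneg_right (by rw [hD]; exact le_max_left _ _) h2
    rw [pv, pv, sub_sub_sub_cancel_right]
    linarith
  have hpl : Tendsto (fun v => ∫ r in Ioc (0 : ℝ) 1, p (v + tau_a r)) atTop (𝓝 0) := by
    have h1 : ∀ v : ℝ, ∫ r in Ioc (0 : ℝ) 1, p (v + tau_a r) =
        (∫ r in (0 : ℝ)..1, ψ (v + Real.log (1 + r ^ 2) / 2)) - L := by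
      intro v
      rw [intervalIntegral.integral_of_le zero_le_one]
      simp_rw [pv]
      rw [integral_sub]
      · simp [tau_a]
      · refine (integrable_const C0).mono' ?_ ?_
        · exact (hm.comp (tau_a_cont.measurable.const_add v)).aestronglyMeasurable
        · exact Eventually.of_forall fun r => by rw [Real.norm_eq_abs]; exact hb _
      · exact integrable_const _
    simp_rw [h1]
    have h2 := hL.sub_const L
    rwa [sub_self] at h2
  have goal : Tendsto p atTop (𝓝 0) := by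
    rw [Metric.tendsto_atTop]
    intro ε hε
    obtain ⟨M, hM⟩ : ∃ M, M = ∫ w, |w| * ‖g w‖ := ⟨_, rfl⟩
    obtain ⟨l, hl⟩ : ∃ l, l = max 1 (3 * (D * M) / ε + 1) := ⟨_, rfl⟩
    have hl1 : 1 ≤ l := by rw [hl]; exact le_max_left _ _
    have hl2 : 3 * (D * M) / ε < l := by
      rw [hl]; exact lt_of_lt_of_le (lt_add_one _) (le_max_right _ _)
    have hl0 : 0 < l := by linarith
    have hl3 : D * M / l < ε / 3 := by
      rw [div_lt_iff₀ hε] at hl2
      rw [div_lt_iff₀ hl0]
      linarith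
    obtain ⟨h, hc, hi, he⟩ := hg l hl1
    have A := tau_lim hp hpb hc hi hpl
    have A1 : Tendsto (fun v => ∫ w, (p (v - w) : ℂ) * ((l : ℂ) * g (l * w))) atTop (𝓝 0) := by
      have e : ∀ w : ℝ, (l : ℂ) * g (l * w) = ∫ r in Ioc (0 : ℝ) 1, h (w + tau_a r) := by
        intro w
        rw [he w, intervalIntegral.integral_of_le zero_le_one]
        rfl
      simp_rw [e]
      exact A
    have B := tau_Blim hp hpb hD0 gi hl1 (fun w => tau_slow2 hpS w)
    have A2 := (Metric.tendsto_atTop.mp A1) (ε / 3) (by linarith)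
    have B2 := (Metric.tendsto_atTop.mp B) (ε / 3) (by linarith)
    obtain ⟨V1, hV1⟩ := A2
    obtain ⟨V2, hV2⟩ := B2
    refine ⟨max V1 V2, fun v hv => ?_⟩
    have a1 := hV1 v ((le_max_left _ _).trans hv)
    have a2 := hV2 v ((le_max_right _ _).trans hv)
    rw [dist_zero_right] at a1 a2
    rw [Real.norm_eq_abs] at a2
    have a3 := tau_est hp hpb hD0 gi gw g1 hl1 v
    rw [← hM] at a3
    rw [dist_zero_right, Real.norm_eq_abs]
    have a4 := (le_abs_self _).trans a2.le
    linarith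
  have h1 := goal.add_const L
  rw [zero_add] at h1
  refine h1.congr fun v => ?_
  rw [pv, sub_add_cancel]

end Pool.Agent.BSQ
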