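import Pool.Agent.BSQ.StB

/-!
# BSQ, TRF: transference to measure preserving systems
-/

set_option autoImplicit false

namespace Pool.Agent.BSQ

open Finset MeasureTheory Filter Topology
open scoped BigOperators
open Classical

section

variable {X : Type} [MeasurableSpace X]

private theorem trf_fwd (T : X ≃ᵐ X) (k : ℕ) (z : X) :
    (⇑T)^[k] z = ((T.toEquiv : Equiv.Perm X) ^ (k : ℤ)) z := by
  rw [zpow_natCast, ← Equiv.Perm.iterate_eq_pow]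
  rfl

private theorem trf_bwd (T : X ≃ᵐ X) (k : ℕ) (z : X) :
    (⇑T.symm)^[k] z = ((T.toEquiv : Equiv.Perm X) ^ (-(k : ℤ))) z := by
  rw [zpow_neg, zpow_natCast, ← inv_pow, ← Equiv.Perm.iterate_eq_pow]
  rfl

/-- The value of the operator at a point. -/
private noncomputable def trf_h (T : X ≃ᵐ X) (f g : X → ℝ) (N : ℕ) (D : ℕ → ℝ) (x : X) : ℝ :=
  ∑ k ∈ range (2 * N ^ 2 + 1), D k * FT T f g x k

private theorem trf_val (T : X ≃ᵐ X) (f g : X → ℝ) (N P : ℕ) [NeZero P] (D : ℕ → ℝ)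
    (hP : 5 * N ^ 2 ≤ P) (x : X) (a : ℕ) (ha : a < N ^ 2) :
    Tr (P := P) (2 * N ^ 2 + 1) D
      (fun u => (f (((T.toEquiv : Equiv.Perm X) ^ ((u.val : ℤ) - 2 * (N : ℤ) ^ 2)) x) : ℂ))
      (fun u => (g (((T.toEquiv : Equiv.Perm X) ^ ((u.val : ℤ) - 2 * (N : ℤ) ^ 2)) x) : ℂ))
      ((2 * N ^ 2 + a : ℕ) : ZMod P) = (trf_h T f g N D ((⇑T)^[a] x) : ℂ) := by
  rw [Tr, trf_h]
  push_cast
  refine sum_congr rfl fun k hk => ?_
  rw [mem_range] at hk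
  have h1 : ((2 * (N : ZMod P) ^ 2 + a) + (k : ZMod P)) = ((2 * N ^ 2 + a + k : ℕ) : ZMod P) := by
    push_cast
    ring
  have h2 : ((2 * (N : ZMod P) ^ 2 + a) - (k : ZMod P)) = ((2 * N ^ 2 + a - k : ℕ) : ZMod P) := by
    rw [Nat.cast_sub (by omega)]
    push_cast
    ring
  rw [h1, h2, ZMod.val_natCast_of_lt (by omega), ZMod.val_natCast_of_lt (by omega)]
  have h3 : (((2 * N ^ 2 + a + k : ℕ) : ℤ) - 2 * (N : ℤ) ^ 2) = (k : ℤ) + (a : ℤ) := by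
    push_cast
    ring
  have h4 : (((2 * N ^ 2 + a - k : ℕ) : ℤ) - 2 * (N : ℤ) ^ 2) = -(k : ℤ) + (a : ℤ) := by
    rw [Nat.cast_sub (by omega)]
    push_cast
    ring
  rw [h3, h4, zpow_add, zpow_add, Equiv.Perm.mul_apply, Equiv.Perm.mul_apply, ← trf_fwd,
    ← trf_fwd, ← trf_bwd, FT]
  push_cast
  rfl

private theorem trf_point (T : X ≃ᵐ X) (f g : X → ℝ) (hf : ∀ x, |f x| ≤ 1) (hg : ∀ x, |g x| ≤ 1)
    (N P : ℕ) [NeZero P] (D : ℕ → ℝ) (β : ℝ) (hP : 5 * N ^ 2 ≤ P) (hP2 : P ≤ 16 * N ^ 2)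
    (hβ : 0 ≤ β) (hD : ∀ f' g' : ZMod P → ℂ, (∀ u, ‖f' u‖ ≤ 1) → (∀ u, ‖g' u‖ ≤ 1) →
      n2 (Tr (P := P) (2 * N ^ 2 + 1) D f' g') ≤ β) (x : X) :
    ∑ a ∈ range (N ^ 2), trf_h T f g N D ((⇑T)^[a] x) ^ 2 ≤ 16 * (N : ℝ) ^ 2 * β ^ 2 := by
  let f' : ZMod P → ℂ := fun u =>
    (f (((T.toEquiv : Equiv.Perm X) ^ ((u.val : ℤ) - 2 * (N : ℤ) ^ 2)) x) : ℂ)
  let g' : ZMod P → ℂ := fun u =>
    (g (((T.toEquiv : Equiv.Perm X) ^ ((u.val : ℤ) - 2 * (N : ℤ) ^ 2)) x) : ℂ)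
  have h1 := hD f' g' (fun u => by rw [Complex.norm_real]; exact hf _)
    (fun u => by rw [Complex.norm_real]; exact hg _)
  have hP0 : (0 : ℝ) < P := by exact_mod_cast Nat.pos_of_ne_zero (NeZero.ne P)
  have h2 : ∑ y : ZMod P, ‖Tr (P := P) (2 * N ^ 2 + 1) D f' g' y‖ ^ 2 ≤ P * β ^ 2 := by
    rw [n2] at h1
    have h3 := (Real.sqrt_le_left hβ).mp h1
    rw [div_le_iff₀ hP0] at h3
    linarith
  have h4 : ∑ a ∈ range (N ^ 2), trf_h T f g N D ((⇑T)^[a] x) ^ 2 =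
      ∑ a ∈ range (N ^ 2),
        ‖Tr (P := P) (2 * N ^ 2 + 1) D f' g' ((2 * N ^ 2 + a : ℕ) : ZMod P)‖ ^ 2 := by
    refine sum_congr rfl fun a ha => ?_
    rw [trf_val T f g N P D hP x a (mem_range.mp ha), Complex.norm_real, Real.norm_eq_abs,
      sq_abs]
  have h5 : ∑ a ∈ range (N ^ 2),
      ‖Tr (P := P) (2 * N ^ 2 + 1) D f' g' ((2 * N ^ 2 + a : ℕ) : ZMod P)‖ ^ 2 ≤
      ∑ y : ZMod P, ‖Tr (P := P) (2 * N ^ 2 + 1) D f' g' y‖ ^ 2 := by
    have hinj : Set.InjOn (fun a : ℕ => ((2 * N ^ 2 + a : ℕ) : ZMod P)) (range (N ^ 2)) := by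
      intro a ha b hb hab
      rw [mem_coe, mem_range] at ha hb
      have h6 := congrArg ZMod.val hab
      simp only [] at h6
      rw [ZMod.val_natCast_of_lt (by omega), ZMod.val_natCast_of_lt (by omega)] at h6
      omega
    rw [← sum_image (f := fun y : ZMod P => ‖Tr (P := P) (2 * N ^ 2 + 1) D f' g' y‖ ^ 2) hinj]
    exact sum_le_sum_of_subset_of_nonneg (subset_univ _) fun y _ _ => by positivity
  rw [h4]
  refine h5.trans (h2.trans ?_)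
  have h6 : (P : ℝ) ≤ 16 * (N : ℝ) ^ 2 := by exact_mod_cast hP2
  exact mul_le_mul_of_nonneg_right h6 (by positivity)

private theorem trf_meas (T : X ≃ᵐ X) (f g : X → ℝ) (hf : Measurable f) (hg : Measurable g)
    (N : ℕ) (D : ℕ → ℝ) : Measurable (trf_h T f g N D) := by
  unfold trf_h FT
  refine Finset.measurable_sum _ fun k _ => ?_
  exact ((hf.comp (T.measurable.iterate k)).mul (hg.comp (T.symm.measurable.iterate k))).const_mul _

private theorem trf_bdd (T : X ≃ᵐ X) (f g : X → ℝ) (hf : ∀ x, |f x| ≤ 1) (hg : ∀ x, |g x| ≤ 1)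
    (N : ℕ) (D : ℕ → ℝ) (x : X) :
    |trf_h T f g N D x| ≤ ∑ k ∈ range (2 * N ^ 2 + 1), |D k| := by
  unfold trf_h
  refine (abs_sum_le_sum_abs _ _).trans (sum_le_sum fun k _ => ?_)
  rw [FT, abs_mul, abs_mul]
  refine mul_le_of_le_one_right (abs_nonneg _) ?_
  exact mul_le_one₀ (hf _) (abs_nonneg _) (hg _)

end

theorem thm_TRF : St_TRF := by
  intro X _ μ _ T hT f g hf hg hf1 hg1 N P _ D β hN hP hP2 hβ hD
  have hm := trf_meas T f g hf hg N D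
  let C : ℝ := ∑ k ∈ range (2 * N ^ 2 + 1), |D k|
  have hint : ∀ a : ℕ, Integrable (fun x => trf_h T f g N D ((⇑T)^[a] x) ^ 2) μ := by
    intro a
    refine Integrable.of_bound
      ((hm.comp (T.measurable.iterate a)).pow_const 2).aestronglyMeasurable (C ^ 2) ?_
    refine Filter.Eventually.of_forall fun x => ?_
    rw [Real.norm_eq_abs, abs_pow]
    exact pow_le_pow_left₀ (abs_nonneg _) (trf_bdd T f g hf1 hg1 N D _) 2
  have heq : ∀ a : ℕ, ∫ x, trf_h T f g N D ((⇑T)^[a] x) ^ 2 ∂μ =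
      ∫ x, trf_h T f g N D x ^ 2 ∂μ := by
    intro a
    have hTa := hT.iterate a
    have h1 := integral_map (μ := μ) (φ := (⇑T)^[a]) (f := fun x => trf_h T f g N D x ^ 2)
      hTa.measurable.aemeasurable (hm.pow_const 2).aestronglyMeasurable
    rw [hTa.map_eq] at h1
    exact h1.symm
  have h1 : ∫ x, ∑ a ∈ range (N ^ 2), trf_h T f g N D ((⇑T)^[a] x) ^ 2 ∂μ ≤
      ∫ _, 16 * (N : ℝ) ^ 2 * β ^ 2 ∂μ := by
    refine integral_mono (integrable_finsetSum _ fun a _ => hint a) (integrable_const _) ?_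
    exact fun x => trf_point T f g hf1 hg1 N P D β hP hP2 hβ hD x
  rw [integral_finsetSum _ fun a _ => hint a, sum_congr rfl fun a _ => heq a, sum_const,
    card_range, nsmul_eq_mul, integral_const, probReal_univ, one_smul] at h1
  have hN0 : (0 : ℝ) < (N : ℝ) ^ 2 := by
    have : (0 : ℝ) < N := by exact_mod_cast hN
    positivity
  push_cast at h1
  have h2 : (N : ℝ) ^ 2 * ∫ x, trf_h T f g N D x ^ 2 ∂μ ≤ (N : ℝ) ^ 2 * (16 * β ^ 2) := by
    linarith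
  exact le_of_mul_le_mul_left h2 hN0

end Pool.Agent.BSQ
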