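import Pool.Agent.BSQ.StA

/-!
# BSQ (MP_70d78b_an): flat functions are negligible

Proof of `St_UNIF` (docstring of `Pool/Agent/BSQ/StA.lean`).
-/

set_option autoImplicit false

namespace Pool.Agent.BSQ

open Finset MeasureTheory Filter Topology
open scoped BigOperators
open Classical

/-- The inner sum. -/
private noncomputable def uS {P : ℕ} (f g : ZMod P → ℂ) (A : Finset ℕ) (n : ℕ) (y : ZMod P) : ℂ :=
  ∑ m ∈ A, f (y + ((n ^ 2 + m ^ 2 : ℕ) : ZMod P)) * g (y - ((n ^ 2 + m ^ 2 : ℕ) : ZMod P))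

private theorem unif_expand {P : ℕ} [NeZero P] (f g : ZMod P → ℂ) (A : Finset ℕ) (n : ℕ) :
    ((∑ y : ZMod P, ‖uS f g A n y‖ ^ 2 : ℝ) : ℂ) =
      ∑ m ∈ A, ∑ m' ∈ A, ∑ u : ZMod P, Fl f ((m' : ℤ) ^ 2 - (m : ℤ) ^ 2) u *
        Fl g (-((m' : ℤ) ^ 2 - (m : ℤ) ^ 2)) (u - ((2 * n ^ 2 + 2 * m ^ 2 : ℕ) : ZMod P)) := by
  have h1 : ∀ y, ((‖uS f g A n y‖ ^ 2 : ℝ) : ℂ) = ∑ m ∈ A, ∑ m' ∈ A,
      (f (y + ((n ^ 2 + m ^ 2 : ℕ) : ZMod P)) * g (y - ((n ^ 2 + m ^ 2 : ℕ) : ZMod P))) *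
      starRingEnd ℂ (f (y + ((n ^ 2 + m' ^ 2 : ℕ) : ZMod P)) *
        g (y - ((n ^ 2 + m' ^ 2 : ℕ) : ZMod P))) := by
    intro y
    rw [← Complex.normSq_eq_norm_sq, ← Complex.mul_conj]
    unfold uS
    rw [map_sum, Finset.sum_mul_sum]
  rw [Complex.ofReal_sum]
  simp_rw [h1]
  rw [Finset.sum_comm]
  refine Finset.sum_congr rfl fun m _ => ?_
  rw [Finset.sum_comm]
  refine Finset.sum_congr rfl fun m' _ => ?_
  refine Fintype.sum_equiv (Equiv.addRight ((n ^ 2 + m ^ 2 : ℕ) : ZMod P)) _ _ fun y => ?_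
  unfold Fl
  simp only [Equiv.coe_addRight]
  rw [map_mul]
  have e1 : y + ((n ^ 2 + m ^ 2 : ℕ) : ZMod P) + (((m' : ℤ) ^ 2 - (m : ℤ) ^ 2 : ℤ) : ZMod P) =
      y + ((n ^ 2 + m' ^ 2 : ℕ) : ZMod P) := by
    push_cast
    ring
  have e2 : y + ((n ^ 2 + m ^ 2 : ℕ) : ZMod P) - ((2 * n ^ 2 + 2 * m ^ 2 : ℕ) : ZMod P) =
      y - ((n ^ 2 + m ^ 2 : ℕ) : ZMod P) := by
    push_cast
    ring
  have e3 : y - ((n ^ 2 + m ^ 2 : ℕ) : ZMod P) +
      ((-((m' : ℤ) ^ 2 - (m : ℤ) ^ 2) : ℤ) : ZMod P) = y - ((n ^ 2 + m' ^ 2 : ℕ) : ZMod P) := by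
    push_cast
    ring
  rw [e1, e2, e3]
  ring

/-- The bound for the sums of characters. -/
private noncomputable def uc (P N K : ℕ) [NeZero P] (b : ZMod P) : ℝ :=
  if b ∈ MajS P N K then (N : ℝ) else (N : ℝ) / K

private theorem uc_nonneg (P N K : ℕ) [NeZero P] (b : ZMod P) : 0 ≤ uc P N K b := by
  unfold uc
  split_ifs <;> positivity

private theorem unif_ch {P : ℕ} [NeZero P] (hFB : St_FB) (hVB : St_VB) (N K α β : ℕ)
    (hK : 1 ≤ K) (hN : 512 * K ^ 5 ≤ N) (hβ : β ≤ N) (b : ZMod P) :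
    ‖∑ n ∈ Ioc α β, ch b ((2 * n ^ 2 : ℕ) : ZMod P)‖ ≤ uc P N K b := by
  obtain ⟨f1, f2, f3, f4, f5, f6, f7, f8⟩ := hFB P
  unfold uc
  split_ifs with hb
  · calc ‖∑ n ∈ Ioc α β, ch b ((2 * n ^ 2 : ℕ) : ZMod P)‖
        ≤ ∑ n ∈ Ioc α β, ‖ch b ((2 * n ^ 2 : ℕ) : ZMod P)‖ := norm_sum_le _ _
      _ = ∑ n ∈ Ioc α β, (1 : ℝ) := Finset.sum_congr rfl fun n _ => f4 _ _
      _ = ((β - α : ℕ) : ℝ) := by simp
      _ ≤ N := by
        have : β - α ≤ N := by omega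
        exact_mod_cast this
  · have h1 := hVB P N K α β b hK hN hβ hb
    have h2 : ∑ n ∈ Ioc α β, ch b ((2 * n ^ 2 : ℕ) : ZMod P) =
        ∑ n ∈ Ioc α β, ee ((2 * (b.val : ℝ) / P) * (n : ℝ) ^ 2) := by
      refine Finset.sum_congr rfl fun n _ => ?_
      rw [f1]
      congr 1
      push_cast
      ring
    rw [h2]
    exact h1

/-- The bound for one off-diagonal term. -/
private noncomputable def uR {P : ℕ} [NeZero P] (f g : ZMod P → ℂ) (N K : ℕ) (l : ℤ) : ℝ :=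
  (1 / (P : ℝ)) * ∑ b : ZMod P, ‖ft (Fl f l) b‖ * ‖ft (Fl g (-l)) (-b)‖ * uc P N K b

private theorem uR_nonneg {P : ℕ} [NeZero P] (f g : ZMod P → ℂ) (N K : ℕ) (l : ℤ) :
    0 ≤ uR f g N K l := by
  unfold uR
  refine mul_nonneg (by positivity) (Finset.sum_nonneg fun b _ => ?_)
  exact mul_nonneg (by positivity) (uc_nonneg P N K b)

private theorem unif_off {P : ℕ} [NeZero P] (hFB : St_FB) (hVB : St_VB) (f g : ZMod P → ℂ)
    (N K α β m : ℕ) (hK : 1 ≤ K) (hN : 512 * K ^ 5 ≤ N) (hβ : β ≤ N) (l : ℤ) :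
    ‖∑ n ∈ Ioc α β, ∑ u : ZMod P, Fl f l u *
      Fl g (-l) (u - ((2 * n ^ 2 + 2 * m ^ 2 : ℕ) : ZMod P))‖ ≤ uR f g N K l := by
  obtain ⟨f1, f2, f3, f4, f5, f6, f7, f8⟩ := hFB P
  have h1 : ∑ n ∈ Ioc α β, ∑ u : ZMod P, Fl f l u *
      Fl g (-l) (u - ((2 * n ^ 2 + 2 * m ^ 2 : ℕ) : ZMod P)) =
      (1 / (P : ℂ)) * ∑ b : ZMod P, ft (Fl f l) b * ft (Fl g (-l)) (-b) *
        ((∑ n ∈ Ioc α β, ch b ((2 * n ^ 2 : ℕ) : ZMod P)) * ch b ((2 * m ^ 2 : ℕ) : ZMod P)) := by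
    simp_rw [f7]
    rw [← Finset.mul_sum, Finset.sum_comm]
    congr 1
    refine Finset.sum_congr rfl fun b _ => ?_
    rw [Finset.sum_mul, Finset.mul_sum]
    refine Finset.sum_congr rfl fun n _ => ?_
    rw [← f2]
    push_cast
    ring
  rw [h1, norm_mul]
  unfold uR
  have h2 : ‖(1 / (P : ℂ))‖ = 1 / (P : ℝ) := by simp
  rw [h2]
  refine mul_le_mul_of_nonneg_left ?_ (by positivity)
  refine (norm_sum_le _ _).trans (Finset.sum_le_sum fun b _ => ?_)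
  rw [norm_mul, norm_mul, norm_mul, f4, mul_one]
  exact mul_le_mul_of_nonneg_left (unif_ch hFB hVB N K α β hK hN hβ b) (by positivity)

private theorem unif_count (H μ D0 M' : ℕ) (𝔅 : Finset ℕ) (h𝔅 : ∀ i ∈ 𝔅, (i + 1) * μ ≤ M')
    (hH : 2 * M' * μ ≤ H) (hD : ∀ l : ℕ, 1 ≤ l → l ≤ H → l.divisors.card ≤ D0)
    (R : ℤ → ℝ) (hR : ∀ l, 0 ≤ R l) :
    ∑ i ∈ 𝔅, ∑ m ∈ Ioc (i * μ) ((i + 1) * μ), ∑ m' ∈ Ioc (i * μ) ((i + 1) * μ),
      (if m = m' then 0 else R ((m' : ℤ) ^ 2 - (m : ℤ) ^ 2)) ≤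
      D0 * ∑ l ∈ Icc (-(H : ℤ)) (H : ℤ), R l := by
  set S : Finset (Σ _ : ℕ, ℕ × ℕ) := 𝔅.sigma fun i =>
    (Ioc (i * μ) ((i + 1) * μ) ×ˢ Ioc (i * μ) ((i + 1) * μ)).filter fun p => ¬ p.1 = p.2 with hS
  set φ : (Σ _ : ℕ, ℕ × ℕ) → ℤ := fun x => (x.2.2 : ℤ) ^ 2 - (x.2.1 : ℤ) ^ 2 with hφ
  have hmem : ∀ x ∈ S, x.1 ∈ 𝔅 ∧ x.1 * μ < x.2.1 ∧ x.2.1 ≤ (x.1 + 1) * μ ∧ x.1 * μ < x.2.2 ∧
      x.2.2 ≤ (x.1 + 1) * μ ∧ x.2.1 ≠ x.2.2 := by
    intro x hx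
    rw [hS, Finset.mem_sigma, Finset.mem_filter, Finset.mem_product, Finset.mem_Ioc,
      Finset.mem_Ioc] at hx
    exact ⟨hx.1, hx.2.1.1.1, hx.2.1.1.2, hx.2.1.2.1, hx.2.1.2.2, hx.2.2⟩
  have e1 : ∑ i ∈ 𝔅, ∑ m ∈ Ioc (i * μ) ((i + 1) * μ), ∑ m' ∈ Ioc (i * μ) ((i + 1) * μ),
      (if m = m' then 0 else R ((m' : ℤ) ^ 2 - (m : ℤ) ^ 2)) = ∑ x ∈ S, R (φ x) := by
    rw [hS, Finset.sum_sigma]
    refine Finset.sum_congr rfl fun i _ => ?_
    rw [Finset.sum_filter, Finset.sum_product]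
    refine Finset.sum_congr rfl fun m _ => Finset.sum_congr rfl fun m' _ => ?_
    by_cases h : m = m'
    · simp [h]
    · simp [h, hφ]
  have hmaps : ∀ x ∈ S, φ x ∈ Icc (-(H : ℤ)) (H : ℤ) ∧ φ x ≠ 0 := by
    intro x hx
    obtain ⟨h1, h2, h3, h4, h5, h6⟩ := hmem x hx
    have h7 := h𝔅 _ h1
    obtain ⟨i, m, m'⟩ := x
    simp only at h1 h2 h3 h4 h5 h6 h7
    have h8 : (m : ℤ) ≤ M' := by exact_mod_cast h3.trans h7
    have h9 : (m' : ℤ) ≤ M' := by exact_mod_cast h5.trans h7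
    have h10 : (m' : ℤ) - m ≤ μ := by
      have a1 : (m' : ℤ) ≤ (i + 1) * μ := by exact_mod_cast h5
      have a2 : (i * μ : ℤ) < m := by exact_mod_cast h2
      linarith
    have h11 : (m : ℤ) - m' ≤ μ := by
      have a1 : (m : ℤ) ≤ (i + 1) * μ := by exact_mod_cast h3
      have a2 : (i * μ : ℤ) < m' := by exact_mod_cast h4
      linarith
    have h12 : (2 * M' * μ : ℤ) ≤ H := by exact_mod_cast hH
    have h13 : (0 : ℤ) < m := by
      have : 0 < m := lt_of_le_of_lt (Nat.zero_le _) h2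
      exact_mod_cast this
    have h14 : (0 : ℤ) < m' := by
      have : 0 < m' := lt_of_le_of_lt (Nat.zero_le _) h4
      exact_mod_cast this
    have h15 : (0 : ℤ) ≤ μ := by positivity
    have e2 : φ ⟨i, m, m'⟩ = ((m' : ℤ) - m) * ((m' : ℤ) + m) := by
      simp only [hφ]
      ring
    rw [e2]
    constructor
    · rw [Finset.mem_Icc]
      constructor
      · nlinarith [mul_le_mul_of_nonneg_right h11 (by linarith : (0 : ℤ) ≤ (m' : ℤ) + m),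
          mul_le_mul_of_nonneg_left (by linarith : (m' : ℤ) + m ≤ 2 * M') h15]
      · nlinarith [mul_le_mul_of_nonneg_right h10 (by linarith : (0 : ℤ) ≤ (m' : ℤ) + m),
          mul_le_mul_of_nonneg_left (by linarith : (m' : ℤ) + m ≤ 2 * M') h15]
    · refine mul_ne_zero ?_ (by linarith)
      intro h
      apply h6
      have : (m' : ℤ) = m := by linarith
      exact_mod_cast this.symm
  rw [e1, ← Finset.sum_fiberwise_of_maps_to (fun x hx => (hmaps x hx).1), Finset.mul_sum]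
  refine Finset.sum_le_sum fun l hl => ?_
  have e3 : ∑ x ∈ S.filter (fun x => φ x = l), R (φ x) =
      ((S.filter (fun x => φ x = l)).card : ℝ) * R l := by
    rw [Finset.sum_congr rfl (g := fun _ => R l), Finset.sum_const, nsmul_eq_mul]
    intro x hx
    rw [(Finset.mem_filter.1 hx).2]
  rw [e3]
  refine mul_le_mul_of_nonneg_right ?_ (hR l)
  by_cases hl0 : l = 0
  · have : S.filter (fun x => φ x = l) = ∅ := by
      rw [Finset.filter_eq_empty_iff]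
      intro x hx
      rw [hl0]
      exact (hmaps x hx).2
    rw [this]
    simp
  have hl1 : 1 ≤ l.natAbs := by omega
  have hl2 : l.natAbs ≤ H := by
    rw [Finset.mem_Icc] at hl
    omega
  have hcard : (S.filter (fun x => φ x = l)).card ≤ l.natAbs.divisors.card := by
    refine Finset.card_le_card_of_injOn (fun x => ((x.2.2 : ℤ) - x.2.1).natAbs) ?_ ?_
    · intro x hx
      have hx' := Finset.mem_filter.1 (Finset.mem_coe.1 hx)
      simp only [Finset.mem_coe]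
      rw [Nat.mem_divisors]
      refine ⟨?_, by omega⟩
      rw [Int.natAbs_dvd_natAbs, ← hx'.2]
      exact ⟨(x.2.2 : ℤ) + x.2.1, by simp only [hφ]; ring⟩
    · intro x hx y hy hxy
      have hx' := Finset.mem_filter.1 (Finset.mem_coe.1 hx)
      have hy' := Finset.mem_filter.1 (Finset.mem_coe.1 hy)
      obtain ⟨x1, x2, x3, x4, x5, x6⟩ := hmem x hx'.1
      obtain ⟨y1, y2, y3, y4, y5, y6⟩ := hmem y hy'.1
      have hex := hx'.2
      have hey := hy'.2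
      obtain ⟨i, m, m'⟩ := x
      obtain ⟨j, n, n'⟩ := y
      simp only [hφ] at hex hey hxy x1 x2 x3 x4 x5 x6 y1 y2 y3 y4 y5 y6
      have p1 : (0 : ℤ) < m := by
        have : 0 < m := lt_of_le_of_lt (Nat.zero_le _) x2
        exact_mod_cast this
      have p2 : (0 : ℤ) < m' := by
        have : 0 < m' := lt_of_le_of_lt (Nat.zero_le _) x4
        exact_mod_cast this
      have p3 : (0 : ℤ) < n := by
        have : 0 < n := lt_of_le_of_lt (Nat.zero_le _) y2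
        exact_mod_cast this
      have p4 : (0 : ℤ) < n' := by
        have : 0 < n' := lt_of_le_of_lt (Nat.zero_le _) y4
        exact_mod_cast this
      have hd : ((m' : ℤ) - m) ≠ 0 := by
        intro h
        apply x6
        have : (m' : ℤ) = m := by linarith
        exact_mod_cast this.symm
      have heq : ((m' : ℤ) - m) * (m' + m) = ((n' : ℤ) - n) * (n' + n) := by
        linear_combination hex - hey
      have hdiff : ((m' : ℤ) - m) = (n' : ℤ) - n := by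
        rcases Int.natAbs_eq_natAbs_iff.1 hxy with h | h
        · exact h
        · exfalso
          rw [h] at heq hd
          have h0 : ((n' : ℤ) - n) * (m' + m + (n' + n)) = 0 := by linear_combination -heq
          rcases mul_eq_zero.1 h0 with h1 | h1
          · apply hd
            linarith
          · linarith
      have hsum : ((m' : ℤ) + m) = (n' : ℤ) + n := by
        rw [hdiff] at heq hd
        exact mul_left_cancel₀ hd heq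
      have hm : m = n := by
        have : (m : ℤ) = n := by linarith
        exact_mod_cast this
      have hm' : m' = n' := by
        have : (m' : ℤ) = n' := by linarith
        exact_mod_cast this
      subst hm
      subst hm'
      have hij : i = j := by
        by_contra hne
        rcases lt_or_gt_of_ne hne with h | h
        · have : (i + 1) * μ ≤ j * μ := Nat.mul_le_mul_right μ h
          omega
        · have : (j + 1) * μ ≤ i * μ := Nat.mul_le_mul_right μ h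
          omega
      subst hij
      rfl
  exact_mod_cast hcard.trans (hD _ hl1 hl2)

private theorem unif_FlG {P : ℕ} [NeZero P] (g : ZMod P → ℂ) (hg : ∀ u, ‖g u‖ ≤ 1) (l : ℤ)
    (u : ZMod P) : ‖Fl g l u‖ ≤ 1 := by
  unfold Fl
  rw [norm_mul, RCLike.norm_conj]
  exact mul_le_one₀ (hg _) (norm_nonneg _) (hg _)

private theorem unif_ftG {P : ℕ} [NeZero P] (hFB : St_FB) (g : ZMod P → ℂ)
    (hg : ∀ u, ‖g u‖ ≤ 1) (l : ℤ) (b : ZMod P) : ‖ft (Fl g l) b‖ ≤ P := by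
  obtain ⟨f1, f2, f3, f4, f5, f6, f7, f8⟩ := hFB P
  unfold ft
  refine (norm_sum_le _ _).trans ?_
  calc ∑ u : ZMod P, ‖Fl g l u * ch (-b) u‖ ≤ ∑ _u : ZMod P, (1 : ℝ) := by
        refine Finset.sum_le_sum fun u _ => ?_
        rw [norm_mul, f4, mul_one]
        exact unif_FlG g hg l u
    _ = P := by simp [ZMod.card]

private theorem unif_uR {P : ℕ} [NeZero P] (hFB : St_FB) (f g : ZMod P → ℂ)
    (hg : ∀ u, ‖g u‖ ≤ 1) (N K : ℕ) (l : ℤ) :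
    uR f g N K l ≤ (N / K : ℝ) * (1 / 2 * (∑ u : ZMod P, ‖Fl f l u‖ ^ 2 + P)) +
      N * ∑ b ∈ MajS P N K, ‖ft (Fl f l) b‖ := by
  have hP : (0 : ℝ) < P := by exact_mod_cast Nat.pos_of_ne_zero (NeZero.ne P)
  have f6 := (hFB P).2.2.2.2.2.1
  have h1 : uR f g N K l ≤ (1 / (P : ℝ)) * ∑ b : ZMod P,
      ((N / K : ℝ) * (1 / 2 * (‖ft (Fl f l) b‖ ^ 2 + ‖ft (Fl g (-l)) (-b)‖ ^ 2)) +
        (if b ∈ MajS P N K then N * P * ‖ft (Fl f l) b‖ else 0)) := by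
    unfold uR
    refine mul_le_mul_of_nonneg_left ?_ (by positivity)
    refine Finset.sum_le_sum fun b _ => ?_
    have a1 := two_mul_le_add_sq ‖ft (Fl f l) b‖ ‖ft (Fl g (-l)) (-b)‖
    have a2 := unif_ftG hFB g hg (-l) (-b)
    have a3 : (0 : ℝ) ≤ N / K := by positivity
    unfold uc
    split_ifs with hb
    · have a4 : ‖ft (Fl f l) b‖ * ‖ft (Fl g (-l)) (-b)‖ * N ≤ N * P * ‖ft (Fl f l) b‖ := by
        calc ‖ft (Fl f l) b‖ * ‖ft (Fl g (-l)) (-b)‖ * N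
            ≤ ‖ft (Fl f l) b‖ * P * N := by gcongr
          _ = N * P * ‖ft (Fl f l) b‖ := by ring
      have a5 : 0 ≤ (N / K : ℝ) * (1 / 2 * (‖ft (Fl f l) b‖ ^ 2 + ‖ft (Fl g (-l)) (-b)‖ ^ 2)) := by
        positivity
      linarith
    · rw [add_zero]
      calc ‖ft (Fl f l) b‖ * ‖ft (Fl g (-l)) (-b)‖ * (N / K)
          = (N / K) * (‖ft (Fl f l) b‖ * ‖ft (Fl g (-l)) (-b)‖) := by ring
        _ ≤ _ := by
          refine mul_le_mul_of_nonneg_left ?_ a3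
          linarith
  refine h1.trans ?_
  rw [Finset.sum_add_distrib, ← Finset.mul_sum, ← Finset.mul_sum, Finset.sum_add_distrib, f6]
  have h2 : ∑ b : ZMod P, ‖ft (Fl g (-l)) (-b)‖ ^ 2 = P * ∑ u : ZMod P, ‖Fl g (-l) u‖ ^ 2 := by
    rw [← f6]
    exact Fintype.sum_equiv (Equiv.neg _) _ _ fun b => rfl
  have h3 : ∑ u : ZMod P, ‖Fl g (-l) u‖ ^ 2 ≤ P := by
    calc ∑ u : ZMod P, ‖Fl g (-l) u‖ ^ 2 ≤ ∑ _u : ZMod P, (1 : ℝ) := by
          refine Finset.sum_le_sum fun u _ => ?_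
          exact pow_le_one₀ (norm_nonneg _) (unif_FlG g hg (-l) u)
      _ = P := by simp [ZMod.card]
  have h4 : ∑ b : ZMod P, (if b ∈ MajS P N K then N * P * ‖ft (Fl f l) b‖ else 0) =
      N * P * ∑ b ∈ MajS P N K, ‖ft (Fl f l) b‖ := by
    rw [Finset.sum_ite_mem, Finset.univ_inter, Finset.mul_sum]
  rw [h2, h4]
  have h5 : (0 : ℝ) ≤ N / K := by positivity
  have h6 : (1 / (P : ℝ)) * ((N / K : ℝ) * (1 / 2 * (P * ∑ u : ZMod P, ‖Fl f l u‖ ^ 2 +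
      P * ∑ u : ZMod P, ‖Fl g (-l) u‖ ^ 2)) + N * P * ∑ b ∈ MajS P N K, ‖ft (Fl f l) b‖) =
      (N / K : ℝ) * (1 / 2 * (∑ u : ZMod P, ‖Fl f l u‖ ^ 2 + ∑ u : ZMod P, ‖Fl g (-l) u‖ ^ 2)) +
      N * ∑ b ∈ MajS P N K, ‖ft (Fl f l) b‖ := by
    field_simp
  rw [h6]
  have h7 : (N / K : ℝ) * (1 / 2 * (∑ u : ZMod P, ‖Fl f l u‖ ^ 2 +
      ∑ u : ZMod P, ‖Fl g (-l) u‖ ^ 2)) ≤
      (N / K : ℝ) * (1 / 2 * (∑ u : ZMod P, ‖Fl f l u‖ ^ 2 + P)) := by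
    refine mul_le_mul_of_nonneg_left ?_ h5
    linarith
  linarith

private theorem unif_sumR (hFB : St_FB) (hAUTOC : St_AUTOC) (hENER : St_ENER) (hMAJ : St_MAJ)
    (P H B T N K : ℕ) [NeZero P] (η : ℝ) (f g : ZMod P → ℂ) (hPH : P = H * (B * T)) (hB : 1 ≤ B)
    (hH1 : 1 ≤ H) (hg : ∀ u, ‖g u‖ ≤ 1) (hK : 1 ≤ K) (hN : 1 ≤ N) (hPN : P ≤ 16 * N ^ 2)
    (hHP : 2 * H + 1 ≤ P) (hfl : Flat H (B * T) η f) :
    ∑ l ∈ Icc (-(H : ℤ)) (H : ℤ), uR f g N K l ≤ (N / K : ℝ) * (3 * H * P) +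
      N * (2 ^ 15 * (K : ℝ) ^ 8 * (H * P * Real.sqrt (6 * B * η ^ 2 + 72 / (B : ℝ) ^ 2))) := by
  have hHr : (1 : ℝ) ≤ H := by exact_mod_cast hH1
  have hBr : (1 : ℝ) ≤ B := by exact_mod_cast hB
  have hP : (0 : ℝ) < P := by exact_mod_cast Nat.pos_of_ne_zero (NeZero.ne P)
  set W := Real.sqrt (6 * B * η ^ 2 + 72 / (B : ℝ) ^ 2) with hW
  have hW2 : W ^ 2 = 6 * B * η ^ 2 + 72 / (B : ℝ) ^ 2 := by
    rw [hW, Real.sq_sqrt (by positivity)]
  have hW0 : 0 ≤ W := Real.sqrt_nonneg _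
  have hcard : ((Icc (-(H : ℤ)) (H : ℤ)).card : ℝ) = 2 * H + 1 := by
    rw [Int.card_Icc]
    have : ((H : ℤ) + 1 - -(H : ℤ)).toNat = 2 * H + 1 := by omega
    rw [this]
    push_cast
    ring
  have h1 : ∑ l ∈ Icc (-(H : ℤ)) (H : ℤ), uR f g N K l ≤
      ∑ l ∈ Icc (-(H : ℤ)) (H : ℤ), ((N / K : ℝ) * (1 / 2 * (∑ u : ZMod P, ‖Fl f l u‖ ^ 2 + P)) +
      N * ∑ b ∈ MajS P N K, ‖ft (Fl f l) b‖) :=
    Finset.sum_le_sum fun l _ => unif_uR hFB f g hg N K l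
  refine h1.trans ?_
  rw [Finset.sum_add_distrib, ← Finset.mul_sum, ← Finset.mul_sum, ← Finset.mul_sum,
    Finset.sum_add_distrib, Finset.sum_const, nsmul_eq_mul, hcard,
    Finset.sum_comm (s := Icc (-(H : ℤ)) (H : ℤ)) (t := MajS P N K)]
  have hEN := (hENER P H (B * T) f hPH hH1 hHP hfl.1).2
  have h2 : (N / K : ℝ) * (1 / 2 * (∑ l ∈ Icc (-(H : ℤ)) (H : ℤ), ∑ u : ZMod P, ‖Fl f l u‖ ^ 2 +
      (2 * H + 1) * P)) ≤ (N / K : ℝ) * (3 * H * P) := by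
    refine mul_le_mul_of_nonneg_left ?_ (by positivity)
    nlinarith
  have h3 : ∀ b ∈ MajS P N K, ∑ l ∈ Icc (-(H : ℤ)) (H : ℤ), ‖ft (Fl f l) b‖ ≤ H * P * W := by
    intro b _
    have h4 := hAUTOC P H B T η f hPH hB hH1 hHP hfl b
    have h5 := sq_sum_le_card_mul_sum_sq (s := Icc (-(H : ℤ)) (H : ℤ))
      (f := fun l => ‖ft (Fl f l) b‖)
    rw [hcard] at h5
    refine le_of_sq_le_sq ?_ (by positivity)
    calc (∑ l ∈ Icc (-(H : ℤ)) (H : ℤ), ‖ft (Fl f l) b‖) ^ 2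
        ≤ (2 * H + 1) * ∑ l ∈ Icc (-(H : ℤ)) (H : ℤ), ‖ft (Fl f l) b‖ ^ 2 := h5
      _ ≤ (3 * H) * (H * (P : ℝ) ^ 2 * (2 * B * η ^ 2 + 24 / (B : ℝ) ^ 2)) := by
        gcongr
        linarith
      _ = (H * P) ^ 2 * (6 * B * η ^ 2 + 72 / (B : ℝ) ^ 2) := by ring
      _ = (H * P * W) ^ 2 := by rw [← hW2]; ring
  have h4 : ∑ b ∈ MajS P N K, ∑ l ∈ Icc (-(H : ℤ)) (H : ℤ), ‖ft (Fl f l) b‖ ≤
      2 ^ 15 * (K : ℝ) ^ 8 * (H * P * W) := by
    calc ∑ b ∈ MajS P N K, ∑ l ∈ Icc (-(H : ℤ)) (H : ℤ), ‖ft (Fl f l) b‖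
        ≤ ∑ b ∈ MajS P N K, (H * P * W) := Finset.sum_le_sum h3
      _ = ((MajS P N K).card : ℝ) * (H * P * W) := by rw [Finset.sum_const, nsmul_eq_mul]
      _ ≤ 2 ^ 15 * (K : ℝ) ^ 8 * (H * P * W) := by
        refine mul_le_mul_of_nonneg_right (hMAJ P N K hK hN hPN) (by positivity)
  have h5 := mul_le_mul_of_nonneg_left h4 (by positivity : (0 : ℝ) ≤ N)
  linarith

/-- Flat functions are negligible. -/
theorem thm_UNIF (hFB : St_FB) (hAUTOC : St_AUTOC) (hENER : St_ENER) (hMAJ : St_MAJ)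
    (hVB : St_VB) : St_UNIF := by
  intro P H B T N M' μ K D0 _ η f g 𝔅 I w hPH hB hμ hMH hHM h𝔅 hI hw hg hD hK hN hPN hHP hfl
  have hPpos : 0 < P := Nat.pos_of_ne_zero (NeZero.ne P)
  have hP : (0 : ℝ) < P := by exact_mod_cast hPpos
  have hH1 : 1 ≤ H := by
    rcases Nat.eq_zero_or_pos H with h | h
    · rw [h, zero_mul] at hPH
      omega
    · exact h
  have hM1 : 1 ≤ M' := by
    rcases Nat.eq_zero_or_pos M' with h | h
    · rw [h] at hHM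
      omega
    · exact h
  have hN1 : 1 ≤ N := by
    have : 1 ≤ K ^ 5 := Nat.one_le_pow _ _ hK
    omega
  have hMr : (0 : ℝ) < M' := by exact_mod_cast hM1
  have hNr : (0 : ℝ) < N := by exact_mod_cast hN1
  have hμr : (0 : ℝ) < μ := by exact_mod_cast hμ
  have hKr : (0 : ℝ) < K := by exact_mod_cast hK
  have hHr : (1 : ℝ) ≤ H := by exact_mod_cast hH1
  set W := Real.sqrt (6 * B * η ^ 2 + 72 / (B : ℝ) ^ 2) with hW
  have hW0 : 0 ≤ W := Real.sqrt_nonneg _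
  set r := 𝔅.card with hr
  have hrμ : r * μ ≤ M' := by
    have h1 : 𝔅 ⊆ range (M' / μ) := by
      intro i hi
      rw [Finset.mem_range, Nat.lt_iff_add_one_le, Nat.le_div_iff_mul_le hμ]
      exact h𝔅 i hi
    have h2 := Finset.card_le_card h1
    rw [Finset.card_range, ← hr, Nat.le_div_iff_mul_le hμ] at h2
    exact h2
  -- the sum of the squares
  set Q : ℝ := ∑ i ∈ 𝔅, ∑ n ∈ Ioc (I i).1 (I i).2, ∑ y : ZMod P,
    ‖uS f g (Ioc (i * μ) ((i + 1) * μ)) n y‖ ^ 2 with hQ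
  have hQ0 : 0 ≤ Q := by
    rw [hQ]
    positivity
  have hQle : Q ≤ r * μ * (N * P) + D0 * ((N / K : ℝ) * (3 * H * P) +
      N * (2 ^ 15 * (K : ℝ) ^ 8 * (H * P * W))) := by
    have e1 : (Q : ℂ) = ∑ i ∈ 𝔅, ∑ m ∈ Ioc (i * μ) ((i + 1) * μ),
        ∑ m' ∈ Ioc (i * μ) ((i + 1) * μ), ∑ n ∈ Ioc (I i).1 (I i).2, ∑ u : ZMod P,
          Fl f ((m' : ℤ) ^ 2 - (m : ℤ) ^ 2) u * Fl g (-((m' : ℤ) ^ 2 - (m : ℤ) ^ 2))
            (u - ((2 * n ^ 2 + 2 * m ^ 2 : ℕ) : ZMod P)) := by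
      rw [hQ, Complex.ofReal_sum]
      refine Finset.sum_congr rfl fun i _ => ?_
      rw [Complex.ofReal_sum]
      rw [Finset.sum_congr rfl fun n _ => unif_expand f g (Ioc (i * μ) ((i + 1) * μ)) n]
      rw [Finset.sum_comm]
      refine Finset.sum_congr rfl fun m _ => ?_
      rw [Finset.sum_comm]
    have e2 : Q = ‖(Q : ℂ)‖ := by
      rw [Complex.norm_real, Real.norm_of_nonneg hQ0]
    have hEN := (hENER P H (B * T) f hPH hH1 hHP hfl.1).1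
    have e3 : Q ≤ ∑ i ∈ 𝔅, ∑ m ∈ Ioc (i * μ) ((i + 1) * μ), ∑ m' ∈ Ioc (i * μ) ((i + 1) * μ),
        ((if m = m' then (N * P : ℝ) else 0) +
          (if m = m' then 0 else uR f g N K ((m' : ℤ) ^ 2 - (m : ℤ) ^ 2))) := by
      rw [e2, e1]
      refine (norm_sum_le _ _).trans (Finset.sum_le_sum fun i hi => ?_)
      refine (norm_sum_le _ _).trans (Finset.sum_le_sum fun m _ => ?_)
      refine (norm_sum_le _ _).trans (Finset.sum_le_sum fun m' _ => ?_)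
      split_ifs with hmm
      · rw [add_zero]
        subst hmm
        refine (norm_sum_le _ _).trans ?_
        calc ∑ n ∈ Ioc (I i).1 (I i).2, ‖∑ u : ZMod P, Fl f ((m : ℤ) ^ 2 - (m : ℤ) ^ 2) u *
              Fl g (-((m : ℤ) ^ 2 - (m : ℤ) ^ 2)) (u - ((2 * n ^ 2 + 2 * m ^ 2 : ℕ) : ZMod P))‖
            ≤ ∑ n ∈ Ioc (I i).1 (I i).2, (P : ℝ) := by
              refine Finset.sum_le_sum fun n _ => ?_
              refine (norm_sum_le _ _).trans ?_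
              refine le_trans (Finset.sum_le_sum fun u _ => ?_) hEN
              rw [norm_mul]
              have a1 := unif_FlG g hg (-((m : ℤ) ^ 2 - (m : ℤ) ^ 2))
                (u - ((2 * n ^ 2 + 2 * m ^ 2 : ℕ) : ZMod P))
              have a2 : ‖Fl f ((m : ℤ) ^ 2 - (m : ℤ) ^ 2) u‖ = ‖f u‖ ^ 2 := by
                unfold Fl
                rw [sub_self, Int.cast_zero, add_zero, norm_mul, RCLike.norm_conj]
                ring
              rw [a2]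
              exact mul_le_of_le_one_right (by positivity) a1
          _ = (((I i).2 - (I i).1 : ℕ) : ℝ) * P := by simp
          _ ≤ N * P := by
              refine mul_le_mul_of_nonneg_right ?_ hP.le
              have : (I i).2 - (I i).1 ≤ N := (Nat.sub_le _ _).trans (hI i hi)
              exact_mod_cast this
      · rw [zero_add]
        exact unif_off hFB hVB f g N K _ _ m hK hN (hI i hi) _
    refine e3.trans ?_
    simp_rw [Finset.sum_add_distrib]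
    refine add_le_add ?_ ?_
    · apply le_of_eq
      calc ∑ i ∈ 𝔅, ∑ m ∈ Ioc (i * μ) ((i + 1) * μ), ∑ m' ∈ Ioc (i * μ) ((i + 1) * μ),
            (if m = m' then (N * P : ℝ) else 0)
          = ∑ i ∈ 𝔅, ∑ m ∈ Ioc (i * μ) ((i + 1) * μ), (N * P : ℝ) := by
            refine Finset.sum_congr rfl fun i _ => Finset.sum_congr rfl fun m hm => ?_
            rw [Finset.sum_ite_eq, if_pos hm]
        _ = ∑ i ∈ 𝔅, (μ : ℝ) * (N * P) := by
            refine Finset.sum_congr rfl fun i _ => ?_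
            rw [Finset.sum_const, nsmul_eq_mul, Nat.card_Ioc]
            have : (i + 1) * μ - i * μ = μ := by
              rw [add_mul, one_mul]
              omega
            rw [this]
        _ = r * μ * (N * P) := by
            rw [Finset.sum_const, nsmul_eq_mul]
            ring
    · refine (unif_count H μ D0 M' 𝔅 h𝔅 hMH hD (uR f g N K) (uR_nonneg f g N K)).trans ?_
      refine mul_le_mul_of_nonneg_left ?_ (by positivity)
      exact unif_sumR hFB hAUTOC hENER hMAJ P H B T N K η f g hPH hB hH1 hg hK hN1 hPN hHP hfl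
  -- Cauchy-Schwarz
  have hCS : ∀ y : ZMod P, ‖(1 / ((N : ℂ) * M')) * ∑ i ∈ 𝔅, ∑ n ∈ Ioc (I i).1 (I i).2,
      (w n : ℂ) * ∑ m ∈ Ioc (i * μ) ((i + 1) * μ), f (y + ((n ^ 2 + m ^ 2 : ℕ) : ZMod P)) *
      g (y - ((n ^ 2 + m ^ 2 : ℕ) : ZMod P))‖ ^ 2 ≤ (1 / (N * M' : ℝ)) ^ 2 * (4 * (r * N)) *
        ∑ i ∈ 𝔅, ∑ n ∈ Ioc (I i).1 (I i).2, ‖uS f g (Ioc (i * μ) ((i + 1) * μ)) n y‖ ^ 2 := by
    intro y
    rw [norm_mul, mul_pow]
    have a1 : ‖(1 / ((N : ℂ) * M'))‖ = 1 / (N * M' : ℝ) := by simp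
    rw [a1, mul_assoc ((1 / (N * M' : ℝ)) ^ 2)]
    refine mul_le_mul_of_nonneg_left ?_ (by positivity)
    set S2 : Finset (Σ _ : ℕ, ℕ) := 𝔅.sigma fun i => Ioc (I i).1 (I i).2 with hS2
    have a2 : ‖∑ i ∈ 𝔅, ∑ n ∈ Ioc (I i).1 (I i).2,
        (w n : ℂ) * ∑ m ∈ Ioc (i * μ) ((i + 1) * μ), f (y + ((n ^ 2 + m ^ 2 : ℕ) : ZMod P)) *
        g (y - ((n ^ 2 + m ^ 2 : ℕ) : ZMod P))‖ ≤
        2 * ∑ x ∈ S2, ‖uS f g (Ioc (x.1 * μ) ((x.1 + 1) * μ)) x.2 y‖ := by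
      rw [hS2, Finset.sum_sigma, Finset.mul_sum]
      refine (norm_sum_le _ _).trans (Finset.sum_le_sum fun i _ => ?_)
      rw [Finset.mul_sum]
      refine (norm_sum_le _ _).trans (Finset.sum_le_sum fun n _ => ?_)
      rw [norm_mul, Complex.norm_real, Real.norm_eq_abs]
      exact mul_le_mul_of_nonneg_right (hw n) (norm_nonneg _)
    have a3 : (S2.card : ℝ) ≤ r * N := by
      rw [hS2, Finset.card_sigma]
      have : ∑ i ∈ 𝔅, (Ioc (I i).1 (I i).2).card ≤ ∑ _i ∈ 𝔅, N := by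
        refine Finset.sum_le_sum fun i hi => ?_
        rw [Nat.card_Ioc]
        exact (Nat.sub_le _ _).trans (hI i hi)
      rw [Finset.sum_const, smul_eq_mul, ← hr] at this
      exact_mod_cast this
    have a4 := sq_sum_le_card_mul_sum_sq (s := S2)
      (f := fun x => ‖uS f g (Ioc (x.1 * μ) ((x.1 + 1) * μ)) x.2 y‖)
    have a5 : ∑ x ∈ S2, ‖uS f g (Ioc (x.1 * μ) ((x.1 + 1) * μ)) x.2 y‖ ^ 2 =
        ∑ i ∈ 𝔅, ∑ n ∈ Ioc (I i).1 (I i).2, ‖uS f g (Ioc (i * μ) ((i + 1) * μ)) n y‖ ^ 2 := by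
      rw [hS2, Finset.sum_sigma]
    rw [← a5]
    calc _ ≤ (2 * ∑ x ∈ S2, ‖uS f g (Ioc (x.1 * μ) ((x.1 + 1) * μ)) x.2 y‖) ^ 2 :=
          pow_le_pow_left₀ (norm_nonneg _) a2 2
      _ = 4 * (∑ x ∈ S2, ‖uS f g (Ioc (x.1 * μ) ((x.1 + 1) * μ)) x.2 y‖) ^ 2 := by ring
      _ ≤ 4 * (S2.card * ∑ x ∈ S2, ‖uS f g (Ioc (x.1 * μ) ((x.1 + 1) * μ)) x.2 y‖ ^ 2) := by
          gcongr
      _ ≤ 4 * ((r * N) * ∑ x ∈ S2, ‖uS f g (Ioc (x.1 * μ) ((x.1 + 1) * μ)) x.2 y‖ ^ 2) := by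
          gcongr
      _ = _ := by ring
  have hsum : ∑ y : ZMod P, ‖(1 / ((N : ℂ) * M')) * ∑ i ∈ 𝔅, ∑ n ∈ Ioc (I i).1 (I i).2,
      (w n : ℂ) * ∑ m ∈ Ioc (i * μ) ((i + 1) * μ), f (y + ((n ^ 2 + m ^ 2 : ℕ) : ZMod P)) *
      g (y - ((n ^ 2 + m ^ 2 : ℕ) : ZMod P))‖ ^ 2 ≤ (1 / (N * M' : ℝ)) ^ 2 * (4 * (r * N)) * Q := by
    refine (Finset.sum_le_sum fun y _ => hCS y).trans ?_
    rw [← Finset.mul_sum]
    refine mul_le_mul_of_nonneg_left (le_of_eq ?_) (by positivity)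
    rw [hQ, Finset.sum_comm]
    refine Finset.sum_congr rfl fun i _ => ?_
    rw [Finset.sum_comm]
  have hrr : (r : ℝ) * μ ≤ M' := by exact_mod_cast hrμ
  have hHr2 : (H : ℝ) ≤ 4 * M' * μ := by exact_mod_cast hHM
  have b1 : (r : ℝ) * (r * μ) / M' ^ 2 ≤ 1 / μ := by
    rw [div_le_div_iff₀ (by positivity) hμr]
    calc (r : ℝ) * (r * μ) * μ = (r * μ) ^ 2 := by ring
      _ ≤ (M' : ℝ) ^ 2 := pow_le_pow_left₀ (by positivity) hrr 2
      _ = 1 * (M' : ℝ) ^ 2 := by ring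
  have b2 : (r : ℝ) * H / M' ^ 2 ≤ 4 := by
    rw [div_le_iff₀ (by positivity)]
    calc (r : ℝ) * H ≤ r * (4 * M' * μ) := by gcongr
      _ = 4 * M' * (r * μ) := by ring
      _ ≤ 4 * M' * M' := by gcongr
      _ = 4 * (M' : ℝ) ^ 2 := by ring
  have hfin : (1 / (N * M' : ℝ)) ^ 2 * (4 * (r * N)) * Q / P ≤
      2 ^ 2 * (1 / μ + 12 * D0 / K + 2 ^ 17 * D0 * (K : ℝ) ^ 8 * W) := by
    calc (1 / (N * M' : ℝ)) ^ 2 * (4 * (r * N)) * Q / P
        ≤ (1 / (N * M' : ℝ)) ^ 2 * (4 * (r * N)) * (r * μ * (N * P) +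
          D0 * ((N / K : ℝ) * (3 * H * P) + N * (2 ^ 15 * (K : ℝ) ^ 8 * (H * P * W)))) / P := by
          gcongr
      _ = 4 * ((r : ℝ) * (r * μ) / M' ^ 2 + (r * H / M' ^ 2) * (3 * D0 / K) +
          (r * H / M' ^ 2) * (2 ^ 15 * D0 * (K : ℝ) ^ 8 * W)) := by
          field_simp
          ring
      _ ≤ 4 * (1 / μ + 4 * (3 * D0 / K) + 4 * (2 ^ 15 * D0 * (K : ℝ) ^ 8 * W)) := by
          gcongr
      _ = _ := by ring
  unfold n2
  rw [show (2 : ℝ) = Real.sqrt (2 ^ 2) by rw [Real.sqrt_sq (by norm_num)], ← Real.sqrt_mul (by norm_num)]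
  refine Real.sqrt_le_sqrt ?_
  refine (div_le_div_of_nonneg_right hsum hP.le).trans ?_
  rw [show Real.sqrt (2 ^ 2) = (2 : ℝ) by rw [Real.sqrt_sq (by norm_num)]]
  exact hfin

end Pool.Agent.BSQ
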