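import Pool.Agent.BSQ.StA

/-!
# BSQ, UNS: flat functions against the strip measure
-/

set_option autoImplicit false

namespace Pool.Agent.BSQ

open Finset MeasureTheory Filter Topology
open scoped BigOperators
open Classical

private theorem uns_blocks (h : ℕ → ℂ) (μ q : ℕ) :
    ∑ i ∈ range q, ∑ m ∈ Ioc (i * μ) ((i + 1) * μ), h m = ∑ m ∈ Ioc 0 (q * μ), h m := by
  induction q with
  | zero => simp
  | succ q ih =>
    rw [sum_range_succ, ih]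
    exact sum_Ioc_consecutive h (Nat.zero_le _) (Nat.mul_le_mul_right μ (Nat.le_succ q))

private theorem uns_energy (P H S : ℕ) [NeZero P] (f : ZMod P → ℂ) (hP : P = H * S)
    (hE : TileE H f) : ∑ u : ZMod P, ‖f u‖ ^ 2 ≤ P := by
  have hmap : ∀ u ∈ (univ : Finset (ZMod P)), tl H u ∈ range S := by
    intro u _
    rw [mem_range]
    refine Nat.div_lt_of_lt_mul ?_
    rw [← hP]
    exact ZMod.val_lt u
  rw [← sum_fiberwise_of_maps_to hmap]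
  calc ∑ t ∈ range S, ∑ u ∈ univ.filter (fun u : ZMod P => tl H u = t), ‖f u‖ ^ 2
      ≤ ∑ t ∈ range S, (H : ℝ) := sum_le_sum fun t _ => hE t
    _ = P := by
      rw [sum_const, card_range, nsmul_eq_mul, hP]
      push_cast
      ring

/-- The weight. -/
private noncomputable def uns_w (N n : ℕ) : ℝ := if n ≤ N then 2 * n / N else 0

private theorem uns_w_le (N n : ℕ) : |uns_w N n| ≤ 2 := by
  unfold uns_w
  split_ifs with h
  · rw [abs_of_nonneg (by positivity)]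
    rcases Nat.eq_zero_or_pos N with h0 | h0
    · subst h0
      simp
    · rw [div_le_iff₀ (by exact_mod_cast h0)]
      have : (n : ℝ) ≤ N := by exact_mod_cast h
      linarith
  · simp

private theorem uns_regroup (P N M : ℕ) [NeZero P] (f g : ZMod P → ℂ) (hM1 : 1 ≤ M) (hMN : M ≤ N)
    (y : ZMod P) :
    Tr (P := P) (2 * N ^ 2 + 1) (rhoS N M) f g y =
      (1 / ((N : ℂ) * M)) * ∑ n ∈ Ioc 0 N, (uns_w N n : ℂ) * ∑ m ∈ Ioc 0 M,
        f (y + ((n ^ 2 + m ^ 2 : ℕ) : ZMod P)) * g (y - ((n ^ 2 + m ^ 2 : ℕ) : ZMod P)) := by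
  have hN0 : (N : ℂ) ≠ 0 := by
    have : 1 ≤ N := hM1.trans hMN
    exact_mod_cast (by omega : N ≠ 0)
  have hM0 : (M : ℂ) ≠ 0 := by exact_mod_cast (by omega : M ≠ 0)
  have hmap : ∀ p ∈ Str N M, sq2 p ∈ range (2 * N ^ 2 + 1) := by
    rintro ⟨n, m⟩ hp
    rw [Str, mem_product, mem_Icc, mem_Icc] at hp
    rw [mem_range, sq2]
    have h1 : n ^ 2 ≤ N ^ 2 := Nat.pow_le_pow_left hp.1.2 2
    have h2 : m ^ 2 ≤ N ^ 2 := Nat.pow_le_pow_left (hp.2.2.trans hMN) 2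
    show n ^ 2 + m ^ 2 < 2 * N ^ 2 + 1
    omega
  have h1 : Tr (P := P) (2 * N ^ 2 + 1) (rhoS N M) f g y =
      ∑ p ∈ Str N M, (2 / ((N : ℂ) ^ 2 * M) * (p.1 : ℂ)) *
        (f (y + ((sq2 p : ℕ) : ZMod P)) * g (y - ((sq2 p : ℕ) : ZMod P))) := by
    rw [← sum_fiberwise_of_maps_to hmap, Tr]
    refine sum_congr rfl fun k _ => ?_
    rw [rhoS]
    push_cast
    rw [mul_sum, sum_mul]
    refine sum_congr rfl fun p hp => ?_
    rw [(mem_filter.mp hp).2]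
  rw [h1, Str, sum_product, mul_sum]
  have hI : ∀ L : ℕ, Icc 1 L = Ioc 0 L := fun L => by
    ext x
    simp only [mem_Icc, mem_Ioc]
    omega
  rw [hI, hI]
  refine sum_congr rfl fun n hn => ?_
  rw [mul_sum, mul_sum]
  refine sum_congr rfl fun m _ => ?_
  have hw : uns_w N n = 2 * n / N := if_pos (mem_Ioc.mp hn).2
  rw [hw]
  show 2 / ((N : ℂ) ^ 2 * M) * (n : ℂ) * (f (y + ((n ^ 2 + m ^ 2 : ℕ) : ZMod P)) *
    g (y - ((n ^ 2 + m ^ 2 : ℕ) : ZMod P))) = _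
  push_cast
  field_simp

theorem thm_UNS (hUNIF : St_UNIF) (hNRM : St_NRM) : St_UNS := by
  intro P H B T N M μ K D0 _ η f g hP hB hμ h1 h2 hM hMN hg hD hK hKN hPN hHP hF
  obtain ⟨hadd, -, hsum, hsmul, hmono, htr, hsq, -, -⟩ := hNRM P
  have hN : 1 ≤ N := hM.trans hMN
  have hmain := hUNIF P H B T N M μ K D0 η f g (range (M / μ)) (fun _ => (0, N)) (uns_w N)
    hP hB hμ h1 h2 (fun i hi => by
      rw [mem_range] at hi
      exact (Nat.mul_le_mul_right μ (Nat.succ_le_of_lt hi)).trans (Nat.div_mul_le_self M μ))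
    (fun i _ => le_rfl) (uns_w_le N) hg hD hK hKN hPN hHP hF
  -- the norm of `f`
  have hf1 : n2 f ≤ 1 := by
    have h3 := hsq f
    have hP0 : (0 : ℝ) < P := by
      have := NeZero.ne P
      exact_mod_cast Nat.pos_of_ne_zero this
    have h4 : n2 f ^ 2 ≤ 1 := by
      rw [h3, div_le_one hP0]
      exact uns_energy P H (B * T) f hP hF.1
    have h5 : 0 ≤ n2 f := Real.sqrt_nonneg _
    nlinarith
  -- the remainder
  let c : ℕ × ℕ → ℂ := fun q => (1 / ((N : ℂ) * M)) * (uns_w N q.1 : ℂ)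
  let Φ : ℕ × ℕ → ZMod P → ℂ := fun q y =>
    f (y + ((q.1 ^ 2 + q.2 ^ 2 : ℕ) : ZMod P)) * g (y - ((q.1 ^ 2 + q.2 ^ 2 : ℕ) : ZMod P))
  have hΦ : ∀ q, n2 (Φ q) ≤ 1 := by
    intro q
    refine le_trans ?_ hf1
    rw [← htr f ((q.1 ^ 2 + q.2 ^ 2 : ℕ) : ZMod P)]
    refine hmono _ _ fun y => ?_
    rw [norm_mul]
    exact mul_le_of_le_one_right (norm_nonneg _) (hg _)
  have hNr : (0 : ℝ) < N := by exact_mod_cast hN
  have hMr : (0 : ℝ) < M := by exact_mod_cast hM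
  have hc : ∀ q, ‖c q‖ ≤ 2 / (N * M) := by
    intro q
    show ‖(1 / ((N : ℂ) * M)) * (uns_w N q.1 : ℂ)‖ ≤ _
    rw [norm_mul, norm_div, norm_one, norm_mul, Complex.norm_natCast, Complex.norm_natCast,
      Complex.norm_real, Real.norm_eq_abs]
    calc 1 / ((N : ℝ) * M) * |uns_w N q.1| ≤ 1 / ((N : ℝ) * M) * 2 :=
          mul_le_mul_of_nonneg_left (uns_w_le N q.1) (by positivity)
      _ = 2 / (N * M) := by ring
  have hrem : n2 (fun y => ∑ q ∈ Ioc 0 N ×ˢ Ioc (M / μ * μ) M, c q * Φ q y) ≤ 2 * μ / M := by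
    refine (hsum (ℕ × ℕ) _ fun q y => c q * Φ q y).trans ?_
    have h3 : ∀ q ∈ Ioc 0 N ×ˢ Ioc (M / μ * μ) M, n2 (fun y => c q * Φ q y) ≤ 2 / (N * M) := by
      intro q _
      rw [hsmul]
      calc ‖c q‖ * n2 (Φ q) ≤ 2 / (N * M) * 1 :=
            mul_le_mul (hc q) (hΦ q) (Real.sqrt_nonneg _) (by positivity)
        _ = 2 / (N * M) := mul_one _
    refine (sum_le_sum h3).trans ?_
    rw [sum_const, card_product, Nat.card_Ioc, Nat.card_Ioc, nsmul_eq_mul, Nat.sub_zero]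
    have h4 : M - M / μ * μ ≤ μ := by
      have h5 := Nat.div_add_mod M μ
      have h6 := Nat.mod_lt M (by omega : 0 < μ)
      rw [mul_comm] at h5
      omega
    have h5 : ((M - M / μ * μ : ℕ) : ℝ) ≤ μ := by exact_mod_cast h4
    push_cast
    calc (N : ℝ) * ((M - M / μ * μ : ℕ) : ℝ) * (2 / (N * M))
        ≤ (N : ℝ) * μ * (2 / (N * M)) := by gcongr
      _ = 2 * μ / M := by
        field_simp
  have hsplit : (Tr (P := P) (2 * N ^ 2 + 1) (rhoS N M) f g) = fun y : ZMod P =>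
      ((1 / ((N : ℂ) * M)) * ∑ i ∈ range (M / μ), ∑ n ∈ Ioc (((fun _ => (0, N)) : ℕ → ℕ × ℕ) i).1
        (((fun _ => (0, N)) : ℕ → ℕ × ℕ) i).2, (uns_w N n : ℂ) *
        ∑ m ∈ Ioc (i * μ) ((i + 1) * μ), f (y + ((n ^ 2 + m ^ 2 : ℕ) : ZMod P)) *
          g (y - ((n ^ 2 + m ^ 2 : ℕ) : ZMod P))) +
      ∑ q ∈ Ioc 0 N ×ˢ Ioc (M / μ * μ) M, c q * Φ q y := by
    funext y
    rw [uns_regroup P N M f g hM hMN y]
    have h3 : ∑ i ∈ range (M / μ), ∑ n ∈ Ioc 0 N, (uns_w N n : ℂ) *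
        ∑ m ∈ Ioc (i * μ) ((i + 1) * μ), f (y + ((n ^ 2 + m ^ 2 : ℕ) : ZMod P)) *
          g (y - ((n ^ 2 + m ^ 2 : ℕ) : ZMod P)) =
        ∑ n ∈ Ioc 0 N, (uns_w N n : ℂ) * ∑ m ∈ Ioc 0 (M / μ * μ),
          f (y + ((n ^ 2 + m ^ 2 : ℕ) : ZMod P)) * g (y - ((n ^ 2 + m ^ 2 : ℕ) : ZMod P)) := by
      rw [sum_comm]
      refine sum_congr rfl fun n _ => ?_
      rw [← mul_sum]
      congr 1
      exact uns_blocks (fun m => f (y + ((n ^ 2 + m ^ 2 : ℕ) : ZMod P)) *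
        g (y - ((n ^ 2 + m ^ 2 : ℕ) : ZMod P))) μ (M / μ)
    have h4 : ∑ q ∈ Ioc 0 N ×ˢ Ioc (M / μ * μ) M, c q * Φ q y =
        (1 / ((N : ℂ) * M)) * ∑ n ∈ Ioc 0 N, (uns_w N n : ℂ) * ∑ m ∈ Ioc (M / μ * μ) M,
          f (y + ((n ^ 2 + m ^ 2 : ℕ) : ZMod P)) * g (y - ((n ^ 2 + m ^ 2 : ℕ) : ZMod P)) := by
      rw [sum_product, mul_sum]
      refine sum_congr rfl fun n _ => ?_
      rw [mul_sum, mul_sum]
      refine sum_congr rfl fun m _ => ?_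
      show (1 / ((N : ℂ) * M)) * (uns_w N n : ℂ) *
        (f (y + ((n ^ 2 + m ^ 2 : ℕ) : ZMod P)) * g (y - ((n ^ 2 + m ^ 2 : ℕ) : ZMod P))) = _
      ring
    show _ = ((1 / ((N : ℂ) * M)) * ∑ i ∈ range (M / μ), ∑ n ∈ Ioc 0 N, (uns_w N n : ℂ) *
        ∑ m ∈ Ioc (i * μ) ((i + 1) * μ), f (y + ((n ^ 2 + m ^ 2 : ℕ) : ZMod P)) *
          g (y - ((n ^ 2 + m ^ 2 : ℕ) : ZMod P))) + _
    rw [h3, h4, ← mul_add, ← sum_add_distrib]
    congr 1
    refine sum_congr rfl fun n _ => ?_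
    rw [← mul_add]
    congr 1
    exact (sum_Ioc_consecutive _ (Nat.zero_le _) (Nat.div_mul_le_self M μ)).symm
  rw [hsplit]
  exact (hadd _ _).trans (add_le_add hmain hrem)

end Pool.Agent.BSQ
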