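import Pool.Agent.BSQ.StA

/-!
# BSQ, module USC: flat functions against the sector measure
-/

set_option autoImplicit false

namespace Pool.Agent.BSQ

open Finset MeasureTheory Filter Topology
open scoped BigOperators
open Classical

/-- The block of `m`. -/
private def usc_blk (μ m : ℕ) : ℕ := (m - 1) / μ

private theorem usc_blk_iff {μ m i : ℕ} (hμ : 1 ≤ μ) (hm : 1 ≤ m) :
    usc_blk μ m = i ↔ m ∈ Ioc (i * μ) ((i + 1) * μ) := by
  unfold usc_blk
  rw [Finset.mem_Ioc]
  constructor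
  · rintro rfl
    have h1 := Nat.div_mul_le_self (m - 1) μ
    have h2 := Nat.lt_mul_div_succ (m - 1) (show 0 < μ by omega)
    rw [mul_comm] at h2
    constructor
    · omega
    · omega
  · rintro ⟨h1, h2⟩
    apply Nat.div_eq_of_lt_le
    · omega
    · omega

/-- The interval of the block `i`. -/
private noncomputable def usc_I (R j N μ i : ℕ) : ℕ × ℕ :=
  (R * ((i + 1) * μ) / (j + 1), Nat.findGreatest
    (fun n => j * n ≤ R * (i * μ + 1) ∧ n ^ 2 + ((i + 1) * μ) ^ 2 < N ^ 2) N)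

private theorem usc_mem_I {R j N μ i n : ℕ} :
    n ∈ Ioc (usc_I R j N μ i).1 (usc_I R j N μ i).2 ↔
      R * ((i + 1) * μ) < (j + 1) * n ∧ j * n ≤ R * (i * μ + 1) ∧
        n ^ 2 + ((i + 1) * μ) ^ 2 < N ^ 2 := by
  rw [Finset.mem_Ioc]
  unfold usc_I
  simp only
  rw [Nat.div_lt_iff_lt_mul (Nat.succ_pos j), mul_comm n]
  set G := Nat.findGreatest
    (fun n => j * n ≤ R * (i * μ + 1) ∧ n ^ 2 + ((i + 1) * μ) ^ 2 < N ^ 2) N with hG
  constructor
  · rintro ⟨h1, h2⟩
    refine ⟨h1, ?_⟩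
    have hn : n ≠ 0 := by
      rintro rfl
      simp at h1
    have hne : G ≠ 0 := by omega
    have h3 := Nat.findGreatest_of_ne_zero hG.symm hne
    exact ⟨(Nat.mul_le_mul_left j h2).trans h3.1,
      lt_of_le_of_lt (Nat.add_le_add_right (Nat.pow_le_pow_left h2 2) _) h3.2⟩
  · rintro ⟨h1, h2, h3⟩
    refine ⟨h1, Nat.le_findGreatest ?_ ⟨h2, h3⟩⟩
    by_contra hc
    push Not at hc
    have := Nat.pow_le_pow_left hc.le 2
    omega

private theorem usc_mem_sec {R j X : ℕ} {p : ℕ × ℕ} (hp : p ∈ SecX R j X) :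
    1 ≤ p.1 ∧ 1 ≤ p.2 ∧ j * p.1 ≤ R * p.2 ∧ R * p.2 < (j + 1) * p.1 ∧ p.1 ^ 2 + p.2 ^ 2 < X := by
  unfold SecX at hp
  exact (Finset.mem_filter.1 hp).2

private theorem usc_sec_mem {R j X : ℕ} {p : ℕ × ℕ} (h1 : 1 ≤ p.1) (h2 : 1 ≤ p.2)
    (h3 : j * p.1 ≤ R * p.2) (h4 : R * p.2 < (j + 1) * p.1) (h5 : p.1 ^ 2 + p.2 ^ 2 < X) :
    p ∈ SecX R j X := by
  unfold SecX
  refine Finset.mem_filter.2 ⟨?_, h1, h2, h3, h4, h5⟩
  rw [Finset.mem_product, Finset.mem_range, Finset.mem_range]
  have a1 : p.1 ≤ p.1 ^ 2 := Nat.le_self_pow (by norm_num) _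
  have a2 : p.2 ≤ p.2 ^ 2 := Nat.le_self_pow (by norm_num) _
  omega

private theorem usc_card {μ : ℕ} (hμ : 1 ≤ μ) (n : ℕ) (A : Finset (ℕ × ℕ))
    (h1 : ∀ p ∈ A, p.1 = n ∧ 1 ≤ p.2)
    (h2 : ∀ p ∈ A, ∀ q ∈ A, ¬ usc_blk μ p.2 < usc_blk μ q.2) : A.card ≤ μ := by
  rcases A.eq_empty_or_nonempty with rfl | ⟨q, hq⟩
  · simp
  · have hsub : A ⊆ (Ioc (usc_blk μ q.2 * μ) ((usc_blk μ q.2 + 1) * μ)).image
        (fun m => (n, m)) := by
      intro p hp
      rw [Finset.mem_image]
      refine ⟨p.2, ?_, ?_⟩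
      · rw [← usc_blk_iff hμ (h1 p hp).2]
        have a1 := h2 p hp q hq
        have a2 := h2 q hq p hp
        omega
      · rw [← (h1 p hp).1]
    refine (Finset.card_le_card hsub).trans (Finset.card_image_le.trans ?_)
    rw [Nat.card_Ioc, Nat.add_mul, one_mul, Nat.add_sub_cancel_left]

/-- The pairs which are covered by the blocks. -/
private def usc_cov (R j N μ : ℕ) (p : ℕ × ℕ) : Prop :=
  usc_blk μ p.2 ∈ range (N / μ) ∧
    p.1 ∈ Ioc (usc_I R j N μ (usc_blk μ p.2)).1 (usc_I R j N μ (usc_blk μ p.2)).2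

private theorem usc_rest {R j N μ : ℕ} (hμ : 1 ≤ μ) :
    ((SecX R j (N ^ 2)).filter (fun p => ¬ usc_cov R j N μ p)).card ≤ N * (2 * μ) := by
  set S := (SecX R j (N ^ 2)).filter (fun p => ¬ usc_cov R j N μ p) with hS
  have hmaps : ∀ p ∈ S, p.1 ∈ range N := by
    intro p hp
    have h := usc_mem_sec (Finset.mem_filter.1 hp).1
    rw [Finset.mem_range]
    by_contra hc
    push Not at hc
    have := Nat.pow_le_pow_left hc 2
    omega
  rw [Finset.card_eq_sum_card_fiberwise hmaps]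
  calc ∑ n ∈ range N, (S.filter (fun p => p.1 = n)).card
      ≤ ∑ n ∈ range N, 2 * μ := by
        apply Finset.sum_le_sum
        intro n _
        rw [← Finset.card_filter_add_card_filter_not (s := S.filter (fun p => p.1 = n))
          (fun p => R * (usc_blk μ p.2 * μ + 1) < j * n), two_mul]
        apply Nat.add_le_add
        · apply usc_card hμ n
          · intro p hp
            rw [Finset.mem_filter, Finset.mem_filter] at hp
            exact ⟨hp.1.2, (usc_mem_sec (Finset.mem_filter.1 hp.1.1).1).2.1⟩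
          · intro p hp q hq hlt
            rw [Finset.mem_filter, Finset.mem_filter] at hp hq
            obtain ⟨⟨hp1, hp2⟩, hp3⟩ := hp
            obtain ⟨⟨hq1, hq2⟩, hq3⟩ := hq
            have hps := usc_mem_sec (Finset.mem_filter.1 hp1).1
            have hb := Finset.mem_Ioc.1 ((usc_blk_iff hμ hps.2.1).1 rfl)
            have h5 : p.2 ≤ usc_blk μ q.2 * μ := hb.2.trans (Nat.mul_le_mul_right μ hlt)
            have h6 : R * p.2 ≤ R * (usc_blk μ q.2 * μ + 1) := Nat.mul_le_mul_left R (by omega)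
            have h7 := hps.2.2.1
            rw [hp2] at h7
            omega
        · apply usc_card hμ n
          · intro p hp
            rw [Finset.mem_filter, Finset.mem_filter] at hp
            exact ⟨hp.1.2, (usc_mem_sec (Finset.mem_filter.1 hp.1.1).1).2.1⟩
          · intro p hp q hq hlt
            rw [Finset.mem_filter, Finset.mem_filter] at hp hq
            obtain ⟨⟨hp1, hp2⟩, hp3⟩ := hp
            obtain ⟨⟨hq1, hq2⟩, hq3⟩ := hq
            have hqs := usc_mem_sec (Finset.mem_filter.1 hq1).1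
            have hb := Finset.mem_Ioc.1 ((usc_blk_iff hμ hqs.2.1).1 rfl)
            have h5 : (usc_blk μ p.2 + 1) * μ ≤ q.2 :=
              (Nat.mul_le_mul_right μ hlt).trans hb.1.le
            apply (Finset.mem_filter.1 hp1).2
            refine ⟨?_, ?_⟩
            · rw [Finset.mem_range]
              by_contra hc
              push Not at hc
              have h6 : N < (N / μ + 1) * μ := by
                have := Nat.lt_mul_div_succ N (show 0 < μ by omega)
                rwa [mul_comm] at this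
              have h7 : (N / μ + 1) * μ ≤ (usc_blk μ p.2 + 1) * μ :=
                Nat.mul_le_mul_right μ (by omega)
              have h8 : N < q.2 := by omega
              have h9 := Nat.pow_le_pow_left h8.le 2
              have h10 := hqs.2.2.2.2
              omega
            · rw [usc_mem_I]
              refine ⟨?_, ?_, ?_⟩
              · have h6 : R * ((usc_blk μ p.2 + 1) * μ) ≤ R * q.2 := Nat.mul_le_mul_left R h5
                have h7 := hqs.2.2.2.1
                rw [hq2] at h7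
                rw [hp2]
                omega
              · rw [hp2]
                omega
              · have h6 := Nat.pow_le_pow_left h5 2
                have h7 := hqs.2.2.2.2
                rw [hq2] at h7
                rw [hp2]
                omega
    _ = N * (2 * μ) := by rw [Finset.sum_const, Finset.card_range, smul_eq_mul]

private theorem usc_main {R j N μ : ℕ} (hμ : 1 ≤ μ) (s : ℕ × ℕ → ℂ) :
    ∑ p ∈ (SecX R j (N ^ 2)).filter (fun p => usc_cov R j N μ p), s p =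
      ∑ i ∈ range (N / μ), ∑ n ∈ Ioc (usc_I R j N μ i).1 (usc_I R j N μ i).2,
        ∑ m ∈ Ioc (i * μ) ((i + 1) * μ), s (n, m) := by
  have hmaps : ∀ p ∈ (SecX R j (N ^ 2)).filter (fun p => usc_cov R j N μ p),
      usc_blk μ p.2 ∈ range (N / μ) := fun p hp => (Finset.mem_filter.1 hp).2.1
  rw [← Finset.sum_fiberwise_of_maps_to hmaps]
  apply Finset.sum_congr rfl
  intro i hi
  rw [← Finset.sum_product']
  apply Finset.sum_congr _ (fun _ _ => rfl)
  ext p
  rw [Finset.mem_filter, Finset.mem_filter, Finset.mem_product]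
  constructor
  · rintro ⟨⟨h1, h2⟩, rfl⟩
    exact ⟨h2.2, (usc_blk_iff hμ (usc_mem_sec h1).2.1).1 rfl⟩
  · rintro ⟨h1, h2⟩
    have hm := Finset.mem_Ioc.1 h2
    have hn := Finset.mem_Ioc.1 h1
    have h3 := usc_mem_I.1 h1
    have hb : usc_blk μ p.2 = i := (usc_blk_iff hμ (by omega)).2 h2
    refine ⟨⟨?_, ?_⟩, hb⟩
    · apply usc_sec_mem
      · omega
      · omega
      · exact h3.2.1.trans (Nat.mul_le_mul_left R (by omega))
      · exact lt_of_le_of_lt (Nat.mul_le_mul_left R hm.2) h3.1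
      · exact lt_of_le_of_lt (Nat.add_le_add_left (Nat.pow_le_pow_left hm.2 2) _) h3.2.2
    · refine ⟨?_, ?_⟩
      · rw [hb]
        exact hi
      · rw [hb]
        exact h1

private theorem usc_Tr {P : ℕ} [NeZero P] {R j N : ℕ} (f g : ZMod P → ℂ) (y : ZMod P) :
    Tr (P := P) (2 * N ^ 2 + 1) (sigS R j N) f g y = (1 / (aj R j * (N : ℝ) ^ 2) : ℝ) *
      ∑ p ∈ SecX R j (N ^ 2), f (y + ((sq2 p : ℕ) : ZMod P)) * g (y - ((sq2 p : ℕ) : ZMod P)) := by
  unfold Tr
  have hmaps : ∀ p ∈ SecX R j (N ^ 2), sq2 p ∈ range (2 * N ^ 2 + 1) := by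
    intro p hp
    have := (usc_mem_sec hp).2.2.2.2
    rw [Finset.mem_range]
    unfold sq2
    omega
  rw [← Finset.sum_fiberwise_of_maps_to hmaps, Finset.mul_sum]
  apply Finset.sum_congr rfl
  intro k _
  have h1 : ∑ p ∈ (SecX R j (N ^ 2)).filter (fun p => sq2 p = k),
      f (y + ((sq2 p : ℕ) : ZMod P)) * g (y - ((sq2 p : ℕ) : ZMod P)) =
      (((SecX R j (N ^ 2)).filter (fun p => sq2 p = k)).card : ℂ) *
        (f (y + (k : ZMod P)) * g (y - (k : ZMod P))) := by
    rw [Finset.sum_congr rfl (g := fun _ => f (y + (k : ZMod P)) * g (y - (k : ZMod P)))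
      (fun p hp => by rw [(Finset.mem_filter.1 hp).2]), Finset.sum_const, nsmul_eq_mul]
  rw [h1]
  unfold sigS
  push_cast
  ring

private theorem usc_n2f {P H T : ℕ} [NeZero P] {η : ℝ} {f : ZMod P → ℂ} (hP : P = H * T)
    (hf : Flat H T η f) (hN : St_NRM) : n2 f ≤ 1 := by
  have h7 := (hN P).2.2.2.2.2.2.1 f
  have hPpos : (0 : ℝ) < P := by exact_mod_cast Nat.pos_of_ne_zero (NeZero.ne P)
  have hmaps : ∀ u ∈ (univ : Finset (ZMod P)), tl H u ∈ range T := by
    intro u _
    rw [Finset.mem_range]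
    unfold tl
    apply Nat.div_lt_of_lt_mul
    rw [← hP]
    exact ZMod.val_lt u
  have h1 : ∑ u : ZMod P, ‖f u‖ ^ 2 ≤ P := by
    rw [← Finset.sum_fiberwise_of_maps_to hmaps]
    calc ∑ t ∈ range T, ∑ u ∈ univ.filter (fun u : ZMod P => tl H u = t), ‖f u‖ ^ 2
        ≤ ∑ t ∈ range T, (H : ℝ) := Finset.sum_le_sum fun t _ => hf.1 t
      _ = P := by
        rw [Finset.sum_const, Finset.card_range, nsmul_eq_mul, hP]
        push_cast
        ring
  have h2 : n2 f ^ 2 ≤ 1 := by
    rw [h7]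
    exact (div_le_one hPpos).2 h1
  have h3 : 0 ≤ n2 f := Real.sqrt_nonneg _
  nlinarith

theorem thm_USC (hUNIF : St_UNIF) (hNRM : St_NRM) (hAJ : St_AJ) : St_USC := by
  intro P H B T N R j μ K D0 _ η f g hP hB hμ hH1 hH2 hR hj hg hD hK hKN hPN hHP hf
  obtain ⟨n1, -, n3, n4, n5, n6, -, -, -⟩ := hNRM P
  have haj := (hAJ R j hR hj).2.2
  have hR0 : (0 : ℝ) < R := by exact_mod_cast hR
  have haj0 : 0 < aj R j := lt_of_lt_of_le (by positivity) haj
  have haji : 1 / aj R j ≤ 4 * R := by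
    rw [div_le_iff₀ haj0]
    rw [div_le_iff₀ (by positivity)] at haj
    linarith
  have hN1 : 1 ≤ N := by
    have : 1 ≤ K ^ 5 := Nat.one_le_pow _ _ hK
    omega
  have hN0 : (0 : ℝ) < N := by exact_mod_cast hN1
  have hU := hUNIF P H B T N N μ K D0 η f g (range (N / μ)) (usc_I R j N μ) (fun _ => 1)
    hP hB hμ hH1 hH2 (by
      intro i hi
      rw [Finset.mem_range] at hi
      exact (Nat.mul_le_mul_right μ hi).trans (Nat.div_mul_le_self N μ)) (by
      intro i _
      exact Nat.findGreatest_le N) (by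
      intro n
      norm_num) hg hD hK hKN hPN hHP hf
  set E := Real.sqrt (1 / μ + 12 * D0 / K +
      2 ^ 17 * D0 * (K : ℝ) ^ 8 * Real.sqrt (6 * B * η ^ 2 + 72 / (B : ℝ) ^ 2)) with hE
  set s : ℕ × ℕ → ZMod P → ℂ := fun p y =>
    f (y + ((sq2 p : ℕ) : ZMod P)) * g (y - ((sq2 p : ℕ) : ZMod P)) with hs
  have hsp : ∀ p, n2 (s p) ≤ 1 := by
    intro p
    have h1 : n2 (s p) ≤ n2 (fun y => f (y + ((sq2 p : ℕ) : ZMod P))) := by
      apply n5
      intro y
      show ‖f (y + ((sq2 p : ℕ) : ZMod P)) * g (y - ((sq2 p : ℕ) : ZMod P))‖ ≤ _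
      rw [norm_mul]
      exact mul_le_of_le_one_right (norm_nonneg _) (hg _)
    rw [n6] at h1
    exact h1.trans (usc_n2f hP hf hNRM)
  have hTr : Tr (P := P) (2 * N ^ 2 + 1) (sigS R j N) f g = fun y =>
      ((1 / aj R j : ℝ) : ℂ) * ((1 / ((N : ℂ) * N)) * ∑ i ∈ range (N / μ),
        ∑ n ∈ Ioc (usc_I R j N μ i).1 (usc_I R j N μ i).2, (((fun _ => 1 : ℕ → ℝ) n : ℝ) : ℂ) *
        ∑ m ∈ Ioc (i * μ) ((i + 1) * μ), f (y + ((n ^ 2 + m ^ 2 : ℕ) : ZMod P)) *
          g (y - ((n ^ 2 + m ^ 2 : ℕ) : ZMod P))) +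
      ((1 / (aj R j * (N : ℝ) ^ 2) : ℝ) : ℂ) *
        ∑ p ∈ (SecX R j (N ^ 2)).filter (fun p => ¬ usc_cov R j N μ p), s p y := by
    funext y
    rw [usc_Tr, ← Finset.sum_filter_add_sum_filter_not (SecX R j (N ^ 2))
      (fun p => usc_cov R j N μ p), mul_add,
      usc_main hμ (fun p => f (y + ((sq2 p : ℕ) : ZMod P)) * g (y - ((sq2 p : ℕ) : ZMod P)))]
    congr 1
    have haC : ((aj R j : ℝ) : ℂ) ≠ 0 := by exact_mod_cast haj0.ne'
    have hNC : (N : ℂ) ≠ 0 := by exact_mod_cast hN0.ne'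
    rw [← mul_assoc]
    congr 1
    · push_cast
      field_simp
    · apply Finset.sum_congr rfl
      intro i _
      apply Finset.sum_congr rfl
      intro n _
      simp only [Complex.ofReal_one, one_mul]
      rfl
  rw [hTr]
  refine (n1 _ _).trans ?_
  apply add_le_add
  · rw [n4, Complex.norm_real, Real.norm_eq_abs, abs_of_pos (by positivity)]
    calc 1 / aj R j * n2 _ ≤ 4 * R * (2 * E) := by
          apply mul_le_mul haji hU (Real.sqrt_nonneg _) (by positivity)
      _ = 8 * R * E := by ring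
  · rw [n4, Complex.norm_real, Real.norm_eq_abs, abs_of_pos (by positivity)]
    have h1 : n2 (fun y => ∑ p ∈ (SecX R j (N ^ 2)).filter (fun p => ¬ usc_cov R j N μ p), s p y) ≤
        N * (2 * μ) := by
      refine (n3 _ _ s).trans ?_
      refine (Finset.sum_le_sum fun p _ => hsp p).trans ?_
      rw [Finset.sum_const, nsmul_eq_mul, mul_one]
      exact_mod_cast usc_rest (R := R) (j := j) (N := N) hμ
    calc 1 / (aj R j * (N : ℝ) ^ 2) * n2 _ ≤ 1 / (aj R j * (N : ℝ) ^ 2) * (N * (2 * μ)) :=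
          mul_le_mul_of_nonneg_left h1 (by positivity)
      _ = 1 / aj R j * (2 * μ / N) := by
          field_simp
      _ ≤ 4 * R * (2 * μ / N) := mul_le_mul_of_nonneg_right haji (by positivity)
      _ = 8 * R * μ / N := by ring

end Pool.Agent.BSQ
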