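import Pool.Agent.BSQ.StA

/-!
# BSQ, module VB (the squares sum at a minor frequency)
-/

set_option autoImplicit false

namespace Pool.Agent.BSQ

open Finset MeasureTheory Filter Topology
open scoped BigOperators
open Classical

private theorem vb_norm_ee (t : ℝ) : ‖ee t‖ = 1 := by
  unfold ee
  exact Complex.norm_exp_ofReal_mul_I _

theorem thm_VB (hWEY : St_WEY) : St_VB := by
  intro P N K α β _ b hK hN hβ hb
  by_contra hcon
  rw [not_le] at hcon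
  have hK0 : (0 : ℝ) < K := by exact_mod_cast hK
  have hIoc : Ioc α β = Ico (α + 1) (α + 1 + (β - α)) := by
    ext x
    rw [mem_Ioc, mem_Ico]
    omega
  obtain ⟨L, hL⟩ : ∃ L : ℕ, L = β - α := ⟨_, rfl⟩
  rw [← hL] at hIoc
  rw [hIoc] at hcon
  have hLN : L ≤ N := by omega
  have hle : ‖∑ n ∈ Ico (α + 1) (α + 1 + L), ee ((2 * (b.val : ℝ) / P) * (n : ℝ) ^ 2)‖ ≤ L := by
    refine (norm_sum_le _ _).trans ?_
    simp only [vb_norm_ee]
    rw [sum_const, Nat.card_Ico, nsmul_eq_mul, mul_one]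
    have h1 : α + 1 + L - (α + 1) = L := by omega
    rw [h1]
  have h1 : (N : ℝ) / K < L := lt_of_lt_of_le hcon hle
  have h2 : (N : ℝ) < L * K := (div_lt_iff₀ hK0).1 h1
  have h3 : N < L * K := by exact_mod_cast h2
  have h4 : 512 * K ^ 4 ≤ L := by
    have h5 : (512 * K ^ 4) * K ≤ L * K := by
      calc (512 * K ^ 4) * K = 512 * K ^ 5 := by ring
        _ ≤ N := hN
        _ ≤ L * K := h3.le
    exact Nat.le_of_mul_le_mul_right h5 hK
  have h6 : (L : ℝ) / K ≤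
      ‖∑ n ∈ Ico (α + 1) (α + 1 + L), ee ((2 * (b.val : ℝ) / P) * (n : ℝ) ^ 2)‖ := by
    refine le_trans ?_ hcon.le
    exact div_le_div_of_nonneg_right (by exact_mod_cast hLN) hK0.le
  obtain ⟨q, hq1, hq2, hq3⟩ := hWEY _ _ L K hK h4 h6
  apply hb
  unfold MajS
  rw [mem_filter]
  refine ⟨mem_univ _, q, hq1, hq2, hq3.trans ?_⟩
  have hN1 : 1 ≤ N := by
    have : 1 ≤ K ^ 5 := Nat.one_le_pow _ _ hK
    omega
  have hN0 : (0 : ℝ) < N := by exact_mod_cast hN1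
  have hL0 : (0 : ℝ) < L := lt_of_le_of_lt (by positivity) h1
  rw [div_le_div_iff₀ (by positivity) (by positivity)]
  have h7 : (N : ℝ) ^ 2 ≤ (L * K) ^ 2 := pow_le_pow_left₀ hN0.le h2.le 2
  calc 32 * (K : ℝ) ^ 4 * (N : ℝ) ^ 2 ≤ 32 * (K : ℝ) ^ 4 * (L * K) ^ 2 := by gcongr
    _ = 32 * (K : ℝ) ^ 6 * (L : ℝ) ^ 2 := by ring

end Pool.Agent.BSQ
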