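import Pool.Agent.BSQ.StA

/-!
# BSQ, module VIN: the lemma of Vinogradov (helper18 for helper44)
-/

set_option autoImplicit false

namespace Pool.Agent.BSQ

open Finset MeasureTheory Filter Topology
open scoped BigOperators
open Classical

private theorem vin_dvd {a : ℤ} {q : ℕ} (hc : Nat.Coprime a.natAbs q) {m : ℤ}
    (h : (q : ℤ) ∣ m * a) : (q : ℤ) ∣ m := by
  have h1 : IsCoprime (q : ℤ) a := by
    rw [Int.isCoprime_iff_gcd_eq_one, Int.gcd_comm]
    exact hc
  exact h1.dvd_of_dvd_mul_right h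

private theorem vin_real (θ : ℝ) (L n q : ℕ) (a : ℤ) (ε : ℝ) (hq : 0 < q)
    (h : |θ - (a : ℝ) / q| ≤ 1 / (((4 * L : ℕ) + 1 : ℝ) * q)) (hn : n ≤ L)
    (hd : dI ((n : ℝ) * θ) ≤ ε) :
    |(((n : ℤ) * a - q * round ((n : ℝ) * θ) : ℤ) : ℝ)| ≤ q * ε + 1 / 4 := by
  have hq' : (0 : ℝ) < q := Nat.cast_pos.2 hq
  have h1 : |(q : ℝ) * n * θ - n * a| ≤ 1 / 4 := by
    have h2 : (q : ℝ) * n * θ - n * a = (q * n) * (θ - (a : ℝ) / q) := by
      field_simp
    rw [h2, abs_mul, abs_of_nonneg (by positivity)]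
    calc (q : ℝ) * n * |θ - (a : ℝ) / q| ≤ (q * n) * (1 / (((4 * L : ℕ) + 1 : ℝ) * q)) := by
          exact mul_le_mul_of_nonneg_left h (by positivity)
      _ = n / ((4 * L : ℕ) + 1 : ℝ) := by field_simp
      _ ≤ 1 / 4 := by
          rw [div_le_div_iff₀ (by positivity) (by norm_num)]
          have : (n : ℝ) ≤ L := Nat.cast_le.2 hn
          push_cast
          linarith
  have h3 : |(q : ℝ) * n * θ - q * round ((n : ℝ) * θ)| ≤ q * ε := by
    have h4 : (q : ℝ) * n * θ - q * round ((n : ℝ) * θ) = q * ((n : ℝ) * θ - round ((n : ℝ) * θ)) := by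
      ring
    rw [h4, abs_mul, abs_of_pos hq']
    exact mul_le_mul_of_nonneg_left hd hq'.le
  push_cast
  have h5 : (n : ℝ) * a - q * round ((n : ℝ) * θ) =
      ((q : ℝ) * n * θ - q * round ((n : ℝ) * θ)) - ((q : ℝ) * n * θ - n * a) := by ring
  rw [h5]
  exact (abs_sub _ _).trans (add_le_add h3 h1)

theorem thm_VIN : St_VIN := by
  intro θ L δ ε hε hεδ hδ1 hδL hA
  have hL : 0 < L := by
    rcases Nat.eq_zero_or_pos L with h | h
    · rw [h, Nat.cast_zero, mul_zero] at hδL
      exact absurd hδL (by norm_num)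
    · exact h
  have hL' : (0 : ℝ) < L := Nat.cast_pos.2 hL
  have hδ : 0 < δ := by
    by_contra h
    have : δ * L ≤ 0 := mul_nonpos_of_nonpos_of_nonneg (not_lt.1 h) hL'.le
    linarith
  obtain ⟨x, hx1, hx2⟩ := Real.exists_rat_abs_sub_le_and_den_le θ (n := 4 * L) (by omega)
  obtain ⟨q, hqd⟩ : ∃ q : ℕ, q = x.den := ⟨_, rfl⟩
  obtain ⟨a, had⟩ : ∃ a : ℤ, a = x.num := ⟨_, rfl⟩
  have hq : 0 < q := hqd ▸ x.den_pos
  have hq' : (0 : ℝ) < q := Nat.cast_pos.2 hq
  have hc : Nat.Coprime a.natAbs q := by rw [hqd, had]; exact x.reduced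
  have hxx : (x : ℝ) = (a : ℝ) / q := by
    rw [hqd, had]
    exact Rat.cast_def x
  rw [hxx, ← hqd] at hx1
  rw [← hqd] at hx2
  have hx2' : (q : ℝ) ≤ 4 * L := by exact_mod_cast hx2
  clear hxx hqd had x
  obtain ⟨A, hAd⟩ : ∃ A : Finset ℕ, A = (Icc 1 L).filter (fun h : ℕ => dI ((h : ℝ) * θ) ≤ ε) :=
    ⟨_, rfl⟩
  rw [← hAd] at hA
  have hmem : ∀ n ∈ A, 1 ≤ n ∧ n ≤ L ∧ dI ((n : ℝ) * θ) ≤ ε := by
    intro n hn
    rw [hAd, mem_filter, mem_Icc] at hn
    exact ⟨hn.1.1, hn.1.2, hn.2⟩
  clear hAd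
  have hr : ∀ n ∈ A, |(((n : ℤ) * a - q * round ((n : ℝ) * θ) : ℤ) : ℝ)| ≤ q * ε + 1 / 4 :=
    fun n hn => vin_real θ L n q a ε hq hx1 (hmem n hn).2.1 (hmem n hn).2.2
  obtain ⟨r, hrd⟩ : ∃ r : ℕ → ℤ, r = fun n : ℕ => (n : ℤ) * a - q * round ((n : ℝ) * θ) := ⟨_, rfl⟩
  have hrn : ∀ n, r n = (n : ℤ) * a - q * round ((n : ℝ) * θ) := fun n => by rw [hrd]
  have hr' : ∀ n ∈ A, |((r n : ℤ) : ℝ)| ≤ q * ε + 1 / 4 := fun n hn => by rw [hrn]; exact hr n hn
  clear hrd hr
  obtain ⟨B, hBd⟩ : ∃ B : ℕ, B = ⌊(q : ℝ) * ε + 1 / 4⌋₊ := ⟨_, rfl⟩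
  have hB : (B : ℝ) ≤ q * ε + 1 / 4 := by
    rw [hBd]
    exact Nat.floor_le (by positivity)
  have hrB : ∀ n ∈ A, r n ∈ Finset.Icc (-(B : ℤ)) B := by
    intro n hn
    have h1 : (r n).natAbs ≤ B := by
      rw [hBd]
      refine Nat.le_floor ?_
      rw [Nat.cast_natAbs, Int.cast_abs]
      exact hr' n hn
    rw [Finset.mem_Icc]
    omega
  have hdv : ∀ m n : ℕ, r m = r n → (q : ℤ) ∣ (m : ℤ) - n := by
    intro m n h
    rw [hrn, hrn] at h
    refine vin_dvd hc ⟨round ((m : ℝ) * θ) - round ((n : ℝ) * θ), ?_⟩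
    linear_combination h
  by_cases hqL : q ≤ L
  · by_cases hqe : (q : ℝ) * ε < 3 / 4
    · -- case (iii)
      have hr0 : ∀ n ∈ A, r n = 0 := by
        intro n hn
        have h1 : |((r n : ℤ) : ℝ)| < 1 := (hr' n hn).trans_lt (by linarith)
        rw [← Int.cast_abs] at h1
        have h2 : |r n| < 1 := by exact_mod_cast h1
        exact Int.abs_lt_one_iff.1 h2
      have hqn : ∀ n ∈ A, q ∣ n := by
        intro n hn
        have h1 := hr0 n hn
        rw [hrn] at h1
        have h2 : (q : ℤ) ∣ (n : ℤ) := vin_dvd hc ⟨round ((n : ℝ) * θ), by linear_combination h1⟩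
        exact Int.natCast_dvd_natCast.1 h2
      have hne : A.Nonempty := by
        rw [← Finset.card_pos]
        have : (0 : ℝ) < A.card := by linarith
        exact_mod_cast this
      obtain ⟨N, hN, hmax⟩ := A.exists_max_image (fun n => n) hne
      have hcard : A.card ≤ N / q := by
        rw [← Nat.Ioc_filter_dvd_card_eq_div]
        refine Finset.card_le_card fun n hn => ?_
        rw [Finset.mem_filter, Finset.mem_Ioc]
        exact ⟨⟨(hmem n hn).1, hmax n hn⟩, hqn n hn⟩
      have hcard2 : (A.card : ℝ) * q ≤ N := by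
        have h1 : A.card * q ≤ N := (Nat.mul_le_mul_right q hcard).trans (Nat.div_mul_le_self N q)
        exact_mod_cast h1
      have hNL : (N : ℝ) ≤ L := Nat.cast_le.2 (hmem N hN).2.1
      have hqN : δ * L * q ≤ N := (mul_le_mul_of_nonneg_right hA hq'.le).trans hcard2
      have hN0 : (0 : ℝ) < N := by
        have : 0 < δ * L * q := by positivity
        linarith
      refine ⟨q, hq, ?_, ?_⟩
      · rw [le_div_iff₀ hδ]
        have h1 : (q * δ) * L ≤ 1 * L := by
          calc (q * δ) * L = δ * L * q := by ring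
            _ ≤ 1 * L := by linarith
        exact le_of_mul_le_mul_right h1 hL'
      · have h1 : dI ((q : ℝ) * θ) ≤ |(q : ℝ) * θ - a| := round_le _ a
        refine h1.trans ?_
        have h2 := hr0 N hN
        rw [hrn] at h2
        have h3 : (N : ℝ) * a = q * round ((N : ℝ) * θ) := by
          have h4 : (N : ℤ) * a = q * round ((N : ℝ) * θ) := by linear_combination h2
          exact_mod_cast h4
        have h4 : (N : ℝ) * ((q : ℝ) * θ - a) = q * ((N : ℝ) * θ - round ((N : ℝ) * θ)) := by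
          rw [mul_sub, h3]
          ring
        have h5 : (N : ℝ) * |(q : ℝ) * θ - a| ≤ q * ε := by
          have h6 : (N : ℝ) * |(q : ℝ) * θ - a| = |(N : ℝ) * ((q : ℝ) * θ - a)| := by
            rw [abs_mul, abs_of_pos hN0]
          rw [h6, h4, abs_mul, abs_of_pos hq']
          exact mul_le_mul_of_nonneg_left (hmem N hN).2.2 hq'.le
        rw [le_div_iff₀ (by positivity)]
        have h6 : (|(q : ℝ) * θ - a| * (δ * L)) * q ≤ ε * q := by
          calc (|(q : ℝ) * θ - a| * (δ * L)) * q = |(q : ℝ) * θ - a| * (δ * L * q) := by ring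
            _ ≤ |(q : ℝ) * θ - a| * N := mul_le_mul_of_nonneg_left hqN (abs_nonneg _)
            _ ≤ ε * q := by linarith
        exact le_of_mul_le_mul_right h6 hq'
    · -- case (ii)
      exfalso
      have hcard : A.card ≤ (L / q + 1) * (2 * B + 1) := by
        have h1 : (Finset.range (L / q + 1) ×ˢ Finset.Icc (-(B : ℤ)) B).card =
            (L / q + 1) * (2 * B + 1) := by
          rw [Finset.card_product, Finset.card_range, Int.card_Icc]
          congr 1
          omega
        rw [← h1]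
        refine Finset.card_le_card_of_injOn (fun n => ((n - 1) / q, r n)) ?_ ?_
        · intro n hn
          have hn' : n ∈ A := hn
          rw [Finset.mem_coe, Finset.mem_product, Finset.mem_range]
          refine ⟨Nat.lt_succ_of_le (Nat.div_le_div_right ?_), hrB n hn'⟩
          have := (hmem n hn').2.1
          omega
        · intro m hm n hn hmn
          have hm' : m ∈ A := hm
          have hn' : n ∈ A := hn
          simp only [Prod.mk.injEq] at hmn
          have h2 := hdv m n hmn.2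
          have hm1 := (hmem m hm').1
          have hn1 := (hmem n hn').1
          have h3 : (q : ℤ) ∣ ((m - 1 : ℕ) : ℤ) - ((n - 1 : ℕ) : ℤ) := by
            have h4 : ((m - 1 : ℕ) : ℤ) - ((n - 1 : ℕ) : ℤ) = (m : ℤ) - n := by
              push_cast [hm1, hn1]
              ring
            rw [h4]
            exact h2
          have h5 : (n - 1) ≡ (m - 1) [MOD q] := (Nat.modEq_iff_dvd).2 h3
          have h6 : (n - 1) % q = (m - 1) % q := h5
          have h7 : m - 1 = n - 1 := by
            rw [← Nat.div_add_mod (m - 1) q, ← Nat.div_add_mod (n - 1) q, hmn.1, h6]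
          omega
      have h1 : (A.card : ℝ) ≤ ((L / q : ℕ) + 1) * (2 * B + 1) := by exact_mod_cast hcard
      have h2 : ((L / q : ℕ) : ℝ) ≤ L / q := Nat.cast_div_le
      have h3 : (1 : ℝ) ≤ L / q := by
        rw [one_le_div₀ hq']
        exact Nat.cast_le.2 hqL
      have h4 : ((L / q : ℕ) + 1 : ℝ) ≤ 2 * (L / q) := by linarith
      have h5 : (2 * (B : ℝ) + 1) ≤ 4 * (q * ε) := by linarith [not_lt.1 hqe]
      have h6 : (A.card : ℝ) ≤ (2 * (L / q)) * (4 * (q * ε)) :=
        h1.trans (mul_le_mul h4 h5 (by positivity) (by positivity))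
      have h7 : (2 * ((L : ℝ) / q)) * (4 * (q * ε)) = 8 * L * ε := by field_simp; ring
      rw [h7] at h6
      have h8 : 8 * (L : ℝ) * ε ≤ 8 * L * (δ / 16) := mul_le_mul_of_nonneg_left hεδ (by positivity)
      have h9 : 8 * (L : ℝ) * (δ / 16) = δ * L / 2 := by ring
      linarith
  · -- case (i)
    exfalso
    have hcard : A.card ≤ 2 * B := by
      have h1 : ((Finset.Icc (-(B : ℤ)) B).erase 0).card = 2 * B := by
        rw [Finset.card_erase_of_mem (by rw [Finset.mem_Icc]; omega), Int.card_Icc]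
        omega
      rw [← h1]
      refine Finset.card_le_card_of_injOn r ?_ ?_
      · intro n hn
        have hn' : n ∈ A := hn
        rw [Finset.mem_coe, Finset.mem_erase]
        refine ⟨fun h0 => ?_, hrB n hn'⟩
        rw [hrn] at h0
        have h2 : (q : ℤ) ∣ (n : ℤ) := vin_dvd hc ⟨round ((n : ℝ) * θ), by linear_combination h0⟩
        have h3 := Nat.le_of_dvd (hmem n hn').1 (Int.natCast_dvd_natCast.1 h2)
        have := (hmem n hn').2.1
        omega
      · intro m hm n hn hmn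
        have hm' : m ∈ A := hm
        have hn' : n ∈ A := hn
        have h2 := hdv m n hmn
        have h3 : (m : ℤ) - n = 0 := by
          refine Int.eq_zero_of_abs_lt_dvd h2 ?_
          have := (hmem m hm').2.1
          have := (hmem n hn').2.1
          have := (hmem m hm').1
          have := (hmem n hn').1
          rw [abs_lt]
          constructor <;> omega
        omega
    have h1 : (A.card : ℝ) ≤ 2 * B := by exact_mod_cast hcard
    have h2 : (q : ℝ) * ε ≤ 4 * L * (δ / 16) :=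
      mul_le_mul hx2' hεδ hε.le (by positivity)
    linarith

end Pool.Agent.BSQ
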