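import Pool.Agent.BSQ.StA

/-!
# BSQ, module WDC: window discrepancy of a strip and a sector
-/

set_option autoImplicit false

namespace Pool.Agent.BSQ

open Finset MeasureTheory Filter Topology
open scoped BigOperators
open Classical

private theorem wdc_norm (t : ℝ) : ‖ee t‖ = 1 := by
  unfold ee
  rw [Complex.norm_exp_ofReal_mul_I]

private theorem wdc_fib (Ω : Finset (ℕ × ℕ)) (k0 k1 : ℕ) (F : ℕ × ℕ → ℂ) :
    ∑ k ∈ Ico k0 k1, ∑ p ∈ Ω.filter (fun p => sq2 p = k), F p = ∑ p ∈ inW Ω k0 k1, F p := by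
  have h1 : ∀ p ∈ inW Ω k0 k1, sq2 p ∈ Ico k0 k1 := by
    intro p hp
    rw [Finset.mem_Ico]
    exact (Finset.mem_filter.1 hp).2
  rw [← Finset.sum_fiberwise_of_maps_to h1]
  apply Finset.sum_congr rfl
  intro k hk
  apply Finset.sum_congr _ fun _ _ => rfl
  ext p
  rw [Finset.mem_Ico] at hk
  simp only [inW, Finset.mem_filter]
  constructor
  · rintro ⟨h2, h3⟩
    exact ⟨⟨h2, by omega, by omega⟩, h3⟩
  · rintro ⟨⟨h2, -⟩, h3⟩
    exact ⟨h2, h3⟩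

private theorem wdc_card (Ω : Finset (ℕ × ℕ)) (d ε : ℝ) (Q ell k0 H2 s : ℕ) (hQ : 1 ≤ Q)
    (h : Win Ω d ε Q ell k0 H2 s) :
    ((inW Ω k0 (k0 + H2 * s)).card : ℝ) ≤ (1 + ε) * d * (H2 * s) := by
  have h1 : ∀ i, i < s → ((inW Ω (k0 + i * H2) (k0 + (i + 1) * H2)).card : ℝ) ≤
      (1 + ε) * d * H2 := by
    intro i hi
    have h2 := h.cnt 1 le_rfl (by nlinarith) 0 0 (by omega) (by omega) i hi
    have h3 : (inW Ω (k0 + i * H2) (k0 + (i + 1) * H2)).filter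
        (fun p => p.1 % 1 = 0 ∧ p.2 % 1 = 0) = inW Ω (k0 + i * H2) (k0 + (i + 1) * H2) := by
      apply Finset.filter_true_of_mem
      intro p _
      exact ⟨Nat.mod_one _, Nat.mod_one _⟩
    rw [h3] at h2
    have h4 := (abs_le.1 h2).2
    norm_num at h4
    linarith
  have h5 : ∀ t, t ≤ s → ((inW Ω k0 (k0 + H2 * t)).card : ℝ) ≤ (1 + ε) * d * (H2 * t) := by
    intro t
    induction t with
    | zero =>
      intro _
      have h6 : inW Ω k0 (k0 + H2 * 0) = ∅ := by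
        apply Finset.filter_false_of_mem
        intro p _
        omega
      rw [h6]
      simp
    | succ t ih =>
      intro ht
      have h6 : inW Ω k0 (k0 + H2 * (t + 1)) ⊆
          inW Ω k0 (k0 + H2 * t) ∪ inW Ω (k0 + t * H2) (k0 + (t + 1) * H2) := by
        intro p hp
        simp only [inW, Finset.mem_union, Finset.mem_filter] at hp ⊢
        obtain ⟨h7, h8, h9⟩ := hp
        have e1 : H2 * t = t * H2 := Nat.mul_comm _ _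
        have e2 : H2 * (t + 1) = (t + 1) * H2 := Nat.mul_comm _ _
        rcases lt_or_ge (sq2 p) (k0 + H2 * t) with h10 | h10
        · left
          exact ⟨h7, h8, h10⟩
        · right
          exact ⟨h7, by omega, by omega⟩
      have h7 := (Finset.card_le_card h6).trans (Finset.card_union_le _ _)
      have h8 : ((inW Ω k0 (k0 + H2 * (t + 1))).card : ℝ) ≤
          ((inW Ω k0 (k0 + H2 * t)).card : ℝ) +
            ((inW Ω (k0 + t * H2) (k0 + (t + 1) * H2)).card : ℝ) := by exact_mod_cast h7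
      have h9 := ih (by omega)
      have h10 := h1 t (by omega)
      push_cast
      nlinarith
  exact h5 s le_rfl

private theorem wdc_main (N M Q k0 H' : ℕ) (θ : ℝ) (A : Finset (ℕ × ℕ)) (hN : 1 ≤ N) (hM : 1 ≤ M)
    (hQ : 8 ≤ Q) (hk : (M ^ 2 + H') * Q ≤ k0)
    (hA : ∀ p ∈ A, p.2 ≤ M ∧ k0 ≤ sq2 p ∧ sq2 p < k0 + H')
    (hc : (A.card : ℝ) ≤ (1 + 8 / Q) * (M / (2 * Real.sqrt k0)) * H') :
    ‖(2 / ((N : ℂ) ^ 2 * M)) * ∑ p ∈ A, (p.1 : ℂ) * ee ((sq2 p : ℝ) * θ) -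
      (1 / (N : ℂ) ^ 2) * ((∑ p ∈ A, ee ((sq2 p : ℝ) * θ)) /
        (((M : ℝ) / (2 * Real.sqrt k0) : ℝ) : ℂ))‖ ≤ 2 / Q * H' / (N : ℝ) ^ 2 := by
  have hQ0 : (0 : ℝ) < Q := by
    have : 0 < Q := by omega
    exact_mod_cast this
  have hQ8 : (8 : ℝ) ≤ Q := by exact_mod_cast hQ
  have hN0 : (0 : ℝ) < N := by exact_mod_cast hN
  have hM0 : (0 : ℝ) < M := by exact_mod_cast hM
  have hkR : ((M : ℝ) ^ 2 + H') * Q ≤ k0 := by exact_mod_cast hk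
  have hk0 : (0 : ℝ) < k0 := by
    have h1 : (0 : ℝ) < ((M : ℝ) ^ 2 + H') * Q := by positivity
    linarith
  have hs0 : 0 < Real.sqrt k0 := Real.sqrt_pos.2 hk0
  have hss : Real.sqrt k0 ^ 2 = k0 := Real.sq_sqrt hk0.le
  have hNc : (N : ℂ) ≠ 0 := by
    have : N ≠ 0 := by omega
    exact_mod_cast this
  have hMc : (M : ℂ) ≠ 0 := by
    have : M ≠ 0 := by omega
    exact_mod_cast this
  have hsc : ((Real.sqrt k0 : ℝ) : ℂ) ≠ 0 := by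
    exact_mod_cast hs0.ne'
  have h1 : (2 / ((N : ℂ) ^ 2 * M)) * ∑ p ∈ A, (p.1 : ℂ) * ee ((sq2 p : ℝ) * θ) -
      (1 / (N : ℂ) ^ 2) * ((∑ p ∈ A, ee ((sq2 p : ℝ) * θ)) /
        (((M : ℝ) / (2 * Real.sqrt k0) : ℝ) : ℂ)) =
      (2 / ((N : ℂ) ^ 2 * M)) * ∑ p ∈ A, (((p.1 : ℝ) - Real.sqrt k0 : ℝ) : ℂ) *
        ee ((sq2 p : ℝ) * θ) := by
    have h2 : ∑ p ∈ A, (((p.1 : ℝ) - Real.sqrt k0 : ℝ) : ℂ) * ee ((sq2 p : ℝ) * θ) =
        ∑ p ∈ A, (p.1 : ℂ) * ee ((sq2 p : ℝ) * θ) -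
          ((Real.sqrt k0 : ℝ) : ℂ) * ∑ p ∈ A, ee ((sq2 p : ℝ) * θ) := by
      rw [Finset.mul_sum, ← Finset.sum_sub_distrib]
      apply Finset.sum_congr rfl
      intro p _
      push_cast
      ring
    rw [h2]
    generalize ∑ p ∈ A, (p.1 : ℂ) * ee ((sq2 p : ℝ) * θ) = S1
    generalize ∑ p ∈ A, ee ((sq2 p : ℝ) * θ) = S2
    push_cast
    field_simp
  rw [h1]
  have h3 : ∀ p ∈ A, ‖(((p.1 : ℝ) - Real.sqrt k0 : ℝ) : ℂ) * ee ((sq2 p : ℝ) * θ)‖ ≤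
      ((M : ℝ) ^ 2 + H') / Real.sqrt k0 := by
    intro p hp
    obtain ⟨h4, h5, h6⟩ := hA p hp
    rw [norm_mul, wdc_norm, mul_one, Complex.norm_real, Real.norm_eq_abs, le_div_iff₀ hs0]
    have e4 : (p.2 : ℝ) ^ 2 ≤ (M : ℝ) ^ 2 := by
      have : (p.2 : ℝ) ≤ M := by exact_mod_cast h4
      gcongr
    have e5 : (k0 : ℝ) ≤ (p.1 : ℝ) ^ 2 + (p.2 : ℝ) ^ 2 := by
      unfold sq2 at h5
      exact_mod_cast h5
    have e6 : (p.1 : ℝ) ^ 2 + (p.2 : ℝ) ^ 2 < (k0 : ℝ) + H' := by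
      unfold sq2 at h6
      exact_mod_cast h6
    have e7 : (0 : ℝ) ≤ (p.1 : ℝ) := Nat.cast_nonneg _
    have e8 : (0 : ℝ) ≤ (p.2 : ℝ) ^ 2 := by positivity
    have e9 : (0 : ℝ) ≤ (H' : ℝ) := Nat.cast_nonneg _
    have e10 : |(p.1 : ℝ) - Real.sqrt k0| * Real.sqrt k0 ≤
        |(p.1 : ℝ) - Real.sqrt k0| * ((p.1 : ℝ) + Real.sqrt k0) := by
      apply mul_le_mul_of_nonneg_left _ (abs_nonneg _)
      linarith
    have e11 : |(p.1 : ℝ) - Real.sqrt k0| * ((p.1 : ℝ) + Real.sqrt k0) =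
        |(p.1 : ℝ) ^ 2 - k0| := by
      have e0 : (p.1 : ℝ) ^ 2 - k0 = ((p.1 : ℝ) - Real.sqrt k0) * ((p.1 : ℝ) + Real.sqrt k0) := by
        linear_combination hss
      rw [e0, abs_mul, abs_of_nonneg (show (0 : ℝ) ≤ (p.1 : ℝ) + Real.sqrt k0 by positivity)]
    have e12 : |(p.1 : ℝ) ^ 2 - k0| ≤ (M : ℝ) ^ 2 + H' := by
      rw [abs_le]
      constructor
      · linarith
      · have : (0 : ℝ) ≤ (M : ℝ) ^ 2 := by positivity
        linarith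
    linarith
  have h7 : ‖(2 / ((N : ℂ) ^ 2 * M))‖ = 2 / ((N : ℝ) ^ 2 * M) := by
    rw [norm_div, norm_mul, norm_pow, Complex.norm_natCast, Complex.norm_natCast]
    norm_num
  rw [norm_mul, h7]
  have h8 : ‖∑ p ∈ A, (((p.1 : ℝ) - Real.sqrt k0 : ℝ) : ℂ) * ee ((sq2 p : ℝ) * θ)‖ ≤
      A.card * (((M : ℝ) ^ 2 + H') / Real.sqrt k0) := by
    refine (norm_sum_le _ _).trans ?_
    refine (Finset.sum_le_sum h3).trans (le_of_eq ?_)
    rw [Finset.sum_const, nsmul_eq_mul]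
  have h9 : (1 + 8 / (Q : ℝ)) ≤ 2 := by
    have : 8 / (Q : ℝ) ≤ 1 := (div_le_one hQ0).2 hQ8
    linarith
  have h10 : (A.card : ℝ) ≤ 2 * (M / (2 * Real.sqrt k0)) * H' := by
    refine hc.trans ?_
    gcongr
  calc 2 / ((N : ℝ) ^ 2 * M) * ‖∑ p ∈ A, (((p.1 : ℝ) - Real.sqrt k0 : ℝ) : ℂ) *
        ee ((sq2 p : ℝ) * θ)‖
      ≤ 2 / ((N : ℝ) ^ 2 * M) * (A.card * (((M : ℝ) ^ 2 + H') / Real.sqrt k0)) := by gcongr
    _ ≤ 2 / ((N : ℝ) ^ 2 * M) * ((2 * (M / (2 * Real.sqrt k0)) * H') *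
        (((M : ℝ) ^ 2 + H') / Real.sqrt k0)) := by gcongr
    _ = 2 * H' / (N : ℝ) ^ 2 * (((M : ℝ) ^ 2 + H') / (Real.sqrt k0 ^ 2)) := by
        field_simp
    _ = 2 * H' / (N : ℝ) ^ 2 * (((M : ℝ) ^ 2 + H') / k0) := by rw [hss]
    _ ≤ 2 * H' / (N : ℝ) ^ 2 * (1 / Q) := by
        apply mul_le_mul_of_nonneg_left _ (by positivity)
        rw [div_le_div_iff₀ hk0 hQ0]
        linarith
    _ = 2 / Q * H' / (N : ℝ) ^ 2 := by ring

theorem thm_WDC (hLEMS : St_LEMS) (hWST : St_WST) (hWSC : St_WSC) (hAJ : St_AJ) : St_WDC := by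
  intro N M R j Q ell k0 H2 s θ hs hQ hkN hR hj hMN hk hQM hH2 hHM hNM hell h512 h202
  have hQ1 : 1 ≤ Q := by omega
  have hQ3 : 1 ≤ Q ^ 3 := Nat.one_le_pow _ _ (by omega)
  have hM1 : 1 ≤ M := by omega
  have hN1 : 1 ≤ N := by omega
  have hk0 : 0 < k0 := by
    have h1 : 0 < (M ^ 2 + H2 * s) * Q := by positivity
    omega
  have h2M : 2 * M ^ 2 ≤ k0 := by nlinarith [Nat.zero_le (H2 * s * Q), Nat.zero_le (M ^ 2)]
  have h64 : 64 * N * Q ^ 3 ≤ H2 := by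
    refine le_trans ?_ hH2
    have h1 : N * Q ^ 3 ≤ R * (N * Q ^ 3) := Nat.le_mul_of_pos_left _ (by omega)
    nlinarith
  have helM : ell * M * Q ≤ H2 * s := by
    refine le_trans ?_ hell
    have h1 : ell * M * Q ≤ ell * N * Q := by gcongr
    have h2 : ell * N * Q ≤ R * (ell * N * Q) := Nat.le_mul_of_pos_left _ (by omega)
    nlinarith
  have h16 : 16 * Q ^ 2 ≤ N := by
    have h1 : Q ^ 2 ≤ Q ^ 3 := Nat.pow_le_pow_right (by omega) (by omega)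
    omega
  have hW1 := hWST N M Q ell k0 H2 s hs hQ1 hkN hk h2M hQM h64 hHM hNM helM
  have hW2 := hWSC R j N Q ell k0 H2 s hR hj hQ1 hkN hH2 hell h16
  have hR0 : (0 : ℝ) < R := by exact_mod_cast hR
  have haj : 0 < aj R j := lt_of_lt_of_le (by positivity) (hAJ R j hR hj).2.2
  have hQ0 : (0 : ℝ) < Q := by exact_mod_cast hQ1
  have hQ8 : (8 : ℝ) ≤ Q := by exact_mod_cast hQ
  have hM0 : (0 : ℝ) < M := by exact_mod_cast hM1
  have hN0 : (0 : ℝ) < N := by exact_mod_cast hN1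
  have hk0R : (0 : ℝ) < k0 := by exact_mod_cast hk0
  have hs0 : 0 < Real.sqrt k0 := Real.sqrt_pos.2 hk0R
  have hd1 : 0 < (M : ℝ) / (2 * Real.sqrt k0) := by positivity
  have hε : 8 / (Q : ℝ) ≤ 1 := (div_le_one hQ0).2 hQ8
  have hL := hLEMS (Str N M) (SecX R j (N ^ 2)) (M / (2 * Real.sqrt k0)) (aj R j) (8 / Q) Q ell k0
    H2 s θ hd1 haj (by positivity) hε hQ1 h512 h202 hW1 hW2
  set A := inW (Str N M) k0 (k0 + H2 * s) with hA
  set B := inW (SecX R j (N ^ 2)) k0 (k0 + H2 * s) with hB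
  have hmain := wdc_main N M Q k0 (H2 * s) θ A hN1 hM1 hQ hk
    (by
      intro p hp
      have h1 := Finset.mem_filter.1 hp
      have h2 := Finset.mem_product.1 h1.1
      exact ⟨(Finset.mem_Icc.1 h2.2).2, h1.2⟩)
    (by
      have := wdc_card _ _ _ Q ell k0 H2 s hQ1 hW1
      push_cast
      exact this)
  have e1 : ∑ k ∈ Ico k0 (k0 + H2 * s), ((rhoS N M k : ℝ) : ℂ) * ee ((k : ℝ) * θ) =
      (2 / ((N : ℂ) ^ 2 * M)) * ∑ p ∈ A, (p.1 : ℂ) * ee ((sq2 p : ℝ) * θ) := by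
    rw [hA, ← wdc_fib, Finset.mul_sum]
    apply Finset.sum_congr rfl
    intro k _
    unfold rhoS
    push_cast
    rw [mul_assoc, Finset.sum_mul]
    congr 1
    apply Finset.sum_congr rfl
    intro p hp
    rw [(Finset.mem_filter.1 hp).2]
  have e2 : ∑ k ∈ Ico k0 (k0 + H2 * s), ((sigS R j N k : ℝ) : ℂ) * ee ((k : ℝ) * θ) =
      (1 / (N : ℂ) ^ 2) * ((∑ p ∈ B, ee ((sq2 p : ℝ) * θ)) / ((aj R j : ℝ) : ℂ)) := by
    rw [hB, ← wdc_fib, Finset.sum_div, Finset.mul_sum]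
    apply Finset.sum_congr rfl
    intro k _
    have h1 : ∑ p ∈ (SecX R j (N ^ 2)).filter (fun p => sq2 p = k), ee ((sq2 p : ℝ) * θ) =
        (((SecX R j (N ^ 2)).filter (fun p => sq2 p = k)).card : ℂ) * ee ((k : ℝ) * θ) := by
      rw [← nsmul_eq_mul, ← Finset.sum_const]
      apply Finset.sum_congr rfl
      intro p hp
      rw [(Finset.mem_filter.1 hp).2]
    rw [h1]
    unfold sigS
    push_cast
    have hac : ((aj R j : ℝ) : ℂ) ≠ 0 := by exact_mod_cast haj.ne'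
    have hNc : (N : ℂ) ≠ 0 := by exact_mod_cast hN0.ne'
    field_simp
  have e3 : ∑ k ∈ Ico k0 (k0 + H2 * s), ((rhoS N M k - sigS R j N k : ℝ) : ℂ) *
      ee ((k : ℝ) * θ) = ∑ k ∈ Ico k0 (k0 + H2 * s), ((rhoS N M k : ℝ) : ℂ) * ee ((k : ℝ) * θ) -
      ∑ k ∈ Ico k0 (k0 + H2 * s), ((sigS R j N k : ℝ) : ℂ) * ee ((k : ℝ) * θ) := by
    rw [← Finset.sum_sub_distrib]
    apply Finset.sum_congr rfl
    intro k _
    push_cast
    ring
  rw [e3, e1, e2]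
  set U := (2 / ((N : ℂ) ^ 2 * M)) * ∑ p ∈ A, (p.1 : ℂ) * ee ((sq2 p : ℝ) * θ) with hU
  set V := (∑ p ∈ A, ee ((sq2 p : ℝ) * θ)) / (((M : ℝ) / (2 * Real.sqrt k0) : ℝ) : ℂ) with hV
  set W := (∑ p ∈ B, ee ((sq2 p : ℝ) * θ)) / ((aj R j : ℝ) : ℂ) with hW
  have e4 : U - (1 / (N : ℂ) ^ 2) * W =
      (U - (1 / (N : ℂ) ^ 2) * V) + (1 / (N : ℂ) ^ 2) * (V - W) := by ring
  rw [e4]
  have e5 : ‖(1 / (N : ℂ) ^ 2)‖ = 1 / (N : ℝ) ^ 2 := by
    rw [norm_div, norm_pow, Complex.norm_natCast, norm_one]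
  have e6 : ‖(1 / (N : ℂ) ^ 2) * (V - W)‖ ≤
      1 / (N : ℝ) ^ 2 * ((4 / Q + 2 * (8 / Q)) * (H2 * s)) := by
    rw [norm_mul, e5]
    exact mul_le_mul_of_nonneg_left hL (by positivity)
  refine (norm_add_le _ _).trans ((add_le_add hmain e6).trans ?_)
  push_cast
  have e7 : 2 / (Q : ℝ) * (H2 * s) / (N : ℝ) ^ 2 +
      1 / (N : ℝ) ^ 2 * ((4 / Q + 2 * (8 / Q)) * (H2 * s)) =
      22 / (Q : ℝ) * (H2 * s) / (N : ℝ) ^ 2 := by ring
  rw [e7]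
  gcongr
  norm_num

end Pool.Agent.BSQ
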