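import Pool.Agent.BSQ.StA

/-!
# BSQ, module WEY: Weyl's inequality for squares, inverse form (helper13)
-/

set_option autoImplicit false

namespace Pool.Agent.BSQ

open Finset MeasureTheory Filter Topology
open scoped BigOperators
open Classical

private theorem wey_add (s t : ℝ) : ee (s + t) = ee s * ee t := by
  unfold ee
  rw [← Complex.exp_add]
  congr 1
  push_cast
  ring

private theorem wey_norm (t : ℝ) : ‖ee t‖ = 1 := by
  unfold ee
  exact Complex.norm_exp_ofReal_mul_I _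

private theorem wey_int (z : ℤ) : ee (z : ℝ) = 1 := by
  unfold ee
  rw [Complex.exp_eq_one_iff]
  refine ⟨z, ?_⟩
  push_cast
  ring

private theorem wey_conj (t : ℝ) : (starRingEnd ℂ) (ee t) = ee (-t) := by
  unfold ee
  rw [← Complex.exp_conj]
  congr 1
  rw [map_mul, Complex.conj_ofReal, Complex.conj_I]
  push_cast
  ring

private theorem wey_pow (t : ℝ) (j : ℕ) : ee (t * j) = ee t ^ j := by
  induction j with
  | zero =>
    have := wey_int 0
    simpa using this
  | succ j ih =>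
    rw [pow_succ, ← ih, ← wey_add]
    congr 1
    push_cast
    ring

private theorem wey_sub_one (t : ℝ) : 4 * dI t ≤ ‖ee t - 1‖ := by
  have h1 : ee t = ee (t - round t) := by
    have h2 : t = (t - round t) + (round t : ℤ) := by ring
    conv_lhs => rw [h2]
    rw [wey_add, wey_int, mul_one]
  rw [h1]
  unfold dI
  have h3 : |t - round t| ≤ 1 / 2 := abs_sub_round t
  set x := t - round t
  have h4 : ee x = Complex.exp (Complex.I * ((2 * Real.pi * x : ℝ) : ℂ)) := by
    unfold ee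
    rw [mul_comm]
  rw [h4, Complex.norm_exp_I_mul_ofReal_sub_one]
  have h5 : 2 * Real.pi * x / 2 = Real.pi * x := by ring
  rw [h5, norm_mul, Real.norm_eq_abs, Real.norm_eq_abs, abs_two]
  have h6 : |Real.pi * x| ≤ Real.pi / 2 := by
    rw [abs_mul, abs_of_pos Real.pi_pos]
    have := mul_le_mul_of_nonneg_left h3 Real.pi_pos.le
    linarith
  have h7 := Real.mul_abs_le_abs_sin h6
  rw [abs_mul, abs_of_pos Real.pi_pos] at h7
  have h8 : 2 / Real.pi * (Real.pi * |x|) = 2 * |x| := by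
    field_simp
  rw [h8] at h7
  linarith

/-- van der Corput's identity. -/
private theorem wey_vdc (f : ℕ → ℂ) (L : ℕ) :
    Complex.normSq (∑ i ∈ range L, f i) = ∑ i ∈ range L, Complex.normSq (f i) +
      2 * (∑ k ∈ range L, ∑ j ∈ range (L - 1 - k), f (j + k + 1) * (starRingEnd ℂ) (f j)).re := by
  induction L with
  | zero => simp
  | succ L ih =>
    have h1 : ∑ k ∈ range (L + 1), ∑ j ∈ range (L + 1 - 1 - k),
        f (j + k + 1) * (starRingEnd ℂ) (f j) =
        (∑ k ∈ range L, ∑ j ∈ range (L - 1 - k), f (j + k + 1) * (starRingEnd ℂ) (f j)) +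
          f L * (starRingEnd ℂ) (∑ i ∈ range L, f i) := by
      rw [Finset.sum_range_succ]
      have h2 : L + 1 - 1 - L = 0 := by omega
      rw [h2, Finset.range_zero, Finset.sum_empty, add_zero, map_sum, Finset.mul_sum,
        ← Finset.sum_range_reflect (fun i => f L * (starRingEnd ℂ) (f i)), ← Finset.sum_add_distrib]
      refine Finset.sum_congr rfl fun k hk => ?_
      have hk' := Finset.mem_range.mp hk
      have h3 : L + 1 - 1 - k = (L - 1 - k) + 1 := by omega
      rw [h3, Finset.sum_range_succ]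
      congr 2
      congr 1
      omega
    rw [Finset.sum_range_succ, Complex.normSq_add, ih, Finset.sum_range_succ, h1, Complex.add_re]
    have h4 : ((∑ i ∈ range L, f i) * (starRingEnd ℂ) (f L)).re =
        (f L * (starRingEnd ℂ) (∑ i ∈ range L, f i)).re := by
      simp only [Complex.mul_re, Complex.conj_re, Complex.conj_im]
      ring
    rw [h4]
    ring

private theorem wey_geom (t : ℝ) (M : ℕ) :
    ‖∑ j ∈ range M, ee (t * j)‖ * (2 * dI t) ≤ 1 := by
  have h1 : (∑ j ∈ range M, ee (t * j)) * (ee t - 1) = ee t ^ M - 1 := by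
    simp only [wey_pow]
    exact geom_sum_mul (ee t) M
  have h2 : ‖∑ j ∈ range M, ee (t * j)‖ * ‖ee t - 1‖ ≤ 2 := by
    rw [← norm_mul, h1]
    calc ‖ee t ^ M - 1‖ ≤ ‖ee t ^ M‖ + ‖(1 : ℂ)‖ := norm_sub_le _ _
      _ = 2 := by rw [norm_pow, wey_norm, one_pow, norm_one]; norm_num
  have h3 := mul_le_mul_of_nonneg_left (wey_sub_one t)
    (norm_nonneg (∑ j ∈ range M, ee (t * j)))
  linarith

private theorem wey_geom' (t : ℝ) (M : ℕ) : ‖∑ j ∈ range M, ee (t * j)‖ ≤ M := by
  refine (norm_sum_le _ _).trans ?_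
  simp only [wey_norm, Finset.sum_const, Finset.card_range, nsmul_eq_mul, mul_one]
  exact le_refl _

/-- the correlations of the quadratic phases. -/
private theorem wey_corr (θ : ℝ) (a k M : ℕ) :
    ‖∑ j ∈ range M, ee (θ * ((a + (j + k + 1) : ℕ) : ℝ) ^ 2) *
      (starRingEnd ℂ) (ee (θ * ((a + j : ℕ) : ℝ) ^ 2))‖ =
    ‖∑ j ∈ range M, ee ((((k + 1 : ℕ) : ℝ) * (2 * θ)) * j)‖ := by
  have h1 : ∀ j ∈ range M, ee (θ * ((a + (j + k + 1) : ℕ) : ℝ) ^ 2) *
      (starRingEnd ℂ) (ee (θ * ((a + j : ℕ) : ℝ) ^ 2)) =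
      ee (θ * (2 * a * (k + 1) + (k + 1) ^ 2)) * ee ((((k + 1 : ℕ) : ℝ) * (2 * θ)) * j) := by
    intro j _
    rw [wey_conj, ← wey_add, ← wey_add]
    congr 1
    push_cast
    ring
  rw [Finset.sum_congr rfl h1, ← Finset.mul_sum, norm_mul, wey_norm, one_mul]

theorem thm_WEY (hVIN : St_VIN) : St_WEY := by
  intro θ a L K hK hL hS
  have hK1 : (1 : ℝ) ≤ K := by exact_mod_cast hK
  have hK0 : (0 : ℝ) < K := by linarith
  have hLr : 512 * (K : ℝ) ^ 4 ≤ L := by exact_mod_cast hL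
  have hK2 : (1 : ℝ) ≤ (K : ℝ) ^ 2 := one_le_pow₀ hK1
  have hK4 : (K : ℝ) ^ 2 ≤ (K : ℝ) ^ 4 := pow_le_pow_right₀ hK1 (by norm_num)
  have hL0 : (0 : ℝ) < L := by linarith
  set δ : ℝ := 1 / (8 * (K : ℝ) ^ 2) with hδ
  set ε : ℝ := 4 * (K : ℝ) ^ 2 / L with hε
  have hε0 : 0 < ε := by positivity
  have hδ0 : 0 < δ := by positivity
  have hεδ : ε ≤ δ / 16 := by
    rw [hε, hδ, div_div, div_le_div_iff₀ hL0 (by positivity)]
    nlinarith
  have hδ1 : δ ≤ 1 := by
    rw [hδ, div_le_one (by positivity)]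
    linarith
  have hδL : 1 < δ * L := by
    rw [hδ, div_mul_eq_mul_div, lt_div_iff₀ (by positivity)]
    linarith
  have hre : ∑ m ∈ Ico a (a + L), ee (θ * (m : ℝ) ^ 2) =
      ∑ i ∈ range L, ee (θ * ((a + i : ℕ) : ℝ) ^ 2) := by
    rw [Finset.sum_Ico_eq_sum_range, Nat.add_sub_cancel_left]
  rw [hre] at hS
  have hcard : δ * L ≤
      (((Icc 1 L).filter (fun h : ℕ => dI ((h : ℝ) * (2 * θ)) ≤ ε)).card : ℝ) := by
    by_contra hlt
    push Not at hlt
    have hsq : ((L : ℝ) / K) ^ 2 ≤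
        Complex.normSq (∑ i ∈ range L, ee (θ * ((a + i : ℕ) : ℝ) ^ 2)) := by
      rw [Complex.normSq_eq_norm_sq]
      exact pow_le_pow_left₀ (by positivity) hS 2
    rw [wey_vdc (fun i => ee (θ * ((a + i : ℕ) : ℝ) ^ 2)) L] at hsq
    have h1 : ∑ i ∈ range L, Complex.normSq (ee (θ * ((a + i : ℕ) : ℝ) ^ 2)) = L := by
      simp only [Complex.normSq_eq_norm_sq, wey_norm, one_pow, Finset.sum_const,
        Finset.card_range, nsmul_eq_mul, mul_one]
    rw [h1] at hsq
    have h2 : (∑ k ∈ range L, ∑ j ∈ range (L - 1 - k),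
        ee (θ * ((a + (j + k + 1) : ℕ) : ℝ) ^ 2) *
          (starRingEnd ℂ) (ee (θ * ((a + j : ℕ) : ℝ) ^ 2))).re ≤
        ∑ k ∈ range L, ((if dI (((k + 1 : ℕ) : ℝ) * (2 * θ)) ≤ ε then (L : ℝ) else 0) +
          1 / (2 * ε)) := by
      refine (Complex.re_le_norm _).trans ((norm_sum_le _ _).trans (Finset.sum_le_sum ?_))
      intro k hk
      have hk' := Finset.mem_range.mp hk
      rw [wey_corr]
      by_cases hd : dI (((k + 1 : ℕ) : ℝ) * (2 * θ)) ≤ ε
      · rw [if_pos hd]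
        have h3 := wey_geom' (((k + 1 : ℕ) : ℝ) * (2 * θ)) (L - 1 - k)
        have h4 : ((L - 1 - k : ℕ) : ℝ) ≤ L := by
          exact_mod_cast (by omega : L - 1 - k ≤ L)
        have h5 : 0 < 1 / (2 * ε) := by positivity
        linarith
      · rw [if_neg hd, zero_add]
        push Not at hd
        have h3 := wey_geom (((k + 1 : ℕ) : ℝ) * (2 * θ)) (L - 1 - k)
        rw [le_div_iff₀ (by positivity)]
        refine le_trans ?_ h3
        exact mul_le_mul_of_nonneg_left (by linarith) (norm_nonneg _)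
    rw [Finset.sum_add_distrib, Finset.sum_const, Finset.card_range, nsmul_eq_mul,
      ← Finset.sum_filter, Finset.sum_const, nsmul_eq_mul] at h2
    have h3 : ((range L).filter (fun k => dI (((k + 1 : ℕ) : ℝ) * (2 * θ)) ≤ ε)).card =
        ((Icc 1 L).filter (fun h : ℕ => dI ((h : ℝ) * (2 * θ)) ≤ ε)).card := by
      refine Finset.card_bij (fun k _ => k + 1) ?_ ?_ ?_
      · intro k hk
        rw [Finset.mem_filter, Finset.mem_range] at hk
        rw [Finset.mem_filter, Finset.mem_Icc]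
        exact ⟨⟨by omega, by omega⟩, hk.2⟩
      · intro k _ k' _ h
        omega
      · intro h hh
        rw [Finset.mem_filter, Finset.mem_Icc] at hh
        refine ⟨h - 1, ?_, by omega⟩
        rw [Finset.mem_filter, Finset.mem_range]
        have h4 : h - 1 + 1 = h := by omega
        rw [h4]
        exact ⟨by omega, hh.2⟩
    rw [h3] at h2
    have h4 : (((Icc 1 L).filter (fun h : ℕ => dI ((h : ℝ) * (2 * θ)) ≤ ε)).card : ℝ) * L <
        δ * L * L := mul_lt_mul_of_pos_right hlt hL0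
    have h5 : δ * L * L = (L : ℝ) ^ 2 / (8 * (K : ℝ) ^ 2) := by
      rw [hδ]
      ring
    have h6 : (L : ℝ) * (1 / (2 * ε)) = (L : ℝ) ^ 2 / (8 * (K : ℝ) ^ 2) := by
      rw [hε]
      field_simp
      ring
    have h7 : ((L : ℝ) / K) ^ 2 = 8 * ((L : ℝ) ^ 2 / (8 * (K : ℝ) ^ 2)) := by
      field_simp
    rw [h5] at h4
    rw [h6] at h2
    rw [h7] at hsq
    have h8 : 4 * ((L : ℝ) ^ 2 / (8 * (K : ℝ) ^ 2)) < L := by linarith
    rw [mul_div_assoc', div_lt_iff₀ (by positivity)] at h8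
    have h9 : (L : ℝ) < 2 * (K : ℝ) ^ 2 := by
      have h10 : (L : ℝ) * (4 * L) < L * (8 * (K : ℝ) ^ 2) := by
        calc (L : ℝ) * (4 * L) = 4 * (L : ℝ) ^ 2 := by ring
          _ < L * (8 * (K : ℝ) ^ 2) := h8
      have h11 := lt_of_mul_lt_mul_left h10 hL0.le
      linarith
    linarith
  obtain ⟨q, hq1, hq2, hq3⟩ := hVIN (2 * θ) L δ ε hε0 hεδ hδ1 hδL hcard
  refine ⟨2 * q, by omega, ?_, ?_⟩
  · have h1 : (q : ℝ) ≤ 8 * (K : ℝ) ^ 2 := by
      refine hq2.trans (le_of_eq ?_)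
      rw [hδ, one_div_one_div]
    have h2 : q ≤ 8 * K ^ 2 := by exact_mod_cast h1
    omega
  · have h1 : ((2 * q : ℕ) : ℝ) * θ = (q : ℝ) * (2 * θ) := by
      push_cast
      ring
    rw [h1]
    refine hq3.trans (le_of_eq ?_)
    rw [hδ, hε]
    field_simp
    norm_num

end Pool.Agent.BSQ
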