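import Pool.Agent.BSQ.StA

/-!
# BSQ/WSC (helper56): sectors satisfy `Win`
-/

set_option autoImplicit false

namespace Pool.Agent.BSQ

open Finset MeasureTheory Filter Topology
open scoped BigOperators
open Classical

private theorem wsc_mem {R j X : ℕ} {p : ℕ × ℕ} : p ∈ SecX R j X ↔
    1 ≤ p.1 ∧ 1 ≤ p.2 ∧ j * p.1 ≤ R * p.2 ∧ R * p.2 < (j + 1) * p.1 ∧ sq2 p < X := by
  unfold SecX
  rw [mem_filter, mem_product, mem_range, mem_range]
  constructor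
  · exact fun h => h.2
  · intro h
    have h1 : p.1 ^ 2 + p.2 ^ 2 < X := h.2.2.2.2
    have h2 : p.1 ≤ p.1 ^ 2 := Nat.le_self_pow two_ne_zero _
    have h3 : p.2 ≤ p.2 ^ 2 := Nat.le_self_pow two_ne_zero _
    exact ⟨⟨by omega, by omega⟩, h⟩

private theorem wsc_memW {R j X k0 k1 : ℕ} {p : ℕ × ℕ} : p ∈ inW (SecX R j X) k0 k1 ↔
    (1 ≤ p.1 ∧ 1 ≤ p.2 ∧ j * p.1 ≤ R * p.2 ∧ R * p.2 < (j + 1) * p.1 ∧ sq2 p < X) ∧
      k0 ≤ sq2 p ∧ sq2 p < k1 := by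
  unfold inW
  rw [mem_filter, wsc_mem]

/-- a bounded convex set of natural numbers -/
private theorem wsc_int (p : ℕ → Prop) (B : ℕ) (hB : ∀ m, p m → m < B)
    (hc : ∀ a b c, p a → p c → a ≤ b → b ≤ c → p b) : ∃ a b : ℕ, ∀ m, p m ↔ a ≤ m ∧ m < b := by
  by_cases h : ((range B).filter p).Nonempty
  · refine ⟨((range B).filter p).min' h, ((range B).filter p).max' h + 1, fun m => ?_⟩
    constructor
    · intro hm
      have h1 : m ∈ (range B).filter p := mem_filter.2 ⟨mem_range.2 (hB m hm), hm⟩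
      exact ⟨min'_le _ _ h1, Nat.lt_succ_of_le (le_max' _ _ h1)⟩
    · rintro ⟨h1, h2⟩
      exact hc _ m _ (mem_filter.1 (min'_mem _ h)).2 (mem_filter.1 (max'_mem _ h)).2 h1
        (Nat.le_of_lt_succ h2)
  · refine ⟨0, 0, fun m => ?_⟩
    constructor
    · intro hm
      exact absurd ⟨m, mem_filter.2 ⟨mem_range.2 (hB m hm), hm⟩⟩ h
    · rintro ⟨-, h2⟩
      exact absurd h2 (Nat.not_lt_zero m)

private theorem wsc_card (R j N k1 k2 q u v : ℕ) (h12 : k1 ≤ k2) (h2 : k2 ≤ N ^ 2) :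
    ((inW (SecX R j (N ^ 2)) k1 k2).filter (fun p => p.1 % q = u ∧ p.2 % q = v)).card +
      ((SecX R j k1).filter (fun p => p.1 % q = u ∧ p.2 % q = v)).card =
      ((SecX R j k2).filter (fun p => p.1 % q = u ∧ p.2 % q = v)).card := by
  rw [← card_union_of_disjoint]
  · congr 1
    ext p
    rw [mem_union, mem_filter, mem_filter, mem_filter, wsc_mem, wsc_mem, wsc_memW]
    constructor
    · rintro (⟨⟨⟨h3, h4, h5, h6, h7⟩, h8, h9⟩, h10⟩ | ⟨⟨h3, h4, h5, h6, h7⟩, h10⟩)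
      · exact ⟨⟨h3, h4, h5, h6, h9⟩, h10⟩
      · exact ⟨⟨h3, h4, h5, h6, h7.trans_le h12⟩, h10⟩
    · rintro ⟨⟨h3, h4, h5, h6, h7⟩, h10⟩
      rcases lt_or_ge (sq2 p) k1 with h | h
      · exact Or.inr ⟨⟨h3, h4, h5, h6, h⟩, h10⟩
      · exact Or.inl ⟨⟨⟨h3, h4, h5, h6, h7.trans_le h2⟩, h, h7⟩, h10⟩
  · rw [disjoint_left]
    intro p h3 h4
    rw [mem_filter, wsc_memW] at h3
    rw [mem_filter, wsc_mem] at h4
    exact absurd h4.1.2.2.2.2 (not_lt.2 h3.1.2.1)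

private theorem wsc_fin (C1 C2 A1 A2 S1 S2 D T E M : ℝ) (h1 : |C1 - A1| ≤ S1)
    (h2 : |C2 - A2| ≤ S2) (e1 : S1 ≤ M + 2) (e2 : S2 ≤ M + 2) (e3 : 4 ≤ M) (e4 : 3 * M ≤ T)
    (e5 : T ≤ E) (e6 : A2 - A1 = D) : |C2 - C1 - D| ≤ E := by
  rw [abs_le] at h1 h2 ⊢
  constructor <;> linarith [h1.1, h1.2, h2.1, h2.2]

/-- **WSC** -/
theorem thm_WSC (hS : St_SECT) (hA : St_AJ) : St_WSC := by
  intro R j N Q ell k0 H2 s hR hj hQ hk hH2 hell hN
  have ha := (hA R j hR hj).2.2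
  have hR' : (1 : ℝ) ≤ R := by exact_mod_cast hR
  have hQ' : (1 : ℝ) ≤ Q := by exact_mod_cast hQ
  have hR0 : (0 : ℝ) < R := by linarith
  have hQ0 : (0 : ℝ) < Q := by linarith
  have hN' : 16 * (Q : ℝ) ^ 2 ≤ N := by exact_mod_cast hN
  have hH2' : 96 * (R : ℝ) * N * Q ^ 3 ≤ H2 := by exact_mod_cast hH2
  have hell' : (R : ℝ) * N * ell * Q ≤ H2 * s := by exact_mod_cast hell
  refine ⟨?_, ?_, ?_⟩
  · -- sections
    intro n
    refine wsc_int (fun m => (n, m) ∈ inW (SecX R j (N ^ 2)) k0 (k0 + H2 * s)) (N ^ 2) ?_ ?_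
    · intro m hm
      have h1 := (wsc_memW.1 hm).1.2.2.2.2
      have h2 : n ^ 2 + m ^ 2 < N ^ 2 := h1
      have h3 : m ≤ m ^ 2 := Nat.le_self_pow two_ne_zero _
      omega
    · intro a b c hpa hpc hab hbc
      rw [wsc_memW] at hpa hpc ⊢
      obtain ⟨⟨a1, a2, a3, a4, a5⟩, a6, a7⟩ := hpa
      obtain ⟨⟨c1, c2, c3, c4, c5⟩, c6, c7⟩ := hpc
      simp only [sq2] at a1 a2 a3 a4 a5 a6 a7 c1 c2 c3 c4 c5 c6 c7 ⊢
      have h1 : a ^ 2 ≤ b ^ 2 := Nat.pow_le_pow_left hab 2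
      have h2 : b ^ 2 ≤ c ^ 2 := Nat.pow_le_pow_left hbc 2
      have h3 : R * a ≤ R * b := Nat.mul_le_mul_left R hab
      have h4 : R * b ≤ R * c := Nat.mul_le_mul_left R hbc
      exact ⟨⟨a1, by omega, by omega, by omega, by omega⟩, by omega, by omega⟩
  · -- few sections
    have h1 : ((inW (SecX R j (N ^ 2)) k0 (k0 + H2 * s)).image Prod.fst).card ≤ N := by
      have h2 : (inW (SecX R j (N ^ 2)) k0 (k0 + H2 * s)).image Prod.fst ⊆ range N := by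
        intro n hn
        obtain ⟨p, hp, rfl⟩ := mem_image.1 hn
        have h3 : p.1 ^ 2 + p.2 ^ 2 < N ^ 2 := (wsc_memW.1 hp).1.2.2.2.2
        rw [mem_range]
        exact lt_of_pow_lt_pow_left₀ 2 (Nat.zero_le N) (by omega)
      calc _ ≤ (range N).card := card_le_card h2
        _ = N := card_range N
    have h2 : ((((inW (SecX R j (N ^ 2)) k0 (k0 + H2 * s)).image Prod.fst).card : ℝ)) ≤ N := by
      exact_mod_cast h1
    have h3 : (N : ℝ) * ell ≤ H2 * s / (R * Q) := by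
      rw [le_div_iff₀ (mul_pos hR0 hQ0)]
      calc (N : ℝ) * ell * (R * Q) = R * N * ell * Q := by ring
        _ ≤ H2 * s := hell'
    have h4 : (H2 : ℝ) * s / (R * Q) ≤ 8 / Q * (1 / (4 * R)) * (H2 * s) := by
      have h5 : 8 / (Q : ℝ) * (1 / (4 * R)) * (H2 * s) = 2 * (H2 * s / (R * Q)) := by
        field_simp
        ring
      rw [h5]
      have h6 : (0 : ℝ) ≤ H2 * s / (R * Q) := by positivity
      linarith
    have h5 : 8 / (Q : ℝ) * (1 / (4 * R)) * (H2 * s) ≤ 8 / Q * aj R j * (H2 * s) := by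
      refine mul_le_mul_of_nonneg_right (mul_le_mul_of_nonneg_left ha ?_) ?_ <;> positivity
    calc _ ≤ (N : ℝ) * ell := mul_le_mul_of_nonneg_right h2 (Nat.cast_nonneg _)
      _ ≤ _ := h3.trans (h4.trans h5)
  · -- counting
    intro q hq hqQ u v hu hv i hi
    have hq' : (1 : ℝ) ≤ q := by exact_mod_cast hq
    have hq0 : (0 : ℝ) < q := by linarith
    have hqQ' : (q : ℝ) ≤ 16 * Q ^ 2 := by exact_mod_cast hqQ
    have hk1 : k0 + i * H2 ≤ k0 + (i + 1) * H2 := by nlinarith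
    have hk2 : k0 + (i + 1) * H2 ≤ N ^ 2 := by
      have h1 : (i + 1) * H2 ≤ H2 * s := by
        rw [mul_comm H2 s]
        exact Nat.mul_le_mul_right H2 hi
      omega
    have hc := wsc_card R j N (k0 + i * H2) (k0 + (i + 1) * H2) q u v hk1 hk2
    have h1 := hS R j q u v (k0 + i * H2) hR hj hq hu hv
    have h2 := hS R j q u v (k0 + (i + 1) * H2) hR hj hq hu hv
    have hs1 : Real.sqrt ((k0 + i * H2 : ℕ) : ℝ) ≤ N := by
      refine Real.sqrt_le_iff.2 ⟨Nat.cast_nonneg _, ?_⟩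
      exact_mod_cast hk1.trans hk2
    have hs2 : Real.sqrt ((k0 + (i + 1) * H2 : ℕ) : ℝ) ≤ N := by
      refine Real.sqrt_le_iff.2 ⟨Nat.cast_nonneg _, ?_⟩
      exact_mod_cast hk2
    have hc' : (((inW (SecX R j (N ^ 2)) (k0 + i * H2) (k0 + (i + 1) * H2)).filter
        (fun p => p.1 % q = u ∧ p.2 % q = v)).card : ℝ) =
        (((SecX R j (k0 + (i + 1) * H2)).filter (fun p => p.1 % q = u ∧ p.2 % q = v)).card : ℝ) -
        (((SecX R j (k0 + i * H2)).filter (fun p => p.1 % q = u ∧ p.2 % q = v)).card : ℝ) := by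
      rw [← hc]
      push_cast
      ring
    have e1 : 4 * Real.sqrt ((k0 + i * H2 : ℕ) : ℝ) / q + 2 ≤ 4 * (N : ℝ) / q + 2 := by
      have := div_le_div_of_nonneg_right (mul_le_mul_of_nonneg_left hs1 (by norm_num : (0 : ℝ) ≤ 4))
        hq0.le
      linarith
    have e2 : 4 * Real.sqrt ((k0 + (i + 1) * H2 : ℕ) : ℝ) / q + 2 ≤ 4 * (N : ℝ) / q + 2 := by
      have := div_le_div_of_nonneg_right (mul_le_mul_of_nonneg_left hs2 (by norm_num : (0 : ℝ) ≤ 4))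
        hq0.le
      linarith
    have e3 : (4 : ℝ) ≤ 4 * N / q := by
      rw [le_div_iff₀ hq0]
      nlinarith
    have e4 : 3 * (4 * (N : ℝ) / q) ≤ 8 / Q * (1 / (4 * R)) * H2 / (q : ℝ) ^ 2 := by
      have h7 : 3 * (4 * (N : ℝ) / q) = 12 * (N : ℝ) / q := by ring
      rw [h7]
      have h5 : 8 / (Q : ℝ) * (1 / (4 * R)) * H2 / (q : ℝ) ^ 2 = 2 * H2 / (R * Q * q) / q := by
        field_simp
        ring
      rw [h5]
      refine div_le_div_of_nonneg_right ?_ hq0.le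
      rw [le_div_iff₀ (mul_pos (mul_pos hR0 hQ0) hq0)]
      have h6 : 12 * (N : ℝ) * (R * Q * q) ≤ 12 * (N : ℝ) * (R * Q * (16 * Q ^ 2)) := by
        refine mul_le_mul_of_nonneg_left (mul_le_mul_of_nonneg_left hqQ' ?_) ?_ <;> positivity
      nlinarith
    have e5 : 8 / (Q : ℝ) * (1 / (4 * R)) * H2 / (q : ℝ) ^ 2 ≤ 8 / Q * aj R j * H2 / (q : ℝ) ^ 2 := by
      refine div_le_div_of_nonneg_right (mul_le_mul_of_nonneg_right
        (mul_le_mul_of_nonneg_left ha ?_) ?_) ?_ <;> positivity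
    have e6 : aj R j * ((k0 + (i + 1) * H2 : ℕ) : ℝ) / (q : ℝ) ^ 2 -
        aj R j * ((k0 + i * H2 : ℕ) : ℝ) / (q : ℝ) ^ 2 = aj R j * H2 / (q : ℝ) ^ 2 := by
      push_cast
      ring
    rw [hc']
    exact wsc_fin _ _ _ _ _ _ _ _ _ _ h1 h2 e1 e2 e3 e4 e5 e6

end Pool.Agent.BSQ
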