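import Pool.Agent.BSQ.StA

/-! # BSQ WST: strips satisfy `Win` -/

set_option autoImplicit false

namespace Pool.Agent.BSQ

open Finset MeasureTheory Filter Topology
open scoped BigOperators
open Classical

theorem wst_ceil (q u : ℕ) (hq : 1 ≤ q) (hu : u < q) (α : ℝ) (hα : 0 ≤ α) :
    (α - u) / q ≤ ⌈(α - u) / q⌉₊ ∧ (⌈(α - u) / q⌉₊ : ℝ) ≤ (α - u) / q + 1 := by
  have hq0 : (0 : ℝ) < q := by exact_mod_cast hq
  refine ⟨Nat.le_ceil _, ?_⟩
  by_cases h : 0 ≤ (α - u) / q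
  · exact (Nat.ceil_lt_add_one h).le
  · push Not at h
    rw [Nat.ceil_eq_zero.2 h.le, Nat.cast_zero]
    have hu' : (u : ℝ) ≤ q := by exact_mod_cast hu.le
    have h1 : (-1 : ℝ) ≤ (α - u) / q := by
      rw [le_div_iff₀ hq0]
      linarith
    linarith

/-- the number of the `n ≡ u` modulo `q` in an interval -/
theorem wst_cnt (q u : ℕ) (hq : 1 ≤ q) (hu : u < q) (α β : ℝ) (hα : 0 ≤ α) (hαβ : α ≤ β)
    (A : Finset ℕ) (hA : ∀ n : ℕ, n ∈ A ↔ n % q = u ∧ α ≤ n ∧ (n : ℝ) < β) :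
    |(A.card : ℝ) - (β - α) / q| ≤ 1 := by
  have hq0 : (0 : ℝ) < q := by exact_mod_cast hq
  have himg : A = (Ico ⌈(α - u) / q⌉₊ ⌈(β - u) / q⌉₊).image (fun t => u + q * t) := by
    ext n
    rw [hA, Finset.mem_image]
    constructor
    · rintro ⟨h1, h2, h3⟩
      refine ⟨n / q, ?_, ?_⟩
      · have h4 : (n : ℝ) = u + q * ((n / q : ℕ) : ℝ) := by
          have := Nat.mod_add_div n q
          rw [h1] at this
          exact_mod_cast this.symm
        rw [Finset.mem_Ico, Nat.ceil_le, Nat.lt_ceil, div_le_iff₀ hq0, lt_div_iff₀ hq0]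
        constructor
        · linarith
        · linarith
      · have := Nat.mod_add_div n q
        rw [h1] at this
        exact this
    · rintro ⟨t, ht, rfl⟩
      rw [Finset.mem_Ico, Nat.ceil_le, Nat.lt_ceil, div_le_iff₀ hq0, lt_div_iff₀ hq0] at ht
      refine ⟨?_, ?_, ?_⟩
      · rw [Nat.add_mul_mod_self_left, Nat.mod_eq_of_lt hu]
      · push_cast
        linarith [ht.1]
      · push_cast
        linarith [ht.2]
  have hinj : Function.Injective (fun t : ℕ => u + q * t) := by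
    intro s t h
    have h1 : q * s = q * t := by
      have : u + q * s = u + q * t := h
      omega
    exact Nat.eq_of_mul_eq_mul_left (by omega) h1
  have hle : ⌈(α - u) / q⌉₊ ≤ ⌈(β - u) / q⌉₊ := by
    apply Nat.ceil_mono
    apply div_le_div_of_nonneg_right _ hq0.le
    linarith
  rw [himg, Finset.card_image_of_injective _ hinj, Nat.card_Ico, Nat.cast_sub hle]
  obtain ⟨a1, a2⟩ := wst_ceil q u hq hu α hα
  obtain ⟨b1, b2⟩ := wst_ceil q u hq hu β (hα.trans hαβ)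
  have h3 : (β - α) / q = (β - u) / q - (α - u) / q := by
    rw [← sub_div]
    congr 1
    ring
  rw [h3, abs_le]
  constructor <;> linarith

theorem wst_thr (n k : ℕ) : ∃ t : ℕ, ∀ m : ℕ, k ≤ n ^ 2 + m ^ 2 ↔ t ≤ m := by
  have hex : ∃ t : ℕ, k ≤ n ^ 2 + t ^ 2 :=
    ⟨k, (Nat.le_self_pow two_ne_zero k).trans (Nat.le_add_left _ _)⟩
  refine ⟨Nat.find hex, fun m => ⟨fun h => Nat.find_min' hex h, fun h => ?_⟩⟩
  have h1 := Nat.find_spec hex
  have h2 := Nat.pow_le_pow_left h 2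
  omega

theorem wst_mem (N M k1 k2 n m : ℕ) : (n, m) ∈ inW (Str N M) k1 k2 ↔
    ((1 ≤ n ∧ n ≤ N) ∧ (1 ≤ m ∧ m ≤ M)) ∧ k1 ≤ n ^ 2 + m ^ 2 ∧ n ^ 2 + m ^ 2 < k2 := by
  unfold inW Str
  rw [Finset.mem_filter, Finset.mem_product, Finset.mem_Icc, Finset.mem_Icc]
  rfl

theorem wst_sec (N M k0 k1 n : ℕ) : ∃ a b : ℕ, ∀ m : ℕ,
    (n, m) ∈ inW (Str N M) k0 k1 ↔ a ≤ m ∧ m < b := by
  by_cases hn : 1 ≤ n ∧ n ≤ N
  · obtain ⟨t0, h0⟩ := wst_thr n k0
    obtain ⟨t1, h1⟩ := wst_thr n k1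
    refine ⟨max 1 t0, min (M + 1) t1, fun m => ?_⟩
    have h1' : n ^ 2 + m ^ 2 < k1 ↔ m < t1 := by
      rw [← not_le, h1, not_le]
    rw [wst_mem, h0, h1', max_le_iff, lt_min_iff]
    omega
  · refine ⟨0, 0, fun m => ?_⟩
    rw [wst_mem]
    omega

/-- the fibre over `m` -/
theorem wst_fib (N M k1 k2 q u v : ℕ) : (((inW (Str N M) k1 k2).filter
      (fun p => p.1 % q = u ∧ p.2 % q = v)).card : ℝ) =
    ∑ m ∈ (Icc 1 M).filter (fun m => m % q = v),
      (((Icc 1 N).filter (fun n => n % q = u ∧ k1 ≤ n ^ 2 + m ^ 2 ∧ n ^ 2 + m ^ 2 < k2)).card : ℝ) := by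
  rw [Finset.card_eq_sum_card_fiberwise (f := Prod.snd)
    (t := (Icc 1 M).filter (fun m => m % q = v))]
  · rw [Nat.cast_sum]
    refine Finset.sum_congr rfl fun m hm => ?_
    congr 1
    symm
    refine Finset.card_bij (fun n _ => (n, m)) ?_ ?_ ?_
    · intro n hn
      simp only [Finset.mem_filter, wst_mem, Finset.mem_Icc] at hn hm ⊢
      tauto
    · intro a _ b _ h
      exact (Prod.mk.inj h).1
    · rintro ⟨n, m'⟩ h
      simp only [Finset.mem_filter, wst_mem, Finset.mem_Icc] at h hm ⊢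
      obtain ⟨h1, h2⟩ := h
      subst h2
      exact ⟨n, by tauto, rfl⟩
  · rintro ⟨n, m⟩ hp
    have hp' := Finset.mem_filter.1 (Finset.mem_coe.1 hp)
    rw [wst_mem] at hp'
    apply Finset.mem_coe.2
    rw [Finset.mem_filter, Finset.mem_Icc]
    exact ⟨hp'.1.1.2, hp'.2.2⟩

/-- comparison of the square roots -/
theorem wst_root (k M2 H t : ℝ) (hk : 0 < k) (hM : 0 < M2) (hM2 : 2 * M2 ≤ k) (ht : 0 < t)
    (hMt : M2 ≤ t * k) (hHt : H ≤ t * k) (hH : 0 ≤ H) (ht1 : t ≤ 1) :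
    Real.sqrt k ≤ Real.sqrt (k - M2) * (1 + t) ∧ Real.sqrt (k + H) * (1 - t) ≤ Real.sqrt k := by
  have hxx : Real.sqrt k ^ 2 = k := Real.sq_sqrt hk.le
  have haa : Real.sqrt (k - M2) ^ 2 = k - M2 := Real.sq_sqrt (by linarith)
  have hbb : Real.sqrt (k + H) ^ 2 = k + H := Real.sq_sqrt (by linarith)
  constructor
  · have h1 : Real.sqrt k ^ 2 ≤ (Real.sqrt (k - M2) * (1 + t)) ^ 2 := by
      rw [mul_pow, hxx, haa]
      set y : ℝ := M2 / k with hyd
      have hy0 : 0 < y := by positivity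
      have hyM : M2 = y * k := by
        rw [hyd, div_mul_cancel₀ _ hk.ne']
      have hyt : y ≤ t := by
        rw [hyd, div_le_iff₀ hk]
        exact hMt
      have hy2 : y ≤ 1 / 2 := by
        rw [hyd, div_le_iff₀ hk]
        linarith
      rw [hyM]
      have h3 : (1 : ℝ) ≤ (1 - y) * (1 + y) ^ 2 := by nlinarith [mul_pos hy0 hy0]
      have h4 : (1 - y) * (1 + y) ^ 2 ≤ (1 - y) * (1 + t) ^ 2 := by
        apply mul_le_mul_of_nonneg_left _ (by linarith)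
        apply pow_le_pow_left₀ (by linarith)
        linarith
      calc (k : ℝ) = k * 1 := by ring
        _ ≤ k * ((1 - y) * (1 + t) ^ 2) := mul_le_mul_of_nonneg_left (h3.trans h4) hk.le
        _ = (k - y * k) * (1 + t) ^ 2 := by ring
    exact (pow_le_pow_iff_left₀ (Real.sqrt_nonneg _)
      (mul_nonneg (Real.sqrt_nonneg _) (by linarith)) two_ne_zero).1 h1
  · have h1 : (Real.sqrt (k + H) * (1 - t)) ^ 2 ≤ Real.sqrt k ^ 2 := by
      rw [mul_pow, hxx, hbb]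
      have h3 : (1 + t) * (1 - t) ^ 2 ≤ 1 := by nlinarith [mul_pos ht ht]
      calc (k + H) * (1 - t) ^ 2 ≤ (k + t * k) * (1 - t) ^ 2 :=
            mul_le_mul_of_nonneg_right (by linarith) (sq_nonneg _)
        _ = k * ((1 + t) * (1 - t) ^ 2) := by ring
        _ ≤ k * 1 := mul_le_mul_of_nonneg_left h3 hk.le
        _ = k := by ring
    exact (pow_le_pow_iff_left₀ (mul_nonneg (Real.sqrt_nonneg _) (by linarith))
      (Real.sqrt_nonneg _) two_ne_zero).1 h1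

/-- the number of points of a section in a residue class -/
theorem wst_row (N M k0 k1 k2 H q u m : ℕ) (a0 b0 : ℝ) (hq : 1 ≤ q) (hu : u < q) (hm : m ≤ M)
    (ha0 : a0 = Real.sqrt ((k0 : ℝ) - (M : ℝ) ^ 2)) (ha0p : 0 < a0) (hb0p : 0 < b0)
    (hb0 : Real.sqrt (k2 : ℝ) ≤ b0) (hb0N : b0 ≤ N) (hH : 0 < H) (hk12 : k2 = k1 + H)
    (hk01 : k0 ≤ k1) :
    (H : ℝ) / (2 * b0 * q) - 1 ≤ (((Icc 1 N).filter (fun n => n % q = u ∧ k1 ≤ n ^ 2 + m ^ 2 ∧
      n ^ 2 + m ^ 2 < k2)).card : ℝ) ∧ (((Icc 1 N).filter (fun n => n % q = u ∧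
      k1 ≤ n ^ 2 + m ^ 2 ∧ n ^ 2 + m ^ 2 < k2)).card : ℝ) ≤ H / (2 * a0 * q) + 1 := by
  have hq0 : (0 : ℝ) < q := by exact_mod_cast hq
  have hHr : (0 : ℝ) < H := by exact_mod_cast hH
  have hk12r : (k2 : ℝ) = k1 + H := by exact_mod_cast hk12
  have hk01r : (k0 : ℝ) ≤ k1 := by exact_mod_cast hk01
  have hmM : (m : ℝ) ^ 2 ≤ (M : ℝ) ^ 2 := by
    have : (m : ℝ) ≤ M := by exact_mod_cast hm
    exact pow_le_pow_left₀ (Nat.cast_nonneg m) this 2
  have hka : 0 < (k0 : ℝ) - (M : ℝ) ^ 2 := by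
    rw [ha0] at ha0p
    exact Real.sqrt_pos.1 ha0p
  set α : ℝ := Real.sqrt ((k1 : ℝ) - (m : ℝ) ^ 2) with hα
  set β : ℝ := Real.sqrt ((k2 : ℝ) - (m : ℝ) ^ 2) with hβ
  have hα0 : a0 ≤ α := by
    rw [ha0]
    exact Real.sqrt_le_sqrt (by linarith)
  have hαβ : α ≤ β := Real.sqrt_le_sqrt (by linarith)
  have hβ0 : β ≤ b0 := (Real.sqrt_le_sqrt (by linarith [sq_nonneg (m : ℝ)])).trans hb0
  have hαα : α ^ 2 = (k1 : ℝ) - (m : ℝ) ^ 2 := Real.sq_sqrt (by linarith)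
  have hββ : β ^ 2 = (k2 : ℝ) - (m : ℝ) ^ 2 := Real.sq_sqrt (by linarith)
  have hα1 : 0 < α := lt_of_lt_of_le ha0p hα0
  have hc := wst_cnt q u hq hu α β hα1.le hαβ ((Icc 1 N).filter (fun n => n % q = u ∧
    k1 ≤ n ^ 2 + m ^ 2 ∧ n ^ 2 + m ^ 2 < k2)) (by
      intro n
      rw [Finset.mem_filter, Finset.mem_Icc]
      have h1 : k1 ≤ n ^ 2 + m ^ 2 ↔ α ≤ n := by
        rw [hα, Real.sqrt_le_left (Nat.cast_nonneg n)]
        rw [sub_le_iff_le_add]
        constructor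
        · intro h
          exact_mod_cast h
        · intro h
          exact_mod_cast h
      have h2 : n ^ 2 + m ^ 2 < k2 ↔ (n : ℝ) < β := by
        rw [hβ, Real.lt_sqrt (Nat.cast_nonneg n), lt_sub_iff_add_lt]
        constructor
        · intro h
          exact_mod_cast h
        · intro h
          exact_mod_cast h
      rw [h1, h2]
      constructor
      · exact fun h => h.2
      · intro h
        refine ⟨⟨?_, ?_⟩, h⟩
        · have : (0 : ℝ) < n := lt_of_lt_of_le hα1 h.2.1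
          exact_mod_cast this
        · have : (n : ℝ) ≤ N := (h.2.2.le.trans hβ0).trans hb0N
          exact_mod_cast this)
  rw [abs_le] at hc
  have hdiff : (β - α) * (β + α) = H := by
    have : (β - α) * (β + α) = β ^ 2 - α ^ 2 := by ring
    rw [this, hββ, hαα, hk12r]
    ring
  have hβα : 0 < β + α := by linarith
  have hd : β - α = H / (β + α) := by
    rw [eq_div_iff hβα.ne', hdiff]
  have hu1 : (β - α) / q ≤ H / (2 * a0 * q) := by
    rw [hd, div_div]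
    apply div_le_div_of_nonneg_left hHr.le (by positivity)
    apply mul_le_mul_of_nonneg_right _ hq0.le
    linarith
  have hl1 : H / (2 * b0 * q) ≤ (β - α) / q := by
    rw [hd, div_div]
    apply div_le_div_of_nonneg_left hHr.le (by positivity)
    apply mul_le_mul_of_nonneg_right _ hq0.le
    linarith
  constructor
  · linarith [hc.1]
  · linarith [hc.2]

/-- the bounds for the main terms -/
theorem wst_num (M N Q q H x a0 b0 t : ℝ) (hQ : 1 ≤ Q) (hq : 1 ≤ q) (hqQ : q ≤ 16 * Q ^ 2)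
    (hM : 32 * Q ^ 3 ≤ M) (hH : 64 * N * Q ^ 3 ≤ H) (hx : 0 < x) (hxN : x ≤ N) (ha : 0 < a0)
    (hb : 0 < b0) (hbN : b0 ≤ N) (ht : t = 1 / Q) (r1 : x ≤ a0 * (1 + t)) (r2 : b0 * (1 - t) ≤ x) :
    1 ≤ M / q * (1 / 2 * t) ∧ H / (2 * a0 * q) + 1 ≤ H / (2 * x * q) * (1 + 3 / 2 * t) ∧
      H / (2 * x * q) * (1 - 3 / 2 * t) ≤ H / (2 * b0 * q) - 1 ∧ 0 ≤ H / (2 * b0 * q) - 1 := by
  have hQ0 : 0 < Q := by linarith
  have hq0 : 0 < q := by linarith
  have hN0 : 0 < N := by linarith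
  have hH0 : 0 < H := by
    have : 0 < 64 * N * Q ^ 3 := by positivity
    linarith
  have e1 : 1 ≤ M / q * (1 / 2 * t) := by
    have : M / q * (1 / 2 * t) = M / (q * (2 * Q)) := by
      rw [ht]
      field_simp
    rw [this, le_div_iff₀ (by positivity), one_mul]
    calc q * (2 * Q) ≤ (16 * Q ^ 2) * (2 * Q) := mul_le_mul_of_nonneg_right hqQ (by positivity)
      _ = 32 * Q ^ 3 := by ring
      _ ≤ M := hM
  have e2 : 1 ≤ H / (2 * x * q) * (1 / 2 * t) := by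
    have : H / (2 * x * q) * (1 / 2 * t) = H / (2 * x * q * (2 * Q)) := by
      rw [ht]
      field_simp
    rw [this, le_div_iff₀ (by positivity), one_mul]
    have h1 : x * q ≤ N * (16 * Q ^ 2) := mul_le_mul hxN hqQ hq0.le hN0.le
    calc 2 * x * q * (2 * Q) = 4 * Q * (x * q) := by ring
      _ ≤ 4 * Q * (N * (16 * Q ^ 2)) := mul_le_mul_of_nonneg_left h1 (by positivity)
      _ = 64 * N * Q ^ 3 := by ring
      _ ≤ H := hH
  refine ⟨e1, ?_, ?_, ?_⟩
  · have h1 : H / (2 * a0 * q) ≤ H / (2 * x * q) * (1 + t) := by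
      rw [div_mul_eq_mul_div, div_le_div_iff₀ (by positivity) (by positivity)]
      have : H * (2 * x * q) ≤ H * (2 * (a0 * (1 + t)) * q) := by
        apply mul_le_mul_of_nonneg_left _ hH0.le
        apply mul_le_mul_of_nonneg_right _ hq0.le
        linarith
      calc H * (2 * x * q) ≤ H * (2 * (a0 * (1 + t)) * q) := this
        _ = _ := by ring
    have h2 : H / (2 * x * q) * (1 + 3 / 2 * t) = H / (2 * x * q) * (1 + t) +
      H / (2 * x * q) * (1 / 2 * t) := by ring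
    linarith
  · have h1 : H / (2 * x * q) * (1 - t) ≤ H / (2 * b0 * q) := by
      rw [div_mul_eq_mul_div, div_le_div_iff₀ (by positivity) (by positivity)]
      have : H * (2 * (b0 * (1 - t)) * q) ≤ H * (2 * x * q) := by
        apply mul_le_mul_of_nonneg_left _ hH0.le
        apply mul_le_mul_of_nonneg_right _ hq0.le
        linarith
      calc H * (1 - t) * (2 * b0 * q) = H * (2 * (b0 * (1 - t)) * q) := by ring
        _ ≤ H * (2 * x * q) := this
    have h2 : H / (2 * x * q) * (1 - 3 / 2 * t) = H / (2 * x * q) * (1 - t) -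
      H / (2 * x * q) * (1 / 2 * t) := by ring
    linarith
  · rw [sub_nonneg, le_div_iff₀ (by positivity), one_mul]
    have h2 : Q ^ 2 ≤ Q ^ 3 := pow_le_pow_right₀ hQ (by norm_num)
    have h1 : b0 * q ≤ N * (16 * Q ^ 2) := mul_le_mul hbN hqQ hq0.le hN0.le
    have h3 : N * (16 * Q ^ 2) ≤ N * (16 * Q ^ 3) :=
      mul_le_mul_of_nonneg_left (by linarith) hN0.le
    have h4 : 0 ≤ N * (16 * Q ^ 3) := by positivity
    linarith

/-- the final estimate -/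
theorem wst_fin (c1 c2 A B C S t : ℝ) (hc1 : 0 < c1) (hc2 : 0 < c2) (ht : 0 < t) (ht1 : t ≤ 1)
    (e1 : 1 ≤ c1 * (1 / 2 * t)) (hA1 : c1 - 1 ≤ A) (hA2 : A ≤ c1 + 1)
    (hB0 : 0 ≤ B) (hB : c2 * (1 - 3 / 2 * t) ≤ B) (hC0 : 0 ≤ C) (hC : C ≤ c2 * (1 + 3 / 2 * t))
    (h1 : A * B ≤ S) (h2 : S ≤ A * C) :
    |S - c1 * c2| ≤ 8 * t * (c1 * c2) := by
  have hcc : 0 < c1 * c2 := mul_pos hc1 hc2
  rw [abs_le]
  constructor
  · have g1 : c1 * (1 - 1 / 2 * t) * (c2 * (1 - 3 / 2 * t)) ≤ A * B := by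
      calc c1 * (1 - 1 / 2 * t) * (c2 * (1 - 3 / 2 * t)) ≤ c1 * (1 - 1 / 2 * t) * B := by
            apply mul_le_mul_of_nonneg_left hB
            apply mul_nonneg hc1.le
            linarith
        _ ≤ A * B := by
            apply mul_le_mul_of_nonneg_right _ hB0
            linarith
    have g2 : c1 * (1 - 1 / 2 * t) * (c2 * (1 - 3 / 2 * t)) =
        c1 * c2 * (1 - 2 * t + 3 / 4 * t ^ 2) := by ring
    have g3 : c1 * c2 * (1 - 8 * t) ≤ c1 * c2 * (1 - 2 * t + 3 / 4 * t ^ 2) := by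
      apply mul_le_mul_of_nonneg_left _ hcc.le
      nlinarith
    rw [g2] at g1
    linarith
  · have g1 : A * C ≤ c1 * (1 + 1 / 2 * t) * (c2 * (1 + 3 / 2 * t)) := by
      apply mul_le_mul _ hC hC0 (by positivity)
      linarith
    have g2 : c1 * (1 + 1 / 2 * t) * (c2 * (1 + 3 / 2 * t)) =
        c1 * c2 * (1 + 2 * t + 3 / 4 * t ^ 2) := by ring
    have g3 : c1 * c2 * (1 + 2 * t + 3 / 4 * t ^ 2) ≤ c1 * c2 * (1 + 8 * t) := by
      apply mul_le_mul_of_nonneg_left _ hcc.le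
      nlinarith
    rw [g2] at g1
    linarith

theorem wst_few (N M Q ell k0 H : ℕ) (x a0 b0 : ℝ) (hx : x = Real.sqrt k0)
    (ha0 : a0 = Real.sqrt ((k0 : ℝ) - (M : ℝ) ^ 2)) (hb0 : b0 = Real.sqrt ((k0 : ℝ) + H))
    (hQ : 1 ≤ Q) (hM1 : 1 ≤ M) (hM2 : 2 * M ^ 2 ≤ k0) (hHM : H ≤ M ^ 2) (hNM : N ≤ M ^ 2)
    (hell : ell * M * Q ≤ H) (hxN : x ≤ N) (hb0N : b0 ≤ N) :
    (((inW (Str N M) k0 (k0 + H)).image Prod.fst).card : ℝ) * ell ≤
      8 / Q * (M / (2 * x)) * H := by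
  have hM0 : (0 : ℝ) < M := by exact_mod_cast hM1
  have hQ0 : (0 : ℝ) < Q := by exact_mod_cast hQ
  have hM2r : 2 * (M : ℝ) ^ 2 ≤ k0 := by exact_mod_cast hM2
  have hHMr : (H : ℝ) ≤ (M : ℝ) ^ 2 := by exact_mod_cast hHM
  have hNMr : (N : ℝ) ≤ (M : ℝ) ^ 2 := by exact_mod_cast hNM
  have hellr : (ell : ℝ) * M * Q ≤ H := by exact_mod_cast hell
  have hMsq : 0 < (M : ℝ) ^ 2 := by positivity
  have hk0 : (0 : ℝ) < k0 := by linarith
  have hH0 : (0 : ℝ) ≤ H := Nat.cast_nonneg H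
  have hx0 : 0 < x := by
    rw [hx]
    exact Real.sqrt_pos.2 hk0
  have ha0p : 0 < a0 := by
    rw [ha0]
    exact Real.sqrt_pos.2 (by linarith)
  have haa : a0 ^ 2 = (k0 : ℝ) - (M : ℝ) ^ 2 := by
    rw [ha0]
    exact Real.sq_sqrt (by linarith)
  have hbb : b0 ^ 2 = (k0 : ℝ) + H := by
    rw [hb0]
    exact Real.sq_sqrt (by linarith)
  have hab : a0 ≤ b0 := by
    rw [ha0, hb0]
    exact Real.sqrt_le_sqrt (by linarith)
  have hxb : x ≤ b0 := by
    rw [hx, hb0]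
    exact Real.sqrt_le_sqrt (by linarith)
  have hsub : (inW (Str N M) k0 (k0 + H)).image Prod.fst ⊆
      (range (N + 1)).filter (fun n : ℕ => n % 1 = 0 ∧ a0 ≤ n ∧ (n : ℝ) < b0) := by
    intro n hn
    rw [Finset.mem_image] at hn
    obtain ⟨⟨n', m⟩, hp, rfl⟩ := hn
    rw [wst_mem] at hp
    obtain ⟨⟨⟨h1, h2⟩, h3, h4⟩, h5, h6⟩ := hp
    have h5r : (k0 : ℝ) ≤ (n' : ℝ) ^ 2 + (m : ℝ) ^ 2 := by exact_mod_cast h5
    have h6r : (n' : ℝ) ^ 2 + (m : ℝ) ^ 2 < (k0 : ℝ) + H := by exact_mod_cast h6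
    have h4r : (m : ℝ) ^ 2 ≤ (M : ℝ) ^ 2 := by
      have : (m : ℝ) ≤ M := by exact_mod_cast h4
      exact pow_le_pow_left₀ (Nat.cast_nonneg m) this 2
    rw [Finset.mem_filter, Finset.mem_range]
    refine ⟨by omega, Nat.mod_one _, ?_, ?_⟩
    · rw [ha0]
      exact Real.sqrt_le_iff.2 ⟨Nat.cast_nonneg _, by linarith⟩
    · rw [hb0, Real.lt_sqrt (Nat.cast_nonneg _)]
      linarith [sq_nonneg (m : ℝ)]
  have hcard : (((inW (Str N M) k0 (k0 + H)).image Prod.fst).card : ℝ) ≤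
      (((range (N + 1)).filter (fun n : ℕ => n % 1 = 0 ∧ a0 ≤ n ∧ (n : ℝ) < b0)).card : ℝ) := by
    exact_mod_cast Finset.card_le_card hsub
  have h1 := wst_cnt 1 0 le_rfl one_pos a0 b0 ha0p.le hab
    ((range (N + 1)).filter (fun n : ℕ => n % 1 = 0 ∧ a0 ≤ n ∧ (n : ℝ) < b0)) (by
      intro n
      rw [Finset.mem_filter, Finset.mem_range]
      constructor
      · exact fun h => h.2
      · intro h
        refine ⟨?_, h⟩
        have : (n : ℝ) < N := lt_of_lt_of_le h.2.2 hb0N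
        have : n < N := by exact_mod_cast this
        omega)
  rw [Nat.cast_one, div_one] at h1
  have h2 := (abs_le.1 h1).2
  have h3 : (((inW (Str N M) k0 (k0 + H)).image Prod.fst).card : ℝ) ≤ b0 - a0 + 1 := by
    linarith
  have h4 : (b0 - a0) * x ≤ H + (M : ℝ) ^ 2 := by
    have h5 : (b0 - a0) * (b0 + a0) = H + (M : ℝ) ^ 2 := by
      have : (b0 - a0) * (b0 + a0) = b0 ^ 2 - a0 ^ 2 := by ring
      rw [this, hbb, haa]
      ring
    calc (b0 - a0) * x ≤ (b0 - a0) * (b0 + a0) :=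
          mul_le_mul_of_nonneg_left (by linarith) (by linarith)
      _ = _ := h5
  have h6 : (b0 - a0 + 1) * x ≤ 3 * (M : ℝ) ^ 2 := by
    linarith
  have hellr0 : (0 : ℝ) ≤ ell := Nat.cast_nonneg ell
  have h7 : (((inW (Str N M) k0 (k0 + H)).image Prod.fst).card : ℝ) * ell ≤
      (b0 - a0 + 1) * ell := mul_le_mul_of_nonneg_right h3 hellr0
  refine h7.trans ?_
  have h8 : (8 : ℝ) / Q * (M / (2 * x)) * H = 4 * M * H / (Q * x) := by
    field_simp
    ring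
  rw [h8, le_div_iff₀ (by positivity)]
  calc (b0 - a0 + 1) * ell * (Q * x) = ((b0 - a0 + 1) * x) * (ell * Q) := by ring
    _ ≤ (3 * (M : ℝ) ^ 2) * (ell * Q) := mul_le_mul_of_nonneg_right h6 (by positivity)
    _ = 3 * M * (ell * M * Q) := by ring
    _ ≤ 3 * M * H := mul_le_mul_of_nonneg_left hellr (by positivity)
    _ ≤ 4 * M * H := by
      have : 0 ≤ (M : ℝ) * H := mul_nonneg hM0.le hH0
      linarith

theorem thm_WST : St_WST := by
  intro N M Q ell k0 H2 s hs hQ hN hMQ hM2 hM hH2 hHM hNM hell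
  have hQr : (1 : ℝ) ≤ Q := by exact_mod_cast hQ
  have hQ0 : (0 : ℝ) < Q := by linarith
  have hM1 : 1 ≤ M := by
    have : 1 ≤ Q ^ 3 := Nat.one_le_pow _ _ hQ
    omega
  have hM0 : (0 : ℝ) < M := by exact_mod_cast hM1
  have hMsq : 0 < (M : ℝ) ^ 2 := by positivity
  have hM2r : 2 * (M : ℝ) ^ 2 ≤ k0 := by exact_mod_cast hM2
  have hk0 : (0 : ℝ) < k0 := by linarith
  have hNr : (k0 : ℝ) + H2 * s ≤ (N : ℝ) ^ 2 := by exact_mod_cast hN
  have hN0 : (0 : ℝ) ≤ N := Nat.cast_nonneg N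
  have hH0 : (0 : ℝ) ≤ (H2 : ℝ) * s := by positivity
  have hMQr : ((M : ℝ) ^ 2 + H2 * s) * Q ≤ k0 := by exact_mod_cast hMQ
  have hMr : 32 * (Q : ℝ) ^ 3 ≤ M := by exact_mod_cast hM
  have hH2r : 64 * (N : ℝ) * (Q : ℝ) ^ 3 ≤ H2 := by exact_mod_cast hH2
  have hx0 : 0 < Real.sqrt k0 := Real.sqrt_pos.2 hk0
  have hxN : Real.sqrt k0 ≤ N := Real.sqrt_le_iff.2 ⟨hN0, by linarith⟩
  have hb0N : Real.sqrt ((k0 : ℝ) + H2 * s) ≤ N := Real.sqrt_le_iff.2 ⟨hN0, hNr⟩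
  refine ⟨fun n => wst_sec N M k0 _ n, ?_, ?_⟩
  · have := wst_few N M Q ell k0 (H2 * s) (Real.sqrt k0) _ _ rfl rfl rfl hQ hM1 hM2 hHM hNM hell
      hxN (by push_cast; exact hb0N)
    rw [Nat.cast_mul] at this
    exact this
  · intro q hq hqQ u v hu hv i hi
    have hqr : (1 : ℝ) ≤ q := by exact_mod_cast hq
    have hq0 : (0 : ℝ) < q := by linarith
    have hqQr : (q : ℝ) ≤ 16 * (Q : ℝ) ^ 2 := by exact_mod_cast hqQ
    have hN1 : (0 : ℝ) < N := lt_of_lt_of_le hx0 hxN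
    have hH2p : (0 : ℝ) < H2 := by
      have : 0 < 64 * (N : ℝ) * (Q : ℝ) ^ 3 := by positivity
      linarith
    have ha0p : 0 < Real.sqrt ((k0 : ℝ) - (M : ℝ) ^ 2) := Real.sqrt_pos.2 (by linarith)
    have hb0p : 0 < Real.sqrt ((k0 : ℝ) + H2 * s) := Real.sqrt_pos.2 (by linarith)
    have ht0 : (0 : ℝ) < 1 / Q := by positivity
    have ht1 : (1 : ℝ) / Q ≤ 1 := by
      rw [div_le_one hQ0]
      exact hQr
    obtain ⟨r1, r2⟩ := wst_root k0 ((M : ℝ) ^ 2) (H2 * s) (1 / Q) hk0 hMsq hM2r ht0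
      (by
        rw [div_mul_eq_mul_div, one_mul, le_div_iff₀ hQ0]
        have : 0 ≤ (H2 : ℝ) * s * Q := by positivity
        linarith)
      (by
        rw [div_mul_eq_mul_div, one_mul, le_div_iff₀ hQ0]
        have : 0 ≤ (M : ℝ) ^ 2 * Q := by positivity
        linarith) hH0 ht1
    obtain ⟨e1, e2, e3, e4⟩ := wst_num M N Q q H2 (Real.sqrt k0) _ _ (1 / Q) hQr hqr hqQr hMr hH2r
      hx0 hxN ha0p hb0p hb0N rfl r1 r2
    have hk2s : ((k0 + (i + 1) * H2 : ℕ) : ℝ) ≤ k0 + H2 * s := by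
      push_cast
      have h1 : ((i : ℝ) + 1) ≤ s := by exact_mod_cast hi
      have h2 : ((i : ℝ) + 1) * H2 ≤ s * H2 := mul_le_mul_of_nonneg_right h1 hH2p.le
      linarith
    have hrow : ∀ m ∈ (Icc 1 M).filter (fun m => m % q = v), _ := fun m hm =>
      wst_row N M k0 (k0 + i * H2) (k0 + (i + 1) * H2) H2 q u m
        (Real.sqrt ((k0 : ℝ) - (M : ℝ) ^ 2)) (Real.sqrt ((k0 : ℝ) + H2 * s)) hq hu
        (Finset.mem_Icc.1 (Finset.mem_filter.1 hm).1).2 rfl ha0p hb0p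
        (Real.sqrt_le_sqrt hk2s) hb0N (by exact_mod_cast hH2p) (by ring) (by omega)
    have hlo := Finset.sum_le_sum fun m hm => (hrow m hm).1
    have hup := Finset.sum_le_sum fun m hm => (hrow m hm).2
    rw [Finset.sum_const, nsmul_eq_mul] at hup hlo
    have hm := wst_cnt q v hq hv 1 (M + 1) zero_le_one (by linarith)
      ((Icc 1 M).filter (fun m => m % q = v)) (by
        intro m
        rw [Finset.mem_filter, Finset.mem_Icc]
        have h1 : (1 : ℝ) ≤ m ↔ 1 ≤ m := by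
          rw [Nat.one_le_cast]
        have h2 : (m : ℝ) < M + 1 ↔ m ≤ M := by
          rw [← Nat.lt_succ_iff]
          constructor
          · intro h
            exact_mod_cast h
          · intro h
            exact_mod_cast h
        rw [h1, h2]
        tauto)
    rw [add_sub_cancel_right, abs_le] at hm
    have hX : (M : ℝ) / (2 * Real.sqrt k0) * H2 / (q : ℝ) ^ 2 =
        (M / q) * (H2 / (2 * Real.sqrt k0 * q)) := by
      field_simp
    have hX' : (8 : ℝ) / Q * ((M : ℝ) / (2 * Real.sqrt k0)) * H2 / (q : ℝ) ^ 2 =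
        8 * (1 / Q) * ((M / q) * (H2 / (2 * Real.sqrt k0 * q))) := by
      field_simp
    rw [hX, hX', wst_fib]
    exact wst_fin (M / q) (H2 / (2 * Real.sqrt k0 * q)) _ _ _ _ (1 / Q) (by positivity)
      (by positivity) ht0 ht1 e1 (by linarith [hm.1]) (by linarith [hm.2]) e4 e3 (by positivity) e2
      hlo hup

end Pool.Agent.BSQ
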