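import Pool.Agent.BSQ.AES
import Pool.Agent.BSQ.AJ
import Pool.Agent.BSQ.AUTOC
import Pool.Agent.BSQ.AEC
import Pool.Agent.BSQ.CHN
import Pool.Agent.BSQ.COMB
import Pool.Agent.BSQ.DAB
import Pool.Agent.BSQ.DBR
import Pool.Agent.BSQ.DFN
import Pool.Agent.BSQ.ENER
import Pool.Agent.BSQ.FB
import Pool.Agent.BSQ.FSC
import Pool.Agent.BSQ.FSS
import Pool.Agent.BSQ.INT
import Pool.Agent.BSQ.LEMS
import Pool.Agent.BSQ.MAJ
import Pool.Agent.BSQ.MSC
import Pool.Agent.BSQ.MSS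
import Pool.Agent.BSQ.NRM
import Pool.Agent.BSQ.PWC
import Pool.Agent.BSQ.PWS
import Pool.Agent.BSQ.RWF
import Pool.Agent.BSQ.SCH
import Pool.Agent.BSQ.SECT
import Pool.Agent.BSQ.STR
import Pool.Agent.BSQ.STRUCT
import Pool.Agent.BSQ.SYM
import Pool.Agent.BSQ.TAU
import Pool.Agent.BSQ.TRF
import Pool.Agent.BSQ.UNIF
import Pool.Agent.BSQ.UNS
import Pool.Agent.BSQ.USC
import Pool.Agent.BSQ.VB
import Pool.Agent.BSQ.VIN
import Pool.Agent.BSQ.WDC
import Pool.Agent.BSQ.WDS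
import Pool.Agent.BSQ.WEY
import Pool.Agent.BSQ.WSC
import Pool.Agent.BSQ.WST
import Pool.Agent.BSQ.MAIN

/-!
# BSQ: assembly (helper44)
-/

set_option autoImplicit false

namespace Pool.Agent.BSQ

open Finset MeasureTheory Filter Topology
open scoped BigOperators
open Classical

theorem all_WEY : St_WEY := thm_WEY thm_VIN
theorem all_UNIF : St_UNIF := thm_UNIF thm_FB (thm_AUTOC thm_FB) thm_ENER thm_MAJ (thm_VB all_WEY)
theorem all_UNS : St_UNS := thm_UNS all_UNIF thm_NRM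
theorem all_USC : St_USC := thm_USC all_UNIF thm_NRM thm_AJ
theorem all_LEMS : St_LEMS := thm_LEMS all_WEY
theorem all_WDS : St_WDS := thm_WDS all_LEMS thm_WST
theorem all_WDC : St_WDC := thm_WDC all_LEMS thm_WST (thm_WSC thm_SECT thm_AJ) thm_AJ
theorem all_COMB : St_COMB := thm_COMB thm_STRUCT (thm_STR thm_FB thm_NRM) thm_NRM
theorem all_FSS : St_FSS := thm_FSS all_COMB all_UNS all_WDS thm_MSS
theorem all_FSC : St_FSC := thm_FSC all_COMB all_UNS all_USC all_WDC thm_MSS (thm_MSC thm_AJ thm_SECT)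
theorem all_INT : St_INT := thm_INT thm_SECT thm_AJ
theorem all_AES : St_AES := thm_AES (thm_PWS all_FSS thm_TRF thm_RWF) all_INT
theorem all_AEC : St_AEC := thm_AEC (thm_PWC all_FSC thm_TRF thm_RWF) all_INT
theorem all_DBR : St_DBR := thm_DBR thm_AJ thm_SECT
theorem all_DFN : St_DFN := thm_DFN all_DBR (thm_TAU (thm_SCH thm_SYM)) all_INT
theorem all_MAIN : St_MAIN := thm_MAIN all_AES thm_CHN all_AEC (thm_DAB all_INT) all_DFN

end Pool.Agent.BSQ
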