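import Pool.Agent.BSQ.StB

/-!
# BSQ: unweighted averages, uniformity and the converse direction (helper44)
-/

set_option autoImplicit false

namespace Pool.Agent.BSQ

open Finset MeasureTheory Filter Topology
open scoped BigOperators
open Classical

/-- `U(N, M) = (1/(N M)) ∑_{n ≤ N, m ≤ M} F(n² + m²)`. -/
noncomputable def UF (F : ℕ → ℝ) (N M : ℕ) : ℝ :=
  1 / ((N : ℝ) * M) * ∑ n ∈ Icc 1 N, ∑ m ∈ Icc 1 M, F (n ^ 2 + m ^ 2)

/-- uniformity for the unweighted averages. -/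
def UnifU (F : ℕ → ℝ) (c1 c2 : ℝ) : Prop :=
  ∀ ε : ℝ, 0 < ε → ∃ N0 : ℕ, ∀ N : ℕ, N0 ≤ N → ∀ M M' : ℕ,
    (N : ℝ) ^ c1 ≤ M → (M : ℝ) ≤ (N : ℝ) ^ c2 → (N : ℝ) ^ c1 ≤ M' → (M' : ℝ) ≤ (N : ℝ) ^ c2 →
      |UF F N M - UF F N M'| ≤ ε

private theorem cv_abel (a : ℕ → ℝ) : ∀ N : ℕ, ∑ n ∈ range (N + 1), a n =
    (∑ n ∈ range (N + 1), ((n : ℝ) + 1) * a n) / ((N : ℝ) + 1) +
      ∑ k ∈ range N, (∑ n ∈ range (k + 1), ((n : ℝ) + 1) * a n) / (((k : ℝ) + 1) * ((k : ℝ) + 2)) := by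
  intro N
  induction N with
  | zero => simp
  | succ N ih =>
    rw [sum_range_succ, ih, sum_range_succ (fun n => ((n : ℝ) + 1) * a n) (N + 1),
      sum_range_succ (fun k => (∑ n ∈ range (k + 1), ((n : ℝ) + 1) * a n) /
        (((k : ℝ) + 1) * ((k : ℝ) + 2))) N]
    push_cast
    have h1 : (N : ℝ) + 1 ≠ 0 := by positivity
    have h2 : (N : ℝ) + 2 ≠ 0 := by positivity
    have h3 : (N : ℝ) + 1 + 1 ≠ 0 := by positivity
    field_simp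
    ring

private theorem cv_abel2 (a : ℕ → ℝ) : ∀ N : ℕ, ∑ n ∈ range (N + 1), ((n : ℝ) + 1) * a n =
    ((N : ℝ) + 1) * (∑ n ∈ range (N + 1), a n) - ∑ k ∈ range N, ∑ n ∈ range (k + 1), a n := by
  intro N
  induction N with
  | zero => simp
  | succ N ih =>
    rw [sum_range_succ, ih, sum_range_succ (fun n => a n) (N + 1),
      sum_range_succ (fun k => ∑ n ∈ range (k + 1), a n) N]
    push_cast
    ring

private theorem cv_Icc (h : ℕ → ℝ) (N : ℕ) : ∑ n ∈ Icc 1 N, h n = ∑ n ∈ range N, h (n + 1) := by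
  rw [Finset.range_eq_Ico, Finset.sum_Ico_add' h 0 N 1]
  refine sum_congr ?_ fun _ _ => rfl
  ext x
  simp only [mem_Icc, mem_Ico]
  omega

/-- Abel summation: `U` in terms of `W`. -/
theorem cv_U (F : ℕ → ℝ) (N M : ℕ) (hM : 1 ≤ M) : UF F (N + 1) M = WF F (N + 1) M / 2 +
    1 / ((N : ℝ) + 1) * ∑ k ∈ range N, ((k : ℝ) + 1) / ((k : ℝ) + 2) * (WF F (k + 1) M / 2) := by
  have hM0 : (M : ℝ) ≠ 0 := by positivity
  set a : ℕ → ℝ := fun n => ∑ m ∈ Icc 1 M, F ((n + 1) ^ 2 + m ^ 2) with ha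
  have hW : ∀ k : ℕ, WF F (k + 1) M =
      2 / (((k : ℝ) + 1) ^ 2 * M) * ∑ n ∈ range (k + 1), ((n : ℝ) + 1) * a n := by
    intro k
    unfold WF
    rw [cv_Icc]
    push_cast
    congr 1
    refine sum_congr rfl fun n _ => ?_
    rw [ha, mul_sum]
  have hU : UF F (N + 1) M = 1 / (((N : ℝ) + 1) * M) * ∑ n ∈ range (N + 1), a n := by
    unfold UF
    rw [cv_Icc]
    push_cast
    rfl
  rw [hU, cv_abel, mul_add, hW]
  have h1 : (N : ℝ) + 1 ≠ 0 := by positivity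
  congr 1
  · field_simp
  · rw [mul_sum, mul_sum]
    refine sum_congr rfl fun k _ => ?_
    rw [hW]
    have h2 : (k : ℝ) + 1 ≠ 0 := by positivity
    have h3 : (k : ℝ) + 2 ≠ 0 := by positivity
    field_simp

/-- Abel summation: `W` in terms of `U`. -/
theorem cv_W (F : ℕ → ℝ) (N M : ℕ) (hM : 1 ≤ M) : WF F (N + 1) M = 2 * UF F (N + 1) M -
    2 / ((N : ℝ) + 1) ^ 2 * ∑ k ∈ range N, ((k : ℝ) + 1) * UF F (k + 1) M := by
  have hM0 : (M : ℝ) ≠ 0 := by positivity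
  set a : ℕ → ℝ := fun n => ∑ m ∈ Icc 1 M, F ((n + 1) ^ 2 + m ^ 2) with ha
  have hW : WF F (N + 1) M =
      2 / (((N : ℝ) + 1) ^ 2 * M) * ∑ n ∈ range (N + 1), ((n : ℝ) + 1) * a n := by
    unfold WF
    rw [cv_Icc]
    push_cast
    congr 1
    refine sum_congr rfl fun n _ => ?_
    rw [ha, mul_sum]
  have hU : ∀ k : ℕ, UF F (k + 1) M = 1 / (((k : ℝ) + 1) * M) * ∑ n ∈ range (k + 1), a n := by
    intro k
    unfold UF
    rw [cv_Icc]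
    push_cast
    rfl
  rw [hW, cv_abel2, hU]
  have h1 : (N : ℝ) + 1 ≠ 0 := by positivity
  have h4 : ∑ k ∈ range N, ((k : ℝ) + 1) * UF F (k + 1) M =
      1 / (M : ℝ) * ∑ k ∈ range N, ∑ n ∈ range (k + 1), a n := by
    rw [mul_sum]
    refine sum_congr rfl fun k _ => ?_
    rw [hU]
    have h2 : (k : ℝ) + 1 ≠ 0 := by positivity
    field_simp
  rw [h4]
  field_simp

theorem cv_Ub (F : ℕ → ℝ) (hF : ∀ k, |F k| ≤ 1) (N M : ℕ) : |UF F N M| ≤ 1 := by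
  unfold UF
  rw [abs_mul]
  have h1 : |∑ n ∈ Icc 1 N, ∑ m ∈ Icc 1 M, F (n ^ 2 + m ^ 2)| ≤ (N : ℝ) * M := by
    refine (abs_sum_le_sum_abs _ _).trans ?_
    calc ∑ n ∈ Icc 1 N, |∑ m ∈ Icc 1 M, F (n ^ 2 + m ^ 2)| ≤ ∑ n ∈ Icc 1 N, (M : ℝ) := by
          refine sum_le_sum fun n _ => (abs_sum_le_sum_abs _ _).trans ?_
          calc ∑ m ∈ Icc 1 M, |F (n ^ 2 + m ^ 2)| ≤ ∑ m ∈ Icc 1 M, (1 : ℝ) :=
                sum_le_sum fun m _ => hF _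
            _ = M := by simp
      _ = (N : ℝ) * M := by simp
  rcases eq_or_ne ((N : ℝ) * M) 0 with h0 | h0
  · rw [h0]; simp
  · have h2 : 0 < (N : ℝ) * M := lt_of_le_of_ne (by positivity) (Ne.symm h0)
    rw [abs_of_pos (by positivity), one_div, inv_mul_le_iff₀ h2, mul_one]
    exact h1

theorem cv_Wb (F : ℕ → ℝ) (hF : ∀ k, |F k| ≤ 1) (N M : ℕ) (hM : 1 ≤ M) : |WF F (N + 1) M| ≤ 4 := by
  rw [cv_W F N M hM]
  have h1 := cv_Ub F hF (N + 1) M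
  have h2 : |2 / ((N : ℝ) + 1) ^ 2 * ∑ k ∈ range N, ((k : ℝ) + 1) * UF F (k + 1) M| ≤ 2 := by
    rw [abs_mul, abs_of_nonneg (by positivity)]
    have h3 : |∑ k ∈ range N, ((k : ℝ) + 1) * UF F (k + 1) M| ≤ ((N : ℝ) + 1) ^ 2 := by
      refine (abs_sum_le_sum_abs _ _).trans ?_
      calc ∑ k ∈ range N, |((k : ℝ) + 1) * UF F (k + 1) M| ≤ ∑ k ∈ range N, ((N : ℝ) + 1) := by
            refine sum_le_sum fun k hk => ?_
            rw [abs_mul, abs_of_nonneg (by positivity)]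
            have hk' : (k : ℝ) ≤ N := by exact_mod_cast (mem_range.1 hk).le
            calc ((k : ℝ) + 1) * |UF F (k + 1) M| ≤ ((k : ℝ) + 1) * 1 :=
                  mul_le_mul_of_nonneg_left (cv_Ub F hF _ _) (by positivity)
              _ ≤ (N : ℝ) + 1 := by linarith
        _ = N * ((N : ℝ) + 1) := by simp; ring
        _ ≤ ((N : ℝ) + 1) ^ 2 := by nlinarith [show (0 : ℝ) ≤ N by positivity]
    calc 2 / ((N : ℝ) + 1) ^ 2 * |∑ k ∈ range N, ((k : ℝ) + 1) * UF F (k + 1) M|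
        ≤ 2 / ((N : ℝ) + 1) ^ 2 * ((N : ℝ) + 1) ^ 2 := mul_le_mul_of_nonneg_left h3 (by positivity)
      _ = 2 := by field_simp
  calc |2 * UF F (N + 1) M - 2 / ((N : ℝ) + 1) ^ 2 * ∑ k ∈ range N, ((k : ℝ) + 1) * UF F (k + 1) M|
      ≤ |2 * UF F (N + 1) M| + |2 / ((N : ℝ) + 1) ^ 2 * ∑ k ∈ range N, ((k : ℝ) + 1) * UF F (k + 1) M| :=
        abs_sub _ _
    _ ≤ 2 * 1 + 2 := by
        refine add_le_add ?_ h2
        rw [abs_mul, abs_of_pos (by norm_num : (0 : ℝ) < 2)]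
        linarith
    _ = 4 := by norm_num

/-- averages with small tail: the general limiting argument. -/
theorem cv_tail' (u : ℕ → ℕ → ℝ) (B : ℝ) (hB : 0 ≤ B) (hu : ∀ N k, |u N k| ≤ B)
    (h : ∀ ε δ : ℝ, 0 < ε → 0 < δ → ∃ N0 : ℕ, ∀ N : ℕ, N0 ≤ N → ∀ k : ℕ, k < N →
      δ * ((N : ℝ) + 1) ≤ (k : ℝ) + 1 → |u N k| ≤ ε) :
    ∀ ε : ℝ, 0 < ε → ∃ N0 : ℕ, ∀ N : ℕ, N0 ≤ N →
      1 / ((N : ℝ) + 1) * ∑ k ∈ range N, |u N k| ≤ ε := by
  intro ε hε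
  set δ := ε / (2 * (B + 1)) with hδ
  have hδ0 : 0 < δ := by positivity
  obtain ⟨N0, hN0⟩ := h (ε / 2) δ (by positivity) hδ0
  refine ⟨N0, fun N hN => ?_⟩
  have hN1 : (0 : ℝ) < (N : ℝ) + 1 := by positivity
  have h1 : ∀ k ∈ range N, |u N k| ≤ ε / 2 + (if (k : ℝ) + 1 < δ * ((N : ℝ) + 1) then B else 0) := by
    intro k hk
    split_ifs with hc
    · linarith [hu N k]
    · rw [add_zero]
      exact hN0 N hN k (mem_range.1 hk) (not_lt.1 hc)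
  have h2 : ∑ k ∈ range N, (if (k : ℝ) + 1 < δ * ((N : ℝ) + 1) then B else 0) ≤
      B * (δ * ((N : ℝ) + 1)) := by
    rw [← sum_filter, sum_const, nsmul_eq_mul, mul_comm]
    refine mul_le_mul_of_nonneg_left ?_ hB
    have h3 : (range N).filter (fun k : ℕ => (k : ℝ) + 1 < δ * ((N : ℝ) + 1)) ⊆
        range ⌊δ * ((N : ℝ) + 1)⌋₊ := by
      intro k hk
      rw [mem_filter] at hk
      rw [mem_range]
      have h4 : ((k + 1 : ℕ) : ℝ) ≤ δ * ((N : ℝ) + 1) := by push_cast; exact hk.2.le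
      have := Nat.le_floor h4
      omega
    have h5 := card_le_card h3
    rw [card_range] at h5
    calc (((range N).filter (fun k : ℕ => (k : ℝ) + 1 < δ * ((N : ℝ) + 1))).card : ℝ)
        ≤ (⌊δ * ((N : ℝ) + 1)⌋₊ : ℝ) := by exact_mod_cast h5
      _ ≤ δ * ((N : ℝ) + 1) := Nat.floor_le (by positivity)
  have h6 : ∑ k ∈ range N, |u N k| ≤ N * (ε / 2) + B * (δ * ((N : ℝ) + 1)) := by
    refine (sum_le_sum h1).trans ?_
    rw [sum_add_distrib, sum_const, card_range, nsmul_eq_mul]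
    linarith
  have h7 : B * δ ≤ ε / 2 := by
    rw [hδ]
    have : B * (ε / (2 * (B + 1))) = (B / (B + 1)) * (ε / 2) := by field_simp
    rw [this]
    have h8 : B / (B + 1) ≤ 1 := by rw [div_le_one (by positivity)]; linarith
    calc B / (B + 1) * (ε / 2) ≤ 1 * (ε / 2) := mul_le_mul_of_nonneg_right h8 (by positivity)
      _ = ε / 2 := one_mul _
  rw [one_div, inv_mul_le_iff₀ hN1]
  nlinarith [h6, h7, hN1]

/-- the exponents: if `N^{c1} ≤ M ≤ N^{c2}` then `n^{c1} ≤ M ≤ n^{c2'}` for `δN ≤ n ≤ N`, `n` large. -/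
theorem cv_exp' (c1 c2 c2' δ : ℝ) (hc1 : 0 < c1) (hc2 : 0 < c2) (hc : c2 < c2') (hδ : 0 < δ)
    (N1 : ℕ) :
    ∃ N0 : ℕ, ∀ N : ℕ, N0 ≤ N → ∀ n : ℕ, n ≤ N → δ * (N : ℝ) ≤ n → N1 ≤ n ∧
      ∀ M : ℕ, (N : ℝ) ^ c1 ≤ M → (M : ℝ) ≤ (N : ℝ) ^ c2 →
        (n : ℝ) ^ c1 ≤ M ∧ (M : ℝ) ≤ (n : ℝ) ^ c2' := by
  have h1 : Tendsto (fun N : ℕ => δ ^ c2' * (N : ℝ) ^ (c2' - c2)) atTop atTop :=
    ((tendsto_rpow_atTop (by linarith)).comp tendsto_natCast_atTop_atTop).const_mul_atTop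
      (by positivity)
  have h2 : Tendsto (fun N : ℕ => δ * (N : ℝ)) atTop atTop :=
    tendsto_natCast_atTop_atTop.const_mul_atTop hδ
  obtain ⟨N0, hN0⟩ := eventually_atTop.1 ((h1.eventually_ge_atTop 1).and
    (h2.eventually_ge_atTop ((N1 : ℝ) + 1)))
  refine ⟨N0 + 1, fun N hN n hn hδn => ?_⟩
  obtain ⟨h3, h4⟩ := hN0 N (by omega)
  have hN1 : (0 : ℝ) < N := by
    have : 1 ≤ N := by omega
    exact_mod_cast this
  have hn1 : (N1 : ℝ) + 1 ≤ n := h4.trans hδn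
  have hn0 : (0 : ℝ) < n := by linarith [show (0 : ℝ) ≤ N1 by positivity]
  refine ⟨by
    have : (N1 : ℝ) ≤ n := by linarith
    exact_mod_cast this, fun M hM1 hM2 => ⟨?_, ?_⟩⟩
  · exact le_trans (Real.rpow_le_rpow hn0.le (by exact_mod_cast hn) hc1.le) hM1
  · refine hM2.trans ?_
    calc (N : ℝ) ^ c2 ≤ (δ ^ c2' * (N : ℝ) ^ (c2' - c2)) * (N : ℝ) ^ c2 := by
          have : (0 : ℝ) ≤ (N : ℝ) ^ c2 := by positivity
          nlinarith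
      _ = (δ * (N : ℝ)) ^ c2' := by
          rw [Real.mul_rpow hδ.le hN1.le, mul_assoc, ← Real.rpow_add hN1]
          congr 2
          ring
      _ ≤ (n : ℝ) ^ c2' := Real.rpow_le_rpow (by positivity) hδn (by linarith)

/-- `W`-uniformity gives `U`-uniformity. -/
theorem cv_unifU (F : ℕ → ℝ) (hF : ∀ k, |F k| ≤ 1)
    (hW : ∀ c1 c2 : ℝ, 1 / 2 < c1 → c1 ≤ c2 → c2 < 1 → UnifW F c1 c2)
    (c1 c2 : ℝ) (hc1 : 1 / 2 < c1) (hc12 : c1 ≤ c2) (hc2 : c2 < 1) : UnifU F c1 c2 := by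
  intro ε hε
  set c2' := (c2 + 1) / 2 with hc2'
  have g1 : c2 < c2' := by rw [hc2']; linarith
  have g2 : c2' < 1 := by rw [hc2']; linarith
  have hw := hW c1 c2' hc1 (by linarith) g2
  -- a bad pair for every N (if any)
  set Bad : ℕ → Prop := fun N => ∃ p : ℕ × ℕ, ((N : ℝ) + 1) ^ c1 ≤ p.1 ∧ (p.1 : ℝ) ≤ ((N : ℝ) + 1) ^ c2 ∧
    ((N : ℝ) + 1) ^ c1 ≤ p.2 ∧ (p.2 : ℝ) ≤ ((N : ℝ) + 1) ^ c2 ∧ ε < |UF F (N + 1) p.1 - UF F (N + 1) p.2|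
    with hBad
  set pr : ℕ → ℕ × ℕ := fun N => if h : Bad N then h.choose else (1, 1) with hpr
  have hpr1 : ∀ N, Bad N → ((N : ℝ) + 1) ^ c1 ≤ (pr N).1 ∧ ((pr N).1 : ℝ) ≤ ((N : ℝ) + 1) ^ c2 ∧
    ((N : ℝ) + 1) ^ c1 ≤ (pr N).2 ∧ ((pr N).2 : ℝ) ≤ ((N : ℝ) + 1) ^ c2 ∧
      ε < |UF F (N + 1) (pr N).1 - UF F (N + 1) (pr N).2| := by
    intro N hN
    simp only [hpr, dif_pos hN]
    exact hN.choose_spec
  set u : ℕ → ℕ → ℝ := fun N k => if Bad N then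
    WF F (k + 1) (pr N).1 - WF F (k + 1) (pr N).2 else 0 with hu
  have hone : ∀ N, Bad N → 1 ≤ (pr N).1 ∧ 1 ≤ (pr N).2 := by
    intro N hN
    obtain ⟨b1, _, b2, _, _⟩ := hpr1 N hN
    have h1 : (1 : ℝ) ≤ ((N : ℝ) + 1) ^ c1 :=
      Real.one_le_rpow (by linarith [show (0 : ℝ) ≤ N by positivity]) (by linarith)
    exact ⟨by exact_mod_cast h1.trans b1, by exact_mod_cast h1.trans b2⟩
  have hub : ∀ N k, |u N k| ≤ 8 := by
    intro N k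
    simp only [hu]
    split_ifs with hN
    · obtain ⟨p1, p2⟩ := hone N hN
      calc |WF F (k + 1) (pr N).1 - WF F (k + 1) (pr N).2|
          ≤ |WF F (k + 1) (pr N).1| + |WF F (k + 1) (pr N).2| := abs_sub _ _
        _ ≤ 4 + 4 := add_le_add (cv_Wb F hF _ _ p1) (cv_Wb F hF _ _ p2)
        _ = 8 := by norm_num
    · simp
  have key : ∀ ε' δ : ℝ, 0 < ε' → 0 < δ → ∃ N0 : ℕ, ∀ N : ℕ, N0 ≤ N → ∀ k : ℕ, k ≤ N →
      δ * ((N : ℝ) + 1) ≤ (k : ℝ) + 1 → |u N k| ≤ ε' := by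
    intro ε' δ hε' hδ
    obtain ⟨N1, hN1⟩ := hw ε' hε'
    obtain ⟨N0, hN0⟩ := cv_exp' c1 c2 c2' δ (by linarith) (by linarith) g1 hδ N1
    refine ⟨N0, fun N hN k hk hδk => ?_⟩
    simp only [hu]
    split_ifs with hb
    · obtain ⟨b1, b2, b3, b4, _⟩ := hpr1 N hb
      obtain ⟨e1, e2⟩ := hN0 (N + 1) (by omega) (k + 1) (by omega) (by push_cast; exact hδk)
      obtain ⟨x1, x2⟩ := e2 (pr N).1 (by push_cast; exact b1) (by push_cast; exact b2)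
      obtain ⟨y1, y2⟩ := e2 (pr N).2 (by push_cast; exact b3) (by push_cast; exact b4)
      exact hN1 (k + 1) e1 _ _ x1 x2 y1 y2
    · simpa using hε'.le
  obtain ⟨Na, hNa⟩ := cv_tail' u 8 (by norm_num) hub
    (fun a b ha hb => by
      obtain ⟨N0, hN0⟩ := key a b ha hb
      exact ⟨N0, fun N hN k hk => hN0 N hN k hk.le⟩) (ε / 2) (by positivity)
  obtain ⟨Nb, hNb⟩ := key (ε / 2) 1 (by positivity) one_pos
  refine ⟨max Na Nb + 1, fun N hN M M' h1 h2 h3 h4 => ?_⟩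
  obtain ⟨K, rfl⟩ : ∃ K, N = K + 1 := ⟨N - 1, by omega⟩
  by_contra hcon
  have hb : Bad K := ⟨(M, M'), by push_cast at h1; exact h1, by push_cast at h2; exact h2,
    by push_cast at h3; exact h3, by push_cast at h4; exact h4, not_le.1 hcon⟩
  obtain ⟨_, _, _, _, hlt⟩ := hpr1 K hb
  obtain ⟨p1, p2⟩ := hone K hb
  have hKa := hNa K (by have := le_max_left Na Nb; omega)
  have hKb := hNb K (by have := le_max_right Na Nb; omega) K le_rfl (by simp)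
  rw [cv_U F K _ p1, cv_U F K _ p2] at hlt
  have huk : ∀ k, u K k = WF F (k + 1) (pr K).1 - WF F (k + 1) (pr K).2 := by
    intro k
    simp only [hu, if_pos hb]
  rw [huk] at hKb
  have hsum : |1 / ((K : ℝ) + 1) * ∑ k ∈ range K, ((k : ℝ) + 1) / ((k : ℝ) + 2) *
      (WF F (k + 1) (pr K).1 / 2) - 1 / ((K : ℝ) + 1) * ∑ k ∈ range K, ((k : ℝ) + 1) / ((k : ℝ) + 2) *
      (WF F (k + 1) (pr K).2 / 2)| ≤ ε / 2 := by
    rw [← mul_sub, ← sum_sub_distrib, abs_mul, abs_of_nonneg (by positivity)]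
    refine le_trans ?_ hKa
    refine mul_le_mul_of_nonneg_left ?_ (by positivity)
    refine (abs_sum_le_sum_abs _ _).trans (sum_le_sum fun k _ => ?_)
    rw [huk, show ((k : ℝ) + 1) / ((k : ℝ) + 2) * (WF F (k + 1) (pr K).1 / 2) -
      ((k : ℝ) + 1) / ((k : ℝ) + 2) * (WF F (k + 1) (pr K).2 / 2) =
      (((k : ℝ) + 1) / ((k : ℝ) + 2) / 2) * (WF F (k + 1) (pr K).1 - WF F (k + 1) (pr K).2) by ring,
      abs_mul]
    have h5 : |((k : ℝ) + 1) / ((k : ℝ) + 2) / 2| ≤ 1 := by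
      rw [abs_of_nonneg (by positivity), div_div, div_le_one (by positivity)]
      linarith [show (0 : ℝ) ≤ k by positivity]
    calc |((k : ℝ) + 1) / ((k : ℝ) + 2) / 2| * |WF F (k + 1) (pr K).1 - WF F (k + 1) (pr K).2|
        ≤ 1 * |WF F (k + 1) (pr K).1 - WF F (k + 1) (pr K).2| :=
          mul_le_mul_of_nonneg_right h5 (abs_nonneg _)
      _ = _ := one_mul _
  have hfin : |WF F (K + 1) (pr K).1 / 2 - WF F (K + 1) (pr K).2 / 2| ≤ ε / 2 := by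
    rw [← sub_div, abs_div, abs_of_pos (by norm_num : (0 : ℝ) < 2)]
    linarith [abs_nonneg (WF F (K + 1) (pr K).1 - WF F (K + 1) (pr K).2)]
  have h7 := abs_add_le (WF F (K + 1) (pr K).1 / 2 - WF F (K + 1) (pr K).2 / 2)
    (1 / ((K : ℝ) + 1) * ∑ k ∈ range K, ((k : ℝ) + 1) / ((k : ℝ) + 2) *
      (WF F (k + 1) (pr K).1 / 2) - 1 / ((K : ℝ) + 1) * ∑ k ∈ range K, ((k : ℝ) + 1) / ((k : ℝ) + 2) *
      (WF F (k + 1) (pr K).2 / 2))
  have h8 : WF F (K + 1) (pr K).1 / 2 + 1 / ((K : ℝ) + 1) * ∑ k ∈ range K, ((k : ℝ) + 1) / ((k : ℝ) + 2) *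
      (WF F (k + 1) (pr K).1 / 2) - (WF F (K + 1) (pr K).2 / 2 + 1 / ((K : ℝ) + 1) *
      ∑ k ∈ range K, ((k : ℝ) + 1) / ((k : ℝ) + 2) * (WF F (k + 1) (pr K).2 / 2)) =
      (WF F (K + 1) (pr K).1 / 2 - WF F (K + 1) (pr K).2 / 2) +
    (1 / ((K : ℝ) + 1) * ∑ k ∈ range K, ((k : ℝ) + 1) / ((k : ℝ) + 2) *
      (WF F (k + 1) (pr K).1 / 2) - 1 / ((K : ℝ) + 1) * ∑ k ∈ range K, ((k : ℝ) + 1) / ((k : ℝ) + 2) *
      (WF F (k + 1) (pr K).2 / 2)) := by ring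
  rw [h8] at hlt
  linarith

end Pool.Agent.BSQ
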