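import Pool.Agent.BSQ.Defs

/-!
# BSQ, statements, part A (finitary part)

Every proof is in the docstring.  Paper: team store, `bsq_paper_helper44.md`.
-/

set_option autoImplicit false

namespace Pool.Agent.BSQ

open Finset MeasureTheory Filter Topology
open scoped BigOperators
open Classical

/-- **VIN** (Vinogradov's lemma).
Proof.  `Real.exists_rat_abs_sub_le_and_den_le` with `n = 4L`: `a/q` in lowest terms, `1 ≤ q ≤ 4L`,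
`|θ - a/q| ≤ 1/((4L+1) q)`.  For `1 ≤ n ≤ L`: `|nθ - na/q| ≤ 1/(4q)`, hence `dI (nθ) ≤ ε` gives an integer `p`
with `|na/q - p| ≤ ε + 1/(4q)`, i.e. `r := na - pq` is an integer with `|r| ≤ qε + 1/4` and `na ≡ r (mod q)`.
Let `A` be the counted set, `|A| ≥ δL > 1`.
(i) `q > L`: the `n ∈ A` are distinct mod `q`, non-zero mod `q`, and `n ↦ r mod q` is injective (`a` is coprime to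
`q`); `r ≠ 0`; so `|A| ≤ 2(qε + 1/4) ≤ 8Lε + 1/2 ≤ δL/2 + 1/2 < δL`, a contradiction.
(ii) `q ≤ L`, `qε ≥ 3/4`: cut `[1, L]` in at most `L/q + 1 ≤ 2L/q` blocks of `q` consecutive integers (the last one
may be shorter); in a block `n ↦ r` is injective with `|r| ≤ qε + 1/4`, so at most `2(qε+1/4) + 1 ≤ 4qε` elements; total
`≤ (2L/q) 4qε = 8Lε ≤ δL/2 < δL`, a contradiction.
(iii) `q ≤ L`, `qε < 3/4`: `|r| < 1`, so `r = 0` and `q ∣ na`, `q ∣ n` for all `n ∈ A`.  So `|A| ≤ L/q` and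
`q ≤ 1/δ`; the largest element `n` of `A` is at least `q |A| ≥ qδL`; `na/q` is an integer and
`|n(θ - a/q)| ≤ 1/4`, so `dI (nθ) = n|θ - a/q| ≤ ε`; hence `|θ - a/q| ≤ ε/(qδL)` and
`dI (qθ) ≤ |qθ - a| ≤ ε/(δL)`. -/
def St_VIN : Prop := ∀ (θ : ℝ) (L : ℕ) (δ ε : ℝ), 0 < ε → ε ≤ δ / 16 → δ ≤ 1 → 1 < δ * L →
  δ * L ≤ (((Icc 1 L).filter (fun h : ℕ => dI ((h : ℝ) * θ) ≤ ε)).card : ℝ) →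
  ∃ q : ℕ, 1 ≤ q ∧ (q : ℝ) ≤ 1 / δ ∧ dI ((q : ℝ) * θ) ≤ ε / (δ * L)

/-- **WEY** (Weyl's inequality for squares, inverse form); uses `St_VIN`.
Proof.  `S` the sum, `I = Ico a (a+L)`.  `|S|² = ∑_{m, m' ∈ I} e(θ(m'² - m²))`; put `m' = m + h`:
`|S|² ≤ L + 2 ∑_{1 ≤ h < L} |∑_{m ∈ Ico a (a+L-h)} e(2hθ m)|` and a geometric sum of at most `L` terms is at most
`min(L, 1/(2 dI(2hθ)))` (`|1 - e(α)| = 2|sin πα| ≥ 4 dI(α)`).  As `|S|² ≥ L²/K²` and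
`L ≤ L²/(4K²)`: `∑_{1≤h<L} min(L, 1/(2 dI(2hθ))) ≥ 3L²/(8K²)`.  Put `δ = 1/(8K²)`, `ε = 4K²/L`.  If fewer than `δL` of
the `1 ≤ h ≤ L` had `dI(2hθ) ≤ ε` the sum would be `≤ δL·L + L/(2ε) = L²/(4K²)`, a contradiction.  `St_VIN` for `2θ`
(`ε ≤ δ/16` is `L ≥ 512K⁴`): `q₀ ≤ 8K²` with `dI(2q₀θ) ≤ ε/(δL) = 32K⁴/L²`; take `q = 2q₀`. -/
def St_WEY : Prop := ∀ (θ : ℝ) (a L K : ℕ), 1 ≤ K → 512 * K ^ 4 ≤ L →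
  (L : ℝ) / K ≤ ‖∑ m ∈ Ico a (a + L), ee (θ * (m : ℝ) ^ 2)‖ →
  ∃ q : ℕ, 1 ≤ q ∧ q ≤ 16 * K ^ 2 ∧ dI ((q : ℝ) * θ) ≤ 32 * (K : ℝ) ^ 4 / (L : ℝ) ^ 2

/-- **MAJ** (few major frequencies).
Proof.  `τ = 32K⁶/N²`.  Fix `1 ≤ q ≤ 16K²`, `b.val ∈ [0, P)`.  `2q b/P ∈ [0, 2q)`, so the nearest integer `j` is in
`[0, 2q]` and `|b - jP/(2q)| ≤ τP/(2q)`: at most `τP/q + 1` values of `b` for each `j`, in total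
`(2q+1)(τP/q+1) ≤ 3τP + 2q + 1`.  Sum over `q ≤ 16K²`: `≤ 48K²τP + 256K⁴ + 32K² ≤ 1536·16 K⁸ + 288 K⁸ ≤ 2¹⁵K⁸`. -/
def St_MAJ : Prop := ∀ (P N K : ℕ) [NeZero P], 1 ≤ K → 1 ≤ N → P ≤ 16 * N ^ 2 →
  ((MajS P N K).card : ℝ) ≤ 2 ^ 15 * (K : ℝ) ^ 8

/-- **VB** (the squares sum at a minor frequency); uses `St_WEY`.
Proof.  `I = Ioc α β`, `L = β - α ≤ N` (nothing if `β ≤ α`).  If the sum is `> N/K` then `L > N/K ≥ 512K⁴` (trivial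
bound) and the sum is `≥ L/K`; `St_WEY` (`Ioc α β = Ico (α+1) (α+1+L)`, `θ = 2b/P`) gives `q ≤ 16K²` with
`dI (q · 2b/P) ≤ 32K⁴/L² ≤ 32K⁶/N²`, so `b ∈ MajS`. -/
def St_VB : Prop := ∀ (P N K α β : ℕ) [NeZero P] (b : ZMod P), 1 ≤ K → 512 * K ^ 5 ≤ N → β ≤ N →
  b ∉ MajS P N K →
  ‖∑ n ∈ Ioc α β, ee ((2 * (b.val : ℝ) / P) * (n : ℝ) ^ 2)‖ ≤ (N : ℝ) / K

/-- **FB** (Fourier analysis on `ℤ/P`).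
(1) `ch b k = e(b.val k/P)` for `k : ℕ`, and `ch` is additive in both variables, of modulus one.
(2) Parseval.  (3) `∑_u F(u) G(u - s) = P⁻¹ ∑_b F̂(b) Ĝ(-b) ch b s` (insert `F(u) = P⁻¹ ∑_b F̂(b) ch b u`).
(4) convolutions: `∑_y |∑_{k∈S} a_k g(y - k)|² ≤ C² ∑_y |g(y)|²` if `|∑_{k ∈ S} a_k ch (-b) k| ≤ C` for all `b` (the
Fourier transform of `y ↦ ∑_k a_k g(y - k)` at `b` is `(∑_k a_k ch (-b) k) ĝ(b)`).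
All from `∑_b ch b u = P·1_{u = 0}` (`AddChar.sum_mulShift` / `ZMod.isPrimitive_stdAddChar`, `ZMod.stdAddChar_coe`). -/
def St_FB : Prop := ∀ (P : ℕ) [NeZero P],
  (∀ (b : ZMod P) (k : ℕ), ch b (k : ZMod P) = ee ((b.val : ℝ) * k / P)) ∧
  (∀ b u v : ZMod P, ch b (u + v) = ch b u * ch b v) ∧
  (∀ b c u : ZMod P, ch (b + c) u = ch b u * ch c u) ∧
  (∀ b u : ZMod P, ‖ch b u‖ = 1) ∧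
  (∀ b u : ZMod P, ch (-b) u = (starRingEnd ℂ) (ch b u)) ∧
  (∀ F : ZMod P → ℂ, ∑ b : ZMod P, ‖ft F b‖ ^ 2 = P * ∑ u : ZMod P, ‖F u‖ ^ 2) ∧
  (∀ (F G : ZMod P → ℂ) (s : ZMod P), ∑ u : ZMod P, F u * G (u - s) =
    (1 / (P : ℂ)) * ∑ b : ZMod P, ft F b * ft G (-b) * ch b s) ∧
  (∀ (S : Finset ℕ) (a : ℕ → ℂ) (g : ZMod P → ℂ) (C : ℝ), 0 ≤ C →
    (∀ b : ZMod P, ‖∑ k ∈ S, a k * ch (-b) (k : ZMod P)‖ ≤ C) →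
    ∑ y : ZMod P, ‖∑ k ∈ S, a k * g (y - (k : ZMod P))‖ ^ 2 ≤ C ^ 2 * ∑ y : ZMod P, ‖g y‖ ^ 2)

/-- **NRM** (the norm `n2`): Minkowski, homogeneity, monotonicity, translation of `f`, and (0.1):
`n2 (T_ρ(f, g)) ≤ (∑_{k<X} |ρ k|) n2 f` if `|g| ≤ 1`.
Proof.  `n2` is `P^{-1/2}` times the norm of `EuclideanSpace ℂ (ZMod P)`; the last one by Minkowski in `k`. -/
def St_NRM : Prop := ∀ (P : ℕ) [NeZero P],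
  (∀ φ ψ : ZMod P → ℂ, n2 (fun y => φ y + ψ y) ≤ n2 φ + n2 ψ) ∧
  (∀ φ ψ : ZMod P → ℂ, n2 (fun y => φ y - ψ y) ≤ n2 φ + n2 ψ) ∧
  (∀ (ι : Type) (S : Finset ι) (φ : ι → ZMod P → ℂ), n2 (fun y => ∑ i ∈ S, φ i y) ≤ ∑ i ∈ S, n2 (φ i)) ∧
  (∀ (c : ℂ) (φ : ZMod P → ℂ), n2 (fun y => c * φ y) = ‖c‖ * n2 φ) ∧
  (∀ φ ψ : ZMod P → ℂ, (∀ y, ‖φ y‖ ≤ ‖ψ y‖) → n2 φ ≤ n2 ψ) ∧
  (∀ (φ : ZMod P → ℂ) (s : ZMod P), n2 (fun y => φ (y + s)) = n2 φ) ∧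
  (∀ (φ : ZMod P → ℂ), n2 φ ^ 2 = (∑ y : ZMod P, ‖φ y‖ ^ 2) / P) ∧
  (∀ φ : ZMod P → ℂ, (∀ y, ‖φ y‖ ≤ 1) → n2 φ ≤ 1) ∧
  (∀ (X : ℕ) (ρ : ℕ → ℝ) (f g : ZMod P → ℂ), (∀ u, ‖g u‖ ≤ 1) →
    n2 (Tr X ρ f g) ≤ (∑ k ∈ range X, |ρ k|) * n2 f)

/-- **STRUCT** (structure lemma).
Proof.  Iterate.  `E(f) = ∑_u |f u|²`, at most `P` at the start.  If `TileE H f'` and some `z` has
`∑_{t<T} |fh H f' z t|² > η² H² T`, put `c t = fh H f' z t / H` for `t < T` (`0` otherwise); `|c t| ≤ 1` because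
`|fh|² ≤ H ∑_{tile}|f'|² ≤ H²` (a tile has `H` points).  `f'' = f' - c(tl H u) ch z u`: on the tile `t`,
`∑|f''|² = ∑|f'|² - |fh H f' z t|²/H`, so `TileE H f''` and `E(f'') < E(f') - η² H T = E(f') - η² P`.
After fewer than `η^{-2}` steps this stops (induct on the number of steps: either there is a decomposition as wanted
with at most `k` terms or one with exactly `k` terms, `TileE H f'` and `E(f') ≤ P - k η² P`; take `k > η^{-2}`). -/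
def St_STRUCT : Prop := ∀ (P H T : ℕ) [NeZero P] (η : ℝ) (f : ZMod P → ℂ), P = H * T → 1 ≤ H → 0 < η →
  TileE H f → ∃ (I : ℕ) (z : ℕ → ZMod P) (c : ℕ → ℕ → ℂ) (f' : ZMod P → ℂ), (I : ℝ) ≤ 1 / η ^ 2 ∧
    (∀ i t, ‖c i t‖ ≤ 1) ∧ Flat H T η f' ∧
    ∀ u : ZMod P, f u = f' u + ∑ i ∈ range I, c i (tl H u) * ch (z i) u

/-- **AUTOC** (autocorrelations of flat functions); uses `St_FB`.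
Proof.  Super-tile of `u`: `w(u) = u.val/(BH)` (`T` of them, each a union of `B` tiles).
`ft (Fl f l) b = A(l) + E(l)`, where `A(l)` is the sum over the `v` with `w(v) = w(v+l)` and `E(l)` the rest.
`A(l) = ∑_W ∑_v φ_W(v) conj (f_W(v+l))` with `f_W = f 1_{w = W}`, `φ_W(v) = f_W(v) ch (-b) v`; as a function of
`l ∈ ℤ/P` its Fourier transform at `ζ` is `∑_W (ft φ_W (-ζ)) conj (ft f_W (-ζ))`, so by Parseval and Cauchy-Schwarz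
`∑_{l ∈ ℤ/P} |A(l)|² ≤ P⁻¹ ∑_ζ (∑_W |ft φ_W(-ζ)|²)(∑_W |ft f_W(-ζ)|²)`.  Here
`∑_W |ft f_W(z)|² ≤ B ∑_t |fh H f z t|² ≤ B η² H² (BT) = Bη²HP` and `P⁻¹∑_ζ ∑_W |ft φ_W(-ζ)|² = ∑_W∑_v |f_W(v)|² ≤ P`.
So `∑_l |A(l)|² ≤ BHη²P²`.  For `|l| ≤ H` and `w(v) ≠ w(v+l)` both `v` and `v+l` are in the first or the last tile of a
super-tile, so by Cauchy-Schwarz `|E(l)| ≤ ∑_{edge tiles}|f|² ≤ 2TH = 2P/B`.  Hence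
`∑_{|l|≤H} |ft|² ≤ 2BHη²P² + 2(2H+1)·4P²/B² ≤ HP²(2Bη² + 24/B²)` (`2H + 1 ≤ P`: the `l` are distinct mod `P`). -/
def St_AUTOC : Prop := ∀ (P H B T : ℕ) [NeZero P] (η : ℝ) (f : ZMod P → ℂ), P = H * (B * T) → 1 ≤ B →
  1 ≤ H → 2 * H + 1 ≤ P → Flat H (B * T) η f → ∀ b : ZMod P,
  ∑ l ∈ Icc (-(H : ℤ)) (H : ℤ), ‖ft (Fl f l) b‖ ^ 2 ≤
    H * (P : ℝ) ^ 2 * (2 * B * η ^ 2 + 24 / (B : ℝ) ^ 2)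

/-- **ENER**.  Proof.  For each `u` the points `u + l`, `|l| ≤ H`, are distinct (`2H+1 ≤ P`) and lie in (at most) three
tiles, so `∑_l |f(u+l)|² ≤ 3H`; and `∑_u |f u|² ≤ HT = P`. -/
def St_ENER : Prop := ∀ (P H T : ℕ) [NeZero P] (f : ZMod P → ℂ), P = H * T → 1 ≤ H → 2 * H + 1 ≤ P →
  TileE H f → (∑ u : ZMod P, ‖f u‖ ^ 2 ≤ P) ∧
  ∑ l ∈ Icc (-(H : ℤ)) (H : ℤ), ∑ u : ZMod P, ‖Fl f l u‖ ^ 2 ≤ 3 * H * P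

/-- **UNIF** (flat functions are negligible); uses `St_FB`, `St_AUTOC`, `St_ENER`, `St_MAJ`, `St_VB`.
Proof.  `𝔟_i = Ioc (iμ) ((i+1)μ)`, `I_i = Ioc (I i).1 (I i).2 ⊆ [1, N]`, `r = |𝔅|`, `rμ ≤ M'`.  Cauchy-Schwarz over the
at most `Nr` pairs `(i, n)`: `|T(y)|² ≤ 4Nr ∑_{i,n} |∑_{m ∈ 𝔟_i} f(y+n²+m²) g(y-n²-m²)|²`.  Expand the square, sum over
`y`, put `u = y+n²+m²`, `l = m'² - m²` (`|l| ≤ 2M'μ ≤ H`), `G_l(v) = g(v) conj g(v - l) = Fl g (-l) v`: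
`Q := ∑_y ∑_{i,n} |..|² = ∑_i ∑_{m,m'∈𝔟_i} ∑_{n∈I_i} ∑_u Fl f l u · G_l(u - 2n² - 2m²)`.
`m = m'`: at most `rμN ∑_u |f u|² ≤ rμNP`.  `m ≠ m'`: by `St_FB` (3) the sum over `u` is
`P⁻¹ ∑_b ft(Fl f l) b · ft G_l (-b) · ch b (2n²+2m²)`, and summing over `n` first gives
`|∑_{n∈I_i} ch b (2n²)| = |∑ e(2 b.val n²/P)|`.  Every `l ≠ 0` with `|l| ≤ H` comes from at most `D0` triples `(i,m,m')`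
(`|m'-m|` is a divisor of `|l|` and `m+m'` is the quotient, the sign of `l` gives the order, the blocks are disjoint).
`b ∉ MajS`: by `St_VB` the total is `≤ D0 (N/K) ∑_{|l|≤H} P⁻¹∑_b |ft(Fl f l) b||ft G_l(-b)|
≤ D0 (N/K) ∑_l ‖Fl f l‖₂ ‖G_l‖₂ ≤ D0 (N/K) (3HP)^{1/2} (3HP)^{1/2}` (`St_FB` (2), Cauchy-Schwarz, `St_ENER`, `|g| ≤ 1`,
`2H+1 ≤ 3H`).  `b ∈ MajS`: `|∑_n| ≤ N`, `|ft G_l| ≤ P`, so the total is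
`≤ D0 N |MajS| max_b ∑_{|l|≤H} |ft(Fl f l) b| ≤ D0 N 2¹⁵K⁸ (3H)^{1/2} (HP²(2Bη²+24/B²))^{1/2}` (`St_AUTOC`)
`= D0 N 2¹⁵ K⁸ HP (6Bη²+72/B²)^{1/2}`.  Collect: `4NrQ/(NM')²/P ≤ 4(r/M'²)(rμ + 3D0H/K + 2¹⁵D0K⁸H(..)^{1/2})` and
`r ≤ M'/μ`, `H ≤ 4M'μ`. -/
def St_UNIF : Prop := ∀ (P H B T N M' μ K D0 : ℕ) [NeZero P] (η : ℝ) (f g : ZMod P → ℂ)
  (𝔅 : Finset ℕ) (I : ℕ → ℕ × ℕ) (w : ℕ → ℝ),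
  P = H * (B * T) → 1 ≤ B → 1 ≤ μ → 2 * M' * μ ≤ H → H ≤ 4 * M' * μ → (∀ i ∈ 𝔅, (i + 1) * μ ≤ M') →
  (∀ i ∈ 𝔅, (I i).2 ≤ N) → (∀ n, |w n| ≤ 2) → (∀ u, ‖g u‖ ≤ 1) →
  (∀ l : ℕ, 1 ≤ l → l ≤ H → l.divisors.card ≤ D0) → 1 ≤ K → 512 * K ^ 5 ≤ N → P ≤ 16 * N ^ 2 →
  2 * H + 1 ≤ P → Flat H (B * T) η f →
  n2 (fun y : ZMod P => (1 / ((N : ℂ) * M')) * ∑ i ∈ 𝔅, ∑ n ∈ Ioc (I i).1 (I i).2, (w n : ℂ) *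
    ∑ m ∈ Ioc (i * μ) ((i + 1) * μ), f (y + ((n ^ 2 + m ^ 2 : ℕ) : ZMod P)) *
      g (y - ((n ^ 2 + m ^ 2 : ℕ) : ZMod P))) ≤
    2 * Real.sqrt (1 / μ + 12 * D0 / K +
      2 ^ 17 * D0 * (K : ℝ) ^ 8 * Real.sqrt (6 * B * η ^ 2 + 72 / (B : ℝ) ^ 2))

/-- **UNS** (flat functions against the strip measure); uses `St_UNIF`, `St_NRM`.
Proof.  `Tr (2N²+1) (rhoS N M) f g y = (1/(NM)) ∑_{n≤N} (2n/N) ∑_{m≤M} f(y+n²+m²) g(y-n²-m²)` (regroup by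
`k = n²+m² ≤ 2N²`).  `𝔅 = range (M/μ)`, `I_i = Ioc 0 N`, `w n = 2n/N` for `n ≤ N` (and `0` for `n > N`): the blocks
cover `m ≤ μ⌊M/μ⌋`; the at most `μ` other `m` form a measure of mass `≤ (1/(NM)) (N+1) μ ≤ 2μ/M` (`St_NRM`, (0.1), with
`n2 f ≤ 1` from the tile energies). -/
def St_UNS : Prop := ∀ (P H B T N M μ K D0 : ℕ) [NeZero P] (η : ℝ) (f g : ZMod P → ℂ),
  P = H * (B * T) → 1 ≤ B → 1 ≤ μ → 2 * M * μ ≤ H → H ≤ 4 * M * μ → 1 ≤ M → M ≤ N →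
  (∀ u, ‖g u‖ ≤ 1) → (∀ l : ℕ, 1 ≤ l → l ≤ H → l.divisors.card ≤ D0) → 1 ≤ K → 512 * K ^ 5 ≤ N →
  P ≤ 16 * N ^ 2 → 2 * H + 1 ≤ P → Flat H (B * T) η f →
  n2 (Tr (P := P) (2 * N ^ 2 + 1) (rhoS N M) f g) ≤
    2 * Real.sqrt (1 / μ + 12 * D0 / K +
      2 ^ 17 * D0 * (K : ℝ) ^ 8 * Real.sqrt (6 * B * η ^ 2 + 72 / (B : ℝ) ^ 2)) + 2 * μ / M

/-- **AJ** (the area `a_j`).
Proof.  `x₂ = 1/√(1+((j+1)/R)²) ≤ x₁ = 1/√(1+(j/R)²) ≤ 1`.  On `[0, x₂]`: `(j+1)x/R ≤ √(1-x²)`, so `hj = x/R`; on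
`[0, x₁]`: `0 ≤ hj ≤ x/R`; on `[x₁, 1]`: `√(1-x²) ≤ jx/R`, so `hj = 0`.  Integrate (`hj` is continuous):
`x₂²/(2R) ≤ aj ≤ x₁²/(2R)`; finally `1 + ((j+1)/R)² ≤ 2`. -/
def St_AJ : Prop := ∀ R j : ℕ, 1 ≤ R → j < R →
  1 / (2 * R * (1 + (((j : ℝ) + 1) / R) ^ 2)) ≤ aj R j ∧ aj R j ≤ 1 / (2 * R * (1 + ((j : ℝ) / R) ^ 2)) ∧
  1 / (4 * (R : ℝ)) ≤ aj R j

/-- **SECT** (lattice points of a sector in residue classes).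
Proof.  `r = √k`.  For `n ≥ 1`, `n < r`: the `m` of `(n, m)` in the set (with `m ≥ 0` instead of `m ≥ 1`) are the
integers `≡ v (mod q)` in `[jn/R, min((j+1)n/R, √(k-n²)))`, an interval of length `h(n)`,
`h(x) = r hj(x/r)`; their number is `h(n)/q + O(1)` (error `< 1`; the point `m = 0` (only if `j = 0`, `v = 0`) changes
it by at most one: error `≤ 2`).  There are at most `r/q + 1` values of `n`.  `h` is non-decreasing on `[0, x₂r]`,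
non-increasing on `[x₂r, r]`, `0` after, and `0 ≤ h ≤ r`, so
`|∑_{n ≡ u (q), n ≥ 1} h(n) - q⁻¹∫₀^∞ h| ≤ 2 sup h ≤ 2r` and `∫₀^r h = k aj` (scaling).  Total error
`≤ 2(r/q+1) + 2r/q`. -/
def St_SECT : Prop := ∀ R j q u v k : ℕ, 1 ≤ R → j < R → 1 ≤ q → u < q → v < q →
  |((((SecX R j k).filter (fun p => p.1 % q = u ∧ p.2 % q = v)).card : ℝ)) - aj R j * k / (q : ℝ) ^ 2| ≤
    4 * Real.sqrt k / q + 2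

/-- **USC** (flat functions against the sector measure); uses `St_UNIF`, `St_NRM`, `St_AJ`.
Proof.  `M' = N`.  `Tr (2N²+1) (sigS R j N) f g y = (1/(aj N²)) ∑_{p ∈ SecX R j N²} f(y+sq2 p) g(y-sq2 p)`.
`𝔅 = range (N/μ)`; for `i ∈ 𝔅` the set of the `n` with `{n} × 𝔟_i ⊆ SecX R j N²` is given by
`j n ≤ R(iμ+1)`, `R(i+1)μ < (j+1)n`, `n²+((i+1)μ)² < N²`: an interval `Ioc (I i).1 (I i).2` of `[1, N]`.  `w n = 1`.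
The points of `SecX` not covered: for each `n` (at most `N` values) the `m` with `(n,m) ∈ SecX` form an interval of
`[1, N]`, and those in blocks not contained in it (or beyond `μ⌊N/μ⌋`) are at most `2μ` in number.  So the rest has
mass `≤ 2μN/(aj N²) ≤ 8Rμ/N`; the main part is `1/aj ≤ 4R` times `St_UNIF`. -/
def St_USC : Prop := ∀ (P H B T N R j μ K D0 : ℕ) [NeZero P] (η : ℝ) (f g : ZMod P → ℂ),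
  P = H * (B * T) → 1 ≤ B → 1 ≤ μ → 2 * N * μ ≤ H → H ≤ 4 * N * μ → 1 ≤ R → j < R →
  (∀ u, ‖g u‖ ≤ 1) → (∀ l : ℕ, 1 ≤ l → l ≤ H → l.divisors.card ≤ D0) → 1 ≤ K → 512 * K ^ 5 ≤ N →
  P ≤ 16 * N ^ 2 → 2 * H + 1 ≤ P → Flat H (B * T) η f →
  n2 (Tr (P := P) (2 * N ^ 2 + 1) (sigS R j N) f g) ≤
    8 * R * Real.sqrt (1 / μ + 12 * D0 / K +
      2 ^ 17 * D0 * (K : ℝ) ^ 8 * Real.sqrt (6 * B * η ^ 2 + 72 / (B : ℝ) ^ 2)) + 8 * R * μ / N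

/-- **STR** (structured functions); uses `St_FB`, `St_NRM`.
Proof.  Minkowski over `i ∈ 𝒥`.  Fix `i`, `J = Ico (iH') ((i+1)H')`.  Call `y` good if `(y + iH').val % H + H' ≤ H`:
then all `y + k`, `k ∈ J`, are in the tile of `y + iH'` and `ch z (y+k) = ch z y · ch z k`, so the modulus of the inner
sum is at most `|∑_{k∈J} D(k) ch z k · g(y-k)|`, a convolution; its multiplier `∑_{k ∈ J} D(k) ch z k ch (-b) k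
= ∑ D(k) e(kθ)`, `θ = (z-b).val/P`, is at most `σ i`; so `n2 ≤ σ i`.  The bad `y` have proportion `≤ H'/H` and there the
modulus is `≤ ∑_J |D|`. -/
def St_STR : Prop := ∀ (P H T H' : ℕ) [NeZero P] (z : ZMod P) (c : ℕ → ℂ) (g : ZMod P → ℂ) (D : ℕ → ℝ)
  (𝒥 : Finset ℕ) (σ : ℕ → ℝ), P = H * T → 1 ≤ H' → H' ≤ H → (∀ t, ‖c t‖ ≤ 1) → (∀ u, ‖g u‖ ≤ 1) →
  (∀ i ∈ 𝒥, ∀ θ : ℝ, ‖∑ k ∈ Ico (i * H') ((i + 1) * H'), (D k : ℂ) * ee ((k : ℝ) * θ)‖ ≤ σ i) →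
  n2 (fun y : ZMod P => ∑ i ∈ 𝒥, ∑ k ∈ Ico (i * H') ((i + 1) * H'), (D k : ℂ) *
    ((c (tl H (y + (k : ZMod P))) * ch z (y + (k : ZMod P))) * g (y - (k : ZMod P)))) ≤
  ∑ i ∈ 𝒥, (σ i + Real.sqrt ((H' : ℝ) / H) * ∑ k ∈ Ico (i * H') ((i + 1) * H'), |D k|)

/-- **LEMS** (the two exponential sums of a window have the same main term); uses `St_WEY`.
Proof.  `H' = H2 s`, `E_i` the sum for `Ω_i`.  By `cnt` with `q = 1`: `#inW Ω_i ≤ (1+ε) d_i H'`.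
Case A: `dI(qθ) > 32Q⁴/ell²` for all `1 ≤ q ≤ 16Q²`.  Every section (`sec`, an interval of `L` integers `m`) with
`L ≥ ell` (`≥ 512Q⁴`) contributes at most `L/Q` (otherwise `St_WEY` gives `q ≤ 16Q²`, `dI(qθ) ≤ 32Q⁴/L² ≤ 32Q⁴/ell²`); the
sections shorter than `ell` contribute at most `ε d_i H'` by `few`.  So `|E_i|/d_i ≤ (1+ε)H'/Q + εH'`.
Case B: `dI(qθ) ≤ 32Q⁴/ell²`, `1 ≤ q ≤ 16Q²`: `θ = a/q + β`, `a ∈ ℤ`, `|β| ≤ 32Q⁴/ell²`, so `2π|β|H2 ≤ 1/Q`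
(`202Q⁵H2 ≤ ell²`).  On `[k_i, k_i+H2)`, `k_i = k0+iH2`, replace `e(βk)` by `e(βk_i)`: total cost `(1+ε)d_iH'/Q`.  By
`cnt`: `∑_{that window} e(a(n²+m²)/q) = ∑_{u,v<q} e(a(u²+v²)/q)(d H2/q² + O(ε d H2/q²)) = dH2(G/q)² + O(εdH2)`,
`G = ∑_{u<q} e(au²/q)`.  Divide by `d_i`: the main terms `∑_i e(βk_i) H2 (G/q)²` are the same for `Ω_1`, `Ω_2`.
Both cases: `≤ 2(1+ε)H'/Q + 2εH' ≤ (4/Q + 2ε)H'`. -/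
def St_LEMS : Prop := ∀ (Ω1 Ω2 : Finset (ℕ × ℕ)) (d1 d2 ε : ℝ) (Q ell k0 H2 s : ℕ) (θ : ℝ),
  0 < d1 → 0 < d2 → 0 < ε → ε ≤ 1 → 1 ≤ Q → 512 * Q ^ 4 ≤ ell → 202 * Q ^ 5 * H2 ≤ ell ^ 2 →
  Win Ω1 d1 ε Q ell k0 H2 s → Win Ω2 d2 ε Q ell k0 H2 s →
  ‖(∑ p ∈ inW Ω1 k0 (k0 + H2 * s), ee ((sq2 p : ℝ) * θ)) / (d1 : ℂ) -
    (∑ p ∈ inW Ω2 k0 (k0 + H2 * s), ee ((sq2 p : ℝ) * θ)) / (d2 : ℂ)‖ ≤ (4 / Q + 2 * ε) * (H2 * s)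

/-- **WST** (strips satisfy `Win`).
Proof.  `H' = H2 s`, `d = M/(2√k0)`, `ε = 8/Q`.  Points of the strip with `sq2 < k0+H' ≤ N²` are all the points with
`n ≥ 1`, `1 ≤ m ≤ M`.  `sec`: clear.  `cnt`: fix `m ≤ M`; the `n ≡ u (q)` with `k1 ≤ n²+m² < k1+H2`
(`k1 = k0+iH2`) are `(√(k1+H2-m²) - √(k1-m²))/q + O(1)` (error `≤ 1`) in number, and the difference of the roots is
`H2/(√(k1+H2-m²)+√(k1-m²)) ∈ [H2/(2√(k0+H')), H2/(2√(k0-M²))]`; there are between `M/q - 1` and `M/q + 1` values of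
`m`.  With `(1-x)^{-1/2} ≤ 1+x` (`x ≤ 1/2`), `q ≤ 16Q²`, `√k0 ≤ N`: upper bound
`dH2/q² (1+q/M)(1+M²/k0+2√k0 q/H2) ≤ dH2/q² (1+1/(2Q))(1+1/Q+1/(2Q)) ≤ dH2/q²(1+8/Q)`, lower bound
`dH2/q²(1-1/(2Q))(1-1/Q-1/(2Q))`.  `few`: a non-empty section has `k0-M² ≤ n² < k0+H'`: at most
`(H'+M²)/√k0 + 1 ≤ 3M²/√k0` values of `n` (`√k0 ≤ N ≤ M²`), and `3M² ell/√k0 ≤ (8/Q) M H'/(2√k0)` since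
`ell·M·Q ≤ H'`. -/
def St_WST : Prop := ∀ N M Q ell k0 H2 s : ℕ, 1 ≤ s → 1 ≤ Q → k0 + H2 * s ≤ N ^ 2 →
  (M ^ 2 + H2 * s) * Q ≤ k0 → 2 * M ^ 2 ≤ k0 → 32 * Q ^ 3 ≤ M → 64 * N * Q ^ 3 ≤ H2 → H2 * s ≤ M ^ 2 →
  N ≤ M ^ 2 → ell * M * Q ≤ H2 * s →
  Win (Str N M) (M / (2 * Real.sqrt k0)) (8 / Q) Q ell k0 H2 s

/-- **WSC** (sectors satisfy `Win`); uses `St_SECT`, `St_AJ`.
Proof.  `d = aj`, `ε = 8/Q`.  `sec`: for fixed `n` all conditions on `m` are inequalities.  `cnt`: difference of two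
values of `St_SECT` (`k = k1 + H2` and `k = k1`, both `≤ N²`): error `≤ 8N/q + 4 ≤ 12N/q ≤ (8/Q)(1/(4R))H2/q²` because
`6NqQR ≤ 96NQ³R ≤ H2`.  (`inW (SecX R j N²) k1 (k1+H2)` is `SecX R j (k1+H2)` minus `SecX R j k1`.)  `few`: at most
`N` values of `n`, and `N ell ≤ (8/Q)(1/(4R))H'`. -/
def St_WSC : Prop := ∀ R j N Q ell k0 H2 s : ℕ, 1 ≤ R → j < R → 1 ≤ Q → k0 + H2 * s ≤ N ^ 2 →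
  96 * R * N * Q ^ 3 ≤ H2 → R * N * ell * Q ≤ H2 * s → 16 * Q ^ 2 ≤ N →
  Win (SecX R j (N ^ 2)) (aj R j) (8 / Q) Q ell k0 H2 s

/-- **WDS** (window discrepancy of two strips); uses `St_LEMS`, `St_WST`.
Proof.  `J = [k0, k0+H')`, `H' = H2 s`.  `∑_{k∈J} rhoS N M k e(kθ) = (2/(N²M)) ∑_{p ∈ inW (Str N M) J} n e(θ sq2 p)`; here
`|n - √k0| = |n²-k0|/(n+√k0) ≤ (M²+H')/√k0`, so this is `(1/N²) E/d` (`d = M/(2√k0)`) up to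
`(2/(N²M)) ((M²+H')/√k0) (1+8/Q) d H' ≤ 2(M²+H')H'/(N²k0) ≤ 2H'/(QN²)` (`Q ≥ 8`).  `St_LEMS` with `ε = 8/Q`:
`20H'/Q`.  Total `≤ 24H'/(QN²)`. -/
def St_WDS : Prop := ∀ (N M1 M2 Q ell k0 H2 s : ℕ) (θ : ℝ), 1 ≤ s → 8 ≤ Q → k0 + H2 * s ≤ N ^ 2 →
  M1 ≤ M2 → (M2 ^ 2 + H2 * s) * Q ≤ k0 → 32 * Q ^ 3 ≤ M1 → 64 * N * Q ^ 3 ≤ H2 → H2 * s ≤ M1 ^ 2 →
  N ≤ M1 ^ 2 → ell * M2 * Q ≤ H2 * s → 512 * Q ^ 4 ≤ ell → 202 * Q ^ 5 * H2 ≤ ell ^ 2 →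
  ‖∑ k ∈ Ico k0 (k0 + H2 * s), ((rhoS N M1 k - rhoS N M2 k : ℝ) : ℂ) * ee ((k : ℝ) * θ)‖ ≤
    24 / Q * (H2 * s) / (N : ℝ) ^ 2

/-- **WDC** (window discrepancy of a strip and a sector); uses `St_LEMS`, `St_WST`, `St_WSC`, `St_AJ`.
Proof.  As `St_WDS`; `∑_{k∈J} sigS R j N k e(kθ) = (1/N²) E/aj` exactly. -/
def St_WDC : Prop := ∀ (N M R j Q ell k0 H2 s : ℕ) (θ : ℝ), 1 ≤ s → 8 ≤ Q → k0 + H2 * s ≤ N ^ 2 →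
  1 ≤ R → j < R → M ≤ N → (M ^ 2 + H2 * s) * Q ≤ k0 → 32 * Q ^ 3 ≤ M → 96 * R * N * Q ^ 3 ≤ H2 →
  H2 * s ≤ M ^ 2 → N ≤ M ^ 2 → R * N * ell * Q ≤ H2 * s → 512 * Q ^ 4 ≤ ell → 202 * Q ^ 5 * H2 ≤ ell ^ 2 →
  ‖∑ k ∈ Ico k0 (k0 + H2 * s), ((rhoS N M k - sigS R j N k : ℝ) : ℂ) * ee ((k : ℝ) * θ)‖ ≤
    24 / Q * (H2 * s) / (N : ℝ) ^ 2

/-- **MSS** (mass of the strip measure).
Proof.  The sum of `rhoS N M` over a set `S` of `k` is `(2/(N²M)) ∑_{p ∈ Str, sq2 p ∈ S} n`.  All `k`: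
`(2/(N²M)) M N(N+1)/2 ≤ 2`.  `k < Y`: then `n² < Y`, `∑ 2n ≤ r(r+1) ≤ 2r² ≤ 2Y` (`r` the largest such `n`).
`k ≥ N² - Y`: `n² ≥ N² - Y - M²`, and `∑_{n₁ ≤ n ≤ N} 2n = N(N+1) - n₁(n₁-1) ≤ Y + M² + 2N` where `n₁ ≤ N` is the
least such `n ≥ 1` (`n₁² ≥ N² - Y - M²`, `n₁ ≤ N`). -/
def St_MSS : Prop := ∀ N M : ℕ, 1 ≤ M → M ≤ N → (∀ k, 0 ≤ rhoS N M k) ∧
  (∑ k ∈ range (2 * N ^ 2 + 1), rhoS N M k ≤ 2) ∧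
  (∀ Y : ℕ, ∑ k ∈ range Y, rhoS N M k ≤ 2 * Y / (N : ℝ) ^ 2) ∧
  (∀ Y k1 : ℕ, N ^ 2 ≤ k1 + Y →
    ∑ k ∈ Ico k1 (2 * N ^ 2 + 1), rhoS N M k ≤ ((Y : ℝ) + M ^ 2 + 2 * N) / (N : ℝ) ^ 2)

/-- **MSC** (mass of the sector measure); uses `St_AJ`, `St_SECT`.
Proof.  The sum of `sigS R j N` over `S` is `#{p ∈ SecX R j N² : sq2 p ∈ S}/(aj N²)`, `1/aj ≤ 4R`.  All `k`: `St_SECT`
with `q = 1`: `≤ 1 + (4N+2)4R/N² ≤ 2` (`N ≥ 32R`).  `k < Y`: at most `Y` points `n, m ≥ 1` with `n²+m² < Y`.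
`k ≥ k1 ≥ N² - Y` (`Y ≤ N²/2`): for each `m < N` the `n` satisfy `n ≥ m`, so `n² ≥ (N²-Y)/2 ≥ N²/4`, `n ≥ N/2`, and
`n²` lies in an interval of length `Y`: at most `Y/N + 1` values; total `≤ Y + N`. -/
def St_MSC : Prop := ∀ N R j : ℕ, 1 ≤ R → j < R → 32 * R ≤ N → (∀ k, 0 ≤ sigS R j N k) ∧
  (∑ k ∈ range (2 * N ^ 2 + 1), sigS R j N k ≤ 2) ∧
  (∀ Y : ℕ, ∑ k ∈ range Y, sigS R j N k ≤ 4 * R * Y / (N : ℝ) ^ 2) ∧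
  (∀ Y k1 : ℕ, N ^ 2 ≤ k1 + Y → 2 * Y ≤ N ^ 2 →
    ∑ k ∈ Ico k1 (2 * N ^ 2 + 1), sigS R j N k ≤ 4 * R * ((Y : ℝ) + N) / (N : ℝ) ^ 2)

/-- **COMB** (combination); uses `St_STRUCT`, `St_STR`, `St_NRM`.
Proof.  `ρ = ρ1 - ρ2`, `ρm` its restriction to `Ico (i0 H') (i1 H')`, `ρr = ρ - ρm`, of total variation `≤ 2ω`.
`St_STRUCT`: `f = f' + ∑_{i<I} c_i(tl) ch (z_i)`, `f'` flat, `n2 f' ≤ 1` (tile energies), `I ≤ η^{-2}`.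
`T_ρ(f,g) = T_{ρr}(f,g) + T_{ρm}(f',g) + ∑_i T_{ρm}(c_i ch z_i, g)`, and `T_{ρm}(f',g) = T_{ρ1}(f',g) - T_{ρ2}(f',g)
- T_{ρr}(f',g)`.  By (0.1) and the hypotheses: `n2 ≤ 2ω + (2υ + 2ω) + I·max_i`, and by `St_STR`
(`𝒥 = Ico i0 i1`, `σ i = σH'/N²`): `max_i ≤ σ (i1-i0)H'/N² + √(H'/H)·∑|ρ| ≤ σ + 4√(H'/H)`. -/
def St_COMB : Prop := ∀ (P H T H' i0 i1 X N : ℕ) [NeZero P] (ρ1 ρ2 : ℕ → ℝ) (η υ ω σ : ℝ)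
  (f g : ZMod P → ℂ), P = H * T → 1 ≤ H' → H' ≤ H → 1 ≤ N → 0 < η → η ≤ 1 → 0 ≤ σ → i0 ≤ i1 → i1 * H' ≤ N ^ 2 →
  i1 * H' ≤ X → (∀ k, 0 ≤ ρ1 k) → (∀ k, 0 ≤ ρ2 k) → ∑ k ∈ range X, ρ1 k ≤ 2 → ∑ k ∈ range X, ρ2 k ≤ 2 →
  ∑ k ∈ range (i0 * H'), ρ1 k + ∑ k ∈ Ico (i1 * H') X, ρ1 k ≤ ω →
  ∑ k ∈ range (i0 * H'), ρ2 k + ∑ k ∈ Ico (i1 * H') X, ρ2 k ≤ ω →
  (∀ f' g' : ZMod P → ℂ, Flat H T η f' → (∀ u, ‖g' u‖ ≤ 1) → n2 (Tr X ρ1 f' g') ≤ υ) →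
  (∀ f' g' : ZMod P → ℂ, Flat H T η f' → (∀ u, ‖g' u‖ ≤ 1) → n2 (Tr X ρ2 f' g') ≤ υ) →
  (∀ i : ℕ, i0 ≤ i → i < i1 → ∀ θ : ℝ,
    ‖∑ k ∈ Ico (i * H') ((i + 1) * H'), ((ρ1 k - ρ2 k : ℝ) : ℂ) * ee ((k : ℝ) * θ)‖ ≤
      σ * H' / (N : ℝ) ^ 2) →
  (∀ u, ‖f u‖ ≤ 1) → (∀ u, ‖g u‖ ≤ 1) →
  n2 (Tr X (fun k => ρ1 k - ρ2 k) f g) ≤
    2 * υ + 4 * ω + 1 / η ^ 2 * (σ + 4 * Real.sqrt ((H' : ℝ) / H))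

/-- **FSS** (finitary comparison of strips); uses `St_COMB`, `St_UNS`, `St_WDS`, `St_MSS`.
Proof.  Parameters (integer divisions): `K = L³`, `B = L²⁷`, `η = L⁻⁴¹`, `Q = L⁸³`, `H = M1²/L`, `h0 = H/L¹⁶⁶`,
`ell = h0/(2 M2 Q)`, `H2 = ell²/(202Q⁵)`, `s = h0/H2`, `H' = H2 s ∈ (h0/2, h0]`, `T = 5N²/(HB) + 1`, `P = H(BT)`,
`i0 = N²/(KH') + 1`, `i1 = N²/H'`, `μ_i = H/(2M_i)`, `D0 = L`, `X = 2N²+1`.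
From `L¹²⁰⁰ N M2² ≤ M1⁴` and `M1 ≤ M2 ≤ N`: `M1² ≥ L⁶⁰⁰ √N M2 ≥ L¹²⁰⁰ N`... precisely `M1² ≥ L¹²⁰⁰ N`
(divide by `M2² ≥ M1²`) and `M1 ≥ L¹²⁰⁰` (divide by `N M1² ≥ M1³`).
`ell ≥ M1²/(4 M2 L²⁵⁰)`, so `ell² ≥ M1⁴/(16 M2² L⁵⁰⁰) ≥ N L⁷⁰⁰/16`, `ell ≥ 512Q⁴ = 512 L³³²`;
`H2 ≥ ell²/(404 L⁴¹⁵) ≥ 64 N L²⁴⁹ = 64NQ³`; `H2 ≤ h0/2` (`ell ≤ M2`, so `H2 ≤ ell·h0/(404 M2Q⁶)`), so `s ≥ 2` and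
`H' > h0/2`, `ell M2 Q ≤ h0/2 ≤ H'`; `H' ≤ H ≤ M1²`; `(M2²+H')Q ≤ 2M2²L⁸³ ≤ N²/L³ ≤ k0` for all windows
(`L¹⁰⁰M2 ≤ N`; `k0 ≥ i0H' ≥ N²/K`); `P ∈ [5N², 6N²]` (`HB ≤ M1²L²⁶ ≤ N²`); `μ_i ≥ L²`, `2μ_i/M_i ≤ H/M_i² ≤ 1/L`;
`512K⁵ ≤ N`.  `υ ≤ 2√(L⁻² + 12L⁻² + 2¹⁷L²⁵√78 L⁻²⁷) + 1/L ≤ 2200/L` (`6Bη² ≤ 6L⁻⁵⁵`, `72/B² = 72L⁻⁵⁴`);
`ω ≤ 2i0H'/N² + (H'+M²+2N)/N² ≤ 7/L` (`Y = H'`: `i1H' + H' ≥ N²`); `σ = 24/Q`, `√(H'/H) ≤ L⁻⁸³`: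
`L⁸²(24L⁻⁸³ + 4L⁻⁸³) = 28/L`.  Sum `≤ 4500/L`. -/
def St_FSS : Prop := ∃ L0 : ℕ, ∀ L : ℕ, L0 ≤ L → ∀ N M1 M2 : ℕ, 1 ≤ M1 → M1 ≤ M2 →
  L ^ 1200 * (N * M2 ^ 2) ≤ M1 ^ 4 → L ^ 100 * M2 ≤ N →
  (∀ l : ℕ, 1 ≤ l → l ≤ N ^ 2 → l.divisors.card ≤ L) →
  ∃ (P : ℕ) (_ : NeZero P), 5 * N ^ 2 ≤ P ∧ P ≤ 16 * N ^ 2 ∧ ∀ f g : ZMod P → ℂ, (∀ u, ‖f u‖ ≤ 1) →
    (∀ u, ‖g u‖ ≤ 1) →
    n2 (Tr (P := P) (2 * N ^ 2 + 1) (fun k => rhoS N M1 k - rhoS N M2 k) f g) ≤ 8192 / L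

/-- **FSC** (finitary comparison of a strip and a sector); uses `St_COMB`, `St_UNS`, `St_USC`, `St_WDC`, `St_MSS`,
`St_MSC`.  Proof.  As `St_FSS` with `M1 = M` and `M2` replaced by `N` in the choice of `ell`:
`ell = h0/(2 N R Q)` (`≥ M²/(4 N L²⁵¹)`, `ell² ≥ N L⁶⁹⁸/16`), `μ` of the strip `H/(2M)`, of the sector `H/(2N)`
(`8Rμ/N ≤ 4RH/N² ≤ 4R/L`), the same `K, B, η, Q, H, h0, T`; `96RNQ³ ≤ 96NL²⁵⁰ ≤ H2`.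
`υ ≤ max(2200/L, 8R·1100/L + 4R/L)`, `ω ≤ 4R·4/L`.  Sum `≤ 2¹⁵R/L`. -/
def St_FSC : Prop := ∃ L0 : ℕ, ∀ L : ℕ, L0 ≤ L → ∀ N M R j : ℕ, 1 ≤ M → 1 ≤ R → j < R → R ≤ L →
  L ^ 1200 * N ^ 3 ≤ M ^ 4 → L ^ 100 * M ≤ N →
  (∀ l : ℕ, 1 ≤ l → l ≤ N ^ 2 → l.divisors.card ≤ L) →
  ∃ (P : ℕ) (_ : NeZero P), 5 * N ^ 2 ≤ P ∧ P ≤ 16 * N ^ 2 ∧ ∀ f g : ZMod P → ℂ, (∀ u, ‖f u‖ ≤ 1) →
    (∀ u, ‖g u‖ ≤ 1) →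
    n2 (Tr (P := P) (2 * N ^ 2 + 1) (fun k => rhoS N M k - sigS R j N k) f g) ≤ 2 ^ 15 * R / L

end Pool.Agent.BSQ
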