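import Pool.Agent.BSQ.Conv
import Pool.Agent.BSQ.StA

/-!
# BSQ: the converse direction (helper44)
-/

set_option autoImplicit false

namespace Pool.Agent.BSQ

open Finset MeasureTheory Filter Topology
open scoped BigOperators
open Classical

/-- `⌊N^c⌋/N^c → 1`. -/
private theorem c2_floor (c : ℝ) (hc : 0 < c) :
    Tendsto (fun N : ℕ => (⌊(N : ℝ) ^ c⌋₊ : ℝ) / (N : ℝ) ^ c) atTop (𝓝 1) := by
  have h1 : Tendsto (fun N : ℕ => (N : ℝ) ^ c) atTop atTop :=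
    (tendsto_rpow_atTop hc).comp tendsto_natCast_atTop_atTop
  exact (tendsto_nat_floor_div_atTop (R := ℝ)).comp h1

theorem c2_AF' (F : ℕ → ℝ) (c : ℝ) (hc : 0 < c) (N : ℕ) (hN : 1 ≤ N) :
    AF F c N = (⌊(N : ℝ) ^ c⌋₊ : ℝ) / (N : ℝ) ^ c * UF F N ⌊(N : ℝ) ^ c⌋₊ := by
  have hN0 : (0 : ℝ) < N := by exact_mod_cast hN
  have h1 : 1 ≤ ⌊(N : ℝ) ^ c⌋₊ := Nat.le_floor (by
    rw [Nat.cast_one]
    exact Real.one_le_rpow (by exact_mod_cast hN) hc.le)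
  have hM : (⌊(N : ℝ) ^ c⌋₊ : ℝ) ≠ 0 := by positivity
  have hNc : (0 : ℝ) < (N : ℝ) ^ c := by positivity
  unfold AF UF
  rw [Real.rpow_add hN0, Real.rpow_one]
  field_simp

/-- `AF F c N → L` iff `UF F N ⌊N^c⌋ → L`. -/
theorem c2_iff (F : ℕ → ℝ) (c : ℝ) (hc : 0 < c) (L : ℝ) :
    Tendsto (fun N : ℕ => AF F c N) atTop (𝓝 L) ↔
      Tendsto (fun N : ℕ => UF F N ⌊(N : ℝ) ^ c⌋₊) atTop (𝓝 L) := by
  have h1 := c2_floor c hc
  constructor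
  · intro h
    have h2 : Tendsto (fun N : ℕ => AF F c N / ((⌊(N : ℝ) ^ c⌋₊ : ℝ) / (N : ℝ) ^ c)) atTop
        (𝓝 (L / 1)) := h.div h1 one_ne_zero
    rw [div_one] at h2
    refine h2.congr' ?_
    filter_upwards [eventually_ge_atTop 1] with N hN
    rw [c2_AF' F c hc N hN]
    have hN0 : (0 : ℝ) < N := by exact_mod_cast hN
    have h3 : 1 ≤ ⌊(N : ℝ) ^ c⌋₊ := Nat.le_floor (by
      rw [Nat.cast_one]
      exact Real.one_le_rpow (by exact_mod_cast hN) hc.le)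
    have hM : (⌊(N : ℝ) ^ c⌋₊ : ℝ) ≠ 0 := by positivity
    have hNc : (N : ℝ) ^ c ≠ 0 := by positivity
    field_simp
  · intro h
    have h2 := h1.mul h
    rw [one_mul] at h2
    refine h2.congr' ?_
    filter_upwards [eventually_ge_atTop 1] with N hN
    rw [c2_AF' F c hc N hN]

/-- `⌊n^c⌋` lies between `n^{c1}` and `n^{c2}` for `c1 < c ≤ c2`, `n` large. -/
theorem c2_fl (c1 c c2 : ℝ) (h1 : 0 < c1) (h2 : c1 < c) (h3 : c ≤ c2) :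
    ∃ N0 : ℕ, ∀ N : ℕ, N0 ≤ N → (N : ℝ) ^ c1 ≤ (⌊(N : ℝ) ^ c⌋₊ : ℝ) ∧
      (⌊(N : ℝ) ^ c⌋₊ : ℝ) ≤ (N : ℝ) ^ c2 := by
  have h4 : Tendsto (fun N : ℕ => (N : ℝ) ^ (c - c1)) atTop atTop :=
    (tendsto_rpow_atTop (by linarith)).comp tendsto_natCast_atTop_atTop
  obtain ⟨N0, hN0⟩ := eventually_atTop.1 (h4.eventually_ge_atTop 2)
  refine ⟨N0 + 1, fun N hN => ?_⟩
  have hN1 : (1 : ℝ) ≤ N := by
    have : 1 ≤ N := by omega
    exact_mod_cast this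
  have hNp : (0 : ℝ) < N := by linarith
  have h5 := hN0 N (by omega)
  have h6 : (1 : ℝ) ≤ (N : ℝ) ^ c1 := Real.one_le_rpow hN1 h1.le
  refine ⟨?_, ?_⟩
  · have h7 : (N : ℝ) ^ c = (N : ℝ) ^ (c - c1) * (N : ℝ) ^ c1 := by
      rw [← Real.rpow_add hNp]; congr 1; ring
    have h8 : (N : ℝ) ^ c < (⌊(N : ℝ) ^ c⌋₊ : ℝ) + 1 := Nat.lt_floor_add_one _
    nlinarith
  · exact (Nat.floor_le (by positivity)).trans (Real.rpow_le_rpow_of_exponent_le hN1 h3)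

/-- if the unweighted averages with exponent `c` converge, so do the weighted ones with exponent `7/8`. -/
theorem c2_conv (F : ℕ → ℝ) (hF : ∀ k, |F k| ≤ 1)
    (hU : ∀ c1 c2 : ℝ, 1 / 2 < c1 → c1 ≤ c2 → c2 < 1 → UnifU F c1 c2)
    (c : ℝ) (hc : 1 / 2 < c) (hc1 : c < 1) (L : ℝ)
    (hL : Tendsto (fun N : ℕ => UF F N ⌊(N : ℝ) ^ c⌋₊) atTop (𝓝 L)) :
    Tendsto (fun N : ℕ => WF F N ⌊(N : ℝ) ^ (7 / 8 : ℝ)⌋₊) atTop (𝓝 L) := by
  -- exponents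
  set d1 := (1 / 2 + min c (7 / 8)) / 2 with hd1
  set d2 := max c (7 / 8) with hd2
  set d3 := (d2 + 1) / 2 with hd3
  have m1 : 1 / 2 < min c (7 / 8) := lt_min hc (by norm_num)
  have m2 : min c (7 / 8) ≤ c := min_le_left _ _
  have m3 : min c (7 / 8) ≤ 7 / 8 := min_le_right _ _
  have m4 : c ≤ d2 := le_max_left _ _
  have m5 : (7 / 8 : ℝ) ≤ d2 := le_max_right _ _
  have m6 : d2 < 1 := max_lt hc1 (by norm_num)
  have e1 : 1 / 2 < d1 := by rw [hd1]; linarith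
  have e2 : d1 < c := by rw [hd1]; linarith
  have e3 : d1 < 7 / 8 := by rw [hd1]; linarith
  have e4 : d2 < d3 := by rw [hd3]; linarith
  have e5 : d3 < 1 := by rw [hd3]; linarith
  obtain ⟨Nf, hNf⟩ := c2_fl d1 c d3 (by linarith) e2 (by linarith)
  obtain ⟨Ng, hNg⟩ := c2_fl d1 (7 / 8) d2 (by linarith) e3 m5
  have hUU := hU d1 d3 e1 (by linarith) e5
  set u : ℕ → ℕ → ℝ := fun N k => UF F (k + 1) ⌊((N : ℝ) + 1) ^ (7 / 8 : ℝ)⌋₊ - L with hu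
  have hub : ∀ N k, |u N k| ≤ 1 + |L| := fun N k =>
    (abs_sub _ _).trans (add_le_add (cv_Ub F hF _ _) le_rfl)
  have key : ∀ ε' δ : ℝ, 0 < ε' → 0 < δ → ∃ N0 : ℕ, ∀ N : ℕ, N0 ≤ N → ∀ k : ℕ, k ≤ N →
      δ * ((N : ℝ) + 1) ≤ (k : ℝ) + 1 → |u N k| ≤ ε' := by
    intro ε' δ hε' hδ
    obtain ⟨N1, hN1⟩ := hUU (ε' / 2) (by positivity)
    obtain ⟨N2, hN2⟩ := Metric.tendsto_atTop.1 hL (ε' / 2) (by positivity)
    obtain ⟨N0, hN0⟩ := cv_exp' d1 d2 d3 δ (by linarith) (by linarith) e4 hδ (max N1 (max N2 Nf))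
    refine ⟨max N0 Ng, fun N hN k hk hδk => ?_⟩
    have hg := hNg (N + 1) (by have := le_max_right N0 Ng; omega)
    obtain ⟨f1, f2⟩ := hN0 (N + 1) (by have := le_max_left N0 Ng; omega) (k + 1) (by omega)
      (by push_cast; exact hδk)
    obtain ⟨g1, g2⟩ := f2 ⌊(((N + 1 : ℕ)) : ℝ) ^ (7 / 8 : ℝ)⌋₊ hg.1 hg.2
    have a1 : N1 ≤ k + 1 := (le_max_left _ _).trans f1
    have a2 : N2 ≤ k + 1 := ((le_max_left _ _).trans (le_max_right _ _)).trans f1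
    have a3 : Nf ≤ k + 1 := ((le_max_right _ _).trans (le_max_right _ _)).trans f1
    have b1 := hN1 (k + 1) a1 _ _ g1 g2 (hNf (k + 1) a3).1 (hNf (k + 1) a3).2
    have b2 := hN2 (k + 1) a2
    rw [Real.dist_eq] at b2
    simp only [hu]
    have b3 := abs_add_le (UF F (k + 1) ⌊(((N + 1 : ℕ)) : ℝ) ^ (7 / 8 : ℝ)⌋₊ -
      UF F (k + 1) ⌊(((k + 1 : ℕ)) : ℝ) ^ c⌋₊) (UF F (k + 1) ⌊(((k + 1 : ℕ)) : ℝ) ^ c⌋₊ - L)
    have b4 : UF F (k + 1) ⌊(((N + 1 : ℕ)) : ℝ) ^ (7 / 8 : ℝ)⌋₊ - UF F (k + 1) ⌊(((k + 1 : ℕ)) : ℝ) ^ c⌋₊ +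
      (UF F (k + 1) ⌊(((k + 1 : ℕ)) : ℝ) ^ c⌋₊ - L) =
      UF F (k + 1) ⌊((N : ℝ) + 1) ^ (7 / 8 : ℝ)⌋₊ - L := by push_cast; ring
    rw [b4] at b3
    linarith
  rw [Metric.tendsto_atTop]
  intro ε hε
  obtain ⟨Na, hNa⟩ := cv_tail' u (1 + |L|) (by positivity) hub
    (fun a b ha hb => by
      obtain ⟨N0, hN0⟩ := key a b ha hb
      exact ⟨N0, fun N hN k hk => hN0 N hN k hk.le⟩) (ε / 8) (by positivity)
  obtain ⟨Nb, hNb⟩ := key (ε / 8) 1 (by positivity) one_pos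
  have hz : Tendsto (fun N : ℕ => |L| / ((N : ℝ) + 1)) atTop (𝓝 0) :=
    tendsto_const_nhds.div_atTop (tendsto_atTop_add_const_right _ _ tendsto_natCast_atTop_atTop)
  obtain ⟨Nc, hNc⟩ := Metric.tendsto_atTop.1 hz (ε / 8) (by positivity)
  refine ⟨max Na (max Nb Nc) + 1, fun N hN => ?_⟩
  obtain ⟨K, rfl⟩ : ∃ K, N = K + 1 := ⟨N - 1, by omega⟩
  have l1 : Na ≤ K := by have := le_max_left Na (max Nb Nc); omega
  have l2 : Nb ≤ K := by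
    have := (le_max_left Nb Nc).trans (le_max_right Na (max Nb Nc)); omega
  have l3 : Nc ≤ K := by
    have := (le_max_right Nb Nc).trans (le_max_right Na (max Nb Nc)); omega
  have q1 := hNa K l1
  have q2 := hNb K l2 K le_rfl (by simp)
  have q3 := hNc K l3
  rw [Real.dist_eq, sub_zero, abs_of_nonneg (by positivity)] at q3
  rw [Real.dist_eq]
  push_cast
  set M := ⌊((K : ℝ) + 1) ^ (7 / 8 : ℝ)⌋₊ with hM
  have hM1 : 1 ≤ M := Nat.le_floor (by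
    rw [Nat.cast_one]
    exact Real.one_le_rpow (by linarith [show (0 : ℝ) ≤ K by positivity]) (by norm_num))
  have hK1 : (0 : ℝ) < (K : ℝ) + 1 := by positivity
  have hid : WF F (K + 1) M - L = 2 * u K K -
      2 / ((K : ℝ) + 1) ^ 2 * ∑ k ∈ range K, ((k : ℝ) + 1) * u K k + L / ((K : ℝ) + 1) := by
    rw [cv_W F K M hM1]
    have hs : ∑ k ∈ range K, ((k : ℝ) + 1) * u K k =
        ∑ k ∈ range K, ((k : ℝ) + 1) * UF F (k + 1) M - L * ((K : ℝ) * (K + 1) / 2) := by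
      have hg : ∑ k ∈ range K, ((k : ℝ) + 1) = (K : ℝ) * (K + 1) / 2 := by
        clear * -
        induction K with
        | zero => simp
        | succ K ih => rw [sum_range_succ, ih]; push_cast; ring
      rw [← hg, mul_sum, ← sum_sub_distrib]
      refine sum_congr rfl fun k _ => ?_
      simp only [hu]
      ring
    rw [hs]
    simp only [hu]
    rw [← hM]
    field_simp
    ring
  rw [hid]
  have t1 : |2 / ((K : ℝ) + 1) ^ 2 * ∑ k ∈ range K, ((k : ℝ) + 1) * u K k| ≤ 2 * (ε / 8) := by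
    rw [abs_mul, abs_of_nonneg (by positivity)]
    have t2 : |∑ k ∈ range K, ((k : ℝ) + 1) * u K k| ≤ ((K : ℝ) + 1) * ∑ k ∈ range K, |u K k| := by
      refine (abs_sum_le_sum_abs _ _).trans ?_
      rw [mul_sum]
      refine sum_le_sum fun k hk => ?_
      rw [abs_mul, abs_of_nonneg (by positivity)]
      refine mul_le_mul_of_nonneg_right ?_ (abs_nonneg _)
      have : (k : ℝ) ≤ K := by exact_mod_cast (mem_range.1 hk).le
      linarith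
    calc 2 / ((K : ℝ) + 1) ^ 2 * |∑ k ∈ range K, ((k : ℝ) + 1) * u K k|
        ≤ 2 / ((K : ℝ) + 1) ^ 2 * (((K : ℝ) + 1) * ∑ k ∈ range K, |u K k|) :=
          mul_le_mul_of_nonneg_left t2 (by positivity)
      _ = 2 * (1 / ((K : ℝ) + 1) * ∑ k ∈ range K, |u K k|) := by field_simp
      _ ≤ 2 * (ε / 8) := mul_le_mul_of_nonneg_left q1 (by norm_num)
  have t3 : |L / ((K : ℝ) + 1)| < ε / 8 := by
    rw [abs_div, abs_of_pos hK1]
    exact q3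
  have t4 := abs_add_le (2 * u K K - 2 / ((K : ℝ) + 1) ^ 2 * ∑ k ∈ range K, ((k : ℝ) + 1) * u K k)
    (L / ((K : ℝ) + 1))
  have t5 := abs_sub (2 * u K K) (2 / ((K : ℝ) + 1) ^ 2 * ∑ k ∈ range K, ((k : ℝ) + 1) * u K k)
  have t6 : |2 * u K K| ≤ 2 * (ε / 8) := by
    rw [abs_mul, abs_of_pos (by norm_num : (0 : ℝ) < 2)]
    linarith
  linarith

/-- from strips back to squares. -/
theorem c2_square (hDBR : St_DBR) (F : ℕ → ℝ) (hF : ∀ k, |F k| ≤ 1)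
    (hS : ∀ R j : ℕ, 1 ≤ R → j < R → Tendsto (fun N : ℕ => SF F R j N -
      WF F N ⌊(N : ℝ) ^ (7 / 8 : ℝ)⌋₊) atTop (𝓝 0)) (L : ℝ)
    (hL : Tendsto (fun N : ℕ => WF F N ⌊(N : ℝ) ^ (7 / 8 : ℝ)⌋₊) atTop (𝓝 L)) :
    Tendsto (fun N : ℕ => BF F N) atTop (𝓝 L) := by
  rw [Metric.tendsto_atTop]
  intro ε hε
  obtain ⟨R, hR⟩ := exists_nat_gt (16 / ε)
  have hR0 : (0 : ℝ) < R := lt_trans (by positivity) hR
  have hR1 : 1 ≤ R := by exact_mod_cast hR0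
  obtain ⟨N0, hN0⟩ := hDBR F hF R hR1
  have hSL : ∀ j < R, Tendsto (fun N : ℕ => SF F R j N) atTop (𝓝 L) := by
    intro j hj
    have := (hS R j hR1 hj).add hL
    simpa using this
  have hSc : ∀ j < R, Tendsto (fun N : ℕ => SF F R j ⌊Real.sqrt (1 + ((j : ℝ) / R) ^ 2) * N⌋₊)
      atTop (𝓝 L) := by
    intro j hj
    refine (hSL j hj).comp ?_
    refine tendsto_nat_floor_atTop.comp ?_
    exact tendsto_natCast_atTop_atTop.const_mul_atTop (Real.sqrt_pos.2 (by positivity))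
  have hsum : Tendsto (fun N : ℕ => (1 / (R : ℝ)) * ∑ j ∈ range R,
      SF F R j ⌊Real.sqrt (1 + ((j : ℝ) / R) ^ 2) * N⌋₊) atTop (𝓝 L) := by
    have h1 := (tendsto_finsetSum (range R) (fun j hj => hSc j (mem_range.1 hj))).const_mul
      (1 / (R : ℝ))
    have h2 : 1 / (R : ℝ) * ∑ j ∈ range R, L = L := by
      rw [sum_const, card_range, nsmul_eq_mul]
      field_simp
    rw [h2] at h1
    exact h1
  obtain ⟨N1, hN1⟩ := Metric.tendsto_atTop.1 hsum (ε / 2) (by positivity)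
  refine ⟨max N0 N1, fun N hN => ?_⟩
  have h1 := hN0 N ((le_max_left _ _).trans hN)
  have h2 := hN1 N ((le_max_right _ _).trans hN)
  rw [Real.dist_eq] at h2 ⊢
  have h3 : 8 / (R : ℝ) < ε / 2 := by
    rw [div_lt_iff₀ hR0]
    rw [div_lt_iff₀ hε] at hR
    linarith
  have h4 := abs_add_le (BF F N - (1 / (R : ℝ)) * ∑ j ∈ range R,
      SF F R j ⌊Real.sqrt (1 + ((j : ℝ) / R) ^ 2) * N⌋₊) ((1 / (R : ℝ)) * ∑ j ∈ range R,
      SF F R j ⌊Real.sqrt (1 + ((j : ℝ) / R) ^ 2) * N⌋₊ - L)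
  rw [sub_add_sub_cancel] at h4
  linarith

end Pool.Agent.BSQ
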