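import Mathlib

/-!
# BSQ (MP_70d78b_an): bilinear averages along `n² + m²`, `m ≤ N^c` (helper44)

Definitions.  Paper proof: team store, `bsq_paper_helper44.md`.
-/

set_option autoImplicit false

namespace Pool.Agent.BSQ

open Finset MeasureTheory Filter Topology
open scoped BigOperators
open Classical

/-- `e(t) = exp(2 π i t)`. -/
noncomputable def ee (t : ℝ) : ℂ := Complex.exp ((2 * Real.pi * t : ℝ) * Complex.I)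

/-- distance to the nearest integer. -/
noncomputable def dI (t : ℝ) : ℝ := |t - round t|

/-- the characters of `ℤ/P`: `ch b u = e(b u / P)`. -/
noncomputable def ch {P : ℕ} [NeZero P] (b u : ZMod P) : ℂ := ZMod.stdAddChar (b * u)

/-- Fourier transform on `ℤ/P` (unnormalised). -/
noncomputable def ft {P : ℕ} [NeZero P] (F : ZMod P → ℂ) (b : ZMod P) : ℂ :=
  ∑ u : ZMod P, F u * ch (-b) u

/-- normalised `L²` norm on `ℤ/P`. -/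
noncomputable def n2 {P : ℕ} [NeZero P] (φ : ZMod P → ℂ) : ℝ :=
  Real.sqrt ((∑ y : ZMod P, ‖φ y‖ ^ 2) / P)

/-- the bilinear operator `T_ρ(f, g)(y) = ∑_{k < X} ρ(k) f(y + k) g(y - k)`. -/
noncomputable def Tr {P : ℕ} [NeZero P] (X : ℕ) (ρ : ℕ → ℝ) (f g : ZMod P → ℂ) (y : ZMod P) : ℂ :=
  ∑ k ∈ range X, (ρ k : ℂ) * (f (y + (k : ZMod P)) * g (y - (k : ZMod P)))

/-- the tile of `u`. -/
def tl (H : ℕ) {P : ℕ} (u : ZMod P) : ℕ := u.val / H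

/-- local Fourier coefficient of `f` on the tile `t` at the frequency `z`. -/
noncomputable def fh {P : ℕ} [NeZero P] (H : ℕ) (f : ZMod P → ℂ) (z : ZMod P) (t : ℕ) : ℂ :=
  ∑ u ∈ univ.filter (fun u : ZMod P => tl H u = t), f u * ch (-z) u

/-- all tiles have energy at most `H`. -/
def TileE {P : ℕ} [NeZero P] (H : ℕ) (f : ZMod P → ℂ) : Prop :=
  ∀ t : ℕ, ∑ u ∈ univ.filter (fun u : ZMod P => tl H u = t), ‖f u‖ ^ 2 ≤ H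

/-- flat functions. -/
def Flat {P : ℕ} [NeZero P] (H T : ℕ) (η : ℝ) (f : ZMod P → ℂ) : Prop :=
  TileE H f ∧ ∀ z : ZMod P, ∑ t ∈ range T, ‖fh H f z t‖ ^ 2 ≤ η ^ 2 * H ^ 2 * T

/-- `F_l(u) = f(u) conj f(u + l)`. -/
noncomputable def Fl {P : ℕ} (f : ZMod P → ℂ) (l : ℤ) (u : ZMod P) : ℂ :=
  f u * (starRingEnd ℂ) (f (u + (l : ZMod P)))

/-- the major frequencies. -/
noncomputable def MajS (P N K : ℕ) [NeZero P] : Finset (ZMod P) :=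
  univ.filter (fun b : ZMod P => ∃ q : ℕ, 1 ≤ q ∧ q ≤ 16 * K ^ 2 ∧
    dI ((q : ℝ) * (2 * (b.val : ℝ) / P)) ≤ 32 * (K : ℝ) ^ 6 / (N : ℝ) ^ 2)

/-- `n² + m²`. -/
def sq2 (p : ℕ × ℕ) : ℕ := p.1 ^ 2 + p.2 ^ 2

/-- the strip `n ≤ N`, `m ≤ M`. -/
def Str (N M : ℕ) : Finset (ℕ × ℕ) := Icc 1 N ×ˢ Icc 1 M

/-- the lattice points with `n, m ≥ 1`, `j n ≤ R m < (j + 1) n` and `n² + m² < X`. -/
def SecX (R j X : ℕ) : Finset (ℕ × ℕ) :=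
  (range (X + 1) ×ˢ range (X + 1)).filter (fun p => 1 ≤ p.1 ∧ 1 ≤ p.2 ∧ j * p.1 ≤ R * p.2 ∧
    R * p.2 < (j + 1) * p.1 ∧ sq2 p < X)

/-- vertical sections of the sector in the unit disc. -/
noncomputable def hj (R j : ℕ) (x : ℝ) : ℝ :=
  max 0 (min (((j : ℝ) + 1) * x / R) (Real.sqrt (1 - x ^ 2)) - (j : ℝ) * x / R)

/-- area of the sector in the unit disc. -/
noncomputable def aj (R j : ℕ) : ℝ := ∫ x in (0 : ℝ)..1, hj R j x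

/-- the weighted strip measure. -/
noncomputable def rhoS (N M k : ℕ) : ℝ :=
  2 / ((N : ℝ) ^ 2 * M) * ∑ p ∈ (Str N M).filter (fun p => sq2 p = k), (p.1 : ℝ)

/-- the sector measure. -/
noncomputable def sigS (R j N k : ℕ) : ℝ :=
  1 / (aj R j * (N : ℝ) ^ 2) * (((SecX R j (N ^ 2)).filter (fun p => sq2 p = k)).card : ℝ)

/-- the points of `Ω` with `k0 ≤ n² + m² < k1`. -/
def inW (Ω : Finset (ℕ × ℕ)) (k0 k1 : ℕ) : Finset (ℕ × ℕ) :=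
  Ω.filter (fun p => k0 ≤ sq2 p ∧ sq2 p < k1)

/-- the hypotheses on a region in a window `[k0, k0 + H2 s)`. -/
structure Win (Ω : Finset (ℕ × ℕ)) (d ε : ℝ) (Q ell k0 H2 s : ℕ) : Prop where
  sec : ∀ n : ℕ, ∃ a b : ℕ, ∀ m : ℕ, (n, m) ∈ inW Ω k0 (k0 + H2 * s) ↔ a ≤ m ∧ m < b
  few : ((((inW Ω k0 (k0 + H2 * s)).image Prod.fst).card : ℝ)) * ell ≤ ε * d * (H2 * s)
  cnt : ∀ q : ℕ, 1 ≤ q → q ≤ 16 * Q ^ 2 → ∀ u v : ℕ, u < q → v < q → ∀ i : ℕ, i < s →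
    |((((inW Ω (k0 + i * H2) (k0 + (i + 1) * H2)).filter
      (fun p => p.1 % q = u ∧ p.2 % q = v)).card : ℝ)) - d * H2 / (q : ℝ) ^ 2|
      ≤ ε * d * H2 / (q : ℝ) ^ 2

/-! ### averages of a bounded sequence `F` -/

/-- `W(N, M) = (2/(N² M)) ∑_{n ≤ N, m ≤ M} n F(n² + m²)`. -/
noncomputable def WF (F : ℕ → ℝ) (N M : ℕ) : ℝ :=
  2 / ((N : ℝ) ^ 2 * M) * ∑ n ∈ Icc 1 N, ∑ m ∈ Icc 1 M, (n : ℝ) * F (n ^ 2 + m ^ 2)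

/-- sector averages. -/
noncomputable def SF (F : ℕ → ℝ) (R j N : ℕ) : ℝ :=
  1 / (aj R j * (N : ℝ) ^ 2) * ∑ p ∈ SecX R j (N ^ 2), F (sq2 p)

/-- `N^{-(1+c)} ∑_{n ≤ N, m ≤ N^c} F(n² + m²)`. -/
noncomputable def AF (F : ℕ → ℝ) (c : ℝ) (N : ℕ) : ℝ :=
  1 / (N : ℝ) ^ (1 + c) * ∑ n ∈ Icc 1 N, ∑ m ∈ Icc 1 ⌊(N : ℝ) ^ c⌋₊, F (n ^ 2 + m ^ 2)

/-- `N^{-2} ∑_{n, m ≤ N} F(n² + m²)`. -/
noncomputable def BF (F : ℕ → ℝ) (N : ℕ) : ℝ :=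
  1 / (N : ℝ) ^ 2 * ∑ n ∈ Icc 1 N, ∑ m ∈ Icc 1 N, F (n ^ 2 + m ^ 2)

/-- `W(N, M) - W(N, M')` is small uniformly in `M, M' ∈ [N^{c1}, N^{c2}]`. -/
def UnifW (F : ℕ → ℝ) (c1 c2 : ℝ) : Prop :=
  ∀ ε : ℝ, 0 < ε → ∃ N0 : ℕ, ∀ N : ℕ, N0 ≤ N → ∀ M M' : ℕ,
    (N : ℝ) ^ c1 ≤ M → (M : ℝ) ≤ (N : ℝ) ^ c2 → (N : ℝ) ^ c1 ≤ M' → (M' : ℝ) ≤ (N : ℝ) ^ c2 →
      |WF F N M - WF F N M'| ≤ ε

/-- the two-sided orbit products `F_x(k) = f(T^k x) g(T^{-k} x)`. -/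
def FT {X : Type} [MeasurableSpace X] (T : X ≃ᵐ X) (f g : X → ℝ) (x : X) (k : ℕ) : ℝ :=
  f ((⇑T)^[k] x) * g ((⇑T.symm)^[k] x)

end Pool.Agent.BSQ
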