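import Pool.Agent.BSQ.StA

/-!
# BSQ, module MSS: mass of the strip measure (helper18 for helper44)
-/

set_option autoImplicit false

namespace Pool.Agent.BSQ

open Finset MeasureTheory Filter Topology
open scoped BigOperators
open Classical

/-- the mass of a set of values -/
theorem mss_gen (N M : ℕ) (hM : 1 ≤ M) (S T : Finset ℕ)
    (h : ∀ p ∈ Str N M, sq2 p ∈ S → p.1 ∈ T) (hT : T ⊆ Icc 1 N) :
    ∑ k ∈ S, rhoS N M k ≤ (∑ n ∈ T, 2 * (n : ℝ)) / (N : ℝ) ^ 2 := by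
  have hM' : (0 : ℝ) < M := Nat.cast_pos.2 hM
  have h1 : ∑ k ∈ S, rhoS N M k =
      2 / ((N : ℝ) ^ 2 * M) * ∑ p ∈ Str N M, (if sq2 p ∈ S then (p.1 : ℝ) else 0) := by
    unfold rhoS
    rw [← Finset.mul_sum]
    congr 1
    have h2 : ∀ k ∈ S, ∑ p ∈ (Str N M).filter (fun p => sq2 p = k), (p.1 : ℝ) =
        ∑ p ∈ Str N M, (if sq2 p = k then (p.1 : ℝ) else 0) := fun k _ => Finset.sum_filter _ _
    rw [Finset.sum_congr rfl h2, Finset.sum_comm]
    refine Finset.sum_congr rfl fun p _ => ?_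
    rw [Finset.sum_ite_eq]
  have h3 : ∑ p ∈ Str N M, (if sq2 p ∈ S then (p.1 : ℝ) else 0) ≤ M * ∑ n ∈ T, (n : ℝ) := by
    have h4 : ∑ p ∈ Str N M, (if sq2 p ∈ S then (p.1 : ℝ) else 0) ≤
        ∑ p ∈ Str N M, (if p.1 ∈ T then (p.1 : ℝ) else 0) := by
      refine Finset.sum_le_sum fun p hp => ?_
      by_cases h5 : sq2 p ∈ S
      · rw [if_pos h5, if_pos (h p hp h5)]
      · rw [if_neg h5]
        split_ifs
        · exact Nat.cast_nonneg _
        · exact le_rfl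
    refine h4.trans (le_of_eq ?_)
    unfold Str
    rw [Finset.sum_product]
    have h6 : ∀ n ∈ Icc 1 N, ∑ m ∈ Icc 1 M, (if ((n, m) : ℕ × ℕ).1 ∈ T then (((n, m) : ℕ × ℕ).1 : ℝ) else 0) =
        M * (if n ∈ T then (n : ℝ) else 0) := by
      intro n _
      show (∑ _m ∈ Icc 1 M, if n ∈ T then (n : ℝ) else 0) = _
      rw [Finset.sum_const, Nat.card_Icc, nsmul_eq_mul, Nat.add_sub_cancel]
    rw [Finset.sum_congr rfl h6, ← Finset.mul_sum, ← Finset.sum_filter]
    congr 2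
    ext n
    rw [Finset.mem_filter]
    exact ⟨fun h7 => h7.2, fun h7 => ⟨hT h7, h7⟩⟩
  rw [h1]
  calc 2 / ((N : ℝ) ^ 2 * M) * ∑ p ∈ Str N M, (if sq2 p ∈ S then (p.1 : ℝ) else 0)
      ≤ 2 / ((N : ℝ) ^ 2 * M) * (M * ∑ n ∈ T, (n : ℝ)) :=
        mul_le_mul_of_nonneg_left h3 (by positivity)
    _ = (∑ n ∈ T, 2 * (n : ℝ)) / (N : ℝ) ^ 2 := by
        rw [← Finset.mul_sum]
        rcases Nat.eq_zero_or_pos N with hN | hN
        · rw [hN]
          simp
        · have hN' : (0 : ℝ) < N := Nat.cast_pos.2 hN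
          field_simp

/-- the sum of the first even numbers -/
theorem mss_sum (r : ℕ) : ∑ n ∈ Icc 1 r, 2 * (n : ℝ) = r * (r + 1) := by
  induction r with
  | zero => simp
  | succ r ih =>
    rw [Finset.sum_Icc_succ_top (by omega), ih]
    push_cast
    ring

theorem thm_MSS : St_MSS := by
  intro N M hM hMN
  have hN : 1 ≤ N := hM.trans hMN
  have hN' : (1 : ℝ) ≤ N := by exact_mod_cast hN
  have hN2 : (0 : ℝ) < (N : ℝ) ^ 2 := by positivity
  refine ⟨?_, ?_, ?_, ?_⟩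
  · intro k
    unfold rhoS
    refine mul_nonneg (by positivity) (Finset.sum_nonneg fun p _ => Nat.cast_nonneg _)
  · have h1 := mss_gen N M hM (range (2 * N ^ 2 + 1)) (Icc 1 N)
      (fun p hp _ => (Finset.mem_product.1 hp).1) Subset.rfl
    refine h1.trans ?_
    rw [mss_sum, div_le_iff₀ hN2]
    nlinarith
  · intro Y
    have h1 := mss_gen N M hM (range Y) ((Icc 1 N).filter fun n => n ^ 2 < Y) (by
      intro p hp hY
      rw [Finset.mem_range] at hY
      refine Finset.mem_filter.2 ⟨(Finset.mem_product.1 hp).1, ?_⟩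
      unfold sq2 at hY
      omega) (Finset.filter_subset _ _)
    refine h1.trans ?_
    rw [div_le_div_iff_of_pos_right hN2]
    have h2 : ∑ n ∈ (Icc 1 N).filter (fun n => n ^ 2 < Y), 2 * (n : ℝ) ≤
        ∑ n ∈ Icc 1 (Nat.sqrt Y), 2 * (n : ℝ) := by
      refine Finset.sum_le_sum_of_subset_of_nonneg ?_ fun n _ _ => by positivity
      intro n hn
      rw [Finset.mem_filter, Finset.mem_Icc] at hn
      rw [Finset.mem_Icc]
      exact ⟨hn.1.1, Nat.le_sqrt'.2 hn.2.le⟩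
    refine h2.trans ?_
    rw [mss_sum]
    have h3 : Nat.sqrt Y ^ 2 ≤ Y := Nat.sqrt_le' Y
    have h4 : Nat.sqrt Y * (Nat.sqrt Y + 1) ≤ 2 * Y := by
      rcases Nat.eq_zero_or_pos (Nat.sqrt Y) with h5 | h5
      · rw [h5]
        omega
      · nlinarith
    exact_mod_cast h4
  · intro Y k1 hk
    have h1 := mss_gen N M hM (Ico k1 (2 * N ^ 2 + 1))
      ((Icc 1 N).filter fun n => N ^ 2 ≤ n ^ 2 + M ^ 2 + Y) (by
      intro p hp hY
      rw [Finset.mem_Ico] at hY
      have hp' := Finset.mem_product.1 hp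
      refine Finset.mem_filter.2 ⟨hp'.1, ?_⟩
      have h2 : p.2 ≤ M := (Finset.mem_Icc.1 hp'.2).2
      have h3 : p.2 ^ 2 ≤ M ^ 2 := Nat.pow_le_pow_left h2 2
      unfold sq2 at hY
      omega) (Finset.filter_subset _ _)
    refine h1.trans ?_
    rw [div_le_div_iff_of_pos_right hN2]
    rcases ((Icc 1 N).filter fun n => N ^ 2 ≤ n ^ 2 + M ^ 2 + Y).eq_empty_or_nonempty with h2 | h2
    · rw [h2, Finset.sum_empty]
      positivity
    · obtain ⟨n₁, hn₁, hmin⟩ := Finset.exists_min_image _ (fun n => n) h2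
      have h3 := Finset.mem_filter.1 hn₁
      have h4 := Finset.mem_Icc.1 h3.1
      obtain ⟨a, rfl⟩ : ∃ a, n₁ = a + 1 := ⟨n₁ - 1, by omega⟩
      have h5 : ∑ n ∈ (Icc 1 N).filter (fun n => N ^ 2 ≤ n ^ 2 + M ^ 2 + Y), 2 * (n : ℝ) ≤
          ∑ n ∈ Icc (a + 1) N, 2 * (n : ℝ) := by
        refine Finset.sum_le_sum_of_subset_of_nonneg ?_ fun n _ _ => by positivity
        intro n hn
        rw [Finset.mem_Icc]
        exact ⟨hmin n hn, (Finset.mem_Icc.1 (Finset.mem_filter.1 hn).1).2⟩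
      have h6 : ∑ n ∈ Icc 1 a, 2 * (n : ℝ) + ∑ n ∈ Icc (a + 1) N, 2 * (n : ℝ) =
          ∑ n ∈ Icc 1 N, 2 * (n : ℝ) := by
        rw [← Finset.sum_union]
        · congr 1
          ext n
          simp only [Finset.mem_union, Finset.mem_Icc]
          omega
        · rw [Finset.disjoint_left]
          intro n hn hn'
          rw [Finset.mem_Icc] at hn hn'
          omega
      rw [mss_sum, mss_sum] at h6
      refine h5.trans ?_
      have h7 : (N : ℝ) ^ 2 ≤ ((a : ℝ) + 1) ^ 2 + M ^ 2 + Y := by exact_mod_cast h3.2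
      have h8 : (a : ℝ) + 1 ≤ N := by exact_mod_cast h4.2
      nlinarith

end Pool.Agent.BSQ
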