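import Pool.Agent.BSQ.StA

/-!
# BSQ, WDS (helper25): window discrepancy of two strips
-/

set_option autoImplicit false

namespace Pool.Agent.BSQ

open Finset MeasureTheory Filter Topology
open scoped BigOperators
open Classical

private theorem wds_ee (t : ℝ) : ‖ee t‖ = 1 := by
  unfold ee
  exact Complex.norm_exp_ofReal_mul_I _

private theorem wds_card {Ω : Finset (ℕ × ℕ)} {d ε : ℝ} {Q ell k0 H2 s : ℕ}
    (hW : Win Ω d ε Q ell k0 H2 s) (hQ : 1 ≤ Q) (hH : 0 < H2) :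
    ((inW Ω k0 (k0 + H2 * s)).card : ℝ) ≤ (1 + ε) * d * (H2 * s) := by
  have h1 : inW Ω k0 (k0 + H2 * s) ⊆
      (range s).biUnion (fun i => inW Ω (k0 + i * H2) (k0 + (i + 1) * H2)) := by
    intro p hp
    unfold inW at hp
    rw [mem_filter] at hp
    obtain ⟨hp1, hp2, hp3⟩ := hp
    rw [mem_biUnion]
    obtain ⟨a, ha⟩ : ∃ a, sq2 p = k0 + a := ⟨sq2 p - k0, by omega⟩
    have h2 : a < s * H2 := by
      rw [mul_comm]
      omega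
    refine ⟨a / H2, mem_range.2 ((Nat.div_lt_iff_lt_mul hH).2 h2), ?_⟩
    unfold inW
    rw [mem_filter, ha]
    refine ⟨hp1, ?_, ?_⟩
    · exact Nat.add_le_add_left (Nat.div_mul_le_self a H2) k0
    · have h3 := Nat.lt_mul_div_succ a hH
      rw [mul_comm] at h3
      omega
  have h2 : ∀ i ∈ range s, ((inW Ω (k0 + i * H2) (k0 + (i + 1) * H2)).card : ℝ) ≤
      (1 + ε) * d * H2 := by
    intro i hi
    have h3 := hW.cnt 1 le_rfl (by nlinarith) 0 0 one_pos one_pos i (mem_range.1 hi)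
    have h4 : (inW Ω (k0 + i * H2) (k0 + (i + 1) * H2)).filter
        (fun p => p.1 % 1 = 0 ∧ p.2 % 1 = 0) = inW Ω (k0 + i * H2) (k0 + (i + 1) * H2) := by
      rw [filter_eq_self]
      intro p _
      exact ⟨Nat.mod_one _, Nat.mod_one _⟩
    rw [h4] at h3
    have h5 := (abs_le.1 h3).2
    norm_num at h5
    linarith
  have h3 : ((inW Ω k0 (k0 + H2 * s)).card : ℝ) ≤
      ∑ i ∈ range s, ((inW Ω (k0 + i * H2) (k0 + (i + 1) * H2)).card : ℝ) := by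
    have h4 := (card_le_card h1).trans card_biUnion_le
    exact_mod_cast h4
  refine h3.trans ((sum_le_sum h2).trans ?_)
  rw [sum_const, card_range, nsmul_eq_mul]
  apply le_of_eq
  ring

private theorem wds_sum (N M k0 H' : ℕ) (θ : ℝ) :
    ∑ k ∈ Ico k0 (k0 + H'), ((rhoS N M k : ℝ) : ℂ) * ee ((k : ℝ) * θ) =
      ((2 / ((N : ℝ) ^ 2 * M) : ℝ) : ℂ) *
        ∑ p ∈ inW (Str N M) k0 (k0 + H'), ((p.1 : ℝ) : ℂ) * ee ((sq2 p : ℝ) * θ) := by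
  have h1 : ∀ k ∈ Ico k0 (k0 + H'), ((rhoS N M k : ℝ) : ℂ) * ee ((k : ℝ) * θ) =
      ((2 / ((N : ℝ) ^ 2 * M) : ℝ) : ℂ) *
        ∑ p ∈ (inW (Str N M) k0 (k0 + H')).filter (fun p => sq2 p = k),
          ((p.1 : ℝ) : ℂ) * ee ((sq2 p : ℝ) * θ) := by
    intro k hk
    rw [mem_Ico] at hk
    have h2 : (inW (Str N M) k0 (k0 + H')).filter (fun p => sq2 p = k) =
        (Str N M).filter (fun p => sq2 p = k) := by
      unfold inW
      ext p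
      simp only [mem_filter]
      constructor
      · rintro ⟨⟨h3, -⟩, h4⟩
        exact ⟨h3, h4⟩
      · rintro ⟨h3, h4⟩
        exact ⟨⟨h3, by omega⟩, h4⟩
    rw [h2]
    unfold rhoS
    rw [Complex.ofReal_mul, mul_assoc, Complex.ofReal_sum, sum_mul]
    congr 1
    refine sum_congr rfl fun p hp => ?_
    rw [(mem_filter.1 hp).2]
  rw [sum_congr rfl h1, ← mul_sum]
  congr 1
  refine sum_fiberwise_of_maps_to ?_ _
  intro p hp
  unfold inW at hp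
  rw [mem_filter] at hp
  rw [mem_Ico]
  exact hp.2

private theorem wds_one {N M Q ell k0 H2 s : ℕ} (θ : ℝ) (hM : 0 < M) (hN : 0 < N) (hk : 0 < k0)
    (hQ : 8 ≤ Q) (hH : 0 < H2) (hMk : (M ^ 2 + H2 * s) * Q ≤ k0)
    (hW : Win (Str N M) (M / (2 * Real.sqrt k0)) (8 / Q) Q ell k0 H2 s) :
    ‖∑ k ∈ Ico k0 (k0 + H2 * s), ((rhoS N M k : ℝ) : ℂ) * ee ((k : ℝ) * θ) -
      ((1 / (N : ℝ) ^ 2 : ℝ) : ℂ) * ((∑ p ∈ inW (Str N M) k0 (k0 + H2 * s),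
        ee ((sq2 p : ℝ) * θ)) / ((M / (2 * Real.sqrt k0) : ℝ) : ℂ))‖ ≤
      2 / Q * (H2 * s) / (N : ℝ) ^ 2 := by
  have hQr : (8 : ℝ) ≤ Q := by exact_mod_cast hQ
  have hMr : (0 : ℝ) < M := by exact_mod_cast hM
  have hNr : (0 : ℝ) < N := by exact_mod_cast hN
  have hkr : (0 : ℝ) < k0 := by exact_mod_cast hk
  obtain ⟨r, hr⟩ : ∃ r, r = Real.sqrt k0 := ⟨_, rfl⟩
  have hr0 : 0 < r := by
    rw [hr]
    exact Real.sqrt_pos.2 hkr
  have hrr : r * r = k0 := by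
    rw [hr]
    exact Real.mul_self_sqrt hkr.le
  have hH'0 : (0 : ℝ) ≤ (H2 : ℝ) * s := by positivity
  have hcard := wds_card hW (by omega) hH
  rw [← hr] at hcard ⊢
  obtain ⟨D, hD⟩ : ∃ D : ℝ, D = ((M : ℝ) ^ 2 + H2 * s) / r := ⟨_, rfl⟩
  have hD0 : 0 ≤ D := by rw [hD]; positivity
  have hnear : ∀ p ∈ inW (Str N M) k0 (k0 + H2 * s), |(p.1 : ℝ) - r| ≤ D := by
    intro p hp
    unfold inW Str at hp
    rw [mem_filter, mem_product, mem_Icc, mem_Icc] at hp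
    obtain ⟨⟨⟨h1, h2⟩, h3, h4⟩, h5, h6⟩ := hp
    unfold sq2 at h5 h6
    have h1r : (1 : ℝ) ≤ p.1 := by exact_mod_cast h1
    have h4r : (p.2 : ℝ) ≤ M := by exact_mod_cast h4
    have h5r : (k0 : ℝ) ≤ (p.1 : ℝ) ^ 2 + (p.2 : ℝ) ^ 2 := by exact_mod_cast h5
    have h6r : (p.1 : ℝ) ^ 2 + (p.2 : ℝ) ^ 2 ≤ k0 + H2 * s := by exact_mod_cast h6.le
    have h7 : (p.2 : ℝ) ^ 2 ≤ (M : ℝ) ^ 2 := pow_le_pow_left₀ (Nat.cast_nonneg _) h4r 2
    have h8 : 0 ≤ (p.2 : ℝ) ^ 2 := by positivity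
    have h9 : |(p.1 : ℝ) ^ 2 - k0| ≤ (M : ℝ) ^ 2 + H2 * s := by
      rw [abs_le]
      constructor
      · linarith
      · nlinarith [sq_nonneg (M : ℝ)]
    have h10 : (p.1 : ℝ) ^ 2 - k0 = ((p.1 : ℝ) - r) * (p.1 + r) := by
      rw [← hrr]
      ring
    rw [h10, abs_mul, abs_of_pos (show (0 : ℝ) < (p.1 : ℝ) + r by linarith)] at h9
    rw [hD, le_div_iff₀ hr0]
    refine le_trans ?_ h9
    exact mul_le_mul_of_nonneg_left (by linarith) (abs_nonneg _)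
  rw [wds_sum]
  have hid : ((1 / (N : ℝ) ^ 2 : ℝ) : ℂ) * ((∑ p ∈ inW (Str N M) k0 (k0 + H2 * s),
        ee ((sq2 p : ℝ) * θ)) / ((M / (2 * r) : ℝ) : ℂ)) =
      ((2 / ((N : ℝ) ^ 2 * M) : ℝ) : ℂ) * ∑ p ∈ inW (Str N M) k0 (k0 + H2 * s),
        ((r : ℝ) : ℂ) * ee ((sq2 p : ℝ) * θ) := by
    have hreal : 1 / (N : ℝ) ^ 2 / (M / (2 * r)) = 2 / ((N : ℝ) ^ 2 * M) * r := by
      field_simp
    rw [← mul_sum]
    generalize ∑ p ∈ inW (Str N M) k0 (k0 + H2 * s), ee ((sq2 p : ℝ) * θ) = E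
    have hgen : ∀ a d : ℝ, (a : ℂ) * (E / (d : ℂ)) = ((a / d : ℝ) : ℂ) * E := by
      intro a d
      rw [Complex.ofReal_div]
      ring
    rw [hgen, hreal, Complex.ofReal_mul, mul_assoc]
  rw [hid, ← mul_sub, ← sum_sub_distrib, norm_mul, Complex.norm_real,
    Real.norm_of_nonneg (by positivity)]
  have hsum : ‖∑ p ∈ inW (Str N M) k0 (k0 + H2 * s), (((p.1 : ℝ) : ℂ) * ee ((sq2 p : ℝ) * θ) -
      ((r : ℝ) : ℂ) * ee ((sq2 p : ℝ) * θ))‖ ≤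
      ((inW (Str N M) k0 (k0 + H2 * s)).card : ℝ) * D := by
    refine (norm_sum_le _ _).trans ?_
    rw [← nsmul_eq_mul]
    refine sum_le_card_nsmul _ _ _ fun p hp => ?_
    rw [← sub_mul, norm_mul, wds_ee, mul_one, ← Complex.ofReal_sub, Complex.norm_real,
      Real.norm_eq_abs]
    exact hnear p hp
  have hMk' : ((M : ℝ) ^ 2 + H2 * s) * Q ≤ k0 := by exact_mod_cast hMk
  have hε : (8 : ℝ) / Q ≤ 1 := by
    rw [div_le_one (by linarith)]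
    exact hQr
  have h1 : ((inW (Str N M) k0 (k0 + H2 * s)).card : ℝ) * D ≤
      2 * (M / (2 * r)) * (H2 * s) * D := by
    refine mul_le_mul_of_nonneg_right (hcard.trans ?_) hD0
    refine mul_le_mul_of_nonneg_right ?_ hH'0
    refine mul_le_mul_of_nonneg_right (by linarith) (by positivity)
  have h2 : 2 / ((N : ℝ) ^ 2 * M) * (2 * (M / (2 * r)) * (H2 * s) * D) =
      2 * ((M : ℝ) ^ 2 + H2 * s) * (H2 * s) / ((r * r) * (N : ℝ) ^ 2) := by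
    rw [hD]
    field_simp
  calc 2 / ((N : ℝ) ^ 2 * M) * ‖∑ p ∈ inW (Str N M) k0 (k0 + H2 * s),
        (((p.1 : ℝ) : ℂ) * ee ((sq2 p : ℝ) * θ) - ((r : ℝ) : ℂ) * ee ((sq2 p : ℝ) * θ))‖ ≤
      2 / ((N : ℝ) ^ 2 * M) * (2 * (M / (2 * r)) * (H2 * s) * D) :=
        mul_le_mul_of_nonneg_left (hsum.trans h1) (by positivity)
    _ = 2 * ((M : ℝ) ^ 2 + H2 * s) * (H2 * s) / (k0 * (N : ℝ) ^ 2) := by rw [h2, hrr]
    _ ≤ 2 / Q * (H2 * s) / (N : ℝ) ^ 2 := by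
        rw [div_le_iff₀ (by positivity)]
        have h3 : 2 / (Q : ℝ) * (H2 * s) / (N : ℝ) ^ 2 * (k0 * (N : ℝ) ^ 2) =
            2 * (k0 / Q) * (H2 * s) := by
          field_simp
        rw [h3]
        refine mul_le_mul_of_nonneg_right ?_ hH'0
        refine mul_le_mul_of_nonneg_left ?_ (by norm_num)
        rw [le_div_iff₀ (by linarith)]
        exact hMk'

/-- **WDS.** -/
theorem thm_WDS (hL : St_LEMS) (hS : St_WST) : St_WDS := by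
  intro N M1 M2 Q ell k0 H2 s θ hs hQ hkN hM12 hMk hQM1 hNH hHM hNM hell h512 h202
  have hM1 : 0 < M1 := by
    have : 0 < Q ^ 3 := by positivity
    omega
  have hM2 : 0 < M2 := by omega
  have hk : 0 < k0 := by
    have h1 : 0 < (M2 ^ 2 + H2 * s) * Q := by positivity
    omega
  have hN : 0 < N := by
    rcases Nat.eq_zero_or_pos N with h | h
    · rw [h] at hkN
      simp at hkN
      omega
    · exact h
  have hH : 0 < H2 := by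
    have : 0 < 64 * N * Q ^ 3 := by positivity
    omega
  have hsq : M1 ^ 2 ≤ M2 ^ 2 := Nat.pow_le_pow_left hM12 2
  have hMk1 : (M1 ^ 2 + H2 * s) * Q ≤ k0 :=
    (Nat.mul_le_mul_right Q (Nat.add_le_add_right hsq _)).trans hMk
  have h2M2 : 2 * M2 ^ 2 ≤ k0 := by
    refine le_trans ?_ hMk
    nlinarith [Nat.zero_le (M2 ^ 2), Nat.zero_le (H2 * s)]
  have hell1 : ell * M1 * Q ≤ H2 * s :=
    (Nat.mul_le_mul_right Q (Nat.mul_le_mul_left ell hM12)).trans hell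
  have hW1 := hS N M1 Q ell k0 H2 s hs (by omega) hkN hMk1 (by omega) hQM1 hNH hHM hNM hell1
  have hW2 := hS N M2 Q ell k0 H2 s hs (by omega) hkN hMk h2M2 (by omega) hNH (hHM.trans hsq)
    (hNM.trans hsq) hell
  have hQr : (8 : ℝ) ≤ Q := by exact_mod_cast hQ
  have hM1r : (0 : ℝ) < M1 := by exact_mod_cast hM1
  have hM2r : (0 : ℝ) < M2 := by exact_mod_cast hM2
  have hNr : (0 : ℝ) < N := by exact_mod_cast hN
  have hkr : (0 : ℝ) < k0 := by exact_mod_cast hk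
  have hsk : 0 < Real.sqrt k0 := Real.sqrt_pos.2 hkr
  have hmain := hL (Str N M1) (Str N M2) (M1 / (2 * Real.sqrt k0)) (M2 / (2 * Real.sqrt k0))
    (8 / Q) Q ell k0 H2 s θ (by positivity) (by positivity) (by positivity)
    (by rw [div_le_one (by linarith)]; exact hQr) (by omega) h512 h202 hW1 hW2
  have h1 := wds_one θ hM1 hN hk hQ hH hMk1 hW1
  have h2 := wds_one θ hM2 hN hk hQ hH hMk hW2
  obtain ⟨S1, hS1⟩ : ∃ S1, S1 = ∑ k ∈ Ico k0 (k0 + H2 * s), ((rhoS N M1 k : ℝ) : ℂ) *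
    ee ((k : ℝ) * θ) := ⟨_, rfl⟩
  obtain ⟨S2, hS2⟩ : ∃ S2, S2 = ∑ k ∈ Ico k0 (k0 + H2 * s), ((rhoS N M2 k : ℝ) : ℂ) *
    ee ((k : ℝ) * θ) := ⟨_, rfl⟩
  obtain ⟨E1, hE1⟩ : ∃ E1, E1 = (∑ p ∈ inW (Str N M1) k0 (k0 + H2 * s),
    ee ((sq2 p : ℝ) * θ)) / ((M1 / (2 * Real.sqrt k0) : ℝ) : ℂ) := ⟨_, rfl⟩
  obtain ⟨E2, hE2⟩ : ∃ E2, E2 = (∑ p ∈ inW (Str N M2) k0 (k0 + H2 * s),
    ee ((sq2 p : ℝ) * θ)) / ((M2 / (2 * Real.sqrt k0) : ℝ) : ℂ) := ⟨_, rfl⟩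
  have hsplit : ∑ k ∈ Ico k0 (k0 + H2 * s), ((rhoS N M1 k - rhoS N M2 k : ℝ) : ℂ) *
      ee ((k : ℝ) * θ) = S1 - S2 := by
    rw [hS1, hS2, ← sum_sub_distrib]
    refine sum_congr rfl fun k _ => ?_
    rw [Complex.ofReal_sub, sub_mul]
  rw [hsplit]
  rw [← hS1, ← hE1] at h1
  rw [← hS2, ← hE2] at h2
  rw [← hE1, ← hE2] at hmain
  obtain ⟨a, ha⟩ : ∃ a : ℂ, a = ((1 / (N : ℝ) ^ 2 : ℝ) : ℂ) := ⟨_, rfl⟩
  rw [← ha] at h1 h2
  have hna : ‖a‖ = 1 / (N : ℝ) ^ 2 := by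
    rw [ha, Complex.norm_real, Real.norm_of_nonneg (by positivity)]
  have h3 : S1 - S2 = (S1 - a * E1) - (S2 - a * E2) + a * (E1 - E2) := by ring
  have h4 : ‖S1 - S2‖ ≤ ‖S1 - a * E1‖ + ‖S2 - a * E2‖ + ‖a * (E1 - E2)‖ := by
    rw [h3]
    exact (norm_add_le _ _).trans (add_le_add_left (norm_sub_le _ _) _)
  have h5 : ‖a * (E1 - E2)‖ ≤ 1 / (N : ℝ) ^ 2 * ((4 / Q + 2 * (8 / Q)) * (H2 * s)) := by
    rw [norm_mul, hna]
    exact mul_le_mul_of_nonneg_left hmain (by positivity)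
  have h6 : 1 / (N : ℝ) ^ 2 * ((4 / Q + 2 * (8 / Q)) * ((H2 : ℝ) * s)) =
      20 / Q * (H2 * s) / (N : ℝ) ^ 2 := by ring
  have h7 : 24 / (Q : ℝ) * (H2 * s) / (N : ℝ) ^ 2 = 2 / Q * (H2 * s) / (N : ℝ) ^ 2 +
      2 / Q * (H2 * s) / (N : ℝ) ^ 2 + 20 / Q * (H2 * s) / (N : ℝ) ^ 2 := by ring
  rw [h7]
  linarith

end Pool.Agent.BSQ
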